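import Pool.Agent.P.MP_8b7eba_nt.SM.IfC

/-! Proof of ANA1. -/

namespace Pool.Agent.P.MP_8b7eba_nt.SM

open Finset

namespace TANA1

theorem blocks {α : Type} [DecidableEq α] (T : Finset α) (τ : Type) [Fintype τ] (l : ℕ)
    (h : Fintype.card τ * l ≤ T.card) : ∃ J : τ → Finset α, (∀ s, J s ⊆ T ∧ l ≤ (J s).card) ∧
      ∀ s s', s ≠ s' → Disjoint (J s) (J s') := by
  obtain ⟨e⟩ := Function.Embedding.nonempty_of_card_le (α := τ × Fin l) (β := T) (by simpa using h)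
  have inj : Function.Injective fun x => (e x : α) := Subtype.val_injective.comp e.injective
  refine ⟨fun s => univ.image fun j => (e (s, j) : α), fun s => ⟨fun x hx => ?_, ?_⟩,
    fun s s' hs => disjoint_left.2 fun x a b => ?_⟩
  · obtain ⟨j, -, rfl⟩ := mem_image.1 hx
    exact (e _).2
  · rw [card_image_of_injective _ fun j j' c => (Prod.ext_iff.1 (inj c)).2, card_univ,
      Fintype.card_fin]
  · obtain ⟨j, -, rfl⟩ := mem_image.1 a
    obtain ⟨j', -, c⟩ := mem_image.1 b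
    exact hs (Prod.ext_iff.1 (inj c)).1.symm

theorem pw {j p : ℕ} (h : 2 ^ j ≤ p) : 2 ^ j ≤ 2 ^ Nat.log 2 p :=
  Nat.pow_le_pow_right two_pos (Nat.le_log_of_pow_le one_lt_two h)

theorem mem_Xk {L p p' : ℕ} {S : Finset ℕ} (h : p' ∈ Xk L S p) : p'.Prime ∧ ce L p' = ce L p ∧
    (∀ a : ℤ, a ∣ 30 * ∏ q ∈ S, (q : ℤ) → jacobiSym a p' = jacobiSym a p) ∧
    2 ^ Nat.log 2 p ≤ p' ∧ p' ≤ 2 * 2 ^ Nat.log 2 p := by
  classical
  obtain ⟨a, b, c, d⟩ := mem_filter.1 h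
  refine ⟨b, c, d, ?_, ?_⟩
  · rw [← show Nat.log 2 p' = Nat.log 2 p from congrArg Prod.fst c]
    exact Nat.pow_log_le_self 2 b.ne_zero
  · rw [mem_range, pow_succ'] at a
    exact a.le

theorem num {A L m : ℕ} (h2 : 2 ≤ L) (hA : A ≤ L) (hm : m ≤ L ^ 2) :
    (2 ^ (m + 2) ^ 2 * (2 ^ (5 * L) + 2)) ^ A ≤ 2 ^ L ^ 7 := by
  have a1 : 2 ^ (5 * L) + 2 ≤ 2 ^ (5 * L + 2) := by
    have := Nat.one_le_two_pow (n := 5 * L)
    rw [pow_add]
    omega
  have a2 : (m + 2) ^ 2 ≤ (L ^ 2 + 2) ^ 2 := Nat.pow_le_pow_left (by omega) 2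
  have a3 : (L ^ 2 + 2) ^ 2 + (5 * L + 2) ≤ L ^ 6 := by
    obtain ⟨k, rfl⟩ := Nat.exists_eq_add_of_le h2
    ring_nf
    omega
  refine (Nat.pow_le_pow_left (Nat.mul_le_mul_left _ a1) A).trans ?_
  rw [← pow_add, ← pow_mul]
  refine Nat.pow_le_pow_right two_pos ?_
  rw [pow_succ L 6]
  exact Nat.mul_le_mul (by omega) hA

end TANA1

open TANA1 in
theorem t_ANA1 : ANA1 := by
  classical
  intro K l A N B₁ B₂ b1 b2
  refine ⟨2 + A + 24 * N, fun L n hL hn sq cop G => ?_⟩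
  obtain ⟨p, inj, im⟩ : ∃ p : Fin (la L n).card → ℕ, Function.Injective p ∧
      univ.image p = la L n :=
    ⟨(la L n).orderEmbOfFin rfl, ((la L n).orderEmbOfFin rfl).injective,
      image_orderEmbOfFin_univ _ _⟩
  have pl : ∀ i, p i ∈ la L n := fun i => im ▸ mem_image_of_mem p (mem_univ i)
  have p0 : ∀ i, 2 ^ L ^ 7 ≤ 2 ^ Nat.log 2 (p i) := fun i => pw (mem_filter.1 (pl i)).2
  have p1 : ∀ i, 2 ^ Nat.log 2 (p i) ≤ p i := fun i =>
    Nat.pow_log_le_self 2 (Nat.prime_of_mem_primeFactors (mem_filter.1 (pl i)).1).ne_zero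
  have y30 : 30 < 2 ^ L ^ 7 := lt_of_lt_of_le (by norm_num : 30 < 2 ^ 2 ^ 7)
    (Nat.pow_le_pow_right two_pos (Nat.pow_le_pow_left (by omega) 7))
  have e1 : 2 ^ L ^ 7 ≤ 2 ^ (L ^ 7 * B₁) :=
    Nat.pow_le_pow_right two_pos (Nat.le_mul_of_pos_right _ b1)
  have e2 : 2 ^ (L ^ 7 * B₁) ≤ 2 ^ (L ^ 7 * B₁ * (A + 1)) :=
    Nat.pow_le_pow_right two_pos (Nat.le_mul_of_pos_right _ A.succ_pos)
  have e3 : 2 ^ (L ^ 7 * B₁ * (A + 1)) ≤ 2 ^ (L ^ 7 * B₁ * (A + 1) * B₂) :=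
    Nat.pow_le_pow_right two_pos (Nat.le_mul_of_pos_right _ b2)
  have sur : ∀ q ∈ n.primeFactors, 2 ^ L ^ 7 ≤ q → ∃ i, p i = q := fun q hq h => by
    have : q ∈ univ.image p := im.ge (mem_filter.2 ⟨hq, h⟩)
    simpa using this
  have cnt : ∀ (T : Finset ℕ) (U : Finset (Fin (la L n).card)),
      (∀ q ∈ T, q ∈ n.primeFactors ∧ 2 ^ L ^ 7 ≤ q) → (∀ i, p i ∈ T → i ∈ U) → T.card ≤ U.card :=
    fun T U h1 h2 => le_trans (card_le_card fun q hq => by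
      obtain ⟨i, rfl⟩ := sur q (h1 q hq).1 (h1 q hq).2
      exact mem_image_of_mem p (h2 i hq)) card_image_le
  obtain ⟨J1, c1, d1⟩ := blocks (univ.filter fun i => p i < 2 ^ (L ^ 7 * B₁)) (Fin K) l (by
    rw [Fintype.card_fin]
    exact G.low.trans (cnt _ _ (fun q hq => ⟨(mem_filter.1 hq).1, (mem_filter.1 hq).2.1⟩)
      fun i hi => mem_filter.2 ⟨mem_univ i, (mem_filter.1 hi).2.2⟩))
  obtain ⟨J2, c2, d2⟩ := blocks (univ.filter fun i => 2 ^ (L ^ 7 * B₁ * (A + 1)) ≤ p i ∧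
      p i < 2 ^ (L ^ 7 * B₁ * (A + 1) * B₂)) Bool l (by
    rw [Fintype.card_bool]
    exact G.high.trans (cnt _ _ (fun q hq => ⟨(mem_filter.1 hq).1,
      (e1.trans e2).trans (mem_filter.1 hq).2.1⟩)
      fun i hi => mem_filter.2 ⟨mem_univ i, (mem_filter.1 hi).2⟩))
  have m1 : ∀ s, ∀ i ∈ J1 s, p i < 2 ^ (L ^ 7 * B₁) := fun s i hi => (mem_filter.1 ((c1 s).1 hi)).2
  have m2 := fun s i (hi : i ∈ J2 s) => (mem_filter.1 ((c2 s).1 hi)).2
  have d3 : ∀ s s', Disjoint (J1 s) (J2 s') := fun s s' => disjoint_left.2 fun i a b =>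
    (m1 s i a).not_ge (e2.trans (m2 s' i b).1)
  refine ⟨⟨sm L n, _, fun i => Xk L (sm L n) (p i), fun i => 2 ^ Nat.log 2 (p i), 2 ^ (5 * L),
    fun q hq => ?_, fun i => ⟨fun q hq => ?_, G.rich _ (pl i), ?_⟩,
    fun i => disjoint_left.2 fun q a b => ?_, fun i j h => disjoint_left.2 fun q a b => ?_,
    fun i q a q' b c hc => ?_⟩, p, rfl, inj, im, fun _ => rfl, 2 ^ L ^ 7, 2 ^ (L ^ 7 * B₁),
    univ.filter fun i => 2 ^ (L ^ 7 * B₁ * (A + 1) * B₂) ≤ p i, Sum.elim J1 J2, ?_, e1, p0,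
    fun s i hi => (p1 i).trans (m1 s i hi).le, fun s i hi => ?_, ?_, ?_, ?_,
    fun a h1 h2 h3 => ?_, fun a h1 h2 h3 => ?_⟩
  · have h := (mem_filter.1 hq).1
    have hp := Nat.prime_of_mem_primeFactors h
    exact ⟨hp, fun c => hp.ne_one (Nat.eq_one_of_dvd_coprimes cop
      (Nat.dvd_of_mem_primeFactors h) c)⟩
  · obtain ⟨a, -, -, b, c⟩ := mem_Xk hq
    exact ⟨⟨a, fun e => (y30.trans_le ((p0 i).trans b)).not_ge (Nat.le_of_dvd (by norm_num) e)⟩,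
      b, c⟩
  · refine (p1 i).trans ((Nat.le_of_mem_primeFactors (mem_filter.1 (pl i)).1).trans
      (hn.le.trans ?_))
    exact Nat.pow_le_pow_right two_pos (Nat.pow_le_pow_right two_pos (by omega))
  · exact (mem_filter.1 b).2.not_ge ((p0 i).trans (mem_Xk a).2.2.2.1)
  · exact h (inj (G.inj (pl i) (pl j) ((mem_Xk a).2.1.symm.trans (mem_Xk b).2.1)))
  · exact ((mem_Xk a).2.2.1 c hc).trans ((mem_Xk b).2.2.1 c hc).symm
  · refine num (by omega) (by omega) (le_trans ?_ G.om)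
    refine (card_union_of_disjoint (s := la L n) (t := sm L n) (disjoint_left.2 fun q a b =>
      (mem_filter.1 b).2.not_ge (mem_filter.1 a).2)).ge.trans (card_le_card ?_)
    exact union_subset (filter_subset _ _) (filter_subset _ _)
  · refine le_trans ?_ (pw (m2 s i hi).1)
    rw [← pow_mul]
    exact Nat.pow_le_pow_right two_pos (Nat.mul_le_mul_left _ A.le_succ)
  · rintro (s | s)
    exacts [(c1 s).2, (c2 s).2]
  · rintro (s | s) (s' | s') h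
    exacts [d1 s s' fun e => h (congrArg _ e), d3 s s', (d3 s' s).symm,
      d2 s s' fun e => h (congrArg _ e)]
  · rintro (s | s)
    · exact disjoint_left.2 fun i a b => (m1 s i a).not_ge ((e2.trans e3).trans (mem_filter.1 b).2)
    · exact disjoint_left.2 fun i a b => (m2 s i a).2.not_ge (mem_filter.1 b).2
  · obtain ⟨q, q1, q2, q3⟩ := G.u1 a h1 h2 h3
    obtain ⟨i, rfl⟩ := sur q q1 (((e1.trans e2).trans e3).trans q2)
    exact ⟨i, mem_filter.2 ⟨mem_univ i, q2⟩, fun q hq => ((mem_Xk hq).2.2.1 a h3).trans q3⟩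
  · have f1 := G.na a h1 h2 h3
    have f2 := G.n0
    have f3 := cnt ((la L n).filter fun p => jacobiSym a p = -1)
      (univ.filter fun i => ∀ q ∈ Xk L (sm L n) (p i), jacobiSym a q = -1)
      (fun q hq => mem_filter.1 (mem_filter.1 hq).1) fun i hi => mem_filter.2 ⟨mem_univ i,
        fun q hq => ((mem_Xk hq).2.2.1 a (h3.mul_right _)).trans (mem_filter.1 hi).2⟩
    refine le_trans ?_ f3
    change 4 * (sm L n).card + N ≤ _
    omega

end Pool.Agent.P.MP_8b7eba_nt.SM
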