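import Pool.Agent.P.MP_8b7eba_nt.SM.IfC

/-! Proof of ANA2 and ANA. -/

namespace Pool.Agent.P.MP_8b7eba_nt.SM

open Finset

namespace TANA2

open Classical in
/-- rarity with a fixed proportion -/
def RE (ε : ℝ) (P : ℕ → ℕ → Prop) : Prop :=
  ∃ L₀ : ℕ, ∀ L X : ℕ, L₀ ≤ L → 2 ^ 2 ^ L ≤ X → X < 2 ^ 2 ^ (L + 1) →
    (((Icc 1 X).filter fun n => P L n).card : ℝ) ≤ ε * X

theorem RE.or {ε ε' : ℝ} {P Q : ℕ → ℕ → Prop} (hP : RE ε P) (hQ : RE ε' Q) :
    RE (ε + ε') fun L n => P L n ∨ Q L n := by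
  classical
  obtain ⟨a, ha⟩ := hP
  obtain ⟨b, hb⟩ := hQ
  refine ⟨max a b, fun L X hL h1 h2 => ?_⟩
  have h3 := ha L X (le_of_max_le_left hL) h1 h2
  have h4 := hb L X (le_of_max_le_right hL) h1 h2
  refine le_trans ?_ ((add_le_add h3 h4).trans (le_of_eq (by ring)))
  rw [← Nat.cast_add, Nat.cast_le]
  refine le_trans (card_le_card ?_) (card_union_le _ _)
  intro n hn
  simp only [mem_filter, mem_union] at hn ⊢
  tauto

theorem RE.mono {ε ε' : ℝ} {P Q : ℕ → ℕ → Prop} (hP : RE ε P) (hε : ε ≤ ε')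
    (h : ∀ L n, Q L n → P L n) : RE ε' Q := by
  classical
  obtain ⟨a, ha⟩ := hP
  refine ⟨a, fun L X hL h1 h2 => ?_⟩
  have h3 := ha L X hL h1 h2
  refine le_trans ?_ (h3.trans (mul_le_mul_of_nonneg_right hε (Nat.cast_nonneg _)))
  rw [Nat.cast_le]
  refine card_le_card ?_
  intro n hn
  simp only [mem_filter] at hn ⊢
  exact ⟨hn.1, h _ _ hn.2⟩

theorem re_of_rare {P : ℕ → ℕ → Prop} (h : Rare P) {ε : ℝ} (hε : 0 < ε) : RE ε P := h ε hε

theorem rare_or {P Q : ℕ → ℕ → Prop} (hP : Rare P) (hQ : Rare Q) :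
    Rare fun L n => P L n ∨ Q L n := fun ε hε =>
  ((re_of_rare hP (half_pos hε)).or (re_of_rare hQ (half_pos hε))).mono (by linarith)
    fun _ _ h => h

theorem rare_fin {ι : Type} (s : Finset ι) (P : ι → ℕ → ℕ → Prop) (h : ∀ a ∈ s, Rare (P a)) :
    Rare fun L n => ∃ a ∈ s, P a L n := by
  classical
  induction s using Finset.induction_on with
  | empty =>
    intro ε hε
    refine ⟨0, fun L X _ _ _ => ?_⟩
    simp only [notMem_empty, false_and, exists_false, filter_false, card_empty, Nat.cast_zero]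
    positivity
  | insert a s _ ih =>
    intro ε hε
    have h1 := rare_or (h a (mem_insert_self _ _)) (ih fun b hb => h b (mem_insert_of_mem hb))
    refine (re_of_rare h1 hε).mono le_rfl ?_
    rintro L n ⟨b, hb, hP⟩
    rcases mem_insert.1 hb with rfl | hb
    · exact Or.inl hP
    · exact Or.inr ⟨b, hb, hP⟩

theorem pow_le (k c : ℕ) : ∃ L₀ : ℕ, ∀ L, L₀ ≤ L → L ^ k * c + 1 ≤ 2 ^ L := by
  have h := tendsto_pow_const_div_const_pow_of_one_lt k (r := (2 : ℝ)) (by norm_num)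
  have h2 := h.eventually (gt_mem_nhds (show (0 : ℝ) < 1 / (c + 1) by positivity))
  obtain ⟨L₀, hL₀⟩ := Filter.eventually_atTop.1 h2
  refine ⟨max L₀ 1, fun L hL => ?_⟩
  have h3 := hL₀ L (le_of_max_le_left hL)
  have h1 : 1 ≤ L := le_of_max_le_right hL
  rw [div_lt_div_iff₀ (by positivity) (by positivity), one_mul] at h3
  have h4 : L ^ k * (c + 1) < 2 ^ L := by exact_mod_cast h3
  have h5 : 1 ≤ L ^ k := Nat.one_le_pow _ _ h1
  nlinarith

theorem re6 (hEX6 : EX6) {ε : ℝ} (hε : 0 < ε) (T : ℕ) : ∃ B : ℕ, 1 ≤ B ∧ ∀ c : ℕ, 1 ≤ c →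
    RE ε fun L n => (n.primeFactors.filter fun p =>
      2 ^ (L ^ 7 * c) ≤ p ∧ p < 2 ^ (L ^ 7 * c * B)).card < T := by
  obtain ⟨B, hB, h⟩ := hEX6 ε T hε
  refine ⟨B, hB, fun c hc => ?_⟩
  obtain ⟨L₀, hL₀⟩ := pow_le 7 (c * B)
  refine ⟨max L₀ 1, fun L X hL h1 _ => ?_⟩
  have h2 := hL₀ L (le_of_max_le_left hL)
  have h3 : 1 ≤ L := le_of_max_le_right hL
  have h4 := h (L ^ 7 * c) X (Nat.mul_pos (Nat.one_le_pow _ _ h3) hc)
    (le_trans (Nat.pow_le_pow_right (by norm_num) (by rw [mul_assoc]; exact h2)) h1)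
  refine le_trans (le_of_eq ?_) h4
  rw [Nat.cast_inj]
  exact congrArg Finset.card (Finset.filter_congr_decidable _ _ _)

theorem sm_dvd (L n : ℕ) : (∏ q ∈ sm L n, (q : ℤ)) ∣ n := by
  have h : (∏ q ∈ sm L n, q) ∣ n :=
    (prod_dvd_prod_of_subset _ _ _ (filter_subset _ _)).trans (Nat.prod_primeFactors_dvd n)
  have h2 := Int.natCast_dvd_natCast.2 h
  rwa [Nat.cast_prod] at h2

theorem sm_pos (L n : ℕ) : 0 < ∏ q ∈ sm L n, (q : ℤ) :=
  prod_pos fun q hq => by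
    have := (Nat.prime_of_mem_primeFactors (mem_filter.1 hq).1).pos
    exact_mod_cast this

end TANA2

open TANA2

theorem t_ANA2 (hEX1 : EX1) (hEX2 : EX2) (hEX3 : EX3) (hEX4 : EX4) (hEX5 : EX5) (hEX6 : EX6)
    (hEX7 : EX7) (hEX8 : EX8) : ANA2 := by
  classical
  intro ε K l A hε
  have hε3 : 0 < ε / 3 := by positivity
  obtain ⟨B₁, hB₁, h₁⟩ := re6 hEX6 hε3 (K * l)
  obtain ⟨B₂, hB₂, h₂⟩ := re6 hEX6 hε3 (2 * l)
  have h₁' := h₁ 1 le_rfl
  have h₂' := h₂ (B₁ * (A + 1)) (Nat.mul_pos hB₁ (Nat.succ_pos _))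
  have h7 := rare_fin ((Icc (-30 : ℤ) 30).filter fun a => Squarefree a ∧ a ≠ 1) _
    fun a ha => hEX7 a (mem_filter.1 ha).2.1 (mem_filter.1 ha).2.2
  have hall := rare_or hEX1 (rare_or hEX2 (rare_or hEX3 (rare_or hEX4 (rare_or hEX5
    (rare_or h7 (hEX8 (B₁ * (A + 1) * B₂)))))))
  have hre : RE ε fun L n => ¬ Gd K l A B₁ B₂ L n := by
    refine ((h₁'.or h₂').or (re_of_rare hall hε3)).mono (by linarith) ?_
    intro L n hn
    by_contra hc
    simp only [not_or, not_lt, not_not, not_and, not_exists] at hc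
    obtain ⟨⟨c1, c2⟩, c3, c4, c5, c6, c7, c8, c9⟩ := hc
    refine hn ⟨c3, c4, c6, fun p hp => ?_, ?_, ?_, fun a ha1 ha2 ha3 => ?_,
      fun a ha1 ha2 ha3 => ?_⟩
    · exact c7 c4 p hp
    · simpa only [mul_one] using c1
    · simpa only [mul_assoc] using c2
    · have hd : a ∣ 30 * n := ha3.trans (mul_dvd_mul_left _ (sm_dvd L n))
      have hle : |a| ≤ 30 * 2 ^ L ^ 8 := by
        have h1 : |a| ≤ 30 * ∏ q ∈ sm L n, (q : ℤ) :=
          Int.le_of_dvd (by have := sm_pos L n; positivity) ((abs_dvd _ _).2 ha3)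
        have h2 : ((∏ q ∈ sm L n, q : ℕ) : ℤ) ≤ (2 ^ L ^ 8 : ℕ) := by exact_mod_cast c5
        rw [Nat.cast_prod] at h2
        push_cast at h2
        linarith
      have h3 := c9 a ha1 ha2 hd hle
      by_contra h4
      refine h3 fun p hp hle hj => h4 ⟨p, hp, ?_, hj⟩
      simpa only [mul_assoc] using hle
    · refine c8 a (mem_filter.2 ⟨?_, ha1, ha2⟩)
      have h1 : |a| ≤ 30 := Int.le_of_dvd (by norm_num) ((abs_dvd _ _).2 ha3)
      exact mem_Icc.2 (abs_le.1 h1)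
  obtain ⟨L₀, hL₀⟩ := hre
  refine ⟨B₁, B₂, L₀, hB₁, hB₂, fun L X hL h1 h2 => le_trans (le_of_eq ?_) (hL₀ L X hL h1 h2)⟩
  rw [Nat.cast_inj]
  exact congrArg Finset.card (Finset.filter_congr_decidable _ _ _).symm

theorem t_ANA (hTILE : TILE) (hANA1 : ANA1) (hANA2 : ANA2) : ANA := by
  classical
  intro Bad hBad ε hε
  obtain ⟨K, l, A, N, hbox⟩ := hBad (ε / 4) (by positivity)
  obtain ⟨B₁, B₂, L₂, hB₁, hB₂, h2⟩ := hANA2 (ε / 2) K l A (by positivity)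
  obtain ⟨L₁, h1⟩ := hANA1 K l A N B₁ B₂ hB₁ hB₂
  obtain ⟨L₃, h3⟩ := pow_le 2 2
  refine ⟨2 ^ 2 ^ (L₁ + L₂ + L₃ + 1), fun X hX => ?_⟩
  have hX0 : X ≠ 0 := by
    have : 0 < 2 ^ 2 ^ (L₁ + L₂ + L₃ + 1) := by positivity
    omega
  have hlog : 2 ^ (L₁ + L₂ + L₃ + 1) ≤ Nat.log 2 X := Nat.le_log_of_pow_le (by norm_num) hX
  have hl0 : Nat.log 2 X ≠ 0 := by
    have : 0 < 2 ^ (L₁ + L₂ + L₃ + 1) := by positivity
    omega
  set L := Nat.log 2 (Nat.log 2 X) with hL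
  have hLge : L₁ + L₂ + L₃ + 1 ≤ L := Nat.le_log_of_pow_le (by norm_num) hlog
  have hlo : 2 ^ 2 ^ L ≤ X :=
    (Nat.pow_le_pow_right (by norm_num) (Nat.pow_log_le_self 2 hl0)).trans
      (Nat.pow_log_le_self 2 hX0)
  have hhi : X < 2 ^ 2 ^ (L + 1) :=
    (Nat.lt_pow_succ_log_self (by norm_num : 1 < 2) X).trans_le
      (Nat.pow_le_pow_right (by norm_num) (Nat.lt_pow_succ_log_self (by norm_num : 1 < 2) _))
  have hg := h2 L X (by omega) hlo hhi
  have ht := hTILE Bad (ε / 4) L X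
    ((Icc 1 X).filter fun n => Squarefree n ∧ n.Coprime 30 ∧ Gd K l A B₁ B₂ L n)
    (by positivity) (by omega) (by
      intro n hn
      obtain ⟨hn1, hsq, hcop, hG⟩ := mem_filter.1 hn
      have hnX := (mem_Icc.1 hn1).2
      refine ⟨hnX, hsq, ?_, hG.inj, ?_⟩
      · have h4 := h3 L (by omega)
        have h5 : (la L n).card ≤ L ^ 2 := (card_le_card (filter_subset _ _)).trans hG.om
        omega
      · obtain ⟨B, p, hS, hinj, him, hBX, y₀, y₁, J₀, J, hreg⟩ :=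
          h1 L n (by omega) (by omega) hsq hcop hG
        refine ⟨B.r, p, hinj, him, ?_⟩
        have h4 := hbox B y₀ y₁ J₀ J hreg
        have h5 : B.X = fun i => Xk L (sm L n) (p i) := funext hBX
        simpa only [Box.pts, Box.set, hS, h5] using h4)
  refine le_trans ?_ ((add_le_add ht hg).trans (le_of_eq (by ring)))
  rw [← Nat.cast_add, Nat.cast_le]
  refine le_trans (card_le_card ?_) (card_union_le _ _)
  intro n hn
  simp only [mem_filter, mem_union] at hn ⊢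
  tauto

end Pool.Agent.P.MP_8b7eba_nt.SM
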