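import Pool.Agent.P.MP_8b7eba_nt.SM.IfC

/-! Proof of AVG. -/

namespace Pool.Agent.P.MP_8b7eba_nt.SM

open Finset

namespace TAVG

open Classical in
/-- indicator of a proposition -/
noncomputable def ind (p : Prop) : ℝ := if p then 1 else 0

theorem ind_eq (p : Prop) [Decidable p] : (if p then (1 : ℝ) else 0) = ind p := by
  unfold ind; split_ifs <;> rfl

theorem ind_pos {p : Prop} (h : p) : ind p = 1 := by unfold ind; rw [if_pos h]

theorem ind_neg {p : Prop} (h : ¬p) : ind p = 0 := by unfold ind; rw [if_neg h]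

theorem ind_nn (p : Prop) : 0 ≤ ind p := by unfold ind; split_ifs <;> norm_num

theorem ind_le (p : Prop) : ind p ≤ 1 := by unfold ind; split_ifs <;> norm_num

theorem card_eq {α : Type} (s : Finset α) (p : α → Prop) [DecidablePred p] :
    ((s.filter p).card : ℝ) = ∑ x ∈ s, ind (p x) := by
  rw [card_filter]; push_cast; exact sum_congr rfl fun x _ => ind_eq _

theorem sumf_eq {α : Type} (s : Finset α) (p : α → Prop) [DecidablePred p] (f : α → ℝ) :
    ∑ x ∈ s.filter p, f x = ∑ x ∈ s, ind (p x) * f x := by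
  rw [sum_filter]
  refine sum_congr rfl fun x _ => ?_
  split_ifs with h
  · rw [ind_pos h, one_mul]
  · rw [ind_neg h, zero_mul]

variable {ι : Type} [Fintype ι] [DecidableEq ι] {M : ℕ}

theorem gp_mem {X : ι → Finset ℕ} {q : ι → Fin (M + 1) → ℕ} (hq : q ∈ grids M X)
    (π : ι → Fin (M + 1)) : gp q π ∈ Fintype.piFinset X :=
  Fintype.mem_piFinset.2 fun i => Fintype.mem_piFinset.1 (Fintype.mem_piFinset.1 hq i) (π i)

/-- the number of times a point is covered -/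
noncomputable def cov (Z : Finset (ι → Fin (M + 1) → ℕ)) (z : ι → ℕ) : ℕ :=
  ∑ q ∈ Z, (univ.filter fun π => gp q π = z).card

theorem sum_ind {α : Type} (P : Finset α) {a : α} (ha : a ∈ P) (g : α → ℝ) :
    ∑ z ∈ P, ind (a = z) * g z = g a := by
  rw [sum_eq_single_of_mem a ha fun b _ hb => by rw [ind_neg (Ne.symm hb), zero_mul],
    ind_pos rfl, one_mul]

theorem sum_cov {X : ι → Finset ℕ} {Z : Finset (ι → Fin (M + 1) → ℕ)} (hZ : Z ⊆ grids M X)
    (g : (ι → ℕ) → ℝ) :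
    ∑ q ∈ Z, ∑ π, g (gp q π) = ∑ z ∈ Fintype.piFinset X, cov Z z * g z := by
  simp only [cov, Nat.cast_sum, card_eq, sum_mul]
  rw [sum_comm (s := Fintype.piFinset X)]
  refine sum_congr rfl fun q hq => ?_
  rw [sum_comm]
  exact sum_congr rfl fun π _ => (sum_ind _ (gp_mem (hZ hq) π) g).symm

open Classical in
theorem cover (X : ι → Finset ℕ) (V : (ι → ℕ) → Prop) (ok : (ι → Fin (M + 1) → ℕ) → Prop)
    (N : ℕ) (c d : ℝ) (hinj : ∀ q, ok q → ∀ i, Function.Injective (q i))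
    (hc : (N : ℝ) * (Fintype.piFinset X).card ≤ c)
    (h : ∀ U ⊆ Fintype.piFinset X, (∀ z ∈ U, V z) → d ≤ U.card →
      c < ∑ q ∈ grids M X, ind (ok q ∧ ∀ π, gp q π ∈ U)) :
    ∃ Z ⊆ (grids M X).filter ok, (∀ z, cov Z z ≤ N) ∧
      ∑ z ∈ Fintype.piFinset X, ind (V z ∧ cov Z z < N) ≤ d := by
  obtain ⟨Z, hZ, hmax⟩ := exists_max_image
    ((((grids M X).filter ok).powerset).filter fun Z => ∀ z, cov Z z ≤ N) card
    ⟨∅, by simp [cov]⟩
  rw [mem_filter, mem_powerset] at hZ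
  refine ⟨Z, hZ.1, hZ.2, ?_⟩
  rw [← card_eq]
  by_contra hU
  set U := (Fintype.piFinset X).filter fun z => V z ∧ cov Z z < N with hUd
  have h1 := h U (filter_subset _ _) (fun z hz => (mem_filter.1 hz).2.1) (not_le.1 hU).le
  have hZg : Z ⊆ grids M X := hZ.1.trans (filter_subset _ _)
  have h2 : ∀ q ∈ grids M X, ok q ∧ (∀ π, gp q π ∈ U) → q ∈ Z := by
    intro q hq hq'
    by_contra hn
    have := hmax (insert q Z) (by
      rw [mem_filter, mem_powerset]
      refine ⟨insert_subset (mem_filter.2 ⟨hq, hq'.1⟩) hZ.1, fun z => ?_⟩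
      rw [cov, sum_insert hn]
      change _ + cov Z z ≤ N
      by_cases hz : ∃ π, gp q π = z
      · obtain ⟨π, rfl⟩ := hz
        have a := (mem_filter.1 (hq'.2 π)).2.2
        have b : (univ.filter fun π' => gp q π' = gp q π).card ≤ 1 :=
          card_le_one.2 fun π₁ h₁ π₂ h₂ => funext fun i => hinj q hq'.1 i
            (congrFun ((mem_filter.1 h₁).2.trans (mem_filter.1 h₂).2.symm) i)
        omega
      · rw [filter_eq_empty_iff.2 fun π _ e => hz ⟨π, e⟩, card_empty, zero_add]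
        exact hZ.2 z)
    rw [card_insert_of_notMem hn] at this
    omega
  have h3 : ∑ q ∈ grids M X, ind (ok q ∧ ∀ π, gp q π ∈ U) ≤ ∑ q ∈ Z, ∑ π, ind (gp q π ∈ U) := by
    rw [← sum_subset hZg fun q hq hn => ind_neg fun e => hn (h2 q hq e)]
    refine sum_le_sum fun q _ => ?_
    refine le_trans ?_ (single_le_sum (f := fun π => ind (gp q π ∈ U)) (fun _ _ => ind_nn _)
      (mem_univ fun _ => 0))
    by_cases e : ok q ∧ ∀ π, gp q π ∈ U
    · rw [ind_pos e, ind_pos (e.2 _)]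
    · rw [ind_neg e]; exact ind_nn _
  rw [sum_cov hZg fun z => ind (z ∈ U)] at h3
  have h4 : ∑ z ∈ Fintype.piFinset X, (cov Z z : ℝ) * ind (z ∈ U) ≤
      ∑ _z ∈ Fintype.piFinset X, (N : ℝ) := sum_le_sum fun z _ =>
    (mul_le_of_le_one_right (Nat.cast_nonneg _) (ind_le _)).trans (Nat.cast_le.2 (hZ.2 z))
  rw [sum_const, nsmul_eq_mul, mul_comm] at h4
  linarith

theorem loc {Γ : Type} [Fintype Γ] (B : Finset Γ) {κ ε a₁ a₀ a : ℝ} (t₁ t₀ t d₁ d₀ d : Γ → ℝ)
    (hκ : 0 ≤ κ) (hε : 0 ≤ ε) (hε1 : ε ≤ 1) (ha : 0 ≤ a) (hB : (B.card : ℝ) ≤ ε * Fintype.card Γ)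
    (h₁ : ∀ G, |t₁ G - κ * a₁| ≤ d₁ G) (h₀ : ∀ G, |t₀ G - κ * a₀| ≤ d₀ G)
    (h : ∀ G, |t G - κ * a| ≤ d G) (hl : ∀ G, t₁ G ≤ t₀ G / 2 + ε * t G + ind (G ∈ B) * t G) :
    Fintype.card Γ * (κ * a₁) ≤ Fintype.card Γ * (κ * (a₀ / 2 + 2 * ε * a)) +
      ∑ G, (d₁ G + d₀ G / 2 + 2 * d G) := by
  classical
  have k : ∀ G, κ * a₁ ≤ κ * (a₀ / 2 + ε * a) + ind (G ∈ B) * (κ * a) +
      (d₁ G + d₀ G / 2 + 2 * d G) := fun G => by
    have b₁ := abs_le.1 (h₁ G)
    have b₀ := abs_le.1 (h₀ G)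
    have b := abs_le.1 (h G)
    have d0 : 0 ≤ d G := (abs_nonneg _).trans (h G)
    have e1 : ε * t G ≤ ε * (κ * a) + d G := by nlinarith
    have e2 : ind (G ∈ B) * t G ≤ ind (G ∈ B) * (κ * a) + d G := by
      nlinarith [ind_nn (G ∈ B), ind_le (G ∈ B)]
    linarith [hl G]
  have s := sum_le_sum fun G (_ : G ∈ univ) => k G
  have e : ∑ G, ind (G ∈ B) = B.card := by rw [← card_eq]; simp
  rw [sum_add_distrib, sum_add_distrib, sum_const, sum_const, ← sum_mul, e, card_univ, nsmul_eq_mul,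
    nsmul_eq_mul] at s
  have := mul_le_mul_of_nonneg_right hB (mul_nonneg hκ ha)
  linarith

end TAVG

open TAVG in
theorem t_AVG : AVG := by
  intro ι Γ _ _ _ _ M X Y V cp f₀ f₁ ok ty n κ θ ε δ η hn hκ hθ hε hε1 hδ hη h1 hV h₀ h₁ hok hcov
    hosc hloc
  classical
  have hP : ((Fintype.piFinset X).card : ℝ) = n := by rw [hn, Fintype.card_piFinset]; simp
  have n0 : 0 ≤ n := hP ▸ Nat.cast_nonneg _
  simp only [card_eq _ (fun q => ok q ∧ ∀ π, gp q π ∈ _)] at hcov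
  simp only [sumf_eq, ind_eq] at hosc
  simp only [card_eq] at hloc
  simp only [card_eq, sum_product]
  set N := ⌊η * n ^ M⌋₊ with hN
  have N1 : (N : ℝ) ≤ η * n ^ M := Nat.floor_le (by linarith)
  have N2 : (1 : ℝ) ≤ N := by exact_mod_cast (Nat.one_le_floor_iff _).2 h1
  have N3 : η * n ^ M ≤ 2 * N := by linarith [Nat.lt_floor_add_one (η * n ^ M)]
  obtain ⟨Z, hZ, hZN, hU⟩ := cover X V ok N (η * n ^ (M + 1)) (δ * n) (fun q hq => (hok q hq).1)
    (by rw [hP, pow_succ, ← mul_assoc]; exact mul_le_mul_of_nonneg_right N1 n0) hcov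
  have hZg : Z ⊆ grids M X := hZ.trans (filter_subset _ _)
  set m : ℝ := (M + 1) ^ Fintype.card ι with hm
  have hmc : (Fintype.card (ι → Fin (M + 1)) : ℝ) = m := by simp [hm]
  set a : ((ι → ℕ) → ℕ → Prop) → (ι → ℕ) → ℝ := fun f z => ∑ y ∈ Y, ind (f z y) with ha
  have a0 : ∀ f z, 0 ≤ a f z := fun f z => sum_nonneg fun _ _ => ind_nn _
  have up : ∀ f, ∑ q ∈ Z, ∑ π, a f (gp q π) ≤ N * ∑ z ∈ Fintype.piFinset X, a f z := fun f => by
    rw [sum_cov hZg, mul_sum]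
    exact sum_le_sum fun z _ => mul_le_mul_of_nonneg_right (Nat.cast_le.2 (hZN z)) (a0 f z)
  have lo : N * ∑ z ∈ Fintype.piFinset X, a f₁ z ≤
      ∑ q ∈ Z, ∑ π, a f₁ (gp q π) + N * (δ * n * Y.card) := by
    have e : ∀ z, N * a f₁ z ≤ cov Z z * a f₁ z + N * (ind (V z ∧ cov Z z < N) * Y.card) := by
      intro z
      have b1 : a f₁ z ≤ Y.card := by
        simpa using sum_le_sum (s := Y) fun y _ => ind_le (f₁ z y)
      have b2 : 0 ≤ (cov Z z : ℝ) * a f₁ z := mul_nonneg (Nat.cast_nonneg _) (a0 _ _)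
      by_cases c : V z ∧ cov Z z < N
      · rw [ind_pos c, one_mul]
        linarith [mul_le_mul_of_nonneg_left b1 (Nat.cast_nonneg (α := ℝ) N)]
      rw [ind_neg c, zero_mul, mul_zero, add_zero]
      by_cases c' : V z
      · rw [le_antisymm (hZN z) (not_lt.1 fun e => c ⟨c', e⟩)]
      · rw [show a f₁ z = 0 from sum_eq_zero fun y _ => ind_neg fun e => c' (hV z y (h₁ z y e))]
        simp
    rw [sum_cov hZg, mul_sum]
    refine (sum_le_sum fun z _ => e z).trans ?_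
    rw [sum_add_distrib, ← mul_sum, ← sum_mul]
    gcongr
  set t : ((ι → ℕ) → ℕ → Prop) → (ι → Fin (M + 1) → ℕ) → Γ → (ι → Fin (M + 1)) → ℝ :=
    fun f q G π => ∑ y ∈ Y, ind (f (gp q π) y) * ind (ty q y = some G) with ht
  have osc : ∀ f : (ι → ℕ) → ℕ → Prop, (∀ z y, f z y → cp z y) → ∀ G,
      ∑ q ∈ Z, ∑ π, |t f q G π - κ * a f (gp q π)| ≤ m * (n * (θ * n ^ M * Y.card)) := by
    intro f hf G
    rw [sum_comm, ← hmc, ← card_univ, ← nsmul_eq_mul, ← sum_const]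
    refine sum_le_sum fun π _ => ?_
    rw [← hP, ← nsmul_eq_mul, ← sum_const, hP]
    refine le_trans ?_ (sum_le_sum fun z _ => hosc z π G (fun y => ind (f z y)) fun y => by
      rw [abs_of_nonneg (ind_nn _)]; exact ind_le _)
    rw [sum_comm]
    refine le_trans (sum_le_sum fun q hq => ?_) (sum_le_sum_of_subset_of_nonneg hZg fun q _ _ =>
      sum_nonneg fun z _ => mul_nonneg (ind_nn _) (abs_nonneg _))
    refine le_trans (le_of_eq ?_) (single_le_sum (fun z _ => mul_nonneg (ind_nn _) (abs_nonneg _))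
      (gp_mem (hZg hq) π))
    rw [ind_pos ⟨(mem_filter.1 (hZ hq)).2, rfl⟩, one_mul]
    simp only [ht, ha, mul_sum, ← sum_sub_distrib]
    refine congrArg _ (sum_congr rfl fun y _ => ?_)
    by_cases c : f (gp q π) y
    · rw [ind_pos c, ind_pos (hf _ _ c)]; ring
    · rw [ind_neg c]; ring
  have one : ∀ q ∈ Z, Fintype.card Γ * (κ * ∑ π, a f₁ (gp q π)) ≤
      Fintype.card Γ * (κ * ((∑ π, a f₀ (gp q π)) / 2 + 2 * ε * ∑ π, a cp (gp q π))) +
      ∑ G, (∑ π, |t f₁ q G π - κ * a f₁ (gp q π)| + (∑ π, |t f₀ q G π - κ * a f₀ (gp q π)|) / 2 +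
        2 * ∑ π, |t cp q G π - κ * a cp (gp q π)|) := by
    intro q hq
    have hq' := (mem_filter.1 (hZ hq)).2
    obtain ⟨B, hB, hB'⟩ := hloc q (hZg hq) hq'
    have k : ∀ f G, |∑ π, t f q G π - κ * ∑ π, a f (gp q π)| ≤
        ∑ π, |t f q G π - κ * a f (gp q π)| := fun f G => by
      rw [mul_sum, ← sum_sub_distrib]; exact abs_sum_le_sum_abs _ _
    refine loc B (fun G => ∑ π, t f₁ q G π) (fun G => ∑ π, t f₀ q G π) (fun G => ∑ π, t cp q G π)
      _ _ _ hκ.le hε hε1 (sum_nonneg fun _ _ => a0 _ _) hB (k f₁) (k f₀) (k cp) fun G => ?_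
    simp only [ht]
    rw [sum_comm, sum_comm (s := univ), sum_comm (s := univ), sum_div, mul_sum, mul_sum,
      ← sum_add_distrib, ← sum_add_distrib]
    refine sum_le_sum fun y hy => ?_
    by_cases c : ty q y = some G
    · have c1 : ∑ π : ι → Fin (M + 1), ind (cp (gp q π) y) = m := by
        rw [sum_congr rfl fun π _ => ind_pos ((hok q hq').2 y hy (by simp [c]) π)]
        simp [hm]
      simp only [ind_pos c, mul_one, c1]
      have c0 : 0 ≤ ∑ π, ind (f₀ (gp q π) y) := sum_nonneg fun _ _ => ind_nn _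
      have m0 : 0 ≤ m := by positivity
      by_cases c' : G ∈ B
      · have c2 : ∑ π, ind (f₁ (gp q π) y) ≤ m := by
          rw [← hmc]
          simpa using sum_le_sum (s := univ) fun π _ => ind_le (f₁ (gp q π) y)
        rw [ind_pos c']
        nlinarith
      · rw [ind_neg c']
        linarith [hB' y hy G c' c]
    · simp [ind_neg c]
  have s := sum_le_sum one
  rw [sum_add_distrib, ← mul_sum, ← mul_sum, ← mul_sum, ← mul_sum, sum_add_distrib, ← sum_div,
    ← mul_sum] at s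
  set e := m * (n * (θ * n ^ M * Y.card)) with he
  have s2 : ∑ G : Γ, ∑ q ∈ Z, (∑ π, |t f₁ q G π - κ * a f₁ (gp q π)| +
      (∑ π, |t f₀ q G π - κ * a f₀ (gp q π)|) / 2 + 2 * ∑ π, |t cp q G π - κ * a cp (gp q π)|) ≤
      Fintype.card Γ * (4 * e) := by
    rw [← card_univ, ← nsmul_eq_mul, ← sum_const]
    refine sum_le_sum fun G _ => ?_
    rw [sum_add_distrib, sum_add_distrib, ← sum_div, ← mul_sum]
    have : 0 ≤ e := by positivity
    linarith [osc f₁ h₁ G, osc f₀ h₀ G, osc cp (fun _ _ h => h) G]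
  rw [sum_comm] at s2
  have g0 : (0 : ℝ) < Fintype.card Γ := Nat.cast_pos.2 Fintype.card_pos
  have s3 := le_of_mul_le_mul_left ((s.trans (add_le_add le_rfl s2)).trans_eq (mul_add _ _ _).symm) g0
  have s4 : 4 * e ≤ κ * (N * (8 * m * θ / (κ * η) * n * Y.card)) := by
    have : κ * (N * (8 * m * θ / (κ * η) * n * Y.card)) = 4 * (m * (n * (θ * (2 * N / η) * Y.card))) := by
      field_simp; ring
    rw [this, he]
    gcongr
    rw [le_div_iff₀ hη]; linarith
  have s5 := le_of_mul_le_mul_left ((s3.trans (add_le_add le_rfl s4)).trans_eq (mul_add _ _ _).symm) hκ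
  have u0 := up f₀
  have u1 := mul_le_mul_of_nonneg_left (up cp) hε
  refine le_of_mul_le_mul_left ?_ (lt_of_lt_of_le one_pos N2)
  change N * ∑ z ∈ Fintype.piFinset X, a f₁ z ≤ N * ((∑ z ∈ Fintype.piFinset X, a f₀ z) / 2 +
    2 * ε * ∑ z ∈ Fintype.piFinset X, a cp z + _)
  linarith

end Pool.Agent.P.MP_8b7eba_nt.SM
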