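import Pool.Agent.P.MP_8b7eba_nt.SM.IfC

/-! Proof of BIL. -/

namespace Pool.Agent.P.MP_8b7eba_nt.SM

open Finset Module

namespace TBIL

section cube

variable {ι : Type} [Fintype ι] [DecidableEq ι]

/-- a cube of side `L` -/
noncomputable def cube (ι : Type) [Fintype ι] [DecidableEq ι] (a : ℤ) (L : ℕ) : Finset (ι → ℤ) :=
  Fintype.piFinset fun _ => Ico a (a + L)

theorem mem_cube {a : ℤ} {L : ℕ} {x : ι → ℤ} : x ∈ cube ι a L ↔ ∀ i, a ≤ x i ∧ x i < a + L := by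
  simp [cube]

theorem card_cube (a : ℤ) (L : ℕ) : (cube ι a L).card = L ^ Fintype.card ι := by
  simp [cube]

theorem zero_sum (a : ℤ) (q m : ℕ) (hq : 0 < q) (g : (ι → ℤ) → ℝ) (ψ : (ι → ℤ) → ι → ℤ)
    (per : ∀ x x', (∀ i, (q : ℤ) ∣ x i - x' i) → g x = g x')
    (inj : ∀ x x', (∀ i, (q : ℤ) ∣ ψ x i - ψ x' i) → ∀ i, (q : ℤ) ∣ x i - x' i)
    (neg : ∀ x, g (ψ x) = -g x) : ∑ x ∈ cube ι a (q * m), g x = 0 := by
  have q0 : (0 : ℤ) < q := by exact_mod_cast hq
  set φ : (ι → ℤ) → ι → ℤ := fun x i => a + ((ψ x i - a) % q + q * ((x i - a) / q)) with hφ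
  have h1 : ∀ x i, (q : ℤ) ∣ φ x i - ψ x i := fun x i =>
    ⟨(x i - a) / q - (ψ x i - a) / q, by
      have := Int.emod_add_mul_ediv (ψ x i - a) q
      simp only [hφ]; linear_combination this⟩
  have h2 : ∀ x i, (φ x i - a) / q = (x i - a) / q := fun x i => by
    simp only [hφ, add_sub_cancel_left]
    rw [Int.add_mul_ediv_left _ _ q0.ne', Int.ediv_eq_zero_of_lt (Int.emod_nonneg _ q0.ne')
      (Int.emod_lt_of_pos _ q0), zero_add]
  have hm : Set.MapsTo φ (cube ι a (q * m)) (cube ι a (q * m)) := fun x hx => by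
    rw [mem_coe, mem_cube] at hx ⊢
    intro i
    obtain ⟨b, c⟩ := hx i
    have r0 := Int.emod_nonneg (ψ x i - a) q0.ne'
    have r1 := Int.emod_lt_of_pos (ψ x i - a) q0
    have k0 : 0 ≤ (x i - a) / q := Int.ediv_nonneg (by linarith) q0.le
    have k1 : (x i - a) / q < m := Int.ediv_lt_of_lt_mul q0 (by push_cast at c; linarith)
    have k2 : (q : ℤ) * ((x i - a) / q + 1) ≤ q * m := mul_le_mul_of_nonneg_left k1 q0.le
    have k3 := mul_nonneg q0.le k0
    simp only [hφ]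
    push_cast
    constructor <;> linarith
  have hi : Set.InjOn φ (cube ι a (q * m)) := fun x _ x' _ e => by
    have d := inj x x' fun i => by
      have := dvd_sub (h1 x' i) (h1 x i)
      rwa [e, sub_sub_sub_cancel_left] at this
    funext i
    have k : (x i - a) / q = (x' i - a) / q := by rw [← h2 x i, e, h2]
    have r : (x i - a) % q = (x' i - a) % q :=
      Int.emod_eq_emod_iff_emod_sub_eq_zero.2
        (Int.emod_eq_zero_of_dvd (by rw [sub_sub_sub_cancel_right]; exact d i))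
    have b := Int.emod_add_mul_ediv (x i - a) q
    have c := Int.emod_add_mul_ediv (x' i - a) q
    rw [k, r] at b
    linarith
  have e : ∑ x ∈ cube ι a (q * m), g (φ x) = ∑ x ∈ cube ι a (q * m), g x :=
    sum_nbij φ hm hi (surjOn_of_injOn_of_card_le φ hm hi le_rfl) fun _ _ => rfl
  rw [sum_congr rfl fun x _ => (per _ _ (h1 x)).trans (neg x), sum_neg_distrib] at e
  linarith

theorem small_sum (a : ℤ) (q H : ℕ) (hq : 0 < q) (g : (ι → ℤ) → ℝ) (ψ : (ι → ℤ) → ι → ℤ)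
    (per : ∀ x x', (∀ i, (q : ℤ) ∣ x i - x' i) → g x = g x')
    (inj : ∀ x x', (∀ i, (q : ℤ) ∣ ψ x i - ψ x' i) → ∀ i, (q : ℤ) ∣ x i - x' i)
    (neg : ∀ x, g (ψ x) = -g x) (bd : ∀ x, |g x| ≤ 1) :
    |∑ x ∈ cube ι a H, g x| ≤ q * Fintype.card ι * (H : ℝ) ^ (Fintype.card ι - 1) := by
  have le : q * (H / q) ≤ H := Nat.mul_div_le H q
  have le' : ((q * (H / q) : ℕ) : ℝ) ≤ H := by exact_mod_cast le
  have lt : H ≤ q * (H / q) + q := (Nat.lt_mul_div_succ H hq).le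
  have lt' : (H : ℝ) ≤ ((q * (H / q) : ℕ) : ℝ) + q := by exact_mod_cast lt
  have sub : cube ι a (q * (H / q)) ⊆ cube ι a H := fun x hx => by
    rw [mem_cube] at hx ⊢
    have : ((q * (H / q) : ℕ) : ℤ) ≤ H := by exact_mod_cast le
    exact fun i => ⟨(hx i).1, by linarith [(hx i).2]⟩
  rw [← sum_sdiff sub, zero_sum a q _ hq g ψ per inj neg, add_zero]
  refine (abs_sum_le_sum_abs _ _).trans ((sum_le_card_nsmul _ _ 1 fun x _ => bd x).trans ?_)
  rw [nsmul_eq_mul, mul_one, cast_card_sdiff sub, card_cube, card_cube, Nat.cast_pow, Nat.cast_pow]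
  refine (le_abs_self _).trans ((abs_pow_sub_pow_le _ _ _).trans ?_)
  rw [abs_of_nonneg (sub_nonneg.2 le'), Nat.abs_cast, Nat.abs_cast, max_eq_left le']
  gcongr
  linarith

end cube

theorem dual {X V : Type} [DecidableEq X] (D : Finset X) (Y : Finset ℕ) (T : Finset V)
    (k : ℕ → X → ℝ) (P : V → X) (σ : V → ℝ) (hP : ∀ v ∈ T, P v ∈ D) (K : ℝ) (K0 : 0 ≤ K)
    (hG : ∀ y ∈ Y, ∑ y' ∈ Y, |∑ x ∈ D, k y x * k y' x| ≤ K) :
    ∑ y ∈ Y, (∑ v ∈ T, σ v * k y (P v)) ^ 2 ≤ K * ∑ x ∈ D, (∑ v ∈ T with P v = x, σ v) ^ 2 := by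
  set c : X → ℝ := fun x => ∑ v ∈ T with P v = x, σ v with hc
  set R : ℕ → ℝ := fun y => ∑ v ∈ T, σ v * k y (P v) with hR
  have e : ∀ y, R y = ∑ x ∈ D, c x * k y x := fun y => by
    simp only [hR, hc]
    rw [← sum_fiberwise_of_maps_to hP]
    refine sum_congr rfl fun x _ => ?_
    rw [sum_mul]
    exact sum_congr rfl fun v hv => by rw [(mem_filter.1 hv).2]
  have e1 : ∑ y ∈ Y, R y ^ 2 = ∑ x ∈ D, c x * ∑ y ∈ Y, R y * k y x := by
    simp only [mul_sum]
    rw [sum_comm]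
    refine sum_congr rfl fun y _ => ?_
    rw [pow_two]
    nth_rewrite 2 [e y]
    rw [mul_sum]
    exact sum_congr rfl fun x _ => by ring
  have e2 : ∑ x ∈ D, (∑ y ∈ Y, R y * k y x) ^ 2 ≤ K * ∑ y ∈ Y, R y ^ 2 := by
    have a : ∑ x ∈ D, (∑ y ∈ Y, R y * k y x) ^ 2 =
        ∑ y ∈ Y, ∑ y' ∈ Y, R y * R y' * ∑ x ∈ D, k y x * k y' x := by
      simp only [pow_two, sum_mul_sum]
      simp only [mul_sum]
      rw [sum_comm]
      refine sum_congr rfl fun y _ => ?_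
      rw [sum_comm]
      exact sum_congr rfl fun y' _ => sum_congr rfl fun x _ => by ring
    have b : ∑ y ∈ Y, ∑ y' ∈ Y, R y ^ 2 * |∑ x ∈ D, k y x * k y' x| ≤ K * ∑ y ∈ Y, R y ^ 2 := by
      rw [mul_sum]
      refine sum_le_sum fun y hy => ?_
      rw [← mul_sum, mul_comm K]
      exact mul_le_mul_of_nonneg_left (hG y hy) (sq_nonneg _)
    have b' : ∑ y ∈ Y, ∑ y' ∈ Y, R y' ^ 2 * |∑ x ∈ D, k y x * k y' x| ≤ K * ∑ y ∈ Y, R y ^ 2 := by
      rw [sum_comm]
      simpa only [mul_comm (k _ _) (k _ _)] using b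
    rw [a]
    refine le_trans (sum_le_sum fun y _ => sum_le_sum fun y' _ => (?_ : _ ≤
      (R y ^ 2 * |∑ x ∈ D, k y x * k y' x| + R y' ^ 2 * |∑ x ∈ D, k y x * k y' x|) / 2)) ?_
    · refine (le_abs_self _).trans ?_
      rw [abs_mul, ← add_mul, mul_div_right_comm]
      refine mul_le_mul_of_nonneg_right (abs_le.2 ⟨?_, ?_⟩) (abs_nonneg _)
      · nlinarith [sq_nonneg (R y + R y')]
      · nlinarith [sq_nonneg (R y - R y')]
    · simp only [← sum_div, sum_add_distrib]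
      linarith
  have Q0 : 0 ≤ ∑ y ∈ Y, R y ^ 2 := sum_nonneg fun _ _ => sq_nonneg _
  have c0 : 0 ≤ ∑ x ∈ D, c x ^ 2 := sum_nonneg fun _ _ => sq_nonneg _
  have e3 := (sum_mul_sq_le_sq_mul_sq D c fun x => ∑ y ∈ Y, R y * k y x).trans
    (mul_le_mul_of_nonneg_left e2 c0)
  rw [← e1] at e3
  rcases Q0.eq_or_lt with h | h
  · rw [← h]; positivity
  · refine le_of_mul_le_mul_right ?_ h
    calc _ = (∑ y ∈ Y, R y ^ 2) ^ 2 := by ring
      _ ≤ _ := e3
      _ = _ := by ring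

theorem fib {X V : Type} [DecidableEq X] (D : Finset X) (T : Finset V) (P : V → X) (σ : V → ℝ)
    (hP : ∀ v ∈ T, P v ∈ D) (hσ : ∀ v, |σ v| ≤ 1) (m : ℕ)
    (hm : ∀ v ∈ T, (T.filter fun v' => P v' = P v).card ≤ m) :
    ∑ x ∈ D, (∑ v ∈ T with P v = x, σ v) ^ 2 ≤ m * T.card := by
  have e : (m : ℝ) * T.card = ∑ x ∈ D, ∑ v ∈ T with P v = x, (m : ℝ) := by
    rw [sum_fiberwise_of_maps_to hP, sum_const, nsmul_eq_mul, mul_comm]
  rw [e]
  refine sum_le_sum fun x _ => ?_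
  have a : |∑ v ∈ T with P v = x, σ v| ≤ (T.filter fun v => P v = x).card :=
    (abs_sum_le_sum_abs _ _).trans ((sum_le_card_nsmul _ _ 1 fun v _ => hσ v).trans (by simp))
  rw [← sq_abs]
  refine (pow_le_pow_left₀ (abs_nonneg _) a 2).trans ?_
  rw [pow_two, ← nsmul_eq_mul, ← sum_const]
  refine sum_le_sum fun v hv => ?_
  obtain ⟨h1, rfl⟩ := mem_filter.1 hv
  exact_mod_cast hm v h1

variable {O ι : Type} [CommRing O] [Fintype ι] {bs : Basis ι ℤ O} {W Y : Finset ℕ}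
  {χ : ℕ → O → ℤ} {β : ℕ → O} {C B Ym : ℕ}

theorem dv (bs : Basis ι ℤ O) (q : ℕ) (z : O) :
    (∀ i, (q : ℤ) ∣ bs.repr z i) ↔ ∃ u, z = q * u := by
  have e : ∀ u i, bs.repr ((q : O) * u) i = q * bs.repr u i := fun u i => by
    rw [← nsmul_eq_mul, map_nsmul, Finsupp.smul_apply, nsmul_eq_mul]
  refine ⟨fun h => ⟨bs.equivFun.symm fun i => bs.repr z i / q, bs.ext_elem fun i => ?_⟩, ?_⟩
  · rw [e, ← Basis.equivFun_apply bs (bs.equivFun.symm _), LinearEquiv.apply_symm_apply,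
      Int.mul_ediv_cancel' (h i)]
  · rintro ⟨u, rfl⟩ i
    rw [e]
    exact dvd_mul_right _ _

omit [Fintype ι] in
theorem one (h : Bil bs W Y χ β C B Ym) {y : ℕ} (hy : y ∈ Y) : χ y 1 = 1 := by
  obtain ⟨-, -, m, -, -, a, -, -, -, e⟩ := h.ch y hy
  have := m 1 a
  rw [one_mul, e] at this
  linarith

omit [Fintype ι] in
theorem prod (h : Bil bs W Y χ β C B Ym) {y : ℕ} (hy : y ∈ Y) {κ : Type} (s : Finset κ)
    (f : κ → O) : χ y (∏ i ∈ s, f i) = ∏ i ∈ s, χ y (f i) :=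
  map_prod (⟨⟨χ y, one h hy⟩, (h.ch y hy).2.2.1⟩ : O →* ℤ) f s

omit [Fintype ι] in
theorem size (h : Bil bs W Y χ β C B Ym) (t : ℕ) : ∀ v : Fin (t + 1) → ℕ, (∀ i, v i ∈ W) →
    ∀ j, |bs.repr (∏ i, β (v i)) j| ≤ (C ^ (t + 1) * B ^ (t + 1) : ℕ) := by
  induction t with
  | zero =>
    intro v hv j
    rw [Fin.prod_univ_one]
    refine (h.bd _ (hv 0) j).trans ?_
    exact_mod_cast (by simpa using Nat.le_mul_of_pos_left B h.one)
  | succ t ih =>
    intro v hv j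
    rw [Fin.prod_univ_succ]
    refine (h.mul _ _ _ _ (h.bd _ (hv 0)) (ih (fun i => v i.succ) fun i => hv _) j).trans_eq ?_
    push_cast
    ring

theorem off [DecidableEq ι] (h : Bil bs W Y χ β C B Ym) {y y' : ℕ} (hy : y ∈ Y) (hy' : y' ∈ Y)
    (ne : y ≠ y') (a : ℤ) (H : ℕ) :
    |∑ x ∈ cube ι a H, (χ y (bs.equivFun.symm x) : ℝ) * χ y' (bs.equivFun.symm x)| ≤
      Ym ^ 2 * Fintype.card ι * (H : ℝ) ^ (Fintype.card ι - 1) := by
  obtain ⟨p, l, m, b, per, hh⟩ := h.ch y hy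
  obtain ⟨α, α', u, hα, n⟩ : ∃ a a' u : O, a * a' = 1 + y * u ∧ χ y a = -1 := by
    obtain ⟨a, a', u, e, n⟩ := hh
    refine ⟨a, a', u, ?_, n⟩
    first
      | exact e
      | simpa using congrArg (Nat.cast : ℕ → O) e
  obtain ⟨p', l', m', b', per', -⟩ := h.ch y' hy'
  obtain ⟨e1, e2, ee⟩ : IsCoprime (y : O) (y' : O) :=
    Nat.Coprime.cast ((Nat.coprime_primes p p').2 ne)
  have co : ∀ x x' : ι → ℤ, (∀ i, ((y * y' : ℕ) : ℤ) ∣ x i - x' i) ↔
      ∃ w, bs.equivFun.symm x - bs.equivFun.symm x' = ((y * y' : ℕ) : O) * w := fun x x' => by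
    rw [← dv bs, ← map_sub]
    refine forall_congr' fun i => ?_
    rw [← Basis.equivFun_apply bs (bs.equivFun.symm _), LinearEquiv.apply_symm_apply, Pi.sub_apply]
  refine (small_sum a (y * y') H (Nat.mul_pos p.pos p'.pos) _
    (fun x => bs.equivFun ((α * (e2 * y') + e1 * y) * bs.equivFun.symm x)) (fun x x' d => ?_)
    (fun x x' d => ?_) (fun x => ?_) fun x => ?_).trans ?_
  · obtain ⟨w, hw⟩ := (co x x').1 d
    rw [sub_eq_iff_eq_add', Nat.cast_mul] at hw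
    have a1 := per (bs.equivFun.symm x') (y' * w)
    have a2 := per' (bs.equivFun.symm x') (y * w)
    rw [← mul_assoc, ← hw] at a1
    rw [← mul_assoc, mul_comm (y' : O), ← hw] at a2
    rw [a1, a2]
  · obtain ⟨w, hw⟩ := (co _ _).1 d
    simp only [LinearEquiv.symm_apply_apply] at hw
    refine (co x x').2 ⟨(α' * (e2 * y') + e1 * y) * w -
      (u * e2 ^ 2 * y' + (α + α' - 2) * e1 * e2) * (bs.equivFun.symm x - bs.equivFun.symm x'), ?_⟩
    push_cast at hw ⊢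
    linear_combination (α' * (e2 * y') + e1 * y) * hw -
      (bs.equivFun.symm x - bs.equivFun.symm x') * (e2 * y') ^ 2 * hα -
      (bs.equivFun.symm x - bs.equivFun.symm x') * (e1 * y + e2 * y' + 1) * ee
  · have a1 : χ y (α * (e2 * y') + e1 * y) = -1 := by
      rw [← n, ← per α (e1 - α * e1)]
      congr 1
      linear_combination α * ee
    have a2 : χ y' (α * (e2 * y') + e1 * y) = 1 := by
      rw [← one h hy', ← per' 1 (α * e2 - e2)]
      congr 1
      linear_combination ee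
    simp only [LinearEquiv.symm_apply_apply]
    rw [m, m', a1, a2]
    push_cast
    ring
  · rw [abs_mul]
    exact mul_le_one₀ (by exact_mod_cast b _) (abs_nonneg _) (by exact_mod_cast b' _)
  · have : ((y * y' : ℕ) : ℝ) ≤ Ym ^ 2 := by
      rw [pow_two]; exact_mod_cast Nat.mul_le_mul l l'
    gcongr

end TBIL

open TBIL in
theorem t_BIL : BIL := by
  intro O ι _ _ _ bs W Y χ β C B Ym H t s h t0 hs hH hH'
  classical
  obtain ⟨t, rfl⟩ : ∃ u, t = u + 1 := ⟨t - 1, by omega⟩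
  set n := Fintype.card ι with hn
  have n0 : 0 < n := Fintype.card_pos
  have hP : ∀ v ∈ Fintype.piFinset fun _ : Fin (t + 1) => W, bs.equivFun (∏ i, β (v i)) ∈
      cube ι (-(C ^ (t + 1) * B ^ (t + 1) : ℕ)) H := fun v hv => by
    rw [mem_cube]
    intro j
    have a := abs_le.1 (size h t v (Fintype.mem_piFinset.1 hv) j)
    have b : 2 * ((C ^ (t + 1) * B ^ (t + 1) : ℕ) : ℤ) + 1 ≤ H := by
      rw [mul_assoc] at hH; exact_mod_cast hH
    rw [Basis.equivFun_apply]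
    exact ⟨a.1, by linarith [a.2]⟩
  have cY : Y.card ≤ Ym := by
    refine (card_le_card (t := Icc 1 Ym) fun y hy => ?_).trans (by simp)
    exact mem_Icc.2 ⟨(h.ch y hy).1.pos, (h.ch y hy).2.1⟩
  have d := dual (cube ι (-(C ^ (t + 1) * B ^ (t + 1) : ℕ)) H) Y
    (Fintype.piFinset fun _ : Fin (t + 1) => W) (fun y x => χ y (bs.equivFun.symm x))
    (fun v => bs.equivFun (∏ i, β (v i))) (fun v => ∏ i, s (v i)) hP (2 * H ^ n) (by positivity)
    fun y hy => by
      rw [← add_sum_erase Y _ hy, two_mul]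
      refine add_le_add ((abs_sum_le_sum_abs _ _).trans ((sum_le_card_nsmul _ _ 1
        fun x _ => ?_).trans ?_)) ((sum_le_card_nsmul _ _ _ fun y' hy' =>
          off h hy (mem_of_mem_erase hy') (ne_of_mem_erase hy').symm _ H).trans ?_)
      · have b : |(χ y (bs.equivFun.symm x) : ℝ)| ≤ 1 := by exact_mod_cast (h.ch y hy).2.2.2.1 _
        rw [abs_mul]
        exact mul_le_one₀ b (abs_nonneg _) b
      · rw [card_cube]; simp [hn]
      · have a : ((Y.erase y).card : ℝ) ≤ Ym := by exact_mod_cast card_erase_le.trans cY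
        have b : (n : ℝ) * Ym ^ 3 ≤ H := by exact_mod_cast hH'
        rw [nsmul_eq_mul, ← hn]
        calc _ ≤ Ym * (Ym ^ 2 * n * (H : ℝ) ^ (n - 1)) := by gcongr
          _ = n * Ym ^ 3 * (H : ℝ) ^ (n - 1) := by ring
          _ ≤ H * (H : ℝ) ^ (n - 1) := by gcongr
          _ = _ := by rw [← pow_succ', Nat.sub_add_cancel n0]
  have f := fib _ _ _ (fun v => ∏ i, s (v i)) hP (fun v => by
    rw [abs_prod]
    exact prod_le_one (fun _ _ => abs_nonneg _) fun _ _ => hs _) ((t + 1) ^ (t + 1)) fun v hv => by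
      obtain ⟨N, hN⟩ := h.nm
      refine (card_le_card (t := Fintype.piFinset fun _ : Fin (t + 1) => univ.image v)
        fun v' hv' => ?_).trans ?_
      · obtain ⟨a, b⟩ := mem_filter.1 hv'
        rw [Fintype.mem_piFinset] at a hv ⊢
        intro j
        have c : (v' j : ℤ) ∣ ∏ i, N (β (v i)) := by
          rw [← map_prod, ← bs.equivFun.injective b, map_prod]
          exact (((hN _ (a j)).2 _ (a j)).2 rfl).trans (dvd_prod_of_mem _ (mem_univ j))
        obtain ⟨i, -, e⟩ := (Nat.prime_iff_prime_int.1 (hN _ (a j)).1).exists_mem_finset_dvd c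
        exact mem_image.2 ⟨i, mem_univ _, (((hN _ (hv i)).2 _ (a j)).1 e).symm⟩
      · rw [Fintype.card_piFinset_const]
        exact Nat.pow_le_pow_left (card_image_le.trans (by simp)) _
  have g := d.trans (mul_le_mul_of_nonneg_left f (by positivity))
  have e : 2 * (t + 1) = 2 * (t + 1) - 1 + 1 := by omega
  have p := pow_sum_le_card_mul_sum_pow (s := Y) (f := fun y => |∑ w ∈ W, s w * χ y (β w)|)
    (fun _ _ => abs_nonneg _) (2 * (t + 1) - 1)
  rw [← e] at p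
  refine p.trans (mul_le_mul_of_nonneg_left (le_trans (le_of_eq ?_) (g.trans_eq ?_))
    (pow_nonneg (Nat.cast_nonneg _) _))
  · refine sum_congr rfl fun y hy => ?_
    rw [mul_comm 2, pow_mul, ← abs_pow, sq_abs, sum_pow']
    congr 1
    refine sum_congr rfl fun v _ => ?_
    rw [LinearEquiv.symm_apply_apply, prod h hy, prod_mul_distrib, Int.cast_prod]
  · rw [Fintype.card_piFinset_const, mul_pow, Nat.cast_pow, Nat.cast_pow]

end Pool.Agent.P.MP_8b7eba_nt.SM
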