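import Pool.Agent.P.MP_8b7eba_nt.SM.IfC

/-! Proof of BIL2. -/

namespace Pool.Agent.P.MP_8b7eba_nt.SM

open Finset

namespace TBIL2

theorem arith {n C B tW tY E T cW cY : ℕ} (hn : 1 ≤ n) (hC : 1 ≤ C) (hT : 2 ≤ T) (hE : 2 ≤ E)
    (h1 : tW ≤ E * cW) (h2 : tY ≤ E * cY) (h3 : tY ≤ 2 ^ E) (h4 : B ^ n ≤ 2 * tW)
    (h5 : (T * E * C) ^ (2 * ((8 * n + 1) * (2 * n + 4))) ≤ tW)
    (h6 : (T * E * C) ^ (2 * ((8 * n + 1) * (2 * n + 4))) ≤ tY) :
    ∃ t H : ℕ, 0 < t ∧ 2 * C ^ t * B ^ t + 1 ≤ H ∧ n * (2 * tY) ^ 3 ≤ H ∧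
      2 * H ^ n * (t * T ^ 2) ^ t ≤ cY * cW ^ t := by
  set Q := T * E * C with hQ
  have hTE : T * E ≤ Q := Nat.le_mul_of_pos_right _ hC
  have Q4 : 4 ≤ Q := le_trans (Nat.mul_le_mul hT hE) hTE
  have up : ∀ {a b : ℕ}, a ≤ b → Q ^ a ≤ Q ^ b := fun h => Nat.pow_le_pow_right (by omega) h
  have big : Q ^ (2 * (2 * n + 4)) ≤ Q ^ (2 * ((8 * n + 1) * (2 * n + 4))) := up (by nlinarith)
  have Q1 : Q ≤ Q ^ (2 * (2 * n + 4)) := Nat.le_self_pow (by omega) Q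
  have W2 : 2 ≤ tW := by omega
  have Y2 : 2 ≤ tY := by omega
  have ex : ∃ t, tY ^ (8 * n) ≤ tW ^ t :=
    ⟨_, (Nat.lt_pow_self (by omega : 1 < tW)).le⟩
  have t1 := Nat.find_spec ex
  have t0 : Nat.find ex ≠ 0 := fun e => by
    rw [e, pow_zero] at t1
    exact absurd (Nat.one_lt_pow (by omega : 8 * n ≠ 0) (by omega : 1 < tY)) (by omega)
  obtain ⟨r, hr⟩ := Nat.exists_eq_succ_of_ne_zero t0
  have t2 : tW ^ r < tY ^ (8 * n) := not_le.1 (Nat.find_min ex (by omega))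
  rw [hr] at t1
  have t3 : r + 1 ≤ E * (8 * n) := by
    have := (Nat.pow_le_pow_left W2 r).trans_lt (t2.trans_le (Nat.pow_le_pow_left h3 _))
    rw [← pow_mul] at this
    exact (Nat.pow_lt_pow_iff_right (by norm_num)).1 this
  have n16 : 16 * n ≤ Q ^ (n + 2) := by
    have h7 : n ≤ 4 ^ n := (Nat.lt_pow_self (by norm_num)).le
    have h8 := Nat.pow_le_pow_left Q4 (n + 2)
    rw [pow_add] at h8
    omega
  have hR : 2 * C ^ n * (E * ((r + 1) * T ^ 2)) ≤ Q ^ (2 * n + 4) := by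
    have h7 : C ^ n ≤ Q ^ n := Nat.pow_le_pow_left (Nat.le_mul_of_pos_left _ (by positivity)) n
    calc 2 * C ^ n * (E * ((r + 1) * T ^ 2)) ≤ 2 * C ^ n * (E * (E * (8 * n) * T ^ 2)) := by gcongr
      _ = 16 * n * (C ^ n * (T * E) ^ 2) := by ring
      _ ≤ Q ^ (n + 2) * (Q ^ n * Q ^ 2) := by gcongr
      _ = Q ^ (2 * n + 4) := by ring
  refine ⟨r + 1, max (2 * C ^ (r + 1) * B ^ (r + 1) + 1) (n * (2 * tY) ^ 3), r.succ_pos,
    le_max_left _ _, le_max_right _ _, ?_⟩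
  rcases le_total (n * (2 * tY) ^ 3) (2 * C ^ (r + 1) * B ^ (r + 1) + 1) with h | h
  · rw [max_eq_left h]
    have h7 : 2 * C ^ (r + 1) * B ^ (r + 1) + 1 ≤ 3 * (C * B) ^ (r + 1) := by
      have : 1 * (2 * 2) ^ 3 ≤ n * (2 * tY) ^ 3 := by gcongr
      rw [mul_assoc, ← mul_pow] at h ⊢
      omega
    set R := 2 * C ^ n * (E * ((r + 1) * T ^ 2)) with hRd
    have h8 : (R ^ (r + 1)) ^ 2 ≤ tY := by
      refine (Nat.pow_le_pow_iff_left (n := (8 * n + 1) * (2 * n + 4)) (by positivity)).1 ?_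
      calc ((R ^ (r + 1)) ^ 2) ^ ((8 * n + 1) * (2 * n + 4))
          ≤ (((Q ^ (2 * n + 4)) ^ (r + 1)) ^ 2) ^ ((8 * n + 1) * (2 * n + 4)) := by gcongr
        _ = ((Q ^ (2 * ((8 * n + 1) * (2 * n + 4)))) ^ r *
            Q ^ (2 * ((8 * n + 1) * (2 * n + 4)))) ^ (2 * n + 4) := by
          rw [← pow_succ]; simp only [← pow_mul]; congr 1; ring
        _ ≤ (tY ^ (8 * n) * tY) ^ (2 * n + 4) :=
          Nat.pow_le_pow_left (Nat.mul_le_mul ((Nat.pow_le_pow_left h5 r).trans t2.le) h6) _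
        _ = tY ^ ((8 * n + 1) * (2 * n + 4)) := by rw [← pow_succ, ← pow_mul]
    have h9 : (2 * 3 ^ n * E) ^ 2 ≤ tY := by
      have hEQ : E ≤ Q := le_trans (Nat.le_mul_of_pos_left _ (by omega)) hTE
      calc (2 * 3 ^ n * E) ^ 2 ≤ (Q * Q ^ n * Q) ^ 2 := by gcongr <;> omega
        _ = Q ^ (2 * n + 4) := by ring
        _ ≤ tY := ((up (by omega)).trans big).trans h6
    have h10 : E * (2 * 3 ^ n * R ^ (r + 1)) ≤ E * cY := by
      refine le_trans ((Nat.pow_le_pow_iff_left (n := 2) two_ne_zero).1 ?_) h2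
      calc (E * (2 * 3 ^ n * R ^ (r + 1))) ^ 2 = (2 * 3 ^ n * E) ^ 2 * (R ^ (r + 1)) ^ 2 := by ring
        _ ≤ tY * tY := Nat.mul_le_mul h9 h8
        _ = tY ^ 2 := (sq tY).symm
    calc 2 * (2 * C ^ (r + 1) * B ^ (r + 1) + 1) ^ n * ((r + 1) * T ^ 2) ^ (r + 1)
        ≤ 2 * (3 * (C * B) ^ (r + 1)) ^ n * ((r + 1) * T ^ 2) ^ (r + 1) := by gcongr
      _ = 2 * 3 ^ n * (C ^ n * B ^ n * ((r + 1) * T ^ 2)) ^ (r + 1) := by
        rw [mul_pow 3, ← pow_mul, mul_comm (r + 1) n, pow_mul, mul_pow C B n,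
          mul_pow (C ^ n * B ^ n)]; ring
      _ ≤ 2 * 3 ^ n * (C ^ n * (2 * (E * cW)) * ((r + 1) * T ^ 2)) ^ (r + 1) := by
        gcongr; omega
      _ = 2 * 3 ^ n * R ^ (r + 1) * cW ^ (r + 1) := by
        rw [mul_assoc _ (R ^ _), ← mul_pow R, hRd]; congr 2; ring
      _ ≤ cY * cW ^ (r + 1) := Nat.mul_le_mul_right _ (Nat.le_of_mul_le_mul_left h10 (by omega))
  · rw [max_eq_right h]
    have h7 : (E * ((r + 1) * T ^ 2)) ^ 2 ≤ tW := by
      have h8 : E * ((r + 1) * T ^ 2) ≤ Q ^ (2 * n + 4) :=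
        (Nat.le_mul_of_pos_left _ (by positivity)).trans hR
      refine (Nat.pow_le_pow_left h8 2).trans (le_trans (le_of_eq ?_) (big.trans h5))
      rw [← pow_mul, mul_comm]
    have h8 : E ^ (r + 1) * (((r + 1) * T ^ 2) ^ (r + 1) * tY ^ (4 * n)) ≤
        E ^ (r + 1) * cW ^ (r + 1) := by
      refine (Nat.pow_le_pow_iff_left (n := 2) two_ne_zero).1 ?_
      calc (E ^ (r + 1) * (((r + 1) * T ^ 2) ^ (r + 1) * tY ^ (4 * n))) ^ 2
          = ((E * ((r + 1) * T ^ 2)) ^ 2) ^ (r + 1) * tY ^ (8 * n) := by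
            rw [← mul_assoc, ← mul_pow E, mul_pow _ _ 2, ← pow_mul, ← pow_mul, ← pow_mul,
              mul_comm (r + 1) 2, show 4 * n * 2 = 8 * n by ring]
        _ ≤ tW ^ (r + 1) * tW ^ (r + 1) := Nat.mul_le_mul (Nat.pow_le_pow_left h7 _) t1
        _ ≤ (E * cW) ^ (r + 1) * (E * cW) ^ (r + 1) := by gcongr
        _ = (E ^ (r + 1) * cW ^ (r + 1)) ^ 2 := by rw [mul_pow E, sq]
    have h9 : 16 * n ≤ tY := n16.trans (((up (by omega)).trans big).trans h6)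
    have h10 : 1 ≤ cY := Nat.pos_of_ne_zero fun e => by rw [e] at h2; omega
    calc 2 * (n * (2 * tY) ^ 3) ^ n * ((r + 1) * T ^ 2) ^ (r + 1)
        ≤ 2 ^ n * (n * (2 * tY) ^ 3) ^ n * ((r + 1) * T ^ 2) ^ (r + 1) := by
          gcongr; exact Nat.le_self_pow (by omega) 2
      _ = (16 * n * tY ^ 3) ^ n * ((r + 1) * T ^ 2) ^ (r + 1) := by
          rw [← mul_pow]; congr 2; ring
      _ ≤ (tY * tY ^ 3) ^ n * ((r + 1) * T ^ 2) ^ (r + 1) := by gcongr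
      _ = ((r + 1) * T ^ 2) ^ (r + 1) * tY ^ (4 * n) := by
          rw [← pow_succ', ← pow_mul, mul_comm]
      _ ≤ cW ^ (r + 1) := Nat.le_of_mul_le_mul_left h8 (by positivity)
      _ ≤ cY * cW ^ (r + 1) := Nat.le_mul_of_pos_left _ h10

theorem ps_abs (p : ℕ) : (ps p).natAbs = p := by unfold ps; split_ifs <;> simp

theorem sr_js {a : ℤ} {y : ℕ} (h : a.gcd y = 1) : sr (js a y) = jacobiSym a y := by
  rcases jacobiSym.eq_one_or_neg_one h with e | e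
  · simp [sr, js, e]
  · have : (1 : ZMod 2).val = 1 := rfl
    simp [sr, js, e, this]

theorem nonres {y : ℕ} (hy : y.Prime) (h2 : y ≠ 2) :
    ∃ a a' u : ℕ, a * a' = 1 + y * u ∧ jacobiSym a y = -1 := by
  have := Fact.mk hy
  obtain ⟨a, ha⟩ := FiniteField.exists_nonsquare (F := ZMod y) (by rwa [ZMod.ringChar_zmod_n])
  have a0 : a ≠ 0 := fun e => ha (e ▸ IsSquare.zero)
  refine ⟨a.val, (a⁻¹).val, a.val * (a⁻¹).val / y, ?_, ?_⟩
  · rw [← ZMod.val_one y, ← mul_inv_cancel₀ a0, ZMod.val_mul, Nat.mod_add_div]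
  · rw [← jacobiSym.legendreSym.to_jacobiSym, legendreSym.eq_neg_one_iff]
    simpa using ha

end TBIL2

open TBIL2 in
theorem t_BIL2 (hBIL : BIL) : BIL2 := by
  intro n
  refine ⟨2 * ((8 * n + 1) * (2 * n + 4)), ?_⟩
  intro O ι _ _ _ bs W Y χ β C B tW tY E T cW cY s hn hB hs hT hE hW hY h1 h2 h3 h4 h5 h6
  obtain ⟨t, H, t0, a1, a2, a3⟩ := arith (hn ▸ Fintype.card_pos) hB.one hT hE h1 h2 h3 h4 h5 h6
  have h := hBIL O ι bs W Y χ β C B (2 * tY) H t s hB t0 hs a1 (hn ▸ a2)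
  have T0 : (0 : ℝ) < T := by exact_mod_cast (by omega : 0 < T)
  refine (pow_le_pow_iff_left₀ (sum_nonneg fun _ _ => abs_nonneg _) (by positivity)
    (by omega : 2 * t ≠ 0)).1 (h.trans ?_)
  have a4 : (2 * H ^ n * (t * T ^ 2) ^ t : ℝ) ≤ cY * cW ^ t := by exact_mod_cast a3
  have hW' : (W.card : ℝ) ≤ cW := by exact_mod_cast hW
  have hY' : (Y.card : ℝ) ≤ cY := by exact_mod_cast hY
  obtain ⟨r, rfl⟩ := Nat.exists_eq_succ_of_ne_zero t0.ne'
  rw [hn, show 2 * r.succ - 1 = 2 * r + 1 by omega]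
  calc (Y.card : ℝ) ^ (2 * r + 1) * (2 * H ^ n * ((r.succ : ℕ) * W.card) ^ r.succ)
      ≤ cY ^ (2 * r + 1) * (2 * H ^ n * ((r.succ : ℕ) * cW) ^ r.succ) := by gcongr
    _ = (cY ^ (2 * r + 1) * cW ^ r.succ * ((T : ℝ)⁻¹) ^ (2 * r.succ)) *
        (2 * H ^ n * ((r.succ : ℕ) * T ^ 2) ^ r.succ) := by
      rw [mul_pow, mul_pow, ← pow_mul, inv_pow]; field_simp
    _ ≤ (cY ^ (2 * r + 1) * cW ^ r.succ * ((T : ℝ)⁻¹) ^ (2 * r.succ)) * (cY * cW ^ r.succ) := by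
      gcongr
    _ = _ := by rw [mul_pow, mul_pow, Nat.succ_eq_add_one]; ring

open TBIL2 in
theorem t_OZ (hBIL2 : BIL2) : OZ := by
  obtain ⟨c, hc⟩ := hBIL2 1
  refine ⟨c, fun W Y tW tY E T hW hY hd hT hE h1 h2 b hb => ?_⟩
  let I : ℕ → ℝ := fun u => ∑ y ∈ Y, b y * sr (js (ps u) y)
  let s : ℕ → ℝ := fun u => if 0 ≤ I u then 1 else -1
  have key : ∀ w ∈ W, ∀ w' : ℕ, w'.Prime → ((w' : ℤ) ∣ ps w ↔ w' = w) := fun w hw w' hw' => by
    rw [Int.natCast_dvd, ps_abs, Nat.prime_dvd_prime_iff_eq hw' (hW.gp w hw).1.1]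
  have h := hc ℤ Unit (Module.Basis.singleton Unit ℤ) W Y (fun y x => jacobiSym x y) ps 1 (2 * tW)
    tW tY E T W.card Y.card s (by simp) ⟨le_rfl, fun x y a b ha hb i => ?_, fun w hw i => ?_,
      ⟨MonoidHom.id ℤ, fun w hw => ⟨(hW.gp w hw).1.1, fun w' hw' => key w hw w' (hW.gp w' hw').1.1⟩⟩,
      fun y hy => ⟨(hY.gp y hy).1.1, (hY.gp y hy).2.2, fun x x' => jacobiSym.mul_left x x' y,
        fun x => ?_, fun x u => jacobiSym.mod_left' (by simp), ?_⟩⟩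
    (fun w => by simp only [s]; split_ifs <;> simp) hT hE le_rfl le_rfl hW.card hY.card hY.log
    (by simp) (by simpa using h1) (by simpa using h2)
  · refine le_trans (le_of_eq ?_) ((sum_le_sum (f := fun y => b y * ∑ w ∈ W, s w *
      (jacobiSym (ps w) y : ℝ)) fun y _ => ?_).trans h)
    · simp only [mul_sum]
      rw [sum_comm]
      refine sum_congr rfl fun u hu => ?_
      have e : |I u| = s u * I u := by
        simp only [s]
        split_ifs with h0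
        · rw [abs_of_nonneg h0, one_mul]
        · rw [abs_of_neg (not_le.1 h0), neg_one_mul]
      refine e.trans ((mul_sum _ _ _).trans (sum_congr rfl fun y hy => ?_))
      have hp := (hY.gp y hy).1.1
      rw [sr_js, mul_left_comm]
      rw [Int.gcd_comm, ← Int.isCoprime_iff_gcd_eq_one,
        (Nat.prime_iff_prime_int.1 hp).irreducible.coprime_iff_not_dvd, key u hu y hp]
      exact fun e => disjoint_left.1 hd hu (e ▸ hy)
    · refine (le_abs_self _).trans ?_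
      rw [abs_mul]
      exact mul_le_of_le_one_left (abs_nonneg _) (hb y)
  · have h3 := ha i
    have h4 := hb i
    simp only [Module.Basis.singleton_repr] at h3 h4 ⊢
    rw [abs_mul, Nat.cast_one, one_mul]
    exact mul_le_mul h3 h4 (abs_nonneg _) (Nat.cast_nonneg _)
  · rw [Module.Basis.singleton_repr, ← Int.natCast_natAbs, ps_abs]
    exact_mod_cast (hW.gp w hw).2.2
  · rcases jacobiSym.trichotomy x y with e | e | e <;> simp [e]
  · obtain ⟨a, a', u, e1, e2⟩ := nonres (hY.gp y hy).1.1 fun e => (hY.gp y hy).1.2 (e ▸ by norm_num)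
    exact ⟨a, a', u, by exact_mod_cast e1, e2⟩

end Pool.Agent.P.MP_8b7eba_nt.SM
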