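import Pool.Agent.P.MP_8b7eba_nt.SM.IfG

/-! Proof of BOXL. -/

namespace Pool.Agent.P.MP_8b7eba_nt.SM

open Finset R2
open scoped Matrix

namespace TBOXL

theorem two_le (B : Box) : 2 ≤ 2 ^ (B.r + B.S.card + 2) ^ 2 * (B.E + 2) :=
  le_trans (Nat.le_add_left 2 B.E) (Nat.le_mul_of_pos_left _ (by positivity))

theorem one_le {B : Box} {K l A N y₀ y₁ : ℕ} {J₀ : Finset (Fin B.r)}
    {J : Fin K ⊕ Bool → Finset (Fin B.r)} (h : B.Reg K l A N y₀ y₁ J₀ J) : 1 ≤ y₁ :=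
  le_trans (Nat.one_le_pow _ _ (lt_of_lt_of_le (by norm_num) (two_le B))) (h.big.trans h.le)

theorem mono {B : Box} {K l l' A A' N y₀ y₁ : ℕ} {J₀ : Finset (Fin B.r)}
    {J : Fin K ⊕ Bool → Finset (Fin B.r)} (h : B.Reg K l A N y₀ y₁ J₀ J) (hl : l' ≤ l)
    (hA : A' ≤ A) : B.Reg K l' A' N y₀ y₁ J₀ J :=
  ⟨le_trans (Nat.pow_le_pow_right (lt_of_lt_of_le (by norm_num) (two_le B)) hA) h.big, h.le, h.t0,
    h.low, fun s i hi => le_trans (Nat.pow_le_pow_right (one_le h) hA) (h.high s i hi),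
    fun s => hl.trans (h.card s), h.dj, h.dj0, h.u1, h.na⟩

theorem num (B : Box) (T₀ : ℕ) : 2 ^ B.r ^ 2 * T₀ * (B.E + 2) * 2 ^ (B.r + B.S.card + 2) ≤
    (2 ^ (B.r + B.S.card + 2) ^ 2 * (B.E + 2)) ^ (T₀ + 1) := by
  have h1 : 2 ^ B.r ^ 2 * 2 ^ (B.r + B.S.card + 2) ≤ 2 ^ (B.r + B.S.card + 2) ^ 2 := by
    rw [← pow_add]
    exact Nat.pow_le_pow_right (by norm_num) (by nlinarith)
  have h2 : T₀ ≤ (2 ^ (B.r + B.S.card + 2) ^ 2 * (B.E + 2)) ^ T₀ :=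
    le_trans Nat.lt_two_pow_self.le (Nat.pow_le_pow_left (two_le B) _)
  calc _ = T₀ * (2 ^ B.r ^ 2 * 2 ^ (B.r + B.S.card + 2) * (B.E + 2)) := by ring
    _ ≤ _ := by
      rw [pow_succ _ T₀]
      exact Nat.mul_le_mul h2 (Nat.mul_le_mul_right _ h1)

theorem split {P D : Type} [Fintype D] (X : Finset P) (f : P → D) (G : D → Prop) (b : P → Prop)
    [DecidablePred b] [DecidablePred G] [DecidablePred fun p => ¬ G (f p)]
    [∀ a, DecidablePred fun p => f p = a ∧ b p] :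
    (X.filter b).card ≤ (X.filter fun p => ¬ G (f p)).card +
      ∑ a ∈ univ.filter G, (X.filter fun p => f p = a ∧ b p).card := by
  classical
  refine le_trans (card_le_card (t := (X.filter fun p => ¬ G (f p)) ∪
    (univ.filter G).biUnion fun a => X.filter fun p => f p = a ∧ b p) ?_) ?_
  · intro p hp
    rw [mem_filter] at hp
    by_cases h : G (f p)
    · exact mem_union_right _ (mem_biUnion.2 ⟨f p, mem_filter.2 ⟨mem_univ _, h⟩,
        mem_filter.2 ⟨hp.1, rfl, hp.2⟩⟩)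
    · exact mem_union_left _ (mem_filter.2 ⟨hp.1, h⟩)
  · exact (card_union_le _ _).trans (Nat.add_le_add_left card_biUnion_le _)

theorem fib {P D : Type} [Fintype D] [DecidableEq D] (X : Finset P) (f : P → D) (G : D → Prop)
    [DecidablePred G] :
    ∑ a ∈ univ.filter G, ((X.filter fun p => f p = a).card : ℝ) ≤ X.card := by
  have h : X.card = ∑ a ∈ univ, (X.filter fun p => f p = a).card :=
    card_eq_sum_card_fiberwise fun p _ => mem_univ (f p)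
  rw [h, Nat.cast_sum]
  exact sum_le_sum_of_subset_of_nonneg (filter_subset _ _) fun _ _ _ => Nat.cast_nonneg _

end TBOXL

variable [HA]

theorem t_BOXL (hMODEL : MODEL) (hBX2 : BX2) (hBX3 : BX3) : BOXL := by
  classical
  intro ε hε
  obtain ⟨s, hs⟩ := hBX3 (ε / 2) (by positivity)
  have h2s : (0 : ℝ) < 2 ^ s := by positivity
  have hε' : 0 < ε / (8 * 2 ^ s) := by positivity
  obtain ⟨K, hK⟩ := exists_pow_lt_of_lt_one hε' (show (2⁻¹ : ℝ) < 1 by norm_num)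
  obtain ⟨A₁, hA₁⟩ := hBX2 K s _ hε'
  obtain ⟨l, A₂, N, h3⟩ := hs (K + 1)
  obtain ⟨T₁, hT₁⟩ := exists_nat_ge (8 * 2 ^ s / ε)
  refine ⟨K + 1, max l 1, (T₁ + 2 + 1) * A₁ + A₂, N, le_max_right _ _, ?_⟩
  intro Λ B y₀ y₁ J₀ J i₀ hR
  obtain ⟨m, hm⟩ := hMODEL Λ B
  have e3 := h3 Λ B m y₀ y₁ J₀ J i₀ hm (TBOXL.mono hR (le_max_left _ _) (Nat.le_add_left _ _))
  have hR1 := TBOXL.mono hR le_rfl (Nat.le_add_right ((T₁ + 2 + 1) * A₁) A₂)
  have hT : 2 ≤ 2 ^ B.r ^ 2 * (T₁ + 2) :=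
    le_trans (Nat.le_add_left 2 T₁) (Nat.le_mul_of_pos_left _ (by positivity))
  have hb : (2 ^ B.r ^ 2 * (T₁ + 2) * (B.E + 2) * 2 ^ (B.r + B.S.card + 2)) ^ A₁ ≤ y₀ := by
    refine le_trans (Nat.pow_le_pow_left (TBOXL.num B (T₁ + 2)) _) ?_
    rw [← pow_mul]
    exact hR1.big
  have hh : ∀ j, ∀ i ∈ J (.inr j), y₁ ^ A₁ ≤ B.t i := fun j i hi =>
    le_trans (Nat.pow_le_pow_right (TBOXL.one_le hR) (Nat.le_mul_of_pos_left _ (by omega)))
      (hR1.high j i hi)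
  have e2 := fun a => hA₁ Λ B m _ y₀ y₁ J i₀ a hm hT hb hR.le hR.t0 hR.low hh hR.dj
  set G : (Fin B.r → Fin B.r → F2) → Prop := fun a => m.ns i₀ a ≤ 2 ^ s ∧
    ∀ α R, m.Sol i₀ a α R → m.Typ J α R with hG
  have e1 := TBOXL.split B.pts Leg G fun p => Λ.Bad (B.set p) (p i₀)
  have e4 := TBOXL.fib B.pts Leg G
  have hc : ((univ.filter G).card : ℝ) ≤ 2 ^ B.r ^ 2 := by
    have : (univ.filter G).card ≤ 2 ^ B.r ^ 2 := by
      refine (card_le_univ _).trans_eq ?_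
      simp [← pow_mul, sq]
    exact_mod_cast this
  have hP : (0 : ℝ) ≤ B.pts.card := Nat.cast_nonneg _
  have e5 : ∑ a ∈ univ.filter G,
      ((B.pts.filter fun p => Leg p = a ∧ Λ.Bad (B.set p) (p i₀)).card : ℝ) ≤
      ε / 2 * B.pts.card := by
    refine le_trans (sum_le_sum fun a ha => e2 a (mem_filter.1 ha).2.1 (mem_filter.1 ha).2.2) ?_
    rw [← mul_sum, sum_add_distrib, ← mul_sum, sum_const, nsmul_eq_mul]
    have a1 : ((2 : ℝ) ^ K)⁻¹ + ε / (8 * 2 ^ s) ≤ ε / (4 * 2 ^ s) := by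
      rw [inv_pow] at hK
      have : ε / (4 * 2 ^ s) = ε / (8 * 2 ^ s) + ε / (8 * 2 ^ s) := by field_simp; norm_num
      linarith
    have a2 : (2 : ℝ) ^ B.r ^ 2 * (2 / ((2 ^ B.r ^ 2 * (T₁ + 2) : ℕ) : ℝ)) ≤ ε / (4 * 2 ^ s) := by
      push_cast
      rw [div_le_iff₀ hε] at hT₁
      rw [← mul_div_assoc, mul_div_mul_left _ _ (by positivity), div_le_div_iff₀ (by positivity)
        (by positivity)]
      nlinarith
    have a3 : (((2 : ℝ) ^ K)⁻¹ + ε / (8 * 2 ^ s)) *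
        ∑ a ∈ univ.filter G, ((B.pts.filter fun p => Leg p = a).card : ℝ) ≤
        ε / (4 * 2 ^ s) * B.pts.card :=
      mul_le_mul a1 e4 (sum_nonneg fun _ _ => Nat.cast_nonneg _) (by positivity)
    have a4 : ((univ.filter G).card : ℝ) *
        (2 / ((2 ^ B.r ^ 2 * (T₁ + 2) : ℕ) : ℝ) * B.pts.card) ≤ ε / (4 * 2 ^ s) * B.pts.card := by
      rw [← mul_assoc]
      exact mul_le_mul_of_nonneg_right
        (le_trans (mul_le_mul_of_nonneg_right hc (by positivity)) a2) hP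
    refine le_trans (mul_le_mul_of_nonneg_left (add_le_add a3 a4) h2s.le) (le_of_eq ?_)
    field_simp
    ring
  have e6 : ((B.pts.filter fun p => Λ.Bad (B.set p) (p i₀)).card : ℝ) ≤
      (B.pts.filter fun p => ¬ G (Leg p)).card + ∑ a ∈ univ.filter G,
      ((B.pts.filter fun p => Leg p = a ∧ Λ.Bad (B.set p) (p i₀)).card : ℝ) := by
    exact_mod_cast e1
  have e7 : ((B.pts.filter fun p => ¬ G (Leg p)).card : ℝ) ≤ ε / 2 * B.pts.card := by
    convert e3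
  linarith

end Pool.Agent.P.MP_8b7eba_nt.SM
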