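import Pool.Agent.P.MP_8b7eba_nt.SM.BasH

/-! Patterns in boxes. -/

namespace Pool.Agent.P.MP_8b7eba_nt.SM

open Finset R2
open scoped Matrix

variable {B : Box} {p : Fin B.r → ℕ} {g : GQ} {φ : X2} {R : Fin B.r → V1} {a : Fin 4 ⊕ B.S → V1}

theorem Rich.mono {X : Finset ℕ} {t E E' : ℕ} (h : Rich X t E) (h' : E ≤ E') : Rich X t E' := by
  exact ⟨h.gp, h.card.trans (Nat.mul_le_mul_right _ h'),
    h.log.trans (Nat.pow_le_pow_right (by norm_num) h')⟩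

theorem Box.mem_pts : p ∈ B.pts ↔ ∀ i, p i ∈ B.X i := by
  exact Fintype.mem_piFinset

theorem Box.inj (hp : p ∈ B.pts) : Function.Injective p ∧ ∀ i, Gp (p i) ∧ p i ∉ B.S := by
  rw [Box.mem_pts] at hp
  refine ⟨fun i j e => ?_, fun i => ⟨((B.rich i).gp _ (hp i)).1, disjoint_left.1 (B.nS i) (hp i)⟩⟩
  by_contra h
  exact disjoint_left.1 (B.dj i j h) (hp i) (e ▸ hp j)

theorem Box.mem_set {q : ℕ} : q ∈ B.set p ↔ q ∈ B.S ∨ ∃ i, p i = q := by
  simp [Box.set]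

theorem Box.set_gp (hp : p ∈ B.pts) : ∀ q ∈ B.set p, Gp q := by
  intro q hq
  rcases Box.mem_set.1 hq with h | ⟨i, rfl⟩
  · exact B.gS q h
  · exact ((Box.inj hp).2 i).1

theorem Box.sum_set {A : Type} [AddCommMonoid A] (hp : p ∈ B.pts) (f : ℕ → A) :
    ∑ q ∈ B.set p, f q = ∑ q : B.S, f q + ∑ i, f (p i) := by
  rw [Box.set, sum_union, sum_image fun i _ j _ e => (Box.inj hp).1 e, sum_coe_sort B.S f]
  refine disjoint_left.2 fun q hq h => ?_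
  obtain ⟨i, -, rfl⟩ := mem_image.1 h
  exact ((Box.inj hp).2 i).2 hq

theorem Box.leg_swap {p' : Fin B.r → ℕ} (hp : p ∈ B.pts) (hp' : p' ∈ B.pts) (i j : Fin B.r) :
    Leg p i j + Leg p j i = Leg p' i j + Leg p' j i := by
  have key : ∀ p ∈ B.pts, i ≠ j → Leg p i j + Leg p j i = js (-1) (p j) * js (-1) (p i) := by
    intro p hp h
    obtain ⟨h1, h2⟩ := Box.inj hp
    rw [Leg, Leg, if_neg h, if_neg h.symm, js_swap (h2 j).1 (h2 i).1 fun e => h (h1 e).symm,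
      add_right_comm, CharTwo.add_self_eq_zero, zero_add]
  have e : ∀ i, js (-1) (p i) = js (-1) (p' i) := fun i => by
    rw [js, js, B.key i _ (Box.mem_pts.1 hp i) _ (Box.mem_pts.1 hp' i) (-1)
      (neg_dvd.2 (one_dvd _))]
  by_cases h : i = j
  · simp [Leg, h]
  · rw [key p hp h, key p' hp' h, e i, e j]

namespace BasP

theorem smz_dvd {S : Finset ℕ} (b : Fin 4 ⊕ S) : smz S b ∣ 30 * ∏ q ∈ S, (q : ℤ) := by
  rcases b with i | q
  · refine Dvd.dvd.mul_right ?_ _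
    fin_cases i <;> simp [smz, bs]
  · exact Dvd.dvd.mul_left (dvd_prod_of_mem (fun q : ℕ => (q : ℤ)) q.2) _

theorem not_dvd {p : ℕ} (hp : p.Prime) (h : ¬ p ∣ 30) (h' : p ∉ B.S) (b : Fin 4 ⊕ B.S) :
    ¬ (p : ℤ) ∣ 2 * smz B.S b := by
  intro e
  have hp' := Nat.prime_iff_prime_int.1 hp
  have h30 : ¬ (p : ℤ) ∣ 30 := fun e => h (by exact_mod_cast e)
  rcases hp'.dvd_or_dvd e with e | e
  · exact h30 (e.trans (by norm_num))
  rcases hp'.dvd_or_dvd (e.trans (smz_dvd b)) with e | e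
  · exact h30 e
  obtain ⟨q, hq, e⟩ := (hp'.dvd_finsetProd_iff _).1 e
  have := (Nat.prime_dvd_prime_iff_eq hp (B.gS q hq).1).1 (by exact_mod_cast e)
  exact h' (this ▸ hq)

end BasP

theorem Box.js_eq {i : Fin B.r} {q q' : ℕ} (hq : q ∈ B.X i) (hq' : q' ∈ B.X i) (b : Fin 4 ⊕ B.S) :
    js (smz B.S b) q = js (smz B.S b) q' := by
  rw [js, js, B.key i q hq q' hq' _ (BasP.smz_dvd b)]

theorem isCh_sp (a : Fin 4 ⊕ B.S → V1) : IsCh ⊤ (sp B.S a) := by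
  exact IsCh.sum fun b _ => (isCh_qz _).smul _

theorem isCh_pat (h : IsCh ⊤ φ) (R : Fin B.r → V1) (p : Fin B.r → ℕ) : IsCh ⊤ (pat φ R p) := by
  exact h.add (IsCh.sum fun i _ => (isCh_qs _).smul _)

variable [HA]

namespace BasP

theorem bs_tp {p : ℕ} (hp : Gp p) (i : Fin 4) : qz (bs i) (tp p) = 0 :=
  bs_I (w := pl p) (by rw [pl_p hp.1]; exact hp.2) (tp_I hp.1 hp.ne.1) i

theorem qz_tp {p q : ℕ} (hp : Gp p) (hq : Gp q) : qz q (tp p) = if p = q then 1 else 0 := by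
  have h : qz (-1) (tp p) = 0 := bs_tp hp 0
  rw [← qs_tp hp hq, qs_eq hq.ne.2.2.2.2.1, Pi.add_apply, Pi.smul_apply, h, smul_zero, add_zero]

theorem qs_leg (hp : p ∈ B.pts) (i j : Fin B.r) : qs (p j) (fr (p i)) = Leg p i j := by
  obtain ⟨h1, h2⟩ := Box.inj hp
  by_cases e : i = j
  · rw [Leg, if_pos e, e, qs_fr_self (h2 j).1.1 (h2 j).1.ne.1]
  · rw [Leg, if_neg e, qs_fr (h2 i).1 (h2 j).1 fun e' => e (h1 e')]

theorem qs_S (hp : p ∈ B.pts) (q : B.S) (i : Fin B.r) : qs (p i) (fr q) = js q (p i) := by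
  have h := (Box.inj hp).2 i
  have hq := B.gS q q.2
  rw [qs_fr hq h.1 fun e => h.2 (e ▸ q.2), js_rec hq.ne.2.2.2.2.1 h.1.ne.2.2.2.2.1]

end BasP

theorem sp_I {w : Pl} (h : ¬ w.p ∣ 30) (h' : w.p ∉ B.S) (hg : g ∈ w.I) : sp B.S a g = 0 := by
  refine sum_eq_zero fun b _ => ?_
  rw [qz_I hA (BasP.not_dvd w.prime h h' b) hg, zero_smul]

theorem sp_tp (a : Fin 4 ⊕ B.S → V1) (q : B.S) : sp B.S a (tp q) = a (.inr q) := by
  have hq := B.gS q q.2
  rw [sp, Fintype.sum_sum_type, sum_eq_zero, zero_add, sum_eq_single q]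
  · rw [smz, Sum.elim_inr, BasP.qz_tp hq hq, if_pos rfl, one_smul]
  · intro q' _ e
    rw [smz, Sum.elim_inr, BasP.qz_tp hq (B.gS q' q'.2), if_neg fun e' => e (Subtype.ext e').symm,
      zero_smul]
  · exact fun h => absurd (mem_univ q) h
  · intro i _
    rw [smz, Sum.elim_inl, BasP.bs_tp hq, zero_smul]

theorem sp_tp_X (a : Fin 4 ⊕ B.S → V1) {i : Fin B.r} {q : ℕ} (hq : q ∈ B.X i) :
    sp B.S a (tp q) = 0 := by
  have h := ((B.rich i).gp q hq).1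
  refine sp_I (w := pl q) ?_ ?_ (tp_I h.1 h.ne.1)
  · rw [pl_p h.1]
    exact h.2
  · rw [pl_p h.1]
    exact disjoint_left.1 (B.nS i) hq

theorem sp_fr (a : Fin 4 ⊕ B.S → V1) {i : Fin B.r} {q : ℕ} (hq : q ∈ B.X i) :
    sp B.S a (fr q) = ∑ b, js (smz B.S b) q • a b := by
  have h := ((B.rich i).gp q hq).1
  refine sum_congr rfl fun b _ => ?_
  rw [qz_fr h.1 (BasP.not_dvd h.1 h.2 (disjoint_left.1 (B.nS i) hq) b)]

theorem pat_I {w : Pl} (hp : p ∈ B.pts) (h' : w.p ∉ B.set p) (hg : g ∈ w.I) :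
    pat φ R p g = φ g := by
  rw [pat, sum_eq_zero, add_zero]
  intro i _
  have h := ((Box.inj hp).2 i).1
  rw [qs_I h.1 h.ne.1 (fun e => h' (Box.mem_set.2 (Or.inr ⟨i, e.symm⟩))) hg, zero_smul]

theorem pat_tp (hp : p ∈ B.pts) (i : Fin B.r) : pat φ R p (tp (p i)) = φ (tp (p i)) + R i := by
  obtain ⟨h1, h2⟩ := Box.inj hp
  rw [pat, sum_eq_single i]
  · rw [qs_tp (h2 i).1 (h2 i).1, if_pos rfl, one_smul]
  · intro j _ e
    rw [qs_tp (h2 i).1 (h2 j).1, if_neg fun e' => e (h1 e').symm, zero_smul]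
  · exact fun h => absurd (mem_univ i) h

theorem pat_tp_S (hp : p ∈ B.pts) (q : B.S) : pat φ R p (tp q) = φ (tp q) := by
  rw [pat, sum_eq_zero, add_zero]
  intro i _
  have h := (Box.inj hp).2 i
  rw [qs_tp (B.gS q q.2) h.1, if_neg fun e : (q : ℕ) = p i => h.2 (e ▸ q.2), zero_smul]

theorem pat_fr (hp : p ∈ B.pts) (i : Fin B.r) :
    pat φ R p (fr (p i)) = φ (fr (p i)) + ∑ j, Leg p i j • R j := by
  simp only [pat, BasP.qs_leg hp]

theorem pat_fr_S (hp : p ∈ B.pts) (q : B.S) :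
    pat φ R p (fr q) = φ (fr q) + ∑ i, js q (p i) • R i := by
  simp only [pat, BasP.qs_S hp]

theorem chi_fr (hp : p ∈ B.pts) (i : Fin B.r) :
    chi (B.set p) (fr (p i)) =
      ∑ q : B.S, js q (p i) + (∑ q : B.S, js (-1) q) * js (-1) (p i) + ∑ j, Leg p i j := by
  rw [chi, Finset.sum_apply, Box.sum_set hp fun q => qs q (fr (p i)), sum_mul, ← sum_add_distrib]
  simp only [BasP.qs_leg hp]
  congr 1
  refine sum_congr rfl fun q _ => ?_
  have h := (Box.inj hp).2 i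
  have hq := B.gS q q.2
  have e : p i ≠ q := fun e => h.2 (e ▸ q.2)
  rw [qs_fr h.1 hq e, js_swap hq h.1 e.symm, js_rec hq.ne.2.2.2.2.1 h.1.ne.2.2.2.2.1]

theorem chi_fr_S (hp : p ∈ B.pts) (q : B.S) :
    chi (B.set p) (fr q) = chi B.S (fr q) + ∑ i, js q (p i) := by
  rw [chi, chi, Finset.sum_apply, Finset.sum_apply, Box.sum_set hp fun q' => qs q' (fr q),
    sum_coe_sort B.S fun q' => qs q' (fr q)]
  simp only [BasP.qs_S hp]

end Pool.Agent.P.MP_8b7eba_nt.SM
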