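import Pool.Agent.P.MP_8b7eba_nt.SM.IfG
import Pool.Agent.P.MP_8b7eba_nt.SM.BasP

/-! Proof of BX2. -/

namespace Pool.Agent.P.MP_8b7eba_nt.SM

open Finset R2
open scoped Matrix

namespace TBX2

/-- the positions -/
def emb {k r : ℕ} {J : Fin k ⊕ Bool → Finset (Fin r)}
    (hdj : ∀ j j', j ≠ j' → Disjoint (J j) (J j')) (i : Fin k ⊕ Bool → Fin r)
    (hi : ∀ j, i j ∈ J j) : Option (Option (Fin k)) ↪ Fin r where
  toFun o := i (o.elim (.inr true) fun o' => o'.elim (.inr false) .inl)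
  inj' := by
    intro o o' h
    have h1 : (o.elim (.inr true) fun o' => o'.elim (.inr false) .inl : Fin k ⊕ Bool) =
        o'.elim (.inr true) fun o' => o'.elim (.inr false) .inl := by
      by_contra hc
      have h2 : i _ = i _ := h
      exact disjoint_left.1 (hdj _ _ hc) (hi _) (h2 ▸ hi _)
    rcases o with _ | _ | o <;> rcases o' with _ | _ | o' <;> simp_all

open Classical in
theorem cover {I σ P : Type} [Fintype I] [DecidableEq I] [Fintype σ] (m : Mod I σ) (i₀ : I)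
    (a : I → I → F2) (S : Finset P) (F : (Fin 4 ⊕ σ → FF) × (I → FF) → Finset P) (β : ℝ) (n : ℕ)
    (hns : m.ns i₀ a ≤ n) (hβ : 0 ≤ β) (hF : ∀ c, m.Sol i₀ a c.1 c.2 → ((F c).card : ℝ) ≤ β)
    (h : ∀ p ∈ S, ∃ c, m.Sol i₀ a c.1 c.2 ∧ p ∈ F c) : (S.card : ℝ) ≤ n * β := by
  have hsub : S ⊆ (univ.filter fun c : (Fin 4 ⊕ σ → FF) × (I → FF) =>
      m.Sol i₀ a c.1 c.2).biUnion F := fun p hp =>
    let ⟨c, h1, h2⟩ := h p hp
    mem_biUnion.2 ⟨c, mem_filter.2 ⟨mem_univ _, h1⟩, h2⟩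
  refine (Nat.cast_le.2 ((card_le_card hsub).trans card_biUnion_le)).trans ?_
  rw [Nat.cast_sum]
  refine (sum_le_card_nsmul _ _ β fun c hc => hF c (mem_filter.1 hc).2).trans ?_
  rw [nsmul_eq_mul]
  exact mul_le_mul_of_nonneg_right (Nat.cast_le.2 hns) hβ

end TBX2

variable [HA]

open Classical in
theorem t_BX2 (hBX1 : BX1) (hNORM : NORM) (hTYP : TYP) : BX2 := by
  intro K s ε hε
  obtain ⟨A, hA⟩ := hBX1 K (s + 2) ε hε
  refine ⟨A, fun Λ B m T y₀ y₁ J i₀ a hm hT hbig hle ht0 hlow hhigh hdj hns htyp => ?_⟩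
  generalize hβ : (((2 ^ K)⁻¹ + ε) * (B.pts.filter fun p => Leg p = a).card +
    2 / T * B.pts.card : ℝ) = β
  have hβ0 : 0 ≤ β := by rw [← hβ]; positivity
  let F : (Fin 4 ⊕ B.S → FF) × (Fin B.r → FF) → Finset (Fin B.r → ℕ) := fun σ =>
    B.pts.filter fun p => Leg p = a ∧ (∃ v ∈ Submodule.span F2 (Set.range σ.2),
      ∃ v' ∈ Submodule.span F2 (Set.range σ.2), v.2 = 0 ∧ ee v.1 v'.2 = 1) ∧
      Λ.WK (B.set p) (K + 2) (pat (sp B.S fun b => (σ.1 b).1) (fun i => (σ.2 i).1) p) ∧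
      Λ.WK (B.set p) (K + 2) (pat (sp B.S fun b => (σ.1 b).2) (fun i => (σ.2 i).2) p)
  have hF : ∀ σ : (Fin 4 ⊕ B.S → FF) × (Fin B.r → FF), m.Sol i₀ a σ.1 σ.2 →
      ((F σ).card : ℝ) ≤ β := by
    rintro ⟨α, R⟩ hs
    rcases (F (α, R)).eq_empty_or_nonempty with h | ⟨p₀, h⟩
    · rwa [h, card_empty, Nat.cast_zero]
    obtain ⟨hp₀, hl₀, ⟨v, hv, v', hv', h1, h2⟩, -⟩ := mem_filter.1 h
    have h3 : ∀ j : Fin (K + 1) ⊕ Bool, ∃ i ∈ J j,
        R i = Sum.elim (fun _ => 0) (fun b => bif b then v' else v) j := by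
      rintro (j | _ | _)
      · exact (htyp α R hs).2.2 _ _ (Submodule.zero_mem _)
      · exact (htyp α R hs).2.2 _ _ hv
      · exact (htyp α R hs).2.2 _ _ hv'
    choose i hi hR using h3
    let 𝒯 : Stp (K + 1) (s + 2) :=
      { B := B
        Λ := Λ
        a := a
        e := TBX2.emb hdj i hi
        φ := fun b => bif b then sp B.S fun c => (α c).1 else sp B.S fun c => (α c).2
        R := fun b => bif b then fun j => (R j).1 else fun j => (R j).2
        sy := ⟨p₀, hp₀, hl₀⟩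
        φ0 := by
          rintro (_ | _) j q hq <;> exact sp_tp_X _ hq
        lo := by
          rintro (_ | _) j
          · exact congrArg Prod.snd (hR (.inl j))
          · exact congrArg Prod.fst (hR (.inl j))
        ra := (congrArg Prod.snd (hR (.inr false))).trans h1
        rb := by
          change ee (R (i (.inr false))).1 (R (i (.inr true))).2 = 1
          rw [hR, hR]
          exact h2
        sel := fun p hp hl => by
          have h4 := (hm.sol p hp i₀ α R).1 (hl ▸ hs)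
          obtain ⟨C, h5, h6⟩ := hNORM Λ B m i₀ hm p hp
          refine ⟨?_, C, ?_, h6⟩
          · rintro (_ | _)
            exacts [h4.2.2, h4.2.1]
          · rw [hl] at h5
            rw [pow_add]
            omega }
    have h7 := hA 𝒯 T y₀ y₁ ⟨hT, hbig, hle, ht0, fun j => hlow j _ (hi (.inl j)),
      hhigh false _ (hi (.inr false)), hhigh true _ (hi (.inr true))⟩
    refine le_trans ?_ (h7.trans_eq hβ)
    refine Nat.cast_le.2 (card_le_card fun p hp => ?_)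
    obtain ⟨h8, h9, -, h10, h11⟩ := mem_filter.1 hp
    refine mem_filter.2 ⟨h8, h9, ?_⟩
    rintro (_ | _)
    exacts [h11, h10]
  refine (TBX2.cover m i₀ a _ F β _ hns hβ0 hF fun p hp => ?_).trans_eq (by push_cast; rfl)
  obtain ⟨h1, h2, h3⟩ := mem_filter.1 hp
  subst h2
  obtain ⟨α, R, h4, h5, h6⟩ := hTYP Λ B m i₀ _ J hm p h1 h3 htyp
  exact ⟨(α, R), h4, mem_filter.2 ⟨h1, rfl, h5, h6 (K + 1)⟩⟩

end Pool.Agent.P.MP_8b7eba_nt.SM
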