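import Pool.Agent.P.MP_8b7eba_nt.SM.IfG
import Pool.Agent.P.MP_8b7eba_nt.SM.BasP

/-! Proof of BX3. -/

namespace Pool.Agent.P.MP_8b7eba_nt.SM

open Finset R2
open scoped Matrix

namespace BX3x

theorem cnt {α β : Type} [DecidableEq β] (P : Finset α) (Q : Finset β) (L : α → β) (e : β → β)
    (he : ∀ a, e (e a) = a) (bad : β → Prop) {_ : DecidablePred fun p => bad (L p)} (f : β → ℝ) (ρ : ℝ)
    (h1 : ∀ p ∈ P, e (L p) ∈ Q) (h2 : ∀ a, ((P.filter fun p => L p = a).card : ℝ) ≤ ρ)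
    (h3 : ∀ a, 0 ≤ f a) (h4 : ∀ a, bad a → 1 ≤ f a) :
    ((P.filter fun p => bad (L p)).card : ℝ) ≤ ρ * ∑ x ∈ Q, f (e x) := by
  rw [card_eq_sum_card_fiberwise (f := fun p => e (L p)) (t := Q)
    (fun p hp => h1 p (mem_filter.1 hp).1), Nat.cast_sum, mul_sum]
  refine sum_le_sum fun x _ => ?_
  have h0 : 0 ≤ ρ := (Nat.cast_nonneg _).trans (h2 x)
  by_cases hb : bad (e x)
  · refine le_trans ?_ ((h2 (e x)).trans (le_mul_of_one_le_right h0 (h4 _ hb)))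
    refine Nat.cast_le.2 (card_le_card fun p hp => ?_)
    simp only [mem_filter] at hp ⊢
    exact ⟨hp.1.1, by rw [← hp.2, he]⟩
  · rw [filter_eq_empty_iff.2, card_empty, Nat.cast_zero]
    · exact mul_nonneg h0 (h3 _)
    · intro p hp h
      exact hb (by rw [← h, he]; exact (mem_filter.1 hp).2)

open Classical in
/-- the number of solutions which are not typical -/
noncomputable def na {I σ τ : Type} [Fintype I] [DecidableEq I] [Fintype σ] (m : Mod I σ) (i₀ : I)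
    (J : τ → Finset I) (x : I → I → F2) : ℕ :=
  (univ.filter fun s : (Fin 4 ⊕ σ → FF) × (I → FF) =>
    m.Sol i₀ x s.1 s.2 ∧ ¬ m.Typ J s.1 s.2).card

theorem one_le {I σ τ : Type} [Fintype I] [DecidableEq I] [Fintype σ] (m : Mod I σ) (i₀ : I)
    (J : τ → Finset I) (s : ℕ) (x : I → I → F2)
    (h : ¬ (m.ns i₀ x ≤ 2 ^ s ∧ ∀ α R, m.Sol i₀ x α R → m.Typ J α R)) :
    (1 : ℝ) ≤ (1 / 2) ^ s * m.ns i₀ x + na m i₀ J x := by
  rcases not_and_or.1 h with h | h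
  · refine le_add_of_le_of_nonneg ?_ (Nat.cast_nonneg _)
    rw [one_div, inv_pow, ← div_eq_inv_mul, one_le_div (by positivity)]
    exact_mod_cast (not_le.1 h).le
  · push Not at h
    obtain ⟨α, R, h1, h2⟩ := h
    refine le_add_of_nonneg_of_le (by positivity) (Nat.one_le_cast.2 (card_pos.2 ⟨(α, R), ?_⟩))
    simpa using ⟨h1, h2⟩

theorem card_Sy (r : ℕ) : 0 < (Sy (Fin r)).card ∧ (Sy (Fin r)).card ≤ 2 ^ r ^ 2 := by
  refine ⟨card_pos.2 ⟨0, by simp [Sy]⟩, (card_le_univ _).trans (le_of_eq ?_)⟩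
  simp [← pow_mul, pow_two]

end BX3x

variable [HA]

open BX3x in
theorem t_BX3 (hGENA : GENA) (hEQ : EQ) (hOZ : OZ) (hMOD2 : MOD2) : BX3 := by
  intro ε hε
  obtain ⟨c, hc, hG⟩ := hGENA
  obtain ⟨A, hA⟩ := hOZ
  obtain ⟨s, hs⟩ := exists_pow_lt_of_lt_one (x := ε / (8 * c)) (y := (1 / 2 : ℝ)) (by positivity)
    (by norm_num)
  refine ⟨s, fun K => ?_⟩
  obtain ⟨l, hl⟩ := exists_pow_lt_of_lt_one (x := ε / (8 * c) / (K + 2)) (y := (15 / 16 : ℝ))
    (by positivity) (by norm_num)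
  refine ⟨l, A, s, fun Λ B m y₀ y₁ J₀ J i₀ hm hR => ?_⟩
  rcases B.pts.eq_empty_or_nonempty with h0 | ⟨p₀, h0⟩
  · simp [h0]
  obtain ⟨m1, m2⟩ := hMOD2 Λ B m K l A s y₀ y₁ J₀ J hm hR
  obtain ⟨w, hw⟩ : ∃ w : Fin B.r → Fin B.r → F2, ∀ p ∈ B.pts,
      (fun i j => if i < j then js (-1) (p i) * js (-1) (p j) else 0) = w := by
    refine ⟨fun i j => if i < j then js (-1) (p₀ i) * js (-1) (p₀ j) else 0, fun p hp => ?_⟩
    have e : ∀ i, js (-1) (p i) = js (-1) (p₀ i) := fun i =>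
      Box.js_eq (Box.mem_pts.1 hp i) (Box.mem_pts.1 h0 i) (.inl 0)
    simp only [e]
  obtain ⟨g1, g2⟩ := hG (Fin B.r) B.S (Fin K ⊕ Bool) m i₀ w J₀ J l _ m1 m2
    fun t => ⟨hR.card t, hR.dj0 t⟩
  obtain ⟨T, hT⟩ : ∃ T : ℕ, T = 2 ^ (B.r + B.S.card + 2) ^ 2 := ⟨_, rfl⟩
  have T2 : 2 ≤ T := by
    rw [hT]
    exact Nat.le_self_pow (by positivity) 2
  have big : ∀ i, (T * (B.E + 2)) ^ A ≤ B.t i := fun i => hT ▸ hR.big.trans (hR.t0 i)
  obtain ⟨e1, e2⟩ := hEQ B.r B.X (T : ℝ)⁻¹ (by positivity) (fun i p hp => ((B.rich i).gp p hp).1)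
    fun i j h => ⟨B.dj i j h, hA _ _ _ _ (B.E + 2) T ((B.rich i).mono (by omega))
      ((B.rich j).mono (by omega)) (B.dj i j h) T2 (by omega) (big i) (big j)⟩
  obtain ⟨q0, q1⟩ := card_Sy B.r
  have q2 : ((Sy (Fin B.r)).card : ℝ) ≤ T := by
    rw [hT]
    exact Nat.cast_le.2 (q1.trans (Nat.pow_le_pow_right two_pos (Nat.pow_le_pow_left (by omega) 2)))
  have q3 : (0 : ℝ) < (Sy (Fin B.r)).card := Nat.cast_pos.2 q0
  have q4 := inv_anti₀ q3 q2
  have e3 : (16 : ℝ) ^ Fintype.card B.S / 2 ^ (4 * B.S.card + s) = (1 / 2) ^ s := by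
    rw [Fintype.card_coe, pow_add, pow_mul, one_div, inv_pow]
    norm_num
    field_simp
  rw [e3] at g1 g2
  refine (cnt B.pts (Sy (Fin B.r)) Leg (· + w) (fun a => ?_)
    (fun x => ¬ (m.ns i₀ x ≤ 2 ^ s ∧ ∀ α R, m.Sol i₀ x α R → m.Typ J α R))
    (fun x => (1 / 2) ^ s * m.ns i₀ x + na m i₀ J x) (2 * ((Sy (Fin B.r)).card : ℝ)⁻¹ * B.pts.card)
    (fun p hp => ?_) (fun a => (e2 a).trans ?_) (fun a => by positivity)
    (one_le m i₀ J s)).trans ?_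
  · funext i j
    simp only [Pi.add_apply, add_assoc, CharTwo.add_self_eq_zero, add_zero]
  · rw [← hw p hp]
    exact e1 p hp
  · exact mul_le_mul_of_nonneg_right (by linarith) (Nat.cast_nonneg _)
  · rw [sum_add_distrib, ← mul_sum]
    refine (mul_le_mul_of_nonneg_left (add_le_add
      (mul_le_mul_of_nonneg_left g1 (by positivity)) g2) (by positivity)).trans ?_
    have a1 : (1 / 2 : ℝ) ^ s ≤ 1 := pow_le_one₀ (by norm_num) (by norm_num)
    have a2 : (0 : ℝ) ≤ (1 / 2) ^ s := by positivity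
    rw [lt_div_iff₀ (by positivity)] at hl
    have a3 : (1 / 2 : ℝ) ^ s * (1 + (1 / 2) ^ s) + ((K + 2) * (15 / 16) ^ l + (1 / 2) ^ s) ≤
        ε / (2 * c) := by
      have : ε / (2 * c) = 4 * (ε / (8 * c)) := by field_simp; norm_num
      nlinarith
    rw [le_div_iff₀ (by positivity)] at a3
    refine le_trans (le_of_eq ?_) (mul_le_mul_of_nonneg_right a3 (Nat.cast_nonneg B.pts.card))
    simp only [Fintype.card_sum, Fintype.card_fin, Fintype.card_bool]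
    push_cast
    field_simp

end Pool.Agent.P.MP_8b7eba_nt.SM
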