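import Pool.Agent.P.MP_8b7eba_nt.SM.BasG

/-! Characters of decomposition groups and of the absolute Galois group. -/

namespace Pool.Agent.P.MP_8b7eba_nt.SM

open Finset R2

variable [HA] {p q q' n : ℕ} {w : Pl} {g : GQ} {H : Subgroup GQ} {S : Finset ℕ} {a b : ℤ}
  {A : Type} [AddCommGroup A] [Module F2 A] {χ : GQ → A}

theorem BasH.gen {t : GQ} (h2 : w.p ≠ 2) (h : IsCh w.I χ) (ht : t ∈ w.I)
    (hβ : ∀ β : Om, β ^ 2 = w.p → t β = -β) (hg : g ∈ w.I) : χ g = qz w.p g • χ t := by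
  rw [← sub_eq_zero, ← Module.forall_dual_apply_eq_zero_iff F2]
  intro φ
  have e : φ (χ g) = φ (χ t) * qz w.p g := ch_tame hA h2 (h.map φ.toAddMonoidHom) ht hβ g hg
  rw [map_sub, map_smul, e, smul_eq_mul, mul_comm, sub_self]

theorem ch_I (hp : p.Prime) (h2 : p ≠ 2) (h : IsCh (pl p).I χ) (hg : g ∈ (pl p).I) :
    χ g = qs p g • χ (tp p) := by
  have e := pl_p hp
  have e1 : qz (-1) g = 0 := qz_I hA (fun h3 => h2 ((Nat.prime_dvd_prime_iff_eq hp Nat.prime_two).1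
    (by rw [e, Int.natCast_dvd] at h3; exact h3))) hg
  rw [BasH.gen (by rwa [e]) h (tp_I hp h2) (by rw [e]; exact tp_mov hp h2) hg, e,
    qs_eq (hp.odd_of_ne_two h2), Pi.add_apply, Pi.smul_apply, e1, smul_zero, add_zero]

theorem ch_D (hp : p.Prime) (h2 : p ≠ 2) (h : IsCh (pl p).D χ) (ht : χ (tp p) = 0)
    (hf : χ (fr p) = 0) (hg : g ∈ (pl p).D) : χ g = 0 :=
  ch_unr hA.frob h (fun i hi => by rw [ch_I hp h2 (h.mono (pl p).I_le_D) hi, ht, smul_zero])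
    (fr_frob hp h2) hf g hg

theorem exists_un (hp : p.Prime) (h2 : p ≠ 2) :
    ∃ u : GQ → F2, IsCh (pl p).D u ∧ (∀ g ∈ (pl p).I, u g = 0) ∧ u (fr p) = 1 := by
  obtain ⟨u, h1, h3, h4⟩ := (hA.uch (pl p) 1).1
  exact ⟨u, h1, h3, (h4 1 _ (fr_frob hp h2)).trans Nat.cast_one⟩

theorem ch_unr_top (h2 : w.p ≠ 2) (h : IsCh ⊤ χ) (ht : χ (tp w.p) = 0) (hg : g ∈ w.I) :
    χ g = 0 := by
  obtain ⟨σ, hσ⟩ := exists_smul w
  rw [← hσ, Pl.mem_I_smul] at hg
  rw [← h.conj σ⁻¹ g, inv_inv, ch_I w.prime h2 (h.mono le_top) hg, ht, smul_zero]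

theorem ch_unr_sub (h2 : w.p ≠ 2) (hH : w.I ≤ H) (h : IsCh H χ)
    (ht : ∀ u, χ (u * tp w.p * u⁻¹) = 0) (hg : g ∈ w.I) : χ g = 0 := by
  obtain ⟨σ, hσ⟩ := exists_smul w
  have h1 : σ * tp w.p * σ⁻¹ ∈ (σ • pl w.p).I :=
    Pl.mem_I_smul.2 (by simpa [mul_assoc] using tp_I w.prime h2)
  rw [hσ] at h1
  rw [BasH.gen h2 (h.mono hH) h1 (fun β hβ => ?_) hg, ht, smul_zero]
  rw [AlgEquiv.mul_apply, AlgEquiv.mul_apply,
    tp_mov w.prime h2 _ (by rw [← map_pow, hβ, map_natCast]), map_neg, BasicP.apply_inv]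

omit [HA] in
theorem ch_D_top (h : IsCh ⊤ χ) (h0 : ∀ g ∈ (pl w.p).D, χ g = 0) (hg : g ∈ w.D) : χ g = 0 := by
  obtain ⟨σ, hσ⟩ := exists_smul w
  rw [← hσ, Pl.mem_D_smul] at hg
  rw [← h.conj σ⁻¹ g, inv_inv, h0 _ hg]

theorem BasH.two (h2 : w.p = 2) : ∃ x ∈ w.I, ∃ y ∈ w.I,
    qz (-1) x = 1 ∧ qz 2 x = 0 ∧ qz (-1) y = 0 ∧ qz 2 y = 1 := by
  have key : ∀ m : ℤ, Squarefree m → m % 4 ≠ 1 → ∃ x ∈ w.I, qz m x = 1 := fun m hm h4 => by
    by_contra e
    exact h4 ((qz_I_two_iff hA h2 hm).1 fun x hx =>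
      (LA.cases _).resolve_right fun e' => e ⟨x, hx, e'⟩)
  obtain ⟨x, hx, ex⟩ := key (-1) (isUnit_one.neg.squarefree) (by norm_num)
  obtain ⟨y, hy, ey⟩ := key 2 Int.prime_two.squarefree (by norm_num)
  obtain ⟨z, hz, ez⟩ := key (-1 * 2) (by simpa using Int.prime_two.neg.squarefree) (by norm_num)
  rw [qz_mul (by norm_num) (by norm_num), Pi.add_apply] at ez
  have m : ∀ (k : ℤ) (u v : GQ), qz k (u * v) = qz k u + qz k v := fun k u v =>
    (isCh_qz (H := ⊤) k).2 u trivial v trivial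
  have t : (1 : ZMod 2) + 1 = 0 := rfl
  rcases LA.cases (qz (-1) z) with e | e
  · rw [e, zero_add] at ez
    rcases LA.cases (qz 2 x) with e' | e'
    · exact ⟨x, hx, z, hz, ex, e', e, ez⟩
    · exact ⟨x * z, mul_mem hx hz, z, hz, by rw [m, ex, e, add_zero], by rw [m, e', ez, t], e, ez⟩
  · rw [e, add_eq_left] at ez
    rcases LA.cases (qz (-1) y) with e' | e'
    · exact ⟨z, hz, y, hy, e, ez, e', ey⟩
    · exact ⟨z, hz, y * z, mul_mem hy hz, e, ez, by rw [m, e', e, t], by rw [m, ey, ez, add_zero]⟩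

omit [HA] in
theorem BasH.pow {m : ℤ} (hm : m ≠ 0) (k : ℕ) : qz (m ^ k) = k • qz m := by
  induction k with
  | zero => rw [pow_zero, qz_one, zero_nsmul]
  | succ k ih => rw [pow_succ, qz_mul (pow_ne_zero _ hm) hm, ih, succ_nsmul]

theorem BasH.loc2 (h2 : w.p = 2) {α : GQ → F2} (h : IsCh w.D α) :
    ∃ a b c : F2, ∀ g ∈ w.D, α g = a * qz (-1) g + b * qz 2 g + c * qz 5 g := by
  by_cases h0 : ∀ g ∈ w.D, α g = 0
  · exact ⟨0, 0, 0, fun g hg => by simp [h0 g hg]⟩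
  push Not at h0
  obtain ⟨t, htD, ht⟩ := h0
  obtain ⟨U, hU, hk⟩ := h.exists_ker
  have h3 : U.relIndex w.D = 2 := by
    have e : α '' w.D = Set.univ := Set.eq_univ_of_forall fun a => by
      rcases LA.cases a with rfl | rfl
      exacts [⟨1, w.D.one_mem, h.one⟩, ⟨t, htD, (LA.cases _).resolve_left ht⟩]
    rw [← Subgroup.inf_relIndex_left, hk.relIndex h, e, Set.ncard_univ, Nat.card_zmod]
  obtain ⟨β, hb, hf, hm⟩ := (hA.gal w.D w.closed_D).2.2.2.1 U hU h3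
  obtain ⟨a, b, c, y, hy, e⟩ := (hA.sq2 w).2.2.2.1 h2 _ hf (pow_ne_zero _ hb)
  have e1 : (y / β) ^ 2 = (((-1) ^ a * 2 ^ b * 5 ^ c : ℤ) : Om) := by
    rw [div_pow, ← e]
    push_cast
    field_simp
  have y0 : y ≠ 0 := fun e2 => LA.ne e1 (by positivity) (by rw [e2, zero_div])
  refine ⟨a, b, c, fun g hg => ?_⟩
  have e2 : α g = qz ((-1) ^ a * 2 ^ b * 5 ^ c) g := by
    refine LA.ext ?_
    have e4 : α g = 0 ↔ g ∈ U := by simpa [hg] using (hk g).symm
    rw [qz_eq_zero e1, map_div₀, hy g hg, div_eq_div_iff ((map_ne_zero g).2 hb) hb,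
      mul_right_inj' y0, e4]
    refine ⟨fun e => ((hm g hg).1 e).symm, fun e => by_contra fun e' => ?_⟩
    rw [(hm g hg).2 e'] at e
    exact hb (self_eq_neg.1 e)
  rw [e2, qz_mul (by positivity) (by positivity), qz_mul (by positivity) (by positivity),
    BasH.pow (by norm_num), BasH.pow (by norm_num), BasH.pow (by norm_num)]
  simp only [Pi.add_apply, nsmul_eq_mul]
  rfl

theorem exists_test (hp : p.Prime) : ∃ s : Fin 3 → GQ, (∀ i, s i ∈ (pl p).D) ∧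
    ∀ α : GQ → F2, IsCh (pl p).D α → (∀ i, α (s i) = 0) → ∀ g ∈ (pl p).D, α g = 0 := by
  by_cases h2 : p = 2
  · have e : (pl p).p = 2 := (pl_p hp).trans h2
    obtain ⟨x, hx, y, hy, x1, x2, y1, y2⟩ := BasH.two e
    obtain ⟨z, hz, z5⟩ : ∃ z ∈ (pl p).D, qz 5 z = 1 := by
      by_contra e1
      have := (((hA.sq2 (pl p)).2.2.2.2.1 e 5 (by decide)).1).1 ((qz_D_iff (by norm_num)).1
        fun z hz => (LA.cases _).resolve_right fun e' => e1 ⟨z, hz, e'⟩)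
      norm_num at this
    refine ⟨![x, y, z], fun i => ?_, fun α h h0 g hg => ?_⟩
    · fin_cases i
      exacts [(pl p).I_le_D hx, (pl p).I_le_D hy, hz]
    obtain ⟨a, b, c, k⟩ := BasH.loc2 e h
    have k0 : α x = 0 := h0 0
    have k1 : α y = 0 := h0 1
    have k2 : α z = 0 := h0 2
    rw [k x ((pl p).I_le_D hx), x1, x2, qz_I_two e (by norm_num) hx] at k0
    rw [k y ((pl p).I_le_D hy), y1, y2, qz_I_two e (by norm_num) hy] at k1
    simp only [mul_one, mul_zero, add_zero, zero_add] at k0 k1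
    rw [k z hz, k0, k1, z5] at k2
    simp only [mul_one, zero_mul, zero_add] at k2
    rw [k g hg, k0, k1, k2]
    simp
  · refine ⟨![tp p, fr p, 1], fun i => ?_, fun α h h0 g hg => ch_D hp h2 h (h0 0) (h0 1) hg⟩
    fin_cases i
    exacts [tp_D hp h2, fr_D hp h2, one_mem _]

omit [HA] in
theorem BasH.span (m : ℤ) : m ≠ 0 → (∀ p : ℕ, p.Prime → (p : ℤ) ∣ m → p ∣ 30) →
    qz m ∈ Submodule.span F2 (Set.range fun i => qz (bs i)) := by
  have k : ∀ i, qz (bs i) ∈ Submodule.span F2 (Set.range fun i => qz (bs i)) := fun i =>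
    Submodule.subset_span ⟨i, rfl⟩
  have kn : ∀ x : ℤ, x ≠ 0 → qz x ∈ Submodule.span F2 (Set.range fun i => qz (bs i)) →
      qz (-x) ∈ Submodule.span F2 (Set.range fun i => qz (bs i)) := fun x hx h => by
    rw [← neg_one_mul, qz_mul (by norm_num) hx]
    exact add_mem (k 0) h
  induction m using UniqueFactorizationMonoid.induction_on_prime with
  | h₁ => exact fun e => absurd rfl e
  | h₂ x hx =>
    intro _ _
    rcases Int.isUnit_iff.1 hx with rfl | rfl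
    · rw [qz_one]
      exact zero_mem _
    · exact k 0
  | h₃ x r hx hr ih =>
    intro _ h
    rw [qz_mul hr.ne_zero hx]
    refine add_mem ?_ (ih hx fun p hp e => h p hp (e.mul_left _))
    have h1 := Int.prime_iff_natAbs_prime.1 hr
    have h3 := mem_T30.2 ⟨h1, h _ h1 ((Int.natAbs_dvd.2 dvd_rfl).mul_right _)⟩
    simp only [T30, mem_insert, mem_singleton] at h3
    rcases (show r = 2 ∨ r = -2 ∨ r = -3 ∨ r = - -3 ∨ r = 5 ∨ r = -5 by omega) with
      rfl | rfl | rfl | rfl | rfl | rfl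
    exacts [k 1, kn _ (by norm_num) (k 1), k 2, kn _ (by norm_num) (k 2), k 3,
      kn _ (by norm_num) (k 3)]

theorem BasH.dual : ∃ s : Fin 4 → GQ, ∀ i j, qz (bs i) (s j) = if i = j then 1 else 0 := by
  have e : (pl 2).p = 2 := pl_p Nat.prime_two
  obtain ⟨x, hx, y, hy, x1, x2, y1, y2⟩ := BasH.two e
  have k : ∀ (p : ℕ) (m : ℤ), p.Prime → p ≠ 2 → Squarefree m →
      qz m (tp p) = if (p : ℤ) ∣ m then 1 else 0 := fun p m hp h2 hm => by
    have e := pl_p hp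
    have := qz_gen hA (by rwa [e]) (tp_I hp h2) (by rw [e]; exact tp_mov hp h2) hm
    rw [e] at this
    split_ifs with h
    · exact (LA.cases _).resolve_left fun e => this.1 e h
    · exact this.2 h
  have s : ∀ i, Squarefree (bs i) := fun i => by
    fin_cases i
    exacts [isUnit_one.neg.squarefree, Int.prime_two.squarefree, Int.prime_three.neg.squarefree,
      (Nat.prime_iff_prime_int.1 Nat.prime_five).squarefree]
  refine ⟨![x, y, tp 3, tp 5], fun i j => ?_⟩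
  fin_cases j
  · fin_cases i
    exacts [x1, x2, qz_I_two e (by decide) hx, qz_I_two e (by decide) hx]
  · fin_cases i
    exacts [y1, y2, qz_I_two e (by decide) hy, qz_I_two e (by decide) hy]
  · exact (k 3 _ Nat.prime_three (by norm_num) (s i)).trans (by revert i; decide)
  · exact (k 5 _ Nat.prime_five (by norm_num) (s i)).trans (by revert i; decide)

theorem BasH.chars (h : IsCh ⊤ χ) (hu : ∀ p, Gp p → χ (tp p) = 0) :
    ∃ c : Fin 4 → A, ∀ g, χ g = ∑ i, qz (bs i) g • c i := by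
  obtain ⟨s, hs⟩ := BasH.dual
  refine ⟨fun i => χ (s i), fun g => ?_⟩
  rw [← sub_eq_zero, ← Module.forall_dual_apply_eq_zero_iff F2]
  intro φ
  obtain ⟨m, hm, e⟩ := exists_qz hA (h.map φ.toAddMonoidHom)
  have e1 : ∀ g, φ (χ g) = qz m g := congrFun e
  obtain ⟨c, hc⟩ := (Submodule.mem_span_range_iff_exists_fun F2).1
    (BasH.span m hm.ne_zero fun p hp hd => by
      by_contra h3
      have h2 := (Gp.ne ⟨hp, h3⟩).1
      have e := pl_p hp
      refine (qz_gen hA (by rwa [e]) (tp_I hp h2) (by rw [e]; exact tp_mov hp h2) hm).1 ?_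
        (by rwa [e])
      rw [← e1, hu p ⟨hp, h3⟩, map_zero])
  have e2 : ∀ g, φ (χ g) = ∑ i, c i * qz (bs i) g := fun g => by
    rw [e1, ← hc, Finset.sum_apply]
    rfl
  rw [map_sub, map_sum, e2, sub_eq_zero]
  refine sum_congr rfl fun i _ => ?_
  rw [map_smul, e2, smul_eq_mul, mul_comm]
  simp [hs]

theorem chars (hS : ∀ q ∈ S, Gp q) (h : IsCh ⊤ χ)
    (hu : ∀ w : Pl, ¬ w.p ∣ 30 → w.p ∉ S → ∀ g ∈ w.I, χ g = 0) :
    ∃ c : Fin 4 → A, ∀ g, χ g = ∑ i, qz (bs i) g • c i + ∑ p ∈ S, qs p g • χ (tp p) := by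
  obtain ⟨c, hc⟩ := BasH.chars (h.add (IsCh.sum (s := S) fun p _ =>
    (isCh_qs p).smul (-χ (tp p)))) fun p hp => by
      have e := pl_p hp.1
      rw [sum_congr rfl fun q hq => by rw [qs_tp hp (hS q hq), ite_smul, one_smul, zero_smul],
        sum_ite_eq]
      split_ifs with h1
      · exact add_neg_cancel _
      · rw [add_zero]
        exact hu (pl p) (by rw [e]; exact hp.2) (by rwa [e]) _ (tp_I hp.1 hp.ne.1)
  refine ⟨c, fun g => ?_⟩
  rw [← hc g, add_assoc, ← sum_add_distrib]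
  simp

theorem BasH.key (hp : p.Prime) (h0 : p ≠ 2) (hq : Gp q) (hq' : Gp q') (h1 : p ≠ q) (h2 : p ≠ q')
    (h : js (ps q) p = js (ps q') p) (hg : g ∈ (pl p).D) : qs q g + qs q' g = 0 := by
  have e := pl_p hp
  have k : ∀ q, Gp q → p ≠ q → qs q (tp p) = 0 ∧ qs q (fr p) = js (ps q) p := fun q hq h1 =>
    ⟨qs_I hq.1 hq.ne.1 (by rwa [e]) (tp_I hp h0), qz_fr hp fun h3 => by
      rw [Int.natCast_dvd, Int.natAbs_mul, (ps_mod hq.ne.2.2.2.2.1).2] at h3
      rcases (Nat.Prime.dvd_mul hp).1 h3 with h4 | h4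
      · exact h0 ((Nat.prime_dvd_prime_iff_eq hp Nat.prime_two).1 h4)
      · exact h1 ((Nat.prime_dvd_prime_iff_eq hp hq.1).1 h4)⟩
  refine ch_D hp h0 ((isCh_qs q).add (isCh_qs q')) ?_ ?_ hg
  · rw [(k q hq h1).1, (k q' hq' h2).1, add_zero]
  · rw [(k q hq h1).2, (k q' hq' h2).2, h, CharTwo.add_self_eq_zero]

theorem key30 (hq : Gp q) (hq' : Gp q') (h : ∀ a : ℤ, a ∣ 30 → jacobiSym a q = jacobiSym a q') :
    (∀ p ∈ T30, ∀ g ∈ (pl p).D, qs q g + qs q' g = 0) ∧ qs q tau + qs q' tau = 0 := by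
  have o := hq.ne.2.2.2.2.1
  have o' := hq'.ne.2.2.2.2.1
  have l := hq.ne.2.2.2.2.2
  have l' := hq'.ne.2.2.2.2.2
  have h8 : q % 8 = q' % 8 := by
    have h1 := h (-1) (by norm_num)
    have h2 := h 2 (by norm_num)
    rw [jacobiSym.at_neg_one o, jacobiSym.at_neg_one o', ZMod.χ₄_nat_eq_if_mod_four,
      ZMod.χ₄_nat_eq_if_mod_four] at h1
    rw [jacobiSym.at_two o, jacobiSym.at_two o', ZMod.χ₈_nat_eq_if_mod_eight,
      ZMod.χ₈_nat_eq_if_mod_eight] at h2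
    rw [Nat.odd_iff] at o o'
    split_ifs at h1 h2 <;> omega
  have e : ∀ g, qs q g + qs q' g = qz (q * q' : ℕ) g := fun g => by
    have e1 : ps q * ps q' = (q * q' : ℕ) := by
      rw [ps, ps, show q' % 4 = q % 4 by omega]
      split_ifs <;> simp
    have n : ∀ q, Odd q → ps q ≠ 0 := fun q o e => by simpa [e] using (ps_mod o).1
    rw [← e1, qz_mul (n q o) (n q' o')]
    rfl
  refine ⟨fun p hp g hg => ?_, ?_⟩
  · obtain ⟨p1, p2⟩ := mem_T30.1 hp
    by_cases h2 : p = 2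
    · rw [e]
      refine qz_D_two hA ((pl_p p1).trans h2) ?_ hg
      have : q * q' % 8 = 1 := by
        rw [Nat.mul_mod, ← h8]
        rcases (show q % 8 = 1 ∨ q % 8 = 3 ∨ q % 8 = 5 ∨ q % 8 = 7 by
          rw [Nat.odd_iff] at o; omega) with e | e | e | e <;> rw [e]
      omega
    · refine BasH.key p1 h2 hq hq' (fun e => hq.2 (e ▸ p2)) (fun e => hq'.2 (e ▸ p2)) ?_ hg
      rw [js_rec (p1.odd_of_ne_two h2) o, js_rec (p1.odd_of_ne_two h2) o', js, js,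
        h p (by exact_mod_cast p2)]
  · have : (0 : ℤ) < (q * q' : ℕ) := by positivity
    rw [e]
    exact (qz_tau hA.tau this.ne').2 this

theorem keyp (hp : Gp p) (hq : Gp q) (hq' : Gp q') (h1 : p ≠ q) (h2 : p ≠ q')
    (h : js (ps q) p = js (ps q') p) (hg : g ∈ (pl p).D) : qs q g + qs q' g = 0 :=
  BasH.key hp.1 hp.ne.1 hq hq' h1 h2 h hg

end Pool.Agent.P.MP_8b7eba_nt.SM
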