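import Pool.Agent.P.MP_8b7eba_nt.SM.IfG
import Pool.Agent.P.MP_8b7eba_nt.SM.BasH

/-! Proof of CHY. -/

namespace Pool.Agent.P.MP_8b7eba_nt.SM

open Finset R2
open scoped Matrix NNReal

namespace TCHY

theorem v_le (w : Pl) {x : Om} (h : IsIntegral ℤ x) : w.v x ≤ 1 :=
  (Valuation.integer.integers w.v).mem_of_integral (h.tower_top (A := w.v.integer))

theorem v_lt (w : Pl) (k : ℤ) : w.v k < 1 ↔ (k : ZMod w.p) = 0 := by
  rw [ZMod.intCast_zmod_eq_zero_iff_dvd, ← not_iff_not, ← Pl.v_int_eq_one, not_lt]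
  exact ⟨fun h => le_antisymm (w.v_int_le k) h, fun h => h.ge⟩

theorem mul_lt (w : Pl) {x y : Om} (hx : w.v x ≤ 1) (hy : w.v y < 1) : w.v (x * y) < 1 := by
  rw [map_mul]
  exact mul_lt_one_of_nonneg_of_lt_one_right hx zero_le hy

/-- the residue map -/
theorem res (hR : RES) (w : Pl) (O : Subring Om)
    (hO : ∀ x : O, IsIntegral ℤ (x : Om) ∧ Fix w.D x) :
    ∃ r : O →+* ZMod w.p, ∀ (x : O) (k : ℤ), r x = k ↔ w.v (x - k) < 1 := by
  have ex : ∀ x : O, ∃ k : ℤ, w.v (x - k) < 1 := fun x => by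
    obtain ⟨k, hk⟩ := (hR w w.D w.loc_D).2.2.2.2.2 x (hO x).2 (v_le w (hO x).1) 1
    refine ⟨k, ?_⟩
    rw [Int.cast_natCast]
    refine hk.trans_lt ?_
    rw [pow_one]
    exact inv_lt_one_of_one_lt₀ (by exact_mod_cast w.prime.one_lt)
  choose f hf using ex
  have sp : ∀ (x : O) (k : ℤ), (f x : ZMod w.p) = k ↔ w.v (x - k) < 1 := fun x k => by
    rw [← sub_eq_zero, ← Int.cast_sub, ← v_lt, Int.cast_sub]
    constructor
    · intro h
      rw [← sub_add_sub_cancel _ (f x : Om)]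
      exact w.v.map_add_lt (hf x) h
    · intro h
      rw [← sub_sub_sub_cancel_left _ _ (x : Om)]
      exact (w.v.map_sub _ _).trans_lt (max_lt h (hf x))
  refine ⟨⟨⟨⟨fun x => f x, ?_⟩, fun x y => ?_⟩, ?_, fun x y => ?_⟩, sp⟩
  · exact ((sp 1 1).2 (by simp)).trans Int.cast_one
  · refine ((sp (x * y) (f x * f y)).2 ?_).trans (Int.cast_mul _ _)
    rw [show ((x * y : O) : Om) - (f x * f y : ℤ) = x * (y - f y) + f y * (x - f x) by
      push_cast; ring]
    exact w.v.map_add_lt (mul_lt w (v_le w (hO x).1) (hf y)) (mul_lt w (w.v_int_le _) (hf x))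
  · exact ((sp 0 0).2 (by simp)).trans Int.cast_zero
  · refine ((sp (x + y) (f x + f y)).2 ?_).trans (Int.cast_add _ _)
    rw [show ((x + y : O) : Om) - (f x + f y : ℤ) = (x - f x) + (y - f y) by push_cast; ring]
    exact w.v.map_add_lt (hf x) (hf y)

/-- an element which is invertible modulo `y` with prescribed residues -/
theorem elt {O σ : Type} [CommRing O] [Fintype σ] {y : ℕ} [Fact y.Prime] (h2 : y ≠ 2)
    (r : (σ → F2) → O →+* ZMod y) (R : σ → O) (n : σ → ℤ) (hn : ∀ s, ¬ (y : ℤ) ∣ n s)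
    (hR : ∀ s, R s ^ 2 = n s) (v₀ : σ → F2)
    (hr : ∀ v s, v s ≠ v₀ s → r v (R s) = -r v₀ (R s)) (ν : ZMod y) (hν : ν ≠ 0) :
    ∃ a a' u : O, a * a' = 1 + y * u ∧ r v₀ a = ν ∧ ∀ v, v ≠ v₀ → r v a = 1 := by
  have hy : y.Prime := Fact.out
  obtain ⟨h, hh⟩ : ∃ h : ℕ, 2 * h = y + 1 := by
    obtain ⟨k, hk⟩ := hy.odd_of_ne_two h2
    exact ⟨k + 1, by omega⟩
  have z : ∀ a : ZMod y, ∃ k : ℤ, (k : ZMod y) = a := ZMod.intCast_surjective
  have ρ2 : ∀ s, r v₀ (R s) ^ 2 = n s := fun s => by rw [← map_pow, hR, map_intCast]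
  have ρ0 : ∀ s, r v₀ (R s) ≠ 0 := fun s e => hn s (by
    rw [← ZMod.intCast_zmod_eq_zero_iff_dvd, ← ρ2, e, zero_pow two_ne_zero])
  choose c hc using fun s => z (r v₀ (R s))⁻¹
  obtain ⟨k, hk⟩ := z ν
  obtain ⟨k', hk'⟩ := z ν⁻¹
  have h1 : 2 * (h : ZMod y) = 1 := by
    have := congrArg (Nat.cast : ℕ → ZMod y) hh
    simpa using this
  set e : σ → O := fun s => h * (1 + c s * R s) with he
  let π := Ideal.Quotient.mk (Ideal.span {(y : O)})
  have πy : (y : O ⧸ Ideal.span {(y : O)}) = 0 := by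
    rw [← map_natCast π, Ideal.Quotient.eq_zero_iff_mem]
    exact Ideal.mem_span_singleton_self _
  have πz : ∀ a : ℤ, (a : ZMod y) = 1 → (a : O ⧸ Ideal.span {(y : O)}) = 1 := fun a ha => by
    rw [← sub_eq_zero, ← Int.cast_one, ← Int.cast_sub, ZMod.intCast_zmod_eq_zero_iff_dvd] at ha
    obtain ⟨t, ht⟩ := ha
    rw [eq_add_of_sub_eq ht]
    simp [πy]
  have e2 : ∀ s, π (e s) ^ 2 = π (e s) := fun s => by
    have a1 := πz (2 * h) (by push_cast; exact h1)
    have a2 := πz (c s ^ 2 * n s) (by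
      push_cast
      rw [hc, ← ρ2, ← mul_pow, inv_mul_cancel₀ (ρ0 s), one_pow])
    have a3 : π (R s) ^ 2 = n s := by rw [← map_pow, hR, map_intCast]
    push_cast at a1 a2
    simp only [he, map_mul, map_add, map_one, map_natCast, map_intCast]
    linear_combination (h * (1 + c s * π (R s))) * a1 + h ^ 2 * a2 + h ^ 2 * c s ^ 2 * a3
  have E2 : π (∏ s, e s) ^ 2 = π (∏ s, e s) := by
    rw [map_prod, ← prod_pow]
    exact prod_congr rfl fun s _ => e2 s
  have a4 := πz (k * k') (by push_cast; rw [hk, hk', mul_inv_cancel₀ hν])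
  push_cast at a4
  have key : π ((1 + (k - 1) * ∏ s, e s) * (1 + (k' - 1) * ∏ s, e s) - 1) = 0 := by
    simp only [map_mul, map_add, map_sub, map_one, map_intCast]
    linear_combination (k - 1) * (k' - 1) * E2 + π (∏ s, e s) * a4
  obtain ⟨u, hu⟩ := Ideal.mem_span_singleton.1 (Ideal.Quotient.eq_zero_iff_mem.1 key)
  refine ⟨1 + (k - 1) * ∏ s, e s, 1 + (k' - 1) * ∏ s, e s, u, by linear_combination hu, ?_,
    fun v hv => ?_⟩
  · have : r v₀ (∏ s, e s) = 1 := by
      rw [map_prod]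
      refine prod_eq_one fun s _ => ?_
      simp only [he, map_mul, map_add, map_one, map_natCast, map_intCast, hc,
        inv_mul_cancel₀ (ρ0 s)]
      linear_combination h1
    simp only [map_mul, map_add, map_sub, map_one, map_intCast, this, hk]
    ring
  · obtain ⟨s, hs⟩ := Function.ne_iff.1 hv
    have : r v (∏ s, e s) = 0 := by
      rw [map_prod]
      refine prod_eq_zero (mem_univ s) ?_
      simp only [he, map_mul, map_add, map_one, map_natCast, map_intCast, hc, hr v s hs, mul_neg,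
        inv_mul_cancel₀ (ρ0 s), add_neg_cancel, mul_zero]
    simp only [map_mul, map_add, this, mul_zero, add_zero, map_one]

theorem flip {n : ℤ} {g g' : GQ} (h : qz n g ≠ qz n g') : g (rt n) = -g' (rt n) := by
  have k : ∀ g : GQ, qz n g ≠ 0 → g (rt n) = -rt n := fun g e =>
    (GrpA.pm (rt_sq n) g).resolve_left fun e' => e ((qz_eq_zero (rt_sq n)).2 e')
  by_cases e : qz n g = 0
  · rw [(qz_eq_zero (rt_sq n)).1 e, k g' fun e' => h (e.trans e'.symm), neg_neg]
  · have e' : qz n g' = 0 := by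
      by_contra e'
      exact h ((BasG.one_of_ne e).trans (BasG.one_of_ne e').symm)
    rw [(qz_eq_zero (rt_sq n)).1 e', k g e]

end TCHY

open TCHY

variable [HA]

theorem t_CHY (hMQH : MQH) : CHY := by
  intro σ _ _ m O b N hO y F hy h2 hn hD ⟨v₀, hv₀⟩
  have _ := hMQH
  obtain ⟨w, hw, hφ⟩ : ∃ w : Pl, w.p = y ∧ w.D ≤ m.H ∧ w.IsFrob 1 (fr y) :=
    ⟨pl y, pl_p hy, hD, fr_frob hy h2⟩
  obtain ⟨hD', hφ⟩ := hφ
  generalize fr y = φ at hφ
  subst hw
  have : Fact w.p.Prime := ⟨hy⟩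
  have hc : ringChar (ZMod w.p) ≠ 2 := by rwa [ZMod.ringChar_zmod_n]
  obtain ⟨r, hr⟩ := res hA.res w O fun x => ⟨(hO.int x).1, fun g hg => (hO.int x).2.1 g (hD' hg)⟩
  let s : (σ → F2) → O →+* O := fun v =>
    ((m.g v : Om →+* Om).comp O.subtype).codRestrict O fun x => (hO.int x).2.2 _
  have hs : ∀ v x, (s v x : Om) = m.g v x := fun _ _ => rfl
  refine ⟨fun x => ∏ v ∈ F, quadraticChar (ZMod w.p) (r (s v x)), fun x x' => ?_, fun x => ?_,
    fun x u => ?_, ?_, fun x ρ hx hρ => ?_⟩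
  · simp only [map_mul, prod_mul_distrib]
  · rw [abs_prod]
    refine prod_le_one (fun _ _ => abs_nonneg _) fun v _ => ?_
    rcases quadraticChar_isQuadratic (ZMod w.p) (r (s v x)) with e | e | e <;> simp [e]
  · simp only [map_add, map_mul, map_natCast, ZMod.natCast_self, zero_mul, add_zero]
  · obtain ⟨ν, hν⟩ := quadraticChar_exists_neg_one hc
    have hb : ∀ t, (b {t} : Om) = rt (m.n t) := fun t => by rw [hO.val, prod_singleton]
    obtain ⟨a, a', u, e1, e2, e3⟩ := elt h2 (fun v => r.comp (s v)) (fun t => b {t}) m.n hn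
      (fun t => Subtype.ext (by push_cast; rw [hb, rt_sq])) v₀
      (fun v t hv => by
        rw [RingHom.comp_apply, RingHom.comp_apply, ← map_neg]
        refine congrArg r (Subtype.ext ?_)
        rw [Subring.coe_neg, hs, hs, hb]
        exact flip (by rwa [m.hg, m.hg])) ν (fun e => by simp [e] at hν)
    refine ⟨a, a', u, e1, ?_⟩
    refine (prod_eq_single_of_mem v₀ hv₀ fun v _ hv => ?_).trans ?_
    · rw [show r (s v a) = 1 from e3 v hv, map_one]
    · rw [show r (s v₀ a) = ν from e2, hν]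
  · have e1 : ((∏ v ∈ F, s v x : O) : Om) = ρ ^ 2 := by
      rw [hρ]
      push_cast
      rfl
    have e2 : r (∏ v ∈ F, s v x) ≠ 0 := by
      have e3 : ∏ v, s v x = (N x : ℤ) := Subtype.ext (by push_cast; exact (hO.nm x).symm)
      have e4 := congrArg r e3
      rw [map_prod, map_intCast] at e4
      rw [map_prod]
      refine prod_ne_zero_iff.2 fun v _ e => hx ?_
      rw [← ZMod.intCast_zmod_eq_zero_iff_dvd, ← e4]
      exact prod_eq_zero (mem_univ v) e
    beta_reduce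
    rw [← map_prod, ← map_prod]
    generalize ∏ v ∈ F, s v x = β at e1 e2
    have v1 : w.v β = 1 := le_antisymm (v_le w (hO.int β).1) (not_lt.1 fun h =>
      e2 (((hr β 0).2 (by simpa using h)).trans Int.cast_zero))
    have v2 : w.v ρ = 1 := by
      rw [e1, map_pow] at v1
      exact (pow_eq_one_iff_of_nonneg zero_le two_ne_zero).1 v1
    have key : ∀ ε : ℤ, φ ρ = ε * ρ → (quadraticChar (ZMod w.p) (r β) : ZMod w.p) = ε :=
      fun ε h => by
        have h1 := hφ.2 ρ v2.le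
        have h3 : ρ ^ w.p = ρ * β ^ (w.p / 2) := by
          rw [e1, ← pow_mul, ← pow_succ', Nat.two_mul_div_two_add_one_of_odd (hy.odd_of_ne_two h2)]
        rw [pow_one, h, h3, mul_comm, ← mul_sub, map_mul, v2, one_mul,
          Valuation.map_sub_swap] at h1
        rw [quadraticChar_eq_pow_of_char_ne_two' hc, ZMod.card, ← map_pow, hr]
        simpa using h1
    have n1 : (-1 : ZMod w.p) ≠ 1 := Ring.neg_one_ne_one_of_char_ne_two hc
    have ρ0 : ρ ≠ 0 := fun e => by simp [e] at v2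
    rcases sq_eq_sq_iff_eq_or_eq_neg.1 (show φ ρ ^ 2 = ρ ^ 2 by
      rw [← map_pow, ← e1]; exact (hO.int β).2.1 φ (hD' hφ.1)) with e | e
    · have h1 := key 1 (by simpa using e)
      rcases quadraticChar_dichotomy e2 with h | h
      · simp [h, qc, e, sr]
      · rw [h] at h1
        exact absurd (by simpa using h1) n1
    · have h1 := key (-1) (by simpa using e)
      rcases quadraticChar_dichotomy e2 with h | h
      · rw [h] at h1
        exact absurd (by simpa using h1.symm) n1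
      · have : ¬ φ ρ = ρ := fun e' => ρ0 (by linear_combination (e'.symm.trans e) / 2)
        simp [h, qc, this, sr, ZMod.val_one]

end Pool.Agent.P.MP_8b7eba_nt.SM
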