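import Pool.Agent.P.MP_8b7eba_nt.SM.IfC

/-! Proof of CNT1. -/

namespace Pool.Agent.P.MP_8b7eba_nt.SM

open Finset

namespace TCNT1

theorem two_mul_le {A : Type} [AddCommGroup A] [Finite A] {H K : AddSubgroup A} (h : H ≤ K)
    (h' : H ≠ K) : 2 * Nat.card H ≤ Nat.card K := by
  obtain ⟨m, hm⟩ := AddSubgroup.card_dvd_of_le h
  have h1 : 0 < Nat.card K := Nat.card_pos
  have h2 : ¬Nat.card K ≤ Nat.card H := fun h2 => h' (AddSubgroup.eq_of_le_of_card_ge h h2)
  rw [hm] at h1 h2 ⊢
  rcases m with _ | _ | m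
  · simp at h1
  · simp at h2
  · nlinarith

theorem step {A C : Type} [AddCommGroup A] [Finite A] (ev : C → A) (S : Set C) (j : ℕ) :
    ∃ v : Fin j → Option C,
      AddSubgroup.closure (Set.range fun i => (v i).elim 0 ev) ≤ AddSubgroup.closure (ev '' S) ∧
      (AddSubgroup.closure (Set.range fun i => (v i).elim 0 ev) = AddSubgroup.closure (ev '' S) ∨
        2 ^ j ≤ Nat.card (AddSubgroup.closure (Set.range fun i => (v i).elim 0 ev))) := by
  induction j with
  | zero => exact ⟨Fin.elim0, by simp, Or.inr Nat.card_pos⟩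
  | succ j ih =>
    obtain ⟨v, h1, h2⟩ := ih
    have e : ∀ o : Option C, (Set.range fun i => (Matrix.vecCons o v i).elim 0 ev) =
        insert (o.elim 0 ev) (Set.range fun i => (v i).elim 0 ev) := fun o => by
      ext x
      simp [Fin.exists_fin_succ, eq_comm]
    by_cases h3 : AddSubgroup.closure (ev '' S) ≤
        AddSubgroup.closure (Set.range fun i => (v i).elim 0 ev)
    · have h4 : AddSubgroup.closure (Set.range fun i => (Matrix.vecCons none v i).elim 0 ev) =
          AddSubgroup.closure (ev '' S) := by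
        rw [e, Option.elim_none, AddSubgroup.closure_insert_zero]
        exact le_antisymm h1 h3
      exact ⟨Matrix.vecCons none v, h4.le, Or.inl h4⟩
    · rw [AddSubgroup.closure_le, Set.image_subset_iff, Set.not_subset] at h3
      obtain ⟨c, hc, h3⟩ := h3
      refine ⟨Matrix.vecCons (some c) v, ?_, Or.inr ?_⟩ <;> rw [e]
      · rw [AddSubgroup.closure_le, Set.insert_subset_iff, ← AddSubgroup.closure_le]
        exact ⟨AddSubgroup.subset_closure ⟨c, hc, rfl⟩, h1⟩
      · have h4 := h2.resolve_left fun h4 => h3 (h4 ▸ AddSubgroup.subset_closure ⟨c, hc, rfl⟩)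
        refine le_trans (by omega) (two_mul_le (AddSubgroup.closure_mono (Set.subset_insert _ _))
          fun h5 => h3 ?_)
        exact h5 ▸ AddSubgroup.subset_closure (Set.mem_insert _ _)

end TCNT1

theorem t_CNT1 : CNT1 := by
  classical
  intro A C _ _ _ ev l hl
  refine ⟨univ.image fun v : Fin l → Option C =>
    AddSubgroup.closure (Set.range fun i => (v i).elim 0 ev), card_image_le.trans (by simp),
    fun S => ?_⟩
  obtain ⟨v, h1, h2⟩ := TCNT1.step ev S l
  exact mem_image.2 ⟨v, mem_univ _, h2.elim id fun h3 => AddSubgroup.eq_of_le_of_card_ge h1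
    ((AddSubgroup.card_le_card_addGroup _).trans (hl.trans h3))⟩

theorem t_HOEF : HOEF := by
  intro N _ _ Y v t ht
  set n := Fintype.card N
  set l : ℝ := 4 * t / n with hl
  have h0 : 0 ≤ l := by positivity
  let u : N → F2 → ℝ := fun z b => if z ∈ Y then (if b = v z then 1 else 0) - 1 / 2 else 0
  have h1 : ∀ G : N → F2, ∑ z, u z (G z) = (Y.filter fun z => G z = v z).card - Y.card / 2 :=
    fun G => by
      simp only [u]
      rw [sum_ite_mem, univ_inter, sum_sub_distrib, sum_boole, sum_const, nsmul_eq_mul]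
      ring
  have h2 : ∀ z, ∑ b, Real.exp (l * u z b) ≤ 2 * Real.exp (l ^ 2 / 8) := fun z => by
    have h3 := Real.cosh_le_exp_half_sq (l / 2)
    have h4 := Real.one_le_cosh (l / 2)
    rw [show (l / 2) ^ 2 / 2 = l ^ 2 / 8 by ring] at h3
    rw [← Equiv.sum_comp (Equiv.addRight (v z)), show (univ : Finset F2) = {0, 1} from rfl,
      sum_pair (by decide)]
    by_cases hz : z ∈ Y
    · rw [Real.cosh_eq] at h3
      simp only [u, hz, if_true, Equiv.coe_addRight, zero_add, add_eq_right, one_ne_zero, if_false]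
      rw [show l * (1 - 1 / 2) = l / 2 by ring, show l * (0 - 1 / 2) = -(l / 2) by ring]
      linarith
    · simp only [u, hz, if_false, mul_zero, Real.exp_zero]
      linarith
  have h3 : ((univ.filter fun G : N → F2 => (Y.card : ℝ) / 2 + t ≤
      (Y.filter fun z => G z = v z).card).card : ℝ) * Real.exp (l * t) ≤
      2 ^ n * Real.exp (n * (l ^ 2 / 8)) := by
    calc _ ≤ ∑ G ∈ univ.filter fun G : N → F2 => (Y.card : ℝ) / 2 + t ≤
          (Y.filter fun z => G z = v z).card, ∏ z, Real.exp (l * u z (G z)) := by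
          rw [← nsmul_eq_mul]
          refine card_nsmul_le_sum _ _ _ fun G hG => ?_
          rw [← Real.exp_sum, ← mul_sum, h1]
          exact Real.exp_le_exp.2 (mul_le_mul_of_nonneg_left (by linarith [(mem_filter.1 hG).2]) h0)
      _ ≤ ∑ G : N → F2, ∏ z, Real.exp (l * u z (G z)) :=
          sum_le_sum_of_subset_of_nonneg (filter_subset _ _) fun _ _ _ => by positivity
      _ = ∏ z, ∑ b, Real.exp (l * u z b) := (Fintype.prod_sum fun z b => Real.exp (l * u z b)).symm
      _ ≤ ∏ _z : N, 2 * Real.exp (l ^ 2 / 8) :=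
          prod_le_prod (fun _ _ => by positivity) fun z _ => h2 z
      _ = _ := by rw [prod_const, card_univ, mul_pow, Real.exp_nat_mul]
  rw [← le_div_iff₀ (Real.exp_pos _), mul_div_assoc, ← Real.exp_sub] at h3
  refine h3.trans_eq (congrArg (fun x => 2 ^ n * Real.exp x) ?_)
  rw [hl]
  rcases eq_or_ne (n : ℝ) 0 with h4 | h4
  · simp [h4]
  · field_simp
    ring

end Pool.Agent.P.MP_8b7eba_nt.SM
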