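import Pool.Agent.P.MP_8b7eba_nt.SM.IfC

/-! Proof of CORE. -/

namespace Pool.Agent.P.MP_8b7eba_nt.SM

open Finset

namespace TCORE

/-- shift of all coordinates -/
def up {k M : ℕ} (z : Gf k M) : Gz k M := fun i => (z i).succ

theorem up_inj {k M : ℕ} : Function.Injective (up : Gf k M → Gz k M) := fun _ _ h =>
  funext fun i => Fin.succ_injective _ (congrFun h i)

theorem ex_up {k M : ℕ} (G : Gf k M → F2) (z : Gf k M) : ex G (up z) = G z := by
  rw [ex, dif_pos (show ∀ i, up z i ≠ 0 from fun i => Fin.succ_ne_zero (z i))]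
  exact congrArg G (funext fun i => Fin.pred_succ _)

theorem edge (k M : ℕ) :
    (univ.filter fun z : Gz k M => ∃ i, z i = 0).card ≤ (k + 1) * (M + 1) ^ k := by
  have : (univ.filter fun z : Gz k M => ∃ i, z i = 0) =
      univ.biUnion fun i => univ.filter fun z : Gz k M => z i = 0 := by
    ext z; simp
  rw [this]
  refine (card_biUnion_le_card_mul _ _ ((M + 1) ^ k) fun i _ => le_of_eq ?_).trans_eq (by simp)
  have := Fintype.card_filter_piFinset_const_eq_of_mem (univ : Finset (Fin (M + 1))) i (mem_univ 0)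
  simpa using this

theorem num {C n ε : ℝ} {k : ℕ} (hε : 0 < ε) (n1 : 1 ≤ n) (h : C + |Real.log ε| ≤ ε ^ 2 * n / 2) :
    Real.exp (C * n ^ k) * Real.exp (-(ε ^ 2 * n ^ (k + 1) / 2)) ≤ ε := by
  rw [← Real.exp_add, ← Real.le_log_iff_exp_le hε]
  have a : 1 ≤ n ^ k := one_le_pow₀ n1
  have b := mul_le_mul_of_nonneg_right h (zero_le_one.trans a)
  have c := le_mul_of_one_le_right (abs_nonneg (Real.log ε)) a
  have d := neg_abs_le (Real.log ε)
  rw [pow_succ n]
  nlinarith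

theorem two_pow_le (m : ℕ) : (2 : ℝ) ^ m ≤ Real.exp m := by
  rw [← mul_one (m : ℝ), Real.exp_nat_mul]
  exact pow_le_pow_left₀ zero_le_two (by linarith [Real.add_one_le_exp 1]) m

end TCORE

open TCORE in
theorem t_CORE (hSTR1 : STR1) (hSTR2 : STR2) (hHOEF : HOEF) : CORE := by
  intro k s ε hk hε
  classical
  obtain ⟨C1, h1⟩ := hSTR1 k s hk
  obtain ⟨C2, h2⟩ := hSTR2 k s (by omega)
  obtain ⟨M₀, hM₀⟩ := exists_nat_ge
    (max (2 * (k + 1) / ε) (2 * (((C1 + C2 + s : ℕ) : ℝ) + |Real.log ε|) / ε ^ 2))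
  refine ⟨M₀ + 1, fun M hM T _ A₁ A₂ val hA hT => ?_⟩
  have hM' : (M₀ : ℝ) ≤ M + 1 := by exact_mod_cast (by omega : M₀ ≤ M + 1)
  have m1 := (div_le_iff₀ hε).1 ((le_max_left _ _).trans (hM₀.trans hM'))
  have m2 := (div_le_iff₀ (pow_pos hε 2)).1 ((le_max_right _ _).trans (hM₀.trans hM'))
  have M0 : (0 : ℝ) < M := by exact_mod_cast (by omega : 0 < M)
  obtain ⟨S, s1, s2⟩ := h1 M T A₁ A₂ val hA hT
  have : ∀ p : (Gz k M → Prop) × (Gz k M → T → Z2), ∃ V : Finset (Gz k M → F2),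
      V.card ≤ 2 ^ (C2 * (M + 1) ^ k) ∧ ((∀ z, p.1 z → ∀ t ∈ A₂, 2 ∣ p.2 z t) →
        ∀ H, Ort A₁ A₂ p.1 p.2 H → ∃ v ∈ V, ∀ z, p.1 z → H z = v z) := fun p => by
    by_cases h : ∀ z, p.1 z → ∀ t ∈ A₂, 2 ∣ p.2 z t
    · obtain ⟨V, a, b⟩ := h2 M T A₁ A₂ p.1 p.2 hA hT h
      exact ⟨V, a, fun _ => b⟩
    · exact ⟨∅, Nat.zero_le _, fun a => absurd a h⟩
  choose V v1 v2 using this
  set t : ℝ := ε * (M + 1) ^ (k + 1) / 2 with ht
  set Yf : (Gz k M → Prop) → Finset (Gf k M) := fun Y => univ.filter fun z => Y (up z) with hY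
  refine ⟨S.biUnion fun p => (V p).biUnion fun v => univ.filter fun G : Gf k M → F2 =>
    ((Yf p.1).card : ℝ) / 2 + t ≤ ((Yf p.1).filter fun z => G z = v (up z)).card, ?_,
    fun Re Yp G hG hC hYp hF => ?_⟩
  · set b : ℝ := 2 ^ M ^ (k + 1) * Real.exp (-(ε ^ 2 * (M + 1) ^ (k + 1) / 2)) with hb
    have key : ∀ (Y : Finset (Gf k M)) (v : Gf k M → F2), ((univ.filter fun G : Gf k M → F2 =>
        (Y.card : ℝ) / 2 + t ≤ (Y.filter fun z => G z = v z).card).card : ℝ) ≤ b := fun Y v => by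
      have c : Fintype.card (Gf k M) = M ^ (k + 1) := by simp
      refine (hHOEF (Gf k M) Y v t (by positivity)).trans ?_
      rw [c]
      refine mul_le_mul_of_nonneg_left (Real.exp_le_exp.2 (neg_le_neg ?_)) (by positivity)
      push_cast
      rw [le_div_iff₀ (by positivity)]
      calc _ ≤ ε ^ 2 * (M + 1) ^ (k + 1) / 2 * ((M : ℝ) + 1) ^ (k + 1) := by gcongr; linarith
        _ = _ := by rw [ht]; ring
    have b0 : 0 ≤ b := by positivity
    calc _ ≤ (2 ^ (C1 * (M + 1) ^ k) * (2 ^ (C2 * (M + 1) ^ k) * b)) * 2 ^ (s * (M + 1) ^ k) := by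
          refine mul_le_mul ?_ (pow_le_pow_right₀ one_le_two (Nat.mul_le_mul_left _
            (Nat.le_self_pow (by omega) _))) (by positivity) (by positivity)
          refine (Nat.cast_le.2 card_biUnion_le).trans ?_
          rw [Nat.cast_sum]
          refine (sum_le_card_nsmul _ _ (2 ^ (C2 * (M + 1) ^ k) * b) fun p _ => ?_).trans ?_
          · refine (Nat.cast_le.2 card_biUnion_le).trans ?_
            rw [Nat.cast_sum]
            refine (sum_le_card_nsmul _ _ b fun v _ => key _ fun z => v (up z)).trans ?_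
            rw [nsmul_eq_mul]
            exact mul_le_mul_of_nonneg_right (by exact_mod_cast v1 p) b0
          · rw [nsmul_eq_mul]
            exact mul_le_mul_of_nonneg_right (by exact_mod_cast s1) (by positivity)
      _ = 2 ^ ((C1 + C2 + s) * (M + 1) ^ k) * Real.exp (-(ε ^ 2 * (M + 1) ^ (k + 1) / 2)) *
          2 ^ M ^ (k + 1) := by rw [hb, add_mul, add_mul, pow_add, pow_add]; ring
      _ ≤ _ := by
          refine mul_le_mul_of_nonneg_right (le_trans (mul_le_mul_of_nonneg_right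
            ((two_pow_le _).trans_eq ?_) (Real.exp_pos _).le)
            (num (C := ((C1 + C2 + s : ℕ) : ℝ)) (k := k) hε (by linarith) (by linarith)))
            (by positivity)
          push_cast; rfl
  obtain ⟨p, p1, p2, p3⟩ := s2 Re hC
  have e : (fun z => ∃ δ, Re z δ) = p.1 := funext fun z => propext (p2 z).symm
  obtain ⟨F, f1, f2⟩ := hF p.2 p3
  obtain ⟨v, w1, w2⟩ := v2 p (fun z hz => (hC.sub z _ (p3 z ((p2 z).1 hz))).2) _ (e ▸ f2)
  have g1 := not_le.1 fun a => hG (mem_biUnion.2 ⟨p, p1, mem_biUnion.2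
    ⟨v, w1, mem_filter.2 ⟨mem_univ _, a⟩⟩⟩)
  have g2 : Yp ⊆ (univ.filter fun z : Gz k M => ∃ i, z i = 0) ∪
      ((Yf p.1).filter fun z => G z = v (up z)).image up := fun z hz => by
    by_cases a : ∃ i, z i = 0
    · exact mem_union_left _ (mem_filter.2 ⟨mem_univ _, a⟩)
    obtain ⟨y, rfl⟩ : ∃ y, up y = z :=
      ⟨fun i => (z i).pred fun b => a ⟨i, b⟩, funext fun i => Fin.succ_pred _ _⟩
    have c := (p2 _).2 (hYp _ hz)
    have d := w2 _ c
    rw [Pi.add_apply, f1 _ hz, zero_add, ex_up] at d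
    exact mem_union_right _ (mem_image_of_mem _ (mem_filter.2 ⟨mem_filter.2 ⟨mem_univ _, c⟩, d⟩))
  have g3 : (Yp.card : ℝ) ≤ (k + 1) * (M + 1) ^ k +
      ((Yf p.1).filter fun z => G z = v (up z)).card := by
    exact_mod_cast (card_le_card g2).trans ((card_union_le _ _).trans
      (add_le_add (edge k M) card_image_le))
  have g4 : ((Yf p.1).card : ℝ) ≤ (univ.filter fun z => ∃ δ, Re z δ).card := by
    exact_mod_cast card_le_card_of_injOn up (fun z hz => mem_coe.2 (mem_filter.2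
      ⟨mem_univ _, (p2 _).1 (mem_filter.1 hz).2⟩)) up_inj.injOn
  have g5 : ((k : ℝ) + 1) * (M + 1) ^ k ≤ t := by
    rw [ht, pow_succ]
    nlinarith [mul_le_mul_of_nonneg_right m1 (show (0 : ℝ) ≤ (M + 1) ^ k by positivity)]
  linarith

end Pool.Agent.P.MP_8b7eba_nt.SM
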