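import Pool.Agent.P.MP_8b7eba_nt.SM.IfG

/-! Proof of DENS0. -/

namespace Pool.Agent.P.MP_8b7eba_nt.SM

open Finset R2
open scoped Matrix

variable [HA]

theorem t_DENS0 (hANA : ANA) (hBOXL : BOXL) (hLATX : LATX) (hRED0 : RED0) (hRED1 : RED1) : DENS0 := by
  classical
  intro T ε hε
  obtain ⟨Λ, h1, h2, h3⟩ := hLATX T
  choose Λ' h3 using h3
  have hB : BoxP fun S => ∀ p ∈ S, Λ.Bad S p ∨ ∃ i, (Λ' i).Bad S p := by
    intro δ hδ
    obtain ⟨K, l, A, N, hl, h⟩ := hBOXL (δ / 3) (by positivity)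
    refine ⟨K, l, A, N, fun B y₀ y₁ J₀ J hR => ?_⟩
    obtain ⟨i₀, -⟩ := card_pos.1 (hl.trans (hR.card (.inr true)))
    have a := h Λ B y₀ y₁ J₀ J i₀ hR
    have b := h (Λ' 0) B y₀ y₁ J₀ J i₀ hR
    have c := h (Λ' 1) B y₀ y₁ J₀ J i₀ hR
    have s : (B.pts.filter fun p => ∀ q ∈ B.set p, Λ.Bad (B.set p) q ∨
        ∃ i, (Λ' i).Bad (B.set p) q) ⊆ (B.pts.filter fun p => Λ.Bad (B.set p) (p i₀)) ∪
        (B.pts.filter fun p => (Λ' 0).Bad (B.set p) (p i₀)) ∪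
        (B.pts.filter fun p => (Λ' 1).Bad (B.set p) (p i₀)) := by
      intro p hp
      obtain ⟨p1, p2⟩ := mem_filter.1 hp
      simp only [mem_union, mem_filter, p1, true_and]
      rcases p2 (p i₀) (mem_union_right _ (mem_image_of_mem _ (mem_univ _))) with e | ⟨i, e⟩
      · exact .inl (.inl e)
      · fin_cases i
        exacts [.inl (.inr e), .inr e]
    have t := (card_le_card s).trans ((card_union_le _ _).trans
      (Nat.add_le_add_right (card_union_le _ _) _))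
    have t' := (Nat.cast_le (α := ℝ)).2 t
    push_cast at t'
    refine le_trans (Nat.cast_le.2 (card_le_card fun p hp => ?_))
      (t'.trans (show _ ≤ δ * (B.pts.card : ℝ) by linarith))
    simp only [mem_filter] at hp ⊢
    exact hp
  obtain ⟨X₀, h⟩ := hANA _ hB ε hε
  refine ⟨X₀, fun X hX => le_trans (Nat.cast_le.2 (card_le_card fun n hn => ?_)) (h X hX)⟩
  simp only [mem_filter] at hn ⊢
  obtain ⟨n1, n2, n3, n4⟩ := hn
  refine ⟨n1, n2, n3, fun p hp => ?_⟩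
  obtain ⟨x, y, a, b, c, d⟩ := hRED0 T Λ n h1 n2 n3 n4 p hp
  exact hRED1 Λ Λ' _ p x y h2 h3 a b c d

end Pool.Agent.P.MP_8b7eba_nt.SM
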