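import Pool.Agent.P.MP_8b7eba_nt.SM.IfC

/-! Proof of DUAL. -/

namespace Pool.Agent.P.MP_8b7eba_nt.SM

open Finset

theorem t_DUAL : DUAL := by
  intro Z _ n K hK ξ hξ
  classical
  obtain ⟨m, s⟩ := Submodule.smithNormalForm (Pi.basisFun Z2 Z) K
  have h2 : (2 : Z2) ^ n ≠ 0 := pow_ne_zero _ two_ne_zero
  rw [← s.bM.sum_repr ξ]
  refine sum_mem fun j _ => ?_
  have hj : (2 : Z2) ^ n • s.bM j ∈ K := hK _ fun z => Dvd.intro _ rfl
  have h3 : s.bM.repr ((⟨_, hj⟩ : K) : Z → Z2) j = 2 ^ n := by simp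
  obtain ⟨i, rfl⟩ : j ∈ Set.range s.f := by
    by_contra h
    exact h2 (h3.symm.trans (s.repr_eq_zero_of_notMem_range _ h))
  have h4 : ∀ g : K, s.bM.repr (g : Z → Z2) (s.f i) = s.a i * s.bN.repr g i := fun g => by
    rw [s.repr_apply_embedding_eq_repr_smul, map_smul, Finsupp.smul_apply, smul_eq_mul]
  rw [h4] at h3
  set b := s.bN.repr ⟨_, hj⟩ i
  have hb : b ≠ 0 := fun h => h2 (by rw [← h3, h, mul_zero])
  have h5 : ∀ g : Z → Z2, ∑ z, b * s.bM.repr (Pi.single z 1) (s.f i) * g z =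
      b * s.bM.repr g (s.f i) := fun g => by
    conv_rhs => rw [pi_eq_sum_univ' g]
    simp only [map_sum, map_smul, Finsupp.finsetSum_apply, Finsupp.smul_apply, smul_eq_mul,
      Finset.mul_sum]
    exact Finset.sum_congr rfl fun z _ => by ring
  have h6 := hξ (fun z => b * s.bM.repr (Pi.single z 1) (s.f i)) fun g hg => by
    rw [Pe, h5, h4 ⟨g, hg⟩, ← mul_assoc, mul_comm b, h3]
    exact Dvd.intro _ rfl
  rw [Pe, h5, ← h3, mul_comm b] at h6
  obtain ⟨r, hr⟩ := (mul_dvd_mul_iff_right hb).1 h6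
  rw [hr, mul_comm, mul_smul, ← s.snf]
  exact K.smul_mem _ (s.bN i).2

namespace TDUAL

/-- the span of the products with multipliers divisible by `2 ^ j` -/
noncomputable def Sp {k M : ℕ} (Ξ : Set (Gz k M → Z2)) (j : ℕ) : Submodule Z2 (Gz k M → Z2) :=
  Submodule.span Z2 {g | ∃ l ∈ Lam k M, (∀ z, 2 ^ j ∣ l z) ∧ ∃ ξ ∈ Ξ, g = l * ξ}

end TDUAL

open TDUAL in
theorem t_NAK (hDUAL : DUAL) : NAK := by
  intro k M n Y Ξ Θ h N hL h1 hΘ hY
  classical
  have s1 : ∀ ξ ∈ Ξ, ξ ∈ N ⊔ Sp Ξ 1 := fun ξ hξ => by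
    refine hDUAL _ n _ (fun f hf => Submodule.mem_sup_left (hY f fun z _ => hf z)) ξ fun c hc => ?_
    have e1 : ∀ z, ¬Y z → 2 ^ n ∣ c z := fun z hz => by
      have := hc (Pi.single z 1) (Submodule.mem_sup_left (hY _ fun z' hz' => by
        rw [Pi.single_eq_of_ne (by rintro rfl; exact hz hz')]; exact dvd_zero _))
      simpa [Pe, Pi.single_apply] using this
    have e2 : ∀ f, Pe n (fun z => if Y z then c z else 0) f ↔ Pe n c f := fun f => by
      refine dvd_iff_dvd_of_dvd_sub ?_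
      rw [← Finset.sum_sub_distrib]
      refine Finset.dvd_sum fun z _ => ?_
      by_cases hz : Y z
      · simp [hz]
      · simpa [hz] using (e1 z hz).mul_right _
    refine (e2 ξ).1 (h _ (fun z hz => ?_) (fun l hl => (e2 _).2 (hc _ ?_))
      (fun l hl ξ' hξ' => (e2 _).2 (hc _ ?_)) (fun θ hθ => (e2 _).2 (hc _ ?_)) ξ hξ)
    · by_contra h3
      exact hz (if_neg h3)
    · exact Submodule.mem_sup_left (by simpa using hL l hl 1 h1)
    · exact Submodule.mem_sup_right (Submodule.subset_span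
        ⟨l, hl.1, by simpa using hl.2, ξ', hξ', rfl⟩)
    · exact Submodule.mem_sup_left (hΘ hθ)
  have s2 : ∀ j, Sp Ξ j ≤ N ⊔ Sp Ξ (j + 1) := fun j => by
    refine Submodule.span_le.2 ?_
    rintro _ ⟨l, hl, hd, ξ, hξ, rfl⟩
    have : N ⊔ Sp Ξ 1 ≤ (N ⊔ Sp Ξ (j + 1)).comap (LinearMap.mulLeft Z2 l) := by
      refine sup_le (fun f hf => Submodule.mem_sup_left (hL l hl f hf)) (Submodule.span_le.2 ?_)
      rintro _ ⟨l', hl', hd', ξ', hξ', rfl⟩
      exact Submodule.mem_sup_right (Submodule.subset_span ⟨l * l', mul_mem hl hl', fun z => by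
        rw [pow_add]; exact mul_dvd_mul (hd z) (hd' z), ξ', hξ', (mul_assoc _ _ _).symm⟩)
    exact this (s1 ξ hξ)
  have s3 : ∀ j, Sp Ξ 0 ≤ N ⊔ Sp Ξ j := fun j => by
    induction j with
    | zero => exact le_sup_right
    | succ j ih => exact ih.trans (sup_le le_sup_left (s2 j))
  have s4 : Sp Ξ n ≤ N := by
    refine Submodule.span_le.2 ?_
    rintro _ ⟨l, -, hd, ξ, -, rfl⟩
    exact hY _ fun z _ => (hd z).mul_right _
  intro ξ hξ
  exact (s3 n).trans (sup_le le_rfl s4)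
    (Submodule.subset_span ⟨1, one_mem _, fun z => by simp, ξ, hξ, (one_mul _).symm⟩)

end Pool.Agent.P.MP_8b7eba_nt.SM
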