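import Pool.Agent.P.MP_8b7eba_nt.SM.TEQA

/-! Proof of EQ. -/

namespace Pool.Agent.P.MP_8b7eba_nt.SM

open Finset

theorem t_EQ (hFOUR : FOUR) : EQ := fun r X th h0 hG h =>
  ⟨TEQ.sym r X hG fun i j n => (h i j n).1, TEQ.count hFOUR r X th h0 fun i j n => (h i j n).2⟩

end Pool.Agent.P.MP_8b7eba_nt.SM
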