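import Pool.Agent.P.MP_8b7eba_nt.SM.IfC

/-! Proof of EX1. -/

namespace Pool.Agent.P.MP_8b7eba_nt.SM

open Finset Filter Topology

namespace TEX1

open Classical in
/-- the inequality of Markov for sums over divisors -/
theorem mk {ι : Type} (s : Finset ι) (d : ι → ℕ) (f : ι → ℝ) (hf : ∀ i ∈ s, 0 ≤ f i) (X : ℕ)
    (T : ℝ) (P : ℕ → Prop) (h : ∀ n ∈ Icc 1 X, P n → T ≤ ∑ i ∈ s with d i ∣ n, f i) :
    T * (((Icc 1 X).filter P).card : ℝ) ≤ X * ∑ i ∈ s, f i / d i := by
  calc T * (((Icc 1 X).filter P).card : ℝ) = ∑ _n ∈ (Icc 1 X).filter P, T := by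
        rw [sum_const, nsmul_eq_mul, mul_comm]
    _ ≤ ∑ n ∈ (Icc 1 X).filter P, ∑ i ∈ s with d i ∣ n, f i :=
        sum_le_sum fun n hn => h n (mem_filter.1 hn).1 (mem_filter.1 hn).2
    _ ≤ ∑ n ∈ Icc 1 X, ∑ i ∈ s with d i ∣ n, f i :=
        sum_le_sum_of_subset_of_nonneg (filter_subset _ _) fun _ _ _ =>
          sum_nonneg fun i hi => hf i (mem_filter.1 hi).1
    _ = ∑ i ∈ s, ((X / d i : ℕ) : ℝ) * f i := by
        simp only [sum_filter]
        rw [sum_comm]
        refine sum_congr rfl fun i _ => ?_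
        rw [← sum_filter, sum_const, nsmul_eq_mul, ← Nat.Ioc_filter_dvd_card_eq_div]
        rfl
    _ ≤ X * ∑ i ∈ s, f i / d i := by
        rw [mul_sum]
        refine sum_le_sum fun i hi => (mul_le_mul_of_nonneg_right Nat.cast_div_le
          (hf i hi)).trans_eq (by ring)

open Classical in
theorem rare_of {P : ℕ → ℕ → Prop} (g T : ℕ → ℝ) (hg : Tendsto g atTop (𝓝 0))
    (hT : ∀ L, 2 ≤ L → 0 < T L)
    (h : ∀ L X : ℕ, 2 ≤ L → 1 ≤ X → X < 2 ^ 2 ^ (L + 1) →
      T L * (((Icc 1 X).filter fun n => P L n).card : ℝ) ≤ X * (T L * g L)) : Rare P := by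
  intro ε hε
  obtain ⟨L₀, h0⟩ := eventually_atTop.1 (hg.eventually (gt_mem_nhds hε))
  refine ⟨max L₀ 2, fun L X hL h1 h2 => ?_⟩
  have a := h L X (le_of_max_le_right hL) (le_trans Nat.one_le_two_pow h1) h2
  have t := hT L (le_of_max_le_right hL)
  have b := mul_le_mul_of_nonneg_left (h0 L (le_of_max_le_left hL)).le
    (by positivity : 0 ≤ (X : ℝ) * T L)
  exact le_of_mul_le_mul_left (by linarith) t

theorem ll {y : ℕ} {z : ℝ} (h2 : 2 ≤ y) (k : ℕ) (h : y ≤ 2 ^ k) (hz : Real.log k ≤ z) :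
    Real.log (Real.log y) ≤ z := by
  have a : (1 : ℝ) < y := by exact_mod_cast h2
  refine (Real.log_le_log (Real.log_pos a) ?_).trans hz
  have b : Real.log y ≤ Real.log (2 ^ k) := Real.log_le_log (by linarith) (by exact_mod_cast h)
  rw [Real.log_pow] at b
  nlinarith [Real.log_two_lt_d9, Nat.cast_nonneg (α := ℝ) k]

/-- the sum of the reciprocals of all primes up to `X` -/
theorem all (hM : MERT) : ∃ K : ℝ, ∀ L X : ℕ, 2 ≤ L → 1 ≤ X → X < 2 ^ 2 ^ (L + 1) →
    ∑ p ∈ (range (X + 1)).filter Nat.Prime, (p : ℝ)⁻¹ ≤ K * L := by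
  obtain ⟨C, hC⟩ := hM
  refine ⟨2 + |C|, fun L X hL h1 h2 => ?_⟩
  have a := (abs_le.1 (hC (X + 1) (by omega)).1).2
  have b : Real.log (Real.log ((X + 1 : ℕ) : ℝ)) ≤ L + 1 := ll (by omega) _ h2 (by
    push_cast
    rw [Real.log_pow]
    push_cast
    nlinarith [Real.log_two_lt_d9, Nat.cast_nonneg (α := ℝ) L])
  have c : (2 : ℝ) ≤ L := by exact_mod_cast hL
  nlinarith [le_abs_self C, abs_nonneg C]

theorem sub {n y : ℕ} (hn : 1 ≤ n) :
    n.primeFactors.filter (· < y) = ((range y).filter Nat.Prime).filter (· ∣ n) := by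
  ext p
  simp only [mem_filter, Nat.mem_primeFactors, mem_range]
  exact ⟨fun h => ⟨⟨h.2, h.1.1⟩, h.1.2.1⟩, fun h => ⟨⟨h.1.2, h.2, by omega⟩, h.1.1⟩⟩

theorem cell {L p : ℕ} (s : Finset ℕ) (hp : L ≤ Nat.log 2 p) (h : ∀ q ∈ s, 0 < q ∧ ce L q = ce L p) :
    ∑ q ∈ s, (q : ℝ)⁻¹ ≤ 1 / 2 ^ L := by
  set e := Nat.log 2 p with he
  have c : s.card ≤ 2 ^ (e - L) := by
    have : s ⊆ Ico (p / 2 ^ (e - L) * 2 ^ (e - L)) (p / 2 ^ (e - L) * 2 ^ (e - L) + 2 ^ (e - L)) :=
      fun q hq => by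
        have a := (h q hq).2
        simp only [ce, Prod.mk.injEq] at a
        rw [a.1, ← he] at a
        rw [← a.2, mem_Ico]
        exact ⟨Nat.div_mul_le_self _ _, Nat.lt_div_mul_add (by positivity)⟩
    simpa using card_le_card this
  have b : ∀ q ∈ s, (q : ℝ)⁻¹ ≤ (2 ^ e)⁻¹ := fun q hq => by
    have a := congrArg Prod.fst (h q hq).2
    simp only [ce] at a
    have := Nat.pow_log_le_self 2 (h q hq).1.ne'
    rw [a, ← he] at this
    exact inv_anti₀ (by positivity) (by exact_mod_cast this)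
  refine (sum_le_card_nsmul _ _ _ b).trans ?_
  rw [nsmul_eq_mul]
  have c' : (s.card : ℝ) ≤ 2 ^ (e - L) := by exact_mod_cast c
  refine (mul_le_mul_of_nonneg_right c' (by positivity)).trans_eq ?_
  have : (2 : ℝ) ^ e = 2 ^ (e - L) * 2 ^ L := by rw [← pow_add, Nat.sub_add_cancel hp]
  rw [this]
  field_simp

end TEX1

open TEX1

theorem t_EX1 (hMERT : MERT) : EX1 := by
  obtain ⟨K, hK⟩ := all hMERT
  refine rare_of (fun L => K / L) (fun L => (L : ℝ) ^ 2) (tendsto_const_div_atTop_nhds_zero_nat K)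
    (fun L hL => by positivity) fun L X hL h1 h2 => ?_
  refine (mk ((range (X + 1)).filter Nat.Prime) id (fun _ => 1) (fun _ _ => zero_le_one) X _ _
    fun n hn hP => ?_).trans (mul_le_mul_of_nonneg_left ?_ (by positivity))
  · obtain ⟨n1, n2⟩ := mem_Icc.1 hn
    simp only [id, sum_const, nsmul_eq_mul, mul_one]
    rw [← sub n1, filter_true_of_mem fun p hp => by
      have := Nat.le_of_mem_primeFactors hp; omega]
    exact_mod_cast hP.le
  · simp only [id, one_div]
    refine (hK L X hL h1 h2).trans_eq ?_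
    field_simp

theorem t_EX2 (hMERT : MERT) : EX2 := by
  obtain ⟨C, hC⟩ := hMERT
  have t1 : Tendsto (fun L : ℕ => Real.log L / L) atTop (𝓝 0) := by
    simpa [Function.comp_def] using (Real.tendsto_pow_log_div_mul_add_atTop 1 0 1 one_ne_zero).comp
      tendsto_natCast_atTop_atTop
  refine rare_of (fun L => 280 * (Real.log L / L) + 40 * C / L) (fun L => (L : ℝ) / 40)
    (by simpa using (t1.const_mul 280).add (tendsto_const_div_atTop_nhds_zero_nat (40 * C)))
    (fun L hL => by positivity) fun L X hL h1 h2 => ?_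
  refine (mk ((range (2 ^ L ^ 7)).filter Nat.Prime) id (fun _ => 1) (fun _ _ => zero_le_one) X _ _
    fun n hn hP => ?_).trans (mul_le_mul_of_nonneg_left ?_ (by positivity))
  · simp only [id, sum_const, nsmul_eq_mul, mul_one]
    rw [← sub (mem_Icc.1 hn).1, div_le_iff₀' (by norm_num)]
    exact_mod_cast hP.le
  · have y2 : 2 ≤ 2 ^ L ^ 7 := Nat.le_self_pow (by positivity) 2
    have a := (abs_le.1 (hC _ y2).1).2
    have b := ll (z := 7 * Real.log L) y2 _ le_rfl (by push_cast; rw [Real.log_pow]; simp)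
    have e : (L : ℝ) / 40 * (280 * (Real.log L / L) + 40 * C / L) = 7 * Real.log L + C := by
      field_simp; ring
    simp only [id, one_div]
    linarith

theorem t_EX3 (hMERT : MERT) : EX3 := by
  obtain ⟨C, hC⟩ := hMERT
  have l2 := Real.log_two_gt_d9
  refine rare_of (fun L => (1 + 2 * |C|) / L) (fun L => (L : ℝ) ^ 8 * Real.log 2)
    (tendsto_const_div_atTop_nhds_zero_nat _) (fun L hL => by positivity) fun L X hL h1 h2 => ?_
  refine (mk ((range (2 ^ L ^ 7)).filter Nat.Prime) id (fun p => Real.log p)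
    (fun p _ => Real.log_natCast_nonneg p) X _ _
    fun n hn hP => ?_).trans (mul_le_mul_of_nonneg_left ?_ (by positivity))
  · simp only [id]
    rw [← sub (mem_Icc.1 hn).1, ← Real.log_prod fun p hp => by
      exact_mod_cast (Nat.pos_of_mem_primeFactors (mem_filter.1 hp).1).ne']
    have a : Real.log (2 ^ L ^ 8) = (L : ℝ) ^ 8 * Real.log 2 := by rw [Real.log_pow]; simp
    rw [← a]
    exact Real.log_le_log (by positivity) (by rw [← Nat.cast_prod]; exact_mod_cast hP.le)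
  · have a := (hC _ (Nat.le_self_pow (by positivity) 2 : 2 ≤ 2 ^ L ^ 7)).2
    have b : Real.log ((2 ^ L ^ 7 : ℕ) : ℝ) = (L : ℝ) ^ 7 * Real.log 2 := by
      push_cast; rw [Real.log_pow]; simp
    have c : (1 : ℝ) ≤ (L : ℝ) ^ 7 := one_le_pow₀ (by exact_mod_cast (by omega : 1 ≤ L))
    have e : (L : ℝ) ^ 8 * Real.log 2 * ((1 + 2 * |C|) / L) =
        L ^ 7 * Real.log 2 + |C| * (2 * (L ^ 7 * Real.log 2)) := by field_simp
    have d : 1 ≤ 2 * ((L : ℝ) ^ 7 * Real.log 2) := by nlinarith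
    have := mul_le_mul_of_nonneg_left d (abs_nonneg C)
    simp only [id]
    linarith [le_abs_self C]

theorem t_EX4 (hMERT : MERT) : EX4 := by
  classical
  obtain ⟨K, hK⟩ := all hMERT
  refine rare_of (fun L => K * ((L : ℝ) ^ 1 / 2 ^ L)) (fun _ => 1)
    (by simpa using (tendsto_pow_const_div_const_pow_of_one_lt 1 one_lt_two).const_mul K)
    (fun L hL => one_pos) fun L X hL h1 h2 => ?_
  set P := (range (X + 1)).filter Nat.Prime with hP
  refine (mk (P.sigma fun p => P.filter fun q => 2 ^ L ^ 7 ≤ p ∧ q ≠ p ∧ ce L q = ce L p)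
    (fun i => i.1 * i.2) (fun _ => 1) (fun _ _ => zero_le_one) X _ _
    fun n hn hB => ?_).trans (mul_le_mul_of_nonneg_left ?_ (by positivity))
  · simp only [Set.InjOn, not_forall, mem_coe, la, mem_filter] at hB
    obtain ⟨p, hp, q, hq, e, ne⟩ := hB
    have m : ∀ r ∈ n.primeFactors, r ∈ P := fun r hr => mem_filter.2 ⟨mem_range.2 (by
      have := Nat.le_of_mem_primeFactors hr; have := (mem_Icc.1 hn).2; omega),
      Nat.prime_of_mem_primeFactors hr⟩
    refine single_le_sum (f := fun _ => (1 : ℝ)) (a := ⟨p, q⟩) (fun _ _ => zero_le_one)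
      (mem_filter.2 ⟨mem_sigma.2 ⟨m p hp.1, mem_filter.2 ⟨m q hq.1, hp.2, Ne.symm ne, e.symm⟩⟩, ?_⟩)
    exact ((Nat.coprime_primes (Nat.prime_of_mem_primeFactors hp.1)
      (Nat.prime_of_mem_primeFactors hq.1)).2 ne).mul_dvd_of_dvd_of_dvd
      (Nat.dvd_of_mem_primeFactors hp.1) (Nat.dvd_of_mem_primeFactors hq.1)
  · rw [sum_sigma]
    refine (sum_le_sum (g := fun p : ℕ => (p : ℝ)⁻¹ * (1 / 2 ^ L)) fun p _ => ?_).trans ?_
    · simp only [Nat.cast_mul, one_div (_ * _), mul_inv, ← mul_sum]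
      refine mul_le_mul_of_nonneg_left ?_ (by positivity)
      by_cases k : 2 ^ L ^ 7 ≤ p
      · exact cell (p := p) _ ((Nat.le_self_pow (by norm_num) L).trans
          (Nat.le_log_of_pow_le one_lt_two k)) fun q hq =>
          ⟨(mem_filter.1 (mem_filter.1 hq).1).2.pos, (mem_filter.1 hq).2.2.2⟩
      · simp [k]
    · rw [← sum_mul]
      exact (mul_le_mul_of_nonneg_right (hK L X hL h1 h2) (by positivity)).trans_eq (by ring)

end Pool.Agent.P.MP_8b7eba_nt.SM
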