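import Pool.Agent.P.MP_8b7eba_nt.SM.IfC

/-! Proof of EX5. -/

namespace Pool.Agent.P.MP_8b7eba_nt.SM

open Finset

namespace TEX5

theorem jac {N p p' : ℕ} (hN : N ≠ 0)
    (h : ∀ b ∈ insert (-1 : ℤ) (N.primeFactors.image Nat.cast), jacobiSym b p' = jacobiSym b p)
    (a : ℤ) : a ∣ N → jacobiSym a p' = jacobiSym a p := by
  have h1 := h (-1) (mem_insert_self _ _)
  induction a using UniqueFactorizationMonoid.induction_on_prime with
  | h₁ => intro ha; exact absurd (by simpa using ha) hN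
  | h₂ x hx =>
    intro _
    rcases Int.isUnit_iff.1 hx with rfl | rfl
    · simp
    · exact h1
  | h₃ a q _ hq ih =>
    intro ha
    have h2 : jacobiSym (q.natAbs : ℤ) p' = jacobiSym (q.natAbs : ℤ) p :=
      h _ (mem_insert_of_mem (mem_image_of_mem _ (Nat.mem_primeFactors.2
        ⟨Int.prime_iff_natAbs_prime.1 hq, Int.natCast_dvd_natCast.1
          (Int.natAbs_dvd.2 ((dvd_mul_right q a).trans ha)), hN⟩)))
    rw [jacobiSym.mul_left, jacobiSym.mul_left, ih ((dvd_mul_left a q).trans ha)]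
    congr 1
    rcases Int.natAbs_eq q with e | e
    · rw [e]; exact h2
    · rw [e, neg_eq_neg_one_mul, jacobiSym.mul_left, jacobiSym.mul_left, h1, h2]

/-- The poor primes. -/
noncomputable def poor (L X : ℕ) (S : Finset ℕ) : Finset ℕ :=
  (Icc 1 X).filter fun p => p.Prime ∧ 2 ^ (5 * L) * (Xk L S p).card < 2 ^ Nat.log 2 p

theorem sum_poor {L X : ℕ} (hX : X < 2 ^ 2 ^ (L + 1)) {S : Finset ℕ} (hS : ∀ q ∈ S, q.Prime)
    (hc : 40 * S.card ≤ L) : ∑ p ∈ poor L X S, (p : ℝ)⁻¹ ≤ 324 * 2 ^ (3 * L) / 2 ^ (5 * L) := by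
  classical
  have hN : 30 * ∏ q ∈ S, q ≠ 0 := mul_ne_zero (by norm_num) (prod_ne_zero_iff.2 fun q h => (hS q h).ne_zero)
  set B : Finset ℤ := insert (-1 : ℤ) ((30 * ∏ q ∈ S, q).primeFactors.image Nat.cast) with hB
  have hBc : B.card ≤ 4 + S.card := by
    have h1 := card_insert_le (-1 : ℤ) ((30 * ∏ q ∈ S, q).primeFactors.image Nat.cast)
    have h2 := card_image_le (s := (30 * ∏ q ∈ S, q).primeFactors) (f := (Nat.cast : ℕ → ℤ))
    have h3 := card_union_le (Nat.primeFactors 30) S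
    have h4 : (Nat.primeFactors 30).card = 3 := by
      rw [show 30 = ∏ q ∈ ({2, 3, 5} : Finset ℕ), q by decide, Nat.primeFactors_prod (by decide)]
      decide
    rw [Nat.primeFactors_mul (by norm_num) (right_ne_zero_of_mul hN), Nat.primeFactors_prod hS] at h2
    rw [Nat.primeFactors_mul (by norm_num) (right_ne_zero_of_mul hN), Nat.primeFactors_prod hS] at h1
    rw [hB, Nat.primeFactors_mul (by norm_num) (right_ne_zero_of_mul hN), Nat.primeFactors_prod hS]
    omega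
  let key : ℕ → (ℕ × ℕ) × (B → ℤ) := fun p => (ce L p, fun b => jacobiSym b p)
  let K : Finset ((ℕ × ℕ) × (B → ℤ)) := (range (2 ^ (L + 1)) ×ˢ range (2 ^ (L + 1))) ×ˢ
    Fintype.piFinset fun _ => {0, 1, -1}
  have hm : ∀ p ∈ poor L X S, key p ∈ K := fun p hp => by
    obtain ⟨h1, h2, -⟩ := mem_filter.1 hp
    refine mem_product.2 ⟨mem_product.2 ⟨mem_range.2 (Nat.log_lt_of_lt_pow h2.ne_zero
      ((mem_Icc.1 h1).2.trans_lt hX)), mem_range.2 ?_⟩, Fintype.mem_piFinset.2 fun b => ?_⟩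
    · refine Nat.div_lt_of_lt_mul ((Nat.lt_pow_succ_log_self one_lt_two p).trans_le ?_)
      rw [← pow_add]
      exact Nat.pow_le_pow_right two_pos (by omega)
    · simpa using jacobiSym.trichotomy b p
  have hK : (K.card : ℝ) ≤ 324 * 2 ^ (3 * L) := by
    have h1 : (insert 0 {1, -1} : Finset ℤ).card = 3 := by decide
    have h2 : 3 ^ B.card ≤ 81 * 2 ^ L :=
      calc 3 ^ B.card ≤ 3 ^ (4 + S.card) := Nat.pow_le_pow_right (by norm_num) hBc
        _ = 81 * 3 ^ S.card := by rw [pow_add]; norm_num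
        _ ≤ 81 * (2 ^ 2) ^ S.card := by gcongr; norm_num
        _ ≤ 81 * 2 ^ L := by
          rw [← pow_mul]
          exact Nat.mul_le_mul_left _ (Nat.pow_le_pow_right two_pos (by omega))
    have h3 : K.card ≤ 324 * 2 ^ (3 * L) := by
      simp only [K, card_product, card_range, Fintype.card_piFinset, h1, prod_const, card_univ,
        Fintype.card_coe]
      calc _ ≤ 2 ^ (L + 1) * 2 ^ (L + 1) * (81 * 2 ^ L) := Nat.mul_le_mul_left _ h2
        _ = _ := by ring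
    exact_mod_cast h3
  rw [← sum_fiberwise_of_maps_to hm]
  refine (sum_le_card_nsmul _ _ ((2 : ℝ) ^ (5 * L))⁻¹ fun κ _ => ?_).trans
    (by rw [nsmul_eq_mul, div_eq_mul_inv]; gcongr)
  rcases ((poor L X S).filter fun p => key p = κ).eq_empty_or_nonempty with e | ⟨p₀, h₀⟩
  · rw [e, sum_empty]; positivity
  obtain ⟨h1, h2⟩ := mem_filter.1 h₀
  have h3 : ∀ p ∈ (poor L X S).filter fun p => key p = κ,
      p ∈ Xk L S p₀ ∧ (p : ℝ)⁻¹ ≤ ((2 : ℝ) ^ Nat.log 2 p₀)⁻¹ := fun p hp => by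
    obtain ⟨k1, k2⟩ := mem_filter.1 hp
    have e := k2.trans h2.symm
    have e1 : ce L p = ce L p₀ := congrArg Prod.fst e
    have e2 : Nat.log 2 p = Nat.log 2 p₀ := congrArg Prod.fst e1
    have hp := (mem_filter.1 k1).2.1
    refine ⟨mem_filter.2 ⟨mem_range.2 (e2 ▸ Nat.lt_pow_succ_log_self one_lt_two p), hp, e1,
      fun a ha => jac hN (fun b hb => congrFun (congrArg Prod.snd e) ⟨b, hb⟩) a
        (by push_cast; exact ha)⟩, inv_anti₀ (by positivity) ?_⟩
    exact_mod_cast e2 ▸ Nat.pow_log_le_self 2 hp.ne_zero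
  refine (sum_le_card_nsmul _ _ _ fun p hp => (h3 p hp).2).trans ?_
  have h4 : (((poor L X S).filter fun p => key p = κ).card : ℝ) ≤ (Xk L S p₀).card := by
    exact_mod_cast card_le_card fun p hp => (h3 p hp).1
  have h5 : (2 : ℝ) ^ (5 * L) * (Xk L S p₀).card ≤ 2 ^ Nat.log 2 p₀ := by
    exact_mod_cast (mem_filter.1 h1).2.2.le
  rw [nsmul_eq_mul, ← div_eq_mul_inv, div_le_iff₀ (by positivity), inv_mul_eq_div,
    le_div_iff₀ (by positivity), mul_comm]
  exact (mul_le_mul_of_nonneg_left h4 (by positivity)).trans h5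

theorem harm {L X : ℕ} (h0 : 0 < X) (hX : X < 2 ^ 2 ^ (L + 1)) :
    ∑ m ∈ Icc 1 X, (m : ℝ)⁻¹ ≤ 4 * 2 ^ L := by
  have h1 := harmonic_le_one_add_log X
  rw [harmonic_eq_sum_Icc] at h1
  push_cast at h1
  have h2 : Real.log X ≤ Real.log (2 ^ 2 ^ (L + 1)) :=
    Real.log_le_log (by exact_mod_cast h0) (by exact_mod_cast hX.le)
  rw [Real.log_pow] at h2
  have h3 : Real.log 2 ≤ 1 := by linarith [Real.log_two_lt_d9]
  have h4 : (1 : ℝ) ≤ 2 ^ L := one_le_pow₀ one_le_two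
  push_cast at h2
  nlinarith [pow_succ (2 : ℝ) L]

end TEX5

open TEX5 in
theorem t_EX5 : EX5 := by
  classical
  intro ε hε
  obtain ⟨L₀, hL₀⟩ := pow_unbounded_of_one_lt (1296 / ε) (one_lt_two (α := ℝ))
  refine ⟨L₀, fun L X hL h1 h2 => ?_⟩
  have h0 : 0 < X := lt_of_lt_of_le (by positivity) h1
  let Ms := (Icc 1 X).filter fun m => 40 * m.primeFactors.card ≤ L
  have hs : ((Icc 1 X).filter fun n => 40 * (sm L n).card ≤ L ∧
      ∃ p ∈ la L n, 2 ^ (5 * L) * (Xk L (sm L n) p).card < 2 ^ Nat.log 2 p) ⊆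
      Ms.biUnion fun m => (poor L X m.primeFactors).biUnion fun p =>
        (Ioc 0 X).filter (m * p ∣ ·) := by
    intro n hn
    obtain ⟨k1, k2, p, k3, k4⟩ := mem_filter.1 hn
    obtain ⟨n1, n2⟩ := mem_Icc.1 k1
    obtain ⟨k5, k6⟩ := mem_filter.1 k3
    have hS : ∀ q ∈ sm L n, q.Prime := fun q h => Nat.prime_of_mem_primeFactors (mem_filter.1 h).1
    have hp : p ∉ sm L n := fun h => absurd (mem_filter.1 h).2 (not_lt.2 k6)
    have hd : (∏ q ∈ sm L n, q) * p ∣ n := by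
      rw [mul_comm, ← prod_insert (f := fun q => q) hp]
      exact (prod_dvd_prod_of_subset _ _ _ (insert_subset k5 (filter_subset _ _))).trans
        (Nat.prod_primeFactors_dvd n)
    refine mem_biUnion.2 ⟨∏ q ∈ sm L n, q, mem_filter.2 ⟨mem_Icc.2 ⟨prod_pos fun q h => (hS q h).pos,
      (Nat.le_of_dvd n1 ((dvd_mul_right _ _).trans hd)).trans n2⟩, ?_⟩, mem_biUnion.2 ⟨p,
      mem_filter.2 ⟨mem_Icc.2 ⟨(Nat.prime_of_mem_primeFactors k5).pos,
        (Nat.le_of_mem_primeFactors k5).trans n2⟩, Nat.prime_of_mem_primeFactors k5, ?_⟩,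
      mem_filter.2 ⟨mem_Ioc.2 ⟨n1, n2⟩, hd⟩⟩⟩ <;> rwa [Nat.primeFactors_prod hS]
  have hc := (card_le_card hs).trans (card_biUnion_le.trans
    (sum_le_sum fun m _ => card_biUnion_le))
  have hb : (0 : ℝ) < 2 ^ L := by positivity
  calc _ ≤ ((∑ m ∈ Ms, ∑ p ∈ poor L X m.primeFactors,
        ((Ioc 0 X).filter (m * p ∣ ·)).card : ℕ) : ℝ) := Nat.cast_le.2 (le_trans (le_of_eq (by congr)) hc)
    _ ≤ ∑ m ∈ Ms, (m : ℝ)⁻¹ * (X * (324 * 2 ^ (3 * L) / 2 ^ (5 * L))) := by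
      push_cast
      refine sum_le_sum fun m hm => ?_
      have := sum_poor h2 (fun q => Nat.prime_of_mem_primeFactors) (mem_filter.1 hm).2
      refine le_trans ?_ (mul_le_mul_of_nonneg_left (mul_le_mul_of_nonneg_left this
        (Nat.cast_nonneg X)) (by positivity))
      rw [mul_sum, mul_sum]
      refine sum_le_sum fun p _ => ?_
      rw [Nat.Ioc_filter_dvd_card_eq_div]
      refine Nat.cast_div_le.trans (le_of_eq ?_)
      push_cast
      ring
    _ ≤ (4 * 2 ^ L) * (X * (324 * 2 ^ (3 * L) / 2 ^ (5 * L))) := by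
      rw [← sum_mul]
      refine mul_le_mul_of_nonneg_right (le_trans (sum_le_sum_of_subset_of_nonneg
        (filter_subset _ _) fun _ _ _ => by positivity) (harm h0 h2)) (by positivity)
    _ = 1296 / 2 ^ L * X := by field_simp; ring
    _ ≤ ε * X := by
      refine mul_le_mul_of_nonneg_right ?_ (Nat.cast_nonneg X)
      rw [div_lt_iff₀ hε] at hL₀
      rw [div_le_iff₀ hb]
      have := pow_le_pow_right₀ (one_le_two (α := ℝ)) hL
      nlinarith

end Pool.Agent.P.MP_8b7eba_nt.SM
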