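import Pool.Agent.P.MP_8b7eba_nt.SM.IfC

/-! Proof of EX6. -/

namespace Pool.Agent.P.MP_8b7eba_nt.SM

open Finset

namespace TEX6

theorem tk (hTK : TK) {P S : Finset ℕ} {X : ℕ} {ε m : ℝ} (hP : ∀ p ∈ P, p.Prime)
    (hX : 2 * P.card ≤ X) (hε : 0 < ε) (h1 : 8 / ε ≤ m) (h2 : m ≤ ∑ p ∈ P, (p : ℝ)⁻¹)
    (hS : ∀ n ∈ S, n ∈ Icc 1 X ∧ ((P.filter (· ∣ n)).card : ℝ) ≤ m / 2) : (S.card : ℝ) ≤ ε * X := by
  have h0 : 0 < ∑ p ∈ P, (p : ℝ)⁻¹ := ((div_pos (by norm_num) hε).trans_le h1).trans_le h2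
  refine le_trans ?_ ((hTK P X _ hP hX rfl h0).trans ?_)
  · exact_mod_cast card_le_card fun n hn =>
      mem_filter.2 ⟨(hS n hn).1, (hS n hn).2.trans (by linarith)⟩
  · have h3 := (div_le_iff₀ hε).1 (h1.trans h2)
    rw [div_le_iff₀ h0]
    nlinarith [Nat.cast_nonneg (α := ℝ) X]

theorem card_le (y k : ℕ) (q : ℕ → Prop) [DecidablePred q] :
    2 * ((Ico y (2 ^ k)).filter q).card ≤ 2 ^ (k + 1) := by
  have := card_filter_le (Ico y (2 ^ k)) q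
  rw [Nat.card_Ico] at this
  rw [pow_succ, mul_comm]
  exact Nat.mul_le_mul_right 2 (this.trans (Nat.sub_le _ _))

theorem ll {k : ℕ} (hk : 1 ≤ k) :
    Real.log (Real.log ((2 ^ k : ℕ) : ℝ)) = Real.log k + Real.log (Real.log 2) := by
  rw [Nat.cast_pow, Real.log_pow, Nat.cast_ofNat,
    Real.log_mul (by exact_mod_cast (by omega : k ≠ 0)) (Real.log_pos one_lt_two).ne']

end TEX6

open TEX6

theorem t_EX6 (hMERT : MERT) (hTK : TK) : EX6 := by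
  intro ε T hε
  obtain ⟨C, hC⟩ := hMERT
  refine ⟨⌈Real.exp (2 * C + 2 * T + 8 / ε)⌉₊ + 1, by omega, fun e X he hX => ?_⟩
  generalize hB : ⌈Real.exp (2 * C + 2 * T + 8 / ε)⌉₊ + 1 = B at hX ⊢
  have hB1 : 1 ≤ B := by omega
  have hl : 2 * C + 2 * T + 8 / ε ≤ Real.log B := by
    rw [Real.le_log_iff_exp_le (by exact_mod_cast hB1), ← hB]
    push_cast
    linarith [Nat.le_ceil (Real.exp (2 * C + 2 * T + 8 / ε))]
  have heB : e ≤ e * B := Nat.le_mul_of_pos_right e hB1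
  have h2 : ∀ k, 1 ≤ k → 2 ≤ 2 ^ k := fun k hk => Nat.le_self_pow (by omega) 2
  have a1 := (abs_le.1 (hC _ (h2 e he)).1).2
  have a2 := (abs_le.1 (hC _ (h2 _ (he.trans heB))).1).1
  rw [ll he] at a1
  rw [ll (he.trans heB), Nat.cast_mul, Real.log_mul (by exact_mod_cast (by omega : e ≠ 0))
    (by exact_mod_cast (by omega : B ≠ 0)), sum_filter,
    ← sum_range_add_sum_Ico _ (Nat.pow_le_pow_right two_pos heB), ← sum_filter, ← sum_filter] at a2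
  have hε' : 0 < 8 / ε := by positivity
  refine tk hTK (P := (Ico (2 ^ e) (2 ^ (e * B))).filter Nat.Prime) (m := 2 * T + 8 / ε)
    (fun p hp => (mem_filter.1 hp).2) ((card_le _ _ _).trans hX) hε
    (by linarith [Nat.cast_nonneg (α := ℝ) T]) (by linarith) fun n hn => ?_
  obtain ⟨h3, h4⟩ := mem_filter.1 hn
  refine ⟨h3, le_trans (b := (T : ℝ)) ?_ (by linarith)⟩
  refine Nat.cast_le.2 (le_trans (card_le_card fun p hp => ?_) h4.le)
  simp only [mem_filter, mem_Ico, mem_Icc, Nat.mem_primeFactors] at hp h3 ⊢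
  exact ⟨⟨hp.1.2, hp.2, by omega⟩, hp.1.1⟩

theorem t_EX7 (hTK : TK) (hCHAR : CHAR) : EX7 := by
  intro a ha ha1 ε hε
  obtain ⟨C, hC⟩ := hCHAR
  have ev : ∀ᶠ L : ℕ in Filter.atTop, ‖Real.log L‖ ≤ 1 / 1000 * ‖(L : ℝ)‖ ∧ Real.log a ≤ L ∧
      100 * (Real.log (Real.log (4 * a) + 3) / 2 + C) ≤ L ∧ 4 * (8 / ε) ≤ L ∧ (100 : ℝ) ≤ L :=
    tendsto_natCast_atTop_atTop.eventually
      ((Real.isLittleO_log_id_atTop.bound (by norm_num)).and ((Filter.eventually_ge_atTop _).and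
        ((Filter.eventually_ge_atTop _).and ((Filter.eventually_ge_atTop _).and
          (Filter.eventually_ge_atTop _)))))
  obtain ⟨L₀, hL₀⟩ := Filter.eventually_atTop.1 ev
  refine ⟨L₀, fun L X hL hX _ => ?_⟩
  obtain ⟨b1, b2, b3, b4, b5⟩ := hL₀ L hL
  have hL1 : 100 ≤ L := by exact_mod_cast b5
  have l2 := Real.log_two_gt_d9
  rw [Real.norm_natCast] at b1
  replace b1 := (le_abs_self _).trans b1
  obtain ⟨K, rfl⟩ : ∃ K, L = K + 1 := ⟨L - 1, by omega⟩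
  have c1 : (K + 1) ^ 7 ≤ 2 ^ K := by
    have : (((K + 1 : ℕ) : ℝ)) ^ 7 ≤ 2 ^ K := by
      rw [← Real.log_le_log_iff (by positivity) (by positivity), Real.log_pow, Real.log_pow]
      push_cast at b1 b5 ⊢
      nlinarith
    exact_mod_cast this
  have c2 : 1 ≤ (K + 1) ^ 7 := Nat.one_le_pow _ _ (by omega)
  have c3 : (K + 1 : ℕ) ≤ 2 ^ (K + 1) ^ 7 :=
    (Nat.le_self_pow (by norm_num) _).trans Nat.lt_two_pow_self.le
  have h := hC a (2 ^ (K + 1) ^ 7) (2 ^ 2 ^ K) ha ha1 (by omega) (Nat.pow_le_pow_right two_pos c1)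
    (b2.trans (by exact_mod_cast c3))
  have c4 : Real.log (Real.log 2) ≤ 0 :=
    Real.log_nonpos (by linarith) (by linarith [Real.log_two_lt_d9])
  rw [ll c2, ll Nat.one_le_two_pow, Nat.cast_pow, Nat.cast_pow, Real.log_pow, Real.log_pow] at h
  refine tk hTK (P := (Ico (2 ^ (K + 1) ^ 7) (2 ^ 2 ^ K)).filter fun p =>
    p.Prime ∧ jacobiSym a p = -1) (m := 2 * ((K + 1 : ℕ) : ℝ) / 7)
    (fun p hp => (mem_filter.1 hp).2.1) ((card_le _ _ _).trans (le_trans ?_ hX)) hε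
    (by linarith) (le_trans ?_ h) fun n hn => ?_
  · refine Nat.pow_le_pow_right two_pos ?_
    have := Nat.one_le_two_pow (n := K)
    omega
  · push_cast at b1 b3 b5 ⊢
    nlinarith
  · obtain ⟨h3, h4⟩ := (@mem_filter _ _ (_) _ _).1 hn
    refine ⟨h3, ?_⟩
    have h5 : (((Ico (2 ^ (K + 1) ^ 7) (2 ^ 2 ^ K)).filter fun p =>
        p.Prime ∧ jacobiSym a p = -1).filter (· ∣ n)).card ≤
        ((la (K + 1) n).filter fun p => jacobiSym a p = -1).card := card_le_card fun p hp => by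
      simp only [la, mem_filter, mem_Ico, mem_Icc, Nat.mem_primeFactors] at hp h3 ⊢
      exact ⟨⟨⟨hp.1.2.1, hp.2, by omega⟩, hp.1.1.1⟩, hp.1.2.2⟩
    have h6 := Nat.cast_le (α := ℝ).2 ((Nat.mul_le_mul_left 7 h5).trans h4.le)
    rw [Nat.cast_mul, Nat.cast_ofNat] at h6
    linarith

end Pool.Agent.P.MP_8b7eba_nt.SM
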