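import Pool.Agent.P.MP_8b7eba_nt.SM.IfC

/-! Proof of EX8. -/

namespace Pool.Agent.P.MP_8b7eba_nt.SM

open Finset

namespace TEX8

/-- exponentials beat powers -/
theorem ev (K : ℝ) (k : ℕ) : ∃ L₀ : ℕ, ∀ L : ℕ, L₀ ≤ L → K * (L : ℝ) ^ k ≤ 2 ^ (L / 20) := by
  have h := (tendsto_pow_const_div_const_pow_of_one_lt k (show (1 : ℝ) < 2 by norm_num)).const_mul
    (|K| * 40 ^ k)
  rw [mul_zero] at h
  obtain ⟨N, hN⟩ := Filter.eventually_atTop.1 (h.eventually_le_const one_pos)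
  refine ⟨20 * (N + 1), fun L hL => ?_⟩
  have h1 := hN (L / 20) (by omega)
  rw [← mul_div_assoc, div_le_one (by positivity)] at h1
  have h2 : (L : ℝ) ≤ 40 * (L / 20 : ℕ) := by exact_mod_cast (by omega : L ≤ 40 * (L / 20))
  refine le_trans (mul_le_mul (le_abs_self K) (pow_le_pow_left₀ (by positivity) h2 k)
    (by positivity) (abs_nonneg K)) ?_
  rwa [mul_pow, ← mul_assoc]

/-- the multiples that avoid a set of primes -/
theorem cnt (hS : SIEVE) {P N : Finset ℕ} {X z h m : ℕ} (hm : 0 < m)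
    (hP : ∀ p ∈ P, p.Prime ∧ p ≤ z) (hs : (3 * h : ℝ) ≤ ∑ p ∈ P, (p : ℝ)⁻¹)
    (hN : ∀ n ∈ N, n ∈ Icc 1 X ∧ m ∣ 30 * n ∧ ∀ p ∈ P, ¬ p ∣ n) :
    (N.card : ℝ) ≤ 30 * X / 2 ^ h * (m : ℝ)⁻¹ + z ^ (2 * h) := by
  obtain ⟨a, b, hab, ha, hb⟩ := Nat.exists_coprime m 30
  have g0 : 0 < Nat.gcd m 30 := Nat.gcd_pos_of_pos_left _ hm
  have g1 : Nat.gcd m 30 ≤ 30 := Nat.gcd_le_right _ (by norm_num)
  have a0 : 0 < a := Nat.pos_of_ne_zero fun e => by rw [e, zero_mul] at ha; omega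
  have sub : N ⊆ ((Icc 1 (X / a)).filter fun n => ∀ p ∈ P, ¬ p ∣ n).image (a * ·) := fun n hn => by
    obtain ⟨h1, h2, h3⟩ := hN n hn
    have h4 : a * Nat.gcd m 30 ∣ b * n * Nat.gcd m 30 := by
      rw [← ha, mul_right_comm, ← hb]; exact h2
    obtain ⟨n', rfl⟩ := hab.dvd_of_dvd_mul_left (Nat.dvd_of_mul_dvd_mul_right g0 h4)
    rw [mem_Icc] at h1
    refine mem_image.2 ⟨n', mem_filter.2 ⟨mem_Icc.2 ⟨Nat.pos_of_ne_zero fun e => ?_, ?_⟩,
      fun p hp hd => h3 p hp (hd.mul_left a)⟩, rfl⟩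
    · rw [e] at h1; omega
    · exact (Nat.le_div_iff_mul_le a0).2 (by rw [mul_comm]; exact h1.2)
  have h1 := hS P (X / a) z h hP hs
  have h2 : ((X / a : ℕ) : ℝ) ≤ 30 * X * (m : ℝ)⁻¹ := by
    refine Nat.cast_div_le.trans ?_
    rw [← div_eq_mul_inv, div_le_div_iff₀ (by positivity) (by positivity)]
    have : m ≤ 30 * a := by nlinarith
    have h3 : (m : ℝ) ≤ 30 * a := by exact_mod_cast this
    nlinarith [mul_le_mul_of_nonneg_left h3 (Nat.cast_nonneg (α := ℝ) X)]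
  have h3 := div_le_div_of_nonneg_right h2 (show (0 : ℝ) ≤ 2 ^ h by positivity)
  have h4 : (N.card : ℝ) ≤ _ := Nat.cast_le.2 ((card_le_card sub).trans card_image_le)
  rw [mul_div_right_comm] at h3
  linarith

theorem logA {L m : ℕ} (hm : 0 < m) (h : m ≤ 30 * 2 ^ L ^ 8) : Real.log (4 * m) ≤ L ^ 8 + 5 := by
  have h1 : (4 * m : ℝ) ≤ 2 ^ (L ^ 8 + 7) := by
    have : 4 * m ≤ 2 ^ (L ^ 8 + 7) := by rw [pow_add]; omega
    exact_mod_cast this
  refine (Real.log_le_log (by positivity) h1).trans ?_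
  rw [Real.log_pow]
  push_cast
  have h2 := Real.log_two_lt_d9
  have h3 : (0 : ℝ) ≤ L ^ 8 := by positivity
  nlinarith

/-- the sum over the inert primes is large -/
theorem big {C : ℝ} {L c h u m : ℕ} (hL : 20 ≤ L) (hu : 15 * h ≤ u) (hC : C + 1 ≤ h)
    (hK : 2 * (c + 1) * (L : ℝ) ^ 15 ≤ 2 ^ h) (hm : 0 < m) (hA : m ≤ 30 * 2 ^ L ^ 8) :
    (3 * h : ℝ) ≤ Real.log (Real.log (2 ^ 2 ^ u : ℕ)) / 2 -
      Real.log (Real.log (2 ^ (L ^ 7 * (c + 1)) : ℕ)) - Real.log (Real.log (4 * m) + 3) / 2 - C := by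
  have l1 := Real.log_two_lt_d9
  have l2 := Real.log_two_gt_d9
  have L1 : (20 : ℝ) ≤ L := by exact_mod_cast hL
  have L8 : (20 : ℝ) ≤ L ^ 8 := L1.trans (le_self_pow₀ (by linarith) (by norm_num))
  have a1 : Real.log (Real.log (2 ^ 2 ^ u : ℕ)) = u * Real.log 2 + Real.log (Real.log 2) := by
    push_cast
    rw [Real.log_pow, Real.log_mul (by positivity) (by positivity)]
    push_cast
    rw [Real.log_pow]
  have a2 : -1 ≤ Real.log (Real.log 2) := by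
    have := Real.log_le_log (show (0 : ℝ) < 2⁻¹ by norm_num) (show 2⁻¹ ≤ Real.log 2 by linarith)
    rw [Real.log_inv] at this
    linarith
  have a3 : Real.log (Real.log (2 ^ (L ^ 7 * (c + 1)) : ℕ)) ≤ Real.log (L ^ 7 * (c + 1)) := by
    push_cast
    rw [Real.log_pow]
    push_cast
    exact Real.log_le_log (by positivity) (mul_le_of_le_one_right (by positivity) (by linarith))
  have m1 : (1 : ℝ) ≤ m := by exact_mod_cast hm
  have a4 : Real.log (Real.log (4 * m) + 3) ≤ Real.log (2 * L ^ 8) :=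
    Real.log_le_log (by linarith [Real.log_nonneg (show (1 : ℝ) ≤ 4 * m by linarith)])
      (by linarith [logA hm hA])
  have a5 : 0 ≤ Real.log (2 * L ^ 8) := Real.log_nonneg (by linarith)
  have a6 : Real.log (L ^ 7 * (c + 1)) + Real.log (2 * L ^ 8) ≤ h * Real.log 2 := by
    rw [← Real.log_mul (by positivity) (by positivity), ← Real.log_pow]
    exact Real.log_le_log (by positivity) (le_trans (le_of_eq (by ring)) hK)
  have a7 : (15 * h : ℝ) ≤ u := by exact_mod_cast hu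
  have a8 := mul_le_mul_of_nonneg_right a7 (show 0 ≤ Real.log 2 by linarith)
  have a9 := mul_le_mul_of_nonneg_left l2.le (Nat.cast_nonneg (α := ℝ) h)
  have : (0 : ℝ) ≤ h := by positivity
  rw [a1]
  linarith

end TEX8

open TEX8 in
theorem t_EX8 (hSIEVE : SIEVE) (hCHAR : CHAR) : EX8 := by
  classical
  intro c ε hε
  obtain ⟨C, hC⟩ := hCHAR
  obtain ⟨L₁, h₁⟩ := ev (2 * (c + 1) + 240 / ε) 15
  refine ⟨L₁ + 20 * (⌈C⌉₊ + 2), fun L X hL hX _ => ?_⟩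
  have hK := h₁ L (by omega)
  obtain ⟨h, hh⟩ : ∃ h, h = L / 20 := ⟨_, rfl⟩
  obtain ⟨u, hu⟩ : ∃ u, L = 5 * h + u := ⟨L - 5 * h, by omega⟩
  rw [← hh] at hK
  have L1 : (20 : ℝ) ≤ L := by exact_mod_cast (by omega : 20 ≤ L)
  have e0 : 0 < 240 / ε := by positivity
  have p15 : (0 : ℝ) ≤ (L : ℝ) ^ 15 := by positivity
  have K1 : 2 * (c + 1) * (L : ℝ) ^ 15 ≤ 2 ^ h := by nlinarith
  have p8 : (L : ℝ) ^ 8 ≤ L ^ 15 := pow_le_pow_right₀ (by linarith) (by norm_num)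
  have L8 : (L : ℝ) ≤ L ^ 8 := le_self_pow₀ (by linarith) (by norm_num)
  have K2 : 240 / ε * (L : ℝ) ^ 8 ≤ 2 ^ h := by
    have : (0 : ℝ) ≤ 2 * (c + 1) * (L : ℝ) ^ 15 := by positivity
    nlinarith
  have K3 : 2 * (c + 1) * L ^ 15 ≤ 2 ^ h := by exact_mod_cast K1
  have n7 : L ^ 7 ≤ L ^ 15 := Nat.pow_le_pow_right (by omega) (by norm_num)
  have n8 : L ^ 8 ≤ L ^ 15 := Nat.pow_le_pow_right (by omega) (by norm_num)
  have n1 : L ≤ L ^ 7 := Nat.le_self_pow (by norm_num) L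
  have hu2 : 2 ^ h ≤ 2 ^ u := Nat.pow_le_pow_right (by norm_num) (by omega)
  have K4 : 2 * L ^ 15 ≤ 2 ^ h := le_trans (by nlinarith) K3
  have hy : 2 ^ h ≤ 2 ^ (L ^ 7 * (c + 1)) := Nat.pow_le_pow_right (by norm_num) (by nlinarith)
  have hyz : 2 ^ (L ^ 7 * (c + 1)) ≤ 2 ^ 2 ^ u := Nat.pow_le_pow_right (by norm_num) (by nlinarith)
  have hC1 : C + 1 ≤ h := by
    have : ((⌈C⌉₊ + 1 : ℕ) : ℝ) ≤ h := Nat.cast_le.2 (by omega)
    push_cast at this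
    linarith [Nat.le_ceil C]
  set A := 30 * 2 ^ L ^ 8 with hA
  set N : ℕ × ℤ → Finset ℕ := fun s => (Icc 1 X).filter fun n => Squarefree (s.2 * s.1) ∧
    s.2 * s.1 ≠ 1 ∧ s.1 ∣ 30 * n ∧
    ∀ p ∈ n.primeFactors, 2 ^ (L ^ 7 * c) ≤ p → jacobiSym (s.2 * s.1) p ≠ -1 with hN
  have key : ∀ s ∈ Icc 1 A ×ˢ ({1, -1} : Finset ℤ), ((N s).card : ℝ) ≤
      30 * X / 2 ^ h * (s.1 : ℝ)⁻¹ + (2 ^ 2 ^ u : ℕ) ^ (2 * h) := fun s hs => by
    obtain ⟨s1, s2⟩ := mem_product.1 hs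
    rw [mem_Icc] at s1
    rcases (N s).eq_empty_or_nonempty with e | ⟨n₀, e⟩
    · rw [e, card_empty, Nat.cast_zero]; positivity
    obtain ⟨-, q1, q2, -⟩ := mem_filter.1 e
    have e1 : ∀ r : ℝ, Real.log (r * (s.2 * s.1 : ℤ)) = Real.log (r * s.1) := fun r => by
      rcases mem_insert.1 s2 with a | a
      · simp [a]
      · simp [mem_singleton.1 a]
    have m1 : (1 : ℝ) ≤ s.1 := by exact_mod_cast s1.1
    have b1 := hC _ _ _ q1 q2 (le_trans (by nlinarith) hy) hyz (by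
      have b2 := e1 1
      rw [one_mul, one_mul] at b2
      have b3 := Real.log_le_log (by linarith) (show (s.1 : ℝ) ≤ 4 * s.1 by linarith)
      have b4 : ((2 * L ^ 15 : ℕ) : ℝ) ≤ _ := Nat.cast_le.2 (K4.trans hy)
      rw [Nat.cast_mul, Nat.cast_pow L] at b4
      rw [b2]
      norm_num only [Nat.cast_ofNat] at b4
      linarith [logA s1.1 s1.2])
    rw [e1] at b1
    refine cnt hSIEVE s1.1 (fun p hp => ?_) ((big (by omega) (by omega) hC1 K1 s1.1 s1.2).trans b1)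
      fun n hn => ?_
    · exact ⟨(mem_filter.1 hp).2.1, (mem_Ico.1 (mem_filter.1 hp).1).2.le⟩
    obtain ⟨r0, -, -, r1, r2⟩ := mem_filter.1 hn
    refine ⟨r0, r1, fun p hp hd => ?_⟩
    obtain ⟨t1, t2, t3⟩ := mem_filter.1 hp
    refine r2 p (Nat.mem_primeFactors.2 ⟨t2, hd, by have := (mem_Icc.1 r0).1; omega⟩) ?_ t3
    exact (Nat.pow_le_pow_right (by norm_num) (by nlinarith)).trans (mem_Ico.1 t1).1
  refine le_trans (Nat.cast_le.2 ((card_le_card (t := (Icc 1 A ×ˢ ({1, -1} : Finset ℤ)).biUnion N)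
    fun n hn => ?_).trans card_biUnion_le)) ?_
  · obtain ⟨r0, a, a1, a2, a3, a4, a5⟩ := mem_filter.1 hn
    have a0 := a1.ne_zero
    have e : a.sign * (a.natAbs : ℤ) = a := Int.sign_mul_natAbs a
    refine mem_biUnion.2 ⟨(a.natAbs, a.sign), mem_product.2 ⟨mem_Icc.2 ⟨by simp only; omega, ?_⟩,
      ?_⟩, mem_filter.2 ⟨r0, ?_⟩⟩
    · rw [Int.abs_eq_natAbs] at a4
      exact_mod_cast a4
    · rcases lt_or_gt_of_ne a0 with b | b
      · simp [Int.sign_eq_neg_one_of_neg b]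
      · simp [Int.sign_eq_one_of_pos b]
    · simp only [e]
      exact ⟨a1, a2, by exact_mod_cast Int.natAbs_dvd.2 a3, a5⟩
  push_cast
  refine (sum_le_sum key).trans ?_
  rw [sum_product]
  simp only [sum_const, nsmul_eq_mul]
  rw [← mul_sum, sum_add_distrib, ← mul_sum, sum_const, nsmul_eq_mul, Nat.card_Icc,
    card_pair (by norm_num), Nat.add_sub_cancel]
  have A0 : 0 < A := by positivity
  have s1 : ∑ m ∈ Icc 1 A, (m : ℝ)⁻¹ ≤ 2 * L ^ 8 := by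
    have b1 := harmonic_le_one_add_log A
    rw [harmonic_eq_sum_Icc] at b1
    push_cast at b1
    have b2 : (0 : ℝ) < A := by exact_mod_cast A0
    have b3 := Real.log_le_log b2 (show (A : ℝ) ≤ 4 * A by linarith)
    linarith [logA A0 le_rfl]
  have s2 : 30 * (X : ℝ) / 2 ^ h * (2 * L ^ 8) ≤ ε / 4 * X := by
    rw [div_mul_eq_mul_div, div_le_iff₀ (by positivity)]
    have := mul_le_mul_of_nonneg_left K2 (show 0 ≤ ε / 4 * X by positivity)
    refine le_trans (le_of_eq ?_) this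
    field_simp
    ring
  have s3 : 2 ^ h * (2 ^ L ^ 8 * (2 ^ 2 ^ u) ^ (2 * h)) ≤ X := by
    refine le_trans ?_ hX
    rw [← pow_mul, ← pow_add, ← pow_add]
    refine Nat.pow_le_pow_right (by norm_num) ?_
    have b1 : 5 * h < 2 ^ (5 * h) := Nat.lt_two_pow_self
    have b2 : 2 ^ L = 2 ^ (5 * h) * 2 ^ u := by rw [← pow_add, ← hu]
    have b3 := Nat.mul_le_mul_right (2 ^ u) (show 2 * h + 1 ≤ 2 ^ (5 * h) by omega)
    have b4 : h + L ^ 8 ≤ 2 ^ u := by omega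
    rw [b2]
    linarith
  have s4 : (A : ℝ) * ((2 ^ 2 ^ u : ℕ) : ℝ) ^ (2 * h) ≤ ε / 4 * X := by
    have b1 : (2 : ℝ) ^ h * (2 ^ L ^ 8 * ((2 ^ 2 ^ u : ℕ) : ℝ) ^ (2 * h)) ≤ X := by
      exact_mod_cast s3
    have b2 : 240 / ε ≤ 2 ^ h := le_trans (le_mul_of_one_le_right e0.le (by linarith)) K2
    rw [div_le_iff₀ hε] at b2
    have b3 := mul_le_mul_of_nonneg_right b2
      (show (0 : ℝ) ≤ 2 ^ L ^ 8 * ((2 ^ 2 ^ u : ℕ) : ℝ) ^ (2 * h) by positivity)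
    have b4 := mul_le_mul_of_nonneg_left b1 hε.le
    have b5 : 0 ≤ ε * X := by positivity
    rw [hA, Nat.cast_mul, Nat.cast_pow 2 (L ^ 8)]
    norm_num only [Nat.cast_ofNat]
    linarith
  have s5 := mul_le_mul_of_nonneg_left s1 (show 0 ≤ 30 * (X : ℝ) / 2 ^ h by positivity)
  norm_num only [Nat.cast_ofNat]
  linarith

end Pool.Agent.P.MP_8b7eba_nt.SM
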