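import Pool.Agent.P.MP_8b7eba_nt.SM.BasZ
import Pool.Agent.P.MP_8b7eba_nt.SM.BasH

/-! Selmer cocycles. -/

namespace Pool.Agent.P.MP_8b7eba_nt.SM

open Finset R2
open scoped Matrix

variable [HA] {n m j p : ℕ} {ψ : GQ → F2} {Λ : Lat} {x x' y : GQ → VZ} {S : Finset ℕ} {g : GQ}
  {w : Pl} {φ : X2}

theorem Lat.Zn.zero_I (hp : p.Prime) (h2 : p ≠ 2) (hx : Λ.Zn ψ (pl p).I n x)
    (h0 : Dv n (x (tp p))) (hg : g ∈ (pl p).I) : Dv n (x g) :=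
  hx.zero_of {tp p} (fun φ hφ h g hg => by rw [ch_I hp h2 hφ hg, h _ rfl, smul_zero])
    (fun g hg => by rw [hg]; exact h0) hg

theorem Lat.Zn.zero_D (hp : p.Prime) (h2 : p ≠ 2) (hx : Λ.Zn ψ (pl p).D n x)
    (h0 : Dv n (x (tp p))) (h1 : Dv n (x (fr p))) (hg : g ∈ (pl p).D) : Dv n (x g) :=
  hx.zero_of {tp p, fr p}
    (fun φ hφ h g hg => ch_D hp h2 hφ (h _ (Or.inl rfl)) (h _ (Or.inr rfl)) hg)
    (fun g hg => by
      rcases hg with rfl | rfl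
      · exact h0
      · exact h1) hg

theorem Lat.Zn.unr (hw : ¬ w.p ∣ 30) (hψ : IsCh ⊤ ψ) (ht : ψ (tp w.p) = 0) (hx : Λ.Zn ψ ⊤ n x)
    (h0 : Dv n (x (tp w.p))) (hg : g ∈ w.I) : Dv n (x g) := by
  have h2 : w.p ≠ 2 := fun e => hw (by rw [e]; norm_num)
  obtain ⟨σ, hσ⟩ := exists_smul w
  have h1 : σ⁻¹ * g * σ ∈ (pl w.p).I := Pl.mem_I_smul.1 (by rw [hσ]; exact hg)
  have h3 := (hx.mono le_top le_rfl).zero_I w.prime h2 h0 h1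
  have h4 := hx.conj hψ (Subgroup.mem_top σ) (Subgroup.mem_top (σ⁻¹ * g * σ))
  have e : σ * (σ⁻¹ * g * σ) * σ⁻¹ = g := by group
  have e1 : Λ.rt ψ g = 1 := by
    rw [Lat.rt, ch_unr_top h2 hψ ht hg, Λ.unr w hw g hg]
    simp [sg]
  rw [e, e1, Matrix.one_mulVec] at h4
  have h5 := h4.add (h3.mulVec (Λ.rt ψ σ))
  rwa [show x g - (x σ + Λ.rt ψ σ *ᵥ x (σ⁻¹ * g * σ) - x σ) + Λ.rt ψ σ *ᵥ x (σ⁻¹ * g * σ) = x g by
    abel] at h5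

theorem Lat.c_tp (Λ : Lat) (hp : Gp p) : Λ.c (tp p) = 0 ∧ Λ.cb (tp p) = 0 :=
  Λ.c_I (w := pl p) (by rw [pl_p hp.1]; exact hp.2) (tp_I hp.1 hp.ne.1)

theorem Lat.hb_tp (Λ : Lat) (hp : Gp p) (ht : ψ (tp p) = 1) (v : VZ) : Λ.hb ψ v (tp p) = -v := by
  rw [Lat.hb, Lat.hh, ht, (Λ.c_tp hp).1, show (1 : F2).val = 1 from rfl]
  simp [Matrix.neg_mulVec]

theorem Lat.lc_iff {o : Prop} (ho : ¬ o) (hp : Gp p) (hψ : IsCh (pl p).D ψ) (ht : ψ (tp p) = 1)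
    (hx : Λ.Zn ψ (pl p).D n x) :
    Λ.Lc o ψ (pl p).D n x ↔ Dv n (x (fr p) + Λ.hh (ψ (fr p)) (fr p) *ᵥ x (tp p)) := by
  have h2 := hp.ne.1
  constructor
  · rintro ⟨b, ⟨-, e, v, hv⟩, hb⟩
    have hv' : ∀ g ∈ (pl p).D, (2 : Z2) ^ e • b g = (2 : Z2) • Λ.hb ψ v g := fun g hg => by
      rw [← Lat.bd_eq]
      funext i
      fin_cases i
      · exact (hv g hg).2 ho
      · exact (hv g hg).1
    have h3 : (2 : Z2) ^ e • (b (fr p) + Λ.hh (ψ (fr p)) (fr p) *ᵥ b (tp p)) = 0 := by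
      rw [smul_add, ← Matrix.mulVec_smul, hv' _ (fr_D hp.1 h2), hv' _ (tp_D hp.1 h2),
        Λ.hb_tp hp ht, Matrix.mulVec_smul, Matrix.mulVec_neg, Lat.hb, smul_neg, add_neg_cancel]
    have h4 := (smul_eq_zero.1 h3).resolve_left (pow_ne_zero _ two_ne_zero)
    have h5 := (hb _ (fr_D hp.1 h2)).add ((hb _ (tp_D hp.1 h2)).mulVec (Λ.hh (ψ (fr p)) (fr p)))
    rwa [Matrix.mulVec_sub, sub_add_sub_comm, h4, sub_zero] at h5
  · intro h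
    have hy := hx.add (Lat.zn_hb hψ (x (tp p)))
    have h0 : ∀ g ∈ (pl p).D, Dv n (x g + Λ.hb ψ (x (tp p)) g) := fun g hg =>
      hy.zero_D hp.1 h2 (by rw [Λ.hb_tp hp ht, add_neg_cancel]; exact dv_zero) h hg
    exact ((Lat.lc_of_dv h0).sub (Lat.lc_hb hψ (x (tp p)))).congr fun g _ => by
      rw [add_sub_cancel_right, sub_self]; exact dv_zero

theorem Lat.ex_tau (hψ : IsCh Ht ψ) (hx : ∀ n, Λ.Zn ψ Ht n x) : Λ.Ex False ψ Ht x := by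
  have ht : tau ∈ Ht := Subgroup.mem_zpowers _
  have htt : tau * tau = 1 := by
    rcases mem_Ht.1 (mul_mem ht ht) with h | h
    · exact h
    · rw [h]; exact mul_eq_left.1 h
  have h1 : x 1 = 0 := eq_zero_of_dv fun n => (hx n).one hψ
  have h2 := Lat.Zn.exact hx ht ht
  rw [htt, h1] at h2
  have key : ∀ g ∈ Ht, (2 : Z2) • x g = Λ.bd ψ (-x tau) g := fun g hg => by
    rcases mem_Ht.1 hg with rfl | rfl
    · rw [h1, Lat.bd, Lat.rt_one hψ, Matrix.one_mulVec, sub_self, smul_zero]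
    · rw [Lat.bd, Matrix.mulVec_neg, eq_neg_of_add_eq_zero_right h2.symm, two_smul]
      abel
  refine ⟨hx, 1, -x tau, fun g hg => ?_⟩
  rw [← key g hg, pow_one]
  exact ⟨rfl, fun _ => rfl⟩

omit [HA] in
theorem Lat.Wn.mono (h : Λ.Wn S n x) (hm : m ≤ n) : Λ.Wn S m x :=
  ⟨⟨h.zn.mono le_rfl hm, fun w a b g hg => (h.unr w a b g hg).mono hm, h.inf.mono hm⟩,
    fun p hp => (h.loc p hp).mono hm⟩

omit [HA] in
theorem Lat.Wn.congr (h : Λ.Wn S n x) (e : ∀ g, Dv n (x' g - x g)) : Λ.Wn S n x' :=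
  ⟨⟨h.zn.congr fun g _ => e g, fun w a b g hg => by
    simpa using (e g).add (h.unr w a b g hg), h.inf.congr fun g _ => e g⟩,
    fun p hp => (h.loc p hp).congr fun g _ => e g⟩

omit [HA] in
theorem Lat.Wn.add (h : Λ.Wn S n x) (h' : Λ.Wn S n y) : Λ.Wn S n fun g => x g + y g :=
  ⟨⟨h.zn.add h'.zn, fun w a b g hg => (h.unr w a b g hg).add (h'.unr w a b g hg),
    h.inf.add h'.inf⟩, fun p hp => (h.loc p hp).add (h'.loc p hp)⟩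

omit [HA] in
theorem Lat.Wn.smul (h : Λ.Wn S n x) (c : Z2) : Λ.Wn S n fun g => c • x g :=
  ⟨⟨h.zn.smul c, fun w a b g hg => (h.unr w a b g hg).smul c, h.inf.smul c⟩,
    fun p hp => (h.loc p hp).smul c⟩

omit [HA] in
theorem Lat.wn_pow (e : ∀ g, x g = (2 : Z2) ^ j • y g) : Λ.Wn S (j + n) x ↔ Λ.Wn S n y :=
  ⟨fun h => ⟨⟨(Lat.zn_pow fun g _ => e g).1 h.zn,
      fun w a b g hg => dv_pow.1 (e g ▸ h.unr w a b g hg), (Lat.lc_pow fun g _ => e g).1 h.inf⟩,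
      fun p hp => (Lat.lc_pow fun g _ => e g).1 (h.loc p hp)⟩,
    fun h => ⟨⟨(Lat.zn_pow fun g _ => e g).2 h.zn,
      fun w a b g hg => e g ▸ dv_pow.2 (h.unr w a b g hg), (Lat.lc_pow fun g _ => e g).2 h.inf⟩,
      fun p hp => (Lat.lc_pow fun g _ => e g).2 (h.loc p hp)⟩⟩

theorem Lat.wn_hb (hS : ∀ p ∈ S, Gp p) (v : VZ) : Λ.Wn S n (Λ.hb (chi S) v) := by
  refine ⟨⟨Lat.zn_hb (isCh_chi S) v, fun w a b g hg => ?_, Lat.lc_hb (isCh_chi S) v⟩,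
    fun p _ => Lat.lc_hb (isCh_chi S) v⟩
  rw [Lat.hb, Lat.hh, chi_I hS b hg, (Λ.c_I a hg).1]
  simpa using dv_zero

theorem Lat.Wn.locp (hS : ∀ p ∈ S, Gp p) (h : Λ.Wn S n x) (hp : p ∈ S) :
    Dv n (x (fr p) + Λ.hh (chi S (fr p)) (fr p) *ᵥ x (tp p)) :=
  (Lat.lc_iff (hS p hp).ne.1 (hS p hp) (isCh_chi S) (chi_tp hS hp) (h.zn.mono le_top le_rfl)).1
    (h.loc p (mem_union_left _ hp))

theorem Lat.Wn.se (hS : ∀ p ∈ S, Gp p) (h : Λ.Wn S (n + 1) x) : Λ.Se S fun g => rd (x g) := by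
  refine ⟨h.zn.isCh, fun w a b g hg => rd_eq_zero.2 ((h.unr w a b g hg).mono (by omega)),
    fun p hp => ?_⟩
  have h1 := rd_eq_zero.2 ((h.locp hS hp).mono (show 1 ≤ n + 1 by omega))
  rw [rd_add, Lat.rd_hh] at h1
  rw [eq_neg_of_add_eq_zero_left h1]
  funext i
  exact CharTwo.neg_eq _

theorem Lat.WK.se (hS : ∀ p ∈ S, Gp p) (h : Λ.WK S (n + 1) φ) : Λ.Se S φ := by
  obtain ⟨x, hx, e⟩ := h
  rw [← funext e]
  exact hx.se hS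

omit [HA] in
theorem Lat.WK.mono (h : Λ.WK S n φ) (hm : m ≤ n) : Λ.WK S m φ :=
  let ⟨x, hx, e⟩ := h; ⟨x, hx.mono hm, e⟩

omit [HA] in
theorem Lat.Se.add {φ' : X2} (h : Λ.Se S φ) (h' : Λ.Se S φ') : Λ.Se S fun g => φ g + φ' g := by
  refine ⟨h.ch.add h'.ch, fun w a b g hg => ?_, fun p hp => ?_⟩
  · rw [h.unr w a b g hg, h'.unr w a b g hg, add_zero]
  · rw [h.loc p hp, h'.loc p hp, Matrix.mulVec_add, smul_add]
    abel

theorem Lat.se_hb (hS : ∀ p ∈ S, Gp p) (v : V1) :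
    Λ.Se S (fun g => Λ.cb g *ᵥ v + chi S g • v) ∧ ∀ p ∈ S, Λ.cb (tp p) *ᵥ v + chi S (tp p) • v = v := by
  constructor
  · have h := (Lat.wn_hb (Λ := Λ) (n := 0 + 1) hS (lf v)).se hS
    simpa only [Lat.hb, Lat.rd_hh, rd_lf] using h
  · intro p hp
    rw [(Λ.c_tp (hS p hp)).2, chi_tp hS hp, Matrix.zero_mulVec, zero_add, one_smul]

end Pool.Agent.P.MP_8b7eba_nt.SM
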