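import Pool.Agent.P.MP_8b7eba_nt.SM.IfG
import Pool.Agent.P.MP_8b7eba_nt.SM.BasL

/-! Proof of FINC. -/

namespace Pool.Agent.P.MP_8b7eba_nt.SM

open Finset R2
open scoped Matrix

variable [HA]

theorem t_FINC : FINC := by
  intro Λ S n hS
  obtain ⟨s, hs⟩ := BasH.dual
  refine Set.Finite.of_finite_image
    (f := fun f (i : Fin 4 ⊕ S) => f (Sum.elim s (fun p => tp p) i)) (Set.toFinite _) ?_
  rintro _ ⟨x, h1, h2, rfl⟩ _ ⟨y, h3, h4, rfl⟩ e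
  funext g
  refine rn_eq.2 ((h1.sub h3).zero_of
    {g | (∃ i, g = s i) ∨ (∃ p ∈ S, g = tp p) ∨ ∃ w : Pl, ¬ w.p ∣ 30 ∧ w.p ∉ S ∧ g ∈ w.I}
    (fun φ hφ h0 => ?_) ?_ (Subgroup.mem_top g))
  · obtain ⟨c, hc⟩ := chars hS hφ fun w a b g hg => h0 g (Or.inr (Or.inr ⟨w, a, b, hg⟩))
    have k : ∀ g, φ g = ∑ i, qz (bs i) g • c i := fun g => by
      rw [hc, sum_eq_zero (s := S) fun p hp => by
        rw [h0 _ (Or.inr (Or.inl ⟨p, hp, rfl⟩)), smul_zero], add_zero]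
    have k' : ∀ j, c j = 0 := fun j => by
      have := k (s j)
      rw [h0 _ (Or.inl ⟨j, rfl⟩)] at this
      simpa [hs] using this.symm
    intro g _
    simp [k, k']
  · rintro g (⟨i, rfl⟩ | ⟨p, hp, rfl⟩ | ⟨w, a, b, hg⟩)
    · exact rn_eq.1 (congrFun e (.inl i))
    · exact rn_eq.1 (congrFun e (.inr ⟨p, hp⟩))
    · exact (h2 w a b g hg).sub (h4 w a b g hg)

end Pool.Agent.P.MP_8b7eba_nt.SM
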