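import Pool.Agent.P.MP_8b7eba_nt.SM.IfC

/-! Proof of GENA. -/

namespace Pool.Agent.P.MP_8b7eba_nt.SM

open Finset

namespace TGENA

open Classical in
/-- the elements of a subspace -/
noncomputable def DF (D : Submodule F2 FF) : Finset FF := univ.filter (· ∈ D)

theorem mem_DF {D : Submodule F2 FF} {v : FF} : v ∈ DF D ↔ v ∈ D := by simp [DF]

theorem card_DF (D : Submodule F2 FF) : (DF D).card = Nat.card D :=
  (Nat.subtype_card (DF D) fun _ => mem_DF).symm

theorem card_le (D : Submodule F2 FF) : (Nat.card D : ℝ) ≤ 16 := by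
  rw [← card_DF]
  exact_mod_cast (card_le_univ (DF D)).trans_eq (by simp)

theorem card_pos (D : Submodule F2 FF) : (0 : ℝ) < Nat.card D := by exact_mod_cast Nat.card_pos

theorem exists_lam (D : Submodule F2 FF) {v : FF} (h : v ∉ D) :
    ∃ l : FF →ₗ[F2] F2, (∀ w ∈ D, l w = 0) ∧ l v = 1 := by
  obtain ⟨l, a, b⟩ := D.exists_dual_map_eq_bot_of_notMem h inferInstance
  have k : ∀ a : F2, a ≠ 0 → a = 1 := by decide
  exact ⟨l, fun w hw => (Submodule.mem_bot F2).1 (b ▸ Submodule.mem_map_of_mem hw), k _ a⟩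

theorem half (D : Submodule F2 FF) (φ : FF →ₗ[F2] F2) (c : F2) {v : FF} (hv : v ∈ D)
    (h : φ v = 1) : ((DF D).filter fun w => c + φ w = 0).card * 2 ≤ Nat.card D := by
  have k := card_filter_add_card_filter_not (s := DF D) fun w => c + φ w = 0
  have : ((DF D).filter fun w => c + φ w = 0).card ≤ ((DF D).filter fun w => ¬c + φ w = 0).card := by
    refine card_le_card_of_injOn (· + v) (fun w hw => ?_) fun a _ b _ e => add_right_cancel e
    simp only [coe_filter, Set.mem_ofPred_eq, mem_DF] at hw ⊢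
    refine ⟨D.add_mem hw.1 hv, ?_⟩
    rw [map_add, ← add_assoc, hw.2, h]
    decide
  rw [card_DF] at k
  omega

theorem fib {A B : Type} (T : Finset (A × B)) (U : Finset A) (β : ℝ) (h : ∀ s ∈ T, s.1 ∈ U)
    (k : ∀ (a : A) (V : Finset B), (∀ b ∈ V, (a, b) ∈ T) → (V.card : ℝ) ≤ β) :
    (T.card : ℝ) ≤ U.card * β := by
  classical
  rw [card_eq_sum_card_fiberwise (f := Prod.fst) h, Nat.cast_sum, ← nsmul_eq_mul]
  refine sum_le_card_nsmul _ _ _ fun a _ => ?_
  rw [← card_image_of_injOn (f := Prod.snd) fun s hs t ht e =>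
    Prod.ext ((mem_filter.1 hs).2.trans (mem_filter.1 ht).2.symm) e]
  refine k a _ fun b hb => ?_
  obtain ⟨s, hs, rfl⟩ := mem_image.1 hb
  obtain ⟨h1, rfl⟩ := mem_filter.1 hs
  exact h1

variable {I σ : Type} [Fintype I] [Fintype σ] (m : Mod I σ)

/-- feasible pairs -/
def Fe (D : Submodule F2 FF) (s : (Fin 4 ⊕ σ → FF) × (I → FF)) : Prop :=
  (∀ i, s.2 i ∈ D) ∧ (∀ i, ∑ b, m.κ i b • s.1 b + ∑ b, m.κ i (.inl b) • m.C b (s.2 i) ∈ D) ∧
    ∀ q, ∑ i, m.κ i (.inr q) • s.2 i = m.ϑ q s.1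

theorem fe {i₀ : I} {x : I → I → F2} {s : (Fin 4 ⊕ σ → FF) × (I → FF)}
    (h : m.Sol i₀ x s.1 s.2) : Fe m (Submodule.span F2 (Set.range s.2)) s := by
  have k : ∀ i, s.2 i ∈ Submodule.span F2 (Set.range s.2) := fun i => Submodule.subset_span ⟨i, rfl⟩
  refine ⟨k, fun i => ?_, h.2.2⟩
  have e : ∑ b, m.κ i b • s.1 b + ∑ b, m.κ i (.inl b) • m.C b (s.2 i) =
      -(∑ j, x i j • (s.2 j + s.2 i) + (∑ q, m.κ i (.inr q)) • s.2 i) := by
    rw [eq_neg_iff_add_eq_zero, ← h.2.1 i]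
    abel
  rw [e]
  exact neg_mem (add_mem (sum_mem fun j _ => Submodule.smul_mem _ _ (add_mem (k j) (k i)))
    (Submodule.smul_mem _ _ (k i)))

theorem main [DecidableEq I] (hRANK : RANK) (i₀ : I) (w : I → I → F2)
    (P : (Fin 4 ⊕ σ → FF) × (I → FF) → Prop)
    (S : (I → I → F2) → Finset ((Fin 4 ⊕ σ → FF) × (I → FF)))
    (hS : ∀ x, ∀ s ∈ S x, m.Sol i₀ (x + w) s.1 s.2 ∧ P s) (β : ℝ)
    (hβ : ∀ (D : Submodule F2 FF) (T : Finset ((Fin 4 ⊕ σ → FF) × (I → FF))),
      (∀ s ∈ T, Submodule.span F2 (Set.range s.2) = D ∧ Fe m D s ∧ P s) →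
      (T.card : ℝ) ≤ β * Nat.card D ^ Fintype.card I) :
    ∑ x ∈ Sy I, ((S x).card : ℝ) ≤
      Nat.card (Submodule F2 FF) * (16 ^ 16 * (Sy I).card * β) := by
  classical
  have := Fintype.ofFinite (Submodule F2 FF)
  let T := fun D : Submodule F2 FF => univ.filter fun s : (Fin 4 ⊕ σ → FF) × (I → FF) =>
    Submodule.span F2 (Set.range s.2) = D ∧ Fe m D s ∧ P s
  have h1 : ∀ x, (S x).card ≤ ∑ D, ((T D).filter fun s => m.Sol i₀ (x + w) s.1 s.2).card :=
    fun x => by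
    refine le_trans (card_le_card fun s hs => ?_) card_biUnion_le
    exact mem_biUnion.2 ⟨Submodule.span F2 (Set.range s.2), mem_univ _, mem_filter.2
      ⟨mem_filter.2 ⟨mem_univ _, rfl, fe m (hS x s hs).1, (hS x s hs).2⟩, (hS x s hs).1⟩⟩
  refine (sum_le_sum fun x _ => Nat.cast_le.2 (h1 x)).trans ?_
  simp only [Nat.cast_sum]
  rw [sum_comm, Nat.card_eq_fintype_card, ← card_univ, ← nsmul_eq_mul]
  refine sum_le_card_nsmul _ _ _ fun D _ => ?_
  have p : (0 : ℝ) < Nat.card D ^ Fintype.card I := pow_pos (card_pos D) _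
  have h2 : ∀ s ∈ T D, (((Sy I).filter fun x => m.Sol i₀ (x + w) s.1 s.2).card : ℝ) ≤
      16 ^ 16 * (Sy I).card / Nat.card D ^ Fintype.card I := fun s hs => by
    rw [le_div_iff₀ p, ← (mem_filter.1 hs).2.1]
    by_cases e : s.2 i₀ = 0
    · refine le_trans (mul_le_mul_of_nonneg_right (Nat.cast_le.2 (card_le_card fun x hx => ?_))
        (by positivity)) (mod_cast hRANK I s.2 (fun i => -(∑ j, w i j • (s.2 j + s.2 i) +
          ∑ b, m.κ i b • s.1 b + (∑ q, m.κ i (.inr q)) • s.2 i +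
          ∑ b, m.κ i (.inl b) • m.C b (s.2 i))) i₀ e)
      rw [mem_filter] at hx ⊢
      refine ⟨hx.1, fun i => ?_⟩
      rw [eq_neg_iff_add_eq_zero, ← hx.2.2.1 i]
      simp only [Pi.add_apply, add_smul, sum_add_distrib]
      abel
    · rw [filter_false_of_mem fun x _ hx => e hx.1, card_empty, Nat.cast_zero, zero_mul]
      positivity
  have h3 : ∑ x ∈ Sy I, (((T D).filter fun s => m.Sol i₀ (x + w) s.1 s.2).card : ℝ) =
      ∑ s ∈ T D, (((Sy I).filter fun x => m.Sol i₀ (x + w) s.1 s.2).card : ℝ) := by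
    simp only [card_filter, Nat.cast_sum]
    exact sum_comm
  refine h3.trans_le ((sum_le_card_nsmul _ _ _ h2).trans ?_)
  rw [nsmul_eq_mul]
  refine (mul_le_mul_of_nonneg_right (hβ D _ fun s hs => (mem_filter.1 hs).2)
    (by positivity)).trans_eq ?_
  field_simp

variable {m} {J₀ : Finset I} {D : Submodule F2 FF}

theorem sta (h1 : ∀ e : Fin 4 ⊕ σ → F2, e ≠ 0 → ∃ i ∈ J₀, ∑ b, m.κ i b * e b = 1)
    (hD : ∀ b, ∀ v ∈ D, m.C b v ∈ D) {s : (Fin 4 ⊕ σ → FF) × (I → FF)} (h : Fe m D s)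
    (b : Fin 4 ⊕ σ) : s.1 b ∈ D := by
  by_contra hb
  obtain ⟨l, l0, l1⟩ := exists_lam D hb
  obtain ⟨i, _, hi⟩ := h1 (fun b => l (s.1 b)) fun e => one_ne_zero (l1.symm.trans (congrFun e b))
  have := l0 _ ((D.add_mem_iff_left
    (sum_mem fun b _ => D.smul_mem _ (hD b _ (h.1 i)))).1 (h.2.1 i))
  simp only [map_sum, map_smul, smul_eq_mul] at this
  exact one_ne_zero (hi.symm.trans this)

theorem cntA (hPAT1 : PAT1)
    (h1 : ∀ e : Fin 4 ⊕ σ → F2, e ≠ 0 → ∃ i ∈ J₀, ∑ b, m.κ i b * e b = 1)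
    (hD : ∀ b, ∀ v ∈ D, m.C b v ∈ D) {J : Finset I} (hJ : Disjoint J J₀) {v : FF} (hv : v ∈ D)
    (T : Finset ((Fin 4 ⊕ σ → FF) × (I → FF))) (hT : ∀ s ∈ T, Fe m D s ∧ ∀ i ∈ J, s.2 i ≠ v) :
    (T.card : ℝ) ≤ 16 ^ 4 * ((15 / 16) ^ J.card * Nat.card D ^ Fintype.card I) := by
  classical
  have p := card_pos D
  refine (fib T (Fintype.piFinset fun _ => DF D)
    ((15 / 16) ^ J.card * Nat.card D ^ Fintype.card I / Nat.card D ^ Fintype.card σ)
    (fun s hs => Fintype.mem_piFinset.2 fun b => mem_DF.2 (sta h1 hD (hT s hs).1 b))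
    fun a V hV => ?_).trans ?_
  · rw [le_div_iff₀ (by positivity)]
    refine le_trans (mul_le_mul_of_nonneg_right (Nat.cast_le.2 (card_le_card fun R hR => ?_))
      (by positivity)) (hPAT1 I σ (fun i q => m.κ i (.inr q)) J₀ J D (fun q => m.ϑ q a) v
        (fun e he => ?_) hJ hv)
    · rw [mem_filter]
      exact ⟨mem_univ _, (hT _ (hV R hR)).1.1, (hT _ (hV R hR)).1.2.2, (hT _ (hV R hR)).2⟩
    · simpa using h1 (Sum.elim 0 e) fun k => he (funext fun q => congrFun k (.inr q))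
  · rw [Fintype.card_piFinset, prod_const, card_univ, card_DF, Fintype.card_sum, Fintype.card_fin,
      pow_add]
    push_cast
    rw [mul_assoc, mul_div_cancel₀ _ (by positivity)]
    gcongr
    exact card_le D

theorem cntB {N : ℕ}
    (h2 : ∀ e : Fin 4 → F2, e ≠ 0 → N ≤ (univ.filter fun i => ∑ b, m.κ i (.inl b) * e b = 1).card)
    (hD : ¬∀ b, ∀ v ∈ D, m.C b v ∈ D) (T : Finset ((Fin 4 ⊕ σ → FF) × (I → FF)))
    (hT : ∀ s ∈ T, Fe m D s) :
    (T.card : ℝ) ≤ 16 ^ 4 * (16 ^ Fintype.card σ / 2 ^ N * Nat.card D ^ Fintype.card I) := by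
  classical
  simp only [not_forall] at hD
  obtain ⟨b₀, v, hv, hb⟩ := hD
  obtain ⟨l, l0, l1⟩ := exists_lam D hb
  have hN := h2 (fun b => l (m.C b v)) fun e => one_ne_zero (l1.symm.trans (congrFun e b₀))
  refine (fib T univ (Nat.card D ^ Fintype.card I / 2 ^ N) (fun _ _ => mem_univ _)
    fun a V hV => ?_).trans_eq ?_
  · rw [le_div_iff₀ (by positivity)]
    let W := fun i => (DF D).filter fun w => l (∑ b, m.κ i b • a b) +
      (l ∘ₗ ∑ b, m.κ i (.inl b) • m.C b) w = 0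
    have k1 : V.card ≤ ∏ i, (W i).card := by
      rw [← Fintype.card_piFinset]
      refine card_le_card fun R hR => Fintype.mem_piFinset.2 fun i => mem_filter.2
        ⟨mem_DF.2 ((hT _ (hV R hR)).1 i), ?_⟩
      simpa only [map_add, LinearMap.comp_apply, LinearMap.sum_apply, LinearMap.smul_apply] using
        l0 _ ((hT _ (hV R hR)).2.1 i)
    have k2 : 2 ^ N ≤ ∏ i, if ∑ b, m.κ i (.inl b) * l (m.C b v) = 1 then 2 else 1 := by
      rw [← prod_filter, prod_const]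
      exact Nat.pow_le_pow_right two_pos hN
    have k3 := Nat.mul_le_mul k1 k2
    rw [← prod_mul_distrib] at k3
    refine mod_cast k3.trans (prod_le_pow_card _ _ _ fun i _ => ?_)
    split_ifs with e
    · refine half D _ _ hv ?_
      simpa only [LinearMap.comp_apply, LinearMap.sum_apply, LinearMap.smul_apply, map_sum,
        map_smul, smul_eq_mul] using e
    · rw [mul_one, ← card_DF]
      exact card_filter_le _ _
  · have : Fintype.card FF = 16 := by simp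
    rw [card_univ, Fintype.card_fun, this, Fintype.card_sum, Fintype.card_fin]
    push_cast
    ring

end TGENA

open Classical TGENA in
/-- the statement `GENA` with an arbitrary shift `w` of the matrix -/
theorem t_GENAw (hRANK : RANK) (hPAT1 : PAT1) :
    ∃ c : ℝ, 0 < c ∧ ∀ (I σ τ : Type) [Fintype I] [DecidableEq I] [Fintype σ] [Fintype τ]
    (m : Mod I σ) (i₀ : I) (w : I → I → F2) (J₀ : Finset I) (J : τ → Finset I) (l N : ℕ),
    (∀ e : Fin 4 ⊕ σ → F2, e ≠ 0 → ∃ i ∈ J₀, ∑ b, m.κ i b * e b = 1) →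
    (∀ e : Fin 4 → F2, e ≠ 0 → N ≤ (univ.filter fun i => ∑ b, m.κ i (.inl b) * e b = 1).card) →
    (∀ t, l ≤ (J t).card ∧ Disjoint (J t) J₀) →
    ∑ x ∈ Sy I, ((univ.filter fun s : (Fin 4 ⊕ σ → FF) × (I → FF) =>
      m.Sol i₀ (x + w) s.1 s.2).card : ℝ) ≤ c * (Sy I).card * (1 + 16 ^ Fintype.card σ / 2 ^ N) ∧
    ∑ x ∈ Sy I, ((univ.filter fun s : (Fin 4 ⊕ σ → FF) × (I → FF) =>
      m.Sol i₀ (x + w) s.1 s.2 ∧ ¬ m.Typ J s.1 s.2).card : ℝ) ≤
      c * (Sy I).card * (Fintype.card τ * (15 / 16) ^ l + 16 ^ Fintype.card σ / 2 ^ N) := by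
  have c0 : (0 : ℝ) < Nat.card (Submodule F2 FF) := mod_cast Nat.card_pos
  refine ⟨Nat.card (Submodule F2 FF) * 16 ^ 16 * 16 ^ 5, by positivity,
    fun I σ τ _ _ _ _ m i₀ w J₀ J l N h1 h2 h3 => ⟨?_, ?_⟩⟩
  · refine (main m hRANK i₀ w (fun _ => True) _ (fun x s hs => ?_)
      (16 ^ 5 * (1 + 16 ^ Fintype.card σ / 2 ^ N)) fun D T hT => ?_).trans_eq (by ring)
    · rw [mem_filter] at hs
      exact ⟨hs.2, trivial⟩
    · have p : (0 : ℝ) < Nat.card D ^ Fintype.card I := pow_pos (card_pos D) _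
      have q : (0 : ℝ) ≤ 16 ^ Fintype.card σ / 2 ^ N * Nat.card D ^ Fintype.card I := by positivity
      by_cases hD : ∀ b, ∀ v ∈ D, m.C b v ∈ D
      · have := cntA hPAT1 h1 hD (disjoint_empty_left J₀) D.zero_mem T
          fun s hs => ⟨(hT s hs).2.1, by simp⟩
        rw [card_empty, pow_zero] at this
        linarith
      · linarith [cntB h2 hD T fun s hs => (hT s hs).2.1]
  · refine (main m hRANK i₀ w (fun s => ¬m.Typ J s.1 s.2) _ (fun x s hs => ?_)
      (16 ^ 5 * (Fintype.card τ * (15 / 16) ^ l + 16 ^ Fintype.card σ / 2 ^ N))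
      fun D T hT => ?_).trans_eq (by ring)
    · rw [mem_filter] at hs
      exact hs.2
    · have p : (0 : ℝ) ≤ Fintype.card τ * ((15 / 16) ^ l * Nat.card D ^ Fintype.card I) := by
        positivity
      have q : (0 : ℝ) ≤ 16 ^ Fintype.card σ / 2 ^ N * Nat.card D ^ Fintype.card I := by positivity
      by_cases hD : ∀ b, ∀ v ∈ D, m.C b v ∈ D
      · have k1 : T.card ≤ ∑ z ∈ (univ : Finset τ) ×ˢ DF D,
            (T.filter fun s => ∀ i ∈ J z.1, s.2 i ≠ z.2).card := by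
          refine le_trans (card_le_card fun s hs => ?_) card_biUnion_le
          obtain ⟨rfl, f, g⟩ := hT s hs
          by_contra e
          refine g ⟨hD, sta h1 hD f, fun t v hv => ?_⟩
          by_contra! e'
          exact e (mem_biUnion.2 ⟨(t, v), mk_mem_product (mem_univ _) (mem_DF.2 hv),
            mem_filter.2 ⟨hs, e'⟩⟩)
        have k2 : (T.card : ℝ) ≤ ((univ : Finset τ) ×ˢ DF D).card •
            (16 ^ 4 * ((15 / 16 : ℝ) ^ l * Nat.card D ^ Fintype.card I)) := by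
          refine (Nat.cast_le.2 k1).trans ?_
          rw [Nat.cast_sum]
          refine sum_le_card_nsmul _ _ _ fun z hz => (cntA hPAT1 h1 hD (h3 z.1).2
            (mem_DF.1 (mem_product.1 hz).2) _ fun s hs =>
              ⟨(hT s (mem_filter.1 hs).1).2.1, (mem_filter.1 hs).2⟩).trans ?_
          exact mul_le_mul_of_nonneg_left (mul_le_mul_of_nonneg_right
            (pow_le_pow_of_le_one (by norm_num) (by norm_num) (h3 z.1).1) (by positivity))
            (by positivity)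
        rw [nsmul_eq_mul, card_product, card_univ, card_DF, Nat.cast_mul] at k2
        linarith [mul_le_mul_of_nonneg_right (card_le D) p]
      · linarith [cntB h2 hD T fun s hs => (hT s hs).2.1]

theorem t_GENA (hRANK : RANK) (hPAT1 : PAT1) : GENA := t_GENAw hRANK hPAT1

end Pool.Agent.P.MP_8b7eba_nt.SM
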