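import Pool.Agent.P.MP_8b7eba_nt.SM.BasH
import Pool.Agent.P.MP_8b7eba_nt.R2.LC

/-! Local invariants and the reciprocity law. -/

namespace Pool.Agent.P.MP_8b7eba_nt.SM

open Finset R2

variable [HA] {p : ℕ} {w : Pl} {κ κ' : GQ → GQ → F2} {φ φ' l : X2} {S : Finset ℕ}

theorem BasN.unr (h : Co2 w.D (sgn κ))
    (e : ∀ g ∈ w.D, ∀ h ∈ w.D, ∀ i ∈ w.I, κ (g * i) h = κ g h ∧ κ g (h * i) = κ g h) :
    Triv w.D (sgn κ) :=
  hA.unr w w.D w.loc_D 1 _ h (fun _ _ _ _ => LC.e_sq _) fun g hg k hk i hi =>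
    ⟨LC.e_inj.2 (e g hg k hk i hi.1).1, LC.e_inj.2 (e g hg k hk i hi.1).2, LC.e_gal _ _⟩

omit [HA] in
theorem BasN.zero (e : ∀ g ∈ (pl p).D, ∀ h ∈ (pl p).D, κ g h = 0) : iv p κ = 0 :=
  if_pos (Triv.one.congr fun g hg k hk => by simp [sgn, e g hg k hk])

omit [HA] in
theorem BasN.e_sum {ι : Type} (s : Finset ι) (c : ι → F2) :
    (-1 : Om) ^ (∑ i ∈ s, c i).val = ∏ i ∈ s, (-1) ^ (c i).val := by
  classical
  induction s using Finset.induction_on with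
  | empty => simp
  | insert a s ha ih => rw [sum_insert ha, prod_insert ha, LC.e_add, ih]

theorem triv_d2_unr (hφ : IsCh w.D φ) (hφ' : IsCh w.D φ') (h0 : ∀ g ∈ w.I, φ g = 0 ∧ φ' g = 0) :
    Triv w.D (sgn (d2 φ φ')) := by
  refine BasN.unr (co2_d2 hφ hφ') fun g hg h hh i hi => ?_
  simp only [d2]
  rw [hφ.2 g hg i (w.I_le_D hi), hφ'.2 h hh i (w.I_le_D hi), (h0 i hi).1, (h0 i hi).2]
  simp

theorem nv_iv (h : Co2 (pl p).D (sgn κ)) : nv (pl p) (pl p).D (sgn κ) = (-1) ^ (iv p κ).val := by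
  unfold iv
  split_ifs with t
  · simpa using (nv_sgn hA h).2.2 t
  · simpa [LC.v1] using (nv_sgn hA h).1.resolve_left fun e => t ((nv_sgn hA h).2.1 e)

omit [HA] in
theorem iv_congr (e : ∀ g ∈ (pl p).D, ∀ h ∈ (pl p).D, κ' g h = κ g h) : iv p κ' = iv p κ := by
  have h : Triv (pl p).D (sgn κ') ↔ Triv (pl p).D (sgn κ) :=
    ⟨fun h => h.congr fun g hg k hk => sgn_inj.2 (e g hg k hk).symm,
      fun h => h.congr fun g hg k hk => sgn_inj.2 (e g hg k hk)⟩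
  unfold iv
  rw [h]

theorem iv_add (h : Co2 (pl p).D (sgn κ)) (h' : Co2 (pl p).D (sgn κ')) :
    iv p (κ + κ') = iv p κ + iv p κ' := by
  have h2 : Co2 (pl p).D (sgn (κ + κ')) := sgn_add κ κ' ▸ h.mul h'
  rw [← LC.e_inj, ← nv_iv h2, LC.e_add, ← nv_iv h, ← nv_iv h', sgn_add]
  exact (hA.inv _ _ (pl p).loc_D).mul _ _ h.sgnT h'.sgnT

theorem iv_d2_add (hl : IsCh (pl p).D l) (hφ' : IsCh (pl p).D φ') (hφ : IsCh (pl p).D φ) :
    iv p (d2 (fun g => l g + φ' g) φ) = iv p (d2 l φ) + iv p (d2 φ' φ) := by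
  rw [← iv_add (co2_d2 hl hφ) (co2_d2 hφ' hφ)]
  refine iv_congr fun g _ h _ => ?_
  simp only [d2, Pi.add_apply]
  ring

theorem iv_d2_sum {ι : Type} {s : Finset ι} {c : ι → F2} {f : ι → X2}
    (hf : ∀ i ∈ s, c i ≠ 0 → IsCh (pl p).D (f i)) (hφ : IsCh (pl p).D φ) :
    iv p (d2 (fun g => ∑ i ∈ s, c i • f i g) φ) = ∑ i ∈ s, c i * iv p (d2 (f i) φ) := by
  classical
  have key : ∀ i ∈ s, IsCh (pl p).D fun g => c i • f i g := fun i hi => by
    rcases LC.cases (c i) with e | e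
    · exact ⟨(Sm.const 0).congr fun g _ => by simp [e], fun g _ h _ => by simp [e]⟩
    · simpa [e] using hf i hi (by rw [e]; exact one_ne_zero)
  clear hf
  induction s using Finset.induction_on with
  | empty => exact BasN.zero fun g _ h _ => by simp [d2]
  | insert a s ha ih =>
    simp only [sum_insert ha]
    rw [iv_d2_add (key a (by simp)) (IsCh.sum fun i hi => key i (by simp [hi])) hφ,
      ih fun i hi => key i (by simp [hi])]
    congr 1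
    rcases LC.cases (c a) with e | e
    · rw [e, zero_mul]
      exact BasN.zero fun g _ h _ => by simp [d2]
    · simp [e]

omit [HA] in
theorem iv_d2_zero (h : ∀ g ∈ (pl p).D, φ g = 0) : iv p (d2 l φ) = 0 :=
  BasN.zero fun g _ k hk => by simp [d2, h k hk]

theorem BasN.ram {b : GQ → F2} (hp : p.Prime) (h2 : p ≠ 2) (hb : IsCh (pl p).D b)
    (hu : ∀ g ∈ (pl p).I, b g = 0) : iv p (fun g h => b g * qs p h) = b (fr p) := by
  have h1 := co2_cup hb (isCh_qs (H := (pl p).D) p)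
  obtain ⟨m, hm, e⟩ : ∃ m : ℤ, IsUnit m ∧ ps p = (pl p).p * m := by
    rw [pl_p hp, ps]
    split_ifs
    exacts [⟨1, isUnit_one, by simp⟩, ⟨-1, isUnit_one.neg, by simp⟩]
  rw [← LC.e_inj, ← nv_iv h1, hA.inv2.1 _ _ _ _ (pl p).loc_D h1.sgnT (co2_cup (isCh_qs p) hb)
    (triv_swap hb (isCh_qs p)), qs, e]
  exact nv_ram hB (by rwa [pl_p hp]) (fun d => (Nat.prime_iff_prime_int.1 (pl p).prime).not_isUnit
    (isUnit_of_dvd_unit d hm)) hb hu (fr_frob hp h2)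

theorem BasN.cup {b c : GQ → F2} (hp : p.Prime) (h2 : p ≠ 2) (hb : IsCh (pl p).D b)
    (hc : IsCh (pl p).D c) (hu : ∀ g ∈ (pl p).I, b g = 0) :
    iv p (fun g h => b g * c h) = b (fr p) * c (tp p) := by
  have h1 : IsCh (pl p).D fun g => qs p g • c (tp p) := (isCh_qs p).smul _
  have h3 := hc.add h1
  have e : (fun g h => b g * c h) = (fun g h => b g * (c h + qs p h • c (tp p))) +
      fun g h => b g * (qs p h • c (tp p)) := by
    funext g h
    simp only [Pi.add_apply]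
    rw [← mul_add, add_assoc, LC.two, add_zero]
  have h4 : iv p (fun g h => b g * (c h + qs p h • c (tp p))) = 0 := by
    refine if_pos (BasN.unr (co2_cup hb h3) fun g hg h hh i hi => ?_)
    have h5 := h3.2 h hh i ((pl p).I_le_D hi)
    beta_reduce at h5 ⊢
    rw [hb.2 g hg i ((pl p).I_le_D hi), hu i hi, h5,
      ← ch_I hp h2 (hc.mono (pl p).I_le_D) hi, LC.two]
    simp
  rw [e, iv_add (co2_cup hb h3) (co2_cup hb h1), h4, zero_add]
  rcases LC.cases (c (tp p)) with e | e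
  · rw [e, mul_zero]
    exact BasN.zero fun g _ h _ => by simp
  · simpa [e] using BasN.ram hp h2 hb hu

theorem iv_d2_unr (hp : p.Prime) (h2 : p ≠ 2) (hl : IsCh (pl p).D l) (hφ : IsCh (pl p).D φ)
    (hu : ∀ g ∈ (pl p).I, l g = 0) : iv p (d2 l φ) = ee (l (fr p)) (φ (tp p)) := by
  have e : d2 l φ = (fun g h => l g 0 * φ h 1) + fun g h => l g 1 * φ h 0 := rfl
  rw [e, iv_add (co2_cup (LC.ch hl 0) (LC.ch hφ 1)) (co2_cup (LC.ch hl 1) (LC.ch hφ 0)),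
    BasN.cup hp h2 (LC.ch hl 0) (LC.ch hφ 1) fun g hg => by simp [hu g hg],
    BasN.cup hp h2 (LC.ch hl 1) (LC.ch hφ 0) fun g hg => by simp [hu g hg]]
  rfl

theorem recp {f : GQ → GQ → Om} (hS : ∀ p ∈ S, p.Prime) (hf : Co2T ⊤ f) (ht : Triv Ht f)
    (ho : ∀ w : Pl, w.p ∉ S → Triv w.D f) : ∏ p ∈ S, nv (pl p) (pl p).D f = 1 := by
  classical
  have h := hA.recq f (S.image pl) hf (fun w hw u _ hu => ?_) fun w hw => ho w fun hp => ?_
  · rwa [nvR, if_pos ht, one_mul, prod_image fun p hp q hq e => by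
      rw [← pl_p (hS p hp), e, pl_p (hS q hq)]] at h
  · obtain ⟨p, hp, rfl⟩ := mem_image.1 (mem_coe.1 hw)
    obtain ⟨q, hq, e⟩ := mem_image.1 (mem_coe.1 hu)
    have e' := congrArg Pl.p e
    rw [Pl.smul_p, pl_p (hS p hp), pl_p (hS q hq)] at e'
    rw [← e, e']
  · obtain ⟨σ, e⟩ := exists_smul w
    refine hw σ⁻¹ trivial (mem_coe.2 (mem_image.2 ⟨w.p, hp, ?_⟩))
    rw [eq_inv_smul_iff, e]

theorem recp_iv (hS : ∀ p ∈ S, p.Prime) (hf : Co2 ⊤ (sgn κ)) (ht : Triv Ht (sgn κ))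
    (ho : ∀ w : Pl, w.p ∉ S → Triv w.D (sgn κ)) : ∑ p ∈ S, iv p κ = 0 := by
  have h := recp hS hf.sgnT ht ho
  rw [prod_congr rfl fun p _ => nv_iv (hf.mono le_top), ← BasN.e_sum] at h
  exact LC.e_inj.1 (h.trans (by simp))

end Pool.Agent.P.MP_8b7eba_nt.SM
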