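import Pool.Agent.P.MP_8b7eba_nt.SM.IfG
import Pool.Agent.P.MP_8b7eba_nt.SM.BasL
import Pool.Agent.P.MP_8b7eba_nt.SM.BasN

/-! Proof of GLIFT. -/

namespace Pool.Agent.P.MP_8b7eba_nt.SM

open Finset R2
open scoped Matrix

namespace TGLIFT

open BasZ

variable {n : ℕ} {u v : VZ} {H : Subgroup GQ} {ψ : GQ → F2} {Λ : Lat} {x y b : GQ → VZ} {o : Prop}
  {k : GQ → GQ → VZ}

/-- the canonical lift of the reduction -/
noncomputable def lv (n : ℕ) (v : VZ) : VZ := fun i => ((rn n v i).val : Z2)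

theorem dv_lv (n : ℕ) (v : VZ) : Dv n (lv n v - v) := by
  rw [← rn_eq]
  funext i
  have : NeZero (2 ^ n) := ⟨pow_ne_zero _ two_ne_zero⟩
  show PadicInt.toZModPow n (((rn n v i).val : ℕ) : Z2) = rn n v i
  rw [map_natCast, ZMod.natCast_zmod_val]

theorem lv_eq (h : Dv n (u - v)) : lv n u = lv n v := by
  unfold lv
  rw [rn_eq.2 h]

theorem lv_zero (h : Dv n u) : lv n u = 0 := by
  rw [lv_eq (v := 0) (by rwa [sub_zero])]
  funext i
  simp [lv, rn]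

theorem cancel (h : (2 : Z2) ^ n • u = (2 : Z2) ^ n • v) : u = v :=
  smul_right_injective VZ (pow_ne_zero _ BasY.two_ne) h

theorem rd_of (h : Dv (n + 1) ((2 : Z2) ^ n • u - (2 : Z2) ^ n • v)) : rd u = rd v := by
  rwa [← smul_sub, dv_pow, ← rd_eq] at h

theorem rd_zero : rd 0 = 0 := rd_eq_zero.2 dv_zero

theorem lf_zero : lf 0 = 0 := by
  funext i
  simp [lf]

theorem two (a : V1) : a + a = 0 := funext fun _ => CharTwo.add_self_eq_zero _

theorem co2 (hψ : IsCh ⊤ ψ) (hx : Sm ⊤ x)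
    (hk : ∀ g h, x (g * h) - x g - Λ.rt ψ g *ᵥ x h = (2 : Z2) ^ n • k g h) (i : Fin 2) :
    Co2 ⊤ (sgn fun g h => rd (k g h) i) := by
  obtain ⟨N, hN, e⟩ := hx
  obtain ⟨N', hN', e'⟩ := Λ.sm_rt hψ (n + 1)
  refine co2_sgn.2 ⟨⟨N ⊓ N', hN.inf hN', fun g _ h _ m _ hm => ⟨?_, ?_⟩⟩, fun g _ h _ l _ => ?_⟩
  · refine congrFun (rd_of (n := n) ?_) i
    have e1 : x (g * m * h) = x (g * h) := by
      rw [show g * m * h = g * h * (h⁻¹ * m * h) by group]
      exact e _ trivial _ trivial (hN.1.conj_mem' m hm.1 h)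
    rw [← hk, ← hk, e1, e g trivial m trivial hm.1, Lat.rt_mul hψ trivial trivial]
    refine of_eq ((e' m trivial hm.2 (x h)).mulVec (Λ.rt ψ g)).neg ?_
    rw [Matrix.mulVec_sub, Matrix.mulVec_mulVec]
    abel
  · refine congrFun (congrArg rd (cancel (n := n) ?_)) i
    rw [← hk, ← hk, ← mul_assoc, e _ trivial m trivial hm.1, e _ trivial m trivial hm.1]
  · have e1 : Λ.rt ψ g *ᵥ k h l + k g (h * l) = k (g * h) l + k g h := by
      refine cancel (n := n) ?_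
      rw [smul_add, smul_add, ← Matrix.mulVec_smul, ← hk, ← hk, ← hk, ← hk,
        Lat.rt_mul hψ trivial trivial, Matrix.mulVec_sub, Matrix.mulVec_sub, Matrix.mulVec_mulVec,
        mul_assoc]
      abel
    have e2 := congrArg rd e1
    rw [rd_add, rd_add, Lat.rd_rt] at e2
    exact congrFun e2 i

theorem loc (hx : Sm H x) (hb : ∀ m, Λ.Zn ψ H m b) (e : ∀ g ∈ H, Dv n (x g - b g))
    (hk : ∀ g h, x (g * h) - x g - Λ.rt ψ g *ᵥ x h = (2 : Z2) ^ n • k g h) :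
    ∃ l : X2, Sm H l ∧ ∀ g ∈ H, ∀ h ∈ H, l (g * h) = l g + l h + rd (k g h) := by
  choose! u hu using fun g hg => dv_iff.1 (e g hg)
  obtain ⟨N, hN, e1⟩ := hx
  obtain ⟨⟨N', hN', e2⟩, -⟩ := zn_iff.1 (hb (n + 1))
  refine ⟨fun g => rd (u g), ⟨N ⊓ N', hN.inf hN', fun g hg m hm hN => rd_of (n := n) ?_⟩,
    fun g hg h hh => ?_⟩
  · rw [← hu _ (mul_mem hg hm), ← hu g hg, e1 g hg m hm hN.1]
    exact of_eq (e2 g hg m hm hN.2).neg (by abel)
  · have e3 : u (g * h) = u g + Λ.rt ψ g *ᵥ u h + k g h := by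
      refine cancel (n := n) ?_
      rw [smul_add, smul_add, ← Matrix.mulVec_smul, ← hk, ← hu _ (mul_mem hg hh), ← hu g hg,
        ← hu h hh, Lat.Zn.exact hb hg hh, Matrix.mulVec_sub]
      abel
    show rd (u (g * h)) = _
    rw [e3, rd_add, rd_add, Lat.rd_rt]

theorem loc2 (hy : Λ.Zn ψ H (n + 1) y) (h : Λ.Lc o ψ H n y) :
    ∃ l : X2, IsCh H l ∧ Λ.Lc o ψ H (n + 1) fun g => y g - (2 : Z2) ^ n • lf (l g) := by
  obtain ⟨b, hb, e⟩ := h
  choose! u hu using fun g hg => dv_iff.1 (e g hg)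
  refine ⟨fun g => rd (u g), Lat.zn_one.1 ((Lat.zn_pow hu).1 (hy.sub (hb.1 _))), b, hb,
    fun g hg => of_eq (dv_lf.2 ⟨u g, hu g hg, rfl⟩) (sub_right_comm ..)⟩

theorem zero (hx : Λ.Zn ψ ⊤ n x) {i : GQ} (h0 : Dv n (x i)) (h1 : Λ.rt ψ i = 1)
    (hk : ∀ g h, lv n (x (g * h)) - lv n (x g) - Λ.rt ψ g *ᵥ lv n (x h) = (2 : Z2) ^ n • k g h)
    (g : GQ) : rd (k g i) = 0 ∧ rd (k i g) = 0 := by
  constructor
  · have e : lv n (x (g * i)) = lv n (x g) :=
      lv_eq (of_eq ((hx.co g trivial i trivial).add (h0.mulVec (Λ.rt ψ g))) (by abel))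
    have e2 : k g i = 0 := by
      refine cancel (n := n) ?_
      rw [← hk, e, lv_zero h0]
      simp
    rw [e2, rd_zero]
  · have e : lv n (x (i * g)) = lv n (x g) :=
      lv_eq (of_eq ((hx.co i trivial g trivial).add h0) (by rw [h1, Matrix.one_mulVec]; abel))
    have e2 : k i g = 0 := by
      refine cancel (n := n) ?_
      rw [← hk, e, lv_zero h0, h1]
      simp
    rw [e2, rd_zero]

theorem dvd_n {S : Finset ℕ} (hS : ∀ p ∈ S, Gp p) {p : ℕ} (hp : p.Prime) :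
    (p : ℤ) ∣ ((30 * ∏ q ∈ S, q : ℕ) : ℤ) ↔ p ∣ 30 ∨ p ∈ S := by
  rw [Int.natCast_dvd_natCast, hp.dvd_mul, hp.prime.dvd_finsetProd_iff]
  refine or_congr_right ⟨?_, fun h => ⟨p, h, dvd_rfl⟩⟩
  rintro ⟨q, hq, e⟩
  rwa [(Nat.prime_dvd_prime_iff_eq hp (hS q hq).1).1 e]

variable [HA]

theorem step {S : Finset ℕ} (hS : ∀ p ∈ S, Gp p) (h : Λ.Wn S n x) :
    ∃ y, Λ.Zn (chi S) ⊤ (n + 1) y ∧ (∀ g, Dv n (y g - x g)) ∧
      ∀ w : Pl, ¬ w.p ∣ 30 → w.p ∉ S → ∀ g ∈ w.I, y g = 0 := by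
  have hψ : IsCh ⊤ (chi S) := isCh_chi S
  have hs : Sm ⊤ fun g => lv n (x g) := h.zn.sm.comp fun a i => ((a i).val : Z2)
  have hz : Λ.Zn (chi S) ⊤ n fun g => lv n (x g) := h.zn.congr fun g _ => dv_lv n _
  choose k hk using fun g g' => dv_iff.1 (hz.co g trivial g' trivial)
  have hl : ∀ (o : Prop) (H : Subgroup GQ), Λ.Lc o (chi S) H n x →
      ∃ l : X2, Sm H l ∧ ∀ g ∈ H, ∀ h ∈ H, l (g * h) = l g + l h + rd (k g h) := fun o H hc => by
    obtain ⟨b, hb, e⟩ := hc.congr (x' := fun g => lv n (x g)) fun g _ => dv_lv n _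
    exact loc (hs.mono le_top) hb.1 e hk
  have h1 := zero h.zn (h.zn.one hψ) (Lat.rt_one hψ) hk
  have ht : ∀ g ∈ Ht, ∀ g' ∈ Ht, rd (k g g') = 0 := fun g hg g' hg' => by
    rcases mem_Ht.1 hg with rfl | rfl
    · exact (h1 g').2
    rcases mem_Ht.1 hg' with rfl | rfl
    · exact (h1 _).1
    obtain ⟨l, -, e⟩ := hl _ _ h.inf
    have e1 := e 1 Ht.one_mem 1 Ht.one_mem
    have e2 := e _ hg _ hg
    rw [mul_one, two, (h1 1).1, add_zero] at e1
    rw [hA.tau.2.1, two, e1, zero_add] at e2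
    exact e2.symm
  have key : ∀ i : Fin 2, ∃ θ, Bd ⊤ (fun g g' => rd (k g g') i) θ ∧
      ∀ w : Pl, ¬ (w.p : ℤ) ∣ ((30 * ∏ q ∈ S, q : ℕ) : ℤ) → ∀ j ∈ w.I, θ j = 0 := fun i => by
    refine HA.gth _ _ ?_ ((dvd_n hS Nat.prime_two).2 (Or.inl (by norm_num))) (co2 hψ hs hk i)
      (fun w hw j hj g => ?_) (fun p hp hd => ⟨pl p, pl_p hp, ?_⟩)
      fun g hg g' hg' => congrFun (ht g hg g' hg') i
    · exact Int.natCast_ne_zero.2 (mul_ne_zero (by norm_num)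
        (prod_ne_zero_iff.2 fun q hq => (hS q hq).1.ne_zero))
    · rw [dvd_n hS w.prime, not_or] at hw
      have e := zero h.zn (h.unr w hw.1 hw.2 j hj) (by
        rw [Lat.rt, chi_I hS hw.2 hj, Λ.unr w hw.1 j hj, BasY.sg_zero, one_smul]) hk g
      exact ⟨congrFun e.1 i, congrFun e.2 i⟩
    · obtain ⟨l, l1, l2⟩ := hl _ _ (h.loc p (mem_union.2 (((dvd_n hS hp).1 hd).symm.imp_right
        fun e => mem_T30.2 ⟨hp, e⟩)))
      exact Bd.triv (θ := fun g => l g i) ⟨l1.comp fun a => a i,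
        fun g hg g' hg' => congrFun (l2 g hg g' hg') i⟩
  choose θ hθ hu using key
  refine ⟨fun g => lv n (x g) - (2 : Z2) ^ n • lf fun i => θ i g, ⟨?_, fun g _ g' _ => ?_⟩,
    fun g => of_eq ((dv_lv n (x g)).sub (dv_iff.2 ⟨lf fun i => θ i g, rfl⟩))
      (sub_right_comm ..),
    fun w a b g hg => ?_⟩
  · exact hs.comp₂ (Sm.pi (c := fun g i => θ i g) fun i => (hθ i).1)
      fun a b => rn (n + 1) (a - (2 : Z2) ^ n • lf b)
  · have e : Dv (n + 1) ((2 : Z2) ^ n • (k g g' - (lf (fun i => θ i (g * g')) -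
        lf (fun i => θ i g) - Λ.rt (chi S) g *ᵥ lf fun i => θ i g'))) := by
      rw [dv_pow, ← rd_eq, rd_sub, rd_sub, Lat.rd_rt, rd_lf, rd_lf, rd_lf]
      funext i
      simp only [Pi.add_apply]
      rw [(hθ i).2 g trivial g' trivial]
      beta_reduce
      generalize θ i g = a
      generalize θ i g' = b
      generalize rd (k g g') i = c
      revert a b c
      decide
    refine of_eq e ?_
    rw [smul_sub, ← hk, smul_sub, smul_sub, Matrix.mulVec_sub, Matrix.mulVec_smul]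
    abel
  · have e : (fun i => θ i g) = 0 := funext fun i =>
      hu i w (by rw [dvd_n hS w.prime]; exact not_or.2 ⟨a, b⟩) g hg
    show lv n (x g) - (2 : Z2) ^ n • lf (fun i => θ i g) = 0
    rw [e, lf_zero, lv_zero (h.unr w a b g hg), smul_zero, sub_zero]

end TGLIFT

open TGLIFT BasZ

variable [HA]

theorem t_GLIFT : GLIFT := by
  intro Λ S n x hS h
  obtain ⟨y, z1, d1, u1⟩ := step hS h
  obtain ⟨l, l1, l2⟩ := loc2 (z1.mono le_top le_rfl) (h.inf.congr fun g _ => d1 g)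
  have hq : IsCh ⊤ fun g => qz (-1) g • l tau := (isCh_qz _).smul _
  have z2 := z1.sub (Lat.zn_lf hq)
  have d2 : ∀ g, Dv n (y g - (2 : Z2) ^ n • lf (qz (-1) g • l tau) - x g) := fun g =>
    of_eq ((d1 g).sub (dv_iff.2 ⟨lf (qz (-1) g • l tau), rfl⟩)) (by abel)
  refine ⟨_, ⟨z2, fun w a b g hg => ?_, l2.congr fun g hg => ?_⟩, d2, fun p hp =>
    loc2 (z2.mono le_top le_rfl) ((h.loc p hp).congr fun g _ => d2 g)⟩
  · have e : qz (-1) g = 0 := bs_I a hg 0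
    rw [u1 w a b g hg, e, zero_smul, lf_zero, smul_zero, sub_zero]
    exact dv_zero
  · have e : qz (-1) g • l tau = l g := by
      rcases mem_Ht.1 hg with rfl | rfl
      · rw [l1.one]
        exact hq.one
      · rw [BasG.one_of_ne fun e => absurd ((qz_tau hA.tau (by norm_num)).1 e) (by norm_num),
          one_smul]
    rw [e, sub_self]
    exact dv_zero

end Pool.Agent.P.MP_8b7eba_nt.SM
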