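import Pool.Agent.P.MP_8b7eba_nt.SM.BasH

/-! Governing systems. -/

namespace Pool.Agent.P.MP_8b7eba_nt.SM

open Finset R2

variable {k M t : ℕ} {u : Fin k → Fin (M + 1) → ℕ} {γ γ' : Mu k M → GQ → F2} {μ : Mu k M}
  {θ θ' : GQ → F2} {Q : Finset ℕ} {w w' : ℕ} {H : Subgroup GQ} {s g : GQ} {U : Finset (Fin k)}

theorem dg_le (μ : Mu k M) : dg μ ≤ k :=
  (card_filter_le _ _).trans (by simp)

theorem dg_eq_zero : dg μ = 0 ↔ μ = 0 := by
  simp [dg, filter_eq_empty_iff, funext_iff]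

theorem dg_eq_iff : dg μ = k ↔ ∀ i, μ i ≠ 0 := by
  have h := card_filter_eq_iff (s := (univ : Finset (Fin k))) (p := fun i => μ i ≠ 0)
  rw [card_univ, Fintype.card_fin] at h
  exact h.trans (by simp)

theorem ers_empty (μ : Mu k M) : ers μ ∅ = μ := by
  funext i
  simp [ers]

theorem BasR.prod_zero {i : Fin k} (hi : i ∈ U) (h : μ i = 0) :
    ∏ i ∈ U, aa u i (μ i) g = 0 :=
  prod_eq_zero hi (by rw [h, aa_zero]; rfl)

theorem dg_ers (hU : U ≠ ∅) (h : ∏ i ∈ U, aa u i (μ i) g ≠ 0) : dg (ers μ U) < dg μ := by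
  obtain ⟨i, hi⟩ := nonempty_iff_ne_empty.2 hU
  refine card_lt_card ⟨fun j hj => ?_, fun hs => ?_⟩
  · simp only [mem_filter, mem_univ, true_and, ers] at hj ⊢
    intro e
    simp [e] at hj
  · have h1 := hs (mem_filter.2 ⟨mem_univ i, fun e => h (BasR.prod_zero hi e)⟩)
    simp [ers, hi] at h1

theorem BasR.sum_zero (h : ∀ i j, aa u i j g = 0) (f : Finset (Fin k) → F2) :
    ∑ U ∈ univ.erase ∅, (∏ i ∈ U, aa u i (μ i) g) * f U = 0 :=
  sum_eq_zero fun U hU => by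
    obtain ⟨i, hi⟩ := nonempty_iff_ne_empty.2 (mem_erase.1 hU).1
    rw [prod_eq_zero hi (h i _), zero_mul]

theorem BasR.sum_zero' (h : ∀ ν, dg ν < dg μ → γ ν s = 0) :
    ∑ U ∈ univ.erase ∅, (∏ i ∈ U, aa u i (μ i) g) * γ (ers μ U) s = 0 :=
  sum_eq_zero fun U hU => by
    by_cases e : ∏ i ∈ U, aa u i (μ i) g = 0
    · rw [e, zero_mul]
    · rw [h _ (dg_ers (mem_erase.1 hU).1 e), mul_zero]

theorem BasR.sum_all (μ : Mu k M) (g g' : GQ) :
    γ μ g' + ∑ U ∈ univ.erase ∅, (∏ i ∈ U, aa u i (μ i) g) * γ (ers μ U) g' =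
      ∑ U, (∏ i ∈ U, aa u i (μ i) g) * γ (ers μ U) g' := by
  rw [← add_sum_erase _ _ (mem_univ ∅), prod_empty, one_mul, ers_empty]

theorem Rel.all (h : Rel u γ μ (γ μ)) (g g' : GQ) :
    γ μ (g * g') = γ μ g + ∑ U, (∏ i ∈ U, aa u i (μ i) g) * γ (ers μ U) g' := by
  rw [h.2, add_assoc, BasR.sum_all]

theorem Rel.one (h : Rel u γ μ θ) : θ 1 = 0 := by
  have e := h.2 1 1
  rw [BasR.sum_zero fun i j => (isCh_aa (H := ⊤) u i j).one] at e
  simpa using e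

theorem Rel.add (h : Rel u γ μ θ) (h' : Rel u γ' μ θ') : Rel u (γ + γ') μ (θ + θ') := by
  refine ⟨h.1.comp₂ h'.1 (· + ·), fun g g' => ?_⟩
  simp only [Pi.add_apply, h.2 g g', h'.2 g g', mul_add, sum_add_distrib]
  ring

theorem Rel.add_ch (h : Rel u γ μ θ) (h' : IsCh ⊤ θ') : Rel u γ μ (θ + θ') := by
  refine ⟨h.1.comp₂ h'.1 (· + ·), fun g g' => ?_⟩
  simp only [Pi.add_apply, h.2 g g', h'.2 g trivial g' trivial]
  ring

theorem Rel.congr (h : Rel u γ μ θ) (e : ∀ ν, dg ν < dg μ → γ' ν = γ ν) : Rel u γ' μ θ := by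
  refine ⟨h.1, fun g g' => ?_⟩
  rw [h.2]
  refine congrArg _ (sum_congr rfl fun U hU => ?_)
  by_cases e' : ∏ i ∈ U, aa u i (μ i) g = 0
  · rw [e', zero_mul, zero_mul]
  · rw [e _ (dg_ers (mem_erase.1 hU).1 e')]

theorem rel_zero (h : IsCh ⊤ θ) : Rel u γ 0 θ := by
  refine ⟨h.1, fun g g' => ?_⟩
  rw [h.2 g trivial g' trivial, BasR.sum_zero' fun ν hν => ?_, add_zero]
  rw [dg_eq_zero.2 rfl] at hν
  exact absurd hν (Nat.not_lt_zero _)

theorem Rel.conj (h : Rel u γ μ θ) (hs : ∀ i j, aa u i j s = 0) (g : GQ) :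
    θ (g * s * g⁻¹) = θ s + ∑ U ∈ univ.erase ∅, (∏ i ∈ U, aa u i (μ i) g) * γ (ers μ U) s := by
  have e1 := h.2 g g⁻¹
  have e2 : ∀ i j, aa u i j (g * s) = aa u i j g := fun i j => by
    rw [(isCh_aa (H := ⊤) u i j).2 g trivial s trivial, hs, add_zero]
  rw [mul_inv_cancel, h.one] at e1
  rw [h.2 (g * s), h.2 g s]
  simp only [e2]
  linear_combination -e1

theorem Rel.isCh (h : Rel u γ μ θ) (hH : ∀ i j, ∀ g ∈ H, aa u i j g = 0) : IsCh H θ :=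
  ⟨h.1.mono le_top, fun g hg g' _ => by
    rw [h.2, BasR.sum_zero fun i j => hH i j g hg, add_zero]⟩

theorem Rel.isCh' (h : Rel u γ μ θ) (hH : ∀ ν, dg ν < dg μ → ∀ g ∈ H, γ ν g = 0) : IsCh H θ :=
  ⟨h.1.mono le_top, fun g _ g' hg' => by
    rw [h.2, BasR.sum_zero' fun ν hν => hH ν hν g' hg', add_zero]⟩

variable [HA]

theorem Rel.unr {v : Pl} (h : Rel u γ μ θ) (h2 : v.p ≠ 2) (hu : ∀ i j, Gp (u i j) ∧ v.p ≠ u i j)
    (hγ : ∀ ν, dg ν < dg μ → ∀ g ∈ (pl v.p).I, γ ν g = 0) (ht : θ (tp v.p) = 0) (hg : g ∈ v.I) :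
    θ g = 0 := by
  obtain ⟨σ, hσ⟩ := exists_smul v
  have hs : σ⁻¹ * g * σ ∈ (pl v.p).I := Pl.mem_I_smul.1 (by rwa [hσ])
  have hq : ∀ i j, qs (u i j) (σ⁻¹ * g * σ) = 0 := fun i j =>
    qs_I (hu i j).1.1 (hu i j).1.ne.1 (by rw [pl_p v.prime]; exact (hu i j).2) hs
  have e := h.conj (s := σ⁻¹ * g * σ) (fun i j => by simp [aa, hq]) σ
  rw [show σ * (σ⁻¹ * g * σ) * σ⁻¹ = g by group, BasR.sum_zero' fun ν hν => hγ ν hν _ hs,
    ch_I v.prime h2 (h.isCh' hγ) hs, ht] at e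
  simpa using e

theorem Gov.conj_tp (h : Gov (k + 1) u Q w w' γ) (hw : Gp w) (hw' : Gp w') (hne : w ≠ w')
    (hs : ∀ i j, aa u i j (tp w) = 0) (μ : Mu k M) (g : GQ) :
    γ μ (g * tp w * g⁻¹) = ∏ i ∈ univ.filter (fun i => μ i ≠ 0), aa u i (μ i) g := by
  rw [(h.rel μ (Nat.lt_succ_of_le (dg_le μ))).conj hs g, BasR.sum_all,
    sum_eq_single (univ.filter fun i => μ i ≠ 0)]
  · have e : ers μ (univ.filter fun i => μ i ≠ 0) = 0 := by
      funext i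
      by_cases e : μ i = 0 <;> simp [ers, e]
    rw [e, h.zero, Pi.add_apply, qs_tp hw hw, qs_tp hw hw', if_pos rfl, if_neg hne, add_zero,
      mul_one]
  · intro U _ hU
    by_cases e : ers μ U = 0
    · by_contra e'
      refine hU (Finset.ext fun i => ⟨fun hi => mem_filter.2 ⟨mem_univ _, fun e0 => e' ?_⟩,
        fun hi => ?_⟩)
      · rw [BasR.prod_zero hi e0, zero_mul]
      · by_contra hi'
        have e1 := congrFun e i
        simp only [ers, if_neg hi'] at e1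
        exact (mem_filter.1 hi).2 e1
    · rw [(h.tw _ (Nat.lt_succ_of_le (dg_le _)) e).1, mul_zero]
  · exact fun hn => absurd (mem_univ _) hn

end Pool.Agent.P.MP_8b7eba_nt.SM
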