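import Pool.Agent.P.MP_8b7eba_nt.SM.IfG
import Pool.Agent.P.MP_8b7eba_nt.SM.BasR
import Pool.Agent.P.MP_8b7eba_nt.R2.LC

/-! Proof of GOV0. -/

namespace Pool.Agent.P.MP_8b7eba_nt.SM

open Finset R2
open scoped Matrix

namespace TGOV0

theorem sm2_sum {ι : Type} (s : Finset ι) (f : ι → GQ → GQ → F2) (h : ∀ i ∈ s, Sm2 ⊤ (f i)) :
    Sm2 ⊤ fun g k => ∑ i ∈ s, f i g k := by
  classical
  induction s using Finset.induction_on with
  | empty => simpa using (Sm.const (H := ⊤) (0 : F2)).fst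
  | insert a s ha ih =>
    simp only [sum_insert ha]
    exact (h a (mem_insert_self _ _)).comp₂ (ih fun i hi => h i (mem_insert_of_mem hi)) (· + ·)

theorem split {k : ℕ} (x y : Fin k → F2) (F : Finset (Fin k) → F2) :
    ∑ W, (∏ i ∈ W, (x i + y i)) * F W =
      ∑ U, ∑ V, (∏ i ∈ U, x i) * ((∏ i ∈ V, if i ∈ U then 0 else y i) * F (U ∪ V)) := by
  have e1 : ∀ W : Finset (Fin k), (∏ i ∈ W, (x i + y i)) * F W =
      ∑ U, if U ⊆ W then (∏ i ∈ U, x i) * ((∏ i ∈ W \ U, y i) * F W) else 0 := by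
    intro W
    rw [prod_add, sum_mul, ← sum_filter]
    refine sum_congr ?_ fun U _ => mul_assoc _ _ _
    ext U
    simp
  simp only [e1]
  rw [sum_comm]
  refine sum_congr rfl fun U _ => ?_
  have e2 : ∀ V : Finset (Fin k),
      (∏ i ∈ U, x i) * ((∏ i ∈ V, if i ∈ U then 0 else y i) * F (U ∪ V)) =
        if Disjoint U V then (∏ i ∈ U, x i) * ((∏ i ∈ V, y i) * F (U ∪ V)) else 0 := by
    intro V
    split_ifs with hd
    · rw [prod_congr rfl fun i hi => if_neg (disjoint_right.1 hd hi)]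
    · obtain ⟨i, hi, hi'⟩ := not_disjoint_iff.1 hd
      rw [prod_eq_zero (f := fun i => if i ∈ U then (0 : F2) else y i) hi' (if_pos hi), zero_mul,
        mul_zero]
  simp only [e2]
  rw [← sum_filter, ← sum_filter]
  refine sum_nbij' (fun W => W \ U) (fun V => U ∪ V) ?_ ?_ ?_ ?_ ?_
  · intro W _
    simp [disjoint_sdiff]
  · intro V _
    simp
  · intro W hW
    exact union_sdiff_of_subset (mem_filter.1 hW).2
  · intro V hV
    exact union_sdiff_cancel_left (mem_filter.1 hV).2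
  · intro W hW
    rw [union_sdiff_of_subset (mem_filter.1 hW).2]

theorem ers_ers {k M : ℕ} (μ : Mu k M) (U V : Finset (Fin k)) :
    ers (ers μ U) V = ers μ (U ∪ V) := by
  funext i
  by_cases h1 : i ∈ U <;> by_cases h2 : i ∈ V <;> simp [ers, h1, h2]

theorem aa_ers {k M : ℕ} (u : Fin k → Fin (M + 1) → ℕ) (μ : Mu k M) (U : Finset (Fin k))
    (i : Fin k) (h : GQ) : aa u i (ers μ U i) h = if i ∈ U then 0 else aa u i (μ i) h := by
  by_cases h1 : i ∈ U
  · simp only [ers, if_pos h1, aa_zero]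
    rfl
  · simp only [ers, if_neg h1]

end TGOV0

open TGOV0

variable [HA]

theorem t_GOV0 : GOV0 := by
  intro k M u γ μ hγ
  refine co2_sgn.2 ⟨?_, fun g _ h _ l _ => ?_⟩
  · refine sm2_sum _ (fun U g h => (∏ i ∈ U, aa u i (μ i) g) * γ (ers μ U) h) fun U hU => ?_
    by_cases e : ∀ g, ∏ i ∈ U, aa u i (μ i) g = 0
    · simp only [e, zero_mul]
      exact (Sm.const (H := ⊤) (0 : F2)).fst
    · obtain ⟨g, hg⟩ := not_forall.1 e
      have h1 : Sm ⊤ fun g => ∏ i ∈ U, aa u i (μ i) g :=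
        (Sm.pi (c := fun g i => aa u i (μ i) g) fun i => (isCh_aa (H := ⊤) u i (μ i)).1).comp
          fun v => ∏ i ∈ U, v i
      exact h1.fst.comp₂ (hγ _ (dg_ers (mem_erase.1 hU).1 hg)).1.snd (· * ·)
  · have e1 : ∑ U ∈ univ.erase ∅, (∏ i ∈ U, aa u i (μ i) g) * γ (ers μ U) (h * l) =
        ∑ U ∈ univ.erase ∅, (∏ i ∈ U, aa u i (μ i) g) * γ (ers μ U) h +
        ∑ U ∈ univ.erase ∅, ∑ V, (∏ i ∈ U, aa u i (μ i) g) *
          ((∏ i ∈ V, if i ∈ U then 0 else aa u i (μ i) h) * γ (ers μ (U ∪ V)) l) := by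
      rw [← sum_add_distrib]
      refine sum_congr rfl fun U hU => ?_
      by_cases e : ∏ i ∈ U, aa u i (μ i) g = 0
      · simp [e]
      · rw [(hγ _ (dg_ers (mem_erase.1 hU).1 e)).all, mul_add, mul_sum]
        simp only [aa_ers, ers_ers]
    have e2 := split (fun i => aa u i (μ i) g) (fun i => aa u i (μ i) h)
      fun W => γ (ers μ W) l
    have e3 : ∀ i, aa u i (μ i) g + aa u i (μ i) h = aa u i (μ i) (g * h) := fun i =>
      ((isCh_aa (H := ⊤) u i (μ i)).2 g trivial h trivial).symm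
    simp only [e3] at e2
    rw [← BasR.sum_all, ← add_sum_erase _ _ (mem_univ ∅)] at e2
    simp only [prod_empty, one_mul, notMem_empty, if_false, empty_union] at e2
    rw [← BasR.sum_all] at e2
    rw [e1]
    linear_combination -e2

end Pool.Agent.P.MP_8b7eba_nt.SM
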