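import Pool.Agent.P.MP_8b7eba_nt.SM.IfG
import Pool.Agent.P.MP_8b7eba_nt.SM.BasR
import Pool.Agent.P.MP_8b7eba_nt.R2.LC

/-! Proof of GOV1. -/

namespace Pool.Agent.P.MP_8b7eba_nt.SM

open Finset R2
open scoped Matrix

theorem TGOV1.dvd_iff {k M : ℕ} {u : Fin k → Fin (M + 1) → ℕ} {w w' p : ℕ}
    (hu : ∀ i j, (u i j).Prime) (hw : w.Prime) (hw' : w'.Prime) (hp : p.Prime) :
    (p : ℤ) ∣ ((2 * w * w' * ∏ s : Fin k × Fin (M + 1), u s.1 s.2 : ℕ) : ℤ) ↔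
      p = 2 ∨ p = w ∨ p = w' ∨ ∃ i j, p = u i j := by
  rw [Int.natCast_dvd_natCast, hp.dvd_mul, hp.dvd_mul, hp.dvd_mul,
    hp.prime.dvd_finsetProd_iff, Nat.prime_dvd_prime_iff_eq hp Nat.prime_two,
    Nat.prime_dvd_prime_iff_eq hp hw, Nat.prime_dvd_prime_iff_eq hp hw', or_assoc, or_assoc]
  simp only [mem_univ, true_and, Nat.prime_dvd_prime_iff_eq hp (hu _ _), Prod.exists]

variable [HA]

theorem t_GOV1 (hGOV0 : GOV0) : GOV1 := by
  intro k M u Q w w' γ μ hU hw hw' hG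
  have hd := fun p => TGOV1.dvd_iff (p := p) (fun i j => (hU.gp i j).1.1) hw.gp.1 hw'.gp.1
  obtain ⟨θ, hθ, hr⟩ := HA.gth ((2 * w * w' * ∏ s : Fin k × Fin (M + 1), u s.1 s.2 : ℕ) : ℤ)
    (fun g h => ∑ U ∈ univ.erase ∅, (∏ i ∈ U, aa u i (μ i) g) * γ (ers μ U) h)
    (Nat.cast_ne_zero.2 (mul_ne_zero (mul_ne_zero (mul_ne_zero two_ne_zero hw.gp.1.ne_zero)
      hw'.gp.1.ne_zero) (prod_ne_zero_iff.2 fun s _ => (hU.gp _ _).1.1.ne_zero)))
    ((hd 2 Nat.prime_two).2 (Or.inl rfl)) (hGOV0 k M u γ μ hG.rel)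
    (fun v hv i hi g => by
      rw [hd _ v.prime] at hv
      push Not at hv
      have hq : ∀ a b, qs (u a b) i = 0 := fun a b =>
        qs_I (hU.gp a b).1.1 (hU.gp a b).1.ne.1 (hv.2.2.2 a b) hi
      exact ⟨BasR.sum_zero' fun ν hν => hG.ram ν hν v hv.1 hv.2.1 hv.2.2.1 hv.2.2.2 i hi,
        BasR.sum_zero (fun a b => by simp [aa, hq]) _⟩)
    (fun p hp hv => by
      refine ⟨pl p, pl_p hp, Triv.one.congr fun g hg h hh => ?_⟩
      have e : ∑ U ∈ univ.erase ∅, (∏ i ∈ U, aa u i (μ i) g) * γ (ers μ U) h = 0 := by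
        rcases (hd p hp).1 hv with rfl | rfl | rfl | ⟨i, j, rfl⟩
        · exact BasR.sum_zero' fun ν hν => hG.loc ν hν _ hU.two h hh
        · exact BasR.sum_zero (fun a b => hw.sp a b g hg) _
        · exact BasR.sum_zero (fun a b => hw'.sp a b g hg) _
        · exact BasR.sum_zero' fun ν hν => hG.loc ν hν _ (hU.gp i j).2 h hh
      simp only [sgn, e, ZMod.val_zero, pow_zero, Pi.one_apply])
    fun g _ h hh => BasR.sum_zero' fun ν hν => by
      rcases mem_Ht.1 hh with rfl | rfl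
      · exact (hG.rel ν hν).one
      · exact hG.tau ν hν
  have hR : Rel u γ μ θ := ⟨hθ.1, fun g h => hθ.2 g trivial h trivial⟩
  refine ⟨_, (hR.add_ch ((isCh_qs w).smul (θ (tp w)))).add_ch
    ((isCh_qs w').smul (if w = w' then 0 else θ (tp w'))), fun v h2 h1 h1' h3 g hg => ?_, ?_, ?_⟩
  · have e := hr v (by
      rw [hd _ v.prime]
      push Not
      exact ⟨h2, h1, h1', h3⟩) g hg
    simp only [Pi.add_apply, e, qs_I hw.gp.1 hw.gp.ne.1 h1 hg, qs_I hw'.gp.1 hw'.gp.ne.1 h1' hg,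
      zero_smul, add_zero]
  · simp only [Pi.add_apply, qs_tp hw.gp hw.gp, qs_tp hw.gp hw'.gp, if_true, one_smul,
      CharTwo.add_self_eq_zero, zero_add]
    split_ifs <;> simp
  · simp only [Pi.add_apply, qs_tp hw'.gp hw.gp, qs_tp hw'.gp hw'.gp, if_true, one_smul]
    by_cases e : w = w'
    · subst e
      simp [CharTwo.add_self_eq_zero]
    · simp [e, Ne.symm e, CharTwo.add_self_eq_zero]

end Pool.Agent.P.MP_8b7eba_nt.SM
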