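import Pool.Agent.P.MP_8b7eba_nt.SM.IfG
import Pool.Agent.P.MP_8b7eba_nt.SM.BasR

/-! Proof of GOVX. -/

namespace Pool.Agent.P.MP_8b7eba_nt.SM

open Finset R2
open scoped Matrix

variable [HA]

namespace TGOVX

variable {k M t : ℕ} {u : Fin k → Fin (M + 1) → ℕ} {Q : Finset ℕ} {ι : Type}

/-- agreement of the test values in degrees below `t` -/
def Ag (e : ι → GQ) (t : ℕ) (θ : ℕ → Mu k M → GQ → F2) (w w' : ℕ) : Prop :=
  ∀ μ, dg μ < t → ∀ i, θ w μ (e i) = θ w' μ (e i)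

/-- the invariant of the induction -/
def Inv (u : Fin k → Fin (M + 1) → ℕ) (Q : Finset ℕ) (e : ι → GQ) (t : ℕ)
    (θ : ℕ → Mu k M → GQ → F2) : Prop :=
  (∀ w, θ w 0 = qs w) ∧ ∀ w w', Wok u Q w → Wok u Q w' → Ag e t θ w w' →
    Gov t u Q w w' (θ w + θ w')

theorem tp_zero {a b p : ℕ} {η : GQ → F2} (hR : Ram u a b η) (ha : η (tp a) = 0)
    (hb : η (tp b) = 0) (hp : p.Prime) (h2 : p ≠ 2) (hu : ∀ i j, p ≠ u i j) : η (tp p) = 0 := by
  by_cases e1 : p = a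
  · rwa [e1]
  by_cases e2 : p = b
  · rwa [e2]
  refine hR (pl p) ?_ ?_ ?_ ?_ _ (tp_I hp h2) <;> rwa [pl_p hp]

theorem step (hGOV1 : GOV1) (hU : Uok u Q) {e : ι → GQ} (he : ∃ i, e i = tau)
    (hq : ∀ q ∈ Q, ∀ α : GQ → F2, IsCh (pl q).D α → (∀ i, α (e i) = 0) → ∀ g ∈ (pl q).D, α g = 0)
    {θ : ℕ → Mu k M → GQ → F2} (h : Inv u Q e t θ) : ∃ θ', Inv u Q e (t + 1) θ' := by
  classical
  obtain ⟨h0, hG⟩ := h
  let r : ℕ → ℕ := fun w => Classical.epsilon fun w0 => Wok u Q w0 ∧ Ag e t θ w w0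
  have r1 : ∀ w, Wok u Q w → Wok u Q (r w) ∧ Ag e t θ w (r w) := fun w hw =>
    Classical.epsilon_spec (p := fun w0 => Wok u Q w0 ∧ Ag e t θ w w0) ⟨w, hw, fun _ _ _ => rfl⟩
  have r2 : ∀ w w', Ag e t θ w w' → r w = r w' := fun w w' h =>
    congrArg Classical.epsilon (funext fun w0 => propext (and_congr_right fun _ =>
      ⟨fun h' μ hμ i => (h μ hμ i).symm.trans (h' μ hμ i),
        fun h' μ hμ i => (h μ hμ i).trans (h' μ hμ i)⟩))
  have ex : ∀ (w : ℕ) (μ : Mu k M), ∃ η : GQ → F2, Wok u Q w → dg μ = t →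
      Rel u (θ w + θ (r w)) μ η ∧ Ram u w (r w) η ∧ η (tp w) = 0 ∧ η (tp (r w)) = 0 := by
    intro w μ
    by_cases hw : Wok u Q w ∧ dg μ = t
    · obtain ⟨η, hη⟩ := hGOV1 k M u Q w (r w) _ μ hU hw.1 (r1 w hw.1).1
        (hw.2 ▸ hG w (r w) hw.1 (r1 w hw.1).1 (r1 w hw.1).2)
      exact ⟨η, fun _ _ => hη⟩
    · exact ⟨0, fun h1 h2 => absurd ⟨h1, h2⟩ hw⟩
  choose η hη using ex
  let θ' : ℕ → Mu k M → GQ → F2 := fun w μ => if dg μ = t ∧ μ ≠ 0 then η w μ else θ w μ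
  have t0 : ∀ w, θ' w 0 = qs w := fun w => (if_neg fun h => h.2 rfl).trans (h0 w)
  have t1 : ∀ w μ, dg μ < t → θ' w μ = θ w μ := fun w μ h => if_neg fun h' => h.ne h'.1
  have t2 : ∀ w μ, dg μ = t → μ ≠ 0 → θ' w μ = η w μ := fun w μ h h' => if_pos ⟨h, h'⟩
  refine ⟨θ', t0, fun w w' hw hw' hA => ?_⟩
  have hA' : Ag e t θ w w' := fun μ hμ i => by
    rw [← t1 w μ hμ, ← t1 w' μ hμ]
    exact hA μ (by omega) i
  have G := hG w w' hw hw' hA'
  have er := r2 w w' hA'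
  have e0 : (θ' w + θ' w') 0 = qs w + qs w' := by rw [Pi.add_apply, t0, t0]
  have e1 : ∀ μ, dg μ < t → (θ' w + θ' w') μ = (θ w + θ w') μ := fun μ h => by
    rw [Pi.add_apply, Pi.add_apply, t1 w μ h, t1 w' μ h]
  have e2 : ∀ μ, dg μ = t → μ ≠ 0 → (θ' w + θ' w') μ = η w μ + η w' μ := fun μ h h' => by
    rw [Pi.add_apply, t2 w μ h h', t2 w' μ h h']
  have hrel : ∀ μ, dg μ < t + 1 → Rel u (θ' w + θ' w') μ ((θ' w + θ' w') μ) := fun μ hμ => by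
    rcases (Nat.lt_succ_iff.1 hμ).eq_or_lt with h | h
    · by_cases hz : μ = 0
      · rw [hz, e0]
        exact rel_zero ((isCh_qs w).add (isCh_qs w'))
      · rw [e2 μ h hz]
        refine ((hη w μ hw h).1.add (hη w' μ hw' h).1).congr fun ν hν => ?_
        rw [e1 ν (h ▸ hν), er]
        funext g
        simp only [Pi.add_apply]
        linear_combination -CharTwo.add_self_eq_zero (θ (r w') ν g)
    · rw [e1 μ h]
      exact (G.rel μ h).congr fun ν hν => e1 ν (hν.trans h)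
  have htest : ∀ μ, dg μ < t + 1 → ∀ i, (θ' w + θ' w') μ (e i) = 0 := fun μ hμ i => by
    rw [Pi.add_apply, Pi.add_apply, hA μ hμ i, CharTwo.add_self_eq_zero]
  have htp : ∀ μ, dg μ = t → μ ≠ 0 → ∀ p : ℕ, p.Prime → p ≠ 2 → (∀ i j, p ≠ u i j) →
      (θ' w + θ' w') μ (tp p) = 0 := fun μ h hz p hp h2 hu => by
    obtain ⟨-, a1, a2, a3⟩ := hη w μ hw h
    obtain ⟨-, b1, b2, b3⟩ := hη w' μ hw' h
    rw [e2 μ h hz, Pi.add_apply, tp_zero a1 a2 a3 hp h2 hu, tp_zero b1 b2 b3 hp h2 hu, add_zero]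
  refine ⟨e0, hrel, fun μ hμ => ?_, fun μ hμ hz => ?_, fun μ hμ q hq' => ?_, fun μ hμ => ?_⟩
  · rcases (Nat.lt_succ_iff.1 hμ).eq_or_lt with h | h
    · intro v h2 hv hv' hu g hg
      by_cases hz : μ = 0
      · rw [hz, e0, Pi.add_apply, qs_I hw.gp.1 hw.gp.ne.1 hv hg, qs_I hw'.gp.1 hw'.gp.ne.1 hv' hg,
          add_zero]
      · refine (hrel μ hμ).unr h2 (fun i j => ⟨(hU.gp i j).1, hu i j⟩) (fun ν hν g' hg' => ?_)
          (htp μ h hz _ v.prime h2 hu) hg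
        rw [e1 ν (h ▸ hν)]
        refine G.ram ν (h ▸ hν) (pl v.p) ?_ ?_ ?_ ?_ g' hg' <;> rwa [pl_p v.prime]
    · rw [e1 μ h]
      exact G.ram μ h
  · rcases (Nat.lt_succ_iff.1 hμ).eq_or_lt with h | h
    · exact ⟨htp μ h hz w hw.gp.1 hw.gp.ne.1 fun i j e' => hw.nm (e' ▸ (hU.gp i j).2),
        htp μ h hz w' hw'.gp.1 hw'.gp.ne.1 fun i j e' => hw'.nm (e' ▸ (hU.gp i j).2)⟩
    · rw [e1 μ h]
      exact G.tw μ h hz
  · refine hq q hq' _ ((hrel μ hμ).isCh' fun ν hν g hg => ?_) (htest μ hμ)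
    rw [e1 ν (by omega)]
    exact G.loc ν (by omega) q hq' g hg
  · obtain ⟨i, hi⟩ := he
    exact hi ▸ htest μ hμ i

end TGOVX

open TGOVX in
theorem t_GOVX (hGOV1 : GOV1) : GOVX := by
  intro k M N u Q hN
  by_cases hU : Uok u Q
  swap
  · exact ⟨fun _ => ⟨0, by positivity⟩, fun w _ => qs w, fun _ => rfl, fun h => absurd h hU⟩
  choose s _ hs using fun q : Q => exists_test (hU.pr q.1 q.2)
  let e : Option (Q × Fin 3) → GQ := fun o => o.elim tau fun x => s x.1 x.2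
  have key : ∀ t, ∃ θ, TGOVX.Inv u Q e t θ := fun t => by
    induction t with
    | zero =>
      refine ⟨fun w _ => qs w, fun _ => rfl, fun w w' _ _ _ => ⟨rfl, ?_, ?_, ?_, ?_, ?_⟩⟩ <;>
        exact fun μ h => absurd h (Nat.not_lt_zero _)
    | succ t ih =>
      obtain ⟨θ, h⟩ := ih
      exact step hGOV1 hU ⟨none, rfl⟩
        (fun q hq α h1 h2 => hs ⟨q, hq⟩ α h1 fun i => h2 (some (⟨q, hq⟩, i))) h
  obtain ⟨θ, h0, hG⟩ := key (k + 1)
  obtain ⟨f⟩ : Nonempty ((Mu k M → Option (Q × Fin 3) → F2) ↪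
      Fin (2 ^ ((M + 1) ^ k * (3 * N + 1)))) := by
    refine Function.Embedding.nonempty_of_card_le ?_
    simp only [Fintype.card_fun, Fintype.card_fin, Fintype.card_option, Fintype.card_prod,
      Fintype.card_coe, ZMod.card]
    rw [← pow_mul, mul_comm]
    exact Nat.pow_le_pow_right two_pos (Nat.mul_le_mul_left _ (by omega))
  exact ⟨fun w => f fun μ i => θ w μ (e i), θ, h0, fun _ w w' hw hw' hc =>
    hG w w' hw hw' fun μ _ i => congrFun (congrFun (f.injective hc) μ) i⟩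

end Pool.Agent.P.MP_8b7eba_nt.SM
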