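import Pool.Agent.P.MP_8b7eba_nt.SM.IfG
import Pool.Agent.P.MP_8b7eba_nt.SM.BasL

/-! Proof of GRID. -/

namespace Pool.Agent.P.MP_8b7eba_nt.SM

open Finset R2
open scoped Matrix

namespace TGRID

theorem card_TT (k M s : ℕ) : Fintype.card (TT k M s) ≤ (4 * s + 8 * (k + 1)) * (M + 1) := by
  simp only [TT, Sl, Fintype.card_prod, Fintype.card_sum, Fintype.card_bool, Fintype.card_fin,
    Fintype.card_option]
  nlinarith [Nat.zero_le (s * M)]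

theorem card_A1 (k M s : ℕ) : (A1 k M s).card ≤ 4 * s + 8 * (k + 1) := by
  classical
  have h : A1 k M s ⊆ (univ : Finset (Bool × Fin 2 × Fin s)).image
      fun t => ((t.1, t.2.1, Sum.inl t.2.2) : TT k M s) := by
    rintro ⟨β, i, t⟩ ht
    obtain ⟨j, hj⟩ := (mem_filter.1 ht).2
    refine mem_image.2 ⟨(β, i, j), mem_univ _, ?_⟩
    simp only at hj
    rw [hj]
  have h2 := (card_le_card h).trans card_image_le
  simp only [card_univ, Fintype.card_prod, Fintype.card_bool, Fintype.card_fin] at h2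
  omega

theorem card_e (k M s : ℕ) :
    Fintype.card (Sl k M → F2) ≤ 2 ^ ((4 * s + 8 * (k + 1)) * (M + 1)) := by
  rw [Fintype.card_fun, ZMod.card]
  refine Nat.pow_le_pow_right (by norm_num) ?_
  simp only [Sl, Fintype.card_prod, Fintype.card_fin, Fintype.card_option]
  exact Nat.mul_le_mul_right _ (by omega)

theorem lif_iff {k M s : ℕ} (𝒮 : Sit k M s) (n : ℕ) (z : Gz k M) :
    (∃ x, 𝒮.Lif n z x) ↔ ∀ β, 𝒮.Λ.WK (𝒮.S 𝒮.y z) n (𝒮.ph (𝒮.φ β) (𝒮.R β) z) := by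
  constructor
  · rintro ⟨x, hx⟩ β
    exact ⟨x β, hx β⟩
  · intro h
    choose x hx using h
    exact ⟨x, hx⟩

theorem re_iff {k M s : ℕ} (𝒮 : Sit k M s) (z : Gz k M) :
    (∃ δ, 𝒮.Re z δ) ↔ ∀ β, 𝒮.Λ.WK (𝒮.S 𝒮.y z) k (𝒮.ph (𝒮.φ β) (𝒮.R β) z) := by
  rw [← lif_iff]
  constructor
  · rintro ⟨δ, x, hx, -⟩
    exact ⟨x, hx⟩
  · rintro ⟨x, hx⟩
    exact ⟨fun t => 𝒮.tv 𝒮.σ (𝒮.R t.1) z (x t.1) t.2.2 t.2.1, x, hx, fun t => by simp⟩

end TGRID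

open TGRID

variable [HA]

theorem t_GRID (hCORE : CORE) (hHBX : HBX) (hSYS2 : SYS2) (hSYS3 : SYS3) : GRID := by
  classical
  intro k s ε hk hε
  obtain ⟨M₀, hM₀⟩ := hCORE k (4 * (s + 2 * (k + 2)) + 8 * (k + 1)) ε hk hε
  refine ⟨M₀, fun M hM 𝒢 Λ R => ?_⟩
  have h1 := fun e : Sl k M → F2 => hM₀ M hM (TT k M (s + 2 * (k + 2))) (A1 _ _ _) (A2 _ _ _)
    (𝒢.val Λ R e) (card_A1 _ _ _) (card_TT _ _ _)
  choose B hB hB' using h1
  refine ⟨univ.biUnion B, ?_, ?_⟩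
  · have hp : (0 : ℝ) < 2 ^ ((4 * (s + 2 * (k + 2)) + 8 * (k + 1)) * (M + 1)) := by positivity
    have h2 : ((univ.biUnion B).card : ℝ) ≤ ∑ e, ((B e).card : ℝ) := by
      exact_mod_cast card_biUnion_le
    have h3 : (∑ e, ((B e).card : ℝ)) * 2 ^ ((4 * (s + 2 * (k + 2)) + 8 * (k + 1)) * (M + 1)) ≤
        Fintype.card (Sl k M → F2) * (ε * 2 ^ M ^ (k + 1)) := by
      rw [sum_mul]
      refine (sum_le_sum fun e _ => hB e).trans ?_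
      rw [sum_const, card_univ, nsmul_eq_mul]
    have h4 : (Fintype.card (Sl k M → F2) : ℝ) ≤
        2 ^ ((4 * (s + 2 * (k + 2)) + 8 * (k + 1)) * (M + 1)) := by
      exact_mod_cast card_e k M (s + 2 * (k + 2))
    have h5 : (0 : ℝ) ≤ ε * 2 ^ M ^ (k + 1) := by positivity
    refine h2.trans (le_of_mul_le_mul_right (h3.trans ?_) hp)
    rw [mul_comm]
    exact mul_le_mul_of_nonneg_left h4 h5
  · intro y φ C hy hse hφ0 hR0 hRy hC hC' hG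
    obtain ⟨σ, hσ⟩ := hHBX k M s 𝒢 Λ y C hy hC hC'
    let 𝒮 : Sit k M (s + 2 * (k + 2)) := ⟨𝒢, Λ, y, φ, R, σ, hy, hse, hφ0, hR0, hRy, hσ⟩
    have hG' : 𝒢.G y ∉ B 𝒮.e := fun h => hG (mem_biUnion.2 ⟨_, mem_univ _, h⟩)
    have h6 := hB' 𝒮.e 𝒮.Re
      (univ.filter fun z => ∀ β, Λ.WK (𝒢.S y z) (k + 1) (𝒢.ph (φ β) (R β) z)) (𝒢.G y) hG'
      (hSYS2 k M _ 𝒮 (by omega))
      (fun z hz => (re_iff 𝒮 z).2 fun β => ((mem_filter.1 hz).2 β).mono (Nat.le_succ k))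
      (fun ξ hξ => by
        obtain ⟨F, hF, hO⟩ := hSYS3 k M _ 𝒮 (by omega) ξ hξ
        exact ⟨F, fun z hz => hF z ((lif_iff 𝒮 (k + 1) z).2 (mem_filter.1 hz).2), hO⟩)
    have h7 : (univ.filter fun z => ∃ δ, 𝒮.Re z δ) =
        univ.filter fun z => ∀ β, Λ.WK (𝒢.S y z) k (𝒢.ph (φ β) (R β) z) :=
      filter_congr fun z _ => re_iff 𝒮 z
    rw [h7] at h6
    exact h6

end Pool.Agent.P.MP_8b7eba_nt.SM
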