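import Pool.Agent.P.MP_8b7eba_nt.SM.BasV
import Pool.Agent.P.MP_8b7eba_nt.SM.BasL

/-! Local properties of grids of twists. -/

namespace Pool.Agent.P.MP_8b7eba_nt.SM

open Finset R2
open scoped Matrix

variable [HA] {k M s : ℕ} {𝒢 : Grid k M} {y p : ℕ} {z z' : Gz k M} {g : GQ} {w : Pl}

namespace BasM

omit [HA] in
theorem dl (μ : Mu k M) : dg μ < k + 1 := Nat.lt_succ_of_le (dg_le μ)

omit [HA] in
theorem m_zero (h : ∀ μ, 𝒢.γ (z none) μ g = 0) : 𝒢.m g z = 0 := by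
  rw [Grid.m, ((t_MCV t_LAM k M _).2 z).2.1 fun μ _ => h μ]
  simp [h]

omit [HA] in
theorem chi_eq (h : 𝒢.Pt y) (e : ∀ i, aa 𝒢.q i (z i) g = aa 𝒢.q i (z' i) g) :
    chi (𝒢.S y z) g = chi (𝒢.S y z') g := by
  rw [Grid.chi_S h z, Grid.chi_S h z', sum_congr rfl fun i _ => e i]

omit [HA] in
theorem gq (𝒢 : Grid k M) (i : Option (Fin k)) (j : Fin (M + 1)) : Gp (𝒢.q i j) := (𝒢.ar.gp i j).1

theorem qs_q (𝒢 : Grid k M) (i i' : Option (Fin k)) (j j' : Fin (M + 1)) :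
    qs (𝒢.q i' j') (tp (𝒢.q i j)) = if i = i' ∧ j = j' then 1 else 0 := by
  rw [qs_tp (gq 𝒢 i j) (gq 𝒢 i' j')]
  exact if_congr ⟨𝒢.ar.inj _ _ _ _, fun h => by rw [h.1, h.2]⟩ rfl rfl

theorem m_tp (𝒢 : Grid k M) (j : Fin (M + 1)) (z : Gz k M) : 𝒢.m (tp (𝒢.q none j)) z =
    (((if j = z none then 1 else 0) + if j = 0 then 1 else 0 : F2).val : Z2) := by
  have hp := gq 𝒢 none j
  have G := 𝒢.gov (z none)
  rw [Grid.m, ((t_MCV t_LAM k M _).2 z).2.1 fun μ hμ => ?_, G.zero, Pi.add_apply, qs_q, qs_q]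
  · simp
  by_cases h1 : j = z none
  · rw [h1]; exact (G.tw μ (dl μ) hμ).1
  by_cases h0 : j = 0
  · rw [h0]; exact (G.tw μ (dl μ) hμ).2
  refine G.ram μ (dl μ) (pl (𝒢.q none j)) ?_ ?_ ?_ (fun i j' => ?_) _ (tp_I hp.1 hp.ne.1) <;>
    rw [pl_p hp.1]
  · exact hp.ne.1
  · exact fun e => h1 (𝒢.ar.inj _ _ _ _ e).2
  · exact fun e => h0 (𝒢.ar.inj _ _ _ _ e).2
  · exact fun e => by simpa using (𝒢.ar.inj _ _ (some i) j' e).1

theorem ga_y (h : 𝒢.Pt y) {u : GQ → F2} (hu : IsCh (pl y).D u) (h0 : ∀ g ∈ (pl y).I, u g = 0)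
    (h1 : u (fr y) = 1) (hg : g ∈ (pl y).D) (j : Fin (M + 1)) (μ : Mu k M) :
    𝒢.γ j μ g = u g * 𝒢.γ j μ (fr y) := by
  have hp := h.gp
  have G := 𝒢.gov j
  have c : IsCh (pl y).D (𝒢.γ j μ) := (G.rel μ (dl μ)).isCh fun i j' => h.a (some i) j'
  have t : 𝒢.γ j μ (tp y) = 0 := by
    refine G.ram μ (dl μ) (pl y) ?_ ?_ ?_ (fun i j' => ?_) _ (tp_I hp.1 hp.ne.1) <;>
      rw [pl_p hp.1]
    exacts [hp.ne.1, (h.nq _ _).symm, (h.nq _ _).symm, (h.nq _ _).symm]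
  have := ch_D hp.1 hp.ne.1 (c.add (hu.smul (𝒢.γ j μ (fr y))))
    (by rw [t, h0 _ (tp_I hp.1 hp.ne.1), zero_smul, add_zero])
    (by rw [h1, one_smul, CharTwo.add_self_eq_zero]) hg
  rwa [smul_eq_mul, CharTwo.add_eq_zero] at this

end BasM

open BasM

namespace Grid

theorem chi_loc (h : 𝒢.Pt y) (hp : p ∈ insert y 𝒢.P ∪ T30) (hg : g ∈ (pl p).D) (z z' : Gz k M) :
    chi (𝒢.S y z) g = chi (𝒢.S y z') g := by
  have e : ∀ i j, aa 𝒢.q i j g = 0 := fun i j => by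
    rw [insert_union, mem_insert] at hp
    rcases hp with rfl | hp
    exacts [h.a i j g hg, 𝒢.ar.aP i j p hp g hg]
  exact chi_eq h fun i => by rw [e, e]

theorem chi_Ht (h : 𝒢.Pt y) (hg : g ∈ Ht) (z z' : Gz k M) :
    chi (𝒢.S y z) g = chi (𝒢.S y z') g := by
  have e : ∀ i j, aa 𝒢.q i j g = 0 := fun i j => by
    rcases mem_Ht.1 hg with rfl | rfl
    exacts [(isCh_aa (H := ⊤) 𝒢.q i j).one, 𝒢.ar.tau i j]
  exact chi_eq h fun i => by rw [e, e]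

theorem chi_q (h : 𝒢.Pt y) {i : Option (Fin k)} {j : Fin (M + 1)} (hg : g ∈ (pl (𝒢.q i j)).D)
    (e : z i = z' i) : chi (𝒢.S y z) g = chi (𝒢.S y z') g := by
  refine chi_eq h fun i' => ?_
  by_cases hi : i' = i
  · rw [hi, e]
  · rw [𝒢.ar.aq i' _ i j hi g hg, 𝒢.ar.aq i' _ i j hi g hg]

theorem m_loc (hp : p ∈ 𝒢.P ∪ T30) (hg : g ∈ (pl p).D) (z : Gz k M) : 𝒢.m g z = 0 :=
  m_zero fun μ => (𝒢.gov _).loc μ (dl μ) p (mem_union_left _ hp) g hg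

theorem m_Ht (hg : g ∈ Ht) (z : Gz k M) : 𝒢.m g z = 0 := by
  refine m_zero fun μ => ?_
  rcases mem_Ht.1 hg with rfl | rfl
  exacts [((𝒢.gov _).rel μ (dl μ)).one, (𝒢.gov _).tau μ (dl μ)]

theorem m_I (h2 : w.p ≠ 2) (hq : ∀ i j, w.p ≠ 𝒢.q i j) (hg : g ∈ w.I) (z : Gz k M) :
    𝒢.m g z = 0 :=
  m_zero fun μ => (𝒢.gov _).ram μ (dl μ) w h2 (hq _ _) (hq _ _) (fun _ _ => hq _ _) g hg

theorem m_y (h : 𝒢.Pt y) {u : GQ → F2} (hu : IsCh (pl y).D u) (h0 : ∀ g ∈ (pl y).I, u g = 0)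
    (h1 : u (fr y) = 1) (hg : g ∈ (pl y).D) (z : Gz k M) :
    𝒢.m g z = 2 ^ k * ((u g * ex (𝒢.G y) z).val : Z2) := by
  rw [Grid.m, ((t_MCV t_LAM k M _).2 z).2.2 fun μ hμ => by
    rw [ga_y h hu h0 h1 hg, h.g _ μ hμ, mul_zero], ga_y h hu h0 h1 hg, ex]
  by_cases hz : ∀ i, z i ≠ 0
  · rw [if_pos fun i => hz _, dif_pos hz]
    simp only [G, Fin.succ_pred]
  rw [dif_neg hz]
  split_ifs with hs
  · have : z none = 0 := by
      by_contra hn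
      exact hz fun i => by cases i; exacts [hn, hs _]
    simp [this, 𝒢.g0]
  · simp

theorem tq_mem (𝒢 : Grid k M) (R : V1) (l : Sl k M) (i : Fin 2) :
    (fun z => (tq R z l - 𝒢.m (tp (𝒢.q l.1 l.2)) z • lf R) i) ∈ Lam k M := by
  obtain ⟨_ | i', j⟩ := l
  · have := add_mem (two_mem (k := k) none fun j' => if j = 0 ∧ j' = 0 then lf R i else 0)
      ((Lam k M).algebraMap_mem (if j = 0 then -lf R i else 0))
    refine (congrArg (· ∈ Lam k M) (funext fun z => ?_)).mp this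
    have e2 : (1 + 1 : F2).val = 0 := rfl
    have e1 : (1 : F2).val = 1 := rfl
    simp only [m_tp, tq, Pi.add_apply, Pi.algebraMap_apply, Algebra.algebraMap_self_apply,
      true_and, Pi.sub_apply, Pi.smul_apply, smul_eq_mul]
    by_cases h0 : j = 0 <;> by_cases h1 : z none = j
    · simp [h0, h1, e2, two_mul]
    · simp [h0, e1, show z none ≠ 0 from h0 ▸ h1, show ¬ 0 = z none from fun e => h1 (h0 ▸ e.symm)]
    · simp [h0, h1, e1]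
    · simp [h0, h1, Ne.symm h1]
  · have hp := gq 𝒢 (some i') j
    refine (congrArg (· ∈ Lam k M) (funext fun z => ?_)).mp (zero_mem _)
    rw [m_zero fun μ => (𝒢.gov _).loc μ (dl μ) (𝒢.q (some i') j)
      (mem_union_right _ (mem_image.2 ⟨(i', j), mem_univ _, rfl⟩)) _ (tp_D hp.1 hp.ne.1)]
    simp [tq]

end Grid

theorem Sit.ph_tp (𝒮 : Sit k M s) (β : Bool) (z : Gz k M) (l : Sl k M) :
    𝒮.ph (𝒮.φ β) (𝒮.R β) z (tp (𝒮.q l.1 l.2)) = rd (tq (𝒮.R β) z l) := by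
  rw [Grid.ph, 𝒮.φ0, zero_add, qs_q, tq]
  have : (l.1 = none ∧ l.2 = z none) ↔ (l.1 = none ∧ z l.1 = l.2) :=
    and_congr_right fun h => by rw [h, eq_comm]
  rw [if_congr this rfl rfl]
  split_ifs
  · rw [one_smul, rd_lf]
  · rw [zero_smul, rd_eq_zero.2 dv_zero]

theorem Sit.psi (𝒮 : Sit k M s) : (∀ z, 𝒮.ph (𝒮.φ false) (𝒮.R false) z = 𝒮.φ false) ∧
    IsCh ⊤ (𝒮.φ false) ∧ (∀ i j, ∀ g ∈ (pl (𝒮.q i j)).D, 𝒮.φ false g = 0) ∧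
    ∀ w : Pl, ¬ w.p ∣ 30 → w.p ∉ 𝒮.P → w.p ≠ 𝒮.y → ∀ g ∈ w.I, 𝒮.φ false g = 0 := by
  have e : ∀ z, 𝒮.ph (𝒮.φ false) (𝒮.R false) z = 𝒮.φ false := fun z =>
    funext fun g => by rw [Grid.ph, 𝒮.R0, smul_zero, add_zero]
  have se : ∀ z, 𝒮.Λ.Se (𝒮.S 𝒮.y z) (𝒮.φ false) := fun z => e z ▸ 𝒮.se false z
  have c := (se 0).ch
  have d : ∀ i j, ∀ g ∈ (pl (𝒮.q i j)).D, 𝒮.φ false g = 0 := fun i j g hg => by
    have hp := gq 𝒮.toGrid i j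
    refine ch_D hp.1 hp.ne.1 (c.mono le_top) (𝒮.φ0 _ _ _) ?_ hg
    rw [(se (Function.update 0 i j)).loc _ ((Grid.q_mem 𝒮.pt i j).2 (Function.update_self ..)),
      𝒮.φ0, Matrix.mulVec_zero, smul_zero, add_zero]
  refine ⟨e, c, d, fun w h30 hP hy g hg => ?_⟩
  by_cases hq : ∃ i, 𝒮.q i 0 = w.p
  · obtain ⟨i, hi⟩ := hq
    exact ch_D_top c (hi ▸ d i 0) (w.I_le_D hg)
  · exact (se 0).unr w h30 (fun hm => (Grid.mem_S.1 hm).elim hy fun h => h.elim hP hq) g hg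

end Pool.Agent.P.MP_8b7eba_nt.SM
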