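import Pool.Agent.P.MP_8b7eba_nt.SM.IfG
import Pool.Agent.P.MP_8b7eba_nt.SM.BasM

/-! Proof of HBX. -/

namespace Pool.Agent.P.MP_8b7eba_nt.SM

open Finset R2
open scoped Matrix

namespace THBX

/-- a small group of functions is separated by few points -/
theorem sep {G V : Type} [Nonempty G] [AddCommGroup V] (d : ℕ) : ∀ P : (G → V) → Prop,
    (∀ f f', P f → P f' → P (f - f')) →
    (∀ F : Finset (G → V), (∀ f ∈ F, P f) → F.card ≤ 2 ^ d) →
    ∃ σ : Fin d → G, ∀ f, P f → (∀ j, f (σ j) = 0) → f = 0 := by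
  classical
  induction d with
  | zero =>
    intro P hs hb
    refine ⟨Fin.elim0, fun f hf _ => ?_⟩
    by_contra h0
    have := hb {f, 0} (fun f' hf' => by
      rcases mem_insert.1 hf' with rfl | hf'
      · exact hf
      · rw [mem_singleton.1 hf', ← sub_self f]
        exact hs f f hf hf)
    rw [card_pair h0] at this
    omega
  | succ d ih =>
    intro P hs hb
    by_cases h : ∀ f, P f → f = 0
    · exact ⟨fun _ => Classical.arbitrary G, fun f hf _ => h f hf⟩
    push Not at h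
    obtain ⟨f₀, h₀, hn⟩ := h
    obtain ⟨g, hg⟩ : ∃ g, f₀ g ≠ 0 := Function.ne_iff.1 hn
    obtain ⟨σ, hσ⟩ := ih (fun f => P f ∧ f g = 0)
      (fun f f' a b => ⟨hs f f' a.1 b.1, by rw [Pi.sub_apply, a.2, b.2, sub_self]⟩)
      (fun F hF => by
        have hd : Disjoint F (F.image fun f => f - f₀) := by
          refine disjoint_left.2 fun f hf hf' => ?_
          obtain ⟨f', h1, rfl⟩ := mem_image.1 hf'
          have e := (hF _ hf).2
          rw [Pi.sub_apply, (hF _ h1).2, zero_sub, neg_eq_zero] at e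
          exact hg e
        have := hb (F ∪ F.image fun f => f - f₀) (fun f hf => by
          rcases mem_union.1 hf with hf | hf
          · exact (hF f hf).1
          · obtain ⟨f', h1, rfl⟩ := mem_image.1 hf
            exact hs _ _ (hF f' h1).1 h₀)
        rw [card_union_of_disjoint hd, card_image_of_injective _ (sub_left_injective), pow_succ]
          at this
        omega)
    exact ⟨Fin.cons g σ, fun f hf h0 => hσ f ⟨hf, h0 0⟩ fun j => h0 j.succ⟩

/-- the local condition at a prime -/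
noncomputable def lc (Λ : Lat) (S : Finset ℕ) (p : ℕ) (η : X2) : V1 :=
  η (fr p) - (Λ.cb (fr p) *ᵥ η (tp p) + chi S (fr p) • η (tp p))

theorem lc_sub (Λ : Lat) (S : Finset ℕ) (p : ℕ) (η η' : X2) :
    lc Λ S p (η - η') = lc Λ S p η - lc Λ S p η' := by
  simp only [lc, Pi.sub_apply, Matrix.mulVec_sub, smul_sub]
  abel

theorem isCh_sub [HA] {η η' : X2} (h : IsCh ⊤ η) (h' : IsCh ⊤ η') : IsCh ⊤ (η - η') := by
  have e : η - η' = fun g => η g + (-AddMonoidHom.id V1) (η' g) := by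
    funext g
    simp [sub_eq_add_neg]
  rw [e]
  exact h.add (h'.map _)

end THBX

open THBX

variable [HA]

theorem t_HBX : HBX := by
  classical
  intro k M s 𝒢 Λ y C hy hC hS
  have hs : ∀ η η' : X2, (𝒢.InB Λ y η ∧ ∀ i j, η (tp (𝒢.q i j)) = 0) →
      (𝒢.InB Λ y η' ∧ ∀ i j, η' (tp (𝒢.q i j)) = 0) →
      (𝒢.InB Λ y (η - η') ∧ ∀ i j, (η - η') (tp (𝒢.q i j)) = 0) := by
    intro η η' a b
    refine ⟨⟨isCh_sub a.1.ch b.1.ch, fun w h1 h2 h3 h4 g hg => ?_, fun p hp => ?_⟩, fun i j => ?_⟩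
    · rw [Pi.sub_apply, a.1.unr w h1 h2 h3 h4 g hg, b.1.unr w h1 h2 h3 h4 g hg, sub_self]
    · have e := lc_sub Λ (𝒢.S y 0) p η η'
      have e1 : lc Λ (𝒢.S y 0) p η = 0 := sub_eq_zero.2 (a.1.loc p hp)
      have e2 : lc Λ (𝒢.S y 0) p η' = 0 := sub_eq_zero.2 (b.1.loc p hp)
      rw [e1, e2, sub_self] at e
      exact sub_eq_zero.1 e
    · rw [Pi.sub_apply, a.2, b.2, sub_self]
  let L : X2 → Option (Option (Fin k)) → V1 := fun η o =>
    lc Λ (𝒢.S y 0) (o.elim y fun i => 𝒢.q i 0) η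
  have hk : ∀ η : X2, (𝒢.InB Λ y η ∧ ∀ i j, η (tp (𝒢.q i j)) = 0) → L η = 0 → η ∈ C := by
    intro η a h0
    refine hS η ⟨a.1.ch, fun w h30 hw g hg => ?_, fun p hp => ?_⟩
    · by_cases hq : ∃ i j, w.p = 𝒢.q i j
      · obtain ⟨i, j, e⟩ := hq
        refine ch_unr_top ?_ a.1.ch (by rw [e]; exact a.2 i j) hg
        rw [e]
        exact (𝒢.ar.gp i j).1.ne.1
      · push Not at hq
        exact a.1.unr w h30 (fun h => hw (Grid.mem_S.2 (Or.inr (Or.inl h))))
          (fun h => hw (Grid.mem_S.2 (Or.inl h))) hq g hg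
    · rcases Grid.mem_S.1 hp with rfl | h | ⟨i, rfl⟩
      · exact sub_eq_zero.1 (congrFun h0 none)
      · exact a.1.loc p h
      · exact sub_eq_zero.1 (congrFun h0 (some i))
  obtain ⟨σ, hσ⟩ := sep (s + 2 * (k + 2)) _ hs fun F hF => by
    have h1 : F.card ≤ 2 ^ s * (F.image L).card := by
      refine card_le_mul_card_image F _ fun v hv => le_trans ?_ hC
      obtain ⟨η₀, h₀, rfl⟩ := mem_image.1 hv
      refine card_le_card_of_injOn (fun η => η - η₀) (fun η hη => ?_)
        (fun _ _ _ _ e => sub_left_injective e)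
      obtain ⟨h2, h3⟩ := mem_filter.1 (mem_coe.1 hη)
      refine mem_coe.2 (hk _ (hs _ _ (hF _ h2) (hF _ h₀)) (funext fun o => ?_))
      have := congrFun h3 o
      simp only [L] at this ⊢
      rw [lc_sub, this, sub_self, Pi.zero_apply]
    have h2 : (F.image L).card ≤ 2 ^ (2 * (k + 2)) := by
      refine (card_le_univ _).trans (le_of_eq ?_)
      simp only [Fintype.card_fun, Fintype.card_option, Fintype.card_fin, ZMod.card]
      rw [← pow_mul]
    rw [pow_add]
    exact h1.trans (Nat.mul_le_mul_left _ h2)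
  exact ⟨σ, fun η a h0 b => hσ η ⟨a, b⟩ h0⟩

end Pool.Agent.P.MP_8b7eba_nt.SM
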