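import Pool.Agent.P.MP_8b7eba_nt.SM.BasG

/-! Vectors and the twisted representation. -/

namespace Pool.Agent.P.MP_8b7eba_nt.SM

open Finset R2
open scoped Matrix

variable {n m j : ℕ} {u v v' : VZ} {a : V1} {H H' : Subgroup GQ} {ψ ψ' : GQ → F2} {Λ : Lat}
  {x x' y : GQ → VZ} {o : Prop} {g h : GQ}

/-! ### Vectors -/

namespace BasY

theorem dvd_iff (n : ℕ) (z : Z2) : PadicInt.toZModPow n z = 0 ↔ (2 : Z2) ^ n ∣ z := by
  rw [← RingHom.mem_ker, PadicInt.ker_toZModPow, Ideal.mem_span_singleton]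
  rfl

theorem dvd_iff1 (z : Z2) : PadicInt.toZMod z = 0 ↔ (2 : Z2) ^ 1 ∣ z := by
  rw [← RingHom.mem_ker, PadicInt.ker_toZMod, PadicInt.maximalIdeal_eq_span_p,
    Ideal.mem_span_singleton, pow_one]
  rfl

theorem two_ne : (2 : Z2) ≠ 0 := two_ne_zero

theorem toZMod_two : PadicInt.toZMod (2 : Z2) = (0 : F2) := (dvd_iff1 2).2 (by rw [pow_one])

theorem toZMod_val (s : F2) : PadicInt.toZMod ((s.val : ℕ) : Z2) = s := by
  rw [map_natCast, ZMod.natCast_zmod_val]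

theorem toZMod_sg (s : F2) : PadicInt.toZMod (sg s) = (1 : F2) := by
  rw [sg_eq, map_sub, map_mul, toZMod_two, zero_mul, sub_zero, map_one]

theorem sg_zero : sg 0 = 1 := by simp [sg]

theorem sg_sq (s : F2) : sg s * sg s = 1 := by
  rw [← sg_add, CharTwo.add_self_eq_zero, sg_zero]

theorem smul_cancel {B C : MZ} (h : (2 : Z2) • B = (2 : Z2) • C) : B = C := by
  ext i k
  have := congrFun (congrFun h i) k
  simp only [Matrix.smul_apply, smul_eq_mul] at this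
  exact mul_left_cancel₀ two_ne this

end BasY

open BasY

theorem Dv.add (h : Dv n u) (h' : Dv n v) : Dv n (u + v) := by
  intro i
  exact dvd_add (h i) (h' i)

theorem Dv.sub (h : Dv n u) (h' : Dv n v) : Dv n (u - v) := by
  intro i
  exact dvd_sub (h i) (h' i)

theorem Dv.neg (h : Dv n u) : Dv n (-u) := by
  intro i
  exact (h i).neg_right

theorem Dv.smul (h : Dv n u) (c : Z2) : Dv n (c • u) := by
  intro i
  exact (h i).mul_left c

theorem Dv.mulVec (h : Dv n u) (B : MZ) : Dv n (B *ᵥ u) := by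
  intro i
  show _ ∣ ∑ k, B i k * u k
  exact Finset.dvd_sum fun k _ => (h k).mul_left (B i k)

theorem Dv.mono (h : Dv n u) (h' : m ≤ n) : Dv m u := by
  intro i
  exact (pow_dvd_pow _ h').trans (h i)

theorem Dv.sum {ι : Type} {s : Finset ι} {f : ι → VZ} (h : ∀ i ∈ s, Dv n (f i)) :
    Dv n (∑ i ∈ s, f i) := by
  intro k
  rw [Finset.sum_apply]
  exact Finset.dvd_sum fun i hi => h i hi k

theorem dv_zero : Dv n 0 := by
  intro i
  exact dvd_zero _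

theorem dv_iff : Dv n u ↔ ∃ v, u = (2 : Z2) ^ n • v := by
  constructor
  · intro h
    choose w hw using h
    exact ⟨w, funext hw⟩
  · rintro ⟨w, rfl⟩ i
    exact Dvd.intro _ rfl

theorem dv_pow : Dv (j + n) ((2 : Z2) ^ j • u) ↔ Dv n u := by
  refine forall_congr' fun i => ?_
  rw [pow_add, Pi.smul_apply, smul_eq_mul]
  exact mul_dvd_mul_iff_left (pow_ne_zero _ two_ne)

theorem eq_zero_of_dv (h : ∀ n, Dv n u) : u = 0 := by
  funext i
  refine PadicInt.ext_of_toZModPow.1 fun k => ?_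
  rw [Pi.zero_apply, map_zero]
  exact (dvd_iff k _).2 (h k i)

theorem rn_eq : rn n u = rn n v ↔ Dv n (u - v) := by
  rw [funext_iff]
  refine forall_congr' fun i => ?_
  rw [← dvd_iff, Pi.sub_apply, map_sub, sub_eq_zero]
  rfl

theorem rd_eq : rd u = rd v ↔ Dv 1 (u - v) := by
  rw [funext_iff]
  refine forall_congr' fun i => ?_
  rw [← dvd_iff1, Pi.sub_apply, map_sub, sub_eq_zero]
  rfl

theorem rd_eq_zero : rd u = 0 ↔ Dv 1 u := by
  rw [funext_iff]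
  exact forall_congr' fun i => dvd_iff1 _

theorem rd_lf (a : V1) : rd (lf a) = a := by
  funext i
  exact toZMod_val _

theorem rd_add (u v : VZ) : rd (u + v) = rd u + rd v := by
  funext i
  exact map_add _ _ _

theorem rd_sub (u v : VZ) : rd (u - v) = rd u + rd v := by
  funext i
  exact (map_sub _ _ _).trans (CharTwo.sub_eq_add _ _)

theorem rd_smul (c : Z2) (u : VZ) : rd (c • u) = PadicInt.toZMod c • rd u := by
  funext i
  exact map_mul _ _ _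

theorem rd_sum {ι : Type} (s : Finset ι) (f : ι → VZ) : rd (∑ i ∈ s, f i) = ∑ i ∈ s, rd (f i) := by
  funext k
  simp only [rd, Finset.sum_apply, map_sum]

theorem rd_mulVec (B : MZ) (u : VZ) : rd (B *ᵥ u) = B.map PadicInt.toZMod *ᵥ rd u := by
  funext i
  simp only [rd, Matrix.mulVec, dotProduct, map_sum, map_mul, Matrix.map_apply]

theorem dv_lf : Dv (n + 1) (u - (2 : Z2) ^ n • lf a) ↔ ∃ v, u = (2 : Z2) ^ n • v ∧ rd v = a := by
  constructor
  · intro h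
    obtain ⟨w, hw⟩ := dv_iff.1 h
    refine ⟨lf a + (2 : Z2) • w, ?_, ?_⟩
    · rw [smul_add, smul_smul, ← pow_succ, ← hw, add_sub_cancel]
    · rw [rd_add, rd_smul, toZMod_two, zero_smul, add_zero, rd_lf]
  · rintro ⟨w, rfl, hw⟩
    rw [← smul_sub, dv_pow, ← rd_eq, rd_lf, hw]

/-! ### The representation -/

theorem Lat.rt_mul (hψ : IsCh H ψ) (hg : g ∈ H) (hh : h ∈ H) :
    Λ.rt ψ (g * h) = Λ.rt ψ g * Λ.rt ψ h := by
  unfold Lat.rt
  rw [hψ.2 g hg h hh, sg_add, map_mul, smul_mul_smul_comm]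

theorem Lat.rt_one (hψ : IsCh H ψ) : Λ.rt ψ 1 = 1 := by
  unfold Lat.rt
  rw [hψ.one, sg_zero, map_one, one_smul]

theorem Lat.rt_eq (Λ : Lat) (ψ : GQ → F2) (g : GQ) : Λ.rt ψ g = 1 + (2 : Z2) • Λ.hh (ψ g) g := by
  unfold Lat.rt Lat.hh
  rw [Λ.hc, smul_add, smul_sub, smul_comm (sg (ψ g)) (2 : Z2), smul_smul (2 : Z2) ((ψ g).val : Z2)]
  conv_lhs => enter [1]; rw [sg_eq, sub_smul, one_smul]
  abel

theorem Lat.rd_rt (Λ : Lat) (ψ : GQ → F2) (g : GQ) (u : VZ) : rd (Λ.rt ψ g *ᵥ u) = rd u := by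
  rw [Λ.rt_eq, Matrix.add_mulVec, Matrix.one_mulVec, Matrix.smul_mulVec, rd_add, rd_smul,
    toZMod_two, zero_smul, add_zero]

theorem Lat.rd_hh (Λ : Lat) (s : F2) (g : GQ) (u : VZ) :
    rd (Λ.hh s g *ᵥ u) = Λ.cb g *ᵥ rd u + s • rd u := by
  unfold Lat.hh Lat.cb
  rw [Matrix.sub_mulVec, Matrix.smul_mulVec, Matrix.smul_mulVec, Matrix.one_mulVec, rd_sub,
    rd_smul, rd_smul, toZMod_sg, one_smul, toZMod_val, rd_mulVec]

theorem Lat.dz_rt (Λ : Lat) (ψ : GQ → F2) (g : GQ) (u v : VZ) :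
    dz (Λ.rt ψ g *ᵥ u) (Λ.rt ψ g *ᵥ v) = cyc g * dz u v := by
  have h1 := Λ.det g
  have h2 := sg_sq (ψ g)
  rw [Matrix.det_fin_two] at h1
  rw [← h1]
  simp only [dz, Lat.rt, Matrix.mulVec, dotProduct, Fin.sum_univ_two, Matrix.smul_apply,
    smul_eq_mul]
  linear_combination ((Λ.r g 0 0 * Λ.r g 1 1 - Λ.r g 0 1 * Λ.r g 1 0) *
    (u 0 * v 1 - u 1 * v 0)) * h2

theorem Lat.bd_eq (Λ : Lat) (ψ : GQ → F2) (v : VZ) (g : GQ) :
    Λ.bd ψ v g = (2 : Z2) • Λ.hb ψ v g := by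
  unfold Lat.bd Lat.hb
  rw [Λ.rt_eq, Matrix.add_mulVec, Matrix.one_mulVec, Matrix.smul_mulVec, add_sub_cancel_left]

theorem Lat.isCh_cb (Λ : Lat) : IsCh H Λ.cb := by
  refine ⟨Sm.mono ?_ le_top, fun g _ h _ => ?_⟩
  · obtain ⟨N, hN, hs⟩ := Λ.sm 2
    refine ⟨N, hN, fun g hg k hk hkN => ?_⟩
    ext i l
    have h1 := rn_eq.1 (congrFun (hs g hg k hk hkN) i) l
    rw [Pi.sub_apply, Λ.hc, Λ.hc, Matrix.add_apply, Matrix.add_apply, add_sub_add_left_eq_sub,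
      Matrix.smul_apply, Matrix.smul_apply, smul_eq_mul, smul_eq_mul, ← mul_sub, pow_succ',
      mul_dvd_mul_iff_left two_ne, ← dvd_iff1, map_sub, sub_eq_zero] at h1
    exact h1
  · have h1 : Λ.c (g * h) = Λ.c g + Λ.c h + (2 : Z2) • (Λ.c g * Λ.c h) := by
      apply smul_cancel
      have h2 := map_mul Λ.r g h
      rw [Λ.hc, Λ.hc, Λ.hc, add_mul, one_mul, mul_add, mul_one, smul_mul_smul_comm] at h2
      rw [smul_add, smul_add, smul_smul]
      apply add_left_cancel (a := (1 : MZ))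
      rw [h2]
      abel
    ext i l
    simp only [Lat.cb, h1, Matrix.map_apply, Matrix.add_apply, Matrix.smul_apply, smul_eq_mul,
      map_add, map_mul, toZMod_two, zero_mul, add_zero]

theorem Lat.c_I (Λ : Lat) {w : Pl} (hw : ¬ w.p ∣ 30) (hg : g ∈ w.I) : Λ.c g = 0 ∧ Λ.cb g = 0 := by
  have h1 : Λ.c g = 0 := by
    apply smul_cancel
    have h2 := Λ.unr w hw g hg
    rw [Λ.hc, add_eq_left] at h2
    rw [h2, smul_zero]
  refine ⟨h1, ?_⟩
  ext i l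
  simp only [Lat.cb, h1, Matrix.map_apply, Matrix.zero_apply, map_zero]

theorem Lat.sm_rt (Λ : Lat) (hψ : IsCh H ψ) (n : ℕ) :
    ∃ N, ON N ∧ ∀ g ∈ H, g ∈ N → ∀ u, Dv n (Λ.rt ψ g *ᵥ u - u) := by
  obtain ⟨N, hN, hs⟩ := Λ.sm n
  obtain ⟨N', hN', hs'⟩ := hψ.1
  refine ⟨N ⊓ N', hN.inf hN', fun g hg hgN u => ?_⟩
  have h1 := hs' 1 H.one_mem g hg hgN.2
  rw [one_mul, hψ.one] at h1
  have h2 := hs 1 (Subgroup.mem_top _) g (Subgroup.mem_top _) hgN.1
  rw [one_mul] at h2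
  have h3 : Λ.rt ψ g *ᵥ u - u = (Λ.r g - 1) *ᵥ u := by
    unfold Lat.rt
    rw [h1, sg_zero, one_smul, Matrix.sub_mulVec, Matrix.one_mulVec]
  rw [h3]
  intro i
  show _ ∣ ∑ k, (Λ.r g - 1) i k * u k
  refine Finset.dvd_sum fun k _ => Dvd.dvd.mul_right ?_ (u k)
  have h4 := rn_eq.1 (congrFun h2 i) k
  rw [map_one] at h4
  exact h4

end Pool.Agent.P.MP_8b7eba_nt.SM
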