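import Pool.Agent.P.MP_8b7eba_nt.SM.IfC

/-! Proof of LAM. -/

namespace Pool.Agent.P.MP_8b7eba_nt.SM

open Finset

namespace TLAM

variable {k M : ℕ}

/-- the multiples of indicator functions of subgrids -/
noncomputable def gg (U : Finset (Option (Fin k))) (ζ : Gz k M) : Gz k M → Z2 :=
  fun z => if ∀ i ∈ U, z i = ζ i then 2 ^ U.card else 0

theorem gg_mem (U : Finset (Option (Fin k))) (ζ : Gz k M) : gg U ζ ∈ Lam k M := by
  have e : gg U ζ = ∏ i ∈ U, fun z : Gz k M => if z i = ζ i then (2 : Z2) else 0 := by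
    funext z
    rw [Finset.prod_apply, gg, prod_ite_zero, prod_const]
    congr
  rw [e]
  exact prod_mem fun i _ => Algebra.subset_adjoin ⟨i, ζ i, rfl⟩

theorem gg_cut (U : Finset (Option (Fin k))) (ζ : Gz k M) :
    gg U ζ = gg U fun i => if i ∈ U then ζ i else 0 := by
  funext z
  exact if_congr (forall₂_congr fun i hi => by simp only [if_pos hi]) rfl rfl

theorem gg_mul (U U' : Finset (Option (Fin k))) (ζ ζ' : Gz k M) : ∃ (c : Z2) (ζ'' : Gz k M),
    gg U ζ * gg U' ζ' = c • gg (U ∪ U') ζ'' := by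
  by_cases h : ∀ i ∈ U, i ∈ U' → ζ i = ζ' i
  · refine ⟨2 ^ (U ∩ U').card, fun i => if i ∈ U then ζ i else ζ' i, funext fun z => ?_⟩
    have e : (∀ i ∈ U ∪ U', z i = if i ∈ U then ζ i else ζ' i) ↔
        (∀ i ∈ U, z i = ζ i) ∧ ∀ i ∈ U', z i = ζ' i := by
      refine ⟨fun h1 => ⟨fun i hi => ?_, fun i hi => ?_⟩, fun h1 i hi => ?_⟩
      · rw [h1 i (mem_union_left _ hi), if_pos hi]
      · rw [h1 i (mem_union_right _ hi)]
        split_ifs with h2
        exacts [h i h2 hi, rfl]
      · split_ifs with h2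
        exacts [h1.1 i h2, h1.2 i ((mem_union.1 hi).resolve_left h2)]
    simp only [gg, Pi.mul_apply, Pi.smul_apply, smul_eq_mul, e, ite_zero_mul_ite_zero]
    simp only [mul_ite, mul_zero, ← pow_add, add_comm (U ∩ U').card, card_union_add_card_inter]
  · refine ⟨0, ζ, funext fun z => ?_⟩
    simp only [gg, Pi.mul_apply, zero_smul, Pi.zero_apply, ite_zero_mul_ite_zero]
    exact if_neg fun h1 => h fun i hi hi' => (h1.1 i hi).symm.trans (h1.2 i hi')

end TLAM

open TLAM in
theorem t_LAM : LAM := by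
  intro k M
  constructor
  · intro U f hf
    have e : (fun z => 2 ^ U.card * f z) =
        ∑ ζ ∈ univ.filter (fun ζ : Gz k M => ∀ i, i ∉ U → ζ i = 0), f ζ • gg U ζ := by
      funext z
      rw [Finset.sum_apply, sum_eq_single fun i => if i ∈ U then z i else 0]
      · rw [Pi.smul_apply, gg, if_pos fun i hi => (if_pos hi).symm, smul_eq_mul, mul_comm]
        exact congrArg (· * _) (hf _ _ fun i hi => (if_pos hi).symm)
      · intro ζ hζ hne
        rw [Pi.smul_apply, gg, if_neg, smul_zero]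
        refine fun h => hne (funext fun i => ?_)
        split_ifs with hi
        exacts [(h i hi).symm, (mem_filter.1 hζ).2 i hi]
      · exact fun h => absurd (mem_filter.2 ⟨mem_univ _, fun i hi => if_neg hi⟩) h
    rw [e]
    exact sum_mem fun ζ _ => Subalgebra.smul_mem _ (gg_mem U ζ) _
  · intro f hf
    set S := {g : Gz k M → Z2 | ∃ (U : Finset (Option (Fin k))) (ζ : Gz k M),
      (∀ i, i ∉ U → ζ i = 0) ∧ g = fun z => if ∀ i ∈ U, z i = ζ i then 2 ^ U.card else 0}
    have hS : ∀ U ζ, gg U ζ ∈ Submodule.span Z2 S := fun U ζ =>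
      Submodule.subset_span ⟨U, _, fun i hi => if_neg hi, gg_cut U ζ⟩
    rw [Lam, ← Subalgebra.mem_toSubmodule, Algebra.adjoin_eq_span] at hf
    refine Submodule.span_le.2 (fun g hg => ?_) hf
    suffices ∃ (c : Z2) (U : _) (ζ : Gz k M), g = c • gg U ζ by
      obtain ⟨c, U, ζ, rfl⟩ := this
      exact Submodule.smul_mem _ _ (hS U ζ)
    induction hg using Submonoid.closure_induction with
    | mem g hg =>
      obtain ⟨i, j, rfl⟩ := hg
      exact ⟨1, {i}, fun _ => j, funext fun z => by simp [gg]⟩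
    | one => exact ⟨1, ∅, 0, funext fun z => by simp [gg]⟩
    | mul g g' _ _ h h' =>
      obtain ⟨c, U, ζ, rfl⟩ := h
      obtain ⟨c', U', ζ', rfl⟩ := h'
      obtain ⟨c'', ζ'', e⟩ := gg_mul U U' ζ ζ'
      exact ⟨c * c' * c'', U ∪ U', ζ'', by rw [smul_mul_smul_comm, e, smul_smul]⟩

end Pool.Agent.P.MP_8b7eba_nt.SM
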