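import Pool.Agent.P.MP_8b7eba_nt.SM.IfC

/-! Proof of MCO. -/

namespace Pool.Agent.P.MP_8b7eba_nt.SM

open Finset

namespace TMCO

variable {k M : ℕ}

/-- dependence on the first coordinate and those in `W` only -/
def Dep (W : Finset (Fin k)) (g : Gz k M → Z2) : Prop :=
  ∀ z z' : Gz k M, z none = z' none → (∀ i ∈ W, z (some i) = z' (some i)) → g z = g z'

theorem mem_Lam (hLAM : LAM) (W : Finset (Fin k)) (g : Gz k M → Z2) (hg : Dep W g)
    (hd : ∀ z, 2 ^ (W.card + 1) ∣ g z) : g ∈ Lam k M := by
  classical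
  have h : ∀ x : Z2, ∃ y : Z2, 2 ^ (W.card + 1) ∣ x → x = 2 ^ (W.card + 1) * y := by
    intro x
    by_cases hx : 2 ^ (W.card + 1) ∣ x
    · obtain ⟨y, hy⟩ := hx
      exact ⟨y, fun _ => hy⟩
    · exact ⟨0, fun h => absurd h hx⟩
  choose h hh using h
  have := (hLAM k M).1 (Finset.insertNone W) (fun z => h (g z)) fun z z' hz => by
    rw [hg z z' (hz none (by simp)) fun i hi => hz (some i) (by simpa using hi)]
  rw [Finset.card_insertNone] at this
  convert this using 1
  funext z
  exact hh _ (hd z)

/-- one term of the governing function -/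
noncomputable def mte (γ : Fin (M + 1) → Mu k M → F2) (U : Finset (Fin k)) (z : Gz k M) : Z2 :=
  if ∀ i ∈ U, z (some i) ≠ 0 then
    2 ^ U.card * ((γ (z none) (ers (fun i => z (some i)) Uᶜ)).val : Z2) else 0

theorem mm_eq (γ : Fin (M + 1) → Mu k M → F2) (z : Gz k M) : mm γ z = ∑ U, mte γ U z := rfl

theorem mte_dep (γ : Fin (M + 1) → Mu k M → F2) {U W : Finset (Fin k)} (h : U ⊆ W) :
    Dep W (mte γ U) := by
  intro z z' h0 h1
  have e : ers (fun i => z (some i)) Uᶜ = ers (fun i => z' (some i)) Uᶜ := by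
    funext i
    by_cases hi : i ∈ U
    · simp [ers, hi, h1 i (h hi)]
    · simp [ers, hi]
  unfold mte
  rw [e, h0]
  exact if_congr (forall₂_congr fun i hi => by rw [h1 i (h hi)]) rfl rfl

theorem mte_dvd (γ : Fin (M + 1) → Mu k M → F2) (U : Finset (Fin k)) (z : Gz k M) :
    2 ^ U.card ∣ mte γ U z := by
  unfold mte
  split_ifs
  · exact dvd_mul_right _ _
  · exact dvd_zero _

/-- one term of the product of the signs -/
noncomputable def pt (a : Fin k → Fin (M + 1) → F2) (V : Finset (Fin k)) (z : Gz k M) : Z2 :=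
  2 ^ V.card * ∏ i ∈ V, -((a i (z (some i))).val : Z2)

theorem pt_dep (a : Fin k → Fin (M + 1) → F2) {U W : Finset (Fin k)} (h : U ⊆ W) :
    Dep W (pt a U) := by
  intro z z' _ h1
  unfold pt
  rw [Finset.prod_congr rfl fun i hi => by rw [h1 i (h hi)]]

theorem sg_eq (x : F2) : sg x = 1 + 2 * -((x.val : Z2)) := by
  have : x = 0 ∨ x = 1 := by revert x; decide
  rcases this with rfl | rfl
  · simp [sg]
  · simp only [sg, ZMod.val_one]; norm_num

theorem prod_sg (a : Fin k → Fin (M + 1) → F2) (z : Gz k M) :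
    ∏ i, sg (a i (z (some i))) = ∑ V, pt a V z := by
  simp only [sg_eq]
  rw [Finset.prod_one_add, Finset.powerset_univ]
  refine Finset.sum_congr rfl fun V _ => ?_
  rw [Finset.prod_mul_distrib, Finset.prod_const, pt]

theorem two_dvd {x : Z2} (h : PadicInt.toZMod x = 0) : 2 ∣ x := by
  have : x ∈ RingHom.ker (PadicInt.toZMod (p := 2)) := h
  rw [PadicInt.ker_toZMod, PadicInt.maximalIdeal_eq_span_p, Ideal.mem_span_singleton] at this
  exact_mod_cast this

theorem regroup (F : Finset (Fin k) → Finset (Fin k) → Z2) :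
    ∑ V, ∑ U, F V U = ∑ W : Finset (Fin k), ∑ V ∈ W.powerset, F V (W \ V) +
      ∑ V, ∑ U ∈ univ.filter fun U => ¬Disjoint U V, F V U := by
  have : ∑ W : Finset (Fin k), ∑ V ∈ W.powerset, F V (W \ V) =
      ∑ V, ∑ U ∈ univ.filter fun U => Disjoint U V, F V U := by
    rw [Finset.sum_comm' (t' := univ) (s' := fun V => univ.filter fun W => V ⊆ W) (by simp)]
    refine Finset.sum_congr rfl fun V _ => ?_
    refine Finset.sum_bij' (fun W _ => W \ V) (fun U _ => U ∪ V) ?_ ?_ ?_ ?_ ?_
    · intro W _; simp [Finset.sdiff_disjoint]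
    · intro U _; simp
    · intro W hW; exact Finset.sdiff_union_of_subset (by simpa using hW)
    · intro U hU; exact Finset.union_sdiff_cancel_right (by simpa using hU)
    · intro W _; rfl
  rw [this, ← Finset.sum_add_distrib]
  exact Finset.sum_congr rfl fun V _ => (Finset.sum_filter_add_sum_filter_not _ _ _).symm

end TMCO

open TMCO

theorem t_MCO (hLAM : LAM) : MCO := by
  intro k M a γ γ' γ'' ha hγ
  have e : (fun z => mm γ'' z - mm γ z - (∏ i, sg (a i (z (some i)))) * mm γ' z) =
      ∑ W : Finset (Fin k), (fun z => mte γ'' W z - mte γ W z -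
        ∑ V ∈ W.powerset, pt a V z * mte γ' (W \ V) z) -
      ∑ V, ∑ U ∈ univ.filter fun U => ¬Disjoint U V, fun z => pt a V z * mte γ' U z := by
    funext z
    simp only [Pi.sub_apply, Finset.sum_apply, mm_eq, prod_sg, Finset.sum_mul_sum,
      Finset.sum_sub_distrib]
    rw [regroup fun V U => pt a V z * mte γ' U z]
    ring
  rw [e]
  refine Subalgebra.sub_mem _ (Subalgebra.sum_mem _ fun W _ => ?_)
    (Subalgebra.sum_mem _ fun V _ => Subalgebra.sum_mem _ fun U hU => ?_)
  · refine mem_Lam hLAM W _ (fun z z' h0 h1 => ?_) fun z => ?_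
    · show _ - _ - _ = _ - _ - _
      rw [mte_dep γ'' (Subset.refl W) z z' h0 h1, mte_dep γ (Subset.refl W) z z' h0 h1,
        Finset.sum_congr rfl fun V hV => by
          rw [pt_dep a (mem_powerset.1 hV) z z' h0 h1, mte_dep γ' sdiff_subset z z' h0 h1]]
    · by_cases hW : ∀ i ∈ W, z (some i) ≠ 0
      · have e1 : ∀ V ∈ W.powerset, pt a V z * mte γ' (W \ V) z = 2 ^ W.card *
            ((∏ i ∈ V, -((a i (z (some i))).val : Z2)) *
              ((γ' (z none) (ers (fun i => z (some i)) (W \ V)ᶜ)).val : Z2)) := by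
          intro V hV
          rw [pt, mte, if_pos fun i hi => hW i (sdiff_subset hi),
            ← card_sdiff_add_card_eq_card (mem_powerset.1 hV), pow_add]
          ring
        rw [Finset.sum_congr rfl e1, ← Finset.mul_sum, mte, mte, if_pos hW, if_pos hW, ← mul_sub,
          ← mul_sub, pow_succ]
        refine mul_dvd_mul_left _ (two_dvd ?_)
        simp only [map_sub, map_sum, map_mul, map_prod, map_neg, map_natCast,
          ZMod.natCast_zmod_val, CharTwo.neg_eq]
        rw [hγ, add_sub_cancel_left, sub_eq_zero]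
        symm
        refine (Finset.sum_congr rfl fun V hV => ?_).trans (Finset.sum_subset (subset_univ _)
          fun V _ hV => ?_)
        · have hV' := mem_powerset.1 hV
          congr 1
          · exact Finset.prod_congr rfl fun i hi => by simp [ers, hV' hi]
          · congr 1
            funext i
            by_cases h1 : i ∈ V <;> by_cases h2 : i ∈ W <;> simp [ers, h1, h2]
        · obtain ⟨i, h1, h2⟩ := not_subset.1 fun h => hV (mem_powerset.2 h)
          rw [Finset.prod_eq_zero h1 (by simp [ers, h2, ha]), zero_mul]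
      · rw [mte, mte, if_neg hW, if_neg hW, Finset.sum_eq_zero, sub_zero, sub_zero]
        · exact dvd_zero _
        intro V _
        push Not at hW
        obtain ⟨i, h1, h2⟩ := hW
        by_cases h3 : i ∈ V
        · rw [pt, Finset.prod_eq_zero h3 (by simp [h2, ha]), mul_zero, zero_mul]
        · rw [mte, if_neg fun h => h i (mem_sdiff.2 ⟨h1, h3⟩) h2, mul_zero]
  · refine mem_Lam hLAM (U ∪ V) _ (fun z z' h0 h1 => ?_) fun z => ?_
    · show _ * _ = _ * _
      rw [pt_dep a subset_union_right z z' h0 h1, mte_dep γ' subset_union_left z z' h0 h1]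
    · have h1 : (U ∪ V).card + 1 ≤ V.card + U.card := by
        have h2 := card_union_add_card_inter U V
        have h3 : (U ∩ V).Nonempty := not_disjoint_iff_nonempty_inter.1 (by simpa using hU)
        have := h3.card_pos
        omega
      refine (pow_dvd_pow _ h1).trans ?_
      rw [pow_add]
      exact mul_dvd_mul (dvd_mul_right _ _) (mte_dvd _ _ _)

theorem t_MCV (hLAM : LAM) : MCV := by
  intro k M γ
  refine ⟨fun f => ?_, fun z => ?_⟩
  · have e : (fun z => 2 * f (z none) * mm γ z) =
        ∑ W : Finset (Fin k), fun z : Gz k M => 2 * f (z none) * mte γ W z := by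
      funext z
      simp only [Finset.sum_apply, mm_eq, Finset.mul_sum]
    rw [e]
    refine Subalgebra.sum_mem _ fun W _ => mem_Lam hLAM W _ (fun z z' h0 h1 => ?_) fun z => ?_
    · show _ * _ = _ * _
      rw [mte_dep γ (Subset.refl W) z z' h0 h1, h0]
    · rw [pow_succ']
      exact mul_dvd_mul (dvd_mul_right _ _) (mte_dvd _ _ _)
  have h0 : mte γ ∅ z = (γ (z none) 0).val := by
    have : ers (fun i => z (some i)) (∅ : Finset (Fin k))ᶜ = 0 := by
      funext i; simp [ers]
    rw [mte, this]
    simp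
  refine ⟨?_, fun h => ?_, fun h => ?_⟩
  · rw [mm_eq, map_sum, Finset.sum_eq_single ∅, h0]
    · simp
    · intro U _ hU
      obtain ⟨y, hy⟩ := (dvd_pow_self 2 (card_ne_zero.2 (nonempty_iff_ne_empty.2 hU))).trans
        (mte_dvd γ U z)
      rw [hy, map_mul, map_ofNat, show (2 : ZMod 2) = 0 from rfl, zero_mul]
    · simp
  · rw [mm_eq, Finset.sum_eq_single ∅, h0]
    · intro U _ hU
      obtain ⟨i, hi⟩ := nonempty_iff_ne_empty.2 hU
      unfold mte
      split_ifs with h1
      · rw [h _ fun h2 => h1 i hi (by simpa [ers, hi] using congrFun h2 i)]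
        simp
      · rfl
    · simp
  · rw [mm_eq, Finset.sum_eq_single univ]
    · have : ers (fun i => z (some i)) (univ : Finset (Fin k))ᶜ = fun i => z (some i) := by
        funext i; simp [ers]
      rw [mte, this]
      simp
    · intro U _ hU
      obtain ⟨i, hi⟩ : ∃ i, i ∉ U := by
        by_contra hn
        push Not at hn
        exact hU (eq_univ_of_forall hn)
      unfold mte
      rw [h _ ⟨i, by simp [ers, hi]⟩]
      simp
    · simp

end Pool.Agent.P.MP_8b7eba_nt.SM
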