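import Pool.Agent.P.MP_8b7eba_nt.SM.BasR
import Pool.Agent.P.MP_8b7eba_nt.SM.BasY
import Pool.Agent.P.MP_8b7eba_nt.SM.TMCO
import Pool.Agent.P.MP_8b7eba_nt.SM.TLAM

/-! Grids of twists. -/

namespace Pool.Agent.P.MP_8b7eba_nt.SM

open Finset R2
open scoped Matrix

variable {k M s : ℕ} {𝒢 : Grid k M} {y p : ℕ} {z z' : Gz k M} {g : GQ} {w : Pl}

theorem Mx.mul {l l' : Gz k M → Z2} (h : Mx l) (h' : l' ∈ Lam k M) : Mx (l * l') := by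
  exact ⟨mul_mem h.1 h', fun z => (h.2 z).mul_right _⟩

theorem mx_two (c : Z2) : Mx fun _ : Gz k M => 2 * c := by
  exact ⟨(Lam k M).algebraMap_mem (2 * c), fun _ => dvd_mul_right _ _⟩

theorem two_mem (i : Option (Fin k)) (f : Fin (M + 1) → Z2) :
    (fun z : Gz k M => 2 * f (z i)) ∈ Lam k M := by
  simpa using (t_LAM k M).1 {i} (fun z => f (z i)) fun z z' e => by rw [e i (mem_singleton_self i)]

namespace BasV

theorem sg_sum {ι : Type} (s : Finset ι) (f : ι → F2) : sg (∑ i ∈ s, f i) = ∏ i ∈ s, sg (f i) := by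
  classical
  induction s using Finset.induction_on with
  | empty => simp [sg]
  | insert a s ha ih => rw [sum_insert ha, prod_insert ha, sg_add, ih]

theorem prod_mem {ι : Type} [Fintype ι] (e : ι → Option (Fin k)) (f : ι → Fin (M + 1) → F2) :
    (fun z : Gz k M => ∏ i, sg (f i (z (e i)))) ∈ Lam k M := by
  rw [← Finset.prod_fn]
  refine Subalgebra.prod_mem _ fun i _ => ?_
  simp only [sg_eq]
  exact sub_mem (one_mem _) (two_mem (e i) fun j => ((f i j).val : Z2))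

theorem sum_S {A : Type} [AddCommMonoid A] (h : 𝒢.Pt y) (z : Gz k M) (f : ℕ → A) :
    ∑ p ∈ 𝒢.S y z, f p = ∑ p ∈ insert y 𝒢.P, f p + ∑ i, f (𝒢.q i (z i)) := by
  rw [Grid.S, sum_union, sum_image fun i _ i' _ e => (𝒢.ar.inj _ _ _ _ e).1]
  refine disjoint_right.2 fun p hp hp' => ?_
  obtain ⟨i, -, rfl⟩ := mem_image.1 hp
  exact (mem_insert.1 hp').elim (h.nq _ _) (𝒢.ar.gp _ _).2

end BasV

namespace Grid

theorem mem_S : p ∈ 𝒢.S y z ↔ p = y ∨ p ∈ 𝒢.P ∨ ∃ i, 𝒢.q i (z i) = p := by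
  simp only [S, mem_union, mem_insert, mem_image, mem_univ, true_and, or_assoc]

theorem q_mem (h : 𝒢.Pt y) (i : Option (Fin k)) (j : Fin (M + 1)) :
    𝒢.q i j ∈ 𝒢.S y z ↔ z i = j := by
  rw [mem_S]
  refine ⟨?_, fun e => Or.inr (Or.inr ⟨i, by rw [e]⟩)⟩
  rintro (e | e | ⟨i', e⟩)
  · exact absurd e (h.nq i j)
  · exact absurd e (𝒢.ar.gp i j).2
  · obtain ⟨rfl, e'⟩ := 𝒢.ar.inj _ _ _ _ e
    exact e'

theorem S_gp (h : 𝒢.Pt y) (z : Gz k M) : ∀ p ∈ 𝒢.S y z, Gp p := by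
  intro p hp
  rcases mem_S.1 hp with rfl | e | ⟨i, rfl⟩
  · exact h.gp
  · exact 𝒢.ar.gP p e
  · exact (𝒢.ar.gp _ _).1

theorem sum_S {A : Type} [AddCommMonoid A] (h : 𝒢.Pt y) (z : Gz k M) (f : ℕ → A) :
    ∑ p ∈ 𝒢.S y z ∪ T30, f p = ∑ p ∈ insert y 𝒢.P ∪ T30, f p + ∑ i, f (𝒢.q i (z i)) := by
  rw [S, union_right_comm, sum_union, sum_image fun i _ i' _ e => (𝒢.ar.inj _ _ _ _ e).1]
  refine disjoint_right.2 fun p hp hp' => ?_
  obtain ⟨i, -, rfl⟩ := mem_image.1 hp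
  rcases mem_union.1 hp' with e | e
  · exact (mem_insert.1 e).elim (h.nq _ _) (𝒢.ar.gp _ _).2
  · exact (𝒢.ar.gp _ _).1.ne.2.2.2.1 e

theorem chi_S (h : 𝒢.Pt y) (z : Gz k M) (g : GQ) :
    chi (𝒢.S y z) g = chi (𝒢.S y 0) g + ∑ i, aa 𝒢.q i (z i) g := by
  simp only [chi, Finset.sum_apply, BasV.sum_S h, aa, Pi.add_apply, Pi.zero_apply, sum_add_distrib]
  rw [add_assoc, add_left_comm (∑ i, qs (𝒢.q i 0) g), CharTwo.add_self_eq_zero, add_zero]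

theorem rt_S (h : 𝒢.Pt y) (Λ : Lat) (z : Gz k M) (g : GQ) :
    Λ.rt (chi (𝒢.S y z)) g = 𝒢.la g z • Λ.rt (chi (𝒢.S y 0)) g := by
  rw [Lat.rt, Lat.rt, chi_S h, sg_add, BasV.sg_sum, smul_smul, mul_comm, la]

theorem la_mem (𝒢 : Grid k M) (g : GQ) : 𝒢.la g ∈ Lam k M ∧ Mx (𝒢.la g - 1) := by
  have h1 : 𝒢.la g ∈ Lam k M := BasV.prod_mem (fun i => i) fun i j => aa 𝒢.q i j g
  refine ⟨h1, sub_mem h1 (one_mem _), fun z => ?_⟩
  rw [Pi.sub_apply, la, ← BasV.sg_sum, sg_eq, Pi.one_apply, sub_sub_cancel_left]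
  exact (dvd_mul_right _ _).neg_right

theorem m_red (𝒢 : Grid k M) (g : GQ) (z : Gz k M) :
    PadicInt.toZMod (𝒢.m g z) = qs (𝒢.q none (z none)) g + qs (𝒢.q none 0) g := by
  rw [m, ((t_MCV t_LAM k M _).2 z).1, (𝒢.gov _).zero, Pi.add_apply]

theorem rd_xv {φ : X2} {R : V1} {x : GQ → VZ} (h : rd (x g) = 𝒢.ph φ R z g) :
    rd (𝒢.xv R z x g) = φ g + qs (𝒢.q none 0) g • R := by
  rw [xv, rd_sub, rd_smul, rd_lf, m_red, h, ph, add_smul, add_assoc, ← add_assoc (_ • R),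
    ← add_smul, CharTwo.add_self_eq_zero, zero_smul, zero_add]

theorem m_sm (𝒢 : Grid k M) : Sm ⊤ 𝒢.m := by
  exact Sm.comp (c := fun g j μ => 𝒢.γ j μ g)
    (Sm.pi fun j => Sm.pi fun μ => ((𝒢.gov j).rel μ (Nat.lt_succ_of_le (dg_le μ))).1) mm

theorem err_mem (h : 𝒢.Pt y) (Λ : Lat) (R : V1) (g g' : GQ) (i : Fin 2) :
    (fun z => (Λ.rt (chi (𝒢.S y z)) g *ᵥ (𝒢.m g' z • lf R) + 𝒢.m g z • lf R -
      𝒢.m (g * g') z • lf R) i) ∈ Lam k M := by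
  have h1 := t_MCO t_LAM k M (fun i j => aa (low 𝒢.q) i j g) (fun j μ => 𝒢.γ j μ g)
    (fun j μ => 𝒢.γ j μ g') (fun j μ => 𝒢.γ j μ (g * g')) (fun i => by rw [aa_zero]; rfl)
    fun j μ => ((𝒢.gov j).rel μ (Nat.lt_succ_of_le (dg_le μ))).all g g'
  have h2 := (t_MCV t_LAM k M fun j μ => 𝒢.γ j μ g').1 fun j =>
    (Λ.hh (chi (𝒢.S y 0) g) g *ᵥ lf R) i - ((aa 𝒢.q none j g).val : Z2) *
      (lf R i + 2 * (Λ.hh (chi (𝒢.S y 0) g) g *ᵥ lf R) i)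
  have h3 := BasV.prod_mem (M := M) (some : Fin k → _) fun i j => aa 𝒢.q (some i) j g
  convert sub_mem (mul_mem h3 h2) ((Lam k M).smul_mem h1 (lf R i)) using 1
  funext z
  rw [rt_S h, Lat.rt_eq, la, Fintype.prod_option, sg_eq]
  simp only [Matrix.smul_mulVec, Matrix.add_mulVec, Matrix.one_mulVec, Matrix.mulVec_smul,
    Pi.sub_apply, Pi.add_apply, Pi.smul_apply, Pi.mul_apply, smul_eq_mul, m]
  change _ = _ - _ * (_ - _ - (∏ i, sg (aa 𝒢.q (some i) (z (some i)) g)) * _)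
  ring

end Grid

end Pool.Agent.P.MP_8b7eba_nt.SM
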