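import Pool.Agent.P.MP_8b7eba_nt.SM.BasY

/-! Cocycles modulo powers of two. -/

namespace Pool.Agent.P.MP_8b7eba_nt.SM

open Finset R2
open scoped Matrix

variable {n m j : ℕ} {u v v' : VZ} {a : V1} {H H' : Subgroup GQ} {ψ ψ' : GQ → F2} {Λ : Lat}
  {x x' y : GQ → VZ} {o : Prop} {g h : GQ}

/-! ### Cocycles -/

namespace BasZ

theorem of_eq (h : Dv n u) (e : v = u) : Dv n v := e ▸ h

theorem zn_iff : Λ.Zn ψ H n x ↔ (∃ N, ON N ∧ ∀ g ∈ H, ∀ k ∈ H, k ∈ N → Dv n (x (g * k) - x g)) ∧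
    ∀ g ∈ H, ∀ k ∈ H, Dv n (x (g * k) - x g - Λ.rt ψ g *ᵥ x k) := by
  simp only [← rn_eq (u := x _) (v := x _)]
  exact ⟨fun h => ⟨h.sm, h.co⟩, fun h => ⟨h.1, h.2⟩⟩

theorem bd (hψ : IsCh H ψ) (v : VZ) : Λ.Zn ψ H n (Λ.bd ψ v) := by
  obtain ⟨N, a, b⟩ := Λ.sm_rt hψ n
  refine zn_iff.2 ⟨⟨N, a, fun g hg k hk m => ?_⟩, fun g hg k hk => ?_⟩
  · refine of_eq ((b k hk m v).mulVec (Λ.rt ψ g)) ?_
    rw [Lat.bd, Lat.bd, Lat.rt_mul hψ hg hk, Matrix.mulVec_sub, Matrix.mulVec_mulVec]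
    abel
  · refine of_eq dv_zero ?_
    rw [Lat.bd, Lat.bd, Lat.bd, Lat.rt_mul hψ hg hk, Matrix.mulVec_sub, Matrix.mulVec_mulVec]
    abel

theorem bd_add (u v : VZ) : Λ.bd ψ (u + v) g = Λ.bd ψ u g + Λ.bd ψ v g := by
  rw [Lat.bd, Lat.bd, Lat.bd, Matrix.mulVec_add]
  abel

theorem bd_smul (c : Z2) (v : VZ) : Λ.bd ψ (c • v) g = c • Λ.bd ψ v g := by
  rw [Lat.bd, Lat.bd, Matrix.mulVec_smul, smul_sub]

end BasZ

open BasZ

theorem Lat.Zn.mono (h : Λ.Zn ψ H n x) (h' : H' ≤ H) (hm : m ≤ n) : Λ.Zn ψ H' m x := by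
  obtain ⟨⟨N, a, b⟩, c⟩ := zn_iff.1 h
  exact zn_iff.2 ⟨⟨N, a, fun g hg k hk e => (b g (h' hg) k (h' hk) e).mono hm⟩,
    fun g hg k hk => (c g (h' hg) k (h' hk)).mono hm⟩

theorem Lat.Zn.congr (h : Λ.Zn ψ H n x) (e : ∀ g ∈ H, Dv n (x' g - x g)) : Λ.Zn ψ H n x' := by
  obtain ⟨⟨N, a, b⟩, c⟩ := zn_iff.1 h
  refine zn_iff.2 ⟨⟨N, a, fun g hg k hk m => ?_⟩, fun g hg k hk => ?_⟩
  · exact of_eq (((e _ (mul_mem hg hk)).sub (e g hg)).add (b g hg k hk m)) (by abel)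
  · exact of_eq ((((e _ (mul_mem hg hk)).sub (e g hg)).sub ((e k hk).mulVec (Λ.rt ψ g))).add
      (c g hg k hk)) (by rw [Matrix.mulVec_sub]; abel)

theorem Lat.Zn.congr_chi (h : Λ.Zn ψ H n x) (e : ∀ g ∈ H, ψ' g = ψ g) : Λ.Zn ψ' H n x := by
  refine ⟨h.sm, fun g hg k hk => ?_⟩
  rw [Lat.rt, e g hg]
  exact h.co g hg k hk

theorem Lat.zn_zero : Λ.Zn ψ H n fun _ => 0 := by
  exact ⟨Sm.const _, fun g _ k _ => of_eq dv_zero (by simp)⟩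

theorem Lat.Zn.add (h : Λ.Zn ψ H n x) (h' : Λ.Zn ψ H n y) : Λ.Zn ψ H n fun g => x g + y g := by
  obtain ⟨⟨N, a, b⟩, c⟩ := zn_iff.1 h
  obtain ⟨⟨N', a', b'⟩, c'⟩ := zn_iff.1 h'
  refine zn_iff.2 ⟨⟨_, a.inf a', fun g hg k hk m => ?_⟩, fun g hg k hk => ?_⟩
  · exact of_eq ((b g hg k hk m.1).add (b' g hg k hk m.2)) (by abel)
  · exact of_eq ((c g hg k hk).add (c' g hg k hk)) (by rw [Matrix.mulVec_add]; abel)

theorem Lat.Zn.sub (h : Λ.Zn ψ H n x) (h' : Λ.Zn ψ H n y) : Λ.Zn ψ H n fun g => x g - y g := by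
  obtain ⟨⟨N, a, b⟩, c⟩ := zn_iff.1 h
  obtain ⟨⟨N', a', b'⟩, c'⟩ := zn_iff.1 h'
  refine zn_iff.2 ⟨⟨_, a.inf a', fun g hg k hk m => ?_⟩, fun g hg k hk => ?_⟩
  · exact of_eq ((b g hg k hk m.1).sub (b' g hg k hk m.2)) (by abel)
  · exact of_eq ((c g hg k hk).sub (c' g hg k hk)) (by rw [Matrix.mulVec_sub]; abel)

theorem Lat.Zn.smul (h : Λ.Zn ψ H n x) (c : Z2) : Λ.Zn ψ H n fun g => c • x g := by
  obtain ⟨⟨N, a, b⟩, d⟩ := zn_iff.1 h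
  refine zn_iff.2 ⟨⟨N, a, fun g hg k hk m => ?_⟩, fun g hg k hk => ?_⟩
  · exact of_eq ((b g hg k hk m).smul c) (by rw [smul_sub])
  · exact of_eq ((d g hg k hk).smul c) (by rw [Matrix.mulVec_smul, smul_sub, smul_sub])

theorem Lat.zn_pow (e : ∀ g ∈ H, x g = (2 : Z2) ^ j • y g) : Λ.Zn ψ H (j + n) x ↔ Λ.Zn ψ H n y := by
  rw [zn_iff, zn_iff]
  refine and_congr (exists_congr fun N => and_congr_right fun _ => forall₂_congr fun g hg =>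
    forall₃_congr fun k hk _ => ?_) (forall₂_congr fun g hg => forall₂_congr fun k hk => ?_)
  · rw [e _ (mul_mem hg hk), e g hg, ← smul_sub, dv_pow]
  · rw [e _ (mul_mem hg hk), e g hg, e k hk, Matrix.mulVec_smul, ← smul_sub, ← smul_sub, dv_pow]

theorem Lat.zn_one : Λ.Zn ψ H 1 x ↔ IsCh H fun g => rd (x g) := by
  rw [zn_iff]
  refine and_congr (exists_congr fun N => and_congr_right fun _ => forall₂_congr fun g _ =>
    forall₃_congr fun k _ _ => rd_eq.symm) (forall₂_congr fun g _ => forall₂_congr fun k _ => ?_)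
  rw [sub_sub, ← rd_eq, rd_add, Lat.rd_rt]

theorem Lat.Zn.isCh (h : Λ.Zn ψ H (n + 1) x) : IsCh H fun g => rd (x g) := by
  exact Lat.zn_one.1 (h.mono le_rfl (Nat.le_add_left 1 n))

theorem Lat.zn_lf {φ : X2} (h : IsCh H φ) : Λ.Zn ψ H (n + 1) fun g => (2 : Z2) ^ n • lf (φ g) := by
  refine (Lat.zn_pow (y := fun g => lf (φ g)) fun _ _ => rfl).2 (Lat.zn_one.2 ?_)
  simpa only [rd_lf] using h

theorem Lat.zn_hb (hψ : IsCh H ψ) (v : VZ) : Λ.Zn ψ H n (Λ.hb ψ v) := by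
  exact (Lat.zn_pow (j := 1) fun g _ => by rw [pow_one, Lat.bd_eq]).1 (BasZ.bd hψ v)

theorem Lat.zn_bd (hψ : IsCh H ψ) (v : VZ) : Λ.Zn ψ H n (Λ.bd ψ v) := by
  exact BasZ.bd hψ v

theorem Lat.Zn.one (hψ : IsCh H ψ) (h : Λ.Zn ψ H n x) : Dv n (x 1) := by
  exact of_eq (h.co 1 H.one_mem 1 H.one_mem).neg (by rw [Lat.rt_one hψ]; simp)

theorem Lat.Zn.conj (hψ : IsCh H ψ) (hx : Λ.Zn ψ H n x) (hg : g ∈ H) (hh : h ∈ H) :
    Dv n (x (g * h * g⁻¹) - (x g + Λ.rt ψ g *ᵥ x h - Λ.rt ψ (g * h * g⁻¹) *ᵥ x g)) := by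
  have _ := hψ
  have e := hx.co _ (mul_mem (mul_mem hg hh) (inv_mem hg)) g hg
  rw [inv_mul_cancel_right] at e
  exact of_eq ((hx.co g hg h hh).sub e) (by abel)

theorem Lat.Zn.exact (hx : ∀ n, Λ.Zn ψ H n x) (hg : g ∈ H) (hh : h ∈ H) :
    x (g * h) = x g + Λ.rt ψ g *ᵥ x h := by
  rw [← sub_eq_zero, ← sub_sub]
  exact eq_zero_of_dv fun n => (hx n).co g hg h hh

theorem Lat.Zn.zero_of (hx : Λ.Zn ψ H n x) (s : Set GQ)
    (hs : ∀ φ : X2, IsCh H φ → (∀ g ∈ s, φ g = 0) → ∀ g ∈ H, φ g = 0) (h0 : ∀ g ∈ s, Dv n (x g))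
    (hg : g ∈ H) : Dv n (x g) := by
  induction n generalizing g with
  | zero => exact fun i => by simp
  | succ n ih =>
    have ih' := fun g (hg : g ∈ H) =>
      ih (hx.mono le_rfl n.le_succ) (fun g hg => (h0 g hg).mono n.le_succ) hg
    choose! u hu using fun g => (dv_iff (n := n) (u := x g)).1
    have h1 := Lat.zn_one.1 ((Lat.zn_pow fun g hg => hu g (ih' g hg)).1 hx)
    rw [hu g (ih' g hg), dv_pow, ← rd_eq_zero]
    refine hs _ h1 (fun k hk => ?_) g hg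
    have h2 := h0 k hk
    rwa [hu k (h2.mono n.le_succ), dv_pow, ← rd_eq_zero] at h2

/-! ### Local conditions -/

theorem BasZ.ex_smul (h : Λ.Ex o ψ H x) (c : Z2) : Λ.Ex o ψ H fun g => c • x g := by
  obtain ⟨h1, k, v, h2⟩ := h
  refine ⟨fun n => (h1 n).smul c, k, c • v, fun g hg => ?_⟩
  simp only [bd_smul, Pi.smul_apply, smul_eq_mul]
  refine ⟨?_, fun ho => ?_⟩
  · rw [← (h2 g hg).1]; ring
  · rw [← (h2 g hg).2 ho]; ring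

theorem BasZ.smul (h : Λ.Lc o ψ H n x) (c : Z2) : Λ.Lc o ψ H n fun g => c • x g := by
  obtain ⟨b, hb, e⟩ := h
  exact ⟨_, ex_smul hb c, fun g hg => of_eq ((e g hg).smul c) (smul_sub ..).symm⟩

theorem Lat.Lc.zn (h : Λ.Lc o ψ H n x) : Λ.Zn ψ H n x := by
  obtain ⟨b, hb, e⟩ := h
  exact (hb.1 n).congr e

theorem Lat.Lc.mono (h : Λ.Lc o ψ H n x) (hm : m ≤ n) : Λ.Lc o ψ H m x := by
  obtain ⟨b, hb, e⟩ := h
  exact ⟨b, hb, fun g hg => (e g hg).mono hm⟩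

theorem Lat.Lc.congr (h : Λ.Lc o ψ H n x) (e : ∀ g ∈ H, Dv n (x' g - x g)) : Λ.Lc o ψ H n x' := by
  obtain ⟨b, hb, e'⟩ := h
  exact ⟨b, hb, fun g hg => of_eq ((e g hg).add (e' g hg)) (by abel)⟩

theorem Lat.Lc.congr_chi (h : Λ.Lc o ψ H n x) (e : ∀ g ∈ H, ψ' g = ψ g) : Λ.Lc o ψ' H n x := by
  obtain ⟨b, ⟨h1, k, v, h2⟩, e'⟩ := h
  refine ⟨b, ⟨fun n => (h1 n).congr_chi e, k, v, fun g hg => ?_⟩, e'⟩
  rw [Lat.bd, Lat.rt, e g hg]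
  exact h2 g hg

theorem Lat.lc_of_dv (e : ∀ g ∈ H, Dv n (x g)) : Λ.Lc o ψ H n x := by
  exact ⟨fun _ => 0, ⟨fun _ => Lat.zn_zero, 0, 0, fun g _ => by simp [Lat.bd]⟩,
    fun g hg => of_eq (e g hg) (sub_zero _)⟩

theorem Lat.Lc.add (h : Λ.Lc o ψ H n x) (h' : Λ.Lc o ψ H n y) :
    Λ.Lc o ψ H n fun g => x g + y g := by
  obtain ⟨b, ⟨h1, k, v, h2⟩, e⟩ := h
  obtain ⟨b', ⟨h1', k', v', h2'⟩, e'⟩ := h'
  refine ⟨fun g => b g + b' g, ⟨fun n => (h1 n).add (h1' n), k + k',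
    (2 : Z2) ^ k' • v + (2 : Z2) ^ k • v', fun g hg => ?_⟩,
    fun g hg => of_eq ((e g hg).add (e' g hg)) (add_sub_add_comm ..)⟩
  simp only [bd_add, bd_smul, Pi.add_apply, Pi.smul_apply, smul_eq_mul]
  refine ⟨?_, fun ho => ?_⟩
  · rw [← (h2 g hg).1, ← (h2' g hg).1]; ring
  · rw [← (h2 g hg).2 ho, ← (h2' g hg).2 ho]; ring

theorem Lat.Lc.sub (h : Λ.Lc o ψ H n x) (h' : Λ.Lc o ψ H n y) :
    Λ.Lc o ψ H n fun g => x g - y g := by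
  exact (h.add (BasZ.smul h' (-1))).congr fun g _ => of_eq dv_zero (by simp [sub_eq_add_neg])

theorem Lat.Lc.smul (h : Λ.Lc o ψ H n x) (c : Z2) : Λ.Lc o ψ H n fun g => c • x g := by
  exact BasZ.smul h c

theorem Lat.Lc.sum {ι : Type} {s : Finset ι} {c : ι → Z2} {f : ι → GQ → VZ}
    (h : ∀ i ∈ s, c i ≠ 0 → Λ.Lc o ψ H n (f i)) : Λ.Lc o ψ H n fun g => ∑ i ∈ s, c i • f i g := by
  classical
  induction s using Finset.induction_on with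
  | empty => exact Lat.lc_of_dv fun g _ => of_eq dv_zero (by simp)
  | insert a s ha ih =>
    simp only [sum_insert ha]
    refine Lat.Lc.add ?_ (ih fun i hi => h i (mem_insert_of_mem hi))
    by_cases e : c a = 0
    · exact Lat.lc_of_dv fun g _ => of_eq dv_zero (by simp [e])
    · exact (h a (mem_insert_self ..) e).smul _

theorem Lat.lc_pow (e : ∀ g ∈ H, x g = (2 : Z2) ^ j • y g) :
    Λ.Lc o ψ H (j + n) x ↔ Λ.Lc o ψ H n y := by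
  constructor
  · rintro ⟨b, ⟨h1, k, v, h2⟩, e'⟩
    have h3 : ∀ g ∈ H, Dv j (b g) := fun g hg =>
      of_eq ((dv_iff.2 ⟨_, e g hg⟩).sub ((e' g hg).mono (Nat.le_add_right j n))) (by abel)
    choose! u hu using fun g hg => dv_iff.1 (h3 g hg)
    refine ⟨u, ⟨fun m => (Lat.zn_pow hu).1 (h1 _), k + j, v, fun g hg => ?_⟩, fun g hg => ?_⟩
    · have h4 := h2 g hg
      simpa only [hu g hg, Pi.smul_apply, smul_eq_mul, pow_add, mul_assoc] using h4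
    · have h4 := e' g hg
      rwa [e g hg, hu g hg, ← smul_sub, dv_pow] at h4
  · rintro ⟨b, hb, e'⟩
    refine ⟨_, ex_smul hb (2 ^ j), fun g hg => ?_⟩
    rw [e g hg, ← smul_sub, dv_pow]
    exact e' g hg

theorem Lat.lc_hb (hψ : IsCh H ψ) (v : VZ) : Λ.Lc o ψ H n (Λ.hb ψ v) := by
  exact ⟨_, ⟨fun _ => Lat.zn_hb hψ v, 1, v, fun g _ => by simp [Lat.bd_eq]⟩,
    fun g _ => of_eq dv_zero (sub_self _)⟩

theorem Lat.Ex.lc (h : Λ.Ex o ψ H x) (n : ℕ) : Λ.Lc o ψ H n x := by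
  exact ⟨x, h, fun g _ => of_eq dv_zero (sub_self _)⟩

end Pool.Agent.P.MP_8b7eba_nt.SM
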