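import Pool.Agent.P.MP_8b7eba_nt.SM.IfG
import Pool.Agent.P.MP_8b7eba_nt.SM.BasV
import Pool.Agent.P.MP_8b7eba_nt.SM.BasZ

/-! Proof of HOM, CLOS1. -/

namespace Pool.Agent.P.MP_8b7eba_nt.SM

open Finset R2
open scoped Matrix

namespace THOM

variable {k M n : ℕ} {𝒢 : Grid k M} {Λ : Lat} {y : ℕ} {c : Gz k M → Z2} {x : Gz k M → GQ → VZ}

/-- the error term -/
noncomputable def er (𝒢 : Grid k M) (Λ : Lat) (y : ℕ) (R : V1) (g h : GQ) (z : Gz k M) : VZ :=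
  Λ.rt (chi (𝒢.S y z)) g *ᵥ (𝒢.m h z • lf R) + 𝒢.m g z • lf R - 𝒢.m (g * h) z • lf R

theorem dv_of {u : VZ} {a : Z2} (h : a ≠ 0 → Dv n u) : Dv n (a • u) := by
  by_cases e : a = 0
  · rw [e, zero_smul]; exact dv_zero
  · exact (h e).smul a

theorem key (R : V1) (hx : ∀ z, c z ≠ 0 → Λ.Zn (chi (𝒢.S y z)) ⊤ n (x z)) (g h : GQ) :
    Dv n (∑ z, c z • 𝒢.xv R z (x z) (g * h) - ∑ z, c z • 𝒢.xv R z (x z) g -
      ∑ z, c z • Λ.rt (chi (𝒢.S y z)) g *ᵥ 𝒢.xv R z (x z) h - ∑ z, c z • er 𝒢 Λ y R g h z) := by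
  rw [← sum_sub_distrib, ← sum_sub_distrib, ← sum_sub_distrib]
  refine Dv.sum fun z _ => BasZ.of_eq (dv_of fun e => (hx z e).co g trivial h trivial) ?_
  rw [← smul_sub, ← smul_sub, ← smul_sub, er, Grid.xv, Grid.xv, Grid.xv, Matrix.mulVec_sub]
  congr 1
  abel

variable [HA]

theorem smooth (R : V1) (hx : ∀ z, c z ≠ 0 → Λ.Zn (chi (𝒢.S y z)) ⊤ n (x z)) :
    ∃ N, ON N ∧ ∀ g, ∀ h ∈ N, 𝒢.m (g * h) = 𝒢.m g ∧
      Dv n (∑ z, c z • 𝒢.xv R z (x z) (g * h) - ∑ z, c z • 𝒢.xv R z (x z) g) := by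
  have h1 : ∀ z, ∃ N, ON N ∧ ∀ g, ∀ h ∈ N, c z ≠ 0 → Dv n (x z (g * h) - x z g) := fun z => by
    by_cases e : c z = 0
    · exact ⟨⊤, ON.top, fun _ _ _ e' => absurd e e'⟩
    · obtain ⟨⟨N, a, b⟩, -⟩ := BasZ.zn_iff.1 (hx z e)
      exact ⟨N, a, fun g h m _ => b g trivial h trivial m⟩
  choose N a b using h1
  obtain ⟨N', a', b'⟩ := exists_ON_forall a
  obtain ⟨N'', a'', b''⟩ := 𝒢.m_sm
  refine ⟨_, a'.inf a'', fun g h m => ⟨b'' g trivial h trivial m.2, ?_⟩⟩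
  rw [← sum_sub_distrib]
  refine Dv.sum fun z _ => BasZ.of_eq (dv_of (b z g h (b' z m.1))) ?_
  rw [← smul_sub, Grid.xv, Grid.xv, b'' g trivial h trivial m.2]
  congr 1
  abel

theorem twist (hy : 𝒢.Pt y) (Λ : Lat) (g : GQ) (a : Z2) (v : Gz k M → VZ)
    (h : ∀ i, Pe n c fun z => (𝒢.la g z - a) * v z i) :
    Dv n (∑ z, c z • Λ.rt (chi (𝒢.S y z)) g *ᵥ v z -
      a • Λ.rt (chi (𝒢.S y 0)) g *ᵥ ∑ z, c z • v z) := by
  have h1 : Dv n (∑ z, c z • (𝒢.la g z - a) • v z) := fun i => by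
    simpa [Pe, Finset.sum_apply] using h i
  refine BasZ.of_eq (h1.mulVec (Λ.rt (chi (𝒢.S y 0)) g)) ?_
  rw [Matrix.mulVec_sum, Matrix.mulVec_sum, smul_sum, ← sum_sub_distrib]
  refine sum_congr rfl fun z _ => ?_
  rw [Grid.rt_S hy Λ z, Matrix.smul_mulVec, Matrix.mulVec_smul, Matrix.mulVec_smul,
    Matrix.mulVec_smul, sub_smul, smul_sub, smul_comm a]

end THOM

open THOM

variable [HA]

theorem t_HOM : HOM := by
  intro k M n 𝒢 Λ y R c x hy hx h1 h2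
  have hz : Λ.Zn (chi (𝒢.S y 0)) ⊤ (n + 1) fun g => ∑ z, c z • 𝒢.xv R z (x z) g := by
    obtain ⟨N, a, b⟩ := smooth R hx
    refine BasZ.zn_iff.2 ⟨⟨N, a, fun g _ h _ m => (b g h m).2⟩, fun g _ h _ => ?_⟩
    have e1 := twist hy Λ g 1 (fun z => 𝒢.xv R z (x z) h) (h2 _ (𝒢.la_mem g).2 h)
    have e2 : Dv (n + 1) (∑ z, c z • er 𝒢 Λ y R g h z) := fun i => by
      rw [Finset.sum_apply]
      exact h1 _ (Grid.err_mem hy Λ R g h i)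
    exact BasZ.of_eq (((key R hx g h).add e1).add e2) (by rw [one_smul]; abel)
  have hd : ∀ g, ∃ v, ∑ z, c z • 𝒢.xv R z (x z) g = (2 : Z2) ^ n • v := fun g => by
    refine dv_iff.1 fun i => ?_
    have e := h2 _ (mx_two 1) g i
    rw [Pe, pow_succ'] at e
    refine (mul_dvd_mul_iff_left BasY.two_ne).1 (e.trans (dvd_of_eq ?_))
    rw [Finset.sum_apply, mul_sum]
    exact sum_congr rfl fun z _ => by simp only [Pi.smul_apply, smul_eq_mul]; ring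
  choose v hv using hd
  exact ⟨fun g => rd (v g), Lat.zn_one.1 ((Lat.zn_pow fun g _ => hv g).1 hz),
    fun g => dv_lf.2 ⟨v g, hv g, rfl⟩⟩

theorem t_CLOS1 : CLOS1 := by
  intro k M n 𝒢 Λ y R c x z₀ hy hx h1 h2
  obtain ⟨N, a, b⟩ := smooth R hx
  refine BasZ.zn_iff.2 ⟨⟨N, a, fun g _ h _ m => ?_⟩, fun g _ h _ => ?_⟩
  · exact BasZ.of_eq (b g h m).2 (by rw [(b g h m).1]; abel)
  · have e1 := twist hy Λ g (𝒢.la g z₀) (fun z => 𝒢.xv R z (x z) h) (h2 _ (𝒢.la_mem g).1 h)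
    have e2 : Dv n (∑ z, c z • er 𝒢 Λ y R g h z - er 𝒢 Λ y R g h z₀) := fun i => by
      rw [Pi.sub_apply, Finset.sum_apply]
      exact h1 _ (Grid.err_mem hy Λ R g h i)
    refine BasZ.of_eq (((key R hx g h).add e1).add e2) ?_
    rw [← Matrix.smul_mulVec, ← Grid.rt_S hy Λ z₀, er, Matrix.mulVec_add]
    abel

end Pool.Agent.P.MP_8b7eba_nt.SM
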