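import Pool.Agent.P.MP_8b7eba_nt.SM.IfG
import Pool.Agent.P.MP_8b7eba_nt.R2.TSHA
import Pool.Agent.P.MP_8b7eba_nt.DescGen

/-! Proof of KUM0. -/

namespace Pool.Agent.P.MP_8b7eba_nt.SM

open Finset R2 MP_9c97e9_nt Height
open scoped Matrix

namespace TKUM0

theorem core {A : Type} [AddCommGroup A] [Infinite A] (h : A → ℝ) (c : ℝ)
    (hfin : ∀ B, {x | h x ≤ B}.Finite) (hd : ∀ x, 4 * h x - c ≤ h (2 • x)) :
    ∃ P : A, ∀ e : ℕ, ∃ k : ℕ, ∀ R : A, 2 ^ k • R ≠ 2 ^ e • P := by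
  have h1 : ∀ (k : ℕ) (x : A), 4 ^ k * (h x - c / 3) ≤ h (2 ^ k • x) - c / 3 := fun k x => by
    induction k with
    | zero => simp
    | succ k ih =>
      have := hd (2 ^ k • x)
      rw [pow_succ' 2, mul_smul, pow_succ']
      linarith
  have h2 : ∀ (k : ℕ) (a b : ℝ), 4 ^ k * a ≤ b → a ≤ max b 0 := fun k a b e => by
    rcases le_total a 0 with h0 | h0
    · exact h0.trans (le_max_right _ _)
    · exact ((le_mul_of_one_le_left h0 (one_le_pow₀ (by norm_num))).trans e).trans (le_max_left _ _)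
  by_contra! hc
  refine Set.infinite_univ ((hfin (c / 3)).subset fun P _ => ?_)
  obtain ⟨e, he⟩ := hc P
  choose R hR using he
  obtain ⟨k, l, hkl, e1⟩ := Set.Finite.exists_lt_map_eq_of_forall_mem (f := R)
    (fun k => show h (R k) ≤ max (h (2 ^ e • P) - c / 3) 0 + c / 3 from
      sub_le_iff_le_add.1 (h2 k _ _ (hR k ▸ h1 k (R k)))) (hfin _)
  obtain ⟨m, rfl⟩ := Nat.exists_eq_add_of_lt hkl
  have h3 := h1 (m + 1) (2 ^ e • P)
  rw [show 2 ^ (m + 1) • 2 ^ e • P = 2 ^ e • P by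
    conv_lhs => rw [← hR k, ← mul_smul, ← pow_add, e1, add_comm, ← add_assoc, hR]] at h3
  have h4 : (4 : ℝ) ≤ 4 ^ (m + 1) := le_self_pow₀ (by norm_num) m.succ_ne_zero
  have h5 : h (2 ^ e • P) - c / 3 ≤ 0 := by nlinarith
  have h6 := h2 e _ _ ((h1 e P).trans h5)
  rw [max_self] at h6
  exact sub_nonpos.1 h6

noncomputable scoped instance (priority := high) decQ : DecidableEq ℚ :=
  fun a b => Classical.propDecidable (a = b)

theorem split {F : Type} [Field F] [CharZero F] {d : ℤ} (hd : d ≠ 0) :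
    Split (Wd d) (-21 * (d : F)) (-102 * d) (123 * d) := by
  have hd' : (d : F) ≠ 0 := Int.cast_ne_zero.2 hd
  refine ⟨two_ne_zero, fun e => hd' ?_, fun e => hd' ?_, fun e => hd' ?_, ?_, ?_, ?_⟩
  · linear_combination e / 81
  · linear_combination -e / 144
  · linear_combination -e / 225
  all_goals simp only [Wd]; push_cast; ring

theorem rat {d : ℤ} (hd : d ≠ 0) [Infinite (Pt (Wd d) ℚ)] :
    ∃ P : Pt (Wd d) ℚ, ∀ e : ℕ, ∃ k : ℕ, ∀ R : Pt (Wd d) ℚ, 2 ^ k • R ≠ 2 ^ e • P := by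
  have hs := split (F := ℚ) hd
  have key : ∀ P : Pt (Wd d) ℚ, ∃ x : ℚ, (P = 0 → x = 0) ∧ ∀ x' η, Is P x' η → x = x' := fun P => by
    rcases zero_or_is P with rfl | ⟨x, η, hP⟩
    · exact ⟨0, fun _ => rfl, fun x η e => absurd rfl e.ne_zero⟩
    · exact ⟨x, fun e => absurd e hP.ne_zero, fun _ _ e => (hP.inj e).1⟩
  choose f f0 f1 using key
  let W : WeierstrassCurve ℚ := ⟨0, 0, 0, -12987 * d ^ 2, -263466 * d ^ 3⟩
  have : W.IsElliptic := ⟨by
    have : W.Δ = 16 * (81 * 144 * 225 * d ^ 3) ^ 2 := by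
      simp only [W, WeierstrassCurve.Δ, WeierstrassCurve.b₂, WeierstrassCurve.b₄,
        WeierstrassCurve.b₆, WeierstrassCurve.b₈]
      ring
    rw [this]
    exact Ne.isUnit (by positivity)⟩
  obtain ⟨c, hc⟩ := Desc.height_dup W
  refine core (fun P => logHeight₁ (f P)) |c| (fun B => ?_) fun P => ?_
  · refine (NumberField.finite_setOfPred_logHeight₁_le ℚ B).preimage' (f := f) fun x _ => ?_
    by_cases h : ∃ Q : Pt (Wd d) ℚ, ∃ η, Is Q x η
    · obtain ⟨Q, η, hQ⟩ := h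
      refine (Set.toFinite {0, Q, -Q}).subset fun P hP => (zero_or_is P).imp_right ?_
      rintro ⟨x', η', h⟩
      obtain rfl : x' = x := (f1 _ _ _ h).symm.trans hP
      rcases sq_eq_sq_iff_eq_or_eq_neg.1 ((h.eq hs).trans (hQ.eq hs).symm) with rfl | rfl
      exacts [.inl (h.unique hs hQ), .inr (h.unique hs hQ.neg)]
    · exact (Set.finite_singleton 0).subset fun P hP => (zero_or_is P).resolve_right
        fun ⟨x', η, e⟩ => h ⟨P, η, (f1 _ _ _ e).symm.trans hP ▸ e⟩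
  rcases zero_or_is P with rfl | ⟨x, η, hP⟩
  · simp [f0 0 rfl]
  have e := hP.eq hs
  have e1 : 4 * x ^ 3 + W.b₂ * x ^ 2 + 2 * W.b₄ * x + W.b₆ = η ^ 2 := by
    simp only [W, WeierstrassCurve.b₂, WeierstrassCurve.b₄, WeierstrassCurve.b₆, e]
    ring
  refine (sub_le_sub_left (le_abs_self c) _).trans ((hc _).trans (le_of_eq ?_))
  rw [f1 _ _ _ hP, e1, two_smul]
  congr 1
  by_cases h0 : η = 0
  · rw [f0 _ (hP.add_eq_zero hs (by simpa [h0] using hP)), h0]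
    simp
  rw [f1 _ _ _ (hP.add_self hs h0 (div_mul_cancel₀ _ h0) (x₃ := (x ^ 4 - W.b₄ * x ^ 2 -
    2 * W.b₆ * x - W.b₈) / η ^ 2) ?_)]
  simp only [W, WeierstrassCurve.b₄, WeierstrassCurve.b₆, WeierstrassCurve.b₈]
  field_simp
  linear_combination (8 * x) * e

end TKUM0

open TKUM0 TSHA

variable [HA]

theorem t_KUM0 : KUM0 := by
  intro d δ hd hδ hT
  have h0 : δ ≠ 0 := fun e => Int.cast_ne_zero.2 hd (by rw [← hδ, e]; simp)
  have hF : Fix ⊤ (δ ^ 2) := fun g _ => by rw [hδ, map_intCast]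
  have hs := split (F := Om) hd
  have hs' : Split (Wd d) ((3 * δ) ^ 2 * 0 + -21 * d) ((3 * δ) ^ 2 * -9 + -21 * d)
      ((3 * δ) ^ 2 * 16 + -21 * (d : Om)) := by
    rw [show (3 * δ) ^ 2 * 0 + -21 * d = -21 * (d : Om) by ring,
      show (3 * δ) ^ 2 * -9 + -21 * d = -102 * (d : Om) by linear_combination -81 * hδ,
      show (3 * δ) ^ 2 * 16 + -21 * d = 123 * (d : Om) by linear_combination 144 * hδ]
    exact hs
  obtain ⟨ι, ⟨inj, sur⟩, hι⟩ := exists_iso split15 hs' (mul_ne_zero three_ne_zero h0)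
  have eqv : ∀ (g : GQ) (P : EO), pm (Wd d) g (ι P) = ι (tac δ g P) := fun g P => by
    rcases zero_or_is P with rfl | ⟨x, η, hP⟩
    · simp
    have h1 := (hι _ _ _ hP).map (K := Om) g
    have h2 := sd_apply hF g
    have h3 := is_ac g hP
    refine h1.unique hs ?_
    rw [tac_apply]
    rcases sd_cases δ g with e | e <;> rw [e] at h2 ⊢
    · simpa [h2, map_ofNat] using hι _ _ _ h3
    · have := hι _ _ _ h3.neg
      rw [neg_smul, one_smul]
      refine (congrArg₂ (Is _) ?_ ?_).mp this <;> simp [h2, map_ofNat]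
      ring
  have : Infinite (Pt (Wd d) ℚ) := by
    have k : ∀ q : ℚ × ℚ, q.2 ^ 2 = q.1 ^ 3 + ((-12987 * d ^ 2 : ℤ) : ℚ) * q.1 +
        ((-263466 * d ^ 3 : ℤ) : ℚ) → ∃ P : Pt (Wd d) ℚ, Is P q.1 (2 * q.2) := fun q hq =>
      (split hd).exists_is (by push_cast at hq; linear_combination 4 * hq)
    choose! F hF using k
    refine Set.infinite_univ_iff.1 (Set.infinite_of_injOn_mapsTo (f := F) (fun p hp q hq e => ?_)
      (Set.mapsTo_univ _ _) hT)
    obtain ⟨a, b⟩ := (hF p hp).inj (e ▸ hF q hq)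
    exact Prod.ext a (mul_left_cancel₀ two_ne_zero b)
  obtain ⟨P₀, hP₀⟩ := rat hd
  obtain ⟨P, hP⟩ := sur (pm (Wd d) (algebraMap ℚ Om) P₀)
  refine ⟨P, fun g => inj ?_, fun e => (hP₀ e).imp fun k hk R hR e' => ?_⟩
  · rw [← eqv, hP, pm_pm, Subsingleton.elim (RingHom.comp _ _) (algebraMap ℚ Om)]
  obtain ⟨R₀, hR₀⟩ : ∃ R₀, pm (Wd d) (algebraMap ℚ Om) R₀ = ι R := by
    rcases zero_or_is (ι R) with e | ⟨X, H, h1⟩
    · exact ⟨0, by rw [e, map_zero]⟩
    have h2 : ∀ g : GQ, g X = X ∧ g H = H := fun g => by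
      have := h1.map (K := Om) g
      rw [eqv, hR g] at this
      exact this.inj h1
    obtain ⟨a, rfl⟩ := of_fixed fun g => (h2 g).1
    obtain ⟨b, rfl⟩ := of_fixed fun g => (h2 g).2
    obtain ⟨Q, hQ⟩ := (split (F := ℚ) hd).exists_is (x := a) (η := b)
      ((algebraMap ℚ Om).injective (by simpa [map_ofNat] using h1.eq hs))
    exact ⟨Q, (hQ.map _).unique hs h1⟩
  refine hk R₀ (pm_injective (algebraMap ℚ Om) ?_)
  rw [map_nsmul, map_nsmul, hR₀, ← hP, ← map_nsmul, ← map_nsmul, e']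

end Pool.Agent.P.MP_8b7eba_nt.SM
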