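import Pool.Agent.P.MP_8b7eba_nt.SM.IfG
import Pool.Agent.P.MP_8b7eba_nt.R2.TKLOC

/-! Proof of KUM2. -/

namespace Pool.Agent.P.MP_8b7eba_nt.SM

open Finset R2 Filter Topology
open scoped Matrix

namespace TKUM2

variable {w₂ w : Pl} {T : Tate w₂} {δ : Om} {d : ℤ} {P : EO} {Q : ℕ → EO} {c : GQ → V2} {g : GQ}

theorem zero {W : Type} [NormedAddCommGroup W] {x : W} (h : ∀ k : ℕ, ‖x‖ ≤ (2 ^ k)⁻¹) : x = 0 :=
  tendsto_nhds_unique tendsto_const_nhds (TKLOC.lim0 (f := fun _ => x) (.of_forall h))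

theorem comm {r : GQ → V2 →ₗ[ℚ_[2]] V2} (hc : ∀ g h, c (g * h) = c g + r g (c h)) (g f : GQ) :
    c g + r g (c f) = c (g * f * g⁻¹ * f⁻¹) + r (g * f * g⁻¹ * f⁻¹) (c (f * g)) := by
  rw [← hc, ← hc]
  congr 1
  group

theorem e1 (hF : CF) (hw : ¬ w.p ∣ 15) (hg : g ∈ w.I) (h : g δ = δ)
    (hQ : ∀ g k, T.pt (((2 : ℚ_[2]) ^ k)⁻¹ • c g) = tac δ g (Q k) - Q k) (k : ℕ) :
    E1 w (T.pt (((2 : ℚ_[2]) ^ k)⁻¹ • c g)) := by
  rw [hQ, tac_apply, sd_eq_one.2 h, one_smul]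
  exact (hF.cong w hw).2 g hg _

/-- the class is trivial on inertia at the bad primes -/
theorem badI (hF : CF) (hw : w.p ∣ 15) (h : ∀ g ∈ w.I, g δ = δ) (hP : ∀ k, 2 ^ k • Q k = P)
    (hb : ∀ g, ‖c g‖ ≤ 1)
    (hQ : ∀ g k, T.pt (((2 : ℚ_[2]) ^ k)⁻¹ • c g) = tac δ g (Q k) - Q k) :
    ∃ v, ∀ g ∈ w.I, c g = T.rho g *ᵥ v - v := by
  have h0 : ∀ g ∈ w.I, ∀ k, T.pt (((2 : ℚ_[2]) ^ k)⁻¹ • c g) = ac g (Q k) - Q k := fun g hg k => by
    rw [hQ, tac_apply, sd_eq_one.2 (h g hg), one_smul]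
  have h1 : ∀ g ∈ w.I, ac g P = P := fun g hg => by
    have := h0 g hg 0
    rw [pow_zero, inv_one, one_smul, (T.ker _).2 (hb g), ← one_smul ℕ (Q 0), ← pow_zero 2, hP]
      at this
    exact (sub_eq_zero.1 this.symm)
  have : ∀ k : ℕ, ∃ u : V2, ‖u‖ ≤ 4 ∧
      ∀ g ∈ w.I, ‖c g - (T.rho g *ᵥ u - u)‖ ≤ (2 ^ k)⁻¹ := fun k => by
    obtain ⟨P', S, h2, h3, h4⟩ := hF.half w hw P h1 k
    have h5 : 2 ^ (k + 2) • (Q k - P') = 0 := by
      rw [pow_add, mul_nsmul, nsmul_sub, hP, h4, add_sub_cancel_left]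
      exact h3
    obtain ⟨x, hx⟩ := T.surj _ _ h5
    rw [← hx, T.pt_pow] at h5
    have h6 : (2 ^ k : ℚ_[2]) ≠ 0 := pow_ne_zero k two_ne_zero
    refine ⟨(2 ^ k : ℚ_[2]) • x, ?_, fun g hg => TKLOC.le_of ?_⟩
    · rw [norm_smul, norm_pow, Csum.norm_two, inv_pow, inv_mul_le_iff₀ (by positivity)]
      exact h5.trans_eq (by ring)
    · rw [Matrix.mulVec_smul, ← smul_sub, smul_sub, inv_smul_smul₀ h6, ← T.pt_eq, h0 g hg,
        map_sub, ← T.gal, hx, map_sub, h2 g hg, sub_sub_sub_cancel_right]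
  choose u hu hu' using this
  have h2 := tendsto_ul (f := u) (.of_forall hu)
  refine ⟨ul u, fun g hg => eq_of_sub_eq_zero (tendsto_nhds_unique (tendsto_const_nhds.sub
    ((((continuous_const.matrix_mulVec continuous_id).tendsto _).comp h2).sub h2))
    (TKLOC.lim0 (.of_forall fun k => hu' k g hg)))⟩

/-- extension from inertia to the decomposition group -/
theorem badD (hF : CF) (hR : Rep ⊤ (T.rq δ)) (hw : w.p ∣ 15) (h : ∀ g ∈ w.I, g δ = δ)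
    (hc : ∀ g h, c (g * h) = c g + T.rq δ g (c h)) {v : V2}
    (hv : ∀ g ∈ w.I, c g = T.rho g *ᵥ v - v) : ∃ v, ∀ g ∈ w.D, c g = T.rq δ g v - v := by
  have h2 : w.p ≠ 2 := fun e => by rw [e] at hw; omega
  have h1 : (w.p : ℚ_[2]) ≠ 1 := by exact_mod_cast w.prime.one_lt.ne'
  have h1' : -(w.p : ℚ_[2]) ≠ 1 := by
    have : -(w.p : ℤ) ≠ 1 := by omega
    exact_mod_cast this
  obtain ⟨e, -, -, -, -, ht, hφ⟩ := hF.unip _ T w hw
  obtain ⟨t, tI, tβ⟩ := Pl.exists_gen hF.tame hF.res h2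
  obtain ⟨φ, fr⟩ := Pl.exists_frob hF.frob w
  have rI : ∀ g ∈ w.I, ∀ u, T.rq δ g u = T.rho g *ᵥ u := fun g hg u => by
    rw [Tate.rq_apply, SelA.rd_fix T (h g hg)]
  obtain ⟨y, hy⟩ : ∃ y : GQ → V2, ∀ g, y g = c g - (T.rq δ g v - v) := ⟨_, fun _ => rfl⟩
  have z1 : ∀ g h, y (g * h) = y g + T.rq δ g (y h) := fun g h => by
    simp only [hy, hc, hR.mul g trivial h trivial, map_sub]
    abel
  have z2 : ∀ g ∈ w.I, y g = 0 := fun g hg => by rw [hy, rI g hg, hv g hg, sub_self]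
  have z3 : ∀ g ∈ w.D, ∀ i ∈ w.I, T.rq δ i (y g) = y g := fun g hg i hi => by
    have b : g⁻¹ * i * g ∈ w.I := by simpa using Pl.conj_mem_I (w.D.inv_mem hg) hi
    have a1 := z1 i g
    have a2 := z1 g (g⁻¹ * i * g)
    rw [z2 i hi, zero_add] at a1
    rw [z2 _ b, map_zero, add_zero, show g * (g⁻¹ * i * g) = i * g by group] at a2
    rw [← a1, a2]
  obtain ⟨l, l1, hl⟩ : ∃ l : ℚ_[2], l ≠ 1 ∧ T.rq δ φ e = l • e := by
    rw [Tate.rq_apply, Tate.rd, Matrix.smul_mulVec]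
    rcases hφ φ fr with a | a <;> rcases sd_cases δ φ with b | b <;> rw [a, b]
    · exact ⟨_, h1, by simp⟩
    · exact ⟨_, h1', by simp⟩
    · exact ⟨_, h1', by simp⟩
    · exact ⟨_, h1, by simp⟩
  refine ⟨v + (l - 1)⁻¹ • y φ, fun g hg => ?_⟩
  obtain ⟨s, hs⟩ := (ht t tI tβ).2 (y g) (by rw [← rI t tI, z3 g hg t tI])
  have a1 := comm z1 g φ
  have a2 := Pl.comm_mem hF.frob hg fr.1
  have a3 : T.rq δ φ (y g) = l • y g := by rw [hs, map_smul, hl, smul_comm]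
  rw [z2 _ a2, z3 _ (mul_mem fr.1 hg) _ a2, zero_add, z1, a3] at a1
  have a4 : T.rq δ g (y φ) - y φ = (l - 1) • y g := by
    rw [sub_smul, one_smul, sub_eq_sub_iff_add_eq_add, add_comm _ (y g), a1, add_comm]
  rw [map_add, map_smul, add_sub_add_comm, ← smul_sub, a4, inv_smul_smul₀ (sub_ne_zero.2 l1), hy,
    add_sub_cancel]

/-- the condition at two -/
theorem ord (hF : CF) (h2 : w₂.p = 2) (hδ : δ ^ 2 = d) (h8 : d % 8 = 5)
    (hc : ∀ g h, c (g * h) = c g + T.rq δ g (c h))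
    (hQ : ∀ g k, T.pt (((2 : ℚ_[2]) ^ k)⁻¹ • c g) = tac δ g (Q k) - Q k) :
    ∃ v, ∀ g ∈ w₂.D, (c g - (T.rq δ g v - v)) 1 = 0 := by
  have hI : ∀ g ∈ w₂.I, g δ = δ := fun g hg => Pl.I_fix_two h2 hδ (by omega) hg
  have h0 : ∀ g ∈ w₂.I, c g 1 = 0 := fun g hg => zero fun k =>
    TKLOC.le_of ((T.e1 _).1 (e1 hF (by rw [h2]; norm_num) hg (hI g hg) hQ k))
  have h1 : ∀ g ∈ w₂.D, ∀ u, T.rq δ g u 1 = T.rd δ g 1 1 * u 1 := fun g hg u => by
    simp [Tate.rq_apply, Matrix.mulVec, dotProduct, SelA.rd_up T δ hg]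
  obtain ⟨f, fD, f1, f2⟩ := Pl.exists_f2 hF.toCA h2 hδ h8
  have f3 := sub_ne_zero.2 ((T.det_ne f1 f2).2.2 1)
  refine ⟨![0, c f 1 / (T.rd δ f 1 1 - 1)], fun g hg => ?_⟩
  have a2 := Pl.comm_mem hF.frob hg fD
  have a1 := congrFun (comm hc g f) 1
  rw [Pi.add_apply, Pi.add_apply, h0 _ a2, h1 _ (w₂.I_le_D a2), SelA.rd_fix T (hI _ a2),
    T.un _ a2, h1 g hg, hc, Pi.add_apply, h1 f fD] at a1
  rw [Pi.sub_apply, Pi.sub_apply, h1 g hg]
  simp only [Matrix.cons_val_one, Matrix.cons_val_zero]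
  field_simp
  linear_combination -a1

end TKUM2

open TKUM2

variable [HA]

theorem t_KUM2 (hCP : CP) : KUM2 := by
  intro w₂ T δ d P Q c h2 hδ hm h8 h15 hP hb hu hc hQ
  have hF := hCP.toCF
  have hR : Rep ⊤ (T.rq δ) := T.rep (by rw [hδ]; exact fix_int d)
  obtain ⟨hz, hl⟩ := pz_const hR hu fun g _ h _ => hc g h
  have hl' := fun g : GS => hl g (by rw [S1_top]; trivial)
  refine ⟨hz, fun w g hg => ?_, fun w hw => ?_, ?_⟩
  · refine ul_eq (tendsto_const_nhds.congr' (hg.mono fun k h => (zero fun j => ?_).symm))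
    have a1 : (w k).p ≠ 2 := fun a => h.2 (Dvd.dvd.mul_right (by rw [a]; norm_num) _)
    have a2 : ¬ (w k).p ∣ 15 := fun a =>
      h.2 ((Int.natCast_dvd_natCast.2 (a.mul_left 2)).mul_right _)
    obtain ⟨m, hm⟩ := T.tors (((2 : ℚ_[2]) ^ j)⁻¹ • c (g k))
    exact TKLOC.le_of ((T.ker _).1 ((hF.e1g _).2.2.2.2.2 a1 _ m (e1 hF a2 h.1
      (Pl.I_fix hF.tame hF.res a1 hδ (fun a => h.2 (a.mul_left _)) h.1) hQ j) hm))
  · have hp : Prime (w.p : ℤ) := Nat.prime_iff_prime_int.1 w.prime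
    by_cases a15 : w.p ∣ 15
    · have hI : ∀ g ∈ w.I, g δ = δ := fun g hg =>
        Pl.I_fix hF.tame hF.res (fun e => by rw [e] at a15; omega) hδ (fun a => hp.not_isUnit
          (h15.isUnit_of_dvd' a (by exact_mod_cast a15))) hg
      obtain ⟨v, hv⟩ := badI hF a15 hI hP hb hQ
      obtain ⟨v, hv⟩ := badD hF hR a15 hI hc hv
      exact ⟨v, fun g hg => ul_eq (((hR.tendsto g tendsto_const_nhds).sub_const v).congr'
        (Eventually.mono hg fun k h => (hv _ h).symm))⟩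
    · obtain ⟨m', rfl⟩ := (hp.dvd_or_dvd hw).resolve_left fun a => a15 (by exact_mod_cast a)
      have a2 : w.p ≠ 2 := fun a => by
        rw [a] at h8
        push_cast at h8
        omega
      have h30 : ¬ w.p ∣ 30 := fun a => by
        rcases (Nat.Prime.dvd_mul w.prime).1 (show w.p ∣ 2 * 15 from a) with a | a
        · exact a2 ((Nat.prime_dvd_prime_iff_eq w.prime Nat.prime_two).1 a)
        · exact a15 a
      obtain ⟨t, tI, tβ⟩ := Pl.exists_gen hF.tame hF.res a2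
      have h3 : t δ = -δ := Pl.gen_move hF.tame hF.res a2 tI tβ (m := m')
        (by rw [hδ]; push_cast; rfl) fun a => hp.not_isUnit (hm _ (mul_dvd_mul_left _ a))
      have h4 : t δ ≠ δ := fun a => by
        have h0 : δ = 0 := by linear_combination (h3 - a) / 2
        rw [h0] at hδ
        exact hm.ne_zero (Int.cast_eq_zero.1 (hδ.symm.trans (zero_pow two_ne_zero)))
      refine hCP.sah V2 _ w t _ a2 (hR.mono le_top) tI tβ (fun v => ?_) (hz.mono fun _ => le_top)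
      rw [Tate.rq_apply, Tate.rd, (hF.tr _ T _ h30).1 _ tI, sd_eq_neg.2 h4]
      simp [Matrix.neg_mulVec]
  · obtain ⟨v, hv⟩ := ord hF h2 hδ h8 hc hQ
    refine ⟨v, fun g hg => tendsto_nhds_unique (((continuous_apply 1).tendsto _).comp
      ((hl' g).sub ((hR.tendsto g tendsto_const_nhds).sub_const v)))
      (tendsto_const_nhds.congr' (Eventually.mono hg fun k h => (hv _ h).symm))⟩

end Pool.Agent.P.MP_8b7eba_nt.SM
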