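import Pool.Agent.P.MP_8b7eba_nt.SM.DefG
import Pool.Agent.P.MP_8b7eba_nt.R2.LA

/-! Chosen places, inertia and Frobenius elements, quadratic characters. -/

namespace Pool.Agent.P.MP_8b7eba_nt.SM

open Finset R2

variable {p q q' n : ℕ} {w : Pl} {g : GQ} {H : Subgroup GQ} {S : Finset ℕ} {a b : ℤ}
  {A : Type} [AddCommGroup A] [Module F2 A] {χ : GQ → A}

theorem hB [h : HA] : CB := h.cf.toCB

theorem hA [h : HA] : CA := h.cf.toCB.toCA

namespace BasG

theorem f2 (s : F2) : s = 0 ∨ s = 1 := by revert s; decide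

theorem one_of_ne {s : F2} (h : s ≠ 0) : s = 1 := (f2 s).resolve_left h

theorem four (h : Odd p) : p % 4 = 1 ∨ p % 4 = 3 := by
  have := Nat.odd_iff.1 h
  omega

theorem jac_ps (op : Odd p) (oq : Odd q) : jacobiSym (ps q) p = jacobiSym p q := by
  unfold ps
  rcases four oq with hq | hq
  · rw [if_pos hq, jacobiSym.quadratic_reciprocity_one_mod_four hq op]
  · rw [if_neg (by omega), jacobiSym.neg _ op]
    rcases four op with hp | hp
    · rw [ZMod.χ₄_nat_one_mod_four hp, one_mul,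
        jacobiSym.quadratic_reciprocity_one_mod_four' oq hp]
    · rw [ZMod.χ₄_nat_three_mod_four hp, jacobiSym.quadratic_reciprocity_three_mod_four hq hp]
      ring

theorem js_neg_one (op : Odd p) : js (-1) p = if p % 4 = 1 then 0 else 1 := by
  unfold js
  rw [jacobiSym.at_neg_one op]
  rcases four op with hp | hp
  · rw [ZMod.χ₄_nat_one_mod_four hp, if_pos rfl, if_pos hp]
  · rw [ZMod.χ₄_nat_three_mod_four hp, if_neg (by norm_num), if_neg (by omega)]

theorem abs_ps (n : ℕ) : (ps n).natAbs = n := by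
  unfold ps
  split_ifs <;> simp

theorem not_dvd (hp : p.Prime) (hq : q.Prime) (h2 : p ≠ 2) (h : p ≠ q) :
    ¬ (p : ℤ) ∣ 2 * ps q := fun e => by
  rw [Int.natCast_dvd, Int.natAbs_mul, abs_ps] at e
  rcases (Nat.Prime.dvd_mul hp).1 e with e | e
  · exact h2 ((Nat.prime_dvd_prime_iff_eq hp Nat.prime_two).1 e)
  · exact h ((Nat.prime_dvd_prime_iff_eq hp hq).1 e)

end BasG

open BasG

/-! ### Elementary facts -/

theorem mem_T30 : p ∈ T30 ↔ p.Prime ∧ p ∣ 30 := by
  simp only [T30, mem_insert, mem_singleton]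
  constructor
  · rintro (rfl | rfl | rfl) <;> norm_num
  · rintro ⟨h1, h2⟩
    have := Nat.le_of_dvd (by norm_num) h2
    interval_cases p <;> simp_all (config := {decide := true})

theorem Gp.ne (h : Gp p) : p ≠ 2 ∧ p ≠ 3 ∧ p ≠ 5 ∧ p ∉ T30 ∧ Odd p ∧ 7 ≤ p := by
  have h2 : p ≠ 2 := fun e => h.2 (by rw [e]; norm_num)
  have h3 : p ≠ 3 := fun e => h.2 (by rw [e]; norm_num)
  have h5 : p ≠ 5 := fun e => h.2 (by rw [e]; norm_num)
  have ho := h.1.odd_of_ne_two h2
  have h1 := h.1.two_le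
  refine ⟨h2, h3, h5, fun e => h.2 (mem_T30.1 e).2, ho, ?_⟩
  have := Nat.odd_iff.1 ho
  omega

theorem ps_mod (h : Odd n) : ps n % 4 = 1 ∧ (ps n).natAbs = n := by
  refine ⟨?_, abs_ps n⟩
  unfold ps
  have := four h
  split_ifs <;> omega

theorem prod_ps (h : Squarefree n) (h' : Odd n) : ∏ p ∈ n.primeFactors, ps p = ps n := by
  have h1 : (∏ p ∈ n.primeFactors, ps p) % 4 = 1 := by
    refine prod_induction _ (fun x : ℤ => x % 4 = 1) (fun x y hx hy => ?_) rfl fun p hp => ?_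
    · rw [Int.mul_emod, hx, hy]
      rfl
    · exact (ps_mod (h'.of_dvd_nat (Nat.dvd_of_mem_primeFactors hp))).1
  have h2 : (∏ p ∈ n.primeFactors, ps p).natAbs = (ps n).natAbs := by
    rw [abs_ps, ← Int.natAbsHom_apply, map_prod]
    simp only [Int.natAbsHom_apply, abs_ps]
    exact Nat.prod_primeFactors_of_squarefree h
  have h3 := (ps_mod h').1
  rcases Int.natAbs_eq_natAbs_iff.1 h2 with e | e <;> omega

theorem js_rec (hp : Odd p) (hq : Odd q) : js (ps q) p = js p q := by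
  unfold js
  rw [jac_ps hp hq]

theorem js_swap (hp : Gp p) (hq : Gp q) (h : p ≠ q) :
    js (ps p) q = js (ps q) p + js (-1) p * js (-1) q := by
  have op : Odd p := hp.ne.2.2.2.2.1
  have oq : Odd q := hq.ne.2.2.2.2.1
  have hco : (p : ℤ).gcd q = 1 := by
    rw [Int.gcd_natCast_natCast]; exact (Nat.coprime_primes hp.1 hq.1).2 h
  rw [js_neg_one op, js_neg_one oq]
  symm
  unfold js
  rw [jac_ps op oq, jac_ps oq op]
  rcases four op with h4p | h4p
  · rw [if_pos h4p, zero_mul, add_zero, jacobiSym.quadratic_reciprocity_one_mod_four h4p oq]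
  · rcases four oq with h4q | h4q
    · rw [if_pos h4q, mul_zero, add_zero, jacobiSym.quadratic_reciprocity_one_mod_four h4q op]
    · rw [if_neg (show ¬p % 4 = 1 by omega), if_neg (show ¬q % 4 = 1 by omega),
        jacobiSym.quadratic_reciprocity_three_mod_four h4q h4p]
      rcases jacobiSym.eq_one_or_neg_one hco with h | h <;> rw [h] <;> decide

theorem qs_eq (hq : Odd q) : qs q = qz q + js (-1) q • qz (-1) := by
  rw [js_neg_one hq]
  unfold qs ps
  split_ifs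
  · simp
  · rw [one_smul, ← qz_mul (by exact_mod_cast hq.pos.ne') (by norm_num), mul_neg_one]

theorem js_mul (ha : IsCoprime a p) (hb : IsCoprime b p) : js (a * b) p = js a p + js b p := by
  unfold js
  rw [jacobiSym.mul_left]
  rcases jacobiSym.eq_one_or_neg_one (Int.isCoprime_iff_gcd_eq_one.1 ha) with h | h <;>
    rcases jacobiSym.eq_one_or_neg_one (Int.isCoprime_iff_gcd_eq_one.1 hb) with h' | h' <;>
    rw [h, h'] <;> decide

theorem js_eq_one (ha : IsCoprime a p) : js a p = 1 ↔ jacobiSym a p = -1 := by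
  unfold js
  rcases jacobiSym.eq_one_or_neg_one (Int.isCoprime_iff_gcd_eq_one.1 ha) with h | h <;>
    rw [h] <;> decide

theorem sg_add (s t : F2) : sg (s + t) = sg s * sg t := by
  rcases f2 s with rfl | rfl <;> rcases f2 t with rfl | rfl <;>
    simp [sg, show (1 + 1 : F2) = 0 from rfl, ZMod.val_one]

theorem sg_eq (s : F2) : sg s = 1 - 2 * (s.val : Z2) := by
  rcases f2 s with rfl | rfl
  · simp [sg]
  · simp only [sg, ZMod.val_one]
    norm_num

omit [Module F2 A] in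
theorem _root_.Pool.Agent.P.MP_8b7eba_nt.R2.IsCh.add {χ' : GQ → A} (h : IsCh H χ)
    (h' : IsCh H χ') : IsCh H fun g => χ g + χ' g :=
  ⟨h.1.comp₂ h'.1 (· + ·), fun g hg k hk => by
    simp only [h.2 g hg k hk, h'.2 g hg k hk]
    abel⟩

omit [Module F2 A] in
theorem _root_.Pool.Agent.P.MP_8b7eba_nt.R2.IsCh.sum {ι : Type} {s : Finset ι} {f : ι → GQ → A}
    (h : ∀ i ∈ s, IsCh H (f i)) : IsCh H fun g => ∑ i ∈ s, f i g := by
  classical
  induction s using Finset.induction_on with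
  | empty => exact ⟨by simpa using Sm.const (0 : A), fun _ _ _ _ => by simp⟩
  | insert i s hi ih =>
    simp only [sum_insert hi]
    exact (h i (mem_insert_self _ _)).add (ih fun j hj => h j (mem_insert_of_mem hj))

theorem _root_.Pool.Agent.P.MP_8b7eba_nt.R2.IsCh.smul {α : GQ → F2} (h : IsCh H α) (v : A) :
    IsCh H fun g => α g • v :=
  ⟨h.1.comp (· • v), fun g hg k hk => by simp only [h.2 g hg k hk, add_smul]⟩

omit [Module F2 A] in
theorem _root_.Pool.Agent.P.MP_8b7eba_nt.R2.IsCh.map {B : Type} [AddCommGroup B] (h : IsCh H χ)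
    (f : A →+ B) : IsCh H fun g => f (χ g) :=
  ⟨h.1.comp f, fun g hg k hk => by simp only [h.2 g hg k hk, map_add]⟩

omit [Module F2 A] in
theorem _root_.Pool.Agent.P.MP_8b7eba_nt.R2.IsCh.conj (h : IsCh ⊤ χ) (u g : GQ) :
    χ (u * g * u⁻¹) = χ g := by
  rw [h.2 _ trivial _ trivial, h.2 _ trivial _ trivial, h.inv trivial]
  abel

theorem isCh_qs (p : ℕ) : IsCh H (qs p) := isCh_qz _

theorem isCh_chi (S : Finset ℕ) : IsCh H (chi S) := by
  have e : chi S = fun g => ∑ p ∈ S, qs p g := funext fun g => Finset.sum_apply _ _ _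
  rw [e]
  exact IsCh.sum fun p _ => isCh_qs p

theorem isCh_aa {ι : Type} {M : ℕ} (u : ι → Fin (M + 1) → ℕ) (i : ι) (j : Fin (M + 1)) :
    IsCh H (aa u i j) := (isCh_qs _).add (isCh_qs _)

theorem aa_zero {ι : Type} {M : ℕ} (u : ι → Fin (M + 1) → ℕ) (i : ι) : aa u i 0 = 0 :=
  funext fun _ => CharTwo.add_self_eq_zero _

theorem chi_eq_qz (h : Squarefree n) (h' : Odd n) : chi n.primeFactors = qz (ps n) := by
  rw [← prod_ps h h', qz_prod _ _ fun p hp e => ?_]
  · rfl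
  · have := abs_ps p
    rw [e] at this
    exact (Nat.prime_of_mem_primeFactors hp).ne_zero this.symm

theorem pl_p (hp : p.Prime) : (pl p).p = p :=
  Classical.epsilon_spec (p := fun w : Pl => w.p = p) (t_PL.1 p hp)

theorem exists_smul (w : Pl) : ∃ σ : GQ, σ • pl w.p = w := t_PL.2.1 _ _ (pl_p w.prime)

variable [HA]

theorem mem_Ht : g ∈ Ht ↔ g = 1 ∨ g = tau := by
  refine ⟨?_, ?_⟩
  · rintro ⟨k, rfl⟩
    have h2 : tau ^ (2 : ℤ) = 1 := by rw [zpow_two]; exact hA.tau.2.1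
    obtain ⟨m, rfl | rfl⟩ := Int.even_or_odd' k
    · exact Or.inl (by simp only [zpow_mul, h2, one_zpow])
    · exact Or.inr (by simp only [zpow_add, zpow_mul, h2, one_zpow, one_mul, zpow_one])
  · rintro (rfl | rfl)
    · exact one_mem _
    · exact Subgroup.mem_zpowers _

theorem closed_Ht : IsClosed (Ht : Set GQ) := by
  have e : (Ht : Set GQ) = {1, tau} := Set.ext fun g => mem_Ht
  rw [e]
  exact (Set.toFinite _).isClosed

/-! ### The chosen elements -/

theorem BasG.tp_spec (hp : p.Prime) (h2 : p ≠ 2) :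
    tp p ∈ (pl p).I ∧ ∀ β : Om, β ^ 2 = p → tp p β = -β := by
  have h := Pl.exists_gen hA.tame hA.res (w := pl p) (by rwa [pl_p hp])
  rw [pl_p hp] at h
  exact Classical.epsilon_spec (p := fun t => t ∈ (pl p).I ∧ ∀ β : Om, β ^ 2 = p → t β = -β) h

theorem tp_I (hp : p.Prime) (h2 : p ≠ 2) : tp p ∈ (pl p).I := (tp_spec hp h2).1

theorem tp_D (hp : p.Prime) (h2 : p ≠ 2) : tp p ∈ (pl p).D := (pl p).I_le_D (tp_I hp h2)

theorem tp_mov (hp : p.Prime) (h2 : p ≠ 2) (β : Om) (h : β ^ 2 = p) : tp p β = -β :=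
  (tp_spec hp h2).2 β h

theorem qs_tp_self (hp : p.Prime) (h2 : p ≠ 2) : qs p (tp p) = 1 := by
  refine one_of_ne fun e => ?_
  have h := (qz_gen hA (w := pl p) (m := ps p) (by rwa [pl_p hp]) (tp_I hp h2)
    (by rw [pl_p hp]; exact tp_mov hp h2)
    (Int.squarefree_natAbs.1 (by rw [abs_ps]; exact hp.squarefree))).1 e
  rw [pl_p hp, Int.natCast_dvd, abs_ps] at h
  exact h dvd_rfl

theorem BasG.fr_spec (hp : p.Prime) (h2 : p ≠ 2) :
    (pl p).IsFrob 1 (fr p) ∧ qs p (fr p) = 0 := by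
  refine Classical.epsilon_spec (p := fun φ => (pl p).IsFrob 1 φ ∧ qs p φ = 0) ?_
  obtain ⟨φ, hφ⟩ := Pl.exists_frob hA.frob (pl p)
  rcases f2 (qs p φ) with e | e
  · exact ⟨φ, hφ, e⟩
  · refine ⟨φ * tp p, hφ.mul (Pl.isFrob_zero.2 (tp_I hp h2)), ?_⟩
    rw [(isCh_qs (H := ⊤) p).2 _ trivial _ trivial, e, qs_tp_self hp h2]
    rfl

theorem fr_frob (hp : p.Prime) (h2 : p ≠ 2) : (pl p).IsFrob 1 (fr p) := (fr_spec hp h2).1

theorem fr_D (hp : p.Prime) (h2 : p ≠ 2) : fr p ∈ (pl p).D := (fr_frob hp h2).1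

theorem qs_fr_self (hp : p.Prime) (h2 : p ≠ 2) : qs p (fr p) = 0 := (fr_spec hp h2).2

theorem qs_I (hq : q.Prime) (h2 : q ≠ 2) (h : w.p ≠ q) (hg : g ∈ w.I) : qs q g = 0 := by
  by_cases e : w.p = 2
  · exact qz_I_two e (ps_mod (hq.odd_of_ne_two h2)).1 hg
  · exact qz_I hA (not_dvd w.prime hq e h) hg

theorem qs_tp (hp : Gp p) (hq : Gp q) : qs q (tp p) = if p = q then 1 else 0 := by
  split_ifs with e
  · subst e
    exact qs_tp_self hp.1 hp.ne.1
  · exact qs_I hq.1 hq.ne.1 (by rwa [pl_p hp.1]) (tp_I hp.1 hp.ne.1)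

theorem qz_fr (hp : p.Prime) (h : ¬ (p : ℤ) ∣ 2 * a) : qz a (fr p) = js a p := by
  have h2 : p ≠ 2 := fun e => h (by rw [e]; exact dvd_mul_right _ _)
  have k := (qz_frob hA (w := pl p) (m := a) (by rwa [pl_p hp]) (fr_frob hp h2)).1
  rw [pl_p hp] at k
  unfold js
  split_ifs with e
  · exact k.2 e
  · exact one_of_ne fun e' => e (k.1 e')

theorem qs_fr (hp : Gp p) (hq : Gp q) (h : p ≠ q) : qs q (fr p) = js (ps q) p :=
  qz_fr hp.1 (not_dvd hp.1 hq.1 hp.ne.1 h)

theorem bs_I (h : ¬ w.p ∣ 30) (hg : g ∈ w.I) (i : Fin 4) : qz (bs i) g = 0 := by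
  refine qz_I hA (fun e => h (w.prime.dvd_of_dvd_pow (n := 2) ?_)) hg
  have k : ∀ i, 2 * bs i ∣ ((30 ^ 2 : ℕ) : ℤ) := by decide
  exact_mod_cast e.trans (k i)

theorem chi_I (hS : ∀ q ∈ S, Gp q) (h : w.p ∉ S) (hg : g ∈ w.I) : chi S g = 0 := by
  unfold chi
  rw [Finset.sum_apply]
  exact sum_eq_zero fun q hq => qs_I (hS q hq).1 (hS q hq).ne.1 (fun e => h (e ▸ hq)) hg

theorem chi_tp (hS : ∀ q ∈ S, Gp q) (hp : p ∈ S) : chi S (tp p) = 1 := by
  unfold chi
  rw [Finset.sum_apply, sum_congr rfl fun q hq => qs_tp (hS p hp) (hS q hq), sum_ite_eq, if_pos hp]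

end Pool.Agent.P.MP_8b7eba_nt.SM
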