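import Pool.Agent.P.MP_8b7eba_nt.SM.IfG
import Pool.Agent.P.MP_8b7eba_nt.SM.BasG
import Pool.Agent.P.MP_8b7eba_nt.SM.BasY

/-! Proof of LATX. -/

namespace Pool.Agent.P.MP_8b7eba_nt.SM

open Finset R2
open scoped Matrix

namespace TLATX

theorem two : ‖(2 : ℚ_[2])‖ = 2⁻¹ := by
  have := Padic.norm_p (p := 2)
  simpa using this

theorem two' : ‖(2 : ℚ_[2])⁻¹‖ = 2 := by rw [norm_inv, two, inv_inv]

/-- the inclusion of matrices -/
noncomputable def co : MZ →+* Mt := (PadicInt.Coe.ringHom (p := 2)).mapMatrix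

theorem co_apply (B : MZ) (i j : Fin 2) : co B i j = (B i j : ℚ_[2]) := rfl

theorem co_inj : Function.Injective co := fun B C h => by
  ext i j
  exact Subtype.ext (congrFun (congrFun h i) j)

theorem red_zero {z : Z2} : PadicInt.toZMod z = (0 : F2) ↔ ‖(z : ℚ_[2])‖ < 1 := by
  rw [← RingHom.mem_ker, PadicInt.ker_toZMod, IsLocalRing.mem_maximalIdeal, PadicInt.mem_nonunits]
  rfl

theorem red_one {z : Z2} (h : ‖(z : ℚ_[2])‖ = 1) : PadicInt.toZMod z = (1 : F2) :=
  BasG.one_of_ne fun e => (red_zero.1 e).ne h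

theorem dvd_of_norm {z : Z2} {n : ℕ} (h : ‖(z : ℚ_[2])‖ ≤ (2 ^ n)⁻¹) : (2 : Z2) ^ n ∣ z := by
  have k := (PadicInt.norm_le_pow_iff_mem_span_pow z n).1 (by
    rw [zpow_neg, zpow_natCast]
    exact_mod_cast h)
  rw [Ideal.mem_span_singleton] at k
  exact_mod_cast k

theorem cq_near (g : GQ) : ‖cq g - 1‖ ≤ 2⁻¹ := by
  have h1 : PadicInt.toZMod ((cyc g : Z2) - 1) = (0 : F2) := by
    rw [map_sub, map_one, red_one (PadicInt.norm_units (cyc g)), sub_self]
  obtain ⟨c, hc⟩ := (BasY.dvd_iff1 _).1 h1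
  have h2 : cq g - 1 = 2 * (c : ℚ_[2]) := by
    have := congrArg (fun z : Z2 => (z : ℚ_[2])) hc
    simp only [pow_one, PadicInt.coe_sub, PadicInt.coe_one, PadicInt.coe_mul] at this
    exact this
  rw [h2, norm_mul, two]
  exact mul_le_of_le_one_right (by norm_num) c.2

/-- a representation which is trivial modulo two gives a lattice -/
theorem exists_lat (ρ : GQ →* Mt) (h2 : ∀ g i j, ‖(ρ g - 1) i j‖ ≤ 2⁻¹)
    (sm : ∀ ε : ℝ, 0 < ε → ∃ N, ON N ∧ ∀ g ∈ N, ∀ i j, ‖(ρ g - 1) i j‖ ≤ ε)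
    (det : ∀ g, (ρ g).det = cq g) (unr : ∀ w : Pl, ¬ w.p ∣ 30 → ∀ g ∈ w.I, ρ g = 1)
    (up : ∀ g ∈ (pl 2).D, ρ g 1 0 = 0) :
    ∃ Λ : Lat, (∀ g, co (Λ.r g) = ρ g) ∧
      ∀ g i j, (Λ.c g i j : ℚ_[2]) = 2⁻¹ * (ρ g - 1) i j := by
  let c : GQ → MZ := fun g => Matrix.of fun i j => ⟨2⁻¹ * (ρ g - 1) i j, by
    rw [norm_mul, two']
    linarith [h2 g i j]⟩
  have hc : ∀ g, co (c g) = (2 : ℚ_[2])⁻¹ • (ρ g - 1) := fun g => rfl
  have hR : ∀ g, co (1 + (2 : Z2) • c g) = ρ g := fun g => by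
    rw [two_smul, map_add, map_add, map_one, hc, ← add_smul]
    norm_num
  let r : GQ →* MZ :=
    { toFun := fun g => 1 + (2 : Z2) • c g
      map_one' := co_inj (by rw [hR, map_one, map_one])
      map_mul' := fun g h => co_inj (by rw [hR, map_mul, map_mul, hR, hR]) }
  have hr : ∀ g, co (r g) = ρ g := hR
  refine ⟨⟨r, c, fun _ => rfl, fun n => ?_, fun g => ?_, fun w hw g hg => ?_, fun g hg => ?_⟩,
    hr, fun g i j => rfl⟩
  · obtain ⟨N, hN, h⟩ := sm (2 ^ n)⁻¹ (by positivity)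
    refine ⟨N, hN, fun g _ m _ hm => funext fun i => rn_eq.2 fun j => ?_⟩
    have e : (r (g * m) i - r g i) j = ∑ k, r g i k * (r m - 1) k j := by
      rw [← Matrix.mul_apply, mul_sub, mul_one, ← map_mul]
      rfl
    rw [e]
    refine dvd_sum fun k _ => Dvd.dvd.mul_left (dvd_of_norm ?_) _
    rw [← co_apply, map_sub, map_one, hr]
    exact h m hm k j
  · refine Subtype.ext ?_
    have := (PadicInt.Coe.ringHom (p := 2)).map_det (r g)
    exact this.trans ((congrArg Matrix.det (hr g)).trans (det g))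
  · exact co_inj (by rw [hr, unr w hw g hg, map_one])
  · exact Subtype.ext ((congrFun (congrFun (hr g) 1) 0).trans (up g hg))

/-- the diagonal entries -/
noncomputable def dd (i j : Fin 2) : ℚ_[2] := if j = i then 2 else 1

theorem dd_ne (i j : Fin 2) : dd i j ≠ 0 := by
  unfold dd
  split_ifs <;> norm_num

theorem dd_norm (i j : Fin 2) : ‖dd i j‖ = if j = i then 2⁻¹ else 1 := by
  unfold dd
  split_ifs
  · exact two
  · exact norm_one

theorem dd_mul (i : Fin 2) :
    Matrix.diagonal (dd i) * Matrix.diagonal (fun j => (dd i j)⁻¹) = 1 := by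
  rw [Matrix.diagonal_mul_diagonal, ← Matrix.diagonal_one]
  exact congrArg _ (funext fun j => mul_inv_cancel₀ (dd_ne i j))

theorem dd_mul' (i : Fin 2) :
    Matrix.diagonal (fun j => (dd i j)⁻¹) * Matrix.diagonal (dd i) = 1 :=
  mul_eq_one_comm.1 (dd_mul i)

theorem co_dg (i : Fin 2) : co (dg2 i) = Matrix.diagonal (dd i) := by
  ext a b
  rw [co_apply]
  unfold dg2 dd
  by_cases h : a = b
  · subst h
    rw [Matrix.diagonal_apply_eq, Matrix.diagonal_apply_eq]
    split_ifs <;> rfl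
  · rw [Matrix.diagonal_apply_ne _ h, Matrix.diagonal_apply_ne _ h]
    rfl

/-- the conjugate representation -/
noncomputable def cj (ρ : GQ →* Mt) (i : Fin 2) : GQ →* Mt where
  toFun g := Matrix.diagonal (fun j => (dd i j)⁻¹) * ρ g * Matrix.diagonal (dd i)
  map_one' := by rw [map_one, mul_one, dd_mul']
  map_mul' g h := by
    rw [map_mul]
    simp only [mul_assoc]
    rw [← mul_assoc (Matrix.diagonal (dd i)), dd_mul, one_mul]

theorem cj_apply (ρ : GQ →* Mt) (i : Fin 2) (g : GQ) :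
    cj ρ i g = Matrix.diagonal (fun j => (dd i j)⁻¹) * ρ g * Matrix.diagonal (dd i) := rfl

theorem cj_norm (ρ : GQ →* Mt) (i : Fin 2) (g : GQ) (a b : Fin 2) :
    ‖(cj ρ i g - 1) a b‖ =
      (if a = i then 2 else 1) * (if b = i then 2⁻¹ else 1) * ‖(ρ g - 1) a b‖ := by
  have e : cj ρ i g - 1 =
      Matrix.diagonal (fun j => (dd i j)⁻¹) * (ρ g - 1) * Matrix.diagonal (dd i) := by
    rw [mul_sub, sub_mul, mul_one, dd_mul', cj_apply]
  rw [e, Matrix.mul_diagonal, Matrix.diagonal_mul, norm_mul, norm_mul, norm_inv, dd_norm, dd_norm]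
  split_ifs <;> ring

variable (T : Tate (pl 2))

theorem off (g : GQ) {a b : Fin 2} (h : (a, b) ≠ (0, 0)) : ‖(T.rho g - 1) a b‖ ≤ 4⁻¹ := by
  have k := T.four g a b
  fin_cases a <;> fin_cases b
  · exact absurd rfl h
  all_goals simpa using k

theorem half (g : GQ) (a b : Fin 2) : ‖(T.rho g - 1) a b‖ ≤ 2⁻¹ := by
  by_cases h : (a, b) = (0, 0)
  · obtain ⟨rfl, rfl⟩ := Prod.mk.inj h
    have k := T.four g 0 0
    have e : (T.rho g - 1) 0 0 = (T.rho g - !![cq g, 0; 0, 1]) 0 0 + (cq g - 1) := by simp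
    rw [e]
    exact (Padic.nonarchimedean _ _).trans (max_le (k.trans (by norm_num)) (cq_near g))
  · exact (off T g h).trans (by norm_num)

theorem unip [HA] : ∃ t, ∀ a b, ‖(T.rho t - 1) a b‖ = 4⁻¹ := by
  have h5 : (pl 5).p = 5 := pl_p (by norm_num)
  have ht : tp 5 ∈ (pl 5).I := tp_I (by norm_num) (by norm_num)
  obtain ⟨e, -, -, he, h1, h2, -⟩ := HA.cf.unip _ T (pl 5) (by rw [h5]; norm_num)
  obtain ⟨⟨a₀, b₀, h0⟩, -⟩ := h2 _ ht (by rw [h5]; exact tp_mov (by norm_num) (by norm_num))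
  obtain ⟨h3, h4⟩ := h1 _ ht
  have hn : ∀ a, ‖e a‖ = 1 := fun a => by
    have k : ‖e a - 1‖ < 1 := by
      have := (norm_le_pi_norm (e - ![1, 1]) a).trans_lt (he h5)
      fin_cases a <;> simpa using this
    have := Padic.add_eq_max_of_ne (q := e a - 1) (r := 1) (by rw [norm_one]; exact k.ne)
    rwa [sub_add_cancel, norm_one, max_eq_right k.le] at this
  choose s hs using fun b => h4 (Pi.single b 1)
  have hA : ∀ a b, (T.rho (tp 5) - 1) a b = s b * e a := fun a b => by
    have := congrFun (hs b) a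
    simpa [Matrix.one_apply, Pi.single_apply] using this
  have hz : s 0 * e 0 * e 0 = -(s 1 * e 0 * e 1) := by
    have k : ((T.rho (tp 5) - 1) *ᵥ e) 0 = 0 := by
      rw [Matrix.sub_mulVec, h3, Matrix.one_mulVec, sub_self]
      rfl
    rw [Matrix.mulVec, dotProduct, Fin.sum_univ_two, hA, hA] at k
    exact eq_neg_of_add_eq_zero_left k
  have hs01 : ‖s 0‖ = ‖s 1‖ := by simpa [hn] using congrArg norm hz
  have hall : ∀ b, ‖s b‖ = ‖s 0‖ := fun b => by
    fin_cases b
    · rfl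
    · exact hs01.symm
  refine ⟨tp 5, fun a b => ?_⟩
  rw [hA, norm_mul, hn, hall] at h0 ⊢
  exact h0

end TLATX

open TLATX

variable [HA]

theorem t_LATX : LATX := by
  intro T
  have unr : ∀ w : Pl, ¬ w.p ∣ 30 → ∀ g ∈ w.I, T.rho g = 1 := fun w hw => (HA.cf.tr _ T w hw).1
  obtain ⟨Λ, hr, hc⟩ := exists_lat T.rho (half T) T.sm T.det unr T.up
  refine ⟨Λ, fun g i j => congrFun (congrFun (hr g) i) j, ?_, fun i => ?_⟩
  · have small : ∀ a b, (a, b) ≠ (0, 0) → Λ.cb tau a b = 0 := fun a b h => by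
      refine red_zero.2 ?_
      rw [hc, norm_mul, two']
      linarith [off T tau h]
    have big : Λ.cb tau 0 0 = 1 := by
      refine red_one ?_
      have e : (2 : ℚ_[2])⁻¹ * (T.rho tau - 1) 0 0 =
          2⁻¹ * (T.rho tau - !![cq tau, 0; 0, 1]) 0 0 + -1 := by
        have : cq tau = -1 := by
          unfold cq
          rw [hA.ec.2.2.2.2.2.2.2]
          simp
        simp [this]
        ring
      have k : ‖2⁻¹ * (T.rho tau - !![cq tau, 0; 0, 1]) 0 0‖ < 1 := by
        rw [norm_mul, two']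
        linarith [T.four tau 0 0]
      rw [hc, e, Padic.add_eq_max_of_ne (by rw [norm_neg, norm_one]; exact k.ne), norm_neg,
        norm_one, max_eq_right k.le]
    ext a b
    fin_cases a <;> fin_cases b
    · exact big
    all_goals exact small _ _ (by decide)
  · refine (exists_lat (cj T.rho i) (fun g a b => ?_) (fun ε hε => ?_)
      (fun g => ?_) (fun w hw g hg => ?_) fun g hg => ?_).elim fun Λ' ⟨hr', hc'⟩ => ?_
    rotate_right
    · refine ⟨Λ', fun g => co_inj ?_, ?_⟩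
      · rw [map_mul, map_mul, hr, hr', co_dg, cj_apply, ← mul_assoc, ← mul_assoc, dd_mul, one_mul]
      · obtain ⟨t, ht⟩ := unip T
        refine ⟨t, ?_⟩
        ext a b
        have k : ‖(Λ'.c t a b : ℚ_[2])‖ =
            2 * ((if a = i then 2 else 1) * (if b = i then 2⁻¹ else 1) * 4⁻¹) := by
          rw [hc', norm_mul, two', cj_norm, ht]
        by_cases h : i = a ∧ i + 1 = b
        · obtain ⟨rfl, rfl⟩ := h
          rw [Matrix.single_apply_same]
          refine red_one ?_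
          rw [k, if_pos rfl, if_neg ((by decide : ∀ i : Fin 2, ¬ i + 1 = i) i)]
          norm_num
        · rw [Matrix.single_apply_of_ne _ _ _ _ _ h]
          refine red_zero.2 ?_
          rw [k]
          split_ifs with h1 h2
          · norm_num
          · exact absurd ⟨h1.symm, (by decide : ∀ i b : Fin 2, ¬ b = i → i + 1 = b) i b h2⟩ h
          · norm_num
          · norm_num
    · rw [cj_norm]
      have k := half T g a b
      have k0 := norm_nonneg ((T.rho g - 1) a b)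
      split_ifs with h1 h2
      · linarith
      · have := off T g (a := a) (b := b) fun e => by
          obtain ⟨rfl, rfl⟩ := Prod.mk.inj e
          exact h2 h1
        linarith
      · linarith
      · linarith
    · obtain ⟨N, hN, h⟩ := T.sm (ε / 2) (by positivity)
      refine ⟨N, hN, fun g hg a b => ?_⟩
      rw [cj_norm]
      have k := h g hg a b
      have k0 := norm_nonneg ((T.rho g - 1) a b)
      split_ifs <;> linarith
    · rw [cj_apply, Matrix.det_mul_right_comm, dd_mul', one_mul, T.det]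
    · rw [cj_apply, unr w hw g hg, mul_one, dd_mul']
    · rw [cj_apply, Matrix.mul_diagonal, Matrix.diagonal_mul, T.up g hg, mul_zero, zero_mul]

end Pool.Agent.P.MP_8b7eba_nt.SM
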