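import Pool.Agent.P.MP_8b7eba_nt.SM.IfC
import Pool.Agent.P.MP_8b7eba_nt.Dens.Mert

/-! Proof of MERT. -/

namespace Pool.Agent.P.MP_8b7eba_nt.SM

open Finset

namespace TMERT

open Pool.Agent.P.MP_8b7eba_nt.Dens

lemma lam_le (y : ℕ) : Dens.Lam y ≤ ∑ p ∈ (range y).filter Nat.Prime, (p : ℝ)⁻¹ + 1 := by
  have h1 : PP y ⊆ insert y ((range y).filter Nat.Prime) := by
    intro p hp
    obtain ⟨a, b⟩ := MA.PP_prime_le p hp
    rcases b.eq_or_lt with h | h
    · exact h ▸ mem_insert_self _ _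
    · exact mem_insert_of_mem (mem_filter.2 ⟨mem_range.2 h, a⟩)
  have h2 := sum_le_sum_of_subset_of_nonneg (f := fun p : ℕ => (p : ℝ)⁻¹) h1
    fun _ _ _ => by positivity
  rw [sum_insert (by simp)] at h2
  have h3 : (y : ℝ)⁻¹ ≤ 1 := Nat.cast_inv_le_one y
  simp only [Dens.Lam, one_div]
  linarith

lemma le_lam (y : ℕ) : ∑ p ∈ (range y).filter Nat.Prime, (p : ℝ)⁻¹ ≤ Dens.Lam y + 7 := by
  have h1 : (range y).filter Nat.Prime ⊆ PP y ∪ range 7 := by
    intro p hp
    obtain ⟨a, b⟩ := mem_filter.1 hp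
    have := mem_range.1 a
    by_cases h : 7 ≤ p
    · exact mem_union_left _ (mem_filter.2 ⟨mem_Icc.2 ⟨h, by omega⟩, b⟩)
    · exact mem_union_right _ (mem_range.2 (by omega))
  have h2 := sum_le_sum_of_subset_of_nonneg (f := fun p : ℕ => (p : ℝ)⁻¹) h1
    fun _ _ _ => by positivity
  have h3 := sum_union_inter (s₁ := PP y) (s₂ := range 7) (f := fun p : ℕ => (p : ℝ)⁻¹)
  have h4 : 0 ≤ ∑ p ∈ PP y ∩ range 7, (p : ℝ)⁻¹ := sum_nonneg fun _ _ => by positivity
  have h5 : ∑ p ∈ range 7, (p : ℝ)⁻¹ ≤ ∑ _p ∈ range 7, (1 : ℝ) :=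
    sum_le_sum fun p _ => Nat.cast_inv_le_one p
  simp only [sum_const, card_range, nsmul_eq_mul, mul_one, Nat.cast_ofNat] at h5
  simp only [Dens.Lam, one_div]
  linarith

lemma exists_neg {a : ℤ} (hs : Squarefree a) (h1 : a ≠ 1) :
    ∃ t : ℕ, Odd t ∧ jacobiSym a t = -1 := by
  have hs' : Squarefree a.natAbs := Int.squarefree_natAbs.2 hs
  obtain ⟨k, d, hd, e⟩ := Nat.exists_eq_two_pow_mul_odd hs'.ne_zero
  by_cases hd1 : d = 1
  · subst hd1
    have hk : k ≤ 1 := by
      by_contra hk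
      have : 2 * 2 ∣ a.natAbs := by
        rw [e, mul_one, ← pow_two]
        exact pow_dvd_pow _ (by omega)
      exact absurd (hs' 2 this) (by simp)
    have : a = -1 ∨ a = 2 ∨ a = -2 := by
      interval_cases k <;> omega
    rcases this with rfl | rfl | rfl
    · exact ⟨3, by decide, by norm_num⟩
    · exact ⟨3, by decide, by norm_num⟩
    · exact ⟨5, by decide, by norm_num⟩
  · have hsd : Squarefree d := hs'.squarefree_of_dvd (e ▸ dvd_mul_left _ _)
    have hc : Nat.Coprime 8 d := (Nat.coprime_two_left.2 hd).pow_left 3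
    obtain ⟨t, -, t1, t2⟩ := exists_mult (N := 8) (d₂ := 1) hd hsd (Nat.minFac_prime hd1)
      (Nat.minFac_dvd d) (fun h => (Nat.minFac_prime hd1).one_lt.ne' (Nat.dvd_one.1 h)) hc
    have t8 : t % 8 = 1 := t1
    have ht : Odd t := Nat.odd_iff.2 (by omega)
    have t4 : t % 4 = 1 := by omega
    rw [jacobiSym.one_right, mul_one] at t2
    have j2 : jacobiSym 2 t = 1 := by
      rw [jacobiSym.at_two ht, ZMod.χ₈_nat_eq_if_mod_eight, if_neg (by omega), if_pos (by omega)]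
    have j1 : jacobiSym (-1) t = 1 := by
      rw [jacobiSym.at_neg_one ht, ZMod.χ₄_nat_one_mod_four t4]
    have j3 : jacobiSym (a.natAbs : ℤ) t = -1 := by
      rw [e]
      push_cast
      rw [jacobiSym.mul_left, jacobiSym.pow_left, j2, one_pow, one_mul,
        ← jacobiSym.quadratic_reciprocity_one_mod_four t4 hd, t2]
    refine ⟨t, ht, ?_⟩
    rcases Int.natAbs_eq a with h | h
    · rw [h, j3]
    · rw [h, neg_eq_neg_one_mul, jacobiSym.mul_left, j1, j3, one_mul]

/-- the character attached to `a` -/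
noncomputable def ch (a : ℤ) (n : ℕ) : ℝ := if Odd n then (jacobiSym a n : ℝ) else 0

lemma ch_one (a : ℤ) : ch a 1 = 1 := by simp [ch]

lemma ch_mul (a : ℤ) (m n : ℕ) : ch a (m * n) = ch a m * ch a n := by
  unfold ch
  by_cases hm : Odd m
  · by_cases hn : Odd n
    · rw [if_pos (hm.mul hn), if_pos hm, if_pos hn, jacobiSym.mul_right' _ hm.pos.ne' hn.pos.ne']
      push_cast
      rfl
    · rw [if_neg fun h => hn (Nat.odd_mul.1 h).2, if_neg hn, mul_zero]
  · rw [if_neg fun h => hm (Nat.odd_mul.1 h).1, if_neg hm, zero_mul]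

lemma ch_tri (a : ℤ) (n : ℕ) : ch a n = 0 ∨ ch a n = 1 ∨ ch a n = -1 := by
  unfold ch
  split_ifs
  · rcases jacobiSym.trichotomy a n with h | h | h <;> simp [h]
  · simp

lemma ch_per (a : ℤ) (n : ℕ) : ch a (n + 4 * a.natAbs) = ch a n := by
  unfold ch
  have h : Odd (n + 4 * a.natAbs) ↔ Odd n := by
    rw [Nat.odd_iff, Nat.odd_iff]
    omega
  by_cases hn : Odd n
  · rw [if_pos hn, if_pos (h.2 hn), jacobiSym.mod_right a (h.2 hn), jacobiSym.mod_right a hn,
      Nat.add_mod_right]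
  · rw [if_neg hn, if_neg fun e => hn (h.1 e)]

lemma ch_sum {a : ℤ} (hs : Squarefree a) (h1 : a ≠ 1) (A B : ℕ) :
    |∑ n ∈ Ioc A B, ch a n| ≤ ((4 * a.natAbs : ℕ) : ℝ) := by
  have hq : 0 < 4 * a.natAbs := by
    have := Int.natAbs_pos.2 hs.ne_zero
    omega
  obtain ⟨t, ht, hj⟩ := exists_neg hs h1
  have hc : t.Coprime (4 * a.natAbs) := by
    refine Nat.Coprime.mul_right ((Nat.coprime_two_right.2 ht).pow_right 2) ?_
    by_contra hc
    have : jacobiSym a t = 0 := jacobiSym.eq_zero_iff.2 ⟨ht.pos.ne', fun h => hc (by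
      rw [Int.gcd_eq_natAbs, Int.natAbs_natCast] at h
      exact Nat.Coprime.symm h)⟩
    omega
  refine per_abs_sum hq (ch_per a) (fun n => ?_) (per_sum_zero hq (ch_per a) hc fun n => ?_) A B
  · rcases ch_tri a n with h | h | h <;> simp [h]
  · rw [ch_mul, ch, if_pos ht, hj]
    simp

lemma ch_zero {a : ℤ} {p : ℕ} (hp : p.Prime) (h : ch a p = 0) : p ∣ 2 * a.natAbs := by
  unfold ch at h
  split_ifs at h with ho
  · have h2 : jacobiSym a p = 0 := by exact_mod_cast h
    have h3 := (jacobiSym.eq_zero_iff.1 h2).2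
    rw [Int.gcd_eq_natAbs, Int.natAbs_natCast] at h3
    refine Dvd.dvd.mul_left ?_ 2
    by_contra h4
    exact h3 ((Nat.Prime.coprime_iff_not_dvd hp).2 h4).symm
  · rcases hp.eq_two_or_odd' with h2 | h2
    · rw [h2]
      exact dvd_mul_right _ _
    · exact absurd h2 ho

lemma sum_log_le {m : ℕ} (hm : m ≠ 0) : ∑ p ∈ m.primeFactors, Real.log p ≤ Real.log m := by
  rw [← Real.log_prod fun q hq => by
    exact_mod_cast (Nat.prime_of_mem_primeFactors hq).ne_zero, ← Nat.cast_prod]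
  refine Real.log_le_log ?_ ?_
  · exact_mod_cast prod_pos fun q hq => (Nat.prime_of_mem_primeFactors hq).pos
  · exact_mod_cast Nat.le_of_dvd (Nat.pos_of_ne_zero hm) (Nat.prod_primeFactors_dvd m)

end TMERT

open Pool.Agent.P.MP_8b7eba_nt.Dens TMERT

theorem t_MERT : MERT := by
  obtain ⟨C, hC, h1⟩ := exp_lam_le
  obtain ⟨c, hc, h2⟩ := le_mass
  refine ⟨|Real.log C| + |Real.log c| + 7, fun y hy => ⟨?_, ?_⟩⟩
  · have hl := MA.log_ge_half hy
    have hl0 : 0 < Real.log y := by linarith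
    have a1 := (Real.le_log_iff_exp_le (by positivity)).2 (h1 y hy)
    have a2 := (Real.log_le_iff_le_exp (by positivity)).2 ((h2 y).trans (mass_le_exp y))
    rw [Real.log_mul hC.ne' hl0.ne'] at a1
    rw [Real.log_mul hc.ne' hl0.ne'] at a2
    have a3 := lam_le y
    have a4 := le_lam y
    have a5 := le_abs_self (Real.log C)
    have a6 := neg_abs_le (Real.log c)
    have a7 := abs_nonneg (Real.log C)
    have a8 := abs_nonneg (Real.log c)
    rw [abs_le]
    constructor <;> linarith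
  · have := MA.mertens1 (Z := y) (by omega) (P := (range y).filter Nat.Prime) fun q hq =>
      ⟨(mem_filter.1 hq).2, (mem_range.1 (mem_filter.1 hq).1).le⟩
    have a7 := abs_nonneg (Real.log C)
    have a8 := abs_nonneg (Real.log c)
    linarith

theorem t_CHAR (hMERT : MERT) : CHAR := by
  obtain ⟨C, hC⟩ := hMERT
  refine ⟨2 * C + 3 + Real.log (2 * Real.exp 8 * 102) / 2, fun a y z hs h1 hy hyz ha => ?_⟩
  have hz : 2 ≤ z := hy.trans hyz
  have hl := MA.log_ge_half hz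
  have hl0 : 0 < Real.log z := by linarith
  have ha0 : a.natAbs ≠ 0 := Int.natAbs_ne_zero.2 hs.ne_zero
  have hy0 : (0 : ℝ) < y := by exact_mod_cast (by omega : 0 < y)
  have hab : ((a.natAbs : ℕ) : ℝ) = |(a : ℝ)| := by
    rw [← Int.cast_natCast, Int.natCast_natAbs, Int.cast_abs]
  have e1 : Real.log ((4 * a.natAbs : ℕ) : ℝ) = Real.log (4 * a) := by
    rw [← Real.log_abs (4 * a), abs_mul, ← hab]
    push_cast
    rw [abs_of_pos (by norm_num : (0 : ℝ) < 4)]
  have e0 : 0 ≤ Real.log (4 * a) := e1 ▸ Real.log_natCast_nonneg _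
  set P := (range z).filter Nat.Prime with hP
  have a1 := MA.exp_char_aux (Z := z) (by omega) (P := P) (fun q hq =>
    ⟨(mem_filter.1 hq).2, (mem_range.1 (mem_filter.1 hq).1).le⟩) (ch_one a) (ch_mul a) (ch_tri a)
    (ch_sum hs h1)
  rw [e1] at a1
  have a2 : Real.exp (∑ q ∈ P, (1 + ch a q) / q) ≤
      2 * Real.exp 8 * 102 * (Real.log z * (Real.log (4 * a) + 3)) := by
    refine a1.trans ?_
    rw [mul_assoc _ 102, ← mul_assoc 102]
    refine mul_le_mul_of_nonneg_left ?_ (by positivity)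
    exact mul_le_mul (by linarith) (by linarith) (by linarith) (by linarith)
  have a3 := (Real.le_log_iff_exp_le (by positivity)).2 a2
  rw [Real.log_mul (by positivity) (by positivity), Real.log_mul hl0.ne' (by positivity)] at a3
  set S := (Ico y z).filter (fun p => p.Prime ∧ jacobiSym a p = -1) with hS
  set Y := (range y).filter Nat.Prime with hY
  set T := (2 * a.natAbs).primeFactors with hT
  have a4 : ∑ q ∈ P, 2 * (q : ℝ)⁻¹ ≤ ∑ q ∈ P, ((1 + ch a q) / q +
      (if q ∈ Y then 2 * (q : ℝ)⁻¹ else 0) + (if q ∈ S then 2 * (q : ℝ)⁻¹ else 0) +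
      (if q ∈ T then 2 / y * Real.log q else 0)) := by
    refine sum_le_sum fun q hq => ?_
    obtain ⟨b1, b2⟩ := mem_filter.1 hq
    have b0 : (0 : ℝ) < q := by exact_mod_cast b2.pos
    have b3 : (0 : ℝ) ≤ (q : ℝ)⁻¹ := by positivity
    have b4 : 0 ≤ 2 / y * Real.log q := mul_nonneg (by positivity) (Real.log_natCast_nonneg q)
    have c1 : 0 ≤ (if q ∈ Y then 2 * (q : ℝ)⁻¹ else 0) := by split_ifs <;> linarith
    have c2 : 0 ≤ (if q ∈ S then 2 * (q : ℝ)⁻¹ else 0) := by split_ifs <;> linarith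
    have c3 : 0 ≤ (if q ∈ T then 2 / y * Real.log q else 0) := by split_ifs <;> linarith
    rw [div_eq_mul_inv (1 + ch a q)]
    by_cases hqy : q < y
    · rw [if_pos (show q ∈ Y from mem_filter.2 ⟨mem_range.2 hqy, b2⟩)]
      rcases ch_tri a q with h | h | h <;> rw [h] <;> linarith
    rcases ch_tri a q with h | h | h
    · rw [if_pos (show q ∈ T from Nat.mem_primeFactors.2 ⟨b2, ch_zero b2 h, by omega⟩), h]
      have d1 := MA.log_ge_half b2.two_le
      have d2 : (q : ℝ)⁻¹ ≤ (y : ℝ)⁻¹ := inv_anti₀ hy0 (by exact_mod_cast not_lt.1 hqy)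
      have d3 : 2 / y * (1 / 2) ≤ 2 / y * Real.log q :=
        mul_le_mul_of_nonneg_left d1 (by positivity)
      have d4 : (2 : ℝ) / y * (1 / 2) = (y : ℝ)⁻¹ := by field_simp
      linarith
    · rw [h]
      linarith
    · have d1 : jacobiSym a q = -1 := by
        unfold ch at h
        split_ifs at h
        · exact_mod_cast h
        · norm_num at h
      rw [if_pos (show q ∈ S from
        mem_filter.2 ⟨mem_Ico.2 ⟨not_lt.1 hqy, mem_range.1 b1⟩, b2, d1⟩), h]
      linarith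
  simp only [sum_add_distrib, sum_ite_mem, ← mul_sum] at a4
  have a5 : ∑ q ∈ P ∩ Y, (q : ℝ)⁻¹ ≤ ∑ q ∈ Y, (q : ℝ)⁻¹ :=
    sum_le_sum_of_subset_of_nonneg inter_subset_right fun _ _ _ => by positivity
  have a6 : ∑ q ∈ P ∩ S, (q : ℝ)⁻¹ ≤ ∑ q ∈ S, (q : ℝ)⁻¹ :=
    sum_le_sum_of_subset_of_nonneg inter_subset_right fun _ _ _ => by positivity
  have a7 : ∑ q ∈ P ∩ T, Real.log q ≤ ∑ q ∈ T, Real.log q :=
    sum_le_sum_of_subset_of_nonneg inter_subset_right fun q _ _ => Real.log_natCast_nonneg q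
  have a8 : ∑ q ∈ T, Real.log q ≤ 2 * y := by
    refine (sum_log_le (by omega)).trans ?_
    have b0 : (0 : ℝ) < (a.natAbs : ℝ) := by exact_mod_cast Nat.pos_of_ne_zero ha0
    have b1 := Real.log_le_sub_one_of_pos (by norm_num : (0 : ℝ) < 2)
    have b2 : (2 : ℝ) ≤ y := by exact_mod_cast hy
    rw [Nat.cast_mul, Real.log_mul (by norm_num) b0.ne', hab, Real.log_abs]
    push_cast
    linarith
  have a9 : 2 / y * ∑ q ∈ P ∩ T, Real.log q ≤ 4 := by
    rw [div_mul_eq_mul_div, div_le_iff₀ hy0]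
    linarith
  have b1 := (abs_le.1 (hC y hy).1).2
  have b2 := (abs_le.1 (hC z hz).1).1
  linarith

end Pool.Agent.P.MP_8b7eba_nt.SM
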