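import Pool.Agent.P.MP_8b7eba_nt.SM.IfG
import Pool.Agent.P.MP_8b7eba_nt.SM.BasP

/-! Proof of MOD2. -/

namespace Pool.Agent.P.MP_8b7eba_nt.SM

open Finset R2
open scoped Matrix

namespace TMOD2

theorem cs (s : F2) : s = 0 ∨ s = 1 := by revert s; decide

theorem bs_dvd (i : Fin 4) : bs i ∣ 30 := by fin_cases i <;> simp [bs]

theorem cop30 {q : ℕ} (h : Gp q) (i : Fin 4) : IsCoprime (bs i) (q : ℤ) := by
  have : IsCoprime (q : ℤ) ((30 : ℕ) : ℤ) :=
    Nat.isCoprime_iff_coprime.2 ((Nat.Prime.coprime_iff_not_dvd h.1).2 h.2)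
  exact (this.of_isCoprime_of_dvd_right (bs_dvd i)).symm

variable {B : Box}

theorem cop {b b' : Fin 4 ⊕ B.S} (h : b ≠ b') : IsCoprime (smz B.S b) (smz B.S b') := by
  rcases b with i | q <;> rcases b' with j | q'
  · rw [Int.isCoprime_iff_gcd_eq_one]
    have : ∀ i j : Fin 4, i ≠ j → Int.gcd (bs i) (bs j) = 1 := by decide
    exact this i j fun e => h (congrArg _ e)
  · exact cop30 (B.gS _ q'.2) i
  · exact (cop30 (B.gS _ q.2) j).symm
  · exact Nat.isCoprime_iff_coprime.2 ((Nat.coprime_primes (B.gS _ q.2).1 (B.gS _ q'.2).1).2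
      fun e => h (congrArg _ (Subtype.ext e)))

theorem sqf (b : Fin 4 ⊕ B.S) : Squarefree (smz B.S b) := by
  rcases b with i | q
  · refine Squarefree.squarefree_of_dvd (bs_dvd i) (Int.squarefree_natCast (n := 30) |>.2 ?_)
    rw [show 30 = 2 * (3 * 5) from rfl, Nat.squarefree_mul (by norm_num),
      Nat.squarefree_mul (by norm_num)]
    exact ⟨Nat.prime_two.prime.squarefree, Nat.prime_three.prime.squarefree,
      Nat.prime_five.prime.squarefree⟩
  · exact Int.squarefree_natCast.2 (B.gS _ q.2).1.prime.squarefree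

theorem unit {b : Fin 4 ⊕ B.S} (h : smz B.S b ∣ 1) : b = .inl 0 := by
  rcases b with i | q
  · fin_cases i <;> first | rfl | (exfalso; revert h; simp [smz, bs])
  · have : (q : ℕ) ∣ 1 := Int.natCast_dvd_natCast.1 h
    exact absurd (Nat.dvd_one.1 this) (B.gS _ q.2).1.ne_one

theorem js_prod {p : ℕ} (hp : Gp p) (hS : p ∉ B.S) (U : Finset (Fin 4 ⊕ B.S)) :
    IsCoprime (∏ b ∈ U, smz B.S b) p ∧ js (∏ b ∈ U, smz B.S b) p = ∑ b ∈ U, js (smz B.S b) p := by
  classical
  have h : ∀ b, IsCoprime (smz B.S b) p := fun b =>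
    (((Nat.prime_iff_prime_int.1 hp.1).coprime_iff_not_dvd).2 fun e =>
      BasP.not_dvd hp.1 hp.2 hS b (e.mul_left _)).symm
  induction U using Finset.induction_on with
  | empty => simp [js, isCoprime_one_left]
  | insert b U hb ih =>
    rw [prod_insert hb, sum_insert hb, js_mul (h b) ih.1, ih.2]
    exact ⟨(h b).mul_left ih.1, rfl⟩

theorem core (e : Fin 4 ⊕ B.S → F2) (he : e ≠ 0) : ∃ a : ℤ, Squarefree a ∧ a ≠ 1 ∧
    a ∣ 30 * ∏ q ∈ B.S, (q : ℤ) ∧ ((∀ q, e (.inr q) = 0) → a ∣ 30) ∧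
    ∀ p, Gp p → p ∉ B.S → jacobiSym a p = -1 → ∑ b, js (smz B.S b) p * e b = 1 := by
  classical
  have hc : (↑(univ.filter fun b => e b = 1) : Set (Fin 4 ⊕ B.S)).Pairwise
      (Function.onFun IsCoprime (smz B.S)) := fun b _ b' _ h => cop h
  refine ⟨∏ b ∈ univ.filter fun b => e b = 1, smz B.S b,
    Finset.squarefree_prod_of_pairwise_isCoprime (fun b hb b' hb' h => (hc hb hb' h).isRelPrime)
      fun b _ => sqf b, fun h => ?_, prod_dvd_of_coprime hc fun b _ => BasP.smz_dvd b,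
    fun h => prod_dvd_of_coprime hc fun b hb => ?_, fun p hp hS h => ?_⟩
  · obtain ⟨b, hb⟩ := Function.ne_iff.1 he
    have hb' : b ∈ univ.filter fun b => e b = 1 := by
      simpa using (cs (e b)).resolve_left hb
    have h1 : ∀ c ∈ univ.filter fun b => e b = 1, c = .inl 0 :=
      fun c hc => unit (h ▸ dvd_prod_of_mem _ hc)
    rw [eq_singleton_iff_unique_mem.2 ⟨h1 b hb' ▸ hb', h1⟩, prod_singleton] at h
    simp [smz, bs] at h
  · rcases b with i | q
    · exact bs_dvd i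
    · simp [h q] at hb
  · obtain ⟨h1, h2⟩ := js_prod hp hS (univ.filter fun b => e b = 1)
    rw [← (js_eq_one h1).2 h, h2, sum_filter]
    refine sum_congr rfl fun b _ => ?_
    rcases cs (e b) with h | h <;> simp [h]

end TMOD2

variable [HA]

open TMOD2 in
theorem t_MOD2 : MOD2 := by
  intro Λ B m K l A N y₀ y₁ J₀ J hm hB
  have hX : ∀ i, ∃ p, p ∈ B.X i := fun i => by
    have h1 : 0 < y₀ := lt_of_lt_of_le (by positivity) hB.big
    have h2 := (hB.t0 i).trans (B.rich i).card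
    exact card_pos.1 (Nat.pos_of_ne_zero fun h => by rw [h] at h2; omega)
  have key : ∀ (e : Fin 4 ⊕ B.S → F2) (a : ℤ), (∀ p, Gp p → p ∉ B.S → jacobiSym a p = -1 →
      ∑ b, js (smz B.S b) p * e b = 1) → ∀ i, (∀ p ∈ B.X i, jacobiSym a p = -1) →
      ∑ b, m.κ i b * e b = 1 := fun e a h i hi => by
    obtain ⟨p, hp⟩ := hX i
    simp only [hm.κ i p hp]
    exact h p ((B.rich i).gp p hp).1 (disjoint_left.1 (B.nS i) hp) (hi p hp)
  refine ⟨fun e he => ?_, fun e he => ?_⟩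
  · obtain ⟨a, h1, h2, h3, -, h5⟩ := core e he
    obtain ⟨i, hi, h⟩ := hB.u1 a h1 h2 h3
    exact ⟨i, hi, key e a h5 i h⟩
  · obtain ⟨a, h1, h2, -, h4, h5⟩ := core (B := B) (Sum.elim e 0) fun h =>
      he (funext fun i => congrFun h (.inl i))
    refine (hB.na a h1 h2 (h4 fun _ => rfl)).trans (card_le_card fun i hi => ?_)
    simp only [mem_filter, mem_univ, true_and] at hi ⊢
    simpa [Fintype.sum_sum_type] using key _ a h5 i hi

end Pool.Agent.P.MP_8b7eba_nt.SM
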