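import Pool.Agent.P.MP_8b7eba_nt.SM.IfG
import Pool.Agent.P.MP_8b7eba_nt.SM.BasP
import Pool.Agent.P.MP_8b7eba_nt.SM.BasY

/-! Proof of MODEL. -/

namespace Pool.Agent.P.MP_8b7eba_nt.SM

open Finset R2
open scoped Matrix

variable [HA]

namespace TMODEL

omit [HA] in
theorem two : ∀ x y : V1, x = y ↔ x + y = 0 := by decide

omit [HA] in
theorem two' : ∀ x y z : V1, x + y = z ↔ y = x + z := by decide

theorem one {Λ : Lat} {B : Box} {κ : Fin B.r → Fin 4 ⊕ B.S → F2}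
    (hκ : ∀ i, ∀ p ∈ B.X i, ∀ b, κ i b = js (smz B.S b) p)
    {C : Fin 4 → Matrix (Fin 2) (Fin 2) F2} (hC : ∀ g, Λ.cb g = ∑ i, qz (bs i) g • C i)
    {p : Fin B.r → ℕ} (hp : p ∈ B.pts) (a : Fin 4 ⊕ B.S → V1) (R : Fin B.r → V1) :
    Λ.Se (B.set p) (pat (sp B.S a) R p) ↔
      (∀ i, ∑ j, Leg p i j • (R j + R i) + ∑ b, κ i b • a b + (∑ q, κ i (.inr q)) • R i +
        ∑ b, κ i (.inl b) • (C b *ᵥ R i +
          (if b = 0 then ∑ q : B.S, js (-1) q else 0) • R i) = 0) ∧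
      ∀ q : B.S, ∑ i, κ i (.inr q) • R i = sp B.S a (fr q) + (Λ.cb (fr q) *ᵥ a (.inr q) +
        (chi B.S (fr q) + ∑ i, κ i (.inr q)) • a (.inr q)) := by
  have hX := Box.mem_pts.1 hp
  have hk : ∀ i b, κ i b = js (smz B.S b) (p i) := fun i => hκ i _ (hX i)
  have h1 : Λ.Se (B.set p) (pat (sp B.S a) R p) ↔ ∀ q ∈ B.set p, pat (sp B.S a) R p (fr q) =
      Λ.cb (fr q) *ᵥ pat (sp B.S a) R p (tp q) +
        chi (B.set p) (fr q) • pat (sp B.S a) R p (tp q) :=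
    ⟨fun h => h.loc, fun h => ⟨isCh_pat (isCh_sp a) R p, fun w h1 h2 g hg => by
      rw [pat_I hp h2 hg, sp_I h1 (fun c => h2 (Box.mem_set.2 (.inl c))) hg], h⟩⟩
  simp only [h1, Box.mem_set, or_imp, forall_and, forall_exists_index, forall_apply_eq_imp_iff]
  rw [and_comm, Subtype.forall']
  refine and_congr (forall_congr' fun i => ?_) (forall_congr' fun q => ?_)
  · have hg := ((Box.inj hp).2 i).1
    have e : ∀ b, qz (bs b) (fr (p i)) = js (bs b) (p i) := fun b =>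
      qz_fr hg.1 (BasP.not_dvd hg.1 hg.2 ((Box.inj hp).2 i).2 (.inl b))
    rw [pat_fr hp, pat_tp hp, sp_tp_X a (hX i), sp_fr a (hX i), chi_fr hp, hC, zero_add, two]
    refine Eq.congr_left ?_
    simp only [hk, e, smz, Sum.elim_inl, Sum.elim_inr, smul_add, sum_add_distrib, add_smul,
      Matrix.sum_mulVec, Matrix.smul_mulVec, ← sum_smul, smul_smul, mul_ite, mul_zero,
      sum_ite_eq', mem_univ, if_true]
    rw [mul_comm (js (bs 0) _), show bs 0 = -1 from rfl]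
    abel
  · rw [pat_fr_S hp, pat_tp_S hp, sp_tp, chi_fr_S hp, two']
    simp only [hk, smz, Sum.elim_inr]

end TMODEL

theorem t_MODEL : MODEL := by
  intro Λ B
  obtain ⟨C, hC⟩ := chars (S := ∅) (by simp) Λ.isCh_cb fun w h _ g hg => (Λ.c_I h hg).2
  simp only [sum_empty, add_zero] at hC
  let κ : Fin B.r → Fin 4 ⊕ B.S → F2 := fun i b =>
    js (smz B.S b) (Classical.epsilon fun p => p ∈ B.X i)
  have hκ : ∀ i, ∀ p ∈ B.X i, ∀ b, κ i b = js (smz B.S b) p := fun i p hp b =>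
    Box.js_eq (Classical.epsilon_spec (p := fun p => p ∈ B.X i) ⟨p, hp⟩) hp b
  let ϑ : B.S → (Fin 4 ⊕ B.S → V1) → V1 := fun q a => sp B.S a (fr q) +
    (Λ.cb (fr q) *ᵥ a (.inr q) + (chi B.S (fr q) + ∑ i, κ i (.inr q)) • a (.inr q))
  refine ⟨⟨κ, fun b => (C b).mulVecLin.prodMap (C b).mulVecLin +
    (if b = 0 then ∑ q : B.S, js (-1) q else 0) • LinearMap.id,
    fun q a => (ϑ q fun b => (a b).1, ϑ q fun b => (a b).2)⟩, hκ, fun D hD g v hv => ?_,
    fun p hp i₀ a R => ?_, fun p hp χ h => ?_⟩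
  · have e : (Λ.cb g *ᵥ v.1, Λ.cb g *ᵥ v.2) = ∑ b, qz (bs b) g • (C b *ᵥ v.1, C b *ᵥ v.2) := by
      simp only [hC, Prod.ext_iff, Prod.fst_sum, Prod.snd_sum, Prod.smul_mk, Matrix.sum_mulVec,
        Matrix.smul_mulVec, and_self]
    rw [e]
    exact D.sum_mem fun b _ => D.smul_mem _ ((D.add_mem_iff_left (D.smul_mem _ hv)).1 (hD b v hv))
  · rw [TMODEL.one hκ hC hp, TMODEL.one hκ hC hp, and_and_and_comm, ← forall_and, ← forall_and]
    refine and_congr_right' (and_congr (forall_congr' fun i => ?_) (forall_congr' fun q => ?_)) <;>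
      rw [Prod.ext_iff] <;>
      simp only [Prod.fst_sum, Prod.snd_sum, Prod.fst_add, Prod.snd_add, Prod.smul_fst,
        Prod.smul_snd] <;> rfl
  · obtain ⟨c, hc⟩ := chars (Box.set_gp hp) h.ch h.unr
    refine ⟨Sum.elim (fun i => c i + if i = 0 then ∑ q : B.S, js (-1) q • χ (tp q) else 0)
      fun q => χ (tp q), funext fun g => ?_⟩
    have e : ∀ q : B.S, qs q g = qz q g + js (-1) q * qz (-1) g := fun q => by
      rw [qs_eq (B.gS q q.2).ne.2.2.2.2.1]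
      rfl
    rw [hc g, Box.sum_set hp fun q => qs q g • χ (tp q), pat, sp, Fintype.sum_sum_type]
    simp only [e, smz, Sum.elim_inl, Sum.elim_inr, smul_add, add_smul, sum_add_distrib, smul_ite,
      smul_zero, sum_ite_eq', mem_univ, if_true, smul_sum, smul_smul, mul_comm (qz (bs 0) g)]
    rw [show bs 0 = -1 from rfl]
    abel

end Pool.Agent.P.MP_8b7eba_nt.SM
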