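import Pool.Agent.P.MP_8b7eba_nt.SM.IfG
import Pool.Agent.P.MP_8b7eba_nt.SM.BasP
import Pool.Agent.P.MP_8b7eba_nt.SM.BasL

/-! Proof of NORM, TYP. -/

namespace Pool.Agent.P.MP_8b7eba_nt.SM

open Finset R2
open scoped Matrix

variable [HA]

theorem t_NORM : NORM := by
  classical
  intro Λ B m i₀ hm p hp
  have two : ∀ v : V1, v + v = 0 := by decide
  obtain ⟨F, hF, hF'⟩ : ∃ F : Finset ((Fin 4 ⊕ B.S → FF) × (Fin B.r → FF)),
      F.card = m.ns i₀ (Leg p) ∧ ∀ s, m.Sol i₀ (Leg p) s.1 s.2 → s ∈ F := by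
    refine ⟨_, rfl, fun s hs => ?_⟩
    simpa using hs
  refine ⟨((univ : Finset V1) ×ˢ F).image fun x g =>
    pat (sp B.S fun b => (x.2.1 b).1) (fun i => (x.2.2 i).1) p g +
      (Λ.cb g *ᵥ x.1 + chi (B.set p) g • x.1), card_image_le.trans (le_of_eq ?_), fun χ hχ => ?_⟩
  · rw [card_product, hF]
    rfl
  obtain ⟨h1, h2⟩ := Λ.se_hb (Box.set_gp hp) (χ (tp (p i₀)))
  have h3 := hχ.add h1
  obtain ⟨η, hη⟩ : ∃ η : X2, η = fun g =>
    χ g + (Λ.cb g *ᵥ χ (tp (p i₀)) + chi (B.set p) g • χ (tp (p i₀))) := ⟨_, rfl⟩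
  rw [← hη] at h3
  obtain ⟨a, ha⟩ := hm.rep p hp _ h3
  have h4 : η (tp (p i₀)) = 0 := by
    rw [hη]
    beta_reduce
    rw [h2 _ (Box.mem_set.2 (Or.inr ⟨i₀, rfl⟩)), two]
  have e : pat (sp B.S fun _ => 0) (fun _ => 0) p = fun g => χ g + χ g := by
    funext g
    simp [pat, sp, two]
  have hs : m.Sol i₀ (Leg p) (fun b => (a b, 0)) fun i => (η (tp (p i)), 0) :=
    (hm.sol p hp i₀ _ _).2 ⟨Prod.ext h4 rfl, ha ▸ h3, e ▸ hχ.add hχ⟩
  refine mem_image.2 ⟨(χ (tp (p i₀)), fun b => (a b, 0), fun i => (η (tp (p i)), 0)),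
    mem_product.2 ⟨mem_univ _, hF' _ hs⟩, funext fun g => ?_⟩
  change pat (sp B.S a) (fun i => η (tp (p i))) p g +
    (Λ.cb g *ᵥ χ (tp (p i₀)) + chi (B.set p) g • χ (tp (p i₀))) = χ g
  rw [← ha, hη]
  beta_reduce
  rw [add_assoc, two, add_zero]

theorem t_TYP : TYP := by
  rintro Λ B m i₀ τ J hm p hp ⟨φ, ψ, hW, h1, h2, hG⟩ hT
  have s1 := (hW 0).1.se (Box.set_gp hp)
  have s2 := (hW 0).2.se (Box.set_gp hp)
  obtain ⟨a, ha⟩ := hm.rep p hp _ s1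
  obtain ⟨a', ha'⟩ := hm.rep p hp _ s2
  have hs : m.Sol i₀ (Leg p) (fun b => (a b, a' b)) fun i => (φ (tp (p i)), ψ (tp (p i))) :=
    (hm.sol p hp i₀ _ _).2 ⟨Prod.ext h1 h2, ha ▸ s1, ha' ▸ s2⟩
  obtain ⟨t1, t2, -⟩ := hT _ _ hs
  have in1 : ∀ g, (φ g, ψ g) ∈
      Submodule.span F2 (Set.range fun i => (φ (tp (p i)), ψ (tp (p i)))) := fun g => by
    have e : (φ g, ψ g) = ∑ b, qz (smz B.S b) g • (a b, a' b) +
        ∑ i, qs (p i) g • (φ (tp (p i)), ψ (tp (p i))) := by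
      refine Prod.ext ((congrFun ha g).trans ?_) ((congrFun ha' g).trans ?_)
      · simp [pat, sp, Prod.fst_sum]
      · simp [pat, sp, Prod.snd_sum]
    rw [e]
    exact add_mem (sum_mem fun b _ => Submodule.smul_mem _ _ (t2 b))
      (sum_mem fun i _ => Submodule.smul_mem _ _ (Submodule.subset_span ⟨i, rfl⟩))
  have in2 : ∀ v ∈ Submodule.span F2 (Set.range fun i => (φ (tp (p i)), ψ (tp (p i)))),
      ∃ h, φ h = v.1 ∧ ψ h = v.2 := fun v hv => by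
    induction hv using Submodule.span_induction with
    | mem x hx =>
      obtain ⟨i, rfl⟩ := hx
      exact ⟨_, rfl, rfl⟩
    | zero => exact ⟨1, s1.ch.one, s2.ch.one⟩
    | add x y _ _ hx hy =>
      obtain ⟨g, g1, g2⟩ := hx
      obtain ⟨h, k1, k2⟩ := hy
      exact ⟨g * h, by rw [s1.ch.2 g trivial h trivial, g1, k1, Prod.fst_add],
        by rw [s2.ch.2 g trivial h trivial, g2, k2, Prod.snd_add]⟩
    | smul c x _ hx =>
      rcases BasG.f2 c with rfl | rfl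
      · rw [zero_smul]
        exact ⟨1, s1.ch.one, s2.ch.one⟩
      · rwa [one_smul]
  obtain ⟨g, h, g1, g2⟩ := hG fun g h => in2 _ (hm.C _ t1 g _ (in1 h))
  exact ⟨_, _, hs, ⟨_, in1 g, _, in1 h, g1, g2⟩, fun n => ⟨ha ▸ (hW n).1, ha' ▸ (hW n).2⟩⟩

end Pool.Agent.P.MP_8b7eba_nt.SM
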