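import Pool.Agent.P.MP_8b7eba_nt.SM.IfG

/-! Proof of NUM. -/

namespace Pool.Agent.P.MP_8b7eba_nt.SM

open Finset R2
open scoped Matrix

namespace TNUM

theorem bound (N m s x M T E ρ : ℕ) (hT : 2 ≤ T) :
    N * (T * (E + 2)) * (2 ^ (s * (3 * (ρ + 3 + x) + 1))) ^ M * T ^ m ≤
      (T * (E + 2) * 2 ^ (ρ + 2)) ^ (N + 1 + s * (7 + 3 * x) * M + m) := by
  set b := T * (E + 2) * 2 ^ (ρ + 2) with hb
  have h1 : T * (E + 2) ≤ b := Nat.le_mul_of_pos_right _ (by positivity)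
  have h2 : T ≤ b := (Nat.le_mul_of_pos_right _ (by positivity)).trans h1
  have h3 : 2 ^ (ρ + 2) ≤ b := Nat.le_mul_of_pos_left _ (by positivity)
  have h4 : N ≤ b ^ N := Nat.lt_two_pow_self.le.trans (Nat.pow_le_pow_left (hT.trans h2) N)
  have h5 : 2 ^ (s * (3 * (ρ + 3 + x) + 1)) ≤ b ^ (s * (7 + 3 * x)) := by
    refine le_trans ?_ (Nat.pow_le_pow_left h3 _)
    rw [← pow_mul]
    refine Nat.pow_le_pow_right (by norm_num) ?_
    rw [mul_left_comm]
    exact Nat.mul_le_mul_left _ (by nlinarith [Nat.zero_le (ρ * x)])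
  rw [pow_add, pow_add, pow_add, pow_one, pow_mul b]
  gcongr

theorem fin {T H T' y F w m n : ℝ} (T0 : 0 < T) (H0 : 0 < H) (F0 : 0 < F) (w0 : 0 ≤ w)
    (n0 : 0 < n) (T1 : 0 < T') (h1 : (w + 1) * H * F ≤ y) (h2 : 32 * T * m * n * H ≤ T') :
    w / (y / F) < H⁻¹ ∧ 1 ≤ H⁻¹ * (y / F) ∧
      (2 * T)⁻¹ + 8 * m * (2 * T'⁻¹) / (n⁻¹ * H⁻¹) ≤ T⁻¹ := by
  have a0 : 0 < H * F := mul_pos H0 F0
  have a1 : 0 ≤ w * (H * F) := by positivity
  have y0 : 0 < y := by linarith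
  refine ⟨?_, ?_, ?_⟩
  · rw [div_div_eq_mul_div, div_lt_iff₀ y0, lt_inv_mul_iff₀ H0]
    linarith
  · rw [le_inv_mul_iff₀ H0, le_div_iff₀ F0]
    linarith
  · have e : 8 * m * (2 * T'⁻¹) / (n⁻¹ * H⁻¹) = (2 * T)⁻¹ * (32 * T * m * n * H / T') := by
      field_simp
      ring
    have e2 : T⁻¹ = (2 * T)⁻¹ + (2 * T)⁻¹ * 1 := by
      field_simp
      ring
    rw [e, e2]
    gcongr
    exact (div_le_one T1).2 h2

end TNUM

variable [HA]

omit [HA] in
theorem t_NUM' : NUM := by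
  intro k M c _
  set m := (M + 1) ^ (k + 1) with hm
  set w := (k + 1) * (M + 1) ^ 2 with hw
  set n := 2 ^ (k * M + M * (M + 1) ^ k) with hn
  set a := (w + 1) * 32 * m * n * 2 * 2 ^ m + 1 + (M + 1) ^ k * (7 + 3 * (k * (M + 1))) * M + m
    with ha
  refine ⟨a * (c + 1) + c + 1, fun T E ρ y₀ δ η κ hT hy hδ hη hκ => ⟨by omega, ?_⟩⟩
  have hb := TNUM.bound ((w + 1) * 32 * m * n * 2 * 2 ^ m) m ((M + 1) ^ k) (k * (M + 1)) M T E ρ hT
  rw [← ha] at hb
  set K := (2 ^ ((M + 1) ^ k * (3 * (ρ + 3 + k * (M + 1)) + 1))) ^ M with hK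
  set b := T * (E + 2) * 2 ^ (ρ + 2)
  have T0 : 0 < T := by omega
  have b0 : 0 < b := by positivity
  have m0 : 0 < m := by positivity
  have n0 : 0 < n := by positivity
  have K0 : 0 < K := by positivity
  set H := 2 * K * (2 * T) ^ m with hH
  have H0 : 0 < H := by positivity
  set T' := (w + 1) * (32 * T * m * n * H) with hT'
  have e : T' * (E + 2) = (w + 1) * 32 * m * n * 2 * 2 ^ m * (T * (E + 2)) * K * T ^ m := by
    rw [hT', hH, mul_pow]
    ring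
  rw [← e] at hb
  have h1 : T' * (E + 2) ≤ y₀ :=
    hb.trans ((Nat.pow_le_pow_right b0 (by nlinarith)).trans hy)
  have h2 : (T' * (E + 2)) ^ c ≤ y₀ := by
    refine (Nat.pow_le_pow_left hb c).trans ?_
    rw [← pow_mul]
    exact (Nat.pow_le_pow_right b0 (by nlinarith)).trans hy
  have h3 : H ≤ 32 * T * m * n * H := Nat.le_mul_of_pos_left _ (by positivity)
  have h4 : 32 * T * m * n * H ≤ T' := Nat.le_mul_of_pos_left _ (by positivity)
  have h5 : (w + 1) * H * (E + 2) ≤ y₀ :=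
    (Nat.mul_le_mul_right _ (Nat.mul_le_mul_left _ h3)).trans h1
  have h6 : 2 ≤ H := by
    rw [hH, mul_assoc]
    exact Nat.le_mul_of_pos_right _ (by positivity)
  have e1 : η = (H : ℝ)⁻¹ := by
    rw [hη, hδ, hH, hK]
    push_cast
    rw [inv_pow]
    field_simp
  have e2 : κ = (n : ℝ)⁻¹ := by
    rw [hκ, hn]
    push_cast
    rfl
  have h7 := TNUM.fin (T := T) (H := H) (T' := T') (y := y₀) (F := E + 2) (w := w) (m := m) (n := n)
    (by exact_mod_cast T0) (by exact_mod_cast H0) (by positivity) (by positivity)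
    (by exact_mod_cast n0) (by exact_mod_cast H0.trans_le (h3.trans h4)) (by exact_mod_cast h5)
    (by exact_mod_cast h4)
  refine ⟨T', h6.trans (h3.trans h4), h2, ?_⟩
  rw [e1, e2, hδ]
  rw [hw, hm] at h7
  push_cast at h7
  exact h7

theorem t_NUM : NUM := t_NUM'

end Pool.Agent.P.MP_8b7eba_nt.SM
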