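import Pool.Agent.P.MP_8b7eba_nt.SM.IfG
import Pool.Agent.P.MP_8b7eba_nt.SM.BasR

/-! Proof of MONO, OG. -/

namespace Pool.Agent.P.MP_8b7eba_nt.SM

open Finset R2
open scoped Matrix

namespace TOG

variable {k M : ℕ} {u : Fin k → Fin (M + 1) → ℕ}

/-- the radicands -/
def nn (u : Fin k → Fin (M + 1) → ℕ) (s : Fin k × Fin M) : ℤ := ps (u s.1 s.2.succ) * ps (u s.1 0)

theorem ps_ne {p : ℕ} (h : Gp p) : ps p ≠ 0 := fun e => by
  simpa [e] using (ps_mod h.ne.2.2.2.2.1).1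

theorem qz_nn (hu : ∀ i j, Gp (u i j)) (s : Fin k × Fin M) : qz (nn u s) = aa u s.1 s.2.succ :=
  qz_mul (ps_ne (hu _ _)) (ps_ne (hu _ _))

theorem abs_nn (s : Fin k × Fin M) : (nn u s).natAbs = u s.1 s.2.succ * u s.1 0 := by
  rw [nn, Int.natAbs_mul, BasG.abs_ps, BasG.abs_ps]

theorem cases_nn (hu : ∀ i j, Gp (u i j)) (g : GQ) (i : Fin k) (j : Fin (M + 1)) :
    (Fin.cases 0 (fun j => qz (nn u (i, j)) g) j : F2) = aa u i j g := by
  refine Fin.cases ?_ (fun j => ?_) j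
  · rw [aa_zero]; rfl
  · rw [Fin.cases_succ, qz_nn hu]

theorem num {T E y c : ℕ} (hT : 2 ≤ T) (hE : 2 ≤ E) (hy : 1 ≤ y) :
    (T * E * (4 * y ^ 2)) ^ c ≤ (T * E * y) ^ (2 * c + 1) ∧ 2 * y < (T * E * y) ^ (2 * c + 1) := by
  have h4 : 4 ≤ T * E := Nat.mul_le_mul hT hE
  have h1 : 1 ≤ T * E * y := Nat.mul_pos (by omega) hy
  constructor
  · calc (T * E * (4 * y ^ 2)) ^ c ≤ ((T * E * y) ^ 2) ^ c := by
          refine Nat.pow_le_pow_left ?_ _
          calc T * E * (4 * y ^ 2) ≤ T * E * (T * E * y ^ 2) := by gcongr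
            _ = (T * E * y) ^ 2 := by ring
      _ ≤ (T * E * y) ^ (2 * c + 1) := by
          rw [← pow_mul]; exact Nat.pow_le_pow_right h1 (by omega)
  · calc 2 * y < 4 * y := by omega
      _ ≤ T * E * y := Nat.mul_le_mul_right _ h4
      _ ≤ (T * E * y) ^ (2 * c + 1) := Nat.le_self_pow (by omega) _

variable [HA]

theorem surj (hu : ∀ i j, Gp (u i j)) (hi : ∀ i j i' j', u i j = u i' j' → i = i' ∧ j = j')
    (v : Fin k × Fin M → F2) : ∃ g, ∀ s, qz (nn u s) g = v s := by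
  have key : ∀ U : Finset (Fin k × Fin M), ∃ g, ∀ s,
      qz (nn u s) g = if s ∈ U then v s else 0 := by
    intro U
    induction U using Finset.induction_on with
    | empty => exact ⟨1, fun s => by simpa using (isCh_qz (H := ⊤) (nn u s)).one⟩
    | insert a U ha ih =>
      obtain ⟨g, hg⟩ := ih
      have e : ∀ s, qz (nn u s) (tp (u a.1 a.2.succ)) = if s = a then 1 else 0 := fun s => by
        rw [qz_nn hu, aa, Pi.add_apply, qs_tp (hu _ _) (hu _ _), qs_tp (hu _ _) (hu _ _),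
          if_neg fun h => Fin.succ_ne_zero _ (hi _ _ _ _ h).2, add_zero]
        refine if_congr ⟨fun h => ?_, fun h => by rw [h]⟩ rfl rfl
        have := hi _ _ _ _ h
        exact (Prod.ext this.1 (Fin.succ_injective _ this.2)).symm
      rcases BasG.f2 (v a) with h | h
      · refine ⟨g, fun s => ?_⟩
        rw [hg]
        by_cases hs : s = a
        · rw [hs, if_neg ha, if_pos (mem_insert_self _ _), h]
        · simp [hs]
      · refine ⟨g * tp (u a.1 a.2.succ), fun s => ?_⟩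
        rw [(isCh_qz (H := ⊤) _).2 _ trivial _ trivial, hg, e]
        by_cases hs : s = a
        · rw [hs, if_neg ha, if_pos (mem_insert_self _ _), h, if_pos rfl, zero_add]
        · simp [hs]
  simpa using key univ

end TOG

open TOG

variable [HA]

theorem t_MONO : MONO := by
  intro k M e he
  obtain ⟨μ₀, h0, hmin⟩ := exists_min_image (univ.filter fun μ => e μ ≠ 0) dg (by
    obtain ⟨μ, hμ⟩ := Function.ne_iff.1 he
    exact ⟨μ, mem_filter.2 ⟨mem_univ _, hμ⟩⟩)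
  refine ⟨fun i j => if μ₀ i = j then 1 else 0, ?_⟩
  rw [sum_eq_single μ₀, BasG.one_of_ne (mem_filter.1 h0).2]
  · simp
  · intro μ _ hμ
    by_contra hc
    have h1 := hmin μ (mem_filter.2 ⟨mem_univ _, left_ne_zero_of_mul hc⟩)
    have h2 : ∀ i, μ i ≠ 0 → μ₀ i = μ i := fun i hi => by
      by_contra h3
      exact right_ne_zero_of_mul hc (prod_eq_zero (mem_filter.2 ⟨mem_univ i, hi⟩) (if_neg h3))
    have h3 : (univ.filter fun i => μ i ≠ 0) = univ.filter fun i => μ₀ i ≠ 0 :=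
      eq_of_subset_of_card_le (fun i hi => mem_filter.2 ⟨mem_univ _, by
        rw [h2 i (mem_filter.1 hi).2]; exact (mem_filter.1 hi).2⟩) h1
    refine hμ (funext fun i => ?_)
    by_cases h4 : μ i = 0
    · by_contra h5
      have : i ∈ univ.filter fun i => μ₀ i ≠ 0 :=
        mem_filter.2 ⟨mem_univ _, fun h6 => h5 (h4.trans h6.symm)⟩
      rw [← h3] at this
      exact (mem_filter.1 this).2 h4
    · exact (h2 i h4).symm
  · exact fun h => absurd (mem_univ _) h

theorem t_OG (hOGA : OGA) (hMQH : MQH) (hMONO : MONO) : OG := by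
  intro k M
  obtain ⟨c, hc⟩ := hOGA (Fintype.card (Fin k × Fin M)) (2 + Fintype.card (Fin k × Fin (M + 1)))
  refine ⟨2 * c + 1, fun u Q W W' Y tW tY E T y₁ w₀ γ e b hu hi hW hY hd hs hT hE hy h1 h2 hw₀ hg
    he hb hjs => ?_⟩
  have gu : ∀ i j, Gp (u i j) := fun i j => (hu i j).1
  choose g hgv using surj gu hi
  let m : MQ (Fin k × Fin M) :=
    ⟨nn u, g, fun s => mul_ne_zero (ps_ne (gu _ _)) (ps_ne (gu _ _)), hgv⟩
  have mH : ∀ x, x ∈ m.H ↔ ∀ i j, aa u i j x = 0 := fun x => by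
    rw [(hMQH _ m).2.1]
    refine ⟨fun h i j => ?_, fun h s => (congrFun (qz_nn gu s) x).trans (h _ _)⟩
    rw [← cases_nn gu]
    exact Fin.cases rfl (fun j => h (i, j)) j
  have mP : ∀ i j, u i j ∈ ({2, w₀} ∪ univ.image fun s : Fin k × Fin (M + 1) => u s.1 s.2 :
      Finset ℕ) := fun i j => mem_union_right _ (mem_image.2 ⟨(i, j), mem_univ _, rfl⟩)
  obtain ⟨n1, n2⟩ := num (c := c) hT hE hy
  refine hc _ m ({2, w₀} ∪ univ.image fun s : Fin k × Fin (M + 1) => u s.1 s.2)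
    (univ.filter fun v : Fin k × Fin M → F2 => ∑ μ, e μ * ∏ i ∈ univ.filter (fun i => μ i ≠ 0),
      (Fin.cases 0 (fun j => v (i, j)) (μ i) : F2) = 1) W W' Y tW tY E T (4 * y₁ ^ 2)
    (fun w x => ∑ μ, e μ * γ w μ x) b rfl ?_ (by simp) ?_ ?_ hW hY hd hs hT hE
    (Nat.mul_pos (by norm_num) (by positivity)) ?_ (n1.trans h1) (n1.trans h2) ?_ hb ?_
  · exact (card_union_le _ _).trans (Nat.add_le_add card_le_two card_image_le)
  · intro s p hp hpd
    rw [Int.natCast_dvd] at hpd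
    rcases (Nat.Prime.dvd_mul hp).1 (abs_nn s ▸ hpd) with h | h
    · rw [(Nat.prime_dvd_prime_iff_eq hp (gu _ _).1).1 h]; exact mP _ _
    · rw [(Nat.prime_dvd_prime_iff_eq hp (gu _ _).1).1 h]; exact mP _ _
  · obtain ⟨v, hv⟩ := hMONO k M e he
    refine ⟨fun s => v s.1 s.2.succ, mem_filter.2 ⟨mem_univ _, ?_⟩⟩
    rw [← hv]
    refine sum_congr rfl fun μ _ => congrArg _ (prod_congr rfl fun i hi => ?_)
    obtain ⟨j, hj⟩ := Fin.exists_succ_eq.2 (mem_filter.1 hi).2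
    rw [← hj, Fin.cases_succ]
  · intro s
    rw [Int.abs_eq_natAbs]
    refine Int.ofNat_le.2 ((abs_nn s).trans_le ?_)
    calc _ ≤ 2 * y₁ * (2 * y₁) := Nat.mul_le_mul (hu _ _).2 (hu _ _).2
      _ = _ := by ring
  · intro w hw
    obtain ⟨hne, hok, hgov⟩ := hg w hw
    have lt : ∀ μ : Mu k M, dg μ < k + 1 := fun μ => Nat.lt_succ_of_le (dg_le μ)
    refine ⟨fun x hx => (mH x).2 fun i j => hok.sp i j x hx, IsCh.sum fun μ _ =>
      ((hgov.rel μ (lt μ)).isCh fun i j x hx => (mH x).1 hx i j).map (AddMonoidHom.mulLeft (e μ)),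
      fun v hv hvw x hx => sum_eq_zero fun μ _ => ?_, fun x => ?_⟩
    · rw [hgov.ram μ (lt μ) v (fun h => hv (by simp [h])) hvw (fun h => hv (by simp [h]))
        (fun i j h => hv (h ▸ mP i j)) x hx, mul_zero]
    · simp only [hgov.conj_tp hok.gp hw₀ hne fun i j => hok.sp i j _ (tp_D hok.gp.1 hok.gp.ne.1),
        mem_filter, mem_univ, true_and, m, cases_nn gu]
      split_ifs with h
      · exact h
      · exact (BasG.f2 _).resolve_right h
  · intro y hyY hby x hx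
    obtain ⟨gy, ty, -⟩ := hY.gp y hyY
    have ne : ∀ i j, y ≠ u i j := fun i j h => by
      have := (hu i j).2
      omega
    exact (mH x).2 fun i j => keyp gy (gu _ _) (gu _ _) (ne _ _) (ne _ _) (hjs y hyY hby i j) hx

end Pool.Agent.P.MP_8b7eba_nt.SM
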