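import Pool.Agent.P.MP_8b7eba_nt.SM.IfG
import Pool.Agent.P.MP_8b7eba_nt.SM.BasH

/-! Proof of OGB. -/

namespace Pool.Agent.P.MP_8b7eba_nt.SM

open Finset R2
open scoped Matrix

namespace TOGB

theorem two_pow_le {c : ℕ} (hc : 1 ≤ c) : 2 ^ c.primeFactors.card ≤ c :=
  (pow_card_le_prod _ _ _ fun _ hp => (Nat.prime_of_mem_primeFactors hp).two_le).trans
    (Nat.le_of_dvd hc (Nat.prod_primeFactors_dvd c))

theorem card_le {P : Finset ℕ} {n C c : ℕ} (h1 : 1 ≤ c) (h2 : c ≤ C) :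
    2 ^ (n * ((P ∪ c.primeFactors).card + 3)) ≤ 2 ^ (n * (P.card + 3)) * C ^ n := by
  have e : n * ((P ∪ c.primeFactors).card + 3) ≤
      n * (P.card + 3) + c.primeFactors.card * n := by
    have := card_union_le P c.primeFactors
    nlinarith [Nat.zero_le n]
  refine (Nat.pow_le_pow_right (by norm_num) e).trans ?_
  rw [pow_add, pow_mul 2 c.primeFactors.card]
  exact Nat.mul_le_mul_left _ (Nat.pow_le_pow_left ((two_pow_le h1).trans h2) _)

theorem f2 (a b c : F2) (h : a + b = c) : a = b + c := by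
  revert a b c
  decide

end TOGB

variable [HA]

theorem t_OGB (hXI : XI) (hMQH : MQH) (hSMALL : SMALL) (hRAMW : RAMW) : OGB := by
  classical
  intro σ _ _ m O b N hO P F n Y₀ t B C hn h2 hP hY hb hB1 hB2 hC hCt
  have hX := fun c : ℕ => hXI σ m (P ∪ c.primeFactors) (mem_union_left _ h2)
    fun s p hp h => mem_union_left _ (hP s p hp h)
  choose Ξ hΞ hΞ' using hX
  refine ⟨(Icc 1 C).biUnion Ξ, ?_, fun w Θ hw htw hwt hΘ => ?_⟩
  · refine (card_biUnion_le_card_mul _ _ (2 ^ (n * (P.card + 3)) * C ^ n) fun c hc => ?_).trans ?_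
    · rw [mem_Icc] at hc
      refine (hΞ c).trans ?_
      rw [← hn]
      exact TOGB.card_le hc.1 hc.2
    · rw [Nat.card_Icc, Nat.add_sub_cancel, pow_succ]
      exact le_of_eq (by ring)
  have hC2 : 2 ≤ C := by
    rw [hC]
    exact Nat.le_mul_of_pos_right _ (by positivity)
  have hw2 : w ≠ 2 := by omega
  obtain ⟨x, hx0, hxB, hxv⟩ := hSMALL σ m O b N hO w B hw hΘ.sp (by rw [← hn]; omega)
  have hN : (N x).natAbs ≤ C * t := by
    have h1 := (hO.bd Y₀ hY hb).2 x B hxB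
    rw [← hn, ← Int.natCast_natAbs] at h1
    have h3 : (N x).natAbs ≤ ((2 * Y₀) ^ Fintype.card σ * B) ^ n := by exact_mod_cast h1
    rw [mul_pow, ← pow_mul] at h3
    refine h3.trans ((Nat.mul_le_mul_left _ hB1).trans (le_of_eq ?_))
    rw [hC]
    ring
  have hN0 : 0 < (N x).natAbs := Int.natAbs_pos.2 hx0
  have hsq : ¬ (w : ℤ) ^ 2 ∣ N x := fun h => by
    rw [← Nat.cast_pow, Int.natCast_dvd] at h
    have := Nat.le_of_dvd hN0 h
    nlinarith
  obtain ⟨ρ, hρ⟩ := IsAlgClosed.exists_pow_nat_eq (∏ v ∈ F, m.g v x : Om) (n := 2) two_pos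
  obtain ⟨hd, hch, hun, hram⟩ := hRAMW σ m O b N hO w x F ρ hw hw2 hΘ.sp hxv hsq hρ
  obtain ⟨c, hc⟩ := Int.natCast_dvd.1 hd
  have hc1 : 1 ≤ c := Nat.pos_of_ne_zero fun e => by
    rw [e, mul_zero] at hc
    omega
  have hcC : c ≤ C := by
    rw [hc] at hN
    by_contra h
    push Not at h
    nlinarith
  have hdv : ∀ p : ℕ, p.Prime → (p : ℤ) ∣ N x → p = w ∨ p ∣ c := fun p hp h => by
    rw [Int.natCast_dvd, hc] at h
    exact ((Nat.Prime.dvd_mul hp).1 h).imp_left (Nat.prime_dvd_prime_iff_eq hp hw).1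
  have hχ := hΘ.ch.add hch
  obtain ⟨ξ, hξ, e⟩ := hΞ' c _ hχ fun v hv g hg => by
    rw [mem_union, not_or] at hv
    have hv2 : v.p ≠ 2 := fun e => hv.1 (e ▸ h2)
    have hI : v.I ≤ m.H := fun g hg => ((hMQH σ m).2.1 g).2 fun s => qz_I hA (fun h => by
      rcases (Nat.prime_iff_prime_int.1 v.prime).dvd_or_dvd h with h | h
      · exact hv2 ((Nat.prime_dvd_prime_iff_eq v.prime Nat.prime_two).1 (by exact_mod_cast h))
      · exact hv.1 (hP s _ v.prime h)) hg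
    by_cases hvw : v.p = w
    · refine ch_unr_sub hv2 hI hχ (fun u => ?_) hg
      rw [hvw, hΘ.ram, hram]
      exact CharTwo.add_self_eq_zero _
    · rw [hΘ.unr v hv.1 hvw g hg, hun v hv2 (fun h => ?_) g hg (hI hg), add_zero]
      exact hv.2 (Nat.mem_primeFactors.2 ⟨v.prime, (hdv _ v.prime h).resolve_left hvw, by omega⟩)
  refine ⟨x, ρ, ξ, mem_biUnion.2 ⟨c, mem_Icc.2 ⟨hc1, hcC⟩, hξ⟩, hxB, fun p hp hCp =>
    ⟨fun h => (hdv p hp h).resolve_right fun h' => ?_, fun h => h ▸ hd⟩, hρ,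
    fun g hg => TOGB.f2 _ _ _ (e g hg)⟩
  have := Nat.le_of_dvd hc1 h'
  omega

end Pool.Agent.P.MP_8b7eba_nt.SM
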