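import Pool.Agent.P.MP_8b7eba_nt.SM.DefD

/-! Proof of OSCA. -/

namespace Pool.Agent.P.MP_8b7eba_nt.SM

open Finset

namespace TOSCA

theorem sr_add (x y : F2) : sr (x + y) = sr x * sr y := by
  unfold sr
  fin_cases x <;> fin_cases y
  · show (-1 : ℝ) ^ 0 = (-1) ^ 0 * (-1) ^ 0
    norm_num
  · show (-1 : ℝ) ^ 1 = (-1) ^ 0 * (-1) ^ 1
    norm_num
  · show (-1 : ℝ) ^ 1 = (-1) ^ 1 * (-1) ^ 0
    norm_num
  · show (-1 : ℝ) ^ 0 = (-1) ^ 1 * (-1) ^ 1
    norm_num

theorem abs_sr (x : F2) : |sr x| = 1 := by simp [sr]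

theorem sr_zero : sr 0 = 1 := by simp [sr]

theorem one_of_ne {x : F2} (h : x ≠ 0) : x = 1 := by revert x; decide

theorem add_self (x : F2) : x + x = 0 := by revert x; decide

open Classical in
theorem expand (hF : FOUR) {A Q : Type} [Fintype A] [DecidableEq A] (S : Finset Q) (Y : Finset ℕ)
    (c : Q → ℕ → ℝ) (χ : Q → ℕ → A → F2) (g : A → F2) {B : ℝ} (hB : 0 ≤ B)
    {N : ℕ} (hN : Fintype.card A = N)
    (h : ∀ e : A → F2, e ≠ 0 → ∑ q ∈ S, |∑ y ∈ Y, c q y * sr (∑ a, e a * χ q y a)| ≤ B) :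
    ∑ q ∈ S, |∑ y ∈ Y, c q y * ((if χ q y = g then 1 else 0) - (2 ^ N)⁻¹)| ≤ B := by
  subst hN
  set κ : ℝ := (2 ^ Fintype.card A)⁻¹ with hκ
  have κ0 : 0 ≤ κ := by positivity
  have e1 : ∀ q y, (if χ q y = g then 1 else 0 : ℝ) - κ =
      κ * ∑ e ∈ univ.erase (0 : A → F2), sr (∑ a, e a * g a) * sr (∑ a, e a * χ q y a) := by
    intro q y
    rw [hF A (χ q y) g, ← add_sum_erase _ _ (mem_univ (0 : A → F2))]
    simp only [Pi.zero_apply, zero_mul, sum_const_zero, sr_zero]
    ring
  have e2 : ∀ q, |∑ y ∈ Y, c q y * ((if χ q y = g then 1 else 0) - κ)| ≤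
      κ * ∑ e ∈ univ.erase (0 : A → F2), |∑ y ∈ Y, c q y * sr (∑ a, e a * χ q y a)| := by
    intro q
    have : ∑ y ∈ Y, c q y * ((if χ q y = g then 1 else 0) - κ) =
        κ * ∑ e ∈ univ.erase (0 : A → F2),
          sr (∑ a, e a * g a) * ∑ y ∈ Y, c q y * sr (∑ a, e a * χ q y a) := by
      simp only [e1, mul_sum]
      rw [sum_comm]
      exact sum_congr rfl fun _ _ => sum_congr rfl fun _ _ => by ring
    rw [this, abs_mul, abs_of_nonneg κ0]
    refine mul_le_mul_of_nonneg_left ((abs_sum_le_sum_abs _ _).trans (le_of_eq ?_)) κ0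
    exact sum_congr rfl fun e _ => by rw [abs_mul, abs_sr, one_mul]
  refine (sum_le_sum fun q _ => e2 q).trans ?_
  rw [← mul_sum, sum_comm]
  have e3 : ∑ e ∈ univ.erase (0 : A → F2), ∑ q ∈ S, |∑ y ∈ Y, c q y * sr (∑ a, e a * χ q y a)| ≤
      (2 ^ Fintype.card A : ℝ) * B := by
    refine (sum_le_card_nsmul _ _ B fun e he => h e (ne_of_mem_erase he)).trans ?_
    rw [nsmul_eq_mul]
    refine mul_le_mul_of_nonneg_right ?_ hB
    have : (univ.erase (0 : A → F2)).card ≤ 2 ^ Fintype.card A := by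
      refine (card_le_univ _).trans (le_of_eq ?_)
      rw [Fintype.card_fun, ZMod.card]
    exact_mod_cast this
  refine (mul_le_mul_of_nonneg_left e3 κ0).trans (le_of_eq ?_)
  rw [hκ, ← mul_assoc, inv_mul_cancel₀ (by positivity), one_mul]

variable {k M : ℕ}

/-- the symbols of the free entries with small index -/
def lo (sy : ℕ → ℕ → F2) (π : Gz k M) (q : Option (Fin k) → Fin (M + 1) → ℕ) (y : ℕ)
    (p : Fin k × Fin M) : F2 :=
  sy (q (some p.1) ((π (some p.1)).succAbove p.2)) y

/-- the values of the governing characters of the free top entries -/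
def hi (vl : (Fin k → Fin (M + 1) → ℕ) → ℕ → Mu k M → ℕ → F2) (π : Gz k M)
    (q : Option (Fin k) → Fin (M + 1) → ℕ) (y : ℕ) (p : Fin M × Mu k M) : F2 :=
  vl (low q) (q none ((π none).succAbove p.1)) p.2 y + vl (low q) (q none (π none)) p.2 y

/-- the prescribed values -/
noncomputable def gt (G : Gf k M → F2) (j : Fin (M + 1)) (μ : Mu k M) : F2 :=
  ex G fun o => o.elim j μ

theorem gt_zero (G : Gf k M → F2) (μ : Mu k M) : gt G 0 μ = 0 := by
  unfold gt ex
  exact dif_neg fun h => h none rfl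

theorem gt_mu (G : Gf k M → F2) (j : Fin (M + 1)) {μ : Mu k M} (h : ∃ i, μ i = 0) :
    gt G j μ = 0 := by
  unfold gt ex
  exact dif_neg fun h' => h.elim fun i hi => h' (some i) hi

theorem gt_succ (G : Gf k M → F2) (z : Gf k M) :
    gt G (z none).succ (fun i => (z (some i)).succ) = G z := by
  unfold gt ex
  rw [dif_pos (by rintro (_ | i) <;> exact Fin.succ_ne_zero _)]
  congr 1
  funext o
  rcases o with _ | i <;> exact Fin.pred_succ _

theorem all_lo {sy : ℕ → ℕ → F2} {π : Gz k M} {q : Option (Fin k) → Fin (M + 1) → ℕ} {y : ℕ}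
    {a : Option (Fin k) → F2} (h1 : ∀ o, sy (gp q π o) y = a o)
    (h2 : lo sy π q y = fun p => a (some p.1)) (i : Fin k) (j : Fin (M + 1)) :
    sy (q (some i) j) y = a (some i) := by
  by_cases h : j = π (some i)
  · rw [h]; exact h1 (some i)
  · obtain ⟨j', rfl⟩ := Fin.exists_succAbove_eq h
    exact congrFun h2 (i, j')

theorem ty_iff {sy : ℕ → ℕ → F2} {vl : (Fin k → Fin (M + 1) → ℕ) → ℕ → Mu k M → ℕ → F2}
    {a : Option (Fin k) → F2} {V : (Option (Fin k) → ℕ) → Prop} {c₀ : ℕ → Prop} (hk : 1 ≤ k)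
    {q : Option (Fin k) → Fin (M + 1) → ℕ} {y : ℕ}
    (h0 : ∀ j, vl (low q) (q none j) 0 y = sy (q none j) y) (hV : ∀ π, V (gp q π)) (π : Gz k M)
    (G : Gf k M → F2) : tyf (cpf V c₀ sy a) vl q y = some G ↔
      cpf V c₀ sy a (gp q π) y ∧ (lo sy π q y = fun p => a (some p.1)) ∧
        hi vl π q y = fun p => gt G ((π none).succAbove p.1) p.2 + gt G (π none) p.2 := by
  unfold tyf
  constructor
  · intro h
    split_ifs at h with hc
    obtain ⟨c1, c2⟩ := hc
    have hG := Option.some.inj h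
    have key : ∀ j μ, gt G j μ = vl (low q) (q none j) μ y + vl (low q) (q none 0) μ y := by
      intro j μ
      by_cases hμ : ∃ i, μ i = 0
      · rw [gt_mu G j hμ, c2 j μ hμ]
      by_cases hj : j = 0
      · rw [hj, gt_zero, add_self]
      have hμ' : ∀ i, μ i ≠ 0 := fun i hi => hμ ⟨i, hi⟩
      have t := gt_succ G fun o => o.elim (j.pred hj) fun i => (μ i).pred (hμ' i)
      rw [← hG] at t
      simp only [Option.elim, Fin.succ_pred] at t
      rw [← hG]
      exact t
    refine ⟨c1 π, funext fun p => ?_, funext fun p => ?_⟩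
    · have := (c1 (Function.update π (some p.1) ((π (some p.1)).succAbove p.2))).2.2 (some p.1)
      rwa [gp, Function.update_self] at this
    · rw [key, key, hi, add_add_add_comm, add_self, add_zero]
  · rintro ⟨c1, c2, c3⟩
    have top : ∀ j μ, vl (low q) (q none j) μ y + vl (low q) (q none (π none)) μ y =
        gt G j μ + gt G (π none) μ := by
      intro j μ
      by_cases h : j = π none
      · rw [h, add_self, add_self]
      · obtain ⟨j', rfl⟩ := Fin.exists_succAbove_eq h
        exact congrFun c3 (j', μ)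
    have key : ∀ j μ, vl (low q) (q none j) μ y + vl (low q) (q none 0) μ y = gt G j μ := by
      intro j μ
      have t : ∀ x x' w g g' : F2, x + w = g + g' → x' + w = 0 + g' → x + x' = g := by decide
      exact t _ _ _ _ _ (top j μ) (by rw [top, gt_zero])
    rw [if_pos]
    · congr 1
      funext z
      rw [key, gt_succ]
    refine ⟨fun π' => ⟨hV π', c1.2.1, ?_⟩, fun j μ hμ => by rw [key, gt_mu G j hμ]⟩
    rintro (_ | i)
    · have t := top (π' none) 0
      rw [gt_mu G _ ⟨⟨0, hk⟩, rfl⟩, gt_mu G _ ⟨⟨0, hk⟩, rfl⟩, h0, h0] at t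
      have u : ∀ x w : F2, x + w = 0 + 0 → x = w := by decide
      exact (u _ _ t).trans (c1.2.2 none)
    · exact all_lo c1.2.2 c2 i _

theorem abs_ite (P : Prop) [Decidable P] : |(if P then 1 else 0 : ℝ)| ≤ 1 := by
  split_ifs <;> simp

theorem abs_mul_le {x y : ℝ} (hx : |x| ≤ 1) (hy : |y| ≤ 1) : |x * y| ≤ 1 := by
  rw [abs_mul]; exact mul_le_one₀ hx (abs_nonneg _) hy

theorem abs_inv_le (n : ℕ) : |((2 : ℝ) ^ n)⁻¹| ≤ 1 := by
  rw [abs_of_nonneg (by positivity)]
  exact inv_le_one_of_one_le₀ (one_le_pow₀ (by norm_num))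

theorem card_lo (k M : ℕ) : Fintype.card (Fin k × Fin M) = k * M := by simp

theorem card_hi (k M : ℕ) : Fintype.card (Fin M × Mu k M) = M * (M + 1) ^ k := by simp

theorem low_part (hS : SLOT) {X : Option (Fin k) → Finset ℕ} {Y : Finset ℕ} {sy : ℕ → ℕ → F2}
    {θ : ℝ} (hθ : 0 ≤ θ) (hL : ∀ i (b : ℕ → ℝ), (∀ y, |b y| ≤ 1) →
      ∑ u ∈ X (some i), |∑ y ∈ Y, b y * sr (sy u y)| ≤ θ * (X (some i)).card * Y.card)
    (z : Option (Fin k) → ℕ) (π : Gz k M) {c : ℕ → ℝ} (hc : ∀ y, |c y| ≤ 1)
    (e : Fin k × Fin M → F2) (he : e ≠ 0) :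
    ∑ q ∈ (grids M X).filter (gp · π = z), |∑ y ∈ Y, c y * sr (∑ p, e p * lo sy π q y p)| ≤
      θ * Y.card * (∏ i, ((X i).card : ℝ)) ^ M := by
  obtain ⟨p, hp⟩ := Function.ne_iff.1 he
  refine hS _ M X z π (some p.1) ((π (some p.1)).succAbove p.2) _ _ (Fin.succAbove_ne _ _)
    (by positivity) fun q _ _ => ?_
  have t := hL p.1 (fun y => c y * sr (∑ p' ∈ univ.erase p, e p' * lo sy π q y p'))
    fun y => abs_mul_le (hc y) (abs_sr _).le
  refine le_trans (le_of_eq (sum_congr rfl fun x _ => ?_)) (t.trans (le_of_eq (by ring)))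
  congr 1
  refine sum_congr rfl fun y _ => ?_
  rw [mul_assoc, ← sr_add, ← sum_erase_add _ _ (mem_univ p), one_of_ne hp, one_mul]
  congr 3
  · refine sum_congr rfl fun p' hp' => ?_
    unfold lo
    by_cases h : p'.1 = p.1
    · have h2 : p'.2 ≠ p.2 := fun h2 => ne_of_mem_erase hp' (Prod.ext h h2)
      rw [h, Function.update_self, Function.update_of_ne (Fin.succAbove_right_injective.ne h2)]
    · rw [Function.update_of_ne (by simpa using h)]
  · unfold lo
    rw [Function.update_self, Function.update_self]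

theorem low_upd (q : Option (Fin k) → Fin (M + 1) → ℕ) (f : Fin (M + 1) → ℕ) :
    low (Function.update q none f) = low q :=
  funext fun _ => Function.update_of_ne (Option.some_ne_none _) _ _

open Classical in
theorem top_part (hS : SLOT) {X : Option (Fin k) → Finset ℕ} {Y : Finset ℕ} {sy : ℕ → ℕ → F2}
    {vl : (Fin k → Fin (M + 1) → ℕ) → ℕ → Mu k M → ℕ → F2} {a : Option (Fin k) → F2}
    {ok : (Option (Fin k) → Fin (M + 1) → ℕ) → Prop} {θ : ℝ} (hθ : 0 ≤ θ)
    (hG : OscG X Y sy vl a ok θ) (z : Option (Fin k) → ℕ) (π : Gz k M) {c : ℕ → ℝ}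
    (hc : ∀ y, |c y| ≤ 1) (hz : ∀ y, c y ≠ 0 → ∀ o, sy (z o) y = a o)
    (e : Fin M × Mu k M → F2) (he : e ≠ 0) :
    ∑ q ∈ (grids M X).filter (fun q => ok q ∧ gp q π = z),
      |∑ y ∈ Y, c y * (if lo sy π q y = fun p => a (some p.1) then 1 else 0) *
        sr (∑ p, e p * hi vl π q y p)| ≤ θ * Y.card * (∏ i, ((X i).card : ℝ)) ^ M := by
  obtain ⟨p, hp⟩ := Function.ne_iff.1 he
  set j := (π none).succAbove p.1 with hj
  have hne : j ≠ π none := Fin.succAbove_ne _ _
  simp only [and_comm (a := ok _)]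
  rw [← filter_filter, sum_filter]
  refine hS _ M X z π none j _ _ hne (by positivity) fun q hq hqz => ?_
  rw [← sum_filter]
  rcases ((X none).filter fun w =>
    ok (Function.update q none (Function.update (q none) j w))).eq_empty_or_nonempty with h | h
  · rw [h, sum_empty]; positivity
  obtain ⟨x₀, hx₀⟩ := h
  obtain ⟨hx1, hx2⟩ := mem_filter.1 hx₀
  have hq' : Function.update q none (Function.update (q none) j x₀) ∈ grids M X := by
    simp only [grids, Fintype.mem_piFinset] at hq ⊢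
    rintro (_ | i) j'
    · rw [Function.update_self]
      by_cases h : j' = j
      · rw [h, Function.update_self]; exact hx1
      · rw [Function.update_of_ne h]; exact hq _ _
    · rw [Function.update_of_ne (Option.some_ne_none _)]; exact hq _ _
  have t := hG _ hq' hx2 j (π none) hne (fun μ => e (p.1, μ)) (fun h => hp (congrFun h p.2))
    (fun y => c y * (if lo sy π q y = fun p => a (some p.1) then 1 else 0) *
      sr (∑ j' ∈ univ.erase p.1, ∑ μ, e (j', μ) * hi vl π q y (j', μ)))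
    (fun y => abs_mul_le (abs_mul_le (hc y) (abs_ite _)) (abs_sr _).le) (fun y hy i j' => by
      rw [Function.update_of_ne (Option.some_ne_none _)]
      have h1 := left_ne_zero_of_mul hy
      refine all_lo (π := π) ?_ ?_ i j'
      · rw [hqz]; exact hz y (left_ne_zero_of_mul h1)
      · by_contra h2
        exact right_ne_zero_of_mul h1 (if_neg h2))
  simp only [Function.update_self, Function.update_idem, low_upd,
    Function.update_of_ne hne.symm] at t
  refine le_trans (le_of_eq (sum_congr rfl fun x _ => ?_)) (t.trans (le_of_eq (by ring)))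
  congr 1
  refine sum_congr rfl fun y _ => ?_
  have e1 : lo sy π (Function.update q none (Function.update (q none) j x)) y = lo sy π q y :=
    funext fun p' => by unfold lo; rw [Function.update_of_ne (Option.some_ne_none _)]
  rw [e1, mul_assoc _ (sr _), ← sr_add, Fintype.sum_prod_type, ← sum_erase_add _ _ (mem_univ p.1)]
  congr 3
  · refine sum_congr rfl fun j' hj' => sum_congr rfl fun μ _ => ?_
    unfold hi
    rw [low_upd, Function.update_self, Function.update_of_ne hne.symm,
      Function.update_of_ne (Fin.succAbove_right_injective.ne (ne_of_mem_erase hj'))]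
  · refine sum_congr rfl fun μ _ => ?_
    unfold hi
    rw [low_upd, Function.update_self, Function.update_of_ne hne.symm, Function.update_self]

end TOSCA

open TOSCA Classical in
theorem t_OSCA (hFOUR : FOUR) (hSLOT : SLOT) : OSCA := by
  intro k M X Y sy vl a V c₀ ok θ hk hθ h0 hV hL hG z π G b hb
  set c : ℕ → ℝ := fun y => b y * if cpf V c₀ sy a z y then 1 else 0 with hc
  have c1 : ∀ y, |c y| ≤ 1 := fun y => abs_mul_le (hb y) (abs_ite _)
  have c2 : ∀ y, c y ≠ 0 → ∀ o, sy (z o) y = a o := fun y hy => by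
    by_contra h
    exact right_ne_zero_of_mul hy (if_neg fun h' => h h'.2.2)
  have B0 : 0 ≤ θ * Y.card * (∏ i, ((X i).card : ℝ)) ^ M :=
    mul_nonneg (mul_nonneg hθ (Nat.cast_nonneg _))
      (pow_nonneg (prod_nonneg fun _ _ => Nat.cast_nonneg _) _)
  have T := expand hFOUR ((grids M X).filter fun q => ok q ∧ gp q π = z) Y
    (fun q y => c y * if lo sy π q y = fun p => a (some p.1) then 1 else 0) (hi vl π)
    (fun p => gt G ((π none).succAbove p.1) p.2 + gt G (π none) p.2) B0
    (card_hi k M) (top_part hSLOT hθ hG z π c1 c2)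
  have L := expand hFOUR ((grids M X).filter fun q => ok q ∧ gp q π = z) Y
    (fun _ y => c y) (lo sy π) (fun p => a (some p.1)) B0 (card_lo k M) fun e he =>
      (sum_le_sum_of_subset_of_nonneg (monotone_filter_right _ fun q _ h => h.2)
        fun _ _ _ => abs_nonneg _).trans (low_part hSLOT hθ hL z π c1 e he)
  refine le_trans (sum_le_sum fun q hq => ?_)
    ((sum_add_distrib.le.trans (add_le_add T L)).trans (le_of_eq (by ring)))
  obtain ⟨hq1, hq2, hq3⟩ := mem_filter.1 hq
  refine le_trans ?_ (add_le_add le_rfl (mul_le_of_le_one_left (abs_nonneg _)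
    (abs_inv_le (M * (M + 1) ^ k))))
  rw [← abs_mul]
  refine le_trans (le_of_eq ?_) (abs_add_le _ _)
  congr 1
  rw [mul_sum, ← sum_add_distrib]
  refine sum_congr rfl fun y hy => ?_
  have hX : ∀ j, q none j ∈ X none := by
    simp only [grids, Fintype.mem_piFinset] at hq1
    exact hq1 none
  have t := ty_iff (c₀ := c₀) (a := a) hk (fun j => h0 (low q) _ (hX j) y hy) (hV q hq2) π G
  rw [hq3] at t
  simp only [t, hc, ite_and, pow_add, mul_inv]
  split_ifs <;> ring

end Pool.Agent.P.MP_8b7eba_nt.SM
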