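import Pool.Agent.P.MP_8b7eba_nt.SM.IfG
import Pool.Agent.P.MP_8b7eba_nt.SM.BasZ
import Pool.Agent.P.MP_8b7eba_nt.R2.SelA
import Pool.Agent.P.MP_8b7eba_nt.R2.PatB

/-! Proof of RA1. -/

namespace Pool.Agent.P.MP_8b7eba_nt.SM

open Finset R2 Filter Topology
open scoped Matrix

namespace TRA1

/-- integral vectors as rational vectors -/
noncomputable def cv (v : VZ) : V2 := fun i => (v i : ℚ_[2])

theorem cv_sub (u v : VZ) : cv (u - v) = cv u - cv v := by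
  funext i
  simp [cv]

theorem dv_norm {j : ℕ} {v : VZ} : Dv j v ↔ ‖cv v‖ ≤ 2⁻¹ ^ j := by
  rw [pi_norm_le_iff_of_nonneg (by positivity)]
  refine forall_congr' fun i => ?_
  have h := PadicInt.norm_le_pow_iff_mem_span_pow (v i) j
  rw [Ideal.mem_span_singleton, zpow_neg, zpow_natCast, ← inv_pow] at h
  exact h.symm

theorem cv_rt {T : Tate (pl 2)} {Λ : Lat} (hΛ : Λ.Of T) {n : ℕ} (h : Squarefree n) (h' : Odd n)
    (g : GQ) (v : VZ) :
    cv (Λ.rt (chi n.primeFactors) g *ᵥ v) = T.rq (rt (ps n)) g (cv v) := by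
  rw [Tate.rq_apply, Tate.rd, sd_eq_qz (rt_sq _), chi_eq_qz h h']
  funext i
  simp [cv, Lat.rt, sg, Matrix.mulVec, dotProduct, hΛ g]

theorem lift {e : ℕ} {B : ℝ} (hB : 2⁻¹ ^ e * B ≤ 1) {v : V2} (hv : ‖v‖ ≤ B) :
    ∃ z : VZ, cv z = (2 : ℚ_[2]) ^ e • v := by
  have h : ∀ i, ‖((2 : ℚ_[2]) ^ e • v) i‖ ≤ 1 := fun i => by
    refine (norm_le_pi_norm _ i).trans ?_
    rw [norm_smul, norm_pow, SelA.two]
    exact (mul_le_mul_of_nonneg_left hv (by positivity)).trans hB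
  exact ⟨fun i => ⟨_, h i⟩, rfl⟩

theorem dv_of {j e : ℕ} {z : VZ} {v : V2} (h : cv z = (2 : ℚ_[2]) ^ e • v) (hv : ‖v‖ ≤ 2⁻¹ ^ j) :
    Dv j z := by
  rw [dv_norm, h, norm_smul, norm_pow, SelA.two]
  exact (mul_le_of_le_one_left (norm_nonneg _) (pow_le_one₀ (by norm_num) (by norm_num))).trans hv

end TRA1

open TRA1

variable [HA]

theorem t_RA1 (hFINC : FINC) : RA1 := by
  intro T Λ n x hΛ hn h30 hx
  have ho : Odd n := Nat.coprime_two_right.1 (h30.coprime_dvd_right (by norm_num))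
  have hr := T.rep (LA.fix (rt_sq (ps n)))
  have hS : ∀ p ∈ n.primeFactors, Gp p := fun p hp =>
    ⟨Nat.prime_of_mem_primeFactors hp, fun h => (Nat.prime_of_mem_primeFactors hp).one_lt.ne'
      (Nat.eq_one_of_dvd_coprimes h30 (Nat.dvd_of_mem_primeFactors hp) h)⟩
  obtain ⟨c, hc⟩ := hx.pz.1
  obtain ⟨B, hB⟩ := hc.bd
  have top : ∀ g : GS, g ∈ St fun _ => ⊤ := fun g => Eventually.of_forall fun _ => trivial
  have hB0 : 0 < B + 1 := by linarith [hB 0 1, norm_nonneg (c 0 1)]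
  obtain ⟨e, he⟩ := exists_pow_lt_of_lt_one (inv_pos.2 hB0) (show (2⁻¹ : ℝ) < 1 by norm_num)
  have he' : (2⁻¹ : ℝ) ^ e * (B + 1) ≤ 1 := by
    rw [← le_div_iff₀ hB0, one_div]; exact he.le
  choose c' hc' using fun k g => lift he' ((hB k g).trans (le_add_of_nonneg_right zero_le_one))
  choose X hX using fun g : GQ => lift he' (v := x (cs g))
    ((le_of_tendsto' (hc.lim _ (top (cs g))).norm fun k => hB k _).trans
      (le_add_of_nonneg_right zero_le_one))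
  have pos : ∀ j : ℕ, (0 : ℝ) < 2⁻¹ ^ j := fun j => by positivity
  have h1 : ∀ j, ∀ᶠ k in UF, Λ.Zn (chi n.primeFactors) ⊤ j (c' k) := fun j => by
    filter_upwards [hx.pz.ac hr hc (pos j)] with k hk
    obtain ⟨N, hN, hN'⟩ := hc.uc k _ (pos j)
    refine BasZ.zn_iff.2 ⟨⟨N, hN, fun g hg m hm hmN => dv_of (e := e) ?_ (hN' g hg m hm hmN)⟩,
      fun g hg m hm => dv_of (e := e) ?_ (hk g hg m hm)⟩
    · rw [cv_sub, hc', hc', smul_sub]
    · rw [cv_sub, cv_sub, cv_rt hΛ hn ho, hc', hc', hc', map_smul, smul_sub, smul_sub]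
  have h2 : ∀ j, ∀ᶠ k in UF, ∀ w : Pl, ¬ w.p ∣ 30 → w.p ∉ n.primeFactors → ∀ g ∈ w.I,
      Dv j (c' k g) := fun j => by
    refine (ev_choice (p := fun k (a : Pl × GQ) => ¬ a.1.p ∣ 30 → a.1.p ∉ n.primeFactors →
      a.2 ∈ a.1.I → Dv j (c' k a.2)) fun f => ?_).mono fun k hk w a b g hg => hk (w, g) a b hg
    by_cases hf : ∀ᶠ k in UF, ¬ (f k).1.p ∣ 30 ∧ (f k).1.p ∉ n.primeFactors ∧ (f k).2 ∈ (f k).1.I
    · have h0 := hx.unr (fun k => (f k).1) (fun k => (f k).2) (hf.mono fun k hk => ⟨hk.2.2, fun h => by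
        rw [Int.natCast_dvd, Int.natAbs_mul, BasG.abs_ps] at h
        rcases (Nat.Prime.dvd_mul (f k).1.prime).1 h with h | h
        · exact hk.1 h
        · exact hk.2.1 (Nat.mem_primeFactors.2 ⟨(f k).1.prime, h, hn.ne_zero⟩)⟩)
      have h3 := hc.lim _ (top fun k => (f k).2)
      rw [h0] at h3
      exact (PatB.small h3 (pos j)).mono fun k hk _ _ _ => dv_of (hc' k _) hk
    · exact (ev_not.1 hf).mono fun k hk a b d => absurd ⟨a, b, d⟩ hk
  have key : ∀ j, ∀ᶠ k in UF, ∀ g, Dv j (X g - c' k g) := fun j => by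
    obtain ⟨f, -, hf⟩ := ev_const (hFINC Λ n.primeFactors j hS)
      (f := fun k g => rn j (c' k g)) (((h1 j).and (h2 j)).mono fun k hk => ⟨_, hk.1, hk.2, rfl⟩)
    filter_upwards [hf] with k hk g
    have h3 : Tendsto (fun k => x (cs g) - c k g) UF (𝓝 0) := by
      simpa [cs] using (hc.lim _ (top (cs g))).const_sub (x (cs g))
    obtain ⟨k', a, b⟩ := (hf.and (PatB.small h3 (pos j))).exists
    have h4 : Dv j (X g - c' k' g) := dv_of (e := e) (by rw [cv_sub, hX, hc', smul_sub]) b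
    exact rn_eq.1 ((rn_eq.2 h4).trans ((congrFun a g).trans (congrFun hk g).symm))
  refine ⟨e, X, fun j => ?_, fun g => ?_⟩
  · obtain ⟨k, a, b⟩ := ((h1 j).and (key j)).exists
    exact a.congr fun g _ => b g
  · have h3 : Tendsto (fun k => cv (X (g k)) - (2 : ℚ_[2]) ^ e • c k (g k)) UF (𝓝 0) := by
      refine Metric.tendsto_nhds.2 fun ε hε => ?_
      obtain ⟨j, hj⟩ := exists_pow_lt_of_lt_one hε (show (2⁻¹ : ℝ) < 1 by norm_num)
      filter_upwards [key j] with k hk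
      rw [dist_zero_right, ← hc', ← cv_sub]
      exact (dv_norm.1 (hk _)).trans_lt hj
    have h4 := h3.add ((hc.lim g (top g)).const_smul ((2 : ℚ_[2]) ^ e))
    simp only [sub_add_cancel, zero_add] at h4
    exact h4

end Pool.Agent.P.MP_8b7eba_nt.SM
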