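import Pool.Agent.P.MP_8b7eba_nt.SM.IfG
import Pool.Agent.P.MP_8b7eba_nt.SM.BasL
import Pool.Agent.P.MP_8b7eba_nt.R2.SelA
import Pool.Agent.P.MP_8b7eba_nt.R2.PatB

/-! Proof of RA2. -/

namespace Pool.Agent.P.MP_8b7eba_nt.SM

open Finset R2
open scoped Matrix

namespace TRA2

theorem int_mul (v : V2) : ∃ (k : ℕ) (u : VZ), ∀ i, (u i : ℚ_[2]) = 2 ^ k * v i := by
  obtain ⟨k, hk⟩ := pow_unbounded_of_one_lt ‖v‖ (show (1 : ℝ) < 2 by norm_num)
  have h : ∀ i, ‖(2 : ℚ_[2]) ^ k * v i‖ ≤ 1 := fun i => by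
    have h2 : ‖(2 : ℚ_[2])‖ = 2⁻¹ := by simpa using Padic.norm_p (p := 2)
    rw [norm_mul, norm_pow, h2, inv_pow, inv_mul_le_iff₀ (by positivity), mul_one]
    exact (norm_le_pi_norm v i).trans hk.le
  exact ⟨k, fun i => ⟨_, h i⟩, fun i => rfl⟩

theorem coe_bd {T : Tate (pl 2)} {Λ : Lat} (hΛ : Λ.Of T) {m : ℤ} {u : VZ} {v : V2} {c : ℚ_[2]}
    (h : ∀ i, (u i : ℚ_[2]) = c * v i) (g : GQ) (j : Fin 2) :
    (Λ.bd (qz m) u g j : ℚ_[2]) = c * (T.rq (rt m) g v - v) j := by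
  simp only [Lat.bd, Lat.rt, Tate.rq_apply, Tate.rd, sd_eq_qz (rt_sq m), sg, Pi.sub_apply,
    Matrix.mulVec, dotProduct, Fin.sum_univ_two, Matrix.smul_apply, smul_eq_mul]
  push_cast
  rw [h, h, h, hΛ, hΛ]
  ring

theorem lc {T : Tate (pl 2)} {Λ : Lat} (hΛ : Λ.Of T) {m : ℤ} {x : GS → V2} {e : ℕ} {X : GQ → VZ}
    {H : Subgroup GQ} {o : Prop} (hX : ∀ j, Λ.Zn (qz m) ⊤ j X)
    (he : ∀ g i, (X g i : ℚ_[2]) = 2 ^ e * x (cs g) i) (v : V2)
    (h1 : ∀ g ∈ S1 H, x g 1 = (rS (T.rq (rt m)) g v - v) 1)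
    (h0 : ¬ o → ∀ g ∈ S1 H, x g 0 = (rS (T.rq (rt m)) g v - v) 0) (j : ℕ) :
    Λ.Lc o (qz m) H j X := by
  obtain ⟨k, u, hu⟩ := int_mul fun i => 2 ^ e * v i
  have hu' : ∀ i, (u i : ℚ_[2]) = 2 ^ k * 2 ^ e * v i := fun i => by rw [hu, mul_assoc]
  have key : ∀ g i, x (cs g) i = (rS (T.rq (rt m)) (cs g) v - v) i →
      2 ^ k * X g i = Λ.bd (qz m) u g i := fun g i h => by
    apply Subtype.ext
    rw [coe_bd hΛ hu', ← rS_cs, ← h, mul_assoc, ← he]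
    push_cast
    rfl
  exact ⟨X, ⟨fun n => (hX n).mono le_top le_rfl, k, u, fun g hg =>
    ⟨key g 1 (h1 _ (cs_mem.2 hg)), fun ho => key g 0 (h0 ho _ (cs_mem.2 hg))⟩⟩,
    fun g _ => by rw [sub_self]; exact dv_zero⟩

end TRA2

variable [HA]

theorem t_RA2 : RA2 := by
  intro T Λ n x e X hΛ hn h30 hx hX he j
  have ho : Odd n := (Nat.coprime_two_right.1 (h30.coprime_dvd_right (by norm_num)))
  have hc := chi_eq_qz hn ho
  refine ⟨⟨hX j, fun w a b g hg => ?_, X, Lat.ex_tau (isCh_chi _) fun n =>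
    (hX n).mono le_top le_rfl, fun g _ => by rw [sub_self]; exact dv_zero⟩, fun p hp => ?_⟩
  · have h : ¬ (w.p : ℤ) ∣ 30 * ps n := fun d => by
      rw [Int.natCast_dvd, Int.natAbs_mul, BasG.abs_ps] at d
      rcases (Nat.Prime.dvd_mul w.prime).1 d with d | d
      · exact a d
      · exact b (Nat.mem_primeFactors.2 ⟨w.prime, d, hn.ne_zero⟩)
    have h0 := hx.unr (fun _ => w) (cs g) (Filter.Eventually.of_forall fun _ => ⟨hg, h⟩)
    have : X g = 0 := funext fun i => Subtype.ext (by rw [he, h0]; simp)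
    rw [this]
    exact dv_zero
  · rw [hc] at hX ⊢
    by_cases h2 : p = 2
    · obtain ⟨v, hv⟩ := hx.ord
      subst h2
      exact TRA2.lc hΛ hX he v (fun g hg => sub_eq_zero.1 (hv g hg)) (fun h => absurd rfl h) j
    · have hp' : p.Prime ∧ (p : ℤ) ∣ 15 * ps n := by
        rcases mem_union.1 hp with h | h
        · refine ⟨Nat.prime_of_mem_primeFactors h, Dvd.dvd.mul_left ?_ _⟩
          rw [Int.natCast_dvd, BasG.abs_ps]
          exact Nat.dvd_of_mem_primeFactors h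
        · refine ⟨(mem_T30.1 h).1, Dvd.dvd.mul_right ?_ _⟩
          simp only [T30, mem_insert, mem_singleton] at h
          rcases h with h | h | h
          · exact absurd h h2
          · rw [h]; norm_num
          · rw [h]; norm_num
      obtain ⟨v, hv⟩ := hx.bad (pl p) (by rw [pl_p hp'.1]; exact hp'.2)
      exact TRA2.lc hΛ hX he v (fun g hg => by rw [hv g hg]) (fun _ g hg => by rw [hv g hg]) j

end Pool.Agent.P.MP_8b7eba_nt.SM
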