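import Pool.Agent.P.MP_8b7eba_nt.SM.IfG
import Pool.Agent.P.MP_8b7eba_nt.SM.BasG

/-! Proof of RAMW. -/

namespace Pool.Agent.P.MP_8b7eba_nt.SM

open Finset R2
open scoped Matrix NNReal

theorem TRAMW.v_one {w : Pl} {x : Om} (h : w.v (x ^ 2) = 1) : w.v x = 1 := by
  rw [map_pow] at h
  exact (pow_eq_one_iff_of_nonneg zero_le two_ne_zero).1 h

variable [HA]

/-- an element of inertia fixes a unit whose square it fixes -/
theorem TRAMW.unit {w : Pl} (h2 : w.p ≠ 2) {H : Subgroup GQ} {g : GQ} (hg : g ∈ w.I)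
    (hH : g ∈ H) {x : Om} (h : w.v (x ^ 2) = 1) (hf : Fix H (x ^ 2)) : g x = x := by
  refine (GrpA.tame hA.tame hA.res h2).2.1 g hg 1 x (TRAMW.v_one h) ?_
  rw [pow_one]
  exact hf.mono ((Subgroup.zpowers_le).2 hH)

theorem t_RAMW (hMQH : MQH) : RAMW := by
  intro σ _ _ m O b N hO w x F ρ hw h2 hD hx hN hρ
  obtain ⟨hON, hmem, hvec⟩ := hMQH σ m
  have e : (pl w).p = w := pl_p hw
  have hle : ∀ (v : Pl) (g : GQ), v.v (g x) ≤ 1 := fun v g =>
    t_PL.2.2.2.1 v _ (hO.int ⟨g x, (hO.int x).2.2 g⟩).1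
  have hfix : ∀ g : GQ, Fix m.H (g x) := fun g => (hO.int ⟨g x, (hO.int x).2.2 g⟩).2.1
  have hfx : Fix m.H (x : Om) := (hO.int x).2.1
  have hconj : ∀ h : GQ, h x = m.g (fun s => qz (m.n s) h) x := fun h => by
    have h1 := hfx _ ((hvec h _).2 rfl)
    rw [AlgEquiv.mul_apply] at h1
    have h3 := congrArg (m.g fun s => qz (m.n s) h) h1
    rwa [BasicP.apply_inv] at h3
  have h0 : m.g 0 x = x := hfx _ ((hmem _).2 fun s => m.hg 0 s)
  have hU : (pl w).Unif (pl w).D (pl w).p := (hA.res _ _ (pl w).loc_D).2.2.2.1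
  have hvp : (pl w).v (w : Om) = (w : ℝ≥0)⁻¹ := by
    have := (pl w).vp
    rwa [e] at this
  have hsm : ∀ g : GQ, (pl w).v (g x) < 1 → (pl w).v (g x) ≤ (w : ℝ≥0)⁻¹ := fun g h => by
    have := hU.le ((hfix g).mono hD) h
    rwa [e, hvp] at this
  have hsplit : (pl w).v (N x : Om) =
      (pl w).v x * ∏ v ∈ univ.erase 0, (pl w).v (m.g v x) := by
    rw [hO.nm x, map_prod, ← mul_prod_erase univ _ (mem_univ (0 : σ → F2)), h0]
  have hdvd : (w : ℤ) ∣ N x := by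
    by_contra hn
    have h1 : (pl w).v (N x : Om) = 1 := Pl.v_int_eq_one.2 (by rwa [e])
    rw [hsplit] at h1
    exact (mul_lt_one_of_nonneg_of_lt_one_left zero_le hx
      (prod_le_one' fun v _ => hle _ _)).ne h1
  have hx' : (pl w).v x ≤ (w : ℝ≥0)⁻¹ := by
    have := hsm 1 hx
    exact this
  have hone : ∀ v : σ → F2, v ≠ 0 → (pl w).v (m.g v x) = 1 := by
    intro v hv
    refine le_antisymm (hle _ _) (not_lt.1 fun h => hN ?_)
    have h1 : (pl w).v (N x : Om) ≤ (((pl w).p : ℝ≥0) ^ 2)⁻¹ := by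
      rw [hsplit, ← mul_prod_erase _ _ (mem_erase.2 ⟨hv, mem_univ v⟩), e, pow_two, mul_inv]
      refine mul_le_mul' hx' ?_
      exact (mul_le_of_le_one_right zero_le (prod_le_one' fun u _ => hle _ _)).trans (hsm _ h)
    have := Pl.v_int_le_iff.1 h1
    rwa [e] at this
  have hvx : (pl w).v x = (w : ℝ≥0)⁻¹ := by
    obtain ⟨c, hc⟩ := hdvd
    have h1 : ¬ ((pl w).p : ℤ) ∣ c := by
      rw [e]
      rintro ⟨c', rfl⟩
      exact hN ⟨c', by rw [hc]; ring⟩
    have h3 : (pl w).v (N x : Om) = (w : ℝ≥0)⁻¹ := by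
      rw [hc, Int.cast_mul, Int.cast_natCast, map_mul, hvp, Pl.v_int_eq_one.2 h1, mul_one]
    rw [← h3, hsplit, prod_eq_one fun v hv => hone v (mem_erase.1 hv).1, mul_one]
  have hout : ∀ h : GQ, h ∉ m.H → (pl w).v (h x) = 1 := fun h hh => by
    rw [hconj h]
    exact hone _ fun h1 => hh ((hmem h).2 fun s => congrFun h1 s)
  have hN0 : (N x : Om) ≠ 0 := fun h => hN (by
    rw [Int.cast_eq_zero.1 h]
    exact dvd_zero _)
  have hρ0 : ρ ≠ 0 := by
    rintro rfl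
    rw [hO.nm x, prod_ne_zero_iff] at hN0
    exact (prod_ne_zero_iff.2 fun v _ => hN0 v (mem_univ v)) (by rw [← hρ]; simp)
  have hρf : Fix m.H (ρ ^ 2) := by
    rw [hρ]
    exact Fix.prod fun v _ => hfix _
  refine ⟨hdvd, (hA.sym _ _ ρ (closed_of_open hON.2) hρ0 hρf (isKer_qc _ _)).1, ?_, fun g => ?_⟩
  · intro v hv2 hv g hg hH
    have h1 : v.v (N x : Om) = 1 := Pl.v_int_eq_one.2 hv
    rw [hO.nm x, map_prod, prod_eq_one_iff_of_le_one' fun u _ => hle v _] at h1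
    have h3 : v.v (ρ ^ 2) = 1 := by
      rw [hρ, map_prod]
      exact prod_eq_one fun u _ => h1 u (mem_univ u)
    have h4 := TRAMW.unit hv2 hg hH h3 hρf
    simp [qc, h4]
  · have ht : tp w ∈ (pl w).I := tp_I hw h2
    have htH : tp w ∈ m.H := hD (tp_D hw h2)
    have hp2 : (pl w).p ≠ 2 := by rwa [e]
    have hsq : (g⁻¹ ρ) ^ 2 = ∏ v ∈ F, (g⁻¹ * m.g v) x := by
      rw [← map_pow, hρ, map_prod]
      rfl
    have hf' : Fix m.H ((g⁻¹ ρ) ^ 2) := by
      rw [hsq]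
      exact Fix.prod fun v _ => hfix _
    have hval : (pl w).v ((g⁻¹ ρ) ^ 2) =
        if (fun s => qz (m.n s) g) ∈ F then (w : ℝ≥0)⁻¹ else 1 := by
      rw [hsq, map_prod, ← prod_ite_eq F (fun s => qz (m.n s) g) fun _ => (w : ℝ≥0)⁻¹]
      refine prod_congr rfl fun v _ => ?_
      have h1 : g⁻¹ * m.g v ∈ m.H ↔ (fun s => qz (m.n s) g) = v := by
        rw [← hvec g v, ← inv_mem_iff, mul_inv_rev, inv_inv]
      split_ifs with h
      · rw [hfx _ (h1.2 h), hvx]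
      · exact hout _ fun h3 => h (h1.1 h3)
    have hiff : (g * tp w * g⁻¹) ρ = ρ ↔ tp w (g⁻¹ ρ) = g⁻¹ ρ := by
      rw [AlgEquiv.mul_apply, AlgEquiv.mul_apply]
      constructor
      · intro h
        have h3 := congrArg (g⁻¹ : GQ) h
        rwa [BasicP.inv_apply] at h3
      · intro h
        rw [h, BasicP.apply_inv]
    unfold qc
    by_cases hF : (fun s => qz (m.n s) g) ∈ F
    · rw [if_pos hF] at hval
      rw [if_pos hF, if_neg]
      rw [hiff]
      intro h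
      obtain ⟨β, hβ⟩ := IsAlgClosed.exists_pow_nat_eq (w : Om) two_pos
      have hw0 : (w : Om) ≠ 0 := Nat.cast_ne_zero.2 hw.ne_zero
      have hβ0 : β ≠ 0 := by
        rintro rfl
        exact hw0 (by rw [← hβ]; simp)
      have hw0' : (w : ℝ≥0)⁻¹ ≠ 0 := inv_ne_zero (Nat.cast_ne_zero.2 hw.ne_zero)
      have h3 : tp w (g⁻¹ ρ / β) = g⁻¹ ρ / β := by
        refine TRAMW.unit hp2 ht htH ?_ ?_
        · rw [div_pow, hβ, map_div₀, hval, hvp, div_self hw0']
        · rw [div_pow, hβ]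
          exact hf'.div (fix_nat w)
      rw [map_div₀, h, tp_mov hw h2 β hβ, div_neg, neg_eq_self, div_eq_zero_iff] at h3
      rcases h3 with h3 | h3
      · exact hρ0 ((map_eq_zero _).1 h3)
      · exact hβ0 h3
    · rw [if_neg hF] at hval
      rw [if_neg hF, if_pos (hiff.2 (TRAMW.unit hp2 ht htH hval hf'))]

end Pool.Agent.P.MP_8b7eba_nt.SM
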