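import Pool.Agent.P.MP_8b7eba_nt.SM.IfC

/-! Proof of RANK. -/

namespace Pool.Agent.P.MP_8b7eba_nt.SM

open Finset

namespace TRANK

theorem card_FF : Fintype.card FF = 16 := by simp

theorem card_le (D : Submodule F2 FF) : Nat.card D ≤ 16 := by
  rw [← card_FF, ← Nat.card_eq_fintype_card]
  exact Nat.card_le_card_of_injective _ Subtype.val_injective

theorem two (v : FF) : v + v = 0 := by
  rw [← two_smul F2 v, show (2 : F2) = 0 from rfl, zero_smul]

theorem coef {I : Type} [Fintype I] [DecidableEq I] (R : I → FF) (ρ : FF → I)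
    (hρ : ∀ k, R (ρ (R k)) = R k) (h0 : R (ρ 0) = 0) (i : I) (u : FF)
    (hu : u ∈ Submodule.span F2 (Set.range R)) :
    ∃ c : I → F2, (∀ j, j ∉ Set.range ρ → c j = 0) ∧ ∑ j, c j • (R j + R i) = u := by
  induction hu using Submodule.span_induction with
  | mem u hu =>
    obtain ⟨k, rfl⟩ := hu
    refine ⟨Pi.single (ρ (R k)) 1 + Pi.single (ρ 0) 1, fun j hj => ?_, ?_⟩
    · rw [Pi.add_apply, Pi.single_eq_of_ne fun e => hj ⟨_, e.symm⟩,
        Pi.single_eq_of_ne fun e => hj ⟨_, e.symm⟩, add_zero]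
    · simp only [Pi.add_apply, add_smul, sum_add_distrib, Pi.single_apply, ite_smul, one_smul,
        zero_smul, sum_ite_eq', mem_univ, if_true, hρ, h0, zero_add]
      rw [add_assoc, two, add_zero]
  | zero => exact ⟨0, fun _ _ => rfl, by simp⟩
  | add u v _ _ hu hv =>
    obtain ⟨c, h1, rfl⟩ := hu
    obtain ⟨c', h2, rfl⟩ := hv
    exact ⟨c + c', fun j hj => by rw [Pi.add_apply, h1 j hj, h2 j hj, add_zero],
      by simp only [Pi.add_apply, add_smul, sum_add_distrib]⟩
  | smul a u _ hu =>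
    obtain ⟨c, h1, rfl⟩ := hu
    exact ⟨a • c, fun j hj => by rw [Pi.smul_apply, h1 j hj, smul_zero],
      by simp only [Pi.smul_apply, smul_eq_mul, mul_smul, smul_sum]⟩

theorem dual {I σ : Type} [Fintype I] [Fintype σ] [DecidableEq σ] (κ : I → σ → F2) (J₀ : Finset I)
    (h : ∀ e : σ → F2, e ≠ 0 → ∃ i ∈ J₀, ∑ q, κ i q * e q = 1) :
    ∃ u : σ → I → F2, (∀ q, ∀ i ∉ J₀, u q i = 0) ∧
      ∀ q q', ∑ i, κ i q * u q' i = if q' = q then 1 else 0 := by
  classical
  set A : Matrix J₀ σ F2 := Matrix.of fun i q => κ i q with hA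
  obtain ⟨g, hg⟩ := LinearMap.exists_leftInverse_of_injective (Matrix.toLin' A)
    (LinearMap.ker_eq_bot'.2 fun e he => by_contra fun hn => by
      obtain ⟨i, hi, h1⟩ := h e hn
      exact one_ne_zero (h1.symm.trans (congrFun he ⟨i, hi⟩)))
  have e : LinearMap.toMatrix' g * A = 1 := by
    rw [← LinearMap.toMatrix'_toLin' A, ← LinearMap.toMatrix'_comp, hg, LinearMap.toMatrix'_id]
  refine ⟨fun q i => if hi : i ∈ J₀ then LinearMap.toMatrix' g q ⟨i, hi⟩ else 0,
    fun q i hi => dif_neg hi, fun q q' => ?_⟩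
  have e2 := congrFun (congrFun e q') q
  rw [Matrix.mul_apply, Matrix.one_apply] at e2
  beta_reduce
  rw [← e2, ← sum_subset (subset_univ J₀) fun i _ hi => by rw [dif_neg hi, mul_zero],
    ← sum_coe_sort J₀]
  exact sum_congr rfl fun i _ => by rw [dif_pos i.2, mul_comm]; rfl

end TRANK

open TRANK

theorem t_RANK : RANK := by
  intro I _ _ R b i₀ h0
  classical
  set D := Submodule.span F2 (Set.range R) with hD
  haveI : Nonempty I := ⟨i₀⟩
  set ρ : FF → I := Function.invFun R with hρ
  have hρ1 : ∀ k, R (ρ (R k)) = R k := fun k => Function.invFun_eq ⟨k, rfl⟩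
  have hρ0 : R (ρ 0) = 0 := Function.invFun_eq ⟨i₀, h0⟩
  have key : ∀ (w : I → D) (i : I), ∃ c : I → F2, (∀ j, j ∉ Set.range ρ → c j = 0) ∧
      (i ∉ Set.range ρ → ∑ j, c j • (R j + R i) = w i) := fun w i =>
    (coef R ρ hρ1 hρ0 i _ (w i).2).imp fun _ h => ⟨h.1, fun _ => h.2⟩
  choose c c0 c1 using key
  have h1 : ∀ (w : I → D) (i : I), i ∉ Set.range ρ →
      ∑ j, (c w i j + c w j i) • (R j + R i) = w i := fun w i hi => by
    simp only [c0 w _ i hi, add_zero, c1 w i hi]
  have h2 := card_le_card_of_injOn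
    (s := ((Sy I).filter fun x => ∀ i, ∑ j, x i j • (R j + R i) = b i) ×ˢ (univ : Finset (I → D)))
    (t := Sy I ×ˢ (univ : Finset (FF → D)))
    (fun z => (fun i j => z.1 i j + (c z.2 i j + c z.2 j i), fun v => z.2 (ρ v))) ?_ ?_
  · simp only [card_product, card_univ, Fintype.card_fun, card_FF] at h2
    rw [Nat.card_eq_fintype_card, mul_comm (16 ^ 16)]
    refine h2.trans (Nat.mul_le_mul_left _ (Nat.pow_le_pow_left ?_ _))
    rw [← Nat.card_eq_fintype_card]
    exact card_le D
  · rintro ⟨x, w⟩ hz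
    simp only [Sy, coe_product, Set.mem_prod, mem_coe, mem_filter, mem_univ, true_and,
      and_true] at hz ⊢
    exact ⟨fun i j => by rw [hz.1.1 i j, add_comm (c w i j)],
      fun i => by rw [hz.1.2 i, zero_add, CharTwo.add_self_eq_zero]⟩
  · rintro ⟨x, w⟩ hz ⟨x', w'⟩ hz' e
    simp only [coe_product, Set.mem_prod, mem_coe, mem_filter, Prod.mk.injEq] at hz hz' e
    have e1 : w = w' := funext fun i => by
      by_cases hi : i ∈ Set.range ρ
      · obtain ⟨v, rfl⟩ := hi
        exact congrFun e.2 v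
      · have e3 : ∑ j, (x i j + (c w i j + c w j i)) • (R j + R i) =
            ∑ j, (x' i j + (c w' i j + c w' j i)) • (R j + R i) :=
          sum_congr rfl fun j _ => by rw [congrFun (congrFun e.1 i) j]
        simp only [add_smul (x i _), add_smul (x' i _), sum_add_distrib, h1 _ i hi, hz.1.2 i,
          hz'.1.2 i, add_right_inj] at e3
        exact Subtype.ext e3
    subst e1
    exact Prod.ext (funext fun i => funext fun j =>
      add_right_cancel (congrFun (congrFun e.1 i) j)) rfl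

theorem t_PAT1 : PAT1 := by
  intro I σ _ _ κ J₀ J D b v h hJ hv
  classical
  obtain ⟨u, u0, u1⟩ := dual κ J₀ h
  set Df : Finset FF := univ.filter (· ∈ D) with hDf
  have eD : Df.card = Nat.card D := by
    rw [Nat.card_eq_fintype_card, Fintype.card_subtype]
  have rc : ∀ (R : I → FF) (w : σ → D) (q : σ),
      ∑ i, κ i q • (R i + ∑ q', u q' i • (w q' : FF)) = ∑ i, κ i q • R i + w q := fun R w q => by
    simp only [smul_add, sum_add_distrib, smul_sum, smul_smul]
    rw [sum_comm]
    simp only [← sum_smul, u1, ite_smul, one_smul, zero_smul, sum_ite_eq', mem_univ, if_true]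
  have h2 := card_le_card_of_injOn
    (s := (univ.filter fun R : I → FF => (∀ i, R i ∈ D) ∧ (∀ q, ∑ i, κ i q • R i = b q) ∧
      ∀ i ∈ J, R i ≠ v) ×ˢ (univ : Finset (σ → D)))
    (t := Fintype.piFinset fun i => if i ∈ J then Df.erase v else Df)
    (fun z i => z.1 i + ∑ q', u q' i • (z.2 q' : FF)) ?_ ?_
  · rw [card_product, card_univ, Fintype.card_fun, ← Nat.card_eq_fintype_card,
      Fintype.card_piFinset] at h2
    have h3 := (Nat.cast_le (α := ℝ)).2 h2
    push_cast at h3
    refine le_trans (le_of_eq (by congr)) (h3.trans ?_)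
    have h4 : ∀ i ∈ (univ : Finset I), (((if i ∈ J then Df.erase v else Df).card : ℕ) : ℝ) ≤
        (if i ∈ J then 15 / 16 else 1) * (Nat.card D : ℝ) := fun i _ => by
      split_ifs
      · have h5 := card_erase_add_one (s := Df) (a := v) (mem_filter.2 ⟨mem_univ _, hv⟩)
        have h6 : (((Df.erase v).card : ℕ) : ℝ) + 1 = Nat.card D := by
          rw [← eD]; exact_mod_cast h5
        have h7 : (Nat.card D : ℝ) ≤ 16 := by exact_mod_cast card_le D
        linarith
      · rw [eD, one_mul]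
    refine (prod_le_prod (fun _ _ => Nat.cast_nonneg _) h4).trans (le_of_eq ?_)
    rw [prod_mul_distrib, prod_ite_mem, univ_inter, prod_const, prod_const, card_univ]
  · rintro ⟨R, w⟩ hz
    simp only [coe_product, Set.mem_prod, mem_coe, mem_filter, mem_univ, true_and, and_true,
      Fintype.mem_piFinset] at hz ⊢
    intro i
    have h5 : R i + ∑ q', u q' i • (w q' : FF) ∈ Df := mem_filter.2 ⟨mem_univ _,
      D.add_mem (hz.1 i) (D.sum_mem fun q _ => D.smul_mem _ (w q).2)⟩
    split_ifs with hi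
    · refine mem_erase.2 ⟨?_, h5⟩
      simp only [u0 _ i (disjoint_left.1 hJ hi), zero_smul, sum_const_zero, add_zero]
      exact hz.2.2 i hi
    · exact h5
  · rintro ⟨R, w⟩ hz ⟨R', w'⟩ hz' e
    simp only [coe_product, Set.mem_prod, mem_coe, mem_filter] at hz hz' e
    have e1 : w = w' := funext fun q => by
      have e3 := rc R w q
      rw [sum_congr rfl fun i _ => by rw [congrFun e i], rc R' w' q, hz.1.2.2.1 q,
        hz'.1.2.2.1 q, add_right_inj] at e3
      exact Subtype.ext e3.symm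
    subst e1
    exact Prod.ext (funext fun i => add_right_cancel (congrFun e i)) rfl

end Pool.Agent.P.MP_8b7eba_nt.SM
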