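import Pool.Agent.P.MP_8b7eba_nt.SM.IfG
import Pool.Agent.P.MP_8b7eba_nt.SM.BasL
import Pool.Agent.P.MP_8b7eba_nt.R2.SelA
import Pool.Agent.P.MP_8b7eba_nt.R2.PatB

/-! Proof of RED0. -/

namespace Pool.Agent.P.MP_8b7eba_nt.SM

open Finset R2
open scoped Matrix

variable [HA]

namespace TRED0

omit [HA] in
theorem cast_bd {T : Tate (pl 2)} {Λ : Lat} {n : ℕ} (hΛ : Λ.Of T) (hn : Squarefree n)
    (ho : Odd n) (v : VZ) (g : GQ) :
    (fun i => (Λ.bd (chi n.primeFactors) v g i : ℚ_[2])) =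
      T.rq (rt (ps n)) g (fun i => (v i : ℚ_[2])) - fun i => (v i : ℚ_[2]) := by
  funext i
  rw [Tate.rq_apply, Tate.rd, sd_eq_qz (rt_sq _), chi_eq_qz hn ho]
  fin_cases i <;> simp [Lat.bd, Lat.rt, sg, hΛ g]

end TRED0

theorem t_RED0 (hRA1 : RA1) (hRA2 : RA2) (hSAT : SAT) : RED0 := by
  intro T Λ n hΛ hn hc hR p hp
  have hS : ∀ q ∈ n.primeFactors, Gp q := fun q hq => ⟨Nat.prime_of_mem_primeFactors hq,
    fun h => (Nat.prime_of_mem_primeFactors hq).one_lt.ne'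
      (Nat.eq_one_of_dvd_coprimes hc (Nat.dvd_of_mem_primeFactors hq) h)⟩
  have ho : Odd n := Nat.coprime_two_right.1 (hc.coprime_dvd_right (by norm_num))
  unfold Rk1 at hR
  push Not at hR
  obtain ⟨x, y, hx, hy, hxy⟩ := hR
  obtain ⟨e, X, hX, hX'⟩ := hRA1 T Λ n x hΛ hn hc hx
  obtain ⟨e', Y, hY, hY'⟩ := hRA1 T Λ n y hΛ hn hc hy
  have wX := hRA2 T Λ n x e X hΛ hn hc hx hX fun g i => by
    simpa using congrFun (tendsto_nhds_unique
      (tendsto_const_nhds (x := fun i => (X g i : ℚ_[2]))) (hX' (cs g))) i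
  have wY := hRA2 T Λ n y e' Y hΛ hn hc hy hY fun g i => by
    simpa using congrFun (tendsto_nhds_unique
      (tendsto_const_nhds (x := fun i => (Y g i : ℚ_[2]))) (hY' (cs g))) i
  let A : Submodule Z2 (GQ → VZ) :=
    { carrier := {f | (∀ j, Λ.Wn n.primeFactors j f) ∧ f (tp p) = 0}
      add_mem' := fun ha hb => ⟨fun j => (ha.1 j).add (hb.1 j), by simp [ha.2, hb.2]⟩
      zero_mem' := ⟨fun j => ((wX j).smul 0).congr fun g => by simpa using dv_zero, rfl⟩
      smul_mem' := fun c f hf => ⟨fun j => (hf.1 j).smul c, by simp [hf.2]⟩ }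
  have hsat : ∀ f, (2 : Z2) • f ∈ A → f ∈ A := fun f hf =>
    ⟨fun j => (Lat.wn_pow (j := 1) (x := (2 : Z2) • f) fun g => by simp).1 (hf.1 _),
      (smul_eq_zero.1 hf.2).resolve_left two_ne_zero⟩
  have mem : ∀ Z : GQ → VZ, (∀ j, Λ.Wn n.primeFactors j Z) →
      (fun g => Z g + Λ.hb (chi n.primeFactors) (Z (tp p)) g) ∈ A := fun Z h =>
    ⟨fun j => (h j).add (Lat.wn_hb hS _), by
      show Z (tp p) + Λ.hb _ _ (tp p) = 0
      rw [Λ.hb_tp (hS p hp) (chi_tp hS hp), add_neg_cancel]⟩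
  obtain ⟨x', hx', y', hy', h⟩ := hSAT GQ A hsat _ (mem X wX) _ (mem Y wY) fun a b hab => by
    by_contra hne
    have key : ∀ g, (2 * a) • X g + (2 * b) • Y g =
        Λ.bd (chi n.primeFactors) (-(a • X (tp p) + b • Y (tp p))) g := fun g => by
      have h1 : a • (X g + Λ.hb (chi n.primeFactors) (X (tp p)) g) +
          b • (Y g + Λ.hb (chi n.primeFactors) (Y (tp p)) g) = 0 := congrFun hab g
      rw [Lat.bd_eq, Lat.hb, Matrix.mulVec_neg, Matrix.mulVec_add, Matrix.mulVec_smul,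
        Matrix.mulVec_smul]
      simp only [Lat.hb] at h1
      linear_combination (norm := module) (2 : Z2) • h1
    refine hxy (2 * a * 2 ^ e) (2 * b * 2 ^ e') ?_
      ⟨fun i => ((-(a • X (tp p) + b • Y (tp p))) i : Z2), fun g _ => ?_⟩
    · by_contra h0
      push Not at h0
      exact hne ⟨by simpa using h0.1, by simpa using h0.2⟩
    · have h1 := ((hX' g).const_smul (2 * a : ℚ_[2])).add ((hY' g).const_smul (2 * b : ℚ_[2]))
      have h2 := ((T.rep (δ := rt (ps n)) (by rw [rt_sq]; exact fix_int _)).tendsto g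
        (tendsto_const_nhds (x := fun i => (((-(a • X (tp p) + b • Y (tp p))) i : Z2) : ℚ_[2])))).sub
        (tendsto_const_nhds (x := fun i => (((-(a • X (tp p) + b • Y (tp p))) i : Z2) : ℚ_[2])))
      rw [← tendsto_nhds_unique (h1.congr fun k => ?_) h2]
      · simp [smul_smul]
      · rw [← TRED0.cast_bd hΛ hn ho, ← key]
        funext i
        simp [show ((2 : Z2) : ℚ_[2]) = 2 from rfl]
  exact ⟨x', y', fun j => ⟨hx'.1 j, hy'.1 j⟩, hx'.2, hy'.2, h⟩

end Pool.Agent.P.MP_8b7eba_nt.SM
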