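import Pool.Agent.P.MP_8b7eba_nt.SM.IfG
import Pool.Agent.P.MP_8b7eba_nt.SM.BasL

/-! Proof of RED1. -/

namespace Pool.Agent.P.MP_8b7eba_nt.SM

open Finset R2
open scoped Matrix

namespace TRED1

/-- the image of a pair of characters -/
def img {φ ψ : GQ → V1} (hφ : IsCh ⊤ φ) (hψ : IsCh ⊤ ψ) : Submodule F2 FF where
  carrier := Set.range fun g => (φ g, ψ g)
  add_mem' := by
    rintro _ _ ⟨g, rfl⟩ ⟨h, rfl⟩
    exact ⟨g * h, Prod.ext (hφ.2 g trivial h trivial) (hψ.2 g trivial h trivial)⟩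
  zero_mem' := ⟨1, Prod.ext hφ.one hψ.one⟩
  smul_mem' := by
    rintro c _ ⟨g, rfl⟩
    rcases (by decide : ∀ c : ZMod 2, c = 0 ∨ c = 1) c with rfl | rfl
    · rw [zero_smul]
      exact ⟨1, Prod.ext hφ.one hψ.one⟩
    · rw [one_smul]
      exact ⟨g, rfl⟩

theorem dg_apply (i j : Fin 2) (u : VZ) : (dg2 i *ᵥ u) j = (if j = i then 2 else 1) * u j := by
  rw [dg2, Matrix.mulVec_diagonal]

theorem succ_ne (i : Fin 2) : i + 1 ≠ i := by revert i; decide

theorem fin_cases (i j : Fin 2) : j = i ∨ j = i + 1 := by revert i j; decide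

theorem half {u : VZ} {i : Fin 2} (h : rd u i = 0) : ∃ u', u = dg2 i *ᵥ u' := by
  obtain ⟨c, hc⟩ := (BasY.dvd_iff1 _).1 h
  refine ⟨Function.update u i c, funext fun j => ?_⟩
  rw [dg_apply]
  by_cases e : j = i
  · rw [if_pos e, e, Function.update_self, hc, pow_one]
  · rw [if_neg e, Function.update_of_ne e, one_mul]

theorem dg_zero {u : VZ} {i : Fin 2} (h : 0 = dg2 i *ᵥ u) : u = 0 := by
  funext j
  have h1 := congrFun h j
  rw [dg_apply, Pi.zero_apply] at h1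
  refine (mul_eq_zero.1 h1.symm).resolve_left ?_
  split_ifs
  · exact BasY.two_ne
  · exact one_ne_zero

theorem rd_zero : rd 0 = 0 := rd_eq_zero.2 dv_zero

theorem rd_succ (i : Fin 2) (u : VZ) : rd (dg2 i *ᵥ u) (i + 1) = rd u (i + 1) := by
  unfold rd
  rw [dg_apply, if_neg (succ_ne i), one_mul]

end TRED1

open TRED1

variable [HA]

theorem t_RED1 (hSHW : SHW) (hBAS : BAS) : RED1 := by
  intro Λ Λ' S p x y htau hΛ' hW hx0 hy0 hind
  have hφ : IsCh ⊤ fun g => rd (x g) := (hW 1).1.zn.isCh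
  have hψ : IsCh ⊤ fun g => rd (y g) := (hW 1).2.zn.isCh
  by_cases hS : Λ.Stab (fun g => rd (x g)) fun g => rd (y g)
  swap
  · refine Or.inl ⟨fun g => rd (x g), fun g => rd (y g), fun n =>
      ⟨⟨x, (hW _).1, fun _ => rfl⟩, ⟨y, (hW _).2, fun _ => rfl⟩⟩, ?_, ?_, fun h => absurd h hS⟩
    · simp only [hx0, rd_zero]
    · simp only [hy0, rd_zero]
  have hlin : ∀ (a b : F2) (n : ℕ), Λ.WK S n fun g => a • rd (x g) + b • rd (y g) := fun a b n =>
    ⟨fun g => ((a.val : ℕ) : Z2) • x g + ((b.val : ℕ) : Z2) • y g,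
      ((hW n).1.smul _).add ((hW n).2.smul _), fun g => by
        rw [rd_add, rd_smul, rd_smul, BasY.toZMod_val, BasY.toZMod_val]⟩
  rcases (hBAS (img hφ hψ) fun a b h => hind a b fun g => h _ ⟨g, rfl⟩).1 (by
      rintro _ ⟨h, rfl⟩
      obtain ⟨h', e1, e2⟩ := hS tau h
      rw [htau] at e1 e2
      exact ⟨h', Prod.ext e1 e2⟩) with
    ⟨a, b, c, d, -, _, ⟨g, rfl⟩, _, ⟨h, rfl⟩, e1, e2⟩ | ⟨i, hi⟩
  · refine Or.inl ⟨fun g => a • rd (x g) + b • rd (y g), fun g => c • rd (x g) + d • rd (y g),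
      fun n => ⟨hlin a b _, hlin c d _⟩, ?_, ?_, fun _ => ⟨g, h, e1, e2⟩⟩
    · simp only [hx0, hy0, rd_zero, smul_zero, add_zero]
    · simp only [hx0, hy0, rd_zero, smul_zero, add_zero]
  · choose x' hx' using fun g => half (u := x g) (hi _ ⟨g, rfl⟩).1
    choose y' hy' using fun g => half (u := y g) (hi _ ⟨g, rfl⟩).2
    obtain ⟨hsh, t, ht⟩ := hΛ' i
    have hWx : ∀ n, (Λ' i).Wn S n x' := fun n => hSHW Λ _ i S n x x' hsh hx' (hW _).1
    have hWy : ∀ n, (Λ' i).Wn S n y' := fun n => hSHW Λ _ i S n y y' hsh hy' (hW _).2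
    have hφ' : IsCh ⊤ fun g => rd (x' g) := (hWx 1).zn.isCh
    have hψ' : IsCh ⊤ fun g => rd (y' g) := (hWy 1).zn.isCh
    refine Or.inr ⟨i, fun g => rd (x' g), fun g => rd (y' g), fun n =>
      ⟨⟨x', hWx _, fun _ => rfl⟩, ⟨y', hWy _, fun _ => rfl⟩⟩, ?_, ?_, fun hst => ?_⟩
    · simp only [dg_zero (hx0.symm.trans (hx' _)), rd_zero]
    · simp only [dg_zero (hy0.symm.trans (hy' _)), rd_zero]
    have key : ∀ a b : F2, (∀ v ∈ img hφ' hψ', a * v.1 (i + 1) + b * v.2 (i + 1) = 0) →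
        a = 0 ∧ b = 0 := by
      intro a b h
      refine hind a b fun g => funext fun j => ?_
      rcases TRED1.fin_cases i j with rfl | rfl
      · have h1 : rd (x g) j = 0 := (hi _ ⟨g, rfl⟩).1
        have h2 : rd (y g) j = 0 := (hi _ ⟨g, rfl⟩).2
        simp only [Pi.add_apply, Pi.smul_apply, h1, h2, smul_zero, add_zero, Pi.zero_apply]
      · have h1 := h _ ⟨g, rfl⟩
        rw [Pi.add_apply, Pi.smul_apply, Pi.smul_apply, hx' g, hy' g, rd_succ, rd_succ]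
        exact h1
    obtain ⟨_, ⟨g, rfl⟩, _, ⟨h, rfl⟩, e1, e2⟩ :=
      (hBAS (img hφ' hψ') fun a b h => key a b fun v hv => congrFun (h v hv) (i + 1)).2 i key (by
        rintro _ ⟨h, rfl⟩
        obtain ⟨h', e1, e2⟩ := hst t h
        rw [ht] at e1 e2
        exact ⟨h', Prod.ext e1 e2⟩)
    exact ⟨g, h, e1, e2⟩

end Pool.Agent.P.MP_8b7eba_nt.SM
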