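import Pool.Agent.P.MP_8b7eba_nt.SM.IfG
import Pool.Agent.P.MP_8b7eba_nt.R2.TSPLIT

/-! Proof of RESK. -/

namespace Pool.Agent.P.MP_8b7eba_nt.SM

open Finset R2 Filter TSPLIT
open scoped Matrix

namespace TRESK

variable {D : Dat} {R : GQ → V2 →ₗ[ℚ_[2]] V2} {x : GS → V2} {ε : ℚ_[2]}

theorem top (g : GS) : g ∈ S1 ⊤ := by rw [S1_top]; trivial

theorem res (hr : ∀ g ∈ D.GK, R g = D.r p1 g) {g : GS} (hg : g ∈ S1 D.GK) (v : V2) :
    rS R g v = rS (D.r p1) g v :=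
  rS_congr (Eventually.mono hg fun k h => by rw [hr _ h])

theorem normal {g : GS} (hg : g ∈ S1 D.GK) (s : GS) : s⁻¹ * g * s ∈ S1 D.GK :=
  Eventually.mono hg fun k h => D.on.1.conj_mem' _ h (s k)

/-- a global cocycle which is trivial over the quadratic field is trivial -/
theorem glob (hR : Rep ⊤ R) (hr : ∀ g ∈ D.GK, R g = D.r p1 g) (hx : PZ (fun _ => ⊤) R x)
    (h : Cob (S1 D.GK) (D.r p1) x) : Cob ⊤ R x := by
  obtain ⟨v, hv⟩ := h
  have zK : cs D.z ∈ S1 D.GK := cs_mem.2 D.zK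
  have h1 := hx.sub hR (pz_cob hR (fun _ => le_rfl) v)
  set y := x - fun g => rS R g v - v with hy
  have h2 : ∀ g ∈ S1 D.GK, y g = 0 := fun g hg => by
    rw [hy, Pi.sub_apply, hv g hg, res hr hg, sub_self]
  refine ⟨v, fun g _ => sub_eq_zero.1 (show y g = 0 from ?_)⟩
  have a := h1.2 _ (top (cs D.z)) _ (top g)
  have b := h1.2 _ (top g) _ (top (g⁻¹ * cs D.z * g))
  rw [h2 _ (normal zK g), rS_zero, add_zero, show g * (g⁻¹ * cs D.z * g) = cs D.z * g by group, a,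
    h2 _ zK, zero_add, res hr zK, Dat.rS_z isPsi_one, neg_eq_iff_add_eq_zero,
    ← two_smul ℚ_[2]] at b
  exact (smul_eq_zero.1 b).resolve_left two_ne_zero

theorem rtau (hA : CB) (g : GS) (v : V2) :
    rS (D.r p1) (cs tau) (rS (D.r p1) (cs tau * g * cs tau) v) =
      rS (D.r p1) g (rS (D.r p1) (cs tau) v) := by
  rw [← rS_mul (rep D), ← rS_mul (rep D), ← mul_assoc, ← mul_assoc, tt hA, one_mul]

/-- the conjugate of the restriction of a global cocycle -/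
theorem key (hA : CB) (hR : Rep ⊤ R) (hr : ∀ g ∈ D.GK, R g = D.r p1 g)
    (ht : ∀ v, R tau v = ε • D.r p1 tau v) (hx : PZ (fun _ => ⊤) R x) :
    ∃ u, ∀ g ∈ S1 D.GK, rS (D.r p1) (cs tau) (x (cs tau * g * cs tau)) =
      ε • x g - (rS (D.r p1) g u - u) := by
  refine ⟨rS (D.r p1) (cs tau) (x (cs tau)), fun g hg => ?_⟩
  have a := hx.conj hR (fun _ => le_rfl) (top (cs tau)) (top g)
  rw [← cs_inv, inv_tau hA, res hr (conjS hA hg), rS_cs, ht, ← rS_cs] at a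
  rw [a, (rep D).rS_sub, (rep D).rS_add, rtau hA, (rep D).rS_smul, ← rS_mul (rep D), tt hA,
    (rep D).rS_one]
  abel

/-- restriction of Selmer classes -/
theorem sel (hP : CP) {δ : Om} {m : ℤ} (hδ : δ ^ 2 = m) (hm : m ≠ 0)
    (hr : ∀ g ∈ D.GK, D.T.rq δ g = D.r p1 g)
    (ht : ∀ v, D.T.rq δ tau v = ε • D.r p1 tau v) (hx : SelQ D.T δ m x) :
    D.Sel p1 [] (D.nz p1 x) := by
  have hR : Rep ⊤ (D.T.rq δ) := D.T.rep (by rw [hδ]; exact fix_int m)
  have hK : PZ (fun _ => D.GK) (D.r p1) x :=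
    (hx.pz.mono fun _ => le_top).congr_rep fun g hg _ _ => (res hr hg _).symm
  obtain ⟨v, hv⟩ := hx.ord
  refine ⟨⟨hK.nz isPsi_one, fun g hg => if_neg hg, Dat.nz_z isPsi_one _, fun w g hg => ?_,
    fun w hw => ?_, by simp⟩, fun g hg => ?_, fun g hg => ?_⟩
  · have gK : g ∈ S1 D.GK := hg.mono fun _ h => h.1.2
    have g1 := Dat.rS_unr hP.toCF isPsi_one (hg.mono fun _ h => ⟨h.1, h.2.1⟩)
    rw [Dat.nz_of_triv gK g1]
    by_cases hc : ∀ᶠ k in UF, ((w k).p : ℤ) ∣ 30 * m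
    swap
    · exact hx.unr w g ((hg.and (ev_not.1 hc)).mono fun _ h => ⟨h.1.1.1, h.2⟩)
    obtain ⟨p, -, hp⟩ := ev_const (Set.finite_Iic (30 * m).natAbs) (f := fun k => (w k).p)
      (hc.mono fun k h => Nat.le_of_dvd (Int.natAbs_pos.2 (mul_ne_zero (by norm_num) hm))
        (Int.natCast_dvd.1 h))
    obtain ⟨k₀, ⟨-, b1, -⟩, b2, b3⟩ := (hg.and (hc.and hp)).exists
    choose s hs using fun k => show ∃ s : GQ, (w k).p = p → s • w k₀ = w k by
      by_cases e : (w k).p = p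
      · exact (hP.pl.2.1 _ _ (b3.trans e.symm)).imp fun _ h _ => h
      · exact ⟨1, fun h => absurd h e⟩
    have hI : ∀ᶠ k in UF, (s⁻¹ * g * s) k ∈ (w k₀).I :=
      (hg.and hp).mono fun k h => Pl.mem_I_smul.1 (by rw [hs k h.2]; exact h.1.1.1)
    have gK' := normal gK s
    have h15 : ((w k₀).p : ℤ) ∣ 15 * m := by
      refine ((Nat.prime_iff_prime_int.1 (w k₀).prime).dvd_or_dvd
        (show _ ∣ 2 * (15 * m) by rwa [← mul_assoc])).resolve_left fun a => b1 ?_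
      exact (a.trans (by norm_num)).mul_right _
    obtain ⟨u, hu⟩ := hx.bad _ h15
    have a := hx.pz.conj hR (fun _ => le_rfl) (top s) (top (s⁻¹ * g * s))
    rw [hu (s⁻¹ * g * s) (hI.mono fun _ h => (w k₀).I_le_D h), res hr gK',
      Dat.rS_unr hP.toCF isPsi_one (w := fun _ => w k₀)
        ((hI.and gK').mono fun _ h => ⟨h, b1⟩), sub_self, rS_zero, add_zero,
      show s * (s⁻¹ * g * s) * s⁻¹ = g by group, res hr gK, g1, sub_self] at a
    exact a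
  · obtain ⟨u, hu⟩ := hx.bad w ((Int.natCast_dvd_natCast.2 hw).mul_right m)
    obtain ⟨u', hu'⟩ := Dat.nz_eq (D := D) x isPsi_one
    refine ⟨u + u', fun g hg => ?_⟩
    have gK := S1_mono (SelB.bad_le (D := D) hw) hg
    rw [hu' g gK, hu g (S1_mono w.I_le_D hg), res hr gK, (rep D).rS_add]
    abel
  · rw [Dat.ln_nz isPsi_one hg]
    exact (Dat.ord_iff isPsi_one).2 ⟨v, fun g hg => by
      rw [← res hr (SelB.DK hg)]; exact hv g hg⟩ g hg
  · rw [Dat.ln_xt_nz hP.toCB isPsi_one hg]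
    obtain ⟨u, hu⟩ := key hP.toCB hR hr ht hx.pz
    set s : ℚ_[2] := ((sd D.dl tau : ℤ) : ℚ_[2]) with hs
    have ss : s * s = 1 := by rw [hs]; exact_mod_cast sd_sq D.dl tau
    refine (Dat.ord_iff (ψ := p1) isPsi_one).2 ⟨(s * ε) • v - s • u, fun g hg => ?_⟩ g hg
    have a : D.xt x g = s • (s • D.xt x) g := by rw [Pi.smul_apply, smul_smul, ss, one_smul]
    have b : D.xt x g - (rS (D.r p1) g ((s * ε) • v - s • u) - ((s * ε) • v - s • u)) =
        (s * ε) • (x g - (rS (D.T.rq δ) g v - v)) := by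
      rw [a, xt_eq, hu g (SelB.DK hg), res hr (SelB.DK hg), (rep D).rS_sub, (rep D).rS_smul,
        (rep D).rS_smul]
      module
    rw [b, Pi.smul_apply, hv g hg, smul_zero]

end TRESK

open TRESK

variable [HA]

theorem t_RESK (hCP : CP) : RESK := by
  intro D x y hx nx hy ny hK
  have hR := rep D
  have r1 : ∀ g ∈ D.GK, D.T.rq D.dl g = D.r p1 g := fun g _ => by rw [D.r_one]
  have r2 : ∀ g ∈ D.GK, D.T.rq (D.dl * D.sk) g = D.r p1 g := fun g => rq_sk D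
  have t1 : ∀ v, D.T.rq D.dl tau v = (1 : ℚ_[2]) • D.r p1 tau v := fun v => by
    rw [D.r_one, one_smul]
  have t2 : ∀ v, D.T.rq (D.dl * D.sk) tau v = (-1 : ℚ_[2]) • D.r p1 tau v := fun v => by
    rw [D.r_one, Tate.rq_apply, Tate.rq_apply, Tate.rd, Tate.rd, sd_sk,
      sd_eq_neg.2 (show tau D.sk ≠ D.sk from (hCP.karith _).2.1)]
    simp [Matrix.neg_mulVec]
  have d2 : (D.dl * D.sk) ^ 2 = ((-D.l * D.d : ℤ) : Om) := by
    rw [mul_pow, D.hdl, D.hsk]; push_cast; ring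
  have R1 : Rep ⊤ (D.T.rq D.dl) := D.T.rep D.fix_dl
  have R2 : Rep ⊤ (D.T.rq (D.dl * D.sk)) := D.T.rep (by rw [d2]; exact fix_int _)
  obtain ⟨a, b, hab, e⟩ := hK _ _ (sel hCP D.hdl D.dl_ne.2.2 r1 t1 hx)
    (sel hCP d2 (mul_ne_zero (by simpa using D.lp.ne_zero) D.dl_ne.2.2) r2 t2 hy)
  obtain ⟨u₁, h1⟩ := key hCP.toCB R1 r1 t1 hx.pz
  obtain ⟨u₂, h2⟩ := key hCP.toCB R2 r2 t2 hy.pz
  rw [← Dat.nz_smul isPsi_one, ← Dat.nz_smul isPsi_one, ← Dat.nz_add isPsi_one] at e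
  obtain ⟨v, hv⟩ := Dat.nz_eq (D := D) (a • x + b • y) isPsi_one
  have c1 : Cob (S1 D.GK) (D.r p1) (a • x + b • y) := ⟨-v, fun g hg => by
    have := hv g hg
    rw [e, Pi.zero_apply, eq_comm, add_eq_zero_iff_eq_neg] at this
    rw [this, hR.rS_neg]
    abel⟩
  have c2 : Cob (S1 D.GK) (D.r p1) (a • x + (-b) • y) := by
    obtain ⟨w, hw⟩ := c1
    refine ⟨rS (D.r p1) (cs tau) w + a • u₁ + b • u₂, fun g hg => ?_⟩
    have := congrArg (rS (D.r p1) (cs tau)) (hw _ (conjS hCP.toCB hg))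
    rw [Pi.add_apply, Pi.smul_apply, Pi.smul_apply, hR.rS_add, hR.rS_smul, hR.rS_smul, h1 g hg,
      h2 g hg, hR.rS_sub, rtau hCP.toCB] at this
    rw [Pi.add_apply, Pi.smul_apply, Pi.smul_apply, hR.rS_add, hR.rS_add, hR.rS_smul, hR.rS_smul]
    linear_combination (norm := module) this
  rcases hab with ha | hb
  · refine nx (glob R1 r1 hx.pz ?_)
    have := (c1.add hR c2).smul hR (2 * a)⁻¹
    rwa [show a • x + b • y + (a • x + (-b) • y) = (2 * a) • x by module,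
      inv_smul_smul₀ (mul_ne_zero two_ne_zero ha)] at this
  · refine ny (glob R2 r2 hy.pz ?_)
    have := (c1.add hR (c2.smul hR (-1))).smul hR (2 * b)⁻¹
    rwa [show a • x + b • y + (-1 : ℚ_[2]) • (a • x + (-b) • y) = (2 * b) • y by module,
      inv_smul_smul₀ (mul_ne_zero two_ne_zero hb)] at this

end Pool.Agent.P.MP_8b7eba_nt.SM
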