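import Pool.Agent.P.MP_8b7eba_nt.SM.IfG
import Pool.Agent.P.MP_8b7eba_nt.SM.BasY

/-! Proof of SAT, BAS. -/

namespace Pool.Agent.P.MP_8b7eba_nt.SM

open Finset R2
open scoped Matrix

namespace TSAT

theorem half {G : Type} {A : Submodule Z2 (G → VZ)} (hA : ∀ f, (2 : Z2) • f ∈ A → f ∈ A)
    {f : G → VZ} (hf : f ∈ A) (h : ∀ g, rd (f g) = 0) : ∃ f' ∈ A, f = (2 : Z2) • f' := by
  choose u hu using fun g => dv_iff.1 (rd_eq_zero.1 (h g))
  have e : f = (2 : Z2) • u := funext fun g => by rw [hu g, pow_one]; rfl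
  exact ⟨u, hA u (e ▸ hf), e⟩

theorem step {G : Type} {A : Submodule Z2 (G → VZ)} (hA : ∀ f, (2 : Z2) • f ∈ A → f ∈ A)
    (g g' : G) (i i' : Fin 2) (n : ℕ) : ∀ x ∈ A, ∀ y ∈ A,
    ¬ 2 ^ n ∣ x g i * y g' i' - x g' i' * y g i → ∃ x' ∈ A, ∃ y' ∈ A,
      ∀ a b : F2, (∀ g, a • rd (x' g) + b • rd (y' g) = 0) → a = 0 ∧ b = 0 := by
  induction n with
  | zero => exact fun x _ y _ h => absurd (one_dvd _) h
  | succ n ih =>
    intro x hx y hy h
    by_contra hc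
    have key : ∀ x' ∈ A, ∀ y' ∈ A, x g i * y g' i' - x g' i' * y g i ≠
        (x' g i * y' g' i' - x' g' i' * y' g i) * 2 := fun x' hx' y' hy' e =>
      hc (ih x' hx' y' hy' fun d => h (by rw [e, pow_succ]; exact mul_dvd_mul_right d 2))
    refine hc ⟨x, hx, y, hy, fun a b e => ?_⟩
    have c : ∀ a : F2, a = 0 ∨ a = 1 := by decide
    rcases c a with rfl | rfl <;> rcases c b with rfl | rfl
    · exact ⟨rfl, rfl⟩
    · obtain ⟨u, hu, rfl⟩ := half hA hy fun g => by simpa using e g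
      exact absurd (by simp only [Pi.smul_apply, smul_eq_mul]; ring) (key x hx u hu)
    · obtain ⟨u, hu, rfl⟩ := half hA hx fun g => by simpa using e g
      exact absurd (by simp only [Pi.smul_apply, smul_eq_mul]; ring) (key u hu y hy)
    · obtain ⟨u, hu, e'⟩ := half hA (A.add_mem hx hy) fun g => by
        simpa only [Pi.add_apply, rd_add, one_smul] using e g
      obtain rfl := eq_sub_of_add_eq e'
      exact absurd (by simp only [Pi.smul_apply, Pi.sub_apply, smul_eq_mul]; ring) (key u hu y hy)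

end TSAT

open TSAT

variable [HA]

theorem t_SAT : SAT := by
  intro G A hA x hx y hy h
  obtain ⟨g, i, h1⟩ : ∃ g i, x g i ≠ 0 := by
    by_contra! hc
    exact one_ne_zero (h 1 0 (by ext g i; simp [hc])).1
  obtain ⟨g', i', h2⟩ : ∃ g' i', x g i * y g' i' - x g' i' * y g i ≠ 0 := by
    by_contra! hc
    refine h1 (h (-y g i) (x g i) (funext fun g' => funext fun i' => ?_)).2
    rw [← show _ = (0 : G → VZ) g' i' from hc g' i']
    simp only [Pi.add_apply, Pi.smul_apply, smul_eq_mul]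
    ring
  obtain ⟨n, hn⟩ : ∃ n, ¬ 2 ^ n ∣ x g i * y g' i' - x g' i' * y g i := by
    by_contra! hc
    exact h2 (congrFun (eq_zero_of_dv (u := fun _ => _) fun n _ => hc n) 0)
  exact step hA g g' i i' n x hx y hy hn

theorem t_BAS : BAS := by
  intro D h0
  refine ⟨fun hE => ?_, fun i h1 hN => ?_⟩
  · by_contra hc
    rw [not_or] at hc
    have P : ∀ v ∈ D, ∀ v' ∈ D, v.2 0 * v'.1 1 + v.1 0 * v'.2 1 = 0 := fun v hv v' hv' => by
      by_contra hne
      obtain ⟨a, b, e, e'⟩ := (by decide : ∀ p q r s : F2, q * r + p * s ≠ 0 →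
        ∃ a b, a * p + b * q = 1 ∧ q * r + p * s = 1) _ _ _ _ hne
      refine hc.1 ⟨a, b, v.2 0, v.1 0, e, _, hE v hv, v', hv', ?_, ?_⟩
      · ext j; fin_cases j <;> simp [Matrix.mulVec, dotProduct, mul_comm, CharTwo.add_self_eq_zero]
      · simp [ee, Matrix.mulVec, dotProduct, e, e']
    have Q : ∀ i, ∃ v ∈ D, ¬ (v.1 i = 0 ∧ v.2 i = 0) := fun i => by
      by_contra! h
      exact hc.2 ⟨i, h⟩
    obtain ⟨v, hv, a⟩ := Q 0
    obtain ⟨v', hv', a'⟩ := Q 1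
    refine a (h0 (v.2 0) (v.1 0) fun u hu => funext fun j => ?_).symm
    fin_cases j
    · exact (by decide : ∀ p q r s t u : F2, ¬ (r = 0 ∧ s = 0) → q * r + p * s = 0 →
        u * r + t * s = 0 → q * t + p * u = 0) _ _ _ _ _ _ a' (P v hv v' hv') (P u hu v' hv')
    · exact P v hv u hu
  · have Q : ∀ a b : F2, ¬ (a = 0 ∧ b = 0) → ∃ v ∈ D, a * v.1 (i + 1) + b * v.2 (i + 1) ≠ 0 :=
      fun a b h => by
        by_contra! hc
        exact h (h1 a b hc)
    obtain ⟨u, hu, a⟩ := Q 1 0 (by decide)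
    obtain ⟨v, hv, b⟩ := Q 0 1 (by decide)
    obtain ⟨w, hw, c⟩ := Q 1 1 (by decide)
    obtain ⟨z, hz, d, d'⟩ : ∃ z ∈ D, z.1 (i + 1) = 1 ∧ z.2 (i + 1) = 0 := by
      rcases (by decide : ∀ p q r s : F2, 1 * p + 0 * q ≠ 0 → 1 * r + 1 * s ≠ 0 → (p = 1 ∧ q = 0) ∨
        (r = 1 ∧ s = 0) ∨ (p + r = 1 ∧ q + s = 0)) _ _ _ _ a c with h | h | h
      exacts [⟨u, hu, h⟩, ⟨w, hw, h⟩, ⟨u + w, D.add_mem hu hw, h⟩]
    have b' := (by decide : ∀ p q : F2, 0 * p + 1 * q ≠ 0 → q = 1) _ _ b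
    refine ⟨_, hN z hz, v, hv, ?_, ?_⟩
    · simp [Matrix.single_mulVec, d']
    · simp only [Matrix.single_mulVec, d, ee]
      fin_cases i <;> simpa using b'

end Pool.Agent.P.MP_8b7eba_nt.SM
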