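import Pool.Agent.P.MP_8b7eba_nt.SM.IfG
import Pool.Agent.P.MP_8b7eba_nt.SM.BasL

/-! Proof of SHW. -/

namespace Pool.Agent.P.MP_8b7eba_nt.SM

open Finset R2
open scoped Matrix

namespace TSHW

variable {i : Fin 2} {n : ℕ} {u : VZ} {Λ Λ' : Lat} {ψ : GQ → F2} {H : Subgroup GQ}
  {x x' : GQ → VZ} {o : Prop}

theorem app (i : Fin 2) (u : VZ) (j : Fin 2) :
    (dg2 i *ᵥ u) j = (if j = i then 2 else 1) * u j := Matrix.mulVec_diagonal _ _ _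

theorem dd (i : Fin 2) (u : VZ) : dg2 i *ᵥ (dg2 (i + 1) *ᵥ u) = (2 : Z2) • u := by
  funext j
  rw [app, app]
  fin_cases i <;> fin_cases j <;> simp

theorem dv_of (h : Dv (n + 1) (dg2 i *ᵥ u)) : Dv n u := fun j => by
  have := h j
  rw [app] at this
  split_ifs at this
  · rwa [pow_succ', mul_dvd_mul_iff_left BasY.two_ne] at this
  · rw [one_mul] at this
    exact (pow_dvd_pow 2 n.le_succ).trans this

theorem rt_sh (h : Λ.Sh Λ' i) (g : GQ) (u : VZ) :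
    dg2 i *ᵥ (Λ'.rt ψ g *ᵥ u) = Λ.rt ψ g *ᵥ (dg2 i *ᵥ u) := by
  rw [Matrix.mulVec_mulVec, Matrix.mulVec_mulVec, Lat.rt, Lat.rt, Matrix.mul_smul, h g,
    Matrix.smul_mul]

theorem zn (h : Λ.Sh Λ' i) (e : ∀ g ∈ H, x g = dg2 i *ᵥ x' g) (hx : Λ.Zn ψ H (n + 1) x) :
    Λ'.Zn ψ H n x' := by
  obtain ⟨⟨N, a, b⟩, c⟩ := BasZ.zn_iff.1 hx
  refine BasZ.zn_iff.2 ⟨⟨N, a, fun g hg k hk m => dv_of (i := i) ?_⟩,
    fun g hg k hk => dv_of (i := i) ?_⟩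
  · rw [Matrix.mulVec_sub, ← e _ (mul_mem hg hk), ← e g hg]
    exact b g hg k hk m
  · rw [Matrix.mulVec_sub, Matrix.mulVec_sub, rt_sh h, ← e _ (mul_mem hg hk), ← e g hg, ← e k hk]
    exact c g hg k hk

theorem lc (h : Λ.Sh Λ' i) (e : ∀ g, x g = dg2 i *ᵥ x' g) (hx : Λ.Lc o ψ H (n + 1) x) :
    Λ'.Lc o ψ H n x' := by
  obtain ⟨b, ⟨hb, k, v, hv⟩, hxb⟩ := hx
  choose! w hw using fun g hg => dv_iff.1 (hxb g hg)
  have e' : ∀ g ∈ H, b g = dg2 i *ᵥ (x' g - (2 : Z2) ^ n • dg2 (i + 1) *ᵥ w g) := fun g hg => by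
    rw [Matrix.mulVec_sub, Matrix.mulVec_smul, dd, ← e, smul_smul, ← pow_succ, ← hw g hg]
    abel
  have key : ∀ g ∈ H, ∀ j, 2 ^ k * b g j = Λ.bd ψ v g j →
      2 ^ (k + 1) * (x' g - (2 : Z2) ^ n • dg2 (i + 1) *ᵥ w g) j =
        Λ'.bd ψ (dg2 (i + 1) *ᵥ v) g j := fun g hg j hj => by
    have h1 : dg2 i *ᵥ Λ'.bd ψ (dg2 (i + 1) *ᵥ v) g = (2 : Z2) • Λ.bd ψ v g := by
      rw [Lat.bd, Matrix.mulVec_sub, rt_sh h, dd, ← BasZ.bd_smul, Lat.bd]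
    have h2 := congrFun h1 j
    rw [app, Pi.smul_apply, ← hj, e' g hg, app, smul_eq_mul] at h2
    have h3 : (if j = i then (2 : Z2) else 1) ≠ 0 := by
      split_ifs
      · exact BasY.two_ne
      · exact one_ne_zero
    refine mul_left_cancel₀ h3 ?_
    rw [h2]
    ring
  refine ⟨_, ⟨fun m => zn h e' (hb (m + 1)), k + 1, dg2 (i + 1) *ᵥ v, fun g hg =>
    ⟨key g hg 1 (hv g hg).1, fun a => key g hg 0 ((hv g hg).2 a)⟩⟩, fun g _ => ?_⟩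
  exact dv_iff.2 ⟨dg2 (i + 1) *ᵥ w g, by abel⟩

end TSHW

variable [HA]

theorem t_SHW : SHW := fun _ _ i _ _ _ _ h e hx =>
  ⟨⟨TSHW.zn h (fun g _ => e g) hx.zn, fun w a b g hg =>
    TSHW.dv_of (i := i) (e g ▸ hx.unr w a b g hg), TSHW.lc h e hx.inf⟩,
    fun p hp => TSHW.lc h e (hx.loc p hp)⟩

end Pool.Agent.P.MP_8b7eba_nt.SM
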