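import Pool.Agent.P.MP_8b7eba_nt.SM.IfG
import Pool.Agent.P.MP_8b7eba_nt.SM.BasH

/-! Proof of SMALL. -/

namespace Pool.Agent.P.MP_8b7eba_nt.SM

open Finset R2
open scoped Matrix

variable [HA]

theorem t_SMALL : SMALL := by
  classical
  intro σ _ _ m O b N hO w B hw hD hB
  have hp : (pl w).p = w := pl_p hw
  have hlt : (((pl w).p : NNReal) ^ 1)⁻¹ < 1 := by
    rw [pow_one, ← (pl w).vp]; exact (pl w).v_p_lt
  have h1 : ∀ x : O, ∃ k : ℕ, (pl w).v (x - k) ≤ (((pl w).p : NNReal) ^ 1)⁻¹ := fun x =>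
    (hA.res (pl w) _ (pl w).loc_D).2.2.2.2.2 x (fun g hg => (hO.int x).2.1 g (hD hg))
      ((Valuation.integer.integers (pl w).v).mem_of_integral (hO.int x).1.tower_top) 1
  choose k hk using h1
  have : NeZero w := ⟨hw.ne_zero⟩
  let e : (Finset σ → Fin (B + 1)) → O := fun c => b.equivFun.symm fun i => ((c i : ℕ) : ℤ)
  have he : ∀ c i, b.repr (e c) i = ((c i : ℕ) : ℤ) := fun c i =>
    congrFun (b.equivFun.apply_symm_apply fun i => ((c i : ℕ) : ℤ)) i
  obtain ⟨c, c', hne, h⟩ := Fintype.exists_ne_map_eq_of_card_lt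
    (fun c : Finset σ → Fin (B + 1) => ((k (e c) : ℕ) : ZMod w)) (by
      rwa [ZMod.card, Fintype.card_fun, Fintype.card_fin, Fintype.card_finset])
  have h0 : e c - e c' ≠ 0 := fun h0 => hne (funext fun i => Fin.ext (by
    have := he c i
    rw [sub_eq_zero.1 h0, he] at this
    exact_mod_cast this.symm))
  refine ⟨e c - e c', fun hN => ?_, fun i => ?_, ?_⟩
  · have h2 := hO.nm (e c - e c')
    rw [hN, Int.cast_zero, eq_comm, prod_eq_zero_iff] at h2
    obtain ⟨v, -, hv⟩ := h2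
    exact h0 (Subtype.ext ((map_eq_zero_iff _ (m.g v).injective).1 hv))
  · rw [map_sub, Finsupp.sub_apply, he, he, abs_le]
    have := (c i).2
    have := (c' i).2
    omega
  · have h2 : (pl w).v (((k (e c) : ℤ) - k (e c') : ℤ) : Om) ≤ (((pl w).p : NNReal) ^ 1)⁻¹ := by
      rw [Pl.v_int_le_iff, pow_one, hp]
      exact ((ZMod.natCast_eq_natCast_iff _ _ _).1 h.symm).dvd
    have h3 : ((e c - e c' : O) : Om) = ((e c : Om) - k (e c)) - ((e c' : Om) - k (e c')) +
        (((k (e c) : ℤ) - k (e c') : ℤ) : Om) := by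
      push_cast; ring
    rw [h3]
    exact (Valuation.map_add_le _ (Valuation.map_sub_le _ (hk _) (hk _)) h2).trans_lt hlt

end Pool.Agent.P.MP_8b7eba_nt.SM
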