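import Pool.Agent.P.MP_8b7eba_nt.SM.IfG

/-! Proof of STEP, BX1. -/

namespace Pool.Agent.P.MP_8b7eba_nt.SM

open Finset R2
open scoped Matrix

namespace TSTEP

variable {k K s : ℕ}

theorem fib (hFIB : FIB) (𝒯 : Stp k s) (f : (Fin 𝒯.B.r → ℕ) → Prop) [i₁ : DecidablePred f]
    [i₂ : ∀ p, DecidablePred fun z : (Option (Fin k) → ℕ) × ℕ => f (asm 𝒯.e p z.1 z.2)] :
    ∑ p ∈ 𝒯.B.pts,
      (((Fintype.piFinset 𝒯.X ×ˢ 𝒯.Y).filter fun z => f (asm 𝒯.e p z.1 z.2)).card : ℝ) =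
      (∏ i, ((𝒯.X i).card : ℝ)) * 𝒯.Y.card * (𝒯.B.pts.filter f).card := by
  have h : ∑ p ∈ 𝒯.B.pts,
      ((Fintype.piFinset 𝒯.X ×ˢ 𝒯.Y).filter fun z => f (asm 𝒯.e p z.1 z.2)).card =
      (∏ i, (𝒯.X i).card) * 𝒯.Y.card * (𝒯.B.pts.filter f).card := by
    obtain rfl : i₁ = fun a => Classical.propDecidable _ := Subsingleton.elim _ _
    obtain rfl : i₂ = fun a b => Classical.propDecidable _ := Subsingleton.elim _ _
    exact hFIB (Option (Fin k)) 𝒯.B.r 𝒯.B.X 𝒯.e f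
  exact_mod_cast h

/-- restriction to fewer coordinates -/
def res (𝒯 : Stp K s) (h : k ≤ K) : Stp k s where
  B := 𝒯.B
  Λ := 𝒯.Λ
  a := 𝒯.a
  e := ((Fin.castLEEmb h).optionMap.optionMap).trans 𝒯.e
  φ := 𝒯.φ
  R := 𝒯.R
  sy := 𝒯.sy
  φ0 := 𝒯.φ0
  lo := fun β i => 𝒯.lo β (Fin.castLE h i)
  ra := 𝒯.ra
  rb := 𝒯.rb
  sel := 𝒯.sel

theorem num_res {𝒯 : Stp K s} (h : k ≤ K) {A A' T y₀ y₁ : ℕ} (hN : 𝒯.Num A T y₀ y₁)
    (hA : A' ≤ A) : (res 𝒯 h).Num A' T y₀ y₁ := by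
  have h2 := hN.two
  have h1 : 0 < T * (𝒯.B.E + 2) * 2 ^ (𝒯.B.r + 𝒯.B.S.card + 2) := by positivity
  have h3 : 0 < y₁ := ((pow_pos h1 A).trans_le hN.big).trans_le hN.le
  exact ⟨hN.two, (Nat.pow_le_pow_right h1 hA).trans hN.big, hN.le, hN.t0,
    fun i => hN.low (Fin.castLE h i), (Nat.pow_le_pow_right h3 hA).trans hN.ha,
    (Nat.pow_le_pow_right h3 hA).trans hN.hb⟩

end TSTEP

variable [HA]

theorem t_STEP (hFIB : FIB) (hSTP3 : STP3) : STEP := by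
  classical
  intro k s ε hk hε
  obtain ⟨A, hA⟩ := hSTP3 k s ε hk hε
  refine ⟨A, fun 𝒯 T y₀ y₁ hN => ?_⟩
  have h := sum_le_sum (hA 𝒯 T y₀ y₁ hN)
  rw [sum_add_distrib, sum_add_distrib, ← sum_div, ← mul_sum, sum_const, nsmul_eq_mul,
    TSTEP.fib hFIB 𝒯 (𝒯.W (k + 1)), TSTEP.fib hFIB 𝒯 (𝒯.W k),
    TSTEP.fib hFIB 𝒯 fun p => Leg p = 𝒯.a] at h
  obtain ⟨p, hp, -⟩ := 𝒯.sy
  have hX : ∀ i, (0 : ℝ) < (𝒯.B.X i).card := fun i =>
    Nat.cast_pos.2 (card_pos.2 ⟨p i, Fintype.mem_piFinset.1 hp i⟩)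
  have hn : 0 < (∏ i, ((𝒯.X i).card : ℝ)) * 𝒯.Y.card := mul_pos (prod_pos fun i _ => hX _) (hX _)
  refine le_of_mul_le_mul_left (h.trans_eq ?_) hn
  ring

theorem t_BX1 (hSTEP : STEP) : BX1 := by
  classical
  intro K s ε hε
  choose! A hA using fun k (hk : 2 ≤ k) => hSTEP k s (ε / 2) hk (half_pos hε)
  refine ⟨(range (K + 2)).sup A, fun 𝒯 T y₀ y₁ hN => ?_⟩
  have key : ∀ j ≤ K, ((𝒯.B.pts.filter (𝒯.W (j + 2))).card : ℝ) ≤
      ((2 ^ j)⁻¹ + ε) * (𝒯.B.pts.filter fun p => Leg p = 𝒯.a).card + 2 / T * 𝒯.B.pts.card := by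
    intro j
    induction j with
    | zero =>
      intro _
      have h1 : ((𝒯.B.pts.filter (𝒯.W (0 + 2))).card : ℝ) ≤
          (𝒯.B.pts.filter fun p => Leg p = 𝒯.a).card :=
        Nat.cast_le.2 (card_le_card fun p hp =>
          mem_filter.2 ⟨(mem_filter.1 hp).1, (mem_filter.1 hp).2.1⟩)
      have h2 : 0 ≤ ε * (𝒯.B.pts.filter fun p => Leg p = 𝒯.a).card := by positivity
      have h3 : 0 ≤ 2 / (T : ℝ) * 𝒯.B.pts.card := by positivity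
      rw [pow_zero, inv_one]
      linarith
    | succ j ih =>
      intro hj
      have h1 := ih (by omega)
      have h2 : ((𝒯.B.pts.filter (𝒯.W (j + 2 + 1))).card : ℝ) ≤
          (𝒯.B.pts.filter (𝒯.W (j + 2))).card / 2 +
          ε / 2 * (𝒯.B.pts.filter fun p => Leg p = 𝒯.a).card + (T : ℝ)⁻¹ * 𝒯.B.pts.card :=
        hA (j + 2) (by omega) (TSTEP.res 𝒯 (by omega)) T y₀ y₁
          (TSTEP.num_res _ hN (le_sup (f := A) (mem_range.2 (by omega))))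
      rw [pow_succ, mul_inv, div_eq_mul_inv 2] at *
      linarith
  convert key K le_rfl

end Pool.Agent.P.MP_8b7eba_nt.SM
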