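import Pool.Agent.P.MP_8b7eba_nt.SM.BasP

/-! Points of a box and points of a grid. -/

namespace Pool.Agent.P.MP_8b7eba_nt.SM

open Finset R2

theorem asm_e {ι : Type} {r : ℕ} (e : Option ι ↪ Fin r) (p : Fin r → ℕ) (z : ι → ℕ) (y : ℕ) :
    asm e p z y (e none) = y ∧ (∀ i, asm e p z y (e (some i)) = z i) ∧
      ∀ j, j ∉ Set.range e → asm e p z y j = p j :=
  ⟨e.injective.extend_apply _ _ none, fun i => e.injective.extend_apply _ _ (some i),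
    fun j hj => Function.extend_apply' _ _ j hj⟩

namespace BasT

theorem tri {ι : Type} {r : ℕ} (e : Option ι ↪ Fin r) (j : Fin r) :
    j = e none ∨ (∃ i, j = e (some i)) ∨ j ∉ Set.range e := by
  by_cases h : j ∈ Set.range e
  · obtain ⟨_ | i, rfl⟩ := h
    · exact Or.inl rfl
    · exact Or.inr (Or.inl ⟨i, rfl⟩)
  · exact Or.inr (Or.inr h)

theorem off {ι : Type} {r : ℕ} (e : Option ι ↪ Fin r) (p : Fin r → ℕ) (z : ι → ℕ) (y y' : ℕ)
    {j : Fin r} (h : j ≠ e none) : asm e p z y j = asm e p z y' j := by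
  rcases tri e j with h' | ⟨i, rfl⟩ | h'
  · exact absurd h' h
  · rw [(asm_e e p z y).2.1, (asm_e e p z y').2.1]
  · rw [(asm_e e p z y).2.2 j h', (asm_e e p z y').2.2 j h']

theorem leg_off {ι : Type} {r : ℕ} (e : Option ι ↪ Fin r) (p : Fin r → ℕ) (z : ι → ℕ) (y y' : ℕ)
    {i j : Fin r} (hi : i ≠ e none) (hj : j ≠ e none) :
    Leg (asm e p z y) i j = Leg (asm e p z y') i j := by
  unfold Leg
  rw [off e p z y y' hi, off e p z y y' hj]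

theorem leg_some {ι : Type} {r : ℕ} (e : Option ι ↪ Fin r) (p : Fin r → ℕ) (z : ι → ℕ) (y : ℕ)
    (i : ι) : Leg (asm e p z y) (e none) (e (some i)) = js (ps (z i)) y := by
  unfold Leg
  rw [if_neg (e.injective.ne (Option.some_ne_none i).symm), (asm_e e p z y).1, (asm_e e p z y).2.1]

theorem leg_out {ι : Type} {r : ℕ} (e : Option ι ↪ Fin r) (p : Fin r → ℕ) (z : ι → ℕ) (y : ℕ)
    {j : Fin r} (hj : j ∉ Set.range e) : Leg (asm e p z y) (e none) j = js (ps (p j)) y := by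
  unfold Leg
  rw [if_neg fun h => hj ⟨none, h⟩, (asm_e e p z y).1, (asm_e e p z y).2.2 j hj]

open Classical in
theorem sum_split {ι A : Type} [Fintype ι] [AddCommMonoid A] {r : ℕ} (e : ι ↪ Fin r)
    (f : Fin r → A) :
    ∑ j, f j = ∑ j ∈ univ.filter (fun j => j ∉ Set.range e), f j + ∑ o, f (e o) := by
  rw [← sum_filter_not_add_sum_filter univ (fun j => j ∈ Set.range e), ← sum_map univ e f]
  congr 2
  ext j
  simp

end BasT

namespace Stp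

variable {k s : ℕ} {𝒯 : Stp k s} {p : Fin 𝒯.B.r → ℕ} {z : Option (Fin k) → ℕ} {y : ℕ}

theorem asm_mem (hp : p ∈ 𝒯.B.pts) (hz : ∀ o, z o ∈ 𝒯.X o) (hy : y ∈ 𝒯.Y) :
    asm 𝒯.e p z y ∈ 𝒯.B.pts := by
  refine Box.mem_pts.2 fun j => ?_
  rcases BasT.tri 𝒯.e j with rfl | ⟨i, rfl⟩ | h
  · rw [(asm_e 𝒯.e p z y).1]
    exact hy
  · rw [(asm_e 𝒯.e p z y).2.1]
    exact hz i
  · rw [(asm_e 𝒯.e p z y).2.2 j h]
    exact Box.mem_pts.1 hp j

theorem set_asm : 𝒯.B.set (asm 𝒯.e p z y) = insert y (𝒯.P p) ∪ univ.image z := by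
  obtain ⟨h1, h2, h3⟩ := asm_e 𝒯.e p z y
  ext q
  simp only [Box.mem_set, P, mem_union, mem_insert, mem_image, mem_filter, mem_univ, true_and]
  constructor
  · rintro (h | ⟨j, rfl⟩)
    · exact Or.inl (Or.inr (Or.inl h))
    · rcases BasT.tri 𝒯.e j with rfl | ⟨i, rfl⟩ | h
      · exact Or.inl (Or.inl h1)
      · exact Or.inr ⟨i, (h2 i).symm⟩
      · exact Or.inl (Or.inr (Or.inr ⟨j, h, (h3 j h).symm⟩))
  · rintro ((rfl | h | ⟨j, h, rfl⟩) | ⟨i, rfl⟩)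
    · exact Or.inr ⟨_, h1⟩
    · exact Or.inl h
    · exact Or.inr ⟨j, h3 j h⟩
    · exact Or.inr ⟨_, h2 i⟩

theorem cp_of (h : Leg (asm 𝒯.e p z y) = 𝒯.a) : 𝒯.cp p z y := by
  refine ⟨fun i j hi hj => ?_, fun j hj => ?_, fun o => ?_⟩
  · rw [← h, BasT.leg_off 𝒯.e p z 0 y hi hj]
  · rw [← h, BasT.leg_out 𝒯.e p z y hj]
  · beta_reduce
    rw [← h, BasT.leg_some]

theorem leg_of (hp : p ∈ 𝒯.B.pts) (hz : ∀ o, z o ∈ 𝒯.X o) (hy : y ∈ 𝒯.Y) (h : 𝒯.cp p z y) :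
    Leg (asm 𝒯.e p z y) = 𝒯.a := by
  obtain ⟨h1, h2, h3⟩ := h
  obtain ⟨p', hp', ha⟩ := 𝒯.sy
  have row : ∀ j, Leg (asm 𝒯.e p z y) (𝒯.e none) j = 𝒯.a (𝒯.e none) j := by
    intro j
    rcases BasT.tri 𝒯.e j with rfl | ⟨i, rfl⟩ | h
    · rw [← ha]
      unfold Leg
      rw [if_pos rfl, if_pos rfl]
    · rw [BasT.leg_some]
      exact h3 i
    · rw [BasT.leg_out 𝒯.e p z y h]
      exact h2 j h
  funext i j
  by_cases hi : i = 𝒯.e none
  · rw [hi, row]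
  by_cases hj : j = 𝒯.e none
  · have h4 := Box.leg_swap (asm_mem hp hz hy) hp' i j
    rw [ha, hj, row] at h4
    rw [hj]
    exact add_right_cancel h4
  · rw [BasT.leg_off 𝒯.e p z y 0 hi hj]
    exact h1 i j hi hj

theorem pat_asm (β : Bool) (g : GQ) : pat (𝒯.φ β) (𝒯.R β) (asm 𝒯.e p z y) g =
    𝒯.Φ p y β g + qs (z none) g • 𝒯.R β (𝒯.e (some none)) := by
  obtain ⟨h1, h2, h3⟩ := asm_e 𝒯.e p z y
  unfold pat Φ
  rw [BasT.sum_split 𝒯.e, Fintype.sum_option, Fintype.sum_option, h1, h2,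
    sum_congr rfl fun j hj => by rw [h3 j (mem_filter.1 hj).2]]
  simp only [𝒯.lo, smul_zero, sum_const_zero, add_zero, add_assoc]

theorem card_P (p : Fin 𝒯.B.r → ℕ) : (𝒯.P p).card ≤ 𝒯.B.r + 𝒯.B.S.card := by
  refine (card_union_le _ _).trans ?_
  rw [add_comm]
  exact Nat.add_le_add_right (card_image_le.trans ((card_le_univ _).trans_eq (Fintype.card_fin _))) _

theorem mem_P (hp : p ∈ 𝒯.B.pts) {q : ℕ} (hq : q ∈ 𝒯.P p) :
    Gp q ∧ ∀ o, q ∉ 𝒯.B.X (𝒯.e o) := by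
  rcases mem_union.1 hq with h | h
  · exact ⟨𝒯.B.gS q h, fun o h' => disjoint_left.1 (𝒯.B.nS _) h' h⟩
  · obtain ⟨j, hj, rfl⟩ := mem_image.1 h
    have h1 := Box.mem_pts.1 hp j
    exact ⟨((𝒯.B.rich j).gp _ h1).1, fun o =>
      disjoint_left.1 (𝒯.B.dj j _ fun e => (mem_filter.1 hj).2 ⟨o, e.symm⟩) h1⟩

end Stp

end Pool.Agent.P.MP_8b7eba_nt.SM
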