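import Pool.Agent.P.MP_8b7eba_nt.SM.IfG
import Pool.Agent.P.MP_8b7eba_nt.SM.BasT

/-! Proof of STP0. -/

namespace Pool.Agent.P.MP_8b7eba_nt.SM

open Finset R2
open scoped Matrix

variable [HA]

theorem t_STP0 : STP0 := by
  intro k s M 𝒯 p hp q hq hi hV
  have hX : ∀ o j, q o j ∈ 𝒯.B.X (𝒯.e (some o)) := fun o j =>
    Fintype.mem_piFinset.1 (Fintype.mem_piFinset.1 hq o) j
  have hg : ∀ o j, Gp (q o j) := fun o j => ((𝒯.B.rich _).gp _ (hX o j)).1
  have hP : ∀ o j, q o j ∉ 𝒯.P p := fun o j h => (Stp.mem_P hp h).2 _ (hX o j)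
  have hne : ∀ {o o'}, o ≠ o' → 𝒯.e (some o) ≠ 𝒯.e (some o') := fun h e =>
    h (Option.some_injective _ (𝒯.e.injective e))
  have hn : ∀ o, 𝒯.e (some o) ≠ 𝒯.e none := fun o => 𝒯.e.injective.ne (Option.some_ne_none o)
  have hd : ∀ o j o' j', o ≠ o' → q o j ≠ q o' j' := fun o j o' j' h e =>
    disjoint_left.1 (𝒯.B.dj _ _ (hne h)) (hX o j) (e ▸ hX o' j')
  have h30 := fun o j => key30 (hg o j) (hg o 0) fun a ha =>
    𝒯.B.key _ _ (hX o j) _ (hX o 0) a (ha.mul_right _)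
  have v1 : ∀ o j i, i ∉ Set.range 𝒯.e → js (ps (q o j)) (p i) = 𝒯.a i (𝒯.e (some o)) := by
    intro o j i h
    have := hV (fun _ => j) i _ (fun e => h ⟨_, e.symm⟩) (hn o)
    rwa [Leg, if_neg fun e => h ⟨_, e.symm⟩, (asm_e _ _ _ _).2.1, (asm_e _ _ _ _).2.2 i h] at this
  have v2 : ∀ o j o' j', o ≠ o' →
      js (ps (q o j)) (q o' j') = 𝒯.a (𝒯.e (some o')) (𝒯.e (some o)) := by
    intro o j o' j' h
    have := hV (Function.update (fun _ => j) o' j') _ _ (hn o') (hn o)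
    rwa [Leg, if_neg (hne h.symm), (asm_e _ _ _ _).2.1, (asm_e _ _ _ _).2.1, gp, gp,
      Function.update_self, Function.update_of_ne h] at this
  have ar : GrA q (𝒯.P p) := by
    refine ⟨fun o j => ⟨hg o j, hP o j⟩, fun x hx => (Stp.mem_P hp hx).1, fun o j o' j' e => ?_,
      fun o j x hx g hgx => ?_, fun o j o' j' h g hgx => ?_, fun o j => (h30 o j).2⟩
    · obtain rfl : o = o' := by_contra fun h => hd o j o' j' h e
      exact ⟨rfl, hi o e⟩
    · rcases mem_union.1 hx with hx | hx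
      · have hx' := (Stp.mem_P hp hx).1
        refine keyp hx' (hg o j) (hg o 0) (fun e => hP o j (e ▸ hx)) (fun e => hP o 0 (e ▸ hx)) ?_
          hgx
        rcases mem_union.1 hx with h | h
        · rw [js_rec hx'.ne.2.2.2.2.1 (hg o j).ne.2.2.2.2.1,
            js_rec hx'.ne.2.2.2.2.1 (hg o 0).ne.2.2.2.2.1]
          exact Box.js_eq (hX o j) (hX o 0) (.inr ⟨x, h⟩)
        · obtain ⟨i, h', rfl⟩ := mem_image.1 h
          rw [v1 o j i (mem_filter.1 h').2, v1 o 0 i (mem_filter.1 h').2]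
      · exact (h30 o j).1 x hx g hgx
    · exact keyp (hg o' j') (hg o j) (hg o 0) (hd _ _ _ _ h.symm) (hd _ _ _ _ h.symm)
        (by rw [v2 o j o' j' h, v2 o 0 o' j' h]) hgx
  refine ⟨ar, ⟨fun i j => ⟨hg _ j, mem_union_right _ (mem_image.2 ⟨(i, j), mem_univ _, rfl⟩)⟩,
    mem_union_left _ (mem_union_right _ (by decide)), fun x hx => ?_⟩,
    fun j => ⟨hg _ j, fun hx => ?_, fun i j' => ar.aq (some i) j' none j (Option.some_ne_none i)⟩⟩
  · rcases mem_union.1 hx with hx | hx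
    · rcases mem_union.1 hx with hx | hx
      · exact (ar.gP x hx).1
      · exact (mem_T30.1 hx).1
    · obtain ⟨a, -, rfl⟩ := mem_image.1 hx
      exact (hg _ _).1
  · rcases mem_union.1 hx with hx | hx
    · rcases mem_union.1 hx with hx | hx
      · exact hP _ _ hx
      · exact (hg _ _).ne.2.2.2.1 hx
    · obtain ⟨a, -, e⟩ := mem_image.1 hx
      exact hd _ _ _ _ (Option.some_ne_none a.1) e

end Pool.Agent.P.MP_8b7eba_nt.SM
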