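import Pool.Agent.P.MP_8b7eba_nt.SM.IfG
import Pool.Agent.P.MP_8b7eba_nt.SM.BasT
import Pool.Agent.P.MP_8b7eba_nt.SM.BasM

/-! Proof of STP1. -/

namespace Pool.Agent.P.MP_8b7eba_nt.SM

open Finset R2
open scoped Matrix

variable [HA]

theorem TSTP1.phi {k s : ℕ} {𝒯 : Stp k s} {p : Fin 𝒯.B.r → ℕ} (hp : p ∈ 𝒯.B.pts) (y : ℕ)
    (β : Bool) {o : Option (Option (Fin k))} {u : ℕ} (hu : u ∈ 𝒯.B.X (𝒯.e o)) :
    𝒯.Φ p y β (tp u) = qs y (tp u) • 𝒯.R β (𝒯.e none) := by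
  rw [Stp.Φ, 𝒯.φ0 β _ u hu, zero_add, sum_eq_zero, zero_add]
  intro i hi
  have h := Stp.mem_P hp (q := p i) (mem_union_right _ (mem_image_of_mem p hi))
  rw [qs_tp ((𝒯.B.rich _).gp u hu).1 h.1, if_neg fun e : u = p i => h.2 o (e ▸ hu), zero_smul]

theorem t_STP1 (hGRID : GRID) (hSTP0 : STP0) : STP1 := by
  intro k s ε hk hε
  obtain ⟨M₀, hM⟩ := hGRID k s ε hk hε
  refine ⟨M₀, fun M hMM 𝒯 p hp θ q hq ok => ?_⟩
  have hX : ∀ i j, q i j ∈ 𝒯.X i := fun i j =>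
    Fintype.mem_piFinset.1 (Fintype.mem_piFinset.1 hq i) j
  let 𝒢 : Grid k M := ⟨q, 𝒯.P p, fun j => θ (low q) (q none j) + θ (low q) (q none 0),
    (hSTP0 k s M 𝒯 p hp q hq ok.inj ok.v).1, fun j => ok.gov j 0,
    funext fun μ => funext fun g => CharTwo.add_self_eq_zero _⟩
  obtain ⟨B, hB, hG⟩ := hM M hMM 𝒢 𝒯.Λ fun β => 𝒯.R β (𝒯.e (some none))
  refine ⟨B, by simpa using hB, fun y hy G hGB ht => ?_⟩
  unfold tyf at ht
  split_ifs at ht with h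
  obtain ⟨cp, hv⟩ := h
  have hGy : 𝒢.G y = G := Option.some.inj ht
  have leg : ∀ π, Leg (asm 𝒯.e p (gp q π) y) = 𝒯.a := fun π =>
    Stp.leg_of hp (fun o => hX o _) hy (cp π)
  have mem : ∀ π, asm 𝒯.e p (gp q π) y ∈ 𝒯.B.pts := fun π => Stp.asm_mem hp (fun o => hX o _) hy
  have eS : ∀ π, 𝒯.B.set (asm 𝒯.e p (gp q π) y) = 𝒢.S y π := fun π => Stp.set_asm
  have eP : ∀ β π, pat (𝒯.φ β) (𝒯.R β) (asm 𝒯.e p (gp q π) y) =
      𝒢.ph (𝒯.Φ p y β) (𝒯.R β (𝒯.e (some none))) π := fun β π =>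
    funext fun g => Stp.pat_asm β g
  have gy : Gp y := ((𝒯.B.rich _).gp y hy).1
  have gq : ∀ i j, Gp (q i j) := fun i j => ((𝒯.B.rich _).gp _ (hX i j)).1
  have nq : ∀ i j, q i j ≠ y := fun i j e => disjoint_left.1
    (𝒯.B.dj _ _ (𝒯.e.injective.ne (Option.some_ne_none i))) (hX i j) (e ▸ hy)
  have sy : ∀ i j, js (ps (q i j)) y = 𝒯.a (𝒯.e none) (𝒯.e (some i)) := fun i j =>
    (cp fun _ => j).2.2 i
  have pt : 𝒢.Pt y := ⟨gy, fun h => (Stp.mem_P hp h).2 none hy, nq, fun i j g hg =>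
    keyp gy (gq i j) (gq i 0) (nq i j).symm (nq i 0).symm ((sy i j).trans (sy i 0).symm) hg, hv⟩
  obtain ⟨-, C, hC, hC'⟩ := 𝒯.sel _ (mem 0) (leg 0)
  have key := hG y (𝒯.Φ p y) C pt
    (fun β z => by rw [← eS, ← eP]; exact (𝒯.sel _ (mem z) (leg z)).1 β)
    (fun β i j => by
      rw [TSTP1.phi hp y β (hX i j), qs_tp (gq i j) gy, if_neg (nq i j), zero_smul])
    𝒯.ra (by rw [TSTP1.phi hp y false hy, qs_tp gy gy, if_pos rfl, one_smul]; exact 𝒯.rb)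
    hC (fun χ h => hC' χ (eS 0 ▸ h)) (hGy ▸ hGB)
  have eW : ∀ n π, 𝒯.W n (asm 𝒯.e p (gp q π) y) ↔ ∀ β, 𝒯.Λ.WK (𝒢.S y π) n
      (𝒢.ph (𝒯.Φ p y β) (𝒯.R β (𝒯.e (some none))) π) := fun n π => by
    rw [Stp.W, eS, and_iff_right (leg π)]
    exact forall_congr' fun β => by rw [eP]
  rw [Fintype.card_option, Fintype.card_fin]
  refine le_of_eq_of_le (congrArg _ (congrArg _ (ext fun π => ?_))) (key.trans_eq
    (congrArg (fun t : Finset (Gz k M) => (t.card : ℝ) / 2 + ε * (M + 1) ^ (k + 1))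
      (ext fun π => ?_))) <;>
    simp only [mem_filter, eW]

end Pool.Agent.P.MP_8b7eba_nt.SM
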