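import Pool.Agent.P.MP_8b7eba_nt.SM.IfG
import Pool.Agent.P.MP_8b7eba_nt.SM.BasP

/-! Proof of STP2. -/

namespace Pool.Agent.P.MP_8b7eba_nt.SM

open Finset R2
open scoped Matrix

variable [HA]

theorem t_STP2 (hOG : OG) (hSTP0 : STP0) : STP2 := by
  classical
  intro k M
  obtain ⟨c, hc⟩ := hOG k M
  refine ⟨c, fun s 𝒯 T y₁ p hp θ hT hy hl ha hb q hq ok j j₀ hj e he b hb1 hb2 => ?_⟩
  have hq' : ∀ o i, q o i ∈ 𝒯.X o := fun o i =>
    Fintype.mem_piFinset.1 (Fintype.mem_piFinset.1 hq o) i
  obtain ⟨g1, -, g3⟩ := hSTP0 k s M 𝒯 p hp q hq ok.inj ok.v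
  refine hc (low q) (Qs (𝒯.P p) (low q)) (𝒯.X none) _ 𝒯.Y _ _ (𝒯.B.E + 2) T y₁ (q none j₀)
    (fun w => θ (low q) w + θ (low q) (q none j₀)) e b (fun i j' => ⟨(g1.gp _ _).1, ?_⟩)
    (fun i a i' a' h => ?_) ((𝒯.B.rich _).mono (Nat.le_add_right _ _))
    ((𝒯.B.rich _).mono (Nat.le_add_right _ _))
    (𝒯.B.dj _ _ (𝒯.e.injective.ne (Option.some_ne_none _))) (filter_subset _ _) hT
    (Nat.le_add_left _ _) hy ha hb (g1.gp _ _).1 (fun w hw => ?_) he hb1
    fun y _ h i j' => (hb2 y h i j').trans (hb2 y h i 0).symm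
  · exact ((𝒯.B.rich _).gp _ (hq' (some i) j')).2.2.trans (Nat.mul_le_mul_left _ (hl i))
  · exact ⟨Option.some_injective _ (g1.inj _ _ _ _ h).1, (g1.inj _ _ _ _ h).2⟩
  · obtain ⟨hw, ok'⟩ := mem_filter.1 hw
    have e1 : low (Function.update q none (Function.update (q none) j w)) = low q := by
      funext i
      exact Function.update_of_ne (Option.some_ne_none i) _ _
    have e2 : Function.update q none (Function.update (q none) j w) none j = w := by simp
    have e3 : Function.update q none (Function.update (q none) j w) none j₀ = q none j₀ := by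
      simp [hj.symm]
    have m : Function.update q none (Function.update (q none) j w) ∈ grids M 𝒯.X := by
      refine Fintype.mem_piFinset.2 fun o => Fintype.mem_piFinset.2 fun i => ?_
      rcases o with _ | o
      · rw [Function.update_self]
        by_cases h : i = j
        · rw [h, Function.update_self]; exact hw
        · rw [Function.update_of_ne h]; exact hq' _ _
      · rw [Function.update_of_ne (Option.some_ne_none o)]; exact hq' _ _
    have h1 := (hSTP0 k s M 𝒯 p hp _ m ok'.inj ok'.v).2.2 j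
    have h2 := ok'.gov j j₀
    rw [e1, e2] at h1
    rw [e1, e2, e3] at h2
    exact ⟨fun h => hj (ok'.inj none (e2.trans (h.trans e3.symm))), h1, h2⟩

end Pool.Agent.P.MP_8b7eba_nt.SM
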