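import Pool.Agent.P.MP_8b7eba_nt.SM.IfG
import Pool.Agent.P.MP_8b7eba_nt.SM.BasT

/-! Proof of STP4. -/

namespace Pool.Agent.P.MP_8b7eba_nt.SM

open Finset R2
open scoped Matrix

namespace TSTP4

theorem card_Qs {k M : ℕ} (P : Finset ℕ) (u : Fin k → Fin (M + 1) → ℕ) :
    (Qs P u).card ≤ P.card + 3 + k * (M + 1) := by
  unfold Qs
  refine (card_union_le _ _).trans (Nat.add_le_add ((card_union_le _ _).trans
    (Nat.add_le_add_left ?_ _)) (card_image_le.trans ?_))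
  · unfold T30
    exact card_le_three
  · rw [card_univ, Fintype.card_prod, Fintype.card_fin, Fintype.card_fin]

end TSTP4

variable [HA]

theorem t_STP4 (hSUP : SUP) (hGOVX : GOVX) (hSTP0 : STP0) : STP4 := by
  classical
  intro k s M 𝒯 p hp
  have hc : ∀ u : Fin k → Fin (M + 1) → ℕ,
      (Qs (𝒯.P p) u).card ≤ 𝒯.B.r + 𝒯.B.S.card + 3 + k * (M + 1) := fun u =>
    (TSTP4.card_Qs _ u).trans
      (Nat.add_le_add_right (Nat.add_le_add_right (𝒯.card_P p) _) _)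
  choose cls θ h0 hg using fun u => hGOVX k M _ u _ (hc u)
  refine ⟨θ, h0, fun U hU hV δ x hδ hd hx hX => ?_⟩
  have h := hSUP k M _ 𝒯.X U cls δ x hδ hU hd hx hX
  rw [Nat.cast_pow, Nat.cast_ofNat] at h
  refine h.trans ?_
  refine Nat.cast_le.2 (card_le_card fun q hq => ?_)
  rw [mem_filter] at hq ⊢
  obtain ⟨hq, h1, h2, h3⟩ := hq
  obtain ⟨-, a2, a3⟩ := hSTP0 k s M 𝒯 p hp q hq h1 fun π => hV _ (h2 π)
  exact ⟨hq, ⟨h1, fun π => hV _ (h2 π), fun j j' =>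
    hg (low q) a2 _ _ (a3 j) (a3 j') ((h3 j).trans (h3 j').symm)⟩, h2⟩

end Pool.Agent.P.MP_8b7eba_nt.SM
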