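import Pool.Agent.P.MP_8b7eba_nt.SM.IfC

/-! Proof of STR2. -/

namespace Pool.Agent.P.MP_8b7eba_nt.SM

open Finset

namespace TSTR2

/-- functions which are divisible by `2 ^ n` on `Y` -/
def W {Z : Type} (n : ℕ) (Y : Z → Prop) : Submodule Z2 (Z → Z2) where
  carrier := {f | ∀ z, Y z → 2 ^ n ∣ f z}
  add_mem' := fun ha hb z hz => dvd_add (ha z hz) (hb z hz)
  zero_mem' := fun _ _ => dvd_zero _
  smul_mem' := fun c _ h z hz => (h z hz).mul_left c

theorem nd (k : ℕ) : ¬ (2 : Z2) ^ (k + 1) ∣ 2 ^ k := fun h => by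
  rw [pow_succ] at h
  have h2 : (2 : Z2) ∣ 1 :=
    (mul_dvd_mul_iff_left (pow_ne_zero k two_ne_zero)).1 (by rwa [mul_one])
  exact (PadicInt.prime_p (p := 2)).not_dvd_one (by exact_mod_cast h2)

theorem cnt {Z : Type} [Fintype Z] (k : ℕ) (Y : Z → Prop) (G : Finset (Z → Z2)) :
    ∃ 𝒱 : Finset (Z → F2), 𝒱.card ≤ 2 ^ ((k + 1) * G.card) ∧ ∀ H : Z → F2,
      (fun z => (2 : Z2) ^ k * ((H z).val : Z2)) ∈ Submodule.span Z2 (G : Set (Z → Z2)) ⊔ W (k + 1) Y →
      ∃ v ∈ 𝒱, ∀ z, Y z → H z = v z := by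
  classical
  refine ⟨univ.image fun a : G → Fin (2 ^ (k + 1)) => fun z =>
    if (2 : Z2) ^ (k + 1) ∣ ∑ p : G, ((a p : ℕ) : Z2) * p.1 z then 0 else 1, ?_, fun H hH => ?_⟩
  · refine card_image_le.trans_eq ?_
    rw [card_univ, Fintype.card_fun, Fintype.card_fin, Fintype.card_coe, pow_mul]
  obtain ⟨f, hf, w, hw, e⟩ := Submodule.mem_sup.1 hH
  obtain ⟨c, rfl⟩ := Submodule.mem_span_finset'.1 hf
  refine ⟨_, mem_image_of_mem _ (mem_univ fun p => ⟨(c p).appr (k + 1), PadicInt.appr_lt _ _⟩),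
    fun z hz => ?_⟩
  have h1 : (2 : Z2) ^ (k + 1) ∣ 2 ^ k * ((H z).val : Z2) -
      ∑ p : G, (((c p).appr (k + 1) : ℕ) : Z2) * p.1 z := by
    have e1 := congrFun e z
    simp only [Pi.add_apply, Finset.sum_apply, Pi.smul_apply, smul_eq_mul] at e1
    rw [← e1, add_sub_right_comm, ← sum_sub_distrib]
    refine dvd_add (dvd_sum fun p _ => ?_) (hw z hz)
    rw [← sub_mul]
    exact Dvd.dvd.mul_right (by
      exact_mod_cast Ideal.mem_span_singleton.1 (PadicInt.appr_spec (k + 1) (c p))) _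
  have h2 : ∀ a : F2, a = 0 ∨ a = 1 := by decide
  rcases h2 (H z) with h | h
  · rw [h, ZMod.val_zero, Nat.cast_zero, mul_zero, zero_sub, dvd_neg] at h1
    rw [h]; exact (if_pos h1).symm
  · rw [h, ZMod.val_one, Nat.cast_one, mul_one] at h1
    rw [h]
    exact (if_neg fun a => nd k (by simpa using dvd_add h1 a)).symm

variable {k M : ℕ}

/-- the generators of `Lam` -/
noncomputable def e (U : Finset (Option (Fin k))) (ζ : Gz k M) : Gz k M → Z2 :=
  fun z => if ∀ i ∈ U, z i = ζ i then 2 ^ U.card else 0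

open Classical in
/-- the generators of small degree -/
noncomputable def E (k M j : ℕ) : Finset (Gz k M → Z2) :=
  (univ.filter fun U : Finset (Option (Fin k)) => U.card ≤ j).biUnion fun U =>
    (Fintype.piFinset fun i => if i ∈ U then univ else {0}).image (e U)

theorem card_E (j : ℕ) : (E k M j).card ≤ 2 ^ (k + 1) * (M + 1) ^ j := by
  classical
  refine card_biUnion_le.trans ((sum_le_card_nsmul _ _ ((M + 1) ^ j) fun U hU => ?_).trans ?_)
  · refine card_image_le.trans ?_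
    rw [Fintype.card_piFinset]
    simp only [apply_ite card, card_univ, Fintype.card_fin, card_singleton, prod_ite_mem,
      univ_inter, prod_const]
    exact Nat.pow_le_pow_right (Nat.succ_pos M) (mem_filter.1 hU).2
  · refine Nat.mul_le_mul_right _ ((card_filter_le _ _).trans_eq ?_)
    simp

theorem mem_E {j : ℕ} {U : Finset (Option (Fin k))} {ζ : Gz k M} (h : ∀ i, i ∉ U → ζ i = 0)
    (hU : U.card ≤ j) : e U ζ ∈ E k M j := by
  classical
  refine mem_biUnion.2 ⟨U, mem_filter.2 ⟨mem_univ _, hU⟩, mem_image_of_mem _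
    (Fintype.mem_piFinset.2 fun i => ?_)⟩
  split_ifs with a
  exacts [mem_univ _, mem_singleton.2 (h i a)]

theorem dvd_e {j : ℕ} {U : Finset (Option (Fin k))} (ζ z : Gz k M) (hU : j ≤ U.card) :
    (2 : Z2) ^ j ∣ e U ζ z := by
  unfold e
  split_ifs
  exacts [pow_dvd_pow _ hU, dvd_zero _]

theorem lam_mul (hLAM : LAM) {K : Submodule Z2 (Gz k M → Z2)} {x : Gz k M → Z2} (j : ℕ)
    (h1 : ∀ g ∈ E k M j, g * x ∈ K) (h2 : ∀ g, (∀ z, 2 ^ (j + 1) ∣ g z) → g * x ∈ K) :
    ∀ l ∈ Lam k M, l * x ∈ K := fun l hl => by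
  refine Submodule.span_le (p := K.comap (LinearMap.mulRight Z2 x)) |>.2 ?_ ((hLAM k M).2 l hl)
  rintro _ ⟨U, ζ, h, rfl⟩
  rcases le_or_gt U.card j with a | a
  exacts [h1 _ (mem_E h a), h2 _ fun z => dvd_e ζ z a]

end TSTR2

open TSTR2 in
theorem t_STR2 (hLAM : LAM) (hDUAL : DUAL) : STR2 := by
  classical
  intro k s hk
  refine ⟨(k + 1) * ((2 * s + 1) * 2 ^ (k + 1)), fun M T _ A₁ A₂ Y ξ h1 h2 h3 => ?_⟩
  obtain ⟨j, rfl⟩ : ∃ j, k = j + 1 := ⟨k - 1, by omega⟩
  let G : Finset (Gz (j + 1) M → Z2) := E (j + 1) M (j + 1) ∪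
    A₁.biUnion (fun t => (E (j + 1) M (j + 1)).image (· * fun z => ξ z t)) ∪
    A₂.biUnion fun t => (E (j + 1) M j).image (· * fun z => ξ z t)
  obtain ⟨𝒱, c1, c2⟩ := cnt (j + 1) Y G
  refine ⟨𝒱, c1.trans (Nat.pow_le_pow_right two_pos ?_), fun H hH => c2 H ?_⟩
  · rw [mul_assoc]
    refine Nat.mul_le_mul_left _ ((card_union_le _ _).trans ((add_le_add ((card_union_le _ _).trans
      (add_le_add (card_E _) (card_biUnion_le.trans ((sum_le_card_nsmul _ _ _ fun t _ =>
        card_image_le.trans (card_E _)).trans (Nat.mul_le_mul_right _ h1)))))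
      (card_biUnion_le.trans ((sum_le_card_nsmul _ _ _ fun t _ =>
        card_image_le.trans (card_E _)).trans
          (Nat.mul_le_mul_right _ ((card_le_univ A₂).trans h2))))).trans_eq ?_))
    ring
  set K := Submodule.span Z2 (G : Set (Gz (j + 1) M → Z2)) ⊔ W (j + 1 + 1) Y
  have kG : ∀ g ∈ G, g ∈ K := fun g hg => Submodule.mem_sup_left (Submodule.subset_span hg)
  have kW : ∀ f : Gz (j + 1) M → Z2, (∀ z, Y z → 2 ^ (j + 1 + 1) ∣ f z) → f ∈ K :=
    fun f hf => Submodule.mem_sup_right hf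
  have k0 : ∀ l ∈ Lam (j + 1) M, l ∈ K := fun l hl => by
    simpa using lam_mul hLAM (K := K) (x := 1) (j + 1)
      (fun g hg => kG _ (by rw [mul_one]; exact mem_union_left _ (mem_union_left _ hg)))
      (fun g hg => kW _ fun z _ => (hg z).mul_right _) l hl
  have k1 : ∀ t, t ∈ A₁ ∨ t ∈ A₂ → ∀ l ∈ Lam (j + 1) M, (l * fun z => ξ z t) ∈ K := by
    rintro t (ht | ht)
    · exact lam_mul hLAM (j + 1) (fun g hg => kG _ (mem_union_left _ (mem_union_right _
        (mem_biUnion.2 ⟨t, ht, mem_image_of_mem _ hg⟩))))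
        fun g hg => kW _ fun z _ => (hg z).mul_right _
    · exact lam_mul hLAM j (fun g hg => kG _ (mem_union_right _
        (mem_biUnion.2 ⟨t, ht, mem_image_of_mem _ hg⟩)))
        fun g hg => kW _ fun z hz => pow_succ (2 : Z2) (j + 1) ▸ mul_dvd_mul (hg z) (h3 z hz t ht)
  refine hDUAL _ (j + 1 + 1) K (fun f hf => kW f fun z _ => hf z) _ fun c hc => ?_
  have off : ∀ z, ¬ Y z → 2 ^ (j + 1 + 1) ∣ c z := fun z hz => by
    have := hc (Pi.single z 1) (kW _ fun y hy => by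
      rw [Pi.single_eq_of_ne (fun a : y = z => hz (a ▸ hy))]; exact dvd_zero _)
    simpa [Pe, Pi.single_apply] using this
  have cut : ∀ f, Pe (j + 1 + 1) c f ↔ Pe (j + 1 + 1) (fun z => if Y z then c z else 0) f := fun f => by
    refine dvd_iff_dvd_of_dvd_sub ?_
    rw [← sum_sub_distrib]
    refine dvd_sum fun z _ => ?_
    dsimp only
    split_ifs with a
    · rw [sub_self]; exact dvd_zero _
    · rw [zero_mul, sub_zero]; exact (off z a).mul_right _
  have o := hH (fun z => if Y z then c z else 0) (fun z hz => by_contra fun a => hz (if_neg a))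
    (fun l hl => (cut l).1 (hc l (k0 l hl))) fun l hl t ht => (cut _).1 (hc _ (k1 t ht l hl.1))
  have o2 : (∑ z, (if Y z then c z else 0) * ((H z).val : Z2)) ∈
      RingHom.ker (PadicInt.toZMod : Z2 →+* ZMod 2) := by
    rw [RingHom.mem_ker, map_sum, ← o]
    exact sum_congr rfl fun z _ => by rw [map_mul, map_natCast, ZMod.natCast_zmod_val]
  rw [PadicInt.ker_toZMod, PadicInt.maximalIdeal_eq_span_p, Ideal.mem_span_singleton] at o2
  rw [cut, Pe]
  simp only [mul_left_comm _ ((2 : Z2) ^ (j + 1)), ← mul_sum]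
  rw [pow_succ]
  exact mul_dvd_mul_left _ (by exact_mod_cast o2)

end Pool.Agent.P.MP_8b7eba_nt.SM
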