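import Pool.Agent.P.MP_8b7eba_nt.SM.IfG
import Pool.Agent.P.MP_8b7eba_nt.SM.BasM

/-! Proof of SUB. -/

namespace Pool.Agent.P.MP_8b7eba_nt.SM

open Finset R2
open scoped Matrix

variable [HA]

theorem t_SUB : SUB := by
  rintro k M s 𝒮 hk z δ ⟨x, hx, hδ⟩
  have d1 : ∀ β (l : Sl k M), Dv k (x β (tp (𝒮.q l.1 l.2)) - tq (𝒮.R β) z l -
      fun i => δ (β, i, .inr (.inl l))) := fun β l i => hδ (β, i, .inr (.inl l))
  have d2 : ∀ β (l : Sl k M), Dv k (x β (fr (𝒮.q l.1 l.2)) -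
      𝒮.m (fr (𝒮.q l.1 l.2)) z • lf (𝒮.R β) - fun i => δ (β, i, .inr (.inr l))) :=
    fun β l i => hδ (β, i, .inr (.inr l))
  refine ⟨fun β l => ⟨fun h => ?_, fun h => ?_⟩, fun t ht => ?_⟩
  · have hp := BasM.gq 𝒮.toGrid l.1 l.2
    have e := pl_p hp.1
    have h1 := (hx β).1.unr (pl (𝒮.q l.1 l.2)) (by rw [e]; exact hp.2)
      (by rw [e]; exact fun hm => h ((Grid.q_mem 𝒮.pt _ _).1 hm)) _ (tp_I hp.1 hp.ne.1)
    exact BasZ.of_eq (h1.sub (d1 β l)) (by abel)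
  · have hp := BasM.gq 𝒮.toGrid l.1 l.2
    have h1 := (hx β).1.locp (Grid.S_gp 𝒮.pt z) ((Grid.q_mem 𝒮.pt _ _).2 h)
    have e : 𝒮.e l = chi (𝒮.S 𝒮.y z) (fr (𝒮.q l.1 l.2)) :=
      Grid.chi_q 𝒮.pt (fr_D hp.1 hp.ne.1) (by rw [Function.update_self, h])
    rw [← e] at h1
    refine BasZ.of_eq ((h1.sub (d2 β l)).sub
      ((d1 β l).mulVec (𝒮.Λ.hh (𝒮.e l) (fr (𝒮.q l.1 l.2))))) ?_
    simp only [Matrix.mulVec_add, Matrix.mulVec_sub]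
    abel
  · obtain ⟨β, i, t⟩ := t
    obtain ⟨l, rfl⟩ : ∃ l, t = .inr (.inl l) := (mem_filter.1 ht).2
    have h1 : Dv 1 (x β (tp (𝒮.q l.1 l.2)) - tq (𝒮.R β) z l) :=
      rd_eq.1 (((hx β).2 _).trans (𝒮.ph_tp β z l))
    have h2 := (h1.sub ((d1 β l).mono hk)) i
    simpa using h2

end Pool.Agent.P.MP_8b7eba_nt.SM
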