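import Pool.Agent.P.MP_8b7eba_nt.SM.IfG
import Pool.Agent.P.MP_8b7eba_nt.SM.BasM
import Pool.Agent.P.MP_8b7eba_nt.SM.BasN

/-! Proof of SUMF. -/

namespace Pool.Agent.P.MP_8b7eba_nt.SM

open Finset R2
open scoped Matrix

variable [HA]

theorem t_SUMF (hSUML : SUML) : SUMF := by
  intro k M s 𝒮 η c x l h
  obtain ⟨h1, h2, h3⟩ := hSUML k M 𝒮.toGrid 𝒮.Λ 𝒮.y _ _ η c x l h
  obtain ⟨-, p2, p3, p4⟩ := 𝒮.psi
  have hS : ∀ p ∈ insert 𝒮.y 𝒮.P ∪ T30, p.Prime := fun p hp => by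
    rcases mem_union.1 hp with hp | hp
    · rcases mem_insert.1 hp with rfl | hp
      · exact 𝒮.pt.gp.1
      · exact (𝒮.ar.gP p hp).1
    · exact (mem_T30.1 hp).1
  have h4 := recp_iv hS (co2_d2 h.ch.1 p2) h2 fun w hw => by
    have a1 : ¬ w.p ∣ 30 := fun e => hw (mem_union_right _ (mem_T30.2 ⟨w.prime, e⟩))
    have a2 : w.p ∉ 𝒮.P := fun e => hw (mem_union_left _ (mem_insert_of_mem e))
    have a3 : w.p ≠ 𝒮.y := fun e => hw (mem_union_left _ (mem_insert.2 (Or.inl e)))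
    by_cases a4 : ∀ i j, w.p ≠ 𝒮.q i j
    · exact triv_d2_unr (h.ch.1.mono le_top) (p2.mono le_top) fun g hg =>
        ⟨h3 w a1 a2 a3 a4 g hg, p4 w a1 a2 a3 g hg⟩
    · push Not at a4
      obtain ⟨i, j, e⟩ := a4
      refine Triv.one.congr fun g _ g' hg' => ?_
      have a5 := ch_D_top p2 (fun g hg => p3 i j g (e ▸ hg)) hg'
      simp [sgn, d2, a5]
  rw [sum_congr rfl h1, sum_comm] at h4
  rw [← h4]
  refine sum_congr rfl fun z _ => ?_
  rw [← mul_sum, sum_add_distrib, sum_ite_eq', if_pos (mem_union_left _ (mem_insert_self _ _)),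
    𝒮.Ry, mul_one]

end Pool.Agent.P.MP_8b7eba_nt.SM
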