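import Pool.Agent.P.MP_8b7eba_nt.SM.BasZ
import Pool.Agent.P.MP_8b7eba_nt.R2.LC

/-! Cup products. -/

namespace Pool.Agent.P.MP_8b7eba_nt.SM

open Finset R2
open scoped Matrix

namespace BasW

/-- the additive character at level `n` -/
noncomputable def en (n : ℕ) (a : Z2) : Om := ec ((a : ℚ_[2]) / 2 ^ n)

variable {n : ℕ} {a b : Z2} {u v : VZ}

theorem dz_add_l (u u' v : VZ) : dz (u + u') v = dz u v + dz u' v := by
  simp only [dz, Pi.add_apply]; ring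

theorem dz_add_r (u v v' : VZ) : dz u (v + v') = dz u v + dz u v' := by
  simp only [dz, Pi.add_apply]; ring

theorem dz_sub_l (u u' v : VZ) : dz (u - u') v = dz u v - dz u' v := by
  simp only [dz, Pi.sub_apply]; ring

theorem dz_sub_r (u v v' : VZ) : dz u (v - v') = dz u v - dz u v' := by
  simp only [dz, Pi.sub_apply]; ring

theorem dz_smul_l (c : Z2) (u v : VZ) : dz (c • u) v = c * dz u v := by
  simp only [dz, Pi.smul_apply, smul_eq_mul]; ring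

theorem dz_smul_r (c : Z2) (u v : VZ) : dz u (c • v) = c * dz u v := by
  simp only [dz, Pi.smul_apply, smul_eq_mul]; ring

theorem dv_l (h : Dv n u) (v : VZ) : 2 ^ n ∣ dz u v :=
  dvd_sub ((h 0).mul_right _) ((h 1).mul_right _)

theorem dv_r (u : VZ) (h : Dv n v) : 2 ^ n ∣ dz u v :=
  dvd_sub ((h 1).mul_left _) ((h 0).mul_left _)

theorem en_shift (n e : ℕ) (a : Z2) : en (n + e) (2 ^ e * a) = en n a := by
  unfold en
  congr 1
  have : ((2 : Z2) : ℚ_[2]) = 2 := rfl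
  push_cast
  rw [this, pow_add]
  field_simp

variable [HA]

theorem hE : EC := HA.cf.toCB.toCA.ec

theorem en_add (n : ℕ) (a b : Z2) : en n (a + b) = en n a * en n b := by
  unfold en
  rw [← hE.1.add, PadicInt.coe_add, add_div]

theorem en_one (h : 2 ^ n ∣ a) : en n a = 1 := by
  obtain ⟨c, rfl⟩ := h
  have := en_shift 0 n c
  rw [zero_add] at this
  rw [this, en, hE.1.eq_one]
  simpa using c.2

theorem en_congr (h : 2 ^ n ∣ a - b) : en n a = en n b := by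
  rw [← sub_add_cancel a b, en_add, en_one h, one_mul]

theorem en_ne (n : ℕ) (a : Z2) : en n a ≠ 0 := fun h => by
  have := en_add n a (-a)
  rw [add_neg_cancel, h, zero_mul, en_one (dvd_zero _)] at this
  exact one_ne_zero this

theorem en_gal (σ : GQ) (n : ℕ) (a : Z2) : σ (en n a) = en n (cyc σ * a) := by
  unfold en
  rw [hE.1.gal, PadicInt.coe_mul, mul_div_assoc]

theorem en_nat (n k : ℕ) (a : Z2) : en n a ^ k = en n (k * a) := by
  induction k with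
  | zero => simp [en_one]
  | succ k ih => rw [pow_succ, ih, ← en_add]; congr 1; push_cast; ring

theorem en_pow (n : ℕ) (a : Z2) : en n a ^ 2 ^ n = 1 := by
  rw [en_nat]
  exact en_one (by push_cast; exact dvd_mul_right _ _)

theorem en_half (a : Z2) : en 1 a = (-1) ^ (PadicInt.toZMod a : F2).val := by
  have h : Dv 1 ((fun _ => a) - lf (rd fun _ => a)) := rd_eq.1 (rd_lf _).symm
  rw [en_congr (b := ((PadicInt.toZMod a : F2).val : Z2)) (h 0), en, pow_one]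
  exact ec_half hE (by simp)

theorem triv {H : Subgroup GQ} {Φ : GQ → GQ → Z2} (f : GQ → Z2)
    (hs : ∃ N, ON N ∧ ∀ g ∈ H, ∀ k ∈ H, k ∈ N → 2 ^ n ∣ f (g * k) - f g)
    (hc : ∀ g ∈ H, ∀ h ∈ H, Φ g h = cyc g * f h - f (g * h) + f g) :
    Triv H fun g h => en n (Φ g h) := by
  obtain ⟨N, hN, hs⟩ := hs
  refine ⟨fun g => en n (f g), ⟨N, hN, fun g hg k hk m => en_congr (hs g hg k hk m)⟩,
    fun g _ => en_ne _ _, fun g hg h hh => ?_⟩
  beta_reduce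
  rw [hc g hg h hh, en_gal, ← en_add, ← en_add]
  congr 1
  ring

omit [HA] in
theorem sm_dv {H : Subgroup GQ} {ψ : GQ → F2} {Λ : Lat} {x : GQ → VZ} (h : Λ.Zn ψ H n x) :
    ∃ N, ON N ∧ ∀ g ∈ H, ∀ k ∈ H, k ∈ N → Dv n (x (g * k) - x g) := by
  obtain ⟨N, hN, e⟩ := h.sm
  exact ⟨N, hN, fun g hg k hk m => rn_eq.1 (e g hg k hk m)⟩

end BasW

open BasW

variable [HA] {n m : ℕ} {H : Subgroup GQ} {ψ : GQ → F2} {Λ : Lat} {x x' y y' : GQ → VZ}
  {o : Prop} {g h : GQ} {w : Pl} {l : X2}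

omit [HA] in
theorem Lat.wp_eq (Λ : Lat) (ψ : GQ → F2) (n : ℕ) (x y : GQ → VZ) (g h : GQ) :
    Λ.wp ψ n x y g h = en n (dz (x g) (Λ.rt ψ g *ᵥ y h)) := rfl

theorem Lat.wp_co (hψ : IsCh H ψ) (hx : Λ.Zn ψ H n x) (hy : Λ.Zn ψ H n y) :
    Co2T H (Λ.wp ψ n x y) := by
  refine Co2T.of_pow (k := n) ⟨fun g _ k _ => en_ne _ _, ?_, fun g hg k hk l hl => ?_⟩
    fun g _ k _ => en_pow _ _
  · obtain ⟨N, hN, e⟩ := sm_dv hx
    obtain ⟨N', hN', e'⟩ := sm_dv hy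
    obtain ⟨M, hM, e''⟩ := Λ.sm_rt hψ n
    refine ⟨_, hM.inf (hN.inf hN'), fun g hg k hk i hi m => ⟨en_congr ?_, en_congr ?_⟩⟩
    · rw [← sub_add_sub_cancel _ (dz (x (g * i)) (Λ.rt ψ g *ᵥ y k)), ← dz_sub_r,
        ← dz_sub_l, Λ.rt_mul hψ hg hi, ← Matrix.mulVec_mulVec, ← Matrix.mulVec_sub]
      exact dvd_add (dv_r _ ((e'' i hi m.1 _).mulVec _)) (dv_l (e g hg i hi m.2.1) _)
    · rw [← dz_sub_r, ← Matrix.mulVec_sub]
      exact dv_r _ ((e' k hk i hi m.2.2).mulVec _)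
  · simp only [Lat.wp_eq]
    rw [en_gal, ← en_add, ← en_add]
    refine en_congr ?_
    have h1 := dvd_sub (dv_r (x g) ((hy.co k hk l hl).mulVec (Λ.rt ψ g)))
      (dv_l (hx.co g hg k hk) (Λ.rt ψ g *ᵥ (Λ.rt ψ k *ᵥ y l)))
    rw [Matrix.mulVec_sub, Matrix.mulVec_sub, dz_sub_r, dz_sub_r, dz_sub_l, dz_sub_l,
      Λ.dz_rt] at h1
    rw [Λ.rt_mul hψ hg hk, ← Matrix.mulVec_mulVec]
    refine (congrArg _ ?_).mp h1
    ring

theorem Lat.wp_congr (e : Dv n (x' g - x g)) (e' : Dv n (y' h - y h)) :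
    Λ.wp ψ n x' y' g h = Λ.wp ψ n x y g h := by
  refine en_congr ?_
  rw [← sub_add_sub_cancel _ (dz (x g) (Λ.rt ψ g *ᵥ y' h)), ← dz_sub_r, ← dz_sub_l,
    ← Matrix.mulVec_sub]
  exact dvd_add (dv_l e _) (dv_r _ (e'.mulVec _))

theorem Lat.wp_add (Λ : Lat) (ψ : GQ → F2) (n : ℕ) (x x' y : GQ → VZ) :
    Λ.wp ψ n (fun g => x g + x' g) y = Λ.wp ψ n x y * Λ.wp ψ n x' y := by
  funext g h
  simp only [Pi.mul_apply, Lat.wp_eq]
  rw [dz_add_l, en_add]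

theorem Lat.wp_pow (Λ : Lat) (ψ : GQ → F2) (n : ℕ) (l : X2) (y : GQ → VZ) :
    Λ.wp ψ (n + 1) (fun g => (2 : Z2) ^ n • lf (l g)) y = sgn (d2 l fun g => rd (y g)) := by
  funext g h
  rw [Lat.wp_eq, dz_smul_l, add_comm n 1, en_shift, en_half, sgn]
  congr 2
  have h1 := congrFun (rd_lf (l g))
  have h2 := congrFun (Λ.rd_rt ψ g (y h))
  simp only [rd] at h1 h2
  rw [dz, map_sub, map_mul, map_mul, h1, h1, h2, h2, d2, CharTwo.sub_eq_add]
  rfl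

theorem Lat.wp_iso (hψ : IsCh H ψ) (ho : o → H ≤ (pl 2).D) (hx : Λ.Lc o ψ H n x)
    (hy : Λ.Lc o ψ H n y) : Triv H (Λ.wp ψ n x y) := by
  obtain ⟨b, ⟨hb, e, v, hv⟩, h1⟩ := hx
  obtain ⟨b', ⟨hb', e', v', hv'⟩, h1'⟩ := hy
  have ha : ∀ k, Λ.Zn ψ H k fun g => (2 : Z2) ^ e • b g - Λ.bd ψ v g :=
    fun k => ((hb k).smul _).sub (Lat.zn_bd hψ v)
  set a : GQ → VZ := fun g => (2 : Z2) ^ e • b g - Λ.bd ψ v g with hadef
  have key : Triv H fun g h => en (n + (e + e'))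
      (2 ^ (e + e') * dz (b g) (Λ.rt ψ g *ᵥ b' h)) := by
    refine triv (fun g => 2 ^ e' * dz v (b' g) - dz (a g) (Λ.rt ψ g *ᵥ v')) ?_
      fun g hg h hh => ?_
    · obtain ⟨N, hN, s1⟩ := sm_dv (ha (n + (e + e')))
      obtain ⟨N', hN', s2⟩ := sm_dv (hb' (n + (e + e')))
      obtain ⟨M, hM, s3⟩ := Λ.sm_rt hψ (n + (e + e'))
      refine ⟨_, hM.inf (hN.inf hN'), fun g hg k hk m => ?_⟩
      have := dvd_sub ((dv_r v (s2 g hg k hk m.2.2)).mul_left (2 ^ e'))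
        (dvd_add (dv_l (s1 g hg k hk m.2.1) (Λ.rt ψ g *ᵥ (Λ.rt ψ k *ᵥ v')))
          (dv_r (a g) ((s3 k hk m.1 v').mulVec (Λ.rt ψ g))))
      rw [Λ.rt_mul hψ hg hk, ← Matrix.mulVec_mulVec]
      rw [Matrix.mulVec_sub, dz_sub_r, dz_sub_r, dz_sub_l] at this
      refine (congrArg _ ?_).mp this
      ring
    · have q1 := Lat.Zn.exact hb' hg hh
      have q2 : a (g * h) = a g + Λ.rt ψ g *ᵥ a h := Lat.Zn.exact ha hg hh
      have q3 : dz (a g) (Λ.rt ψ g *ᵥ ((2 : Z2) ^ e' • b' h - Λ.bd ψ v' h)) = 0 := by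
        have z1 : a g 1 = 0 := sub_eq_zero.2 (hv g hg).1
        have z2 : ((2 : Z2) ^ e' • b' h - Λ.bd ψ v' h) 1 = 0 := sub_eq_zero.2 (hv' h hh).1
        rw [dz, z1, zero_mul, sub_zero]
        by_cases hoo : o
        · have z3 : Λ.rt ψ g 1 0 = 0 := by
            simp [Lat.rt, Λ.up g (ho hoo hg)]
          simp only [Matrix.mulVec, dotProduct, Fin.sum_univ_two]
          rw [z2, z3]
          simp
        · have z4 : a g 0 = 0 := sub_eq_zero.2 ((hv g hg).2 hoo)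
          rw [z4, zero_mul]
      have q4 : (2 : Z2) ^ e • b g = Λ.rt ψ g *ᵥ v - v + a g := by
        simp only [hadef, Lat.bd]
        abel
      have q5 : 2 ^ (e + e') * dz (b g) (Λ.rt ψ g *ᵥ b' h) =
          2 ^ e' * dz ((2 : Z2) ^ e • b g) (Λ.rt ψ g *ᵥ b' h) := by
        rw [dz_smul_l]; ring
      rw [Lat.bd, Matrix.mulVec_sub, Matrix.mulVec_sub, Matrix.mulVec_smul, dz_sub_r, dz_sub_r,
        dz_smul_r] at q3
      beta_reduce
      rw [q5, q4, q1, q2, Λ.rt_mul hψ hg hh, ← Matrix.mulVec_mulVec, dz_add_l, dz_sub_l, dz_add_r,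
        dz_add_l, Λ.dz_rt, Λ.dz_rt]
      linear_combination q3
  refine key.congr fun g hg h hh => ?_
  rw [en_shift, Lat.wp_congr (h1 g hg) (h1' h hh), Lat.wp_eq]

theorem Lat.wp_unr (hw : ¬ w.p ∣ 30) (hψ : IsCh w.D ψ) (hu : ∀ g ∈ w.I, ψ g = 0)
    (hx : Λ.Zn ψ w.D n x) (hy : Λ.Zn ψ w.D n y) (h0 : ∀ g ∈ w.I, Dv n (x g) ∧ Dv n (y g)) :
    Triv w.D (Λ.wp ψ n x y) := by
  have h2 : w.p ≠ 2 := fun h => hw (by rw [h]; norm_num)
  have k : ∀ {c : GQ → VZ}, Λ.Zn ψ w.D n c → ∀ g ∈ w.D, ∀ i ∈ w.D, Dv n (c i) →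
      Dv n (c (g * i) - c g) := fun {c} hc g hg i hi h => by
    rw [← sub_add_cancel (c (g * i) - c g) (Λ.rt ψ g *ᵥ c i)]
    exact (hc.co g hg i hi).add (h.mulVec _)
  refine HA.cf.toCB.toCA.unr w w.D w.loc_D n _ (Lat.wp_co hψ hx hy).1 (fun g _ h _ => en_pow _ _)
    fun g hg h hh i hi => ⟨?_, ?_, ?_⟩
  · have hr : Λ.rt ψ (g * i) = Λ.rt ψ g := by
      have : Λ.rt ψ i = 1 := by simp [Lat.rt, hu i hi.1, Λ.unr w hw i hi.1, sg]
      rw [Λ.rt_mul hψ hg hi.2, this, mul_one]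
    rw [Lat.wp_eq, Lat.wp_eq, hr]
    refine en_congr ?_
    rw [← dz_sub_l]
    exact dv_l (k hx g hg i hi.2 (h0 i hi.1).1) _
  · rw [Lat.wp_eq, Lat.wp_eq]
    refine en_congr ?_
    rw [← dz_sub_r, ← Matrix.mulVec_sub]
    exact dv_r _ ((k hy h hh i hi.2 (h0 i hi.1).2).mulVec _)
  · rw [Lat.wp_eq, en_gal, hE.2.2.2.2.2.2.1 w h2 i hi.1]
    simp

theorem Lat.triv_d2 (hψ : IsCh H ψ) (ho : o → H ≤ (pl 2).D)
    (hx : Λ.Lc o ψ H (n + 1) fun g => (2 : Z2) ^ n • lf (l g)) (hy : Λ.Lc o ψ H (m + 1) y) :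
    Triv H (sgn (d2 l fun g => rd (y g))) := by
  have h1 : Λ.Lc o ψ H 1 fun g => lf (l g) := (Lat.lc_pow fun g _ => rfl).1 hx
  rw [← Λ.wp_pow ψ 0 l y]
  refine Lat.wp_iso hψ ho ?_ (hy.mono (by omega))
  simpa using h1

end Pool.Agent.P.MP_8b7eba_nt.SM
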