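import Pool.Agent.P.MP_8b7eba_nt.SM.IfG
import Pool.Agent.P.MP_8b7eba_nt.SM.BasM
import Pool.Agent.P.MP_8b7eba_nt.SM.BasW
import Pool.Agent.P.MP_8b7eba_nt.SM.BasN

/-! Proof of SUML. -/

namespace Pool.Agent.P.MP_8b7eba_nt.SM

open Finset R2
open scoped Matrix

namespace TSUML

variable {k M : ℕ} {𝒢 : Grid k M} {Λ : Lat} {y : ℕ} {R : V1} {ψ η : X2} {c : Gz k M → Z2}
  {x : Gz k M → GQ → VZ} {l : Gz k M → ℕ → X2} {H : Subgroup GQ}

theorem v2 (a : V1) : a + a = 0 := by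
  funext i; exact CharTwo.add_self_eq_zero (a i)

theorem lf_zero : lf 0 = 0 := by
  funext i; simp [lf]

theorem ch_smul {a : F2} {f : X2} (h : a ≠ 0 → IsCh H f) : IsCh H fun g => a • f g := by
  by_cases e : a = 0
  · subst e
    exact ⟨by simpa using Sm.const (0 : V1), fun g _ k _ => by simp⟩
  · exact (h e).map (DistribSMul.toAddMonoidHom V1 a)

theorem eta_zero (h : 𝒢.Sum Λ y R ψ η c x l) {g : GQ}
    (e : Dv (k + 1) (∑ z, c z • 𝒢.xv R z (x z) g)) : η g = 0 := by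
  have a := e.sub (h.sum g)
  rw [sub_sub_cancel, dv_pow, ← rd_eq_zero, rd_lf] at a
  exact a

theorem alg (h : 𝒢.Sum Λ y R ψ η c x l) {g : GQ} (f : Gz k M → V1) (a : Gz k M → F2)
    (hm : ∀ z, 𝒢.m g z = 2 ^ k * ((a z).val : Z2)) {L : V1}
    (hL : L = η g + ∑ z, PadicInt.toZMod (c z) • f z + (∑ z, PadicInt.toZMod (c z) * a z) • R) :
    Dv (k + 1) ((2 : Z2) ^ k • lf L - ∑ z, c z • (x z g - (2 : Z2) ^ k • lf (f z))) := by
  have e : (2 : Z2) ^ k • lf L - ∑ z, c z • (x z g - (2 : Z2) ^ k • lf (f z)) =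
      (2 : Z2) ^ k • (lf L + ∑ z, c z • lf (f z) - ∑ z, (c z * ((a z).val : Z2)) • lf R -
        lf (η g)) - (∑ z, c z • 𝒢.xv R z (x z) g - (2 : Z2) ^ k • lf (η g)) := by
    simp only [Grid.xv, hm, smul_sub, sum_sub_distrib, smul_add, smul_sum, smul_smul]
    have e1 : ∑ z, (c z * 2 ^ k) • lf (f z) = ∑ z, (2 ^ k * c z) • lf (f z) :=
      sum_congr rfl fun z _ => by rw [mul_comm]
    have e2 : ∑ z, (c z * (2 ^ k * ((a z).val : Z2))) • lf R =
        ∑ z, (2 ^ k * (c z * ((a z).val : Z2))) • lf R :=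
      sum_congr rfl fun z _ => by rw [mul_left_comm]
    rw [e1, e2]; abel
  rw [e]
  refine Dv.sub ?_ (h.sum g)
  rw [dv_pow, ← rd_eq_zero, rd_sub, rd_sub, rd_add, rd_sum, rd_sum, rd_lf, rd_lf]
  simp only [rd_smul, rd_lf, map_mul, BasY.toZMod_val]
  rw [← sum_smul, hL]
  generalize ∑ z, PadicInt.toZMod (c z) • f z = A
  generalize (∑ z, PadicInt.toZMod (c z) * a z) • R = B
  calc η g + A + B + A + B + η g = (η g + η g) + (A + A) + (B + B) := by abel
    _ = 0 := by simp only [v2, add_zero]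

variable [HA]

theorem core (h : 𝒢.Sum Λ y R ψ η c x l) {o : Prop} (ho : o → H ≤ (pl 2).D) {z0 : Gz k M}
    (hz : c z0 ≠ 0) (f : Gz k M → X2) (a : Gz k M → GQ → F2)
    (hχ : ∀ z, ∀ g ∈ H, chi (𝒢.S y z0) g = chi (𝒢.S y z) g)
    (hx : ∀ z, c z ≠ 0 → Λ.Lc o (chi (𝒢.S y z)) H (k + 1)
      fun g => x z g - (2 : Z2) ^ k • lf (f z g))
    (hu : ∀ u, Λ.Wn (𝒢.S y z0) k u → Λ.Lc o (chi (𝒢.S y z0)) H k u)
    (hm : ∀ g ∈ H, ∀ z, 𝒢.m g z = 2 ^ k * ((a z g).val : Z2)) {L : X2}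
    (hL : ∀ g ∈ H, L g = η g + ∑ z, PadicInt.toZMod (c z) • f z g +
      (∑ z, PadicInt.toZMod (c z) * a z g) • R) : Triv H (sgn (d2 L ψ)) := by
  obtain ⟨u, u1, u2⟩ := (h.gy z0 hz).2.1
  obtain ⟨m, rfl⟩ : ∃ m, k = m + 1 := ⟨k - 1, by have := h.k1; omega⟩
  have s := Lat.Lc.sum (s := univ) (c := c) fun z _ hc => (hx z hc).congr_chi (hχ z)
  have t := s.congr (x' := fun g => (2 : Z2) ^ (m + 1) • lf (L g)) fun g hg =>
    alg h (fun z => f z g) (fun z => a z g) (hm g hg) (hL g hg)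
  have r := Lat.triv_d2 (isCh_chi _) ho t (hu u u1)
  rwa [show (fun g => rd (u g)) = ψ from funext u2] at r

theorem loc (h : 𝒢.Sum Λ y R ψ η c x l) {z0 : Gz k M} (hz : c z0 ≠ 0) {p : ℕ}
    (hp : p ∈ insert y 𝒢.P ∪ T30) (a : Gz k M → GQ → F2)
    (hm : ∀ g ∈ (pl p).D, ∀ z, 𝒢.m g z = 2 ^ k * ((a z g).val : Z2)) {B : X2}
    (hB : IsCh (pl p).D B)
    (eB : ∀ g ∈ (pl p).D, B g = (∑ z, PadicInt.toZMod (c z) * a z g) • R) :
    iv p (d2 η ψ) = ∑ z, PadicInt.toZMod (c z) * iv p (d2 (l z p) ψ) + iv p (d2 B ψ) := by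
  have hS : p ∈ 𝒢.S y z0 ∪ T30 := by
    rcases mem_union.1 hp with e | e
    · exact mem_union_left _ (mem_union_left _ e)
    · exact mem_union_right _ e
  have t := core h (o := p = 2) (H := (pl p).D) (fun e => by rw [e]) hz (fun z => l z p) a
    (fun z g hg => Grid.chi_loc h.pt hp hg z0 z) (fun z hc => ((h.gy z hc).2.2 p hp).2)
    (fun u hu => hu.loc p hS) hm
    (L := fun g => (η g + ∑ z, PadicInt.toZMod (c z) • l z p g) + B g)
    (fun g hg => by rw [eB g hg])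
  have t0 : iv p (d2 (fun g => (η g + ∑ z, PadicInt.toZMod (c z) • l z p g) + B g) ψ) = 0 := by
    unfold iv; exact if_pos t
  have hl : ∀ z ∈ (univ : Finset (Gz k M)), PadicInt.toZMod (c z) ≠ 0 → IsCh (pl p).D (l z p) :=
    fun z _ hc => ((h.gy z fun e => hc (by rw [e, map_zero])).2.2 p hp).1
  have hη : IsCh (pl p).D η := h.ch.1.mono le_top
  have hψ : IsCh (pl p).D ψ := h.ch.2.mono le_top
  have hs : IsCh (pl p).D fun g => ∑ z, PadicInt.toZMod (c z) • l z p g :=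
    IsCh.sum fun z hz => ch_smul (hl z hz)
  rw [iv_d2_add (hη.add hs) hB hψ, iv_d2_add hη hs hψ, iv_d2_sum hl hψ, add_assoc] at t0
  exact (CharTwo.add_eq_zero.1 t0)

end TSUML

variable [HA]

open TSUML in
theorem t_SUML : SUML := by
  intro k M 𝒢 Λ y R ψ η c x l h
  have U : ∀ w : Pl, ¬ w.p ∣ 30 → w.p ∉ 𝒢.P → w.p ≠ y →
      (∀ i j, w.p ≠ 𝒢.q i j) → ∀ g ∈ w.I, η g = 0 := by
    intro w h1 h2 h3 h4 g hg
    refine eta_zero h (Dv.sum fun z _ => ?_)
    by_cases hc : c z = 0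
    · rw [hc, zero_smul]; exact dv_zero
    · have h5 : w.p ≠ 2 := fun e => h1 (by rw [e]; norm_num)
      rw [Grid.xv, Grid.m_I h5 h4 hg, zero_smul, sub_zero]
      refine ((h.gy z hc).1.unr w h1 (fun e => ?_) g hg).smul _
      rcases Grid.mem_S.1 e with e | e | ⟨i, e⟩
      exacts [h3 e, h2 e, h4 _ _ e.symm]
  by_cases hc : ∀ z, c z = 0
  · have e : ∀ g, η g = 0 := fun g => eta_zero h (by
      simp only [hc, zero_smul, sum_const_zero]; exact dv_zero)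
    have e' : ∀ g g', d2 η ψ g g' = 0 := fun g g' => by simp [d2, e]
    refine ⟨fun p _ => ?_, Triv.one.congr fun g _ g' _ => by simp [sgn, e'], U⟩
    rw [BasN.zero fun g _ g' _ => e' g g']
    simp [hc]
  obtain ⟨z0, hz⟩ := not_forall.1 hc
  refine ⟨fun p hp => ?_, ?_, U⟩
  · by_cases e : p = y
    · subst e
      have g2 := h.pt.gp.ne.1
      obtain ⟨u, u1, u2, u3⟩ := exists_un h.pt.gp.1 g2
      have hB := u1.smul ((∑ z, PadicInt.toZMod (c z) * ex (𝒢.G p) z) • R)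
      rw [loc h hz hp (fun z g => u g * ex (𝒢.G p) z)
        (fun g hg z => Grid.m_y h.pt u1 u2 u3 hg z) hB fun g _ => by
          rw [smul_smul, mul_sum]
          exact congrArg (· • R) (sum_congr rfl fun z _ => by ring),
        iv_d2_unr h.pt.gp.1 g2 hB (h.ch.2.mono le_top) fun g hg => by rw [u2 g hg, zero_smul]]
      simp only [u3, one_smul, if_true, mul_add, sum_add_distrib, ← mul_assoc, ← sum_mul]
      congr 1
      simp only [ee, Pi.smul_apply, smul_eq_mul]; ring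
    · have hp' : p ∈ 𝒢.P ∪ T30 := by
        rcases mem_union.1 hp with e' | e'
        · exact mem_union_left _ ((mem_insert.1 e').resolve_left e)
        · exact mem_union_right _ e'
      rw [loc h hz hp (fun _ _ => 0) (fun g hg z => by rw [Grid.m_loc hp' hg]; simp)
        (B := fun _ => 0) ⟨Sm.const _, fun _ _ _ _ => by simp⟩ fun g _ => by simp,
        BasN.zero (κ := d2 (fun _ => 0) ψ) fun g _ g' _ => by simp [d2]]
      simp [e]
  · exact core h (o := False) False.elim hz (fun _ _ => 0) (fun _ _ => 0)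
      (fun z g hg => Grid.chi_Ht h.pt hg z0 z)
      (fun z hc => (h.gy z hc).1.inf.congr fun g _ => by
        rw [lf_zero, smul_zero, sub_zero, sub_self]; exact dv_zero)
      (fun u hu => hu.inf) (fun g hg z => by rw [Grid.m_Ht hg]; simp) fun g _ => by simp

end Pool.Agent.P.MP_8b7eba_nt.SM
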