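import Pool.Agent.P.MP_8b7eba_nt.SM.IfC

/-! Proof of SUP. -/

namespace Pool.Agent.P.MP_8b7eba_nt.SM

open Finset

namespace TSUP

theorem pm {α : Type} (s : Finset α) (f : α → ℝ) (hf : ∀ x ∈ s, 0 ≤ f x) {a : ℝ} (ha : 0 ≤ a)
    (h : a * s.card ≤ ∑ x ∈ s, f x) {n : ℕ} (hn : n ≠ 0) :
    a ^ n * s.card ≤ ∑ x ∈ s, f x ^ n := by
  obtain ⟨n, rfl⟩ := Nat.exists_eq_succ_of_ne_zero hn
  rcases s.eq_empty_or_nonempty with rfl | hs
  · simp
  have h0 : (0 : ℝ) < s.card := by exact_mod_cast hs.card_pos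
  refine le_trans ?_ (pow_sum_div_card_le_sum_pow hf n)
  rw [le_div_iff₀ (by positivity)]
  refine le_trans (le_of_eq (by rw [Nat.succ_eq_add_one]; ring)) (pow_le_pow_left₀ (by positivity) h (n + 1))

theorem card_grids {ι : Type} [Fintype ι] [DecidableEq ι] (M : ℕ) (X : ι → Finset ℕ) :
    ((grids M X).card : ℝ) = (∏ i, ((X i).card : ℝ)) ^ (M + 1) := by
  simp [grids, Fintype.card_piFinset, prod_pow]

theorem mem_grids {ι : Type} [Fintype ι] [DecidableEq ι] {M : ℕ} {X : ι → Finset ℕ}
    {q : ι → Fin (M + 1) → ℕ} : q ∈ grids M X ↔ ∀ i j, q i j ∈ X i := by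
  simp [grids, Fintype.mem_piFinset]

open Classical in
/-- the statement for one index type -/
def S0 (ι : Type) [Fintype ι] [DecidableEq ι] (M : ℕ) : Prop :=
  ∀ (X : ι → Finset ℕ) (U : Finset (ι → ℕ)) (δ : ℝ),
    0 ≤ δ → U ⊆ Fintype.piFinset X → δ * ∏ i, ((X i).card : ℝ) ≤ U.card →
    δ ^ (M + 1) ^ Fintype.card ι * (∏ i, ((X i).card : ℝ)) ^ (M + 1) ≤
      ((grids M X).filter fun q => ∀ π, gp q π ∈ U).card

open Classical in
theorem step {κ : Type} [Fintype κ] [DecidableEq κ] [DecidableEq (Option κ)] {M : ℕ} (H : S0 κ M)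
    (K : ℕ) (X : Option κ → Finset ℕ) (U : Finset (Option κ → ℕ))
    (cls : (κ → Fin (M + 1) → ℕ) → ℕ → Fin K) (δ : ℝ) (h0 : 0 ≤ δ)
    (hU : U ⊆ Fintype.piFinset X) (hδ : δ * ∏ i, ((X i).card : ℝ) ≤ U.card) :
    δ ^ (M + 1) ^ (Fintype.card κ + 1) / K ^ M * (∏ i, ((X i).card : ℝ)) ^ (M + 1) ≤
      ((grids M X).filter fun q => (∀ π, gp q π ∈ U) ∧
        ∀ j, cls (fun i => q (some i)) (q none j) = cls (fun i => q (some i)) (q none 0)).card := by
  have K0 : (0 : ℝ) < K := by exact_mod_cast (cls 0 0).pos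
  rw [Fintype.prod_option] at hδ ⊢
  set n : ℝ := ∏ i : κ, ((X (some i)).card : ℝ) with hn
  have n0 : 0 ≤ n := prod_nonneg fun _ _ => Nat.cast_nonneg _
  rcases n0.eq_or_lt with e | n1
  · rw [← e]; simp
  let Uw : ℕ → Finset (κ → ℕ) := fun w =>
    (Fintype.piFinset fun i => X (some i)).filter fun z => (fun o => Option.elim o w z) ∈ U
  let G := grids M fun i => X (some i)
  let Wu : (κ → Fin (M + 1) → ℕ) → Finset ℕ := fun u =>
    (X none).filter fun w => ∀ π, gp u π ∈ Uw w
  have hG : (G.card : ℝ) = n ^ (M + 1) := card_grids _ _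
  have a1 : U.card ≤ ∑ w ∈ X none, (Uw w).card := by
    rw [← card_sigma]
    refine card_le_card_of_injOn (fun z => ⟨z none, fun i => z (some i)⟩) (fun z hz => ?_)
      fun z _ z' _ h => ?_
    · have hz' := Fintype.mem_piFinset.1 (hU hz)
      refine mem_sigma.2 ⟨hz' none, mem_filter.2 ⟨Fintype.mem_piFinset.2 fun i => hz' _, ?_⟩⟩
      convert mem_coe.1 hz using 1
      funext o; cases o <;> rfl
    · simp only [Sigma.mk.injEq, heq_eq_eq] at h
      funext o
      cases o
      exacts [h.1, congrFun h.2 _]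
  have a2 : δ * (X none).card ≤ ∑ w ∈ X none, ((Uw w).card : ℝ) / n := by
    rw [← sum_div, le_div_iff₀ n1, mul_assoc]
    exact hδ.trans (by exact_mod_cast a1)
  have a3 := pm _ _ (fun _ _ => div_nonneg (Nat.cast_nonneg _) n0) h0 a2
    (pow_ne_zero (Fintype.card κ) (Nat.succ_ne_zero M))
  have a4 : δ ^ (M + 1) ^ Fintype.card κ * (X none).card * G.card ≤ ∑ u ∈ G, ((Wu u).card : ℝ) := by
    have : ∑ u ∈ G, ((Wu u).card : ℝ) =
        ∑ w ∈ X none, ((G.filter fun u => ∀ π, gp u π ∈ Uw w).card : ℝ) := by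
      simp only [Wu, card_filter]
      push_cast
      exact sum_comm
    rw [this, hG]
    refine (mul_le_mul_of_nonneg_right a3 (pow_nonneg n0 _)).trans ?_
    rw [sum_mul]
    refine sum_le_sum fun w _ => ?_
    have := H (fun i => X (some i)) (Uw w) (((Uw w).card : ℝ) / n)
      (div_nonneg (Nat.cast_nonneg _) n0)
      (filter_subset _ _) (by rw [← hn, div_mul_cancel₀ _ n1.ne'])
    convert this
  have a5 := pm _ _ (fun _ _ => Nat.cast_nonneg _)
    (mul_nonneg (pow_nonneg h0 _) (Nat.cast_nonneg _)) a4 (Nat.succ_ne_zero M)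
  have a6 : ∀ u, ((Wu u).card : ℝ) ^ (M + 1) / K ^ M ≤
      ∑ c : Fin K, (((Wu u).filter fun w => cls u w = c).card : ℝ) ^ (M + 1) := fun u => by
    have b1 : ((Wu u).card : ℝ) = ∑ c : Fin K, (((Wu u).filter fun w => cls u w = c).card : ℝ) := by
      exact_mod_cast card_eq_sum_card_fiberwise fun _ _ => mem_univ _
    have := pow_sum_div_card_le_sum_pow (s := univ)
      (f := fun c : Fin K => (((Wu u).filter fun w => cls u w = c).card : ℝ))
      (fun _ _ => Nat.cast_nonneg _) M
    rwa [← b1, card_univ, Fintype.card_fin] at this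
  have a7 : ∑ u ∈ G, ∑ c : Fin K, ((Wu u).filter fun w => cls u w = c).card ^ (M + 1) ≤
      ((grids M X).filter fun q => (∀ π, gp q π ∈ U) ∧
        ∀ j, cls (fun i => q (some i)) (q none j) = cls (fun i => q (some i)) (q none 0)).card := by
    have e : ∑ u ∈ G, ∑ c : Fin K, ((Wu u).filter fun w => cls u w = c).card ^ (M + 1) =
        ((G ×ˢ (univ : Finset (Fin K))).sigma fun p => Fintype.piFinset fun _ : Fin (M + 1) =>
          (Wu p.1).filter fun w => cls p.1 w = p.2).card := by
      rw [card_sigma, sum_product]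
      simp only [Fintype.card_piFinset, prod_const, card_univ, Fintype.card_fin]
    rw [e]
    refine card_le_card_of_injOn (fun p o => Option.elim o p.2 p.1.1) (fun p hp => ?_)
      fun p hp p' hp' h => ?_
    · obtain ⟨h1, h2⟩ := mem_sigma.1 (mem_coe.1 hp)
      have h3 := fun j => mem_filter.1 (Fintype.mem_piFinset.1 h2 j)
      refine mem_coe.2 (mem_filter.2 ⟨mem_grids.2 fun o j => ?_, fun π => ?_, fun j => ?_⟩)
      · cases o
        exacts [(mem_filter.1 (h3 j).1).1, mem_grids.1 (mem_product.1 h1).1 _ j]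
      · convert (mem_filter.1 ((mem_filter.1 (h3 (π none)).1).2 fun i => π (some i))).2 using 1
        funext o; cases o <;> rfl
      · exact (h3 j).2.trans (h3 0).2.symm
    · obtain ⟨⟨u, c⟩, v⟩ := p
      obtain ⟨⟨u', c'⟩, v'⟩ := p'
      have e1 : v = v' := congrFun h none
      have e2 : u = u' := funext fun i => congrFun h (some i)
      subst e1 e2
      have e3 : c = c' :=
        (mem_filter.1 (Fintype.mem_piFinset.1 (mem_sigma.1 (mem_coe.1 hp)).2 0)).2.symm.trans
          (mem_filter.1 (Fintype.mem_piFinset.1 (mem_sigma.1 (mem_coe.1 hp')).2 0)).2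
      rw [e3]
  refine le_trans ?_ ((sum_le_sum fun u _ => a6 u).trans (by exact_mod_cast a7))
  rw [← sum_div, div_mul_eq_mul_div]
  refine div_le_div_of_nonneg_right (le_trans (le_of_eq ?_) a5) (pow_nonneg K0.le _)
  rw [hG, pow_succ (M + 1), pow_mul]
  simp only [mul_pow, Nat.succ_eq_add_one, mul_assoc]

theorem s0_all (M : ℕ) (ι : Type) [Fintype ι] : ∀ [DecidableEq ι], S0 ι M := by
  classical
  refine Fintype.induction_empty_option (P := fun ι _ => ∀ [DecidableEq ι], S0 ι M) ?_ ?_ ?_ ι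
  · intro α β _ e H _ X U δ h0 hU hδ
    let _ : Fintype α := Fintype.ofEquiv β e.symm
    have hi : Function.Injective fun z : β → ℕ => z ∘ e := e.surjective.injective_comp_right
    have h1 := H (X ∘ e) (U.image (· ∘ e)) δ h0 (fun z hz => by
      obtain ⟨y, hy, rfl⟩ := mem_image.1 hz
      exact Fintype.mem_piFinset.2 fun i => Fintype.mem_piFinset.1 (hU hy) (e i)) (by
      rw [card_image_of_injective _ hi]
      exact (congrArg _ (e.prod_comp fun i => ((X i).card : ℝ))).trans_le hδ)
    rw [Fintype.card_congr e] at h1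
    refine le_trans (le_of_eq ?_) (h1.trans (Nat.cast_le.2 ?_))
    · rw [← e.prod_comp fun i => ((X i).card : ℝ)]; rfl
    refine card_le_card_of_injOn (· ∘ e.symm) (fun q hq => ?_)
      e.symm.surjective.injective_comp_right.injOn
    obtain ⟨h2, h3⟩ := mem_filter.1 (mem_coe.1 hq)
    refine mem_coe.2 (mem_filter.2 ⟨mem_grids.2 fun i j => ?_, fun π => ?_⟩)
    · simpa using mem_grids.1 h2 (e.symm i) j
    · obtain ⟨y, hy, h4⟩ := mem_image.1 (h3 (π ∘ e))
      convert hy using 1
      funext i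
      simpa [gp] using (congrFun h4 (e.symm i)).symm
  · intro _ X U δ _ _ hδ
    simp only [univ_eq_empty, prod_empty, mul_one, Fintype.card_eq_zero, pow_zero, pow_one,
      one_pow] at hδ ⊢
    refine hδ.trans (Nat.cast_le.2 (card_le_card_of_injOn (fun _ => default) (fun z hz => ?_)
      fun _ _ _ _ _ => Subsingleton.elim _ _))
    exact mem_coe.2 (mem_filter.2 ⟨mem_grids.2 fun i => i.elim, fun π => by
      convert mem_coe.1 hz using 1; exact Subsingleton.elim _ _⟩)
  · intro α _ H _ X U δ h0 hU hδ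
    have := step H 1 X U (fun _ _ => 0) δ h0 hU hδ
    rw [Fintype.card_option]
    simpa using this

theorem bad {ι : Type} [Fintype ι] [DecidableEq ι] {M : ℕ} (X : ι → Finset ℕ) (i : ι)
    {j j' : Fin (M + 1)} (h : j ≠ j') :
    ((grids M X).filter fun q => q i j = q i j').card * (X i).card ≤ (grids M X).card := by
  rw [← card_product]
  refine card_le_card_of_injOn (fun p => Function.update p.1 i (Function.update (p.1 i) j p.2))
    (fun p hp => ?_) fun p hp p' hp' e => ?_
  · obtain ⟨h1, h2⟩ := mem_product.1 (mem_coe.1 hp)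
    have h3 := mem_grids.1 (mem_filter.1 h1).1
    refine mem_coe.2 (mem_grids.2 fun a b => ?_)
    by_cases ha : a = i
    · subst ha
      by_cases hb : b = j
      · simpa [hb] using h2
      · simpa [hb] using h3 a b
    · simpa [ha] using h3 a b
  · have h1 := (mem_filter.1 (mem_product.1 (mem_coe.1 hp)).1).2
    have h2 := (mem_filter.1 (mem_product.1 (mem_coe.1 hp')).1).2
    have e1 := congrFun e i
    simp only [Function.update_self] at e1
    refine Prod.ext (funext fun a => funext fun b => ?_) (by simpa using congrFun e1 j)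
    by_cases ha : a = i
    · subst ha
      by_cases hb : b = j
      · rw [hb, h1, h2]
        simpa [h.symm] using congrFun e1 j'
      · simpa [hb] using congrFun e1 b
    · simpa [ha] using congrFun (congrFun e a) b

end TSUP

theorem t_SUP0 : SUP0 := by
  intro ι _ _ M X U δ h0 hU hδ
  convert TSUP.s0_all M ι X U δ h0 hU hδ

open TSUP Classical in
theorem t_SUP (hSUP0 : SUP0) : SUP := by
  intro k M K X U cls δ x h0 hU hδ x0 hx
  have H : S0 (Fin k) M := fun X U δ h0 hU hδ => by convert hSUP0 (Fin k) M X U δ h0 hU hδ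
  have a1 := step H K X U cls δ h0 hU hδ
  rw [Fintype.card_fin] at a1
  set N := (∏ i, ((X i).card : ℝ)) ^ (M + 1) with hN
  have N0 : 0 ≤ N := pow_nonneg (prod_nonneg fun _ _ => Nat.cast_nonneg _) _
  let B : Option (Fin k) × Fin (M + 1) × Fin (M + 1) → Finset (Option (Fin k) → Fin (M + 1) → ℕ) :=
    fun t => (grids M X).filter fun q => t.2.1 ≠ t.2.2 ∧ q t.1 t.2.1 = q t.1 t.2.2
  have a2 : ∀ t, ((B t).card : ℝ) ≤ N / x := fun t => by
    by_cases h : t.2.1 = t.2.2
    · have : B t = ∅ := filter_eq_empty_iff.2 fun _ _ a => a.1 h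
      rw [this, card_empty, Nat.cast_zero]
      exact div_nonneg N0 x0.le
    · have b1 : (((B t).card * (X t.1).card : ℕ) : ℝ) ≤ N := by
        rw [hN, ← card_grids]
        refine Nat.cast_le.2 (le_trans (Nat.mul_le_mul_right _ (card_le_card fun q hq => ?_))
          (bad X t.1 h))
        exact mem_filter.2 ⟨(mem_filter.1 hq).1, (mem_filter.1 hq).2.2⟩
      rw [le_div_iff₀ x0]
      push_cast at b1
      exact (mul_le_mul_of_nonneg_left (hx _) (Nat.cast_nonneg _)).trans b1
  have a3 : ((univ.biUnion B).card : ℝ) ≤ (k + 1) * (M + 1) ^ 2 / x * N := by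
    refine (Nat.cast_le.2 card_biUnion_le).trans ?_
    push_cast
    refine (sum_le_sum fun t _ => a2 t).trans (le_of_eq ?_)
    simp only [sum_const, card_univ, Fintype.card_prod, Fintype.card_option, Fintype.card_fin,
      nsmul_eq_mul]
    push_cast
    ring
  rw [sub_mul, sub_le_iff_le_add]
  refine a1.trans (le_trans ?_ (add_le_add_right a3 _))
  rw [← Nat.cast_add]
  refine Nat.cast_le.2 (le_trans (card_le_card fun q hq => ?_) (card_union_le _ _))
  obtain ⟨h1, h2⟩ := mem_filter.1 hq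
  by_cases h : ∀ i, Function.Injective (q i)
  · exact mem_union_left _ (mem_filter.2 ⟨h1, h, h2⟩)
  · obtain ⟨i, hi⟩ := not_forall.1 h
    obtain ⟨j, j', e1, e2⟩ := Function.not_injective_iff.1 hi
    exact mem_union_right _ (mem_biUnion.2 ⟨(i, j, j'), mem_univ _, mem_filter.2 ⟨h1, e2, e1⟩⟩)

end Pool.Agent.P.MP_8b7eba_nt.SM
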