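import Pool.Agent.P.MP_8b7eba_nt.SM.IfG
import Pool.Agent.P.MP_8b7eba_nt.SM.BasM

/-! Proof of SYS1. -/

namespace Pool.Agent.P.MP_8b7eba_nt.SM

open Finset R2
open scoped Matrix

namespace TSYS1

theorem key {n : ℕ} {u : VZ} {a : V1} (h : Dv (n + 1) (u - (2 : Z2) ^ n • lf a)) :
    Dv (n + 1) u ↔ a = 0 := by
  constructor
  · intro h'
    have h1 := h'.sub h
    rw [sub_sub_cancel, dv_pow, ← rd_eq_zero, rd_lf] at h1
    exact h1
  · rintro rfl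
    have e : lf 0 = 0 := by
      funext i
      simp [lf]
    rwa [e, smul_zero, sub_zero] at h

theorem pe_iff {Z : Type} [Fintype Z] {n : ℕ} {c : Z → Z2} {f : Z → VZ} :
    Dv n (∑ z, c z • f z) ↔ ∀ i, Pe n c fun z => f z i := by
  refine forall_congr' fun i => ?_
  simp only [Pe, Finset.sum_apply, Pi.smul_apply, smul_eq_mul]

theorem dv_sum {Z : Type} [Fintype Z] {n : ℕ} {c : Z → Z2} {f : Z → VZ}
    (h : ∀ z, c z ≠ 0 → Dv n (f z)) : Dv n (∑ z, c z • f z) := by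
  refine Dv.sum fun z _ => ?_
  by_cases hc : c z = 0
  · rw [hc, zero_smul]
    exact dv_zero
  · exact (h z hc).smul _

theorem loc {n : ℕ} {u v : VZ} {a b : V1} (Λ : Lat) (s : F2) (g : GQ)
    (hu : Dv (n + 1) (u - (2 : Z2) ^ n • lf a)) (hv : Dv (n + 1) (v - (2 : Z2) ^ n • lf b))
    (h : Dv (n + 1) (u + Λ.hh s g *ᵥ v)) : a = Λ.cb g *ᵥ b + s • b := by
  obtain ⟨u', rfl, rfl⟩ := dv_lf.1 hu
  obtain ⟨v', rfl, rfl⟩ := dv_lf.1 hv
  rw [Matrix.mulVec_smul, ← smul_add, dv_pow, ← rd_eq_zero, rd_add, Λ.rd_hh] at h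
  funext i
  have := congrFun h i
  rw [Pi.add_apply, Pi.zero_apply, add_eq_zero_iff_eq_neg, CharTwo.neg_eq] at this
  exact this

end TSYS1

open TSYS1

variable [HA]

theorem t_SYS1 (hNAK : NAK) (hHOM : HOM) : SYS1 := by
  intro k M s 𝒮 R Y x hk hW N hN h1 hA hB hY g i
  obtain ⟨n, rfl⟩ : ∃ n, k = n + 1 := ⟨k - 1, by omega⟩
  refine hNAK (n + 1) M (n + 1) Y {f | ∃ g i, f = fun z => 𝒮.xv R z (x z) g i}
    ({f | ∃ j i, f = fun z => 𝒮.tv 𝒮.σ R z (x z) (.inl j) i} ∪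
      {f | ∃ l i, f = fun z => 𝒮.tv 𝒮.σ R z (x z) (.inr (.inl l)) i}) ?_ N hN h1 ?_ hY
      ⟨g, i, rfl⟩
  swap
  · rintro f (⟨j, i, rfl⟩ | ⟨l, i, rfl⟩)
    · exact hA j i
    · exact hB l i
  intro c hc hL hM hT
  obtain ⟨η, hη, he⟩ := hHOM (n + 1) M n 𝒮.toGrid 𝒮.Λ 𝒮.y R c x 𝒮.pt
    (fun z hz => (hW z (hc z hz)).zn) hL fun l hl g i => hM l hl _ ⟨g, i, rfl⟩
  have hB : 𝒮.InB 𝒮.Λ 𝒮.y η := by
    refine ⟨hη, fun w hw hP hy hq g hg => (key (he g)).1 (dv_sum fun z hz => ?_), fun p hp => ?_⟩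
    · have h2 : w.p ≠ 2 := fun e => hw (by rw [e]; norm_num)
      rw [Grid.xv, Grid.m_I h2 hq hg, zero_smul, sub_zero]
      refine (hW z (hc z hz)).unr w hw (fun hm => ?_) g hg
      rcases Grid.mem_S.1 hm with e | e | ⟨j, e⟩
      · exact hy e
      · exact hP e
      · exact hq _ _ e.symm
    · have gp := 𝒮.ar.gP p hp
      have hf := fr_D gp.1 gp.ne.1
      have ht := tp_D gp.1 gp.ne.1
      refine loc 𝒮.Λ _ _ (he (fr p)) (he (tp p)) ?_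
      rw [Matrix.mulVec_sum, ← Finset.sum_add_distrib]
      simp only [Matrix.mulVec_smul, ← smul_add]
      refine dv_sum fun z hz => ?_
      rw [Grid.xv, Grid.xv, Grid.m_loc (mem_union_left _ hp) hf,
        Grid.m_loc (mem_union_left _ hp) ht, zero_smul, sub_zero, sub_zero,
        Grid.chi_loc 𝒮.pt (mem_union_left _ (mem_insert_of_mem hp)) hf 0 z]
      exact Lat.Wn.locp (Grid.S_gp 𝒮.pt z) (hW z (hc z hz)) (Grid.mem_S.2 (.inr (.inl hp)))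
  have h0 : η = 0 := by
    refine 𝒮.hσ η hB (fun j => (key (he _)).1 (pe_iff.2 fun i => ?_))
      fun a j => (key (he _)).1 (pe_iff.2 fun i => ?_)
    · exact hT _ (.inl ⟨j, i, rfl⟩)
    · have e1 := hT _ (.inr ⟨(a, j), i, rfl⟩)
      have e2 := hL _ (Grid.tq_mem 𝒮.toGrid R (a, j) i)
      have e3 := dvd_add e1 e2
      rw [← Finset.sum_add_distrib] at e3
      refine e3.trans (dvd_of_eq (Finset.sum_congr rfl fun z _ => ?_))
      simp only [Grid.tv, Grid.xv, Pi.sub_apply]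
      ring
  rintro ξ ⟨g, i, rfl⟩
  exact pe_iff.1 ((key (he g)).2 (by rw [h0]; rfl)) i

end Pool.Agent.P.MP_8b7eba_nt.SM
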