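import Pool.Agent.P.MP_8b7eba_nt.SM.IfG
import Pool.Agent.P.MP_8b7eba_nt.SM.BasM

/-! Proof of SYS2. -/

namespace Pool.Agent.P.MP_8b7eba_nt.SM

open Finset R2
open scoped Matrix

namespace TSYS2

variable {k M s n : ℕ} {c : Gz k M → Z2} {Y : Gz k M → Prop}

theorem sum_dvd (hc : ∀ z, c z ≠ 0 → Y z) {f : Gz k M → Z2} (h : ∀ z, Y z → 2 ^ n ∣ f z) :
    2 ^ n ∣ ∑ z, c z * f z :=
  dvd_sum fun z _ => by
    by_cases h0 : c z = 0
    · rw [h0, zero_mul]; exact dvd_zero _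
    · exact (h z (hc z h0)).mul_left _

/-- the functions whose multiples by the ideal of the point are orthogonal to `c` -/
def NN (n : ℕ) (c : Gz k M → Z2) (z₀ : Gz k M) : Submodule Z2 (Gz k M → Z2) where
  carrier := {f | ∀ l ∈ Lam k M, Pe n c fun z => (l z - l z₀) * f z}
  add_mem' := fun {f g} hf hg l hl => by
    simpa only [Pe, Pi.add_apply, mul_add, sum_add_distrib] using dvd_add (hf l hl) (hg l hl)
  zero_mem' := fun l _ => by simp [Pe]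
  smul_mem' := fun a f hf l hl => by
    have := (hf l hl).mul_left a
    rw [mul_sum] at this
    refine (congrArg (2 ^ n ∣ ·) (sum_congr rfl fun z _ => ?_)).mp this
    simp only [Pi.smul_apply, smul_eq_mul]; ring

theorem nn_mul {z₀ : Gz k M} : ∀ l ∈ Lam k M, ∀ f ∈ NN n c z₀, l * f ∈ NN n c z₀ :=
  fun l' hl' f hf l hl => by
    have := dvd_sub (hf _ (mul_mem hl hl')) ((hf _ hl').mul_left (l z₀))
    rw [mul_sum, ← sum_sub_distrib] at this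
    refine (congrArg (2 ^ n ∣ ·) (sum_congr rfl fun z _ => ?_)).mp this
    simp only [Pi.mul_apply]; ring

theorem nn_of {z₀ : Gz k M} {f : Gz k M → Z2} {a : Z2}
    (h : ∀ l ∈ Lam k M, 2 ^ n ∣ ∑ z, c z * (l z * f z) - l z₀ * a) : f ∈ NN n c z₀ :=
  fun l hl => by
    have := dvd_sub (h l hl) ((h 1 (one_mem _)).mul_left (l z₀))
    refine (congrArg (2 ^ n ∣ ·) ?_).mp this
    simp only [Pi.one_apply, one_mul, mul_sub, sub_mul, sum_sub_distrib, mul_sum,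
      sub_sub_sub_cancel_right, mul_left_comm (l z₀)]

end TSYS2

open TSYS2

variable [HA]

theorem t_SYS2 (hSYS1 : SYS1) (hCLOS1 : CLOS1) (hCLOS2 : CLOS2) (hSUB : SUB) : SYS2 := by
  intro k M s 𝒮 hk
  refine ⟨fun z δ δ' e h β l => ?_, fun z δ δ' e ⟨x, hx, h⟩ => ⟨x, hx, fun t => ?_⟩,
    hSUB k M s 𝒮 hk, fun ξ hξ c z₀ δ hc hv h1 h2 h3 => ?_⟩
  · have d : ∀ τ, Dv k ((fun i => δ (β, i, τ)) - fun i => δ' (β, i, τ)) := fun τ i => e _
    refine ⟨fun hz => ?_, fun hz => ?_⟩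
    · refine (congrArg (Dv k) ?_).mp (((h β l).1 hz).sub (d (.inr (.inl l))))
      abel
    · refine (congrArg (Dv k) ?_).mp ((((h β l).2 hz).sub (d (.inr (.inr l)))).sub
        ((d (.inr (.inl l))).mulVec (𝒮.Λ.hh (𝒮.e l) (fr (𝒮.q l.1 l.2)))))
      simp only [Matrix.mulVec_add, Matrix.mulVec_sub]
      abel
  · simpa only [sub_add_sub_cancel] using dvd_add (h t) (e t)
  have : ∀ z, ∃ x : Bool → GQ → VZ, (∃ δ, 𝒮.Re z δ) → 𝒮.Lif k z x ∧ ∀ t : TT k M s,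
      2 ^ k ∣ 𝒮.tv 𝒮.σ (𝒮.R t.1) z (x t.1) t.2.2 t.2.1 - ξ z t := fun z => by
    by_cases h : ∃ δ, 𝒮.Re z δ
    · exact (hξ z h).imp fun _ a _ => a
    · exact ⟨0, fun a => absurd a h⟩
  choose x hx using this
  have hW : ∀ β z, c z ≠ 0 → 𝒮.Λ.Wn (𝒮.S 𝒮.y z) k (x z β) := fun β z h => ((hx z (hc z h)).1 β).1
  have hdv : ∀ f : Gz k M → Z2, (∀ z, (∃ δ, 𝒮.Re z δ) → 2 ^ k ∣ f z) → f ∈ NN k c z₀ :=
    fun f h l _ => sum_dvd hc fun z hz => (h z hz).mul_left _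
  have ht : ∀ t : TT k M s, t ∈ A1 k M s ∨ t ∈ A2 k M s →
      (fun z => 𝒮.tv 𝒮.σ (𝒮.R t.1) z (x z t.1) t.2.2 t.2.1) ∈ NN k c z₀ := fun t h => by
    have := add_mem (hdv _ fun z hz => (hx z hz).2 t) (nn_of fun l hl => h2 l hl t h)
    exact (congrArg (· ∈ NN k c z₀) (funext fun z => sub_add_cancel _ _)).mp this
  obtain ⟨X, hX⟩ : ∃ X : Bool → GQ → VZ, ∀ β g,
    X β g = ∑ z, c z • 𝒮.xv (𝒮.R β) z (x z β) g + 𝒮.m g z₀ • lf (𝒮.R β) := ⟨_, fun _ _ => rfl⟩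
  have hZ : ∀ β, 𝒮.Λ.Zn (chi (𝒮.S 𝒮.y z₀)) ⊤ k (X β) := fun β => by
    rw [funext (hX β)]
    refine hCLOS1 k M k 𝒮.toGrid 𝒮.Λ 𝒮.y (𝒮.R β) c (fun z => x z β) z₀ 𝒮.pt
      (fun z h => (hW β z h).zn) h1 fun l hl g i => ?_
    exact hSYS1 k M s 𝒮 (𝒮.R β) _ (fun z => x z β) hk (fun z hz => ((hx z hz).1 β).1) (NN k c z₀)
      nn_mul (nn_of (a := 1) fun l hl => by simpa using h1 l hl)
      (fun j i => ht (β, i, .inl j) (.inl (mem_filter.2 ⟨mem_univ _, j, rfl⟩)))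
      (fun l i => ht (β, i, .inr (.inl l)) (.inr (mem_filter.2 ⟨mem_univ _, l, rfl⟩))) hdv g i l hl
  have hs : ∀ t : TT k M s,
      2 ^ k ∣ ∑ z, c z * 𝒮.tv 𝒮.σ (𝒮.R t.1) z (x z t.1) t.2.2 t.2.1 - δ t := fun t => by
    have := dvd_add (sum_dvd hc fun z hz => (hx z hz).2 t) (h3 t)
    simpa only [mul_sub, sum_sub_distrib, sub_add_sub_cancel] using this
  have hT : ∀ t : TT k M s, 2 ^ k ∣ 𝒮.tv 𝒮.σ (𝒮.R t.1) z₀ (X t.1) t.2.2 t.2.1 - δ t := by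
    have a : ∀ β g i, 𝒮.xv (𝒮.R β) z₀ (X β) g i = ∑ z, c z * 𝒮.xv (𝒮.R β) z (x z β) g i :=
      fun β g i => by
        rw [Grid.xv, hX, add_sub_cancel_right, Finset.sum_apply]; rfl
    rintro ⟨β, i, j | l | l⟩
    · simpa only [Grid.tv, a] using hs (β, i, .inl j)
    · have := dvd_add (hs (β, i, .inr (.inl l))) (h1 _ (𝒮.tq_mem (𝒮.R β) l i))
      refine (congrArg (2 ^ k ∣ ·) ?_).mp this
      simp only [Grid.tv, hX, Grid.xv, Pi.sub_apply, Pi.add_apply, Finset.sum_apply, Pi.smul_apply,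
        smul_eq_mul, mul_sub, sum_sub_distrib]
      ring
    · simpa only [Grid.tv, a] using hs (β, i, .inr (.inr l))
  have hD : ∀ β τ, Dv k (𝒮.tv 𝒮.σ (𝒮.R β) z₀ (X β) τ - fun i => δ (β, i, τ)) :=
    fun β τ i => hT (β, i, τ)
  refine ⟨X, fun β => ⟨hCLOS2 k M 𝒮.toGrid 𝒮.Λ 𝒮.y (𝒮.R β) c (fun z => x z β) z₀ (X β) 𝒮.pt
    (hW β) (hX β) (hZ β) (fun i j hz => ?_) ?_, fun g => ?_⟩, hT⟩
  · refine (congrArg (Dv k) ?_).mp ((hD β (.inr (.inl (i, j)))).add ((hv β (i, j)).1 hz))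
    simp only [Grid.tv]
    abel
  · rintro i _ rfl
    have hp := (𝒮.ar.gp i (z₀ i)).1
    have he : 𝒮.e (i, z₀ i) = chi (𝒮.S 𝒮.y z₀) (fr (𝒮.q i (z₀ i))) :=
      Grid.chi_q 𝒮.pt (fr_D hp.1 hp.ne.1) (Function.update_self ..)
    refine (congrArg (Dv k) ?_).mp (((hD β (.inr (.inr (i, z₀ i)))).add
      ((hD β (.inr (.inl (i, z₀ i)))).mulVec
        (𝒮.Λ.hh (𝒮.e (i, z₀ i)) (fr (𝒮.q i (z₀ i)))))).add ((hv β (i, z₀ i)).2 rfl))
    simp only [Grid.tv, Grid.xv, he, Matrix.mulVec_add, Matrix.mulVec_sub]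
    abel
  · have e1 : ∑ z, PadicInt.toZMod (c z) = 1 := by
      obtain ⟨u, hu⟩ := (dvd_pow_self 2 (by omega)).trans (h1 1 (one_mem _))
      have := congrArg PadicInt.toZMod hu
      simp only [Pi.one_apply, mul_one, map_sub, map_sum, map_one, map_mul, map_ofNat] at this
      rwa [show (2 : ZMod 2) = 0 from rfl, zero_mul, sub_eq_zero] at this
    have e2 : ∀ z ∈ univ, rd (c z • 𝒮.xv (𝒮.R β) z (x z β) g) =
        PadicInt.toZMod (c z) • (𝒮.φ β g + qs (𝒮.q none 0) g • 𝒮.R β) := fun z _ => by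
      rw [rd_smul]
      by_cases h0 : c z = 0
      · rw [h0, map_zero, zero_smul, zero_smul]
      · rw [Grid.rd_xv (((hx z (hc z h0)).1 β).2 g)]
    rw [hX, rd_add, rd_sum, sum_congr rfl e2, ← sum_smul, e1, one_smul, rd_smul, rd_lf, Grid.m_red,
      Grid.ph, add_assoc, ← add_smul, add_left_comm, CharTwo.add_self_eq_zero, add_zero]

end Pool.Agent.P.MP_8b7eba_nt.SM
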