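import Pool.Agent.P.MP_8b7eba_nt.SM.IfG
import Pool.Agent.P.MP_8b7eba_nt.SM.BasM
import Pool.Agent.P.MP_8b7eba_nt.SM.BasN

/-! Proof of SYS3. -/

namespace Pool.Agent.P.MP_8b7eba_nt.SM

open Finset R2
open scoped Matrix

namespace TSYS3

/-- the functions whose multiples by the maximal ideal are orthogonal to `c` -/
def NN {k M : ℕ} (n : ℕ) (c : Gz k M → Z2) : Submodule Z2 (Gz k M → Z2) where
  carrier := {f | ∀ l, Mx l → Pe n c fun z => l z * f z}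
  add_mem' := fun {f f'} h h' l hl => by
    have := dvd_add (h l hl) (h' l hl)
    rw [← sum_add_distrib] at this
    simpa only [Pe, Pi.add_apply, mul_add] using this
  zero_mem' := fun l _ => by simp [Pe]
  smul_mem' := fun a f h l hl => by
    have := (h l hl).mul_left a
    rw [mul_sum] at this
    refine (congrArg (_ ∣ ·) (sum_congr rfl fun z _ => ?_)).mp this
    simp only [Pi.smul_apply, smul_eq_mul]
    ring

theorem mem_NN {k M n : ℕ} {c f : Gz k M → Z2} :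
    f ∈ NN n c ↔ ∀ l, Mx l → Pe n c fun z => l z * f z := Iff.rfl

theorem dv_mem {k M n : ℕ} {c f : Gz k M → Z2} (h : ∀ z, c z ≠ 0 → 2 ^ n ∣ f z) :
    f ∈ NN (n + 1) c := fun l hl => by
  refine dvd_sum fun z _ => ?_
  by_cases e : c z = 0
  · rw [e, zero_mul]
    exact dvd_zero _
  · rw [pow_succ']
    exact (mul_dvd_mul (hl.2 z) (h z e)).mul_left _

theorem congr_mem {k M n : ℕ} {c f f' : Gz k M → Z2} (hf : f ∈ NN (n + 1) c)
    (h : ∀ z, c z ≠ 0 → 2 ^ n ∣ f' z - f z) : f' ∈ NN (n + 1) c := by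
  have := add_mem hf (dv_mem (f := f' - f) h)
  rwa [add_sub_cancel] at this

end TSYS3

open TSYS3

variable [HA]

theorem t_SYS3 (hGLIFT : GLIFT) (hZERO : ZERO) (hSYS1 : SYS1) (hHOM : HOM) (hSUMF : SUMF) : SYS3 := by
  intro k M s 𝒮 hk ξ hξ
  obtain ⟨n, rfl⟩ : ∃ n, k = n + 1 := ⟨k - 1, by omega⟩
  have hx : ∀ z, ∃ x : Bool → GQ → VZ, (∃ δ, 𝒮.Re z δ) → 𝒮.Lif (n + 1) z x ∧
      ∀ t : TT (n + 1) M s,
        2 ^ (n + 1) ∣ 𝒮.tv 𝒮.σ (𝒮.R t.1) z (x t.1) t.2.2 t.2.1 - ξ z t := fun z => by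
    by_cases h : ∃ δ, 𝒮.Re z δ
    · obtain ⟨x, hx⟩ := hξ z h
      exact ⟨x, fun _ => hx⟩
    · exact ⟨0, fun h' => absurd h' h⟩
  choose x hx using hx
  have hy : ∀ z, ∃ (y : GQ → VZ) (l : ℕ → X2), (∃ δ, 𝒮.Re z δ) →
      𝒮.Λ.Gy (𝒮.S 𝒮.y z) (n + 2) y ∧ (∀ g, Dv (n + 1) (y g - x z true g)) ∧
        ∀ p ∈ 𝒮.S 𝒮.y z ∪ T30, 𝒮.Λ.Ld (𝒮.S 𝒮.y z) (n + 1) y p (l p) := fun z => by
    by_cases h : ∃ δ, 𝒮.Re z δ
    · obtain ⟨y, h1, h2, h3⟩ :=
        hGLIFT 𝒮.Λ _ (n + 1) (x z true) (Grid.S_gp 𝒮.pt z) ((hx z h).1 true).1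
      choose! l hl using h3
      exact ⟨y, l, fun _ => ⟨h1, h2, hl⟩⟩
    · exact ⟨0, 0, fun h' => absurd h' h⟩
  choose y l hy using hy
  obtain ⟨p1, p2, p3, -⟩ := 𝒮.psi
  have hψ : ∀ z, (∃ δ, 𝒮.Re z δ) → ∀ g, rd (x z false g) = 𝒮.φ false g := fun z h g => by
    rw [((hx z h).1 false).2, p1]
  refine ⟨fun z => ∑ p ∈ insert 𝒮.y 𝒮.P ∪ T30, iv p (d2 (l z p) (𝒮.φ false)), ?_, ?_⟩
  · rintro z ⟨x', hx'⟩
    have h : ∃ δ, 𝒮.Re z δ := ⟨fun t => 𝒮.tv 𝒮.σ (𝒮.R t.1) z (x' t.1) t.2.2 t.2.1, x',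
      fun β => ⟨(hx' β).1.mono (Nat.le_succ _), (hx' β).2⟩, fun t => by
        rw [sub_self]
        exact dvd_zero _⟩
    have h0 := hZERO 𝒮.Λ _ n (x' true) (y z) (x z false) (l z) (Grid.S_gp 𝒮.pt z) (hx' true).1
      (hy z h).1 (fun g => by
        rw [rd_eq.2 (((hy z h).2.1 g).mono (by omega)), ((hx z h).1 true).2, (hx' true).2])
      (hy z h).2.2 ((hx z h).1 false).1
    rw [funext (hψ z h), Grid.sum_S 𝒮.pt,
      sum_eq_zero fun i _ => iv_d2_zero (p3 i (z i)), add_zero] at h0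
    exact h0
  · intro c hc hL hT
    have hN := hSYS1 (n + 1) M s 𝒮 (𝒮.R true) (fun z => ∃ δ, 𝒮.Re z δ) (fun z => x z true) hk
      (fun z h => ((hx z h).1 true).1) (NN (n + 2) c)
      (fun l' hl' f hf l hl => by
        simpa only [Pi.mul_apply, mul_assoc] using hf _ (hl.mul hl'))
      (fun l hl => by simpa only [Pi.one_apply, mul_one] using hL l hl.1)
      (fun j i => congr_mem (f := fun z => ξ z (true, i, .inl j))
        (fun l hl => hT l hl _ (Or.inl (mem_filter.2 ⟨mem_univ _, j, rfl⟩)))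
        fun z hz => (hx z (hc z hz)).2 (true, i, .inl j))
      (fun j i => congr_mem (f := fun z => ξ z (true, i, .inr (.inl j)))
        (fun l hl => hT l hl _ (Or.inr (mem_filter.2 ⟨mem_univ _, j, rfl⟩)))
        fun z hz => (hx z (hc z hz)).2 (true, i, .inr (.inl j)))
      fun f hf => dv_mem fun z hz => hf z (hc z hz)
    obtain ⟨η, hη, hs⟩ := hHOM (n + 1) M (n + 1) 𝒮.toGrid 𝒮.Λ 𝒮.y (𝒮.R true) c y 𝒮.pt
      (fun z hz => (hy z (hc z hz)).1.zn) hL fun l hl g i =>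
        congr_mem (f' := fun z => 𝒮.xv (𝒮.R true) z (y z) g i) (hN g i) (fun z hz => by
          simpa only [Grid.xv, Pi.sub_apply, sub_sub_sub_cancel_right] using
            (hy z (hc z hz)).2.1 g i) l hl
    exact hSUMF (n + 1) M s 𝒮 η c y l ⟨𝒮.pt, hk, fun z hz => ⟨(hy z (hc z hz)).1,
      ⟨x z false, ((hx z (hc z hz)).1 false).1, hψ z (hc z hz)⟩, fun p hp =>
        (hy z (hc z hz)).2.2 p (union_subset_union_left subset_union_left hp)⟩, ⟨hη, p2⟩, hs⟩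

end Pool.Agent.P.MP_8b7eba_nt.SM
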