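import Pool.Agent.P.MP_8b7eba_nt.SM.IfC

/-! Proof of TILE. -/

namespace Pool.Agent.P.MP_8b7eba_nt.SM

open Finset

namespace TTILE

/-- the signature of a number -/
noncomputable def sig (L n : ℕ) : Finset ℕ × Finset (Finset ℕ) :=
  (sm L n, (la L n).image (Xk L (sm L n)))

variable {L : ℕ} {S : Finset ℕ} {p q : ℕ}

theorem self_mem (hp : p.Prime) : p ∈ Xk L S p := by
  classical
  simp only [Xk, mem_filter, mem_range, hp, implies_true, and_true]
  exact Nat.lt_pow_succ_log_self (by norm_num) p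

theorem of_mem (h : q ∈ Xk L S p) : q.Prime ∧ ce L q = ce L p ∧ Xk L S q = Xk L S p := by
  classical
  simp only [Xk, mem_filter] at h
  obtain ⟨-, h1, h2, h3⟩ := h
  refine ⟨h1, h2, ?_⟩
  have h4 : Nat.log 2 q = Nat.log 2 p := congrArg Prod.fst h2
  ext x
  simp only [Xk, mem_filter, h4, h2]
  refine and_congr_right fun _ => and_congr_right fun _ => and_congr_right fun _ =>
    forall_congr' fun a => forall_congr' fun ha => by rw [h3 a ha]

theorem large (h : ce L q = ce L p) (hq : q ≠ 0) {E : ℕ} (hp : 2 ^ E ≤ p) : 2 ^ E ≤ q := by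
  have h4 : Nat.log 2 q = Nat.log 2 p := congrArg Prod.fst h
  exact Nat.pow_le_of_le_log hq (h4 ▸ Nat.le_log_of_pow_le (by norm_num) hp)

theorem near (h : ce L q = ce L p) (hp : 2 ^ L ≤ p) : (q : ℝ) ≤ p * (1 + 1 / 2 ^ L) := by
  have h4 : Nat.log 2 q = Nat.log 2 p := congrArg Prod.fst h
  have h5 : q / 2 ^ (Nat.log 2 q - L) = p / 2 ^ (Nat.log 2 p - L) := congrArg Prod.snd h
  rw [h4] at h5
  have h6 : L ≤ Nat.log 2 p := Nat.le_log_of_pow_le (by norm_num) hp
  have h7 : 2 ^ (Nat.log 2 p - L) * 2 ^ L ≤ p := by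
    rw [← pow_add, Nat.sub_add_cancel h6]
    exact Nat.pow_log_le_self 2 (by have := Nat.one_le_two_pow (n := L); omega)
  set D := 2 ^ (Nat.log 2 p - L)
  have hD : 0 < D := by positivity
  have h8 : q ≤ p + D := by
    have a1 := Nat.div_add_mod q D
    have a2 := Nat.mod_lt q hD
    have a3 := Nat.mul_div_le p D
    rw [h5] at a1
    omega
  have h9 : (D : ℝ) ≤ p / 2 ^ L := by
    rw [le_div_iff₀ (by positivity)]
    exact_mod_cast h7
  have h10 : (q : ℝ) ≤ p + D := by exact_mod_cast h8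
  rw [mul_add, mul_one, mul_one_div]
  linarith

theorem pow_le {r : ℕ} (h : 2 * r ≤ 2 ^ L) : (1 + 1 / 2 ^ L : ℝ) ^ r ≤ 2 := by
  have h1 : (1 + 1 / 2 ^ L : ℝ) ≤ Real.exp (1 / 2 ^ L) := by
    linarith [Real.add_one_le_exp (1 / 2 ^ L)]
  have h2 : (r : ℝ) * (1 / 2 ^ L) ≤ 1 / 2 := by
    rw [mul_one_div, div_le_div_iff₀ (by positivity) (by positivity), one_mul, mul_comm]
    exact_mod_cast h
  calc _ ≤ Real.exp (1 / 2 ^ L) ^ r := pow_le_pow_left₀ (by positivity) h1 r
    _ = Real.exp (r * (1 / 2 ^ L)) := (Real.exp_nat_mul _ _).symm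
    _ ≤ Real.exp (1 / 2) := Real.exp_le_exp.2 h2
    _ ≤ 1 / (1 - 1 / 2) := Real.exp_bound_div_one_sub_of_interval (by norm_num) (by norm_num)
    _ = 2 := by norm_num

theorem sm_union_la (L n : ℕ) : sm L n ∪ la L n = n.primeFactors := by
  ext x
  simp only [sm, la, mem_union, mem_filter]
  constructor
  · rintro (h | h) <;> exact h.1
  · intro h
    rcases lt_or_ge x (2 ^ L ^ 7) with h1 | h1
    exacts [Or.inl ⟨h, h1⟩, Or.inr ⟨h, h1⟩]

theorem fiber {X n r : ℕ} {p : Fin r → ℕ} (hL : 1 ≤ L) (hX : n ≤ X) (hs : Squarefree n)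
    (hr : 2 * (la L n).card ≤ 2 ^ L) (hi : Set.InjOn (ce L) (la L n)) (hp : Function.Injective p)
    (he : univ.image p = la L n) :
    (Fintype.piFinset fun i => Xk L (sm L n) (p i)).card ≤
      ((Icc 1 (2 * X)).filter fun m => sig L m = sig L n).card := by
  classical
  have hm : ∀ i, p i ∈ la L n := fun i => he ▸ mem_image_of_mem _ (mem_univ i)
  have hb : ∀ i, 2 ^ L ^ 7 ≤ p i := fun i => (mem_filter.1 (hm i)).2
  have hS : ∀ x ∈ sm L n, x.Prime ∧ x < 2 ^ L ^ 7 := fun x hx =>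
    ⟨Nat.prime_of_mem_primeFactors (mem_filter.1 hx).1, (mem_filter.1 hx).2⟩
  have key : ∀ p' ∈ Fintype.piFinset fun i => Xk L (sm L n) (p i),
      (∏ x ∈ sm L n ∪ univ.image p', x).primeFactors = sm L n ∪ univ.image p' ∧
      sm L (∏ x ∈ sm L n ∪ univ.image p', x) = sm L n ∧
      la L (∏ x ∈ sm L n ∪ univ.image p', x) = univ.image p' ∧ ∀ i, 2 ^ L ^ 7 ≤ p' i := by
    intro p' hp'
    have h1 := fun i => of_mem (Fintype.mem_piFinset.1 hp' i)
    have h2 : ∀ i, 2 ^ L ^ 7 ≤ p' i := fun i => large (h1 i).2.1 (h1 i).1.ne_zero (hb i)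
    have h3 : (∏ x ∈ sm L n ∪ univ.image p', x).primeFactors = sm L n ∪ univ.image p' := by
      refine Nat.primeFactors_prod fun x hx => ?_
      rcases mem_union.1 hx with hx | hx
      · exact (hS x hx).1
      · obtain ⟨i, -, rfl⟩ := mem_image.1 hx
        exact (h1 i).1
    refine ⟨h3, ?_, ?_, h2⟩
    · rw [sm, h3, filter_union, filter_true_of_mem fun x hx => (hS x hx).2,
        filter_false_of_mem, union_empty]
      intro x hx
      obtain ⟨i, -, rfl⟩ := mem_image.1 hx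
      exact not_lt.2 (h2 i)
    · rw [la, h3, filter_union, filter_false_of_mem fun x hx => not_le.2 (hS x hx).2,
        filter_true_of_mem, empty_union]
      intro x hx
      obtain ⟨i, -, rfl⟩ := mem_image.1 hx
      exact h2 i
  have inj : ∀ p' ∈ Fintype.piFinset fun i => Xk L (sm L n) (p i),
      ∀ p'' ∈ Fintype.piFinset fun i => Xk L (sm L n) (p i), ∀ i j, p' i = p'' j → i = j := by
    intro p' hp' p'' hp'' i j e
    refine hp (hi (hm i) (hm j) ?_)
    rw [← (of_mem (Fintype.mem_piFinset.1 hp' i)).2.1, e,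
      (of_mem (Fintype.mem_piFinset.1 hp'' j)).2.1]
  refine card_le_card_of_injOn (fun p' => ∏ x ∈ sm L n ∪ univ.image p', x) (fun p' hp' => ?_)
    fun p' hp' p'' hp'' e => ?_
  · obtain ⟨k1, k2, k3, k4⟩ := key p' hp'
    have h1 := fun i => of_mem (Fintype.mem_piFinset.1 hp' i)
    have dj : ∀ u : Fin r → ℕ, (∀ i, 2 ^ L ^ 7 ≤ u i) → Disjoint (sm L n) (univ.image u) :=
      fun u hu => disjoint_left.2 fun x hx hx' => by
        obtain ⟨i, -, rfl⟩ := mem_image.1 hx'
        exact not_lt.2 (hu i) (hS _ hx).2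
    refine mem_coe.2 (mem_filter.2 ⟨mem_Icc.2 ⟨prod_pos fun x hx =>
      Nat.pos_of_mem_primeFactors (k1 ▸ hx), ?_⟩, ?_⟩)
    · have e1 : (∏ x ∈ sm L n, x) * ∏ i, p i = n := by
        rw [← prod_image (f := fun x => x) (s := univ) (g := p) fun i _ j _ e => hp e,
          ← prod_union (dj p hb), he, sm_union_la, Nat.prod_primeFactors_of_squarefree hs]
      have e2 : (∏ i, (p' i : ℝ)) ≤ (∏ i, (p i : ℝ)) * 2 := by
        have e3 : (la L n).card = r := by rw [← he, card_image_of_injective _ hp]; simp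
        calc _ ≤ ∏ i, (p i : ℝ) * (1 + 1 / 2 ^ L) :=
              prod_le_prod (fun i _ => by positivity) fun i _ => near (h1 i).2.1
                ((Nat.pow_le_pow_right two_pos (Nat.le_self_pow (by norm_num) L)).trans (hb i))
          _ = (∏ i, (p i : ℝ)) * (1 + 1 / 2 ^ L) ^ r := by
              rw [prod_mul_distrib, prod_const, card_univ, Fintype.card_fin]
          _ ≤ _ := mul_le_mul_of_nonneg_left (pow_le (e3 ▸ hr)) (by positivity)
      have e4 : ∏ i, p' i ≤ (∏ i, p i) * 2 := by exact_mod_cast e2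
      show ∏ x ∈ sm L n ∪ univ.image p', x ≤ 2 * X
      rw [prod_union (dj p' k4), prod_image fun i _ j _ e => inj p' hp' p' hp' i j e]
      calc _ ≤ (∏ x ∈ sm L n, x) * ((∏ i, p i) * 2) := Nat.mul_le_mul_left _ e4
        _ = 2 * n := by rw [← mul_assoc, e1, mul_comm]
        _ ≤ _ := by omega
    · rw [sig, sig, k2, k3, ← he, image_image, image_image]
      congr 2
      funext i
      exact (h1 i).2.2
  · have e1 : univ.image p' = univ.image p'' := by
      rw [← (key p' hp').2.2.1, ← (key p'' hp'').2.2.1]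
      exact congrArg (la L) e
    funext i
    obtain ⟨j, -, hj⟩ := mem_image.1 (e1 ▸ mem_image_of_mem p' (mem_univ i))
    rw [← hj, inj p' hp' p'' hp'' i j hj.symm]

theorem onto {n m r : ℕ} {p : Fin r → ℕ} (he : univ.image p = la L n)
    (hi : Set.InjOn (ce L) (la L m)) (h : sig L m = sig L n) :
    ∃ p' ∈ Fintype.piFinset fun i => Xk L (sm L n) (p i),
      sm L n ∪ univ.image p' = m.primeFactors := by
  classical
  have h1 : sm L m = sm L n := congrArg Prod.fst h
  have h2 : (la L m).image (Xk L (sm L m)) = (la L n).image (Xk L (sm L n)) :=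
    congrArg Prod.snd h
  rw [h1, ← he, image_image] at h2
  have hpr : ∀ x ∈ la L m, x.Prime := fun x hx =>
    Nat.prime_of_mem_primeFactors (mem_filter.1 hx).1
  choose p' a1 a2 using fun i => mem_image.1 (h2 ▸ mem_image_of_mem _ (mem_univ i))
  refine ⟨p', Fintype.mem_piFinset.2 fun i => ?_, ?_⟩
  · exact (show _ = Xk L (sm L n) (p i) from a2 i) ▸ self_mem (hpr _ (a1 i))
  · rw [← sm_union_la L m, h1]
    congr 1
    refine Subset.antisymm (image_subset_iff.2 fun i _ => a1 i) fun x hx => ?_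
    obtain ⟨i, -, hi'⟩ := mem_image.1 (h2 ▸ mem_image_of_mem _ hx)
    have h3 : x ∈ Xk L (sm L n) (p' i) := by
      rw [a2 i, hi']
      exact self_mem (hpr x hx)
    exact mem_image.2 ⟨i, mem_univ i, (hi hx (a1 i) (of_mem h3).2.1).symm⟩

end TTILE

open TTILE in
theorem t_TILE : TILE := by
  intro Bad ε L X 𝒩 hε hL h
  classical
  have h1 : ∀ s ∈ 𝒩.image (sig L),
      ((((𝒩.filter fun n => Bad n.primeFactors).filter fun n => sig L n = s).card : ℕ) : ℝ) ≤
        ε * ((Icc 1 (2 * X)).filter fun m => sig L m = s).card := by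
    intro s hs
    obtain ⟨n, hn, rfl⟩ := mem_image.1 hs
    obtain ⟨b1, b2, b3, b4, r, p, b5, b6, b7⟩ := h n hn
    refine le_trans ?_ (b7.trans (mul_le_mul_of_nonneg_left
      (Nat.cast_le.2 (fiber hL b1 b2 b3 b4 b5 b6)) hε))
    refine Nat.cast_le.2 (card_le_card_of_surjOn (fun p' => ∏ x ∈ sm L n ∪ univ.image p', x)
      fun m hm => ?_)
    obtain ⟨c1, c2⟩ := mem_filter.1 (mem_coe.1 hm)
    obtain ⟨c3, c4⟩ := mem_filter.1 c1
    obtain ⟨p', d1, d2⟩ := onto b6 (h m c3).2.2.2.1 c2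
    refine ⟨p', mem_coe.2 (mem_filter.2 ⟨d1, d2 ▸ c4⟩), ?_⟩
    show ∏ x ∈ sm L n ∪ univ.image p', x = m
    rw [d2, Nat.prod_primeFactors_of_squarefree (h m c3).2.1]
  have h2 : ∑ s ∈ 𝒩.image (sig L), ((Icc 1 (2 * X)).filter fun m => sig L m = s).card ≤ 2 * X := by
    rw [sum_card_fiberwise_eq_card_filter]
    exact (card_filter_le _ _).trans (by simp)
  rw [card_eq_sum_card_fiberwise (f := sig L) (t := 𝒩.image (sig L))
    fun n hn => mem_coe.2 (mem_image_of_mem _ (mem_filter.1 (mem_coe.1 hn)).1), Nat.cast_sum]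
  refine (sum_le_sum h1).trans ?_
  rw [← mul_sum, ← Nat.cast_sum, show 2 * ε * X = ε * ((2 * X : ℕ) : ℝ) by push_cast; ring]
  exact mul_le_mul_of_nonneg_left (Nat.cast_le.2 h2) hε

end Pool.Agent.P.MP_8b7eba_nt.SM
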