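import Pool.Agent.P.MP_8b7eba_nt.SM.IfG
import Pool.Agent.P.MP_8b7eba_nt.SM.BasH
import Pool.Agent.P.MP_8b7eba_nt.R2.LC

/-! Proof of XI. -/

namespace Pool.Agent.P.MP_8b7eba_nt.SM

open Finset R2
open scoped Matrix

namespace TXI

variable {H H' : Subgroup GQ} {P : Finset ℕ} {α χ : GQ → F2} {t g : GQ} {n : ℕ}

/-- `S` is covered by `n` functions -/
def Cv (H : Subgroup GQ) (S : Set (GQ → F2)) (n : ℕ) : Prop :=
  ∃ Ξ : Finset (GQ → F2), Ξ.card ≤ n ∧ ∀ χ ∈ S, ∃ ξ ∈ Ξ, ∀ g ∈ H, χ g = ξ g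

/-- unramified outside `P` -/
def Ur (P : Finset ℕ) (χ : GQ → F2) : Prop := ∀ w : Pl, w.p ∉ P → ∀ g ∈ w.I, χ g = 0

/-- the characters which are unramified outside `P` -/
def A (P : Finset ℕ) (H : Subgroup GQ) : Set (GQ → F2) := {χ | IsCh H χ ∧ Ur P χ}

theorem Cv.mul {Y : Type} {S K : Set (GQ → F2)} (B : Finset Y) (q : (GQ → F2) → Y → Prop)
    (hB : ∀ x ∈ S, ∃ b ∈ B, q x b)
    (hK : ∀ x ∈ S, ∀ y ∈ S, ∀ b, q x b → q y b → (fun g => x g + y g) ∈ K)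
    (h : Cv H K n) : Cv H S (B.card * n) := by
  classical
  obtain ⟨Ξ, h1, h2⟩ := h
  choose! c hc using fun (b : Y) (e : ∃ x, x ∈ S ∧ q x b) => e
  refine ⟨image₂ (fun b ξ => c b + ξ) B Ξ, (card_image₂_le _ _ _).trans (Nat.mul_le_mul_left _ h1),
    fun x hx => ?_⟩
  obtain ⟨b, hb, e⟩ := hB x hx
  obtain ⟨h3, h4⟩ := hc b ⟨x, hx, e⟩
  obtain ⟨ξ, h5, h6⟩ := h2 _ (hK _ h3 x hx b h4 e)
  refine ⟨_, mem_image₂_of_mem hb h5, fun g hg => ?_⟩
  rw [Pi.add_apply, ← h6 g hg, ← add_assoc, LC.two, zero_add]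

theorem A.add {x y : GQ → F2} (hx : x ∈ A P H) (hy : y ∈ A P H) : (fun g => x g + y g) ∈ A P H :=
  ⟨hx.1.add hy.1, fun w hw g hg => by simp only [hx.2 w hw g hg, hy.2 w hw g hg, add_zero]⟩

theorem cj (hα : IsCh ⊤ α) (hk : IsKer H H' α) (ht : t ∈ H) (hg : g ∈ H') : t⁻¹ * g * t ∈ H' :=
  (hk _).2 ⟨mul_mem (mul_mem (inv_mem ht) ((hk g).1 hg).1) ht, by
    simpa [((hk g).1 hg).2] using hα.conj t⁻¹ g⟩

/-- extension of an invariant character -/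
theorem ext (hα : IsCh ⊤ α) (hu : Ur P α) (hk : IsKer H H' α) (ht : t ∈ H) (h1 : α t = 1)
    (hχ : χ ∈ A P H') (hi : ∀ g ∈ H', χ (t⁻¹ * g * t) = χ g) (h0 : χ (t * t) = 0) :
    ∃ χ' ∈ A P H, ∀ g ∈ H', χ g = χ' g := by
  have a := fun g h => hα.2 g trivial h trivial
  have ai : α t⁻¹ = 1 := by rw [hα.inv trivial, h1]; rfl
  have m : ∀ g ∈ H, α g = 1 → t⁻¹ * g ∈ H' := fun g hg e =>
    (hk _).2 ⟨mul_mem (inv_mem ht) hg, by rw [a, ai, e]; rfl⟩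
  have n1 : ¬ (1 : F2) = 0 := one_ne_zero
  refine ⟨fun g => if α g = 0 then χ g else χ (t⁻¹ * g), ⟨⟨?_, fun g hg h hh => ?_⟩,
    fun w hw g hg => ?_⟩, fun g hg => (if_pos ((hk g).1 hg).2).symm⟩
  · obtain ⟨N, hN, e⟩ := hα.1
    obtain ⟨N', hN', e'⟩ := hχ.1.1
    refine ⟨_, hN.inf hN', fun g hg k hh hn => ?_⟩
    have e1 : k ∈ H' := (hk k).2 ⟨hh, by simpa [hα.one] using e 1 trivial k trivial hn.1⟩
    beta_reduce
    rw [e g trivial k trivial hn.1]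
    rcases LC.cases (α g) with c | c
    · rw [if_pos c, if_pos c, e' g ((hk g).2 ⟨hg, c⟩) k e1 hn.2]
    · rw [c, if_neg n1, if_neg n1, ← mul_assoc, e' _ (m g hg c) k e1 hn.2]
  · beta_reduce
    rw [a]
    rcases LC.cases (α g) with c | c <;> rcases LC.cases (α h) with c' | c' <;> rw [c, c']
    · rw [add_zero, if_pos rfl, if_pos rfl, if_pos rfl,
        hχ.1.2 g ((hk g).2 ⟨hg, c⟩) h ((hk h).2 ⟨hh, c'⟩)]
    · rw [zero_add, if_pos rfl, if_neg n1, if_neg n1, ← hi g ((hk g).2 ⟨hg, c⟩),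
        ← hχ.1.2 _ (cj hα hk ht ((hk g).2 ⟨hg, c⟩)) _ (m h hh c')]
      congr 1
      group
    · rw [add_zero, if_pos rfl, if_neg n1, if_neg n1, ← mul_assoc,
        hχ.1.2 _ (m g hg c) h ((hk h).2 ⟨hh, c'⟩)]
    · have e1 : g * t⁻¹ ∈ H' := (hk _).2 ⟨mul_mem hg (inv_mem ht), by rw [a, ai, c]; rfl⟩
      have e2 : t * t ∈ H' := (hk _).2 ⟨mul_mem ht ht, by rw [a, h1]; rfl⟩
      have e3 := hi _ e1
      rw [mul_assoc, inv_mul_cancel_right] at e3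
      rw [LC.two, if_pos rfl, if_neg n1, if_neg n1, e3,
        show g * h = g * t⁻¹ * (t * t) * (t⁻¹ * h) by group,
        hχ.1.2 _ (mul_mem e1 e2) _ (m h hh c'), hχ.1.2 _ e1 _ e2, h0, add_zero]
  · beta_reduce
    rw [if_pos (hu w hw g hg), hχ.2 w hw g hg]

/-- passage to a subgroup of index at most two -/
theorem step (hα : IsCh ⊤ α) (hu : Ur P α) (hk : IsKer H H' α) (h : Cv H (A P H) n) :
    Cv H' (A P H') (2 * n * (2 * n)) := by
  by_cases e : ∃ t ∈ H, α t = 1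
  · obtain ⟨t, ht, h1⟩ := e
    have e2 : t * t ∈ H' := (hk _).2 ⟨mul_mem ht ht, by rw [hα.2 t trivial t trivial, h1]; rfl⟩
    have h2 : Cv H' {χ | (χ ∈ A P H' ∧ ∀ g ∈ H', χ (t⁻¹ * g * t) = χ g) ∧ χ (t * t) = 0} n := by
      obtain ⟨Ξ, h3, h4⟩ := h
      refine ⟨Ξ, h3, fun χ hχ => ?_⟩
      obtain ⟨χ', h5, h6⟩ := ext hα hu hk ht h1 hχ.1.1 hχ.1.2 hχ.2
      obtain ⟨ξ, h7, h8⟩ := h4 χ' h5
      exact ⟨ξ, h7, fun g hg => (h6 g hg).trans (h8 g ((hk g).1 hg).1)⟩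
    have h3 : Cv H' {χ | χ ∈ A P H' ∧ ∀ g ∈ H', χ (t⁻¹ * g * t) = χ g} (2 * n) :=
      Cv.mul (K := {χ | (χ ∈ A P H' ∧ ∀ g ∈ H', χ (t⁻¹ * g * t) = χ g) ∧ χ (t * t) = 0})
        (univ : Finset F2) (fun χ b => χ (t * t) = b) (fun _ _ => ⟨_, mem_univ _, rfl⟩)
        (fun x hx y hy b e e' => ⟨⟨A.add hx.1 hy.1, fun g hg => by
          simp only [hx.2 g hg, hy.2 g hg]⟩, by simp only [e, e', LC.two]⟩) h2
    obtain ⟨Ξ, h4, h5⟩ := id h3
    obtain ⟨Ξ', h6, h7⟩ := Cv.mul (S := A P H') (K := {χ | χ ∈ A P H' ∧ ∀ g ∈ H', χ (t⁻¹ * g * t) = χ g}) Ξ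
      (fun χ ξ => ∀ g ∈ H', χ g + χ (t⁻¹ * g * t) = ξ g)
      (fun χ hχ => h5 _ ⟨A.add hχ ⟨⟨hχ.1.1.conj t fun g hg => cj hα hk ht hg, fun g hg k hh => by
          beta_reduce
          rw [← hχ.1.2 _ (cj hα hk ht hg) _ (cj hα hk ht hh)]
          congr 1
          group⟩, fun w hw g hg => hχ.2 (t⁻¹ • w) hw _ (Pl.mem_I_smul.2 (by
            simpa [mul_assoc] using hg))⟩, fun g hg => by
        beta_reduce
        rw [show t⁻¹ * (t⁻¹ * g * t) * t = (t * t)⁻¹ * g * (t * t) by group,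
          hχ.1.2 _ (mul_mem (inv_mem e2) hg) _ e2, hχ.1.2 _ (inv_mem e2) _ hg, hχ.1.inv e2]
        ring⟩)
      (fun x hx y hy b e e' => ⟨A.add hx hy, fun g hg => by
        have := (e g hg).trans (e' g hg).symm
        beta_reduce
        linear_combination this + LC.two (y (t⁻¹ * g * t)) - LC.two (x g)⟩) h3
    exact ⟨Ξ', h6.trans (Nat.mul_le_mul_right _ h4), h7⟩
  · obtain rfl : H' = H := Subgroup.ext fun g => (hk g).trans (and_iff_left_of_imp fun hg =>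
      (LC.cases _).resolve_right fun c => e ⟨g, hg, c⟩)
    obtain ⟨Ξ, h1, h2⟩ := h
    exact ⟨Ξ, h1.trans (by nlinarith), h2⟩

variable [HA]

theorem base (h2 : 2 ∈ P) : Cv ⊤ (A P ⊤) (2 ^ (P.card + 1)) := by
  classical
  refine ⟨image₂ (fun (e : ℤ) (T : Finset ℕ) => qz (e * ((∏ p ∈ T, p : ℕ) : ℤ))) {1, -1} P.powerset,
    (card_image₂_le _ _ _).trans ?_, fun χ hχ => ?_⟩
  · rw [card_powerset, pow_succ']
    exact Nat.mul_le_mul_right _ card_le_two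
  · obtain ⟨m, hm, rfl⟩ := exists_qz hA hχ.1
    refine ⟨_, mem_image₂_of_mem (a := m.sign) (b := m.natAbs.primeFactors) ?_ ?_, fun g _ => ?_⟩
    · rcases lt_trichotomy m 0 with c | c | c
      · simp [Int.sign_eq_neg_one_of_neg c]
      · exact absurd c hm.ne_zero
      · simp [Int.sign_eq_one_of_pos c]
    · refine mem_powerset.2 fun p hp => by_contra fun c => ?_
      have p1 := Nat.prime_of_mem_primeFactors hp
      have p2 : p ≠ 2 := fun e => c (e ▸ h2)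
      have e := pl_p p1
      refine (qz_gen hA (w := pl p) (by rwa [e]) (tp_I p1 p2) (by rw [e]; exact tp_mov p1 p2)
        hm).1 (hχ.2 _ (by rwa [e]) _ (tp_I p1 p2)) ?_
      rw [e]
      exact Int.natCast_dvd.2 (Nat.dvd_of_mem_primeFactors hp)
    · rw [Nat.prod_primeFactors_of_squarefree (Int.squarefree_natAbs.2 hm), Int.sign_mul_natAbs]

end TXI

variable [HA]

theorem t_XI : XI := by
  classical
  intro σ _ m P h2 hP
  have key : ∀ U : Finset σ, ∃ d, d + 2 ≤ 2 ^ U.card * (P.card + 3) ∧ ∀ H : Subgroup GQ,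
      (∀ g, g ∈ H ↔ ∀ s ∈ U, qz (m.n s) g = 0) → TXI.Cv H (TXI.A P H) (2 ^ d) := fun U => by
    induction U using Finset.induction_on with
    | empty =>
      refine ⟨P.card + 1, by simp, fun H h => ?_⟩
      obtain rfl : H = ⊤ := eq_top_iff.2 fun g _ => (h g).2 (by simp)
      exact TXI.base h2
    | insert s U hs ih =>
      obtain ⟨d, h1, h3⟩ := ih
      refine ⟨2 * d + 2, by rw [card_insert_of_notMem hs, pow_succ', mul_assoc]; omega,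
        fun H h => ?_⟩
      have h4 : ∀ g, g ∈ (⨅ s ∈ U, MulAction.stabilizer GQ (rt (m.n s))) ↔
          ∀ s ∈ U, qz (m.n s) g = 0 := fun g => by
        simp [Subgroup.mem_iInf, qz_eq_zero (rt_sq _), AlgEquiv.smul_def]
      have h5 := TXI.step (isCh_qz (m.n s)) (fun w hw g hg => qz_I hA (fun e => hw ?_) hg)
        (H' := H) (fun g => by rw [h, h4, forall_mem_insert, and_comm]) (h3 _ h4)
      · convert h5 using 1
        ring
      · rcases (Nat.prime_iff_prime_int.1 w.prime).dvd_or_dvd e with e | e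
        · rwa [(Nat.prime_dvd_prime_iff_eq w.prime Nat.prime_two).1 (by exact_mod_cast e)]
        · exact hP s _ w.prime e
  obtain ⟨d, h1, h3⟩ := key univ
  obtain ⟨Ξ, h4, h5⟩ := h3 m.H fun g => by
    simp [MQ.H, Subgroup.mem_iInf, qz_eq_zero (rt_sq _), AlgEquiv.smul_def]
  exact ⟨Ξ, h4.trans (Nat.pow_le_pow_right two_pos (by rw [← card_univ]; omega)),
    fun χ a b => h5 χ ⟨a, b⟩⟩

end Pool.Agent.P.MP_8b7eba_nt.SM
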