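import Pool.Agent.P.MP_8b7eba_nt.SM.IfG
import Pool.Agent.P.MP_8b7eba_nt.SM.BasL
import Pool.Agent.P.MP_8b7eba_nt.SM.BasW
import Pool.Agent.P.MP_8b7eba_nt.SM.BasN

/-! Proof of ZERO. -/

namespace Pool.Agent.P.MP_8b7eba_nt.SM

open Finset R2
open scoped Matrix

variable [HA]

theorem t_ZERO : ZERO := by
  intro Λ S n x y u l hS hx hy e hl hu
  choose v hv using fun g => dv_iff.1 (rd_eq.1 (e g))
  rw [show n + 2 = 1 + (n + 1) by omega] at hx hy
  have hz : Λ.Zn (chi S) ⊤ (n + 1) v := (Lat.zn_pow fun g _ => hv g).1 (hy.zn.sub hx.zn)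
  have h := recp (S := S ∪ T30) (f := Λ.wp (chi S) (n + 1) v u)
    (fun p hp => (mem_union.1 hp).elim (fun a => (hS p a).1) fun a => (mem_T30.1 a).1)
    (Lat.wp_co (isCh_chi S) hz hu.zn)
    (Lat.wp_iso (isCh_chi S) False.elim ((Lat.lc_pow fun g _ => hv g).1 (hy.inf.sub hx.inf)) hu.inf)
    fun w hw => ?_
  · rw [prod_congr rfl (g := fun p => (-1) ^ (iv p (d2 (l p) fun g => rd (u g))).val)
      fun p hp => ?_, ← BasN.e_sum] at h
    · exact LC.e_inj.1 (h.trans (by simp))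
    · have h1 := (hl p hp).2
      rw [show n + 1 + 1 = 1 + (n + 1) by omega] at h1
      have h2 : Λ.Lc (p = 2) (chi S) (pl p).D (n + 1) fun g => v g - (2 : Z2) ^ n • lf (l p g) :=
        (Lat.lc_pow (j := 1) fun g _ => by
          rw [smul_sub, ← hv g, smul_smul, ← pow_add, add_comm 1 n]
          abel).1 (h1.sub (hx.loc p hp))
      have h3 := Lat.wp_iso (isCh_chi S) (fun a => by rw [a]) h2 (hu.loc p hp)
      have h4 := co2_d2 (hl p hp).1 (hu.zn.mono le_top le_rfl).isCh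
      have h5 := Λ.wp_add (chi S) (n + 1) (fun g => v g - (2 : Z2) ^ n • lf (l p g))
        (fun g => (2 : Z2) ^ n • lf (l p g)) u
      simp only [sub_add_cancel] at h5
      rw [h5, Lat.wp_pow, (hA.inv _ _ (pl p).loc_D).mul _ _ h3.co2T h4.sgnT,
        (hA.inv _ _ (pl p).loc_D).triv _ h3.co2 h3, one_mul, nv_iv h4]
  · have h1 : w.p ∉ S := fun a => hw (mem_union_left _ a)
    have h2 : ¬ w.p ∣ 30 := fun a => hw (mem_union_right _ (mem_T30.2 ⟨w.prime, a⟩))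
    exact Lat.wp_unr h2 (isCh_chi S) (fun g hg => chi_I hS h1 hg) (hz.mono le_top le_rfl)
      (hu.zn.mono le_top le_rfl) fun g hg => ⟨dv_pow.1
        (hv g ▸ (hy.unr w h2 h1 g hg).sub (hx.unr w h2 h1 g hg)), hu.unr w h2 h1 g hg⟩

end Pool.Agent.P.MP_8b7eba_nt.SM
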