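import Pool.Agent.P.MP_8b7eba_nt.R2.AllL
import Pool.Agent.P.MP_8b7eba_nt.SM.TANA1
import Pool.Agent.P.MP_8b7eba_nt.SM.TANA2
import Pool.Agent.P.MP_8b7eba_nt.SM.TAVG
import Pool.Agent.P.MP_8b7eba_nt.SM.TBIL
import Pool.Agent.P.MP_8b7eba_nt.SM.TBIL2
import Pool.Agent.P.MP_8b7eba_nt.SM.TBOXL
import Pool.Agent.P.MP_8b7eba_nt.SM.TBX2
import Pool.Agent.P.MP_8b7eba_nt.SM.TBX3
import Pool.Agent.P.MP_8b7eba_nt.SM.TCHY
import Pool.Agent.P.MP_8b7eba_nt.SM.TCLOS2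
import Pool.Agent.P.MP_8b7eba_nt.SM.TCNT1
import Pool.Agent.P.MP_8b7eba_nt.SM.TCORE
import Pool.Agent.P.MP_8b7eba_nt.SM.TDENS0
import Pool.Agent.P.MP_8b7eba_nt.SM.TDUAL
import Pool.Agent.P.MP_8b7eba_nt.SM.TEQ
import Pool.Agent.P.MP_8b7eba_nt.SM.TEX1
import Pool.Agent.P.MP_8b7eba_nt.SM.TEX5
import Pool.Agent.P.MP_8b7eba_nt.SM.TEX6
import Pool.Agent.P.MP_8b7eba_nt.SM.TEX8
import Pool.Agent.P.MP_8b7eba_nt.SM.TFINC
import Pool.Agent.P.MP_8b7eba_nt.SM.TFOUR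
import Pool.Agent.P.MP_8b7eba_nt.SM.TGENA
import Pool.Agent.P.MP_8b7eba_nt.SM.TGLIFT
import Pool.Agent.P.MP_8b7eba_nt.SM.TGOV0
import Pool.Agent.P.MP_8b7eba_nt.SM.TGOV1
import Pool.Agent.P.MP_8b7eba_nt.SM.TGOVX
import Pool.Agent.P.MP_8b7eba_nt.SM.TGRID
import Pool.Agent.P.MP_8b7eba_nt.SM.THBX
import Pool.Agent.P.MP_8b7eba_nt.SM.THOM
import Pool.Agent.P.MP_8b7eba_nt.SM.TKUM0
import Pool.Agent.P.MP_8b7eba_nt.SM.TKUM1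
import Pool.Agent.P.MP_8b7eba_nt.SM.TKUM2
import Pool.Agent.P.MP_8b7eba_nt.SM.TLAM
import Pool.Agent.P.MP_8b7eba_nt.SM.TLATX
import Pool.Agent.P.MP_8b7eba_nt.SM.TMERT
import Pool.Agent.P.MP_8b7eba_nt.SM.TMOD2
import Pool.Agent.P.MP_8b7eba_nt.SM.TMODEL
import Pool.Agent.P.MP_8b7eba_nt.SM.TNORM
import Pool.Agent.P.MP_8b7eba_nt.SM.TNUM
import Pool.Agent.P.MP_8b7eba_nt.SM.TOG
import Pool.Agent.P.MP_8b7eba_nt.SM.TOGA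
import Pool.Agent.P.MP_8b7eba_nt.SM.TOGB
import Pool.Agent.P.MP_8b7eba_nt.SM.TOSCA
import Pool.Agent.P.MP_8b7eba_nt.SM.TRA1
import Pool.Agent.P.MP_8b7eba_nt.SM.TRA2
import Pool.Agent.P.MP_8b7eba_nt.SM.TRAMW
import Pool.Agent.P.MP_8b7eba_nt.SM.TRANK
import Pool.Agent.P.MP_8b7eba_nt.SM.TRED0
import Pool.Agent.P.MP_8b7eba_nt.SM.TRED1
import Pool.Agent.P.MP_8b7eba_nt.SM.TRESK
import Pool.Agent.P.MP_8b7eba_nt.SM.TRING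
import Pool.Agent.P.MP_8b7eba_nt.SM.TSAT
import Pool.Agent.P.MP_8b7eba_nt.SM.TSHW
import Pool.Agent.P.MP_8b7eba_nt.SM.TSMALL
import Pool.Agent.P.MP_8b7eba_nt.SM.TSTEP
import Pool.Agent.P.MP_8b7eba_nt.SM.TSTP0
import Pool.Agent.P.MP_8b7eba_nt.SM.TSTP1
import Pool.Agent.P.MP_8b7eba_nt.SM.TSTP2
import Pool.Agent.P.MP_8b7eba_nt.SM.TSTP3
import Pool.Agent.P.MP_8b7eba_nt.SM.TSTP4
import Pool.Agent.P.MP_8b7eba_nt.SM.TSTR1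
import Pool.Agent.P.MP_8b7eba_nt.SM.TSTR2
import Pool.Agent.P.MP_8b7eba_nt.SM.TSUB
import Pool.Agent.P.MP_8b7eba_nt.SM.TSUMF
import Pool.Agent.P.MP_8b7eba_nt.SM.TSUML
import Pool.Agent.P.MP_8b7eba_nt.SM.TSUP
import Pool.Agent.P.MP_8b7eba_nt.SM.TSYS1
import Pool.Agent.P.MP_8b7eba_nt.SM.TSYS2
import Pool.Agent.P.MP_8b7eba_nt.SM.TSYS3
import Pool.Agent.P.MP_8b7eba_nt.SM.TTILE
import Pool.Agent.P.MP_8b7eba_nt.SM.TTK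
import Pool.Agent.P.MP_8b7eba_nt.SM.TXI
import Pool.Agent.P.MP_8b7eba_nt.SM.TZERO

/-! All the statements of the project SM hold. -/

namespace Pool.Agent.P.MP_8b7eba_nt.SM

instance : HA := ⟨R2.a_CF, R2.a_GTH⟩

theorem a_TILE : TILE := t_TILE

theorem a_ANA1 : ANA1 := t_ANA1

theorem a_MERT : MERT := t_MERT

theorem a_EX1 : EX1 := t_EX1 a_MERT

theorem a_EX2 : EX2 := t_EX2 a_MERT

theorem a_EX3 : EX3 := t_EX3 a_MERT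

theorem a_EX4 : EX4 := t_EX4 a_MERT

theorem a_EX5 : EX5 := t_EX5

theorem a_TK : TK := t_TK

theorem a_EX6 : EX6 := t_EX6 a_MERT a_TK

theorem a_CHAR : CHAR := t_CHAR a_MERT

theorem a_EX7 : EX7 := t_EX7 a_TK a_CHAR

theorem a_SIEVE : SIEVE := t_SIEVE

theorem a_EX8 : EX8 := t_EX8 a_SIEVE a_CHAR

theorem a_ANA2 : ANA2 := t_ANA2 a_EX1 a_EX2 a_EX3 a_EX4 a_EX5 a_EX6 a_EX7 a_EX8

theorem a_ANA : ANA := t_ANA a_TILE a_ANA1 a_ANA2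

theorem a_MODEL : MODEL := t_MODEL

theorem a_FIB : FIB := t_FIB

theorem a_AVG : AVG := t_AVG

theorem a_BIL : BIL := t_BIL

theorem a_BIL2 : BIL2 := t_BIL2 a_BIL

theorem a_OZ : OZ := t_OZ a_BIL2

theorem a_FOUR : FOUR := t_FOUR

theorem a_SLOT : SLOT := t_SLOT

theorem a_OSCA : OSCA := t_OSCA a_FOUR a_SLOT

theorem a_LAM : LAM := t_LAM

theorem a_CNT1 : CNT1 := t_CNT1

theorem a_STR1 : STR1 := t_STR1 a_LAM a_CNT1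

theorem a_DUAL : DUAL := t_DUAL

theorem a_STR2 : STR2 := t_STR2 a_LAM a_DUAL

theorem a_HOEF : HOEF := t_HOEF

theorem a_CORE : CORE := t_CORE a_STR1 a_STR2 a_HOEF

theorem a_HBX : HBX := t_HBX

theorem a_NAK : NAK := t_NAK a_DUAL

theorem a_HOM : HOM := t_HOM

theorem a_SYS1 : SYS1 := t_SYS1 a_NAK a_HOM

theorem a_CLOS1 : CLOS1 := t_CLOS1

theorem a_CLOS2 : CLOS2 := t_CLOS2

theorem a_SUB : SUB := t_SUB

theorem a_SYS2 : SYS2 := t_SYS2 a_SYS1 a_CLOS1 a_CLOS2 a_SUB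

theorem a_GLIFT : GLIFT := t_GLIFT

theorem a_ZERO : ZERO := t_ZERO

theorem a_SUML : SUML := t_SUML

theorem a_SUMF : SUMF := t_SUMF a_SUML

theorem a_SYS3 : SYS3 := t_SYS3 a_GLIFT a_ZERO a_SYS1 a_HOM a_SUMF

theorem a_GRID : GRID := t_GRID a_CORE a_HBX a_SYS2 a_SYS3

theorem a_STP0 : STP0 := t_STP0

theorem a_STP1 : STP1 := t_STP1 a_GRID a_STP0

theorem a_RING : RING := t_RING

theorem a_MQH : MQH := t_MQH

theorem a_CHY : CHY := t_CHY a_MQH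

theorem a_XI : XI := t_XI

theorem a_SMALL : SMALL := t_SMALL

theorem a_RAMW : RAMW := t_RAMW a_MQH

theorem a_OGB : OGB := t_OGB a_XI a_MQH a_SMALL a_RAMW

theorem a_OGA : OGA := t_OGA a_BIL2 a_RING a_CHY a_OGB

theorem a_MONO : MONO := t_MONO

theorem a_OG : OG := t_OG a_OGA a_MQH a_MONO

theorem a_STP2 : STP2 := t_STP2 a_OG a_STP0

theorem a_SUP0 : SUP0 := t_SUP0

theorem a_SUP : SUP := t_SUP a_SUP0

theorem a_GOV0 : GOV0 := t_GOV0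

theorem a_GOV1 : GOV1 := t_GOV1 a_GOV0

theorem a_GOVX : GOVX := t_GOVX a_GOV1

theorem a_STP4 : STP4 := t_STP4 a_SUP a_GOVX a_STP0

theorem a_NUM : NUM := t_NUM

theorem a_STP3 : STP3 := t_STP3 a_AVG a_OZ a_OSCA a_STP1 a_STP2 a_STP4 a_NUM

theorem a_STEP : STEP := t_STEP a_FIB a_STP3

theorem a_BX1 : BX1 := t_BX1 a_STEP

theorem a_NORM : NORM := t_NORM

theorem a_TYP : TYP := t_TYP

theorem a_BX2 : BX2 := t_BX2 a_BX1 a_NORM a_TYP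

theorem a_RANK : RANK := t_RANK

theorem a_PAT1 : PAT1 := t_PAT1

theorem a_GENA : GENA := t_GENA a_RANK a_PAT1

theorem a_EQ : EQ := t_EQ a_FOUR

theorem a_MOD2 : MOD2 := t_MOD2

theorem a_BX3 : BX3 := t_BX3 a_GENA a_EQ a_OZ a_MOD2

theorem a_BOXL : BOXL := t_BOXL a_MODEL a_BX2 a_BX3

theorem a_LATX : LATX := t_LATX

theorem a_FINC : FINC := t_FINC

theorem a_RA1 : RA1 := t_RA1 a_FINC

theorem a_RA2 : RA2 := t_RA2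

theorem a_SAT : SAT := t_SAT

theorem a_RED0 : RED0 := t_RED0 a_RA1 a_RA2 a_SAT

theorem a_SHW : SHW := t_SHW

theorem a_BAS : BAS := t_BAS

theorem a_RED1 : RED1 := t_RED1 a_SHW a_BAS

theorem a_DENS0 : DENS0 := t_DENS0 a_ANA a_BOXL a_LATX a_RED0 a_RED1

theorem a_SQD : SQD := t_SQD

theorem a_KUM0 : KUM0 := t_KUM0

theorem a_KUM1 : KUM1 := t_KUM1

theorem a_KUM2 : KUM2 := t_KUM2 R2.a_CP

theorem a_KUM : KUM := t_KUM a_KUM0 a_KUM1 a_KUM2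

theorem a_RESK : RESK := t_RESK R2.a_CP

end Pool.Agent.P.MP_8b7eba_nt.SM
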