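import Pool.Agent.P.MP_8b7eba_nt.SM.IfC

/-! Proof of FOUR. -/

namespace Pool.Agent.P.MP_8b7eba_nt.SM

open Finset

namespace TFOUR

theorem sr_zero : sr 0 = 1 := by simp [sr]

theorem sr_one : sr 1 = -1 := by
  have : (1 : F2).val = 1 := rfl
  simp [sr, this]

theorem f2 (a : F2) : a = 0 ∨ a = 1 := by revert a; decide

theorem sr_add (a b : F2) : sr (a + b) = sr a * sr b := by
  have h2 : (1 : F2) + 1 = 0 := by decide
  rcases f2 a with rfl | rfl <;> rcases f2 b with rfl | rfl <;> simp [sr_zero, sr_one, h2]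

theorem sr_sum {A : Type} (s : Finset A) (f : A → F2) : sr (∑ a ∈ s, f a) = ∏ a ∈ s, sr (f a) := by
  classical
  induction s using Finset.induction_on with
  | empty => simp [sr_zero]
  | insert a s ha ih => rw [sum_insert ha, prod_insert ha, sr_add, ih]

end TFOUR

open TFOUR

theorem t_FOUR : FOUR := by
  intro A _ _ χ g
  have h1 : ∀ e : A → F2, sr (∑ a, e a * g a) * sr (∑ a, e a * χ a) =
      ∏ a, sr (e a * (g a + χ a)) := by
    intro e
    rw [← sr_add, ← sum_add_distrib, sr_sum]
    exact prod_congr rfl fun a _ => by rw [mul_add]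
  have h2 : ∑ e : A → F2, ∏ a, sr (e a * (g a + χ a)) = ∏ a, ∑ x : F2, sr (x * (g a + χ a)) := by
    rw [prod_univ_sum, Fintype.piFinset_univ]
  have h3 : ∀ y : F2, ∑ x : F2, sr (x * y) = if y = 0 then 2 else 0 := by
    intro y
    have : (univ : Finset F2) = {0, 1} := by decide
    rw [this, sum_pair (by decide)]
    rcases f2 y with rfl | rfl
    · simp [sr_zero]; norm_num
    · simp [sr_zero, sr_one]
  simp only [h1, h2, h3]
  by_cases h : χ = g
  · subst h
    have : ∀ a, χ a + χ a = 0 := fun a => by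
      rcases f2 (χ a) with h | h <;> rw [h] <;> decide
    simp [this]
  · rw [if_neg h]
    obtain ⟨a, ha⟩ := Function.ne_iff.1 h
    have : g a + χ a ≠ 0 := by
      rcases f2 (χ a) with h1 | h1 <;> rcases f2 (g a) with h2 | h2 <;> simp_all
    rw [prod_eq_zero (mem_univ a) (by rw [if_neg this]), mul_zero]

theorem t_SLOT : SLOT := by
  intro ι _ _ M X z π i j F θ hj hθ hF
  obtain ⟨Q, hQ⟩ : ∃ Q, Q = (grids M X).filter (gp · π = z) := ⟨_, rfl⟩
  rw [← hQ]
  have hmem : ∀ q, q ∈ Q ↔ (∀ a b, q a b ∈ X a) ∧ gp q π = z := by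
    intro q
    rw [hQ, mem_filter, grids]
    simp only [Fintype.mem_piFinset]
  have hg : ∀ q ∈ Q, q ∈ grids M X := by
    intro q hq
    rw [hQ, mem_filter] at hq
    exact hq.1
  clear hQ
  have hP : 0 ≤ ∏ i, ((X i).card : ℝ) := prod_nonneg fun _ _ => Nat.cast_nonneg _
  rcases (X i).eq_empty_or_nonempty with hX | hX
  · have : Q = ∅ := by
      rw [eq_empty_iff_forall_notMem]
      intro q hq
      have := ((hmem q).1 hq).1 i j
      rw [hX] at this
      exact notMem_empty _ this
    rw [this, sum_empty]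
    exact mul_nonneg hθ (pow_nonneg hP _)
  have hc : (0 : ℝ) < (X i).card := by exact_mod_cast hX.card_pos
  have hup : ∀ q ∈ Q, ∀ x ∈ X i, Function.update q i (Function.update (q i) j x) ∈ Q := by
    intro q hq x hx
    obtain ⟨h1, h2⟩ := (hmem q).1 hq
    refine (hmem _).2 ⟨fun a b => ?_, ?_⟩
    · by_cases ha : a = i
      · subst ha
        by_cases hb : b = j
        · subst hb; simpa using hx
        · simpa [Function.update_of_ne hb] using h1 a b
      · simpa [Function.update_of_ne ha] using h1 a b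
    · rw [← h2]
      funext a
      by_cases ha : a = i
      · subst ha; simp [gp, Function.update_of_ne hj.symm]
      · simp [gp, Function.update_of_ne ha]
  have key : ∑ s ∈ Q ×ˢ X i, F s.1 =
      ∑ s ∈ Q ×ˢ X i, F (Function.update s.1 i (Function.update (s.1 i) j s.2)) := by
    refine (sum_nbij' (fun s : (ι → Fin (M + 1) → ℕ) × ℕ =>
      (Function.update s.1 i (Function.update (s.1 i) j s.2), s.1 i j))
      (fun s : (ι → Fin (M + 1) → ℕ) × ℕ => (Function.update s.1 i (Function.update (s.1 i) j s.2), s.1 i j)) ?_ ?_ ?_ ?_ ?_).symm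
    · intro s hs
      rw [mem_product] at hs ⊢
      exact ⟨hup _ hs.1 _ hs.2, ((hmem _).1 hs.1).1 i j⟩
    · intro s hs
      rw [mem_product] at hs ⊢
      exact ⟨hup _ hs.1 _ hs.2, ((hmem _).1 hs.1).1 i j⟩
    · intro s _; simp
    · intro s _; simp
    · intro s _; rfl
  have hcard : (Q.card : ℝ) ≤ (∏ i, ((X i).card : ℝ)) ^ M := by
    have : Q.card ≤ (Fintype.piFinset fun a => Fintype.piFinset fun _ : Fin M => X a).card := by
      refine card_le_card_of_injOn (fun q a b => q a ((π a).succAbove b)) ?_ ?_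
      · intro q hq
        have := ((hmem q).1 hq).1
        simp only [mem_coe, Fintype.mem_piFinset]
        exact fun a b => this _ _
      · intro q hq q' hq' h
        have h1 := ((hmem q).1 hq).2
        have h2 := ((hmem q').1 hq').2
        funext a b
        rcases Fin.eq_self_or_eq_succAbove (π a) b with rfl | ⟨c, rfl⟩
        · exact (congrFun h1 a).trans (congrFun h2 a).symm
        · exact congrFun (congrFun h a) c
    rw [Fintype.card_piFinset] at this
    simp only [Fintype.card_piFinset, prod_const, card_univ, Fintype.card_fin] at this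
    rw [← prod_pow]
    exact_mod_cast this
  rw [sum_product, sum_product] at key
  simp only [sum_const, nsmul_eq_mul] at key
  rw [← mul_sum] at key
  have h2 : ((X i).card : ℝ) * ∑ q ∈ Q, F q ≤ Q.card * (θ * (X i).card) := by
    rw [key]
    refine (sum_le_card_nsmul _ _ _ fun q hq => ?_).trans_eq (nsmul_eq_mul _ _)
    exact hF q (hg q hq) ((hmem q).1 hq).2
  have h3 : ∑ q ∈ Q, F q ≤ θ * Q.card := by
    refine le_of_mul_le_mul_left ?_ hc
    linarith
  exact h3.trans (mul_le_mul_of_nonneg_left hcard hθ)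

theorem t_FIB : FIB := by
  intro ι _ _ r X e f
  classical
  have a1 : ∀ p z y o, asm e p z y (e o) = o.elim y z := fun p z y o =>
    e.injective.extend_apply _ _ _
  have a2 : ∀ p z y b, (¬ ∃ o, e o = b) → asm e p z y b = p b := fun p z y b hb =>
    Function.extend_apply' _ _ _ hb
  obtain ⟨Y, hY⟩ : ∃ Y, Y = Fintype.piFinset (fun i => X (e (some i))) ×ˢ X (e none) := ⟨_, rfl⟩
  have hYm : ∀ s, s ∈ Y ↔ (∀ i, s.1 i ∈ X (e (some i))) ∧ s.2 ∈ X (e none) := by
    intro s; simp [hY]
  have hYc : Y.card = (∏ i, (X (e (some i))).card) * (X (e none)).card := by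
    rw [hY, card_product, Fintype.card_piFinset]
  rw [← hY, ← hYc]
  clear hY hYc
  have hm : ∀ t ∈ Fintype.piFinset X ×ˢ Y,
      (asm e t.1 t.2.1 t.2.2, (fun i => t.1 (e (some i)), t.1 (e none))) ∈
        Fintype.piFinset X ×ˢ Y := by
    intro t ht
    rw [mem_product, Fintype.mem_piFinset, hYm] at ht ⊢
    refine ⟨fun b => ?_, fun i => ht.1 _, ht.1 _⟩
    dsimp only
    by_cases hb : ∃ o, e o = b
    · obtain ⟨o, rfl⟩ := hb
      rw [a1]
      cases o with
      | none => exact ht.2.2
      | some i => exact ht.2.1 i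
    · rw [a2 _ _ _ _ hb]; exact ht.1 b
  have hi : ∀ t : (Fin r → ℕ) × (ι → ℕ) × ℕ,
      (asm e (asm e t.1 t.2.1 t.2.2) (fun i => t.1 (e (some i))) (t.1 (e none)),
        (fun i => asm e t.1 t.2.1 t.2.2 (e (some i)), asm e t.1 t.2.1 t.2.2 (e none))) = t := by
    rintro ⟨p, z, y⟩
    refine Prod.ext ?_ (Prod.ext ?_ ?_)
    · funext b
      by_cases hb : ∃ o, e o = b
      · obtain ⟨o, rfl⟩ := hb
        simp only [a1]
        cases o <;> rfl
      · simp only [a2 _ _ _ _ hb]
    · funext i; simp only [a1]; rfl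
    · simp only [a1]; rfl
  have key : ∑ t ∈ Fintype.piFinset X ×ˢ Y, (if f (asm e t.1 t.2.1 t.2.2) then 1 else 0) =
      ∑ t ∈ Fintype.piFinset X ×ˢ Y, (if f t.1 then 1 else 0) :=
    sum_nbij' (fun t => (asm e t.1 t.2.1 t.2.2, (fun i => t.1 (e (some i)), t.1 (e none))))
      (fun t => (asm e t.1 t.2.1 t.2.2, (fun i => t.1 (e (some i)), t.1 (e none)))) hm hm
      (fun t _ => hi t) (fun t _ => hi t) (fun _ _ => rfl)
  rw [sum_product, sum_product] at key
  simp only [card_filter, mul_sum]
  refine key.trans (sum_congr rfl fun x _ => ?_)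
  by_cases hx : f x <;> simp [hx]

end Pool.Agent.P.MP_8b7eba_nt.SM
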