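import Pool.Agent.P.MP_8b7eba_nt.SM.IfC

/-! Proof of TK. -/

namespace Pool.Agent.P.MP_8b7eba_nt.SM

open Finset

namespace TTK

/-- the indicator of divisibility -/
noncomputable def ind (d n : ℕ) : ℝ := if d ∣ n then 1 else 0

theorem sum_ind (d X : ℕ) : ∑ n ∈ Icc 1 X, ind d n = (X / d : ℕ) := by
  unfold ind
  rw [Finset.sum_boole, ← Nat.Ioc_filter_dvd_card_eq_div]
  rfl

theorem sum_ind_le (d X : ℕ) : ∑ n ∈ Icc 1 X, ind d n ≤ X * (d : ℝ)⁻¹ := by
  rw [sum_ind, ← div_eq_mul_inv]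
  exact Nat.cast_div_le

theorem le_sum_ind {d : ℕ} (hd : 0 < d) (X : ℕ) : X * (d : ℝ)⁻¹ - 1 ≤ ∑ n ∈ Icc 1 X, ind d n := by
  rw [sum_ind, ← div_eq_mul_inv, sub_le_iff_le_add, div_le_iff₀ (by exact_mod_cast hd)]
  have := Nat.lt_div_mul_add (a := X) hd
  have h : (X : ℝ) < (X / d : ℕ) * d + d := by exact_mod_cast this
  linarith

theorem ind_lcm (a b n : ℕ) : ind a n * ind b n = ind (a.lcm b) n := by
  unfold ind
  by_cases h1 : a ∣ n <;> by_cases h2 : b ∣ n <;> simp [h1, h2, Nat.lcm_dvd_iff]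

theorem ind_mul {a b : ℕ} (h : a.Coprime b) (n : ℕ) : ind a n * ind b n = ind (a * b) n := by
  rw [ind_lcm, h.lcm_eq_mul]

theorem sq_ind (P : Finset ℕ) (n : ℕ) :
    (∑ p ∈ P, ind p n) ^ 2 = ∑ p ∈ P, ∑ q ∈ P, ind (p.lcm q) n := by
  simp only [sq, Finset.sum_mul_sum, ind_lcm]

theorem sum_le {P : Finset ℕ} {f : ℕ → ℝ} {c : ℝ} (h : ∀ p ∈ P, |f p| ≤ c) :
    |∑ p ∈ P, f p| ≤ P.card * c := by
  refine (Finset.abs_sum_le_sum_abs _ _).trans ?_
  rw [← nsmul_eq_mul]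
  exact Finset.sum_le_card_nsmul _ _ _ h

theorem lcm_bd {P : Finset ℕ} (hP : ∀ p ∈ P, p.Prime) :
    (∑ p ∈ P, (p : ℝ)⁻¹) ^ 2 ≤ ∑ p ∈ P, ∑ q ∈ P, ((p.lcm q : ℕ) : ℝ)⁻¹ ∧
      ∑ p ∈ P, ∑ q ∈ P, ((p.lcm q : ℕ) : ℝ)⁻¹ ≤
        (∑ p ∈ P, (p : ℝ)⁻¹) ^ 2 + ∑ p ∈ P, (p : ℝ)⁻¹ := by
  rw [sq, Finset.sum_mul_sum, ← Finset.sum_add_distrib]
  constructor
  · refine Finset.sum_le_sum fun p hp => Finset.sum_le_sum fun q hq => ?_
    rw [← mul_inv, ← Nat.cast_mul]
    have h1 := (hP p hp).pos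
    have h2 := (hP q hq).pos
    refine inv_anti₀ (by exact_mod_cast Nat.lcm_pos h1 h2) ?_
    exact_mod_cast Nat.le_of_dvd (Nat.mul_pos h1 h2) (Nat.lcm_dvd_mul p q)
  · refine Finset.sum_le_sum fun p hp => ?_
    have : (p : ℝ)⁻¹ = ∑ q ∈ P, if q = p then (p : ℝ)⁻¹ else 0 := by simp [hp]
    conv_rhs => rw [this]
    rw [← this, this, ← Finset.sum_add_distrib, ← this]
    refine Finset.sum_le_sum fun q hq => ?_
    split_ifs with h
    · subst h
      rw [Nat.lcm_self]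
      have : 0 ≤ (q : ℝ)⁻¹ * (q : ℝ)⁻¹ := by positivity
      linarith
    · rw [((Nat.coprime_primes (hP p hp) (hP q hq)).2 (Ne.symm h)).lcm_eq_mul]
      simp [mul_comm]

theorem card_eq (P : Finset ℕ) (n : ℕ) : ((P.filter (· ∣ n)).card : ℝ) = ∑ p ∈ P, ind p n := by
  unfold ind
  rw [Finset.sum_boole]

theorem group {P : Finset ℕ} (hP : ∀ p ∈ P, p.Prime) (h : 2 ≤ ∑ p ∈ P, (p : ℝ)⁻¹) :
    ∃ G ⊆ P, 2 ≤ ∑ p ∈ G, (p : ℝ)⁻¹ ∧ ∑ p ∈ G, (p : ℝ)⁻¹ ≤ 3 := by
  induction P using Finset.induction_on with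
  | empty => norm_num at h
  | insert a s ha ih =>
    by_cases h2 : 2 ≤ ∑ p ∈ s, (p : ℝ)⁻¹
    · obtain ⟨G, h1, h3⟩ := ih (fun p hp => hP p (mem_insert_of_mem hp)) h2
      exact ⟨G, h1.trans (subset_insert _ _), h3⟩
    · refine ⟨_, Subset.rfl, h, ?_⟩
      rw [Finset.sum_insert ha]
      have : (a : ℝ)⁻¹ ≤ 1 :=
        inv_le_one_of_one_le₀ (by exact_mod_cast (hP a (mem_insert_self _ _)).one_le)
      linarith

theorem weight (X z h : ℕ) : ∀ P : Finset ℕ, (∀ p ∈ P, p.Prime ∧ p ≤ z) →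
    (3 * h : ℝ) ≤ ∑ p ∈ P, (p : ℝ)⁻¹ → ∃ (W : ℕ → ℝ) (m : ℝ), (∀ n, 0 ≤ W n) ∧
      (∀ n, (∀ p ∈ P, ¬ p ∣ n) → W n = 1) ∧ 0 ≤ m ∧ m ≤ 1 / 2 ^ h ∧
      ∀ d, 0 < d → (∀ p ∈ P, ¬ p ∣ d) →
        |∑ n ∈ Icc 1 X, ind d n * W n - X * (d : ℝ)⁻¹ * m| ≤ z ^ (2 * h) := by
  induction h with
  | zero =>
    intro P _ _
    refine ⟨fun _ => 1, 1, fun _ => zero_le_one, fun _ _ => rfl, zero_le_one, by simp, ?_⟩
    intro d hd _
    simp only [mul_one, mul_zero, pow_zero]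
    have a := sum_ind_le d X
    have b := le_sum_ind hd X
    rw [abs_le]
    constructor <;> linarith
  | succ h ih =>
    intro P hP hs
    push_cast at hs
    have h0 : (0 : ℝ) ≤ h := Nat.cast_nonneg h
    obtain ⟨G, hG, g2, g3⟩ := group (fun p hp => (hP p hp).1) (by linarith)
    have hsd := Finset.sum_sdiff (f := fun p : ℕ => (p : ℝ)⁻¹) hG
    obtain ⟨W, m, W0, W1, m0, m1, hW⟩ := ih (P \ G) (fun p hp => hP p (mem_sdiff.1 hp).1)
      (by linarith)
    obtain ⟨l1, l2⟩ := lcm_bd (P := G) fun p hp => (hP p (hG hp)).1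
    set μ := ∑ p ∈ G, (p : ℝ)⁻¹ with hμ
    set Λ := ∑ p ∈ G, ∑ q ∈ G, ((p.lcm q : ℕ) : ℝ)⁻¹ with hΛ
    have μ0 : 0 < μ := by linarith
    have c0 : 0 ≤ Λ / μ ^ 2 - 1 := by
      rw [sub_nonneg, le_div_iff₀ (by positivity)]; linarith
    have c1 : Λ / μ ^ 2 - 1 ≤ 1 / 2 := by
      rw [sub_le_iff_le_add, div_le_iff₀ (by positivity)]; nlinarith
    refine ⟨fun n => W n * (1 - (∑ p ∈ G, ind p n) / μ) ^ 2, m * (Λ / μ ^ 2 - 1),
      fun n => mul_nonneg (W0 n) (sq_nonneg _), ?_, mul_nonneg m0 c0, ?_, ?_⟩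
    · intro n hn
      have : ∑ p ∈ G, ind p n = 0 := Finset.sum_eq_zero fun p hp => if_neg (hn p (hG hp))
      simp [this, W1 n fun p hp => hn p (mem_sdiff.1 hp).1]
    · calc m * (Λ / μ ^ 2 - 1) ≤ 1 / 2 ^ h * (1 / 2) := mul_le_mul m1 c1 c0 (by positivity)
        _ = 1 / 2 ^ (h + 1) := by rw [pow_succ]; field_simp
    · intro d hd hdP
      have cop : ∀ p ∈ G, d.Coprime p := fun p hp =>
        ((Nat.Prime.coprime_iff_not_dvd (hP p (hG hp)).1).2 (hdP p (hG hp))).symm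
      have key : ∀ p ∈ G, ∀ q ∈ G, |∑ n ∈ Icc 1 X, ind d n * W n * ind (p.lcm q) n -
          X * (d : ℝ)⁻¹ * m * ((p.lcm q : ℕ) : ℝ)⁻¹| ≤ z ^ (2 * h) := by
        intro p hp q hq
        have pp := (hP p (hG hp)).1
        have pq := (hP q (hG hq)).1
        have c : d.Coprime (p.lcm q) :=
          Nat.Coprime.coprime_dvd_right (Nat.lcm_dvd_mul p q) ((cop p hp).mul_right (cop q hq))
        have := hW (d * p.lcm q) (Nat.mul_pos hd (Nat.lcm_pos pp.pos pq.pos)) (by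
          intro r hr hrd
          obtain ⟨hr1, hr2⟩ := mem_sdiff.1 hr
          have pr := (hP r hr1).1
          rcases (Nat.Prime.dvd_mul pr).1 hrd with e | e
          · exact hdP r hr1 e
          · rcases (Nat.Prime.dvd_mul pr).1 (e.trans (Nat.lcm_dvd_mul p q)) with e | e
            · exact hr2 ((Nat.prime_dvd_prime_iff_eq pr pp).1 e ▸ hp)
            · exact hr2 ((Nat.prime_dvd_prime_iff_eq pr pq).1 e ▸ hq))
        have e1 : ∑ n ∈ Icc 1 X, ind d n * W n * ind (p.lcm q) n =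
            ∑ n ∈ Icc 1 X, ind (d * p.lcm q) n * W n :=
          Finset.sum_congr rfl fun n _ => by rw [← ind_mul c]; ring
        rw [e1]
        convert this using 2
        push_cast
        rw [mul_inv]; ring
      have k0 := hW d hd fun p hp => hdP p (mem_sdiff.1 hp).1
      set E : ℝ := z ^ (2 * h) with hE
      have E0 : 0 ≤ E := by positivity
      have k1 : |∑ p ∈ G, (∑ n ∈ Icc 1 X, ind d n * W n * ind p n -
          X * (d : ℝ)⁻¹ * m * (p : ℝ)⁻¹)| ≤ G.card * E :=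
        sum_le fun p hp => by simpa using key p hp p hp
      have k2 : |∑ p ∈ G, ∑ q ∈ G, (∑ n ∈ Icc 1 X, ind d n * W n * ind (p.lcm q) n -
          X * (d : ℝ)⁻¹ * m * ((p.lcm q : ℕ) : ℝ)⁻¹)| ≤ G.card * (G.card * E) :=
        sum_le fun p hp => sum_le fun q hq => key p hp q hq
      simp only [Finset.sum_sub_distrib, ← Finset.mul_sum] at k1 k2
      rw [← hμ, Finset.sum_comm] at k1
      rw [← hΛ] at k2
      have e2 : ∑ p ∈ G, ∑ q ∈ G, ∑ n ∈ Icc 1 X, ind d n * W n * ind (p.lcm q) n =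
          ∑ n ∈ Icc 1 X, ind d n * W n * (∑ p ∈ G, ind p n) ^ 2 := by
        simp only [sq_ind, Finset.mul_sum]
        rw [Finset.sum_comm (s := Icc 1 X)]
        exact Finset.sum_congr rfl fun p _ => Finset.sum_comm
      rw [e2] at k2
      simp only [← Finset.mul_sum] at k1
      have e3 : ∑ n ∈ Icc 1 X, ind d n * (W n * (1 - (∑ p ∈ G, ind p n) / μ) ^ 2) -
          X * (d : ℝ)⁻¹ * (m * (Λ / μ ^ 2 - 1)) =
          (∑ n ∈ Icc 1 X, ind d n * W n - X * (d : ℝ)⁻¹ * m) -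
          2 / μ * (∑ n ∈ Icc 1 X, ind d n * W n * (∑ p ∈ G, ind p n) - X * (d : ℝ)⁻¹ * m * μ) +
          1 / μ ^ 2 * (∑ n ∈ Icc 1 X, ind d n * W n * (∑ p ∈ G, ind p n) ^ 2 -
            X * (d : ℝ)⁻¹ * m * Λ) := by
        have : ∑ n ∈ Icc 1 X, ind d n * (W n * (1 - (∑ p ∈ G, ind p n) / μ) ^ 2) =
            ∑ n ∈ Icc 1 X, ind d n * W n -
            2 / μ * ∑ n ∈ Icc 1 X, ind d n * W n * (∑ p ∈ G, ind p n) +
            1 / μ ^ 2 * ∑ n ∈ Icc 1 X, ind d n * W n * (∑ p ∈ G, ind p n) ^ 2 := by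
          rw [Finset.mul_sum, Finset.mul_sum, ← Finset.sum_sub_distrib, ← Finset.sum_add_distrib]
          refine Finset.sum_congr rfl fun n _ => ?_
          field_simp
          ring
        rw [this]
        field_simp
        ring
      rw [e3]
      have gz : (G.card : ℝ) ≤ z := by
        have : G ⊆ Icc 1 z := fun p hp => mem_Icc.2 ⟨(hP p (hG hp)).1.one_le, (hP p (hG hp)).2⟩
        have := card_le_card this
        rw [Nat.card_Icc] at this
        exact_mod_cast this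
      have z2 : (2 : ℝ) ≤ z := by
        obtain ⟨p, hp⟩ : G.Nonempty := by
          rw [Finset.nonempty_iff_ne_empty]
          intro e
          rw [hμ, e] at μ0
          simp at μ0
        exact_mod_cast (hP p (hG hp)).1.two_le.trans (hP p (hG hp)).2
      have g0 : (0 : ℝ) ≤ G.card := Nat.cast_nonneg _
      have a1 : 2 / μ ≤ 1 := (div_le_one μ0).2 g2
      have a2 : 1 / μ ^ 2 ≤ 1 / 4 := one_div_le_one_div_of_le (by norm_num) (by nlinarith)
      refine (abs_add_le _ _).trans ?_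
      refine (add_le_add (abs_sub _ _) le_rfl).trans ?_
      rw [abs_mul, abs_mul, abs_of_pos (a := 2 / μ) (by positivity),
        abs_of_pos (a := 1 / μ ^ 2) (by positivity)]
      have b1 := mul_le_mul a1 k1 (abs_nonneg _) zero_le_one
      have b2 := mul_le_mul a2 k2 (abs_nonneg _) (by norm_num)
      have b3 : (z : ℝ) ^ (2 * (h + 1)) = z ^ 2 * E := by rw [hE]; ring
      rw [b3]
      have b4 : 1 + (G.card : ℝ) + 1 / 4 * (G.card * G.card) ≤ z ^ 2 := by nlinarith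
      nlinarith [mul_le_mul_of_nonneg_right b4 E0]

theorem cls (S : Finset ℕ) (X q : ℕ) (h1 : ∀ n ∈ S, n ≤ X)
    (h2 : ∀ n ∈ S, ∀ n' ∈ S, n ≡ n' [MOD q]) : (S.card : ℝ) ≤ X / q + 1 := by
  have : S.card ≤ (range (X / q + 1)).card := by
    refine Finset.card_le_card_of_injOn (fun n => n / q) (fun n hn => ?_) fun n hn n' hn' e => ?_
    · exact mem_coe.2 (mem_range.2 (Nat.lt_succ_of_le (Nat.div_le_div_right (h1 n hn))))
    · have e' : n / q = n' / q := e
      have := h2 n hn n' hn'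
      rw [← Nat.div_add_mod n q, ← Nat.div_add_mod n' q, e', this]
  rw [card_range] at this
  have h : (S.card : ℝ) ≤ (X / q : ℕ) + 1 := by exact_mod_cast this
  exact h.trans (add_le_add Nat.cast_div_le le_rfl)

end TTK

open TTK

theorem t_TK : TK := by
  intro P X μ hP hX hμ μ0
  have a1 : X * μ - P.card ≤ ∑ n ∈ Icc 1 X, ∑ p ∈ P, ind p n := by
    rw [Finset.sum_comm, hμ, Finset.mul_sum, Finset.card_eq_sum_ones, Nat.cast_sum,
      ← Finset.sum_sub_distrib]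
    exact Finset.sum_le_sum fun p hp => by simpa using le_sum_ind (hP p hp).pos X
  have a2 : ∑ n ∈ Icc 1 X, (∑ p ∈ P, ind p n) ^ 2 ≤ X * (μ ^ 2 + μ) := by
    refine le_trans ?_ (mul_le_mul_of_nonneg_left (hμ ▸ (lcm_bd hP).2) (Nat.cast_nonneg X))
    simp only [sq_ind, Finset.mul_sum]
    rw [Finset.sum_comm (s := Icc 1 X)]
    refine Finset.sum_le_sum fun p _ => ?_
    rw [Finset.sum_comm]
    exact Finset.sum_le_sum fun q _ => sum_ind_le _ _
  have a3 : ∑ n ∈ Icc 1 X, (∑ p ∈ P, ind p n - μ) ^ 2 =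
      ∑ n ∈ Icc 1 X, (∑ p ∈ P, ind p n) ^ 2 - 2 * μ * ∑ n ∈ Icc 1 X, ∑ p ∈ P, ind p n +
        X * μ ^ 2 := by
    have : (X : ℝ) * μ ^ 2 = ∑ _n ∈ Icc 1 X, μ ^ 2 := by simp
    rw [this, Finset.mul_sum, ← Finset.sum_sub_distrib, ← Finset.sum_add_distrib]
    exact Finset.sum_congr rfl fun n _ => by ring
  have hX' : 2 * (P.card : ℝ) ≤ X := by exact_mod_cast hX
  have a4 : ∑ n ∈ Icc 1 X, (∑ p ∈ P, ind p n - μ) ^ 2 ≤ 2 * X * μ := by
    rw [a3]; nlinarith
  set T := (Icc 1 X).filter fun n => ((P.filter (· ∣ n)).card : ℝ) ≤ μ / 2 with hT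
  have a5 : T.card * (μ / 2) ^ 2 ≤ ∑ n ∈ Icc 1 X, (∑ p ∈ P, ind p n - μ) ^ 2 := by
    refine le_trans ?_ (Finset.sum_le_sum_of_subset_of_nonneg (s := T) (filter_subset _ _)
      fun _ _ _ => sq_nonneg _)
    rw [← nsmul_eq_mul]
    refine Finset.card_nsmul_le_sum _ _ _ fun n hn => ?_
    have := (mem_filter.1 hn).2
    rw [card_eq] at this
    nlinarith
  rw [le_div_iff₀ μ0]
  refine le_of_mul_le_mul_right ?_ μ0
  nlinarith

theorem t_SIEVE : SIEVE := by
  intro P X z h hP hs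
  obtain ⟨W, m, W0, W1, -, m1, hW⟩ := weight X z h P hP hs
  have a := (abs_le.1 (hW 1 one_pos fun p hp => (hP p hp).1.not_dvd_one)).2
  simp only [ind, one_dvd, if_true, one_mul, Nat.cast_one, inv_one, mul_one] at a
  have b : (((Icc 1 X).filter fun n => ∀ p ∈ P, ¬ p ∣ n).card : ℝ) ≤ ∑ n ∈ Icc 1 X, W n := by
    refine le_trans ?_ (Finset.sum_le_sum_of_subset_of_nonneg (filter_subset
      (fun n => ∀ p ∈ P, ¬ p ∣ n) _) fun n _ _ => W0 n)
    rw [Finset.sum_congr rfl fun n hn => W1 n (mem_filter.1 hn).2]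
    simp
  have c := mul_le_mul_of_nonneg_left m1 (Nat.cast_nonneg (α := ℝ) X)
  rw [mul_one_div] at c
  linarith

theorem t_SQD : SQD := by
  intro a ha
  refine ⟨1 / 288, by norm_num, 600 * 600, fun X hX => ?_⟩
  set A := (Icc 1 X).filter fun n => n % 120 = a % 120 with hA
  set Q := (Icc 1 X).filter fun n => Squarefree n ∧ n % 120 = a % 120 with hQ
  set s := Nat.sqrt X with hs
  have a0 : a % 120 ≠ 0 := by
    intro e
    have := Nat.Coprime.eq_one_of_dvd ha.symm (Nat.dvd_of_mod_eq_zero e)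
    omega
  have h1 : X / 120 ≤ A.card := by
    rw [← card_range (X / 120)]
    refine Finset.card_le_card_of_injOn (fun k => a % 120 + 120 * k) (fun k hk => ?_)
      fun k _ k' _ e => ?_
    · have := mem_range.1 (mem_coe.1 hk)
      refine mem_coe.2 (mem_filter.2 ⟨mem_Icc.2 ⟨?_, ?_⟩, ?_⟩) <;> simp only <;> omega
    · simp only at e
      omega
  have h2 : A ⊆ Q ∪ ((Ioc 6 s).filter Nat.Prime).biUnion fun p => A.filter (p * p ∣ ·) := by
    intro n hn
    obtain ⟨n1, n2⟩ := mem_filter.1 hn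
    by_cases hq : Squarefree n
    · exact mem_union_left _ (mem_filter.2 ⟨n1, hq, n2⟩)
    · rw [Nat.squarefree_iff_prime_squarefree] at hq
      push Not at hq
      obtain ⟨p, pp, hp⟩ := hq
      refine mem_union_right _ (mem_biUnion.2 ⟨p, mem_filter.2 ⟨mem_Ioc.2 ⟨?_, ?_⟩, pp⟩,
        mem_filter.2 ⟨hn, hp⟩⟩)
      · by_contra hc
        have pn : p ∣ n := (Dvd.intro _ rfl).trans hp
        have p120 : p ∣ 120 := by
          have := pp.two_le
          have : p ≤ 6 := by omega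
          interval_cases p <;> norm_num
        have : p ∣ a := by
          rw [← Nat.dvd_mod_iff p120, ← n2, Nat.dvd_mod_iff p120]; exact pn
        exact pp.one_lt.ne' (Nat.eq_one_of_dvd_coprimes ha this p120)
      · exact Nat.le_sqrt.2 ((Nat.le_of_dvd (mem_Icc.1 n1).1 hp).trans (mem_Icc.1 n1).2)
  have h3 : ∀ p ∈ (Ioc 6 s).filter Nat.Prime,
      ((A.filter (p * p ∣ ·)).card : ℝ) ≤ X / 120 * ((p : ℝ) ^ 2)⁻¹ + 1 := by
    intro p hp
    obtain ⟨p1, pp⟩ := mem_filter.1 hp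
    have p6 := (mem_Ioc.1 p1).1
    have c : Nat.Coprime 120 p := by
      refine ((Nat.Prime.coprime_iff_not_dvd pp).2 fun hd => ?_).symm
      have : p ∣ 2 ^ 3 * 3 * 5 := hd
      rcases (Nat.Prime.dvd_mul pp).1 this with e | e
      · rcases (Nat.Prime.dvd_mul pp).1 e with e | e
        · have := Nat.le_of_dvd (by norm_num) (pp.dvd_of_dvd_pow e); omega
        · have := Nat.le_of_dvd (by norm_num) e; omega
      · have := Nat.le_of_dvd (by norm_num) e; omega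
    have := cls (A.filter (p * p ∣ ·)) X (120 * (p * p))
      (fun n hn => (mem_Icc.1 (mem_filter.1 (mem_filter.1 hn).1).1).2) (by
        intro n hn n' hn'
        refine (Nat.modEq_and_modEq_iff_modEq_mul (c.mul_right c)).1 ⟨?_, ?_⟩
        · exact (mem_filter.1 (mem_filter.1 hn).1).2.trans
            (mem_filter.1 (mem_filter.1 hn').1).2.symm
        · exact ((Nat.modEq_zero_iff_dvd).2 (mem_filter.1 hn).2).trans
            ((Nat.modEq_zero_iff_dvd).2 (mem_filter.1 hn').2).symm)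
    refine this.trans (le_of_eq ?_)
    push_cast
    have : (p : ℝ) ≠ 0 := by exact_mod_cast pp.ne_zero
    field_simp
  have s6 : 600 ≤ s := Nat.le_sqrt.2 hX
  have h4 : ∑ p ∈ (Ioc 6 s).filter Nat.Prime, ((A.filter (p * p ∣ ·)).card : ℝ) ≤
      X / 120 * (1 / 6) + s := by
    refine (Finset.sum_le_sum h3).trans ?_
    refine (Finset.sum_le_sum_of_subset_of_nonneg (filter_subset _ _)
      fun _ _ _ => by positivity).trans ?_
    rw [Finset.sum_add_distrib, ← Finset.mul_sum]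
    have b := sum_Ioc_inv_sq_le_sub (α := ℝ) (k := 6) (n := s) (by norm_num) (by omega)
    have c : (0 : ℝ) ≤ (s : ℝ)⁻¹ := by positivity
    refine add_le_add (mul_le_mul_of_nonneg_left ?_ (by positivity)) ?_
    · push_cast at b
      linarith
    · simp only [sum_const, Nat.card_Ioc, nsmul_eq_mul, mul_one]
      exact_mod_cast Nat.sub_le _ _
  have h5 := (card_le_card h2).trans ((card_union_le _ _).trans (add_le_add le_rfl card_biUnion_le))
  have h6 : (A.card : ℝ) ≤ Q.card +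
      ∑ p ∈ (Ioc 6 s).filter Nat.Prime, ((A.filter (p * p ∣ ·)).card : ℝ) := by exact_mod_cast h5
  have h7 : (X : ℝ) < 120 * A.card + 120 := by
    have : X < 120 * A.card + 120 := by omega
    exact_mod_cast this
  have h8 : (600 : ℝ) * s ≤ X := by
    have : 600 * s ≤ X := (Nat.mul_le_mul_right s s6).trans (Nat.sqrt_le X)
    exact_mod_cast this
  have h9 : (600 : ℝ) ≤ s := by exact_mod_cast s6
  linarith

end Pool.Agent.P.MP_8b7eba_nt.SM
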