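import Mathlib

/-! Shared elementary definitions for the project SM (grids of twists). -/

namespace Pool.Agent.P.MP_8b7eba_nt.SM

open Finset

noncomputable section

/-- the 2-adic integers -/
abbrev Z2 : Type := ℤ_[2]

/-- the field with two elements -/
abbrev F2 : Type := ZMod 2

/-- the sign attached to a bit, as a 2-adic integer -/
def sg (a : F2) : Z2 := (-1) ^ a.val

/-- the sign attached to a bit, as a real number -/
def sr (a : F2) : ℝ := (-1) ^ a.val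

/-! ### Grids -/

/-- the points of a grid -/
abbrev Gz (k M : ℕ) : Type := Option (Fin k) → Fin (M + 1)

/-- the points of a grid without zero coordinate -/
abbrev Gf (k M : ℕ) : Type := Option (Fin k) → Fin M

/-- multi-indices -/
abbrev Mu (k M : ℕ) : Type := Fin k → Fin (M + 1)

/-- the ring generated by the doubles of the functions of one coordinate -/
def Lam (k M : ℕ) : Subalgebra Z2 (Gz k M → Z2) :=
  Algebra.adjoin Z2 {f | ∃ i j, f = fun z => if z i = j then 2 else 0}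

/-- the maximal ideal of `Lam` -/
def Mx {k M : ℕ} (f : Gz k M → Z2) : Prop := f ∈ Lam k M ∧ ∀ z, 2 ∣ f z

/-- orthogonality modulo `2 ^ n` -/
def Pe {Z : Type} [Fintype Z] (n : ℕ) (c f : Z → Z2) : Prop := 2 ^ n ∣ ∑ z, c z * f z

/-- extension by zero -/
def ex {k M : ℕ} (G : Gf k M → F2) (z : Gz k M) : F2 :=
  if h : ∀ i, z i ≠ 0 then G fun i => (z i).pred (h i) else 0

/-- erase the coordinates in `U` -/
def ers {k M : ℕ} (μ : Mu k M) (U : Finset (Fin k)) : Mu k M := fun i => if i ∈ U then 0 else μ i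

/-- the governing function -/
def mm {k M : ℕ} (γ : Fin (M + 1) → Mu k M → F2) (z : Gz k M) : Z2 :=
  ∑ U : Finset (Fin k), if ∀ i ∈ U, z (some i) ≠ 0 then
    2 ^ U.card * ((γ (z none) (ers (fun i => z (some i)) Uᶜ)).val : Z2) else 0

/-- `ξ` chooses a realised datum at each point where there is one -/
def Cho {Z D : Type} (Re : Z → D → Prop) (ξ : Z → D) : Prop := ∀ z, (∃ δ, Re z δ) → Re z (ξ z)

/-- `c` vanishes at the points without realised datum -/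
def Sup {Z D : Type} (Re : Z → D → Prop) (c : Z → Z2) : Prop := ∀ z, c z ≠ 0 → ∃ δ, Re z δ

/-- closed systems of data on a grid -/
structure Clo {k M : ℕ} {T : Type} (A₁ A₂ : Finset T) (val Re : Gz k M → (T → Z2) → Prop) :
    Prop where
  cv : ∀ z δ δ', (∀ t, 2 ^ k ∣ δ t - δ' t) → val z δ → val z δ'
  cr : ∀ z δ δ', (∀ t, 2 ^ k ∣ δ t - δ' t) → Re z δ → Re z δ'
  sub : ∀ z δ, Re z δ → val z δ ∧ ∀ t ∈ A₂, 2 ∣ δ t
  clo : ∀ ξ, Cho Re ξ → ∀ c z₀ δ, Sup Re c → val z₀ δ →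
    (∀ l ∈ Lam k M, 2 ^ k ∣ ∑ z, c z * l z - l z₀) →
    (∀ l ∈ Lam k M, ∀ t, t ∈ A₁ ∨ t ∈ A₂ → 2 ^ k ∣ ∑ z, c z * (l z * ξ z t) - l z₀ * δ t) →
    (∀ t, 2 ^ k ∣ ∑ z, c z * ξ z t - δ t) → Re z₀ δ

/-- `H` is orthogonal to all admissible coefficient vectors -/
def Ort {k M : ℕ} {T : Type} (A₁ A₂ : Finset T) (Y : Gz k M → Prop) (ξ : Gz k M → T → Z2)
    (H : Gz k M → F2) : Prop :=
  ∀ c : Gz k M → Z2, (∀ z, c z ≠ 0 → Y z) → (∀ l ∈ Lam k M, Pe (k + 1) c l) →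
    (∀ l, Mx l → ∀ t, t ∈ A₁ ∨ t ∈ A₂ → Pe (k + 1) c fun z => l z * ξ z t) →
    ∑ z, PadicInt.toZMod (c z) * H z = 0

/-! ### The model of the 2-Selmer group -/

/-- vectors modulo two -/
abbrev V1 : Type := Fin 2 → F2

/-- pairs of vectors -/
abbrev FF : Type := V1 × V1

/-- symmetric matrices with zero diagonal -/
def Sy (I : Type) [Fintype I] [DecidableEq I] : Finset (I → I → F2) :=
  univ.filter fun x => (∀ i j, x i j = x j i) ∧ ∀ i, x i i = 0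

/-- the data of the model -/
structure Mod (I σ : Type) where
  κ : I → Fin 4 ⊕ σ → F2
  C : Fin 4 → FF →ₗ[F2] FF
  ϑ : σ → (Fin 4 ⊕ σ → FF) → FF

/-- the solutions of the model -/
def Mod.Sol {I σ : Type} [Fintype I] [Fintype σ] (m : Mod I σ) (i₀ : I) (x : I → I → F2)
    (a : Fin 4 ⊕ σ → FF) (R : I → FF) : Prop :=
  R i₀ = 0 ∧ (∀ i, ∑ j, x i j • (R j + R i) + ∑ b, m.κ i b • a b + (∑ q, m.κ i (.inr q)) • R i +
    ∑ b, m.κ i (.inl b) • m.C b (R i) = 0) ∧ ∀ q, ∑ i, m.κ i (.inr q) • R i = m.ϑ q a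

/-- typical solutions -/
def Mod.Typ {I σ τ : Type} (m : Mod I σ) (J : τ → Finset I) (a : Fin 4 ⊕ σ → FF) (R : I → FF) :
    Prop :=
  (∀ b, ∀ v ∈ Submodule.span F2 (Set.range R), m.C b v ∈ Submodule.span F2 (Set.range R)) ∧
    (∀ b, a b ∈ Submodule.span F2 (Set.range R)) ∧
    ∀ t, ∀ v ∈ Submodule.span F2 (Set.range R), ∃ i ∈ J t, R i = v

/-! ### Symbols and boxes -/

/-- the prime with the sign that makes it one modulo four -/
def ps (p : ℕ) : ℤ := if p % 4 = 1 then p else -p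

/-- the quadratic symbol as a bit -/
def js (a : ℤ) (p : ℕ) : F2 := if jacobiSym a p = 1 then 0 else 1

/-- primes which do not divide thirty -/
def Gp (p : ℕ) : Prop := p.Prime ∧ ¬ p ∣ 30

/-- the matrix of the symbols -/
def Leg {I : Type} [DecidableEq I] (p : I → ℕ) (i j : I) : F2 :=
  if i = j then 0 else js (ps (p j)) (p i)

/-- a rich set of primes in a dyadic range -/
structure Rich (X : Finset ℕ) (t E : ℕ) : Prop where
  gp : ∀ p ∈ X, Gp p ∧ t ≤ p ∧ p ≤ 2 * t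
  card : t ≤ E * X.card
  log : t ≤ 2 ^ E

/-- oscillation of the symbol on a product of two sets -/
def Osc (W Y : Finset ℕ) (θ : ℝ) : Prop :=
  ∀ b : ℕ → ℝ, (∀ y, |b y| ≤ 1) →
    ∑ u ∈ W, |∑ y ∈ Y, b y * sr (js (ps u) y)| ≤ θ * W.card * Y.card

/-- boxes of squarefree numbers -/
structure Box where
  S : Finset ℕ
  r : ℕ
  X : Fin r → Finset ℕ
  t : Fin r → ℕ
  E : ℕ
  gS : ∀ q ∈ S, Gp q
  rich : ∀ i, Rich (X i) (t i) E
  nS : ∀ i, Disjoint (X i) S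
  dj : ∀ i j, i ≠ j → Disjoint (X i) (X j)
  key : ∀ i, ∀ p ∈ X i, ∀ p' ∈ X i, ∀ a : ℤ, a ∣ 30 * ∏ q ∈ S, (q : ℤ) →
    jacobiSym a p = jacobiSym a p'

/-- the points of a box -/
def Box.pts (B : Box) : Finset (Fin B.r → ℕ) := Fintype.piFinset B.X

/-- the set of primes of a point -/
def Box.set (B : Box) (p : Fin B.r → ℕ) : Finset ℕ := B.S ∪ univ.image p

/-- regular boxes -/
structure Box.Reg (B : Box) (K l A N : ℕ) (y₀ y₁ : ℕ) (J₀ : Finset (Fin B.r))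
    (J : Fin K ⊕ Bool → Finset (Fin B.r)) : Prop where
  big : (2 ^ (B.r + B.S.card + 2) ^ 2 * (B.E + 2)) ^ A ≤ y₀
  le : y₀ ≤ y₁
  t0 : ∀ i, y₀ ≤ B.t i
  low : ∀ s, ∀ i ∈ J (.inl s), B.t i ≤ y₁
  high : ∀ s, ∀ i ∈ J (.inr s), y₁ ^ A ≤ B.t i
  card : ∀ s, l ≤ (J s).card
  dj : ∀ s s', s ≠ s' → Disjoint (J s) (J s')
  dj0 : ∀ s, Disjoint (J s) J₀
  u1 : ∀ a : ℤ, Squarefree a → a ≠ 1 → a ∣ 30 * ∏ q ∈ B.S, (q : ℤ) →
    ∃ i ∈ J₀, ∀ p ∈ B.X i, jacobiSym a p = -1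
  na : ∀ a : ℤ, Squarefree a → a ≠ 1 → a ∣ 30 →
    4 * B.S.card + N ≤ (univ.filter fun i => ∀ p ∈ B.X i, jacobiSym a p = -1).card

open Classical in
/-- a property of finite sets of primes which is rare in all regular boxes -/
def BoxP (Bad : Finset ℕ → Prop) : Prop :=
  ∀ ε : ℝ, 0 < ε → ∃ K l A N : ℕ, ∀ (B : Box) (y₀ y₁ : ℕ) (J₀ : Finset (Fin B.r))
    (J : Fin K ⊕ Bool → Finset (Fin B.r)), B.Reg K l A N y₀ y₁ J₀ J →
    ((B.pts.filter fun p => Bad (B.set p)).card : ℝ) ≤ ε * B.pts.card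

/-! ### Grids of numbers -/

/-- all grids with entries in the given sets -/
def grids {ι : Type} [Fintype ι] [DecidableEq ι] (M : ℕ) (X : ι → Finset ℕ) :
    Finset (ι → Fin (M + 1) → ℕ) :=
  Fintype.piFinset fun i => Fintype.piFinset fun _ => X i

/-- the point of a grid at a position -/
def gp {ι : Type} {M : ℕ} (q : ι → Fin (M + 1) → ℕ) (π : ι → Fin (M + 1)) (i : ι) : ℕ := q i (π i)

/-! ### Exceptional integers -/

open Classical in
/-- rare properties -/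
def Rare (P : ℕ → ℕ → Prop) : Prop :=
  ∀ ε : ℝ, 0 < ε → ∃ L₀ : ℕ, ∀ L X : ℕ, L₀ ≤ L → 2 ^ 2 ^ L ≤ X → X < 2 ^ 2 ^ (L + 1) →
    (((Icc 1 X).filter fun n => P L n).card : ℝ) ≤ ε * X

/-- the small prime factors -/
def sm (L n : ℕ) : Finset ℕ := n.primeFactors.filter fun p => p < 2 ^ L ^ 7

/-- the large prime factors -/
def la (L n : ℕ) : Finset ℕ := n.primeFactors.filter fun p => 2 ^ L ^ 7 ≤ p

/-- the short interval which contains `p` -/
def ce (L p : ℕ) : ℕ × ℕ := (Nat.log 2 p, p / 2 ^ (Nat.log 2 p - L))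

open Classical in
/-- the primes which look like `p` -/
def Xk (L : ℕ) (S : Finset ℕ) (p : ℕ) : Finset ℕ :=
  (range (2 ^ (Nat.log 2 p + 1))).filter fun p' => p'.Prime ∧ ce L p' = ce L p ∧
    ∀ a : ℤ, a ∣ 30 * ∏ q ∈ S, (q : ℤ) → jacobiSym a p' = jacobiSym a p

end

end Pool.Agent.P.MP_8b7eba_nt.SM
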