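import Pool.Agent.P.MP_8b7eba_nt.SM.IfC

/-! Types of primes with respect to a grid, and the oscillation estimate. -/

namespace Pool.Agent.P.MP_8b7eba_nt.SM

open Finset

noncomputable section

/-- compatibility of a point and a prime -/
def cpf {ι : Type} (V : (ι → ℕ) → Prop) (c₀ : ℕ → Prop) (sy : ℕ → ℕ → F2) (a : ι → F2) (z : ι → ℕ)
    (y : ℕ) : Prop :=
  V z ∧ c₀ y ∧ ∀ o, sy (z o) y = a o

/-- the entries of a grid with small index -/
def low {k M : ℕ} (q : Option (Fin k) → Fin (M + 1) → ℕ) (i : Fin k) : Fin (M + 1) → ℕ :=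
  q (some i)

open Classical in
/-- the type of a prime with respect to a grid -/
def tyf {k M : ℕ} (cp : (Option (Fin k) → ℕ) → ℕ → Prop)
    (vl : (Fin k → Fin (M + 1) → ℕ) → ℕ → Mu k M → ℕ → F2) (q : Option (Fin k) → Fin (M + 1) → ℕ)
    (y : ℕ) : Option (Gf k M → F2) :=
  if (∀ π, cp (gp q π) y) ∧ ∀ j μ, (∃ i, μ i = 0) →
      vl (low q) (q none j) μ y + vl (low q) (q none 0) μ y = 0 then
    some fun z => vl (low q) (q none (z none).succ) (fun i => (z (some i)).succ) y +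
      vl (low q) (q none 0) (fun i => (z (some i)).succ) y
  else none

open Classical in
/-- oscillation of the governing characters -/
def OscG {k M : ℕ} (X : Option (Fin k) → Finset ℕ) (Y : Finset ℕ) (sy : ℕ → ℕ → F2)
    (vl : (Fin k → Fin (M + 1) → ℕ) → ℕ → Mu k M → ℕ → F2) (a : Option (Fin k) → F2)
    (ok : (Option (Fin k) → Fin (M + 1) → ℕ) → Prop) (θ : ℝ) : Prop :=
  ∀ q ∈ grids M X, ok q → ∀ j j₀, j ≠ j₀ → ∀ e : Mu k M → F2, e ≠ 0 → ∀ b : ℕ → ℝ,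
    (∀ y, |b y| ≤ 1) → (∀ y, b y ≠ 0 → ∀ i j', sy (q (some i) j') y = a (some i)) →
    ∑ w ∈ (X none).filter (fun w => ok (Function.update q none (Function.update (q none) j w))),
      |∑ y ∈ Y, b y * sr (∑ μ, e μ * (vl (low q) w μ y + vl (low q) (q none j₀) μ y))| ≤
      θ * (X none).card * Y.card

end

open Classical in
/-- the oscillation estimate for the types -/
def OSCA : Prop :=
  ∀ (k M : ℕ) (X : Option (Fin k) → Finset ℕ) (Y : Finset ℕ) (sy : ℕ → ℕ → F2)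
    (vl : (Fin k → Fin (M + 1) → ℕ) → ℕ → Mu k M → ℕ → F2) (a : Option (Fin k) → F2)
    (V : (Option (Fin k) → ℕ) → Prop) (c₀ : ℕ → Prop)
    (ok : (Option (Fin k) → Fin (M + 1) → ℕ) → Prop) (θ : ℝ), 1 ≤ k → 0 ≤ θ →
    (∀ u, ∀ w ∈ X none, ∀ y ∈ Y, vl u w 0 y = sy w y) → (∀ q, ok q → ∀ π, V (gp q π)) →
    (∀ i (b : ℕ → ℝ), (∀ y, |b y| ≤ 1) →
      ∑ u ∈ X (some i), |∑ y ∈ Y, b y * sr (sy u y)| ≤ θ * (X (some i)).card * Y.card) →
    OscG X Y sy vl a ok θ →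
    ∀ (z : Option (Fin k) → ℕ) (π : Gz k M) (G : Gf k M → F2) (b : ℕ → ℝ), (∀ y, |b y| ≤ 1) →
      ∑ q ∈ (grids M X).filter (fun q => ok q ∧ gp q π = z),
        |∑ y ∈ Y, b y * ((if tyf (cpf V c₀ sy a) vl q y = some G then 1 else 0) -
          (2 ^ (k * M + M * (M + 1) ^ k))⁻¹ * if cpf V c₀ sy a z y then 1 else 0)| ≤
        2 * θ * (∏ i, ((X i).card : ℝ)) ^ M * Y.card

end Pool.Agent.P.MP_8b7eba_nt.SM
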