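import Pool.Agent.P.MP_8b7eba_nt.R2.IfL
import Pool.Agent.P.MP_8b7eba_nt.R2.TPL
import Pool.Agent.P.MP_8b7eba_nt.SM.DefD

/-! Definitions for the project SM: lattices, Selmer conditions, governing systems. -/

namespace Pool.Agent.P.MP_8b7eba_nt.SM

open Finset R2
open scoped Matrix

noncomputable section

/-- the results on Galois groups and on the curve which are used -/
class HA : Prop where
  cf : CF
  gth : GTH

instance : Nonempty Pl := ⟨(t_PL.1 2 Nat.prime_two).choose⟩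

/-! ### Chosen places and elements -/

/-- a place above `p` -/
def pl (p : ℕ) : Pl := Classical.epsilon fun w => w.p = p

/-- the quadratic character which is ramified only at `p` -/
def qs (p : ℕ) : GQ → F2 := qz (ps p)

/-- a generator of tame inertia -/
def tp (p : ℕ) : GQ :=
  Classical.epsilon fun t => t ∈ (pl p).I ∧ ∀ β : Om, β ^ 2 = p → t β = -β

/-- a Frobenius element -/
def fr (p : ℕ) : GQ := Classical.epsilon fun φ => (pl p).IsFrob 1 φ ∧ qs p φ = 0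

/-- the character of the twist -/
def chi (S : Finset ℕ) : GQ → F2 := ∑ p ∈ S, qs p

/-- the bad primes -/
def T30 : Finset ℕ := {2, 3, 5}

/-- a basis of the characters which are unramified outside thirty -/
def bs : Fin 4 → ℤ := ![-1, 2, -3, 5]

/-- a basis of the small characters -/
def smz (S : Finset ℕ) : Fin 4 ⊕ S → ℤ := Sum.elim bs fun q => q

/-- the group generated by complex conjugation -/
abbrev Ht : Subgroup GQ := Subgroup.zpowers tau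

open Classical in
/-- the local invariant as a bit -/
def iv (p : ℕ) (κ : GQ → GQ → F2) : F2 := if Triv (pl p).D (sgn κ) then 0 else 1

/-! ### Lattices and cocycles -/

abbrev VZ : Type := Fin 2 → Z2

abbrev MZ : Type := Matrix (Fin 2) (Fin 2) Z2

/-- divisibility by `2 ^ n` -/
def Dv (n : ℕ) (v : VZ) : Prop := ∀ i, 2 ^ n ∣ v i

/-- the lift of a vector modulo two -/
def lf (v : V1) : VZ := fun i => ((v i).val : Z2)

/-- the reduction modulo two -/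
def rd (v : VZ) : V1 := fun i => PadicInt.toZMod (v i)

/-- the reduction modulo `2 ^ n` -/
def rn (n : ℕ) (v : VZ) : Fin 2 → ZMod (2 ^ n) := fun i => PadicInt.toZModPow n (v i)

/-- the determinant -/
def dz (u v : VZ) : Z2 := u 0 * v 1 - u 1 * v 0

/-- the determinant modulo two -/
def ee (u v : V1) : F2 := u 0 * v 1 + u 1 * v 0

/-- a lattice in the Tate module -/
structure Lat where
  r : GQ →* MZ
  c : GQ → MZ
  hc : ∀ g, r g = 1 + (2 : Z2) • c g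
  sm : ∀ n, Sm ⊤ fun g i => rn n (r g i)
  det : ∀ g, (r g).det = cyc g
  unr : ∀ w : Pl, ¬ w.p ∣ 30 → ∀ g ∈ w.I, r g = 1
  up : ∀ g ∈ (pl 2).D, r g 1 0 = 0

namespace Lat

variable (Λ : Lat)

/-- the twisted representation -/
def rt (ψ : GQ → F2) (g : GQ) : MZ := sg (ψ g) • Λ.r g

/-- half of `rt - 1` -/
def hh (a : F2) (g : GQ) : MZ := sg a • Λ.c g - (a.val : Z2) • 1

/-- half of `r - 1`, modulo two -/
def cb (g : GQ) : Matrix (Fin 2) (Fin 2) F2 := (Λ.c g).map PadicInt.toZMod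

/-- the coboundary of a vector -/
def bd (ψ : GQ → F2) (v : VZ) (g : GQ) : VZ := Λ.rt ψ g *ᵥ v - v

/-- half of the coboundary of a vector -/
def hb (ψ : GQ → F2) (v : VZ) (g : GQ) : VZ := Λ.hh (ψ g) g *ᵥ v

/-- cocycles modulo `2 ^ n` -/
structure Zn (ψ : GQ → F2) (H : Subgroup GQ) (n : ℕ) (x : GQ → VZ) : Prop where
  sm : Sm H fun g => rn n (x g)
  co : ∀ g ∈ H, ∀ h ∈ H, Dv n (x (g * h) - x g - Λ.rt ψ g *ᵥ x h)

/-- exact cocycles which are rational coboundaries (only in the second coordinate if `o`) -/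
def Ex (o : Prop) (ψ : GQ → F2) (H : Subgroup GQ) (b : GQ → VZ) : Prop :=
  (∀ n, Λ.Zn ψ H n b) ∧ ∃ (e : ℕ) (v : VZ), ∀ g ∈ H,
    2 ^ e * b g 1 = Λ.bd ψ v g 1 ∧ (¬ o → 2 ^ e * b g 0 = Λ.bd ψ v g 0)

/-- the local condition modulo `2 ^ n` -/
def Lc (o : Prop) (ψ : GQ → F2) (H : Subgroup GQ) (n : ℕ) (x : GQ → VZ) : Prop :=
  ∃ b, Λ.Ex o ψ H b ∧ ∀ g ∈ H, Dv n (x g - b g)

/-- global cocycles without conditions at the bad primes -/
structure Gy (S : Finset ℕ) (n : ℕ) (x : GQ → VZ) : Prop where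
  zn : Λ.Zn (chi S) ⊤ n x
  unr : ∀ w : Pl, ¬ w.p ∣ 30 → w.p ∉ S → ∀ g ∈ w.I, Dv n (x g)
  inf : Λ.Lc False (chi S) Ht n x

/-- Selmer cocycles modulo `2 ^ n` -/
structure Wn (S : Finset ℕ) (n : ℕ) (x : GQ → VZ) : Prop extends Λ.Gy S n x where
  loc : ∀ p ∈ S ∪ T30, Λ.Lc (p = 2) (chi S) (pl p).D n x

/-- characters which lift to Selmer cocycles modulo `2 ^ n` -/
def WK (S : Finset ℕ) (n : ℕ) (φ : X2) : Prop := ∃ x, Λ.Wn S n x ∧ ∀ g, rd (x g) = φ g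

/-- the relaxed 2-Selmer group -/
structure Se (S : Finset ℕ) (φ : X2) : Prop where
  ch : IsCh ⊤ φ
  unr : ∀ w : Pl, ¬ w.p ∣ 30 → w.p ∉ S → ∀ g ∈ w.I, φ g = 0
  loc : ∀ p ∈ S, φ (fr p) = Λ.cb (fr p) *ᵥ φ (tp p) + chi S (fr p) • φ (tp p)

/-- the local discrepancy -/
def Ld (S : Finset ℕ) (n : ℕ) (x : GQ → VZ) (p : ℕ) (l : X2) : Prop :=
  IsCh (pl p).D l ∧ Λ.Lc (p = 2) (chi S) (pl p).D (n + 1) fun g => x g - (2 : Z2) ^ n • lf (l g)

/-- the cup product modulo `2 ^ n` -/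
def wp (ψ : GQ → F2) (n : ℕ) (x y : GQ → VZ) (g h : GQ) : Om :=
  ec ((dz (x g) (Λ.rt ψ g *ᵥ y h) : ℚ_[2]) / 2 ^ n)

/-- the image of a pair of characters is stable -/
def Stab (φ ψ : X2) : Prop := ∀ g h, ∃ h', φ h' = Λ.cb g *ᵥ φ h ∧ ψ h' = Λ.cb g *ᵥ ψ h

/-- `Λ` is the Tate module -/
def Of (T : Tate (pl 2)) : Prop := ∀ g i j, (Λ.r g i j : ℚ_[2]) = T.rho g i j

end Lat

/-- doubling of one coordinate -/
def dg2 (i : Fin 2) : MZ := Matrix.diagonal fun j => if j = i then 2 else 1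

/-- `Λ'` is the sublattice of index two -/
def Lat.Sh (Λ Λ' : Lat) (i : Fin 2) : Prop := ∀ g, dg2 i * Λ'.r g = Λ.r g * dg2 i

/-- good pairs of characters -/
def Good (φ ψ : X2) : Prop := ∃ g h, ψ g = 0 ∧ ee (φ g) (ψ h) = 1

/-- there is a good pair which lifts to all levels -/
def Lat.Bad (Λ : Lat) (S : Finset ℕ) (p₀ : ℕ) : Prop :=
  ∃ φ ψ, (∀ n, Λ.WK S (n + 1) φ ∧ Λ.WK S (n + 1) ψ) ∧ φ (tp p₀) = 0 ∧ ψ (tp p₀) = 0 ∧
    (Λ.Stab φ ψ → Good φ ψ)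

/-! ### Governing systems -/

/-- the difference of two characters -/
def aa {ι : Type} {M : ℕ} (u : ι → Fin (M + 1) → ℕ) (i : ι) (j : Fin (M + 1)) : GQ → F2 :=
  qs (u i j) + qs (u i 0)

/-- the degree of a multi-index -/
def dg {k M : ℕ} (μ : Mu k M) : ℕ := (univ.filter fun i => μ i ≠ 0).card

/-- the defining relation of a governing system -/
def Rel {k M : ℕ} (u : Fin k → Fin (M + 1) → ℕ) (γ : Mu k M → GQ → F2) (μ : Mu k M)
    (θ : GQ → F2) : Prop :=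
  Sm ⊤ θ ∧ ∀ g h, θ (g * h) = θ g + θ h +
    ∑ U ∈ univ.erase ∅, (∏ i ∈ U, aa u i (μ i) g) * γ (ers μ U) h

/-- the ramification of a member of a governing system -/
def Ram {k M : ℕ} (u : Fin k → Fin (M + 1) → ℕ) (w w' : ℕ) (θ : GQ → F2) : Prop :=
  ∀ v : Pl, v.p ≠ 2 → v.p ≠ w → v.p ≠ w' → (∀ i j, v.p ≠ u i j) → ∀ g ∈ v.I, θ g = 0

/-- governing systems in degrees below `t` -/
structure Gov {k M : ℕ} (t : ℕ) (u : Fin k → Fin (M + 1) → ℕ) (Q : Finset ℕ) (w w' : ℕ)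
    (γ : Mu k M → GQ → F2) : Prop where
  zero : γ 0 = qs w + qs w'
  rel : ∀ μ, dg μ < t → Rel u γ μ (γ μ)
  ram : ∀ μ, dg μ < t → Ram u w w' (γ μ)
  tw : ∀ μ, dg μ < t → μ ≠ 0 → γ μ (tp w) = 0 ∧ γ μ (tp w') = 0
  loc : ∀ μ, dg μ < t → ∀ q ∈ Q, ∀ g ∈ (pl q).D, γ μ g = 0
  tau : ∀ μ, dg μ < t → γ μ tau = 0

/-- admissible small primes -/
structure Uok {k M : ℕ} (u : Fin k → Fin (M + 1) → ℕ) (Q : Finset ℕ) : Prop where
  gp : ∀ i j, Gp (u i j) ∧ u i j ∈ Q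
  two : 2 ∈ Q
  pr : ∀ q ∈ Q, q.Prime

/-- admissible large primes -/
structure Wok {k M : ℕ} (u : Fin k → Fin (M + 1) → ℕ) (Q : Finset ℕ) (w : ℕ) : Prop where
  gp : Gp w
  nm : w ∉ Q
  sp : ∀ i j, ∀ g ∈ (pl w).D, aa u i j g = 0

/-- the set of primes at which a governing system is trivial -/
def Qs {k M : ℕ} (P : Finset ℕ) (u : Fin k → Fin (M + 1) → ℕ) : Finset ℕ :=
  P ∪ T30 ∪ univ.image fun s : Fin k × Fin (M + 1) => u s.1 s.2

/-! ### Grids of twists -/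

/-- the arithmetic conditions on a grid -/
structure GrA {k M : ℕ} (q : Option (Fin k) → Fin (M + 1) → ℕ) (P : Finset ℕ) : Prop where
  gp : ∀ i j, Gp (q i j) ∧ q i j ∉ P
  gP : ∀ p ∈ P, Gp p
  inj : ∀ i j i' j', q i j = q i' j' → i = i' ∧ j = j'
  aP : ∀ i j, ∀ p ∈ P ∪ T30, ∀ g ∈ (pl p).D, aa q i j g = 0
  aq : ∀ i j i' j', i ≠ i' → ∀ g ∈ (pl (q i' j')).D, aa q i j g = 0
  tau : ∀ i j, aa q i j tau = 0

/-- grids of twists with governing systems -/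
structure Grid (k M : ℕ) where
  q : Option (Fin k) → Fin (M + 1) → ℕ
  P : Finset ℕ
  γ : Fin (M + 1) → Mu k M → GQ → F2
  ar : GrA q P
  gov : ∀ j, Gov (k + 1) (low q) (Qs P (low q)) (q none j) (q none 0) (γ j)
  g0 : γ 0 = 0

namespace Grid

variable {k M : ℕ} (𝒢 : Grid k M)

/-- the last prime -/
structure Pt (y : ℕ) : Prop where
  gp : Gp y
  nP : y ∉ 𝒢.P
  nq : ∀ i j, 𝒢.q i j ≠ y
  a : ∀ i j, ∀ g ∈ (pl y).D, aa 𝒢.q i j g = 0
  g : ∀ j μ, (∃ i, μ i = 0) → 𝒢.γ j μ (fr y) = 0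

/-- the primes of the twist at a point -/
def S (y : ℕ) (z : Gz k M) : Finset ℕ := insert y 𝒢.P ∪ univ.image fun i => 𝒢.q i (z i)

/-- the top values of the governing system -/
def G (y : ℕ) (z : Gf k M) : F2 := 𝒢.γ (z none).succ (fun i => (z (some i)).succ) (fr y)

/-- the character at a point -/
def ph (φ : X2) (R : V1) (z : Gz k M) : X2 := fun g => φ g + qs (𝒢.q none (z none)) g • R

/-- the governing function -/
def m (g : GQ) (z : Gz k M) : Z2 := mm (fun j μ => 𝒢.γ j μ g) z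

/-- the ratio of the twists -/
def la (g : GQ) (z : Gz k M) : Z2 := ∏ i, sg (aa 𝒢.q i (z i) g)

/-- the corrected cochain -/
def xv (R : V1) (z : Gz k M) (x : GQ → VZ) (g : GQ) : VZ := x g - 𝒢.m g z • lf R

/-- the characters which occur in the generation argument -/
structure InB (Λ : Lat) (y : ℕ) (η : X2) : Prop where
  ch : IsCh ⊤ η
  unr : ∀ w : Pl, ¬ w.p ∣ 30 → w.p ∉ 𝒢.P → w.p ≠ y → (∀ i j, w.p ≠ 𝒢.q i j) → ∀ g ∈ w.I, η g = 0
  loc : ∀ p ∈ 𝒢.P, η (fr p) = Λ.cb (fr p) *ᵥ η (tp p) + chi (𝒢.S y 0) (fr p) • η (tp p)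

/-- a sum of global lifts -/
structure Sum (Λ : Lat) (y : ℕ) (R : V1) (ψ η : X2) (c : Gz k M → Z2) (x : Gz k M → GQ → VZ)
    (l : Gz k M → ℕ → X2) : Prop where
  pt : 𝒢.Pt y
  k1 : 1 ≤ k
  gy : ∀ z, c z ≠ 0 → Λ.Gy (𝒢.S y z) (k + 1) (x z) ∧ Λ.WK (𝒢.S y z) k ψ ∧
    ∀ p ∈ insert y 𝒢.P ∪ T30, Λ.Ld (𝒢.S y z) k (x z) p (l z p)
  ch : IsCh ⊤ η ∧ IsCh ⊤ ψ
  sum : ∀ g, Dv (k + 1) (∑ z, c z • 𝒢.xv R z (x z) g - (2 : Z2) ^ k • lf (η g))

end Grid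

/-- the positions of the primes of a grid -/
abbrev Sl (k M : ℕ) : Type := Option (Fin k) × Fin (M + 1)

/-- the test coordinates -/
abbrev TT (k M s : ℕ) : Type := Bool × Fin 2 × (Fin s ⊕ Sl k M ⊕ Sl k M)

/-- the coordinates of the first kind -/
def A1 (k M s : ℕ) : Finset (TT k M s) := univ.filter fun t => ∃ j, t.2.2 = .inl j

/-- the coordinates of the second kind -/
def A2 (k M s : ℕ) : Finset (TT k M s) := univ.filter fun t => ∃ l, t.2.2 = .inr (.inl l)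

/-- the expected value at a generator of inertia -/
def tq {k M : ℕ} (R : V1) (z : Gz k M) (l : Sl k M) : VZ :=
  if l.1 = none ∧ z l.1 = l.2 then lf R else 0

/-- the test values -/
def Grid.tv {k M s : ℕ} (𝒢 : Grid k M) (σ : Fin s → GQ) (R : V1) (z : Gz k M) (x : GQ → VZ) :
    Fin s ⊕ Sl k M ⊕ Sl k M → VZ
  | .inl j => 𝒢.xv R z x (σ j)
  | .inr (.inl l) => x (tp (𝒢.q l.1 l.2)) - tq R z l
  | .inr (.inr l) => 𝒢.xv R z x (fr (𝒢.q l.1 l.2))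

/-- valid test values -/
def Grid.val {k M s : ℕ} (𝒢 : Grid k M) (Λ : Lat) (R : Bool → V1) (e : Sl k M → F2) (z : Gz k M)
    (δ : TT k M s → Z2) : Prop :=
  ∀ β (l : Sl k M), (z l.1 ≠ l.2 → Dv k ((fun i => δ (β, i, .inr (.inl l))) + tq (R β) z l)) ∧
    (z l.1 = l.2 → Dv k ((fun i => δ (β, i, .inr (.inr l))) +
      𝒢.m (fr (𝒢.q l.1 l.2)) z • lf (R β) + Λ.hh (e l) (fr (𝒢.q l.1 l.2)) *ᵥ
        ((fun i => δ (β, i, .inr (.inl l))) + tq (R β) z l)))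

/-- a grid with a last prime, a pair of families of characters and test elements -/
structure Sit (k M s : ℕ) extends Grid k M where
  Λ : Lat
  y : ℕ
  φ : Bool → X2
  R : Bool → V1
  σ : Fin s → GQ
  pt : toGrid.Pt y
  se : ∀ β z, Λ.Se (toGrid.S y z) (toGrid.ph (φ β) (R β) z)
  φ0 : ∀ β i j, φ β (tp (q i j)) = 0
  R0 : R false = 0
  Ry : ee (R true) (φ false (tp y)) = 1
  hσ : ∀ η, toGrid.InB Λ y η → (∀ j, η (σ j) = 0) → (∀ i j, η (tp (q i j)) = 0) → η = 0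

namespace Sit

variable {k M s : ℕ} (𝒮 : Sit k M s)

/-- lifts of the pair of characters at a point -/
def Lif (n : ℕ) (z : Gz k M) (x : Bool → GQ → VZ) : Prop :=
  ∀ β, 𝒮.Λ.Wn (𝒮.S 𝒮.y z) n (x β) ∧ ∀ g, rd (x β g) = 𝒮.ph (𝒮.φ β) (𝒮.R β) z g

/-- realised test values -/
def Re (z : Gz k M) (δ : TT k M s → Z2) : Prop :=
  ∃ x, 𝒮.Lif k z x ∧ ∀ t : TT k M s, 2 ^ k ∣ 𝒮.tv 𝒮.σ (𝒮.R t.1) z (x t.1) t.2.2 t.2.1 - δ t

/-- the values of the twisting character at the Frobenius elements -/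
def e (l : Sl k M) : F2 := chi (𝒮.S 𝒮.y (Function.update 0 l.1 l.2)) (fr (𝒮.q l.1 l.2))

end Sit

/-! ### Multiquadratic fields -/

/-- independent quadratic characters -/
structure MQ (σ : Type) where
  n : σ → ℤ
  g : (σ → F2) → GQ
  ne : ∀ s, n s ≠ 0
  hg : ∀ v s, qz (n s) (g v) = v s

/-- the Galois group of the multiquadratic field -/
def MQ.H {σ : Type} (m : MQ σ) : Subgroup GQ := ⨅ s, MulAction.stabilizer GQ (rt (m.n s))

/-- the order generated by the square roots -/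
structure MQ.Ord {σ : Type} [Fintype σ] [DecidableEq σ] (m : MQ σ) (O : Subring Om)
    (b : Module.Basis (Finset σ) ℤ O) (N : O →* ℤ) : Prop where
  val : ∀ U, (b U : Om) = ∏ s ∈ U, rt (m.n s)
  int : ∀ x : O, IsIntegral ℤ (x : Om) ∧ Fix m.H x ∧ ∀ g : GQ, g x ∈ O
  nm : ∀ x : O, (N x : Om) = ∏ v, m.g v x
  bd : ∀ Y : ℕ, 1 ≤ Y → (∀ s, |m.n s| ≤ Y) →
    (∀ (x y : O) (a c : ℕ), (∀ i, |b.repr x i| ≤ a) → (∀ i, |b.repr y i| ≤ c) →
      ∀ i, |b.repr (x * y) i| ≤ ((2 * Y) ^ Fintype.card σ : ℕ) * a * c) ∧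
    ∀ (x : O) (a : ℕ), (∀ i, |b.repr x i| ≤ a) →
      |N x| ≤ ((2 * Y) ^ Fintype.card σ * a) ^ 2 ^ Fintype.card σ

/-! ### Patterns in boxes -/

/-- the character attached to a pattern -/
def pat {r : ℕ} (φ : X2) (R : Fin r → V1) (p : Fin r → ℕ) : X2 :=
  fun g => φ g + ∑ i, qs (p i) g • R i

/-- the small part -/
def sp (S : Finset ℕ) (a : Fin 4 ⊕ S → V1) : X2 := fun g => ∑ b, qz (smz S b) g • a b

/-- a good pair of patterns -/
structure Stp (k s : ℕ) where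
  B : Box
  Λ : Lat
  a : Fin B.r → Fin B.r → F2
  e : Option (Option (Fin k)) ↪ Fin B.r
  φ : Bool → X2
  R : Bool → Fin B.r → V1
  sy : ∃ p ∈ B.pts, Leg p = a
  φ0 : ∀ β i, ∀ q ∈ B.X i, φ β (tp q) = 0
  lo : ∀ β i, R β (e (some (some i))) = 0
  ra : R false (e (some none)) = 0
  rb : ee (R true (e (some none))) (R false (e none)) = 1
  sel : ∀ p ∈ B.pts, Leg p = a → (∀ β, Λ.Se (B.set p) (pat (φ β) (R β) p)) ∧
    ∃ C : Finset X2, C.card ≤ 2 ^ s ∧ ∀ χ, Λ.Se (B.set p) χ → χ ∈ C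

namespace Stp

variable {k s : ℕ} (𝒯 : Stp k s)

/-- the sets of the variable primes -/
def X (o : Option (Fin k)) : Finset ℕ := 𝒯.B.X (𝒯.e (some o))

/-- the set of the last prime -/
def Y : Finset ℕ := 𝒯.B.X (𝒯.e none)

open Classical in
/-- the fixed primes -/
def P (p : Fin 𝒯.B.r → ℕ) : Finset ℕ :=
  𝒯.B.S ∪ (univ.filter fun i => i ∉ Set.range 𝒯.e).image p

open Classical in
/-- the part of the characters which does not depend on the point of the grid -/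
def Φ (p : Fin 𝒯.B.r → ℕ) (y : ℕ) (β : Bool) : X2 := fun g => 𝒯.φ β g +
  ∑ i ∈ univ.filter (fun i => i ∉ Set.range 𝒯.e), qs (p i) g • 𝒯.R β i + qs y g • 𝒯.R β (𝒯.e none)

/-- valid points -/
def V (p : Fin 𝒯.B.r → ℕ) (z : Option (Fin k) → ℕ) : Prop :=
  ∀ i j, i ≠ 𝒯.e none → j ≠ 𝒯.e none → Leg (asm 𝒯.e p z 0) i j = 𝒯.a i j

/-- compatibility -/
def cp (p : Fin 𝒯.B.r → ℕ) : (Option (Fin k) → ℕ) → ℕ → Prop :=
  cpf (𝒯.V p) (fun y => ∀ j, j ∉ Set.range 𝒯.e → js (ps (p j)) y = 𝒯.a (𝒯.e none) j)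
    (fun u y => js (ps u) y) fun o => 𝒯.a (𝒯.e none) (𝒯.e (some o))

/-- the points at which the pair lifts -/
def W (n : ℕ) (p : Fin 𝒯.B.r → ℕ) : Prop :=
  Leg p = 𝒯.a ∧ ∀ β, 𝒯.Λ.WK (𝒯.B.set p) n (pat (𝒯.φ β) (𝒯.R β) p)

/-- grids with governing systems -/
structure Ok {M : ℕ} (p : Fin 𝒯.B.r → ℕ)
    (θ : (Fin k → Fin (M + 1) → ℕ) → ℕ → Mu k M → GQ → F2)
    (q : Option (Fin k) → Fin (M + 1) → ℕ) : Prop where
  inj : ∀ i, Function.Injective (q i)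
  v : ∀ π, 𝒯.V p (gp q π)
  gov : ∀ j j', Gov (k + 1) (low q) (Qs (𝒯.P p) (low q)) (q none j) (q none j')
    (θ (low q) (q none j) + θ (low q) (q none j'))

/-- the conditions on the sizes -/
structure Num (A T y₀ y₁ : ℕ) : Prop where
  two : 2 ≤ T
  big : (T * (𝒯.B.E + 2) * 2 ^ (𝒯.B.r + 𝒯.B.S.card + 2)) ^ A ≤ y₀
  le : y₀ ≤ y₁
  t0 : ∀ i, y₀ ≤ 𝒯.B.t i
  low : ∀ i, 𝒯.B.t (𝒯.e (some (some i))) ≤ y₁
  ha : y₁ ^ A ≤ 𝒯.B.t (𝒯.e (some none))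
  hb : y₁ ^ A ≤ 𝒯.B.t (𝒯.e none)

end Stp

open Classical in
/-- the number of solutions of the model -/
def Mod.ns {I σ : Type} [Fintype I] [DecidableEq I] [Fintype σ] (m : Mod I σ) (i₀ : I)
    (x : I → I → F2) : ℕ :=
  (univ.filter fun s : (Fin 4 ⊕ σ → FF) × (I → FF) => m.Sol i₀ x s.1 s.2).card

/-- `m` is the model attached to a lattice and a box -/
structure IsMod (Λ : Lat) (B : Box) (m : Mod (Fin B.r) B.S) : Prop where
  κ : ∀ i, ∀ p ∈ B.X i, ∀ b, m.κ i b = js (smz B.S b) p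
  C : ∀ D : Submodule F2 FF, (∀ b, ∀ v ∈ D, m.C b v ∈ D) →
    ∀ g, ∀ v ∈ D, (Λ.cb g *ᵥ v.1, Λ.cb g *ᵥ v.2) ∈ D
  sol : ∀ p ∈ B.pts, ∀ i₀ a R, m.Sol i₀ (Leg p) a R ↔ R i₀ = 0 ∧
    Λ.Se (B.set p) (pat (sp B.S fun b => (a b).1) (fun i => (R i).1) p) ∧
    Λ.Se (B.set p) (pat (sp B.S fun b => (a b).2) (fun i => (R i).2) p)
  rep : ∀ p ∈ B.pts, ∀ χ, Λ.Se (B.set p) χ → ∃ a, χ = pat (sp B.S a) (fun i => χ (tp (p i))) p

end

end Pool.Agent.P.MP_8b7eba_nt.SM
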