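import Pool.Agent.P.MP_8b7eba_nt.SM.Main
import Pool.Agent.P.MP_8b7eba_nt.R2.TMIN
import Pool.Agent.P.MP_8b7eba_nt.R2.TMIS

/-! The rank of the minimal model. -/

namespace Pool.Agent.P.MP_8b7eba_nt.SM

open R2 MP_9c97e9_nt

open Classical in
theorem twd_rank_zero {d : ℤ} (h4 : d % 4 = 1) (h : (Af d).Finite) :
    Module.rank ℤ (Pt (twd d) ℚ) = 0 := by
  have hs := TMIS.split_twd h4 ℚ
  have h1 : Finite (Pt (twd d) ℚ) := by
    refine Set.finite_univ_iff.1 (((h.biUnion (t := fun q => {P | Is P ((q.1 + 21 * d) / 36)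
      (q.2 / 108)}) fun q _ => Set.Subsingleton.finite fun P a Q b => Is.unique hs a b).insert
      0).subset fun P _ => ?_)
    rcases zero_or_is P with e | ⟨x, η, e⟩
    · exact .inl e
    · refine .inr (Set.mem_biUnion (x := (36 * x - 21 * d, 108 * η)) ?_ ?_)
      · have := Is.eq hs e
        simp only [Set.mem_ofPred_eq]
        push_cast
        linear_combination 11664 * this
      · simpa using e
  exact rank_eq_zero_iff.2 fun P => ⟨addOrderOf P, by
    simpa using (isOfFinAddOrder_of_finite P).addOrderOf_pos.ne', by simp⟩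

end Pool.Agent.P.MP_8b7eba_nt.SM
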