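import Pool.Agent.P.MP_8b7eba_nt.SM.DefC

/-! Elementary statements of the project SM: algebra on grids, counting, bilinear forms, sieve. -/

namespace Pool.Agent.P.MP_8b7eba_nt.SM

open Finset Module

/-! ### Algebra on grids -/

/-- the elements of `Lam` -/
def LAM : Prop :=
  ∀ k M : ℕ, (∀ (U : Finset (Option (Fin k))) (f : Gz k M → Z2),
    (∀ z z', (∀ i ∈ U, z i = z' i) → f z = f z') → (fun z => 2 ^ U.card * f z) ∈ Lam k M) ∧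
    ∀ f ∈ Lam k M, f ∈ Submodule.span Z2 {g : Gz k M → Z2 | ∃ (U : Finset (Option (Fin k)))
      (ζ : Gz k M), (∀ i, i ∉ U → ζ i = 0) ∧
      g = fun z => if ∀ i ∈ U, z i = ζ i then 2 ^ U.card else 0}

/-- duality modulo `2 ^ n` -/
def DUAL : Prop :=
  ∀ (Z : Type) [Fintype Z] (n : ℕ) (K : Submodule Z2 (Z → Z2)), (∀ f, (∀ z, 2 ^ n ∣ f z) → f ∈ K) →
    ∀ ξ, (∀ c, (∀ f ∈ K, Pe n c f) → Pe n c ξ) → ξ ∈ K

/-- generation -/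
def NAK : Prop :=
  ∀ (k M n : ℕ) (Y : Gz k M → Prop) (Ξ Θ : Set (Gz k M → Z2)),
    (∀ c : Gz k M → Z2, (∀ z, c z ≠ 0 → Y z) → (∀ l ∈ Lam k M, Pe n c l) →
      (∀ l, Mx l → ∀ ξ ∈ Ξ, Pe n c (l * ξ)) → (∀ θ ∈ Θ, Pe n c θ) → ∀ ξ ∈ Ξ, Pe n c ξ) →
    ∀ N : Submodule Z2 (Gz k M → Z2), (∀ l ∈ Lam k M, ∀ f ∈ N, l * f ∈ N) → 1 ∈ N → Θ ⊆ N →
      (∀ f, (∀ z, Y z → 2 ^ n ∣ f z) → f ∈ N) → Ξ ⊆ N

/-- the governing function is a cocycle modulo `Lam` -/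
def MCO : Prop :=
  ∀ (k M : ℕ) (a : Fin k → Fin (M + 1) → F2) (γ γ' γ'' : Fin (M + 1) → Mu k M → F2),
    (∀ i, a i 0 = 0) →
    (∀ j μ, γ'' j μ = γ j μ + ∑ U : Finset (Fin k), (∏ i ∈ U, a i (μ i)) * γ' j (ers μ U)) →
    (fun z => mm γ'' z - mm γ z - (∏ i, sg (a i (z (some i)))) * mm γ' z) ∈ Lam k M

/-- values of the governing function -/
def MCV : Prop :=
  ∀ (k M : ℕ) (γ : Fin (M + 1) → Mu k M → F2),
    (∀ f : Fin (M + 1) → Z2, (fun z => 2 * f (z none) * mm γ z) ∈ Lam k M) ∧ ∀ z : Gz k M,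
    PadicInt.toZMod (mm γ z) = γ (z none) 0 ∧
    ((∀ μ, μ ≠ 0 → γ (z none) μ = 0) → mm γ z = (γ (z none) 0).val) ∧
    ((∀ μ, (∃ i, μ i = 0) → γ (z none) μ = 0) → mm γ z =
      if ∀ i, z (some i) ≠ 0 then 2 ^ k * ((γ (z none) fun i => z (some i)).val : Z2) else 0)

/-- the number of subgroups generated by subsets -/
def CNT1 : Prop :=
  ∀ (A C : Type) [AddCommGroup A] [Finite A] [Fintype C] (ev : C → A) (l : ℕ), Nat.card A ≤ 2 ^ l →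
    ∃ 𝒮 : Finset (AddSubgroup A), 𝒮.card ≤ (Fintype.card C + 1) ^ l ∧
      ∀ S : Set C, AddSubgroup.closure (ev '' S) ∈ 𝒮

/-- the number of closed systems -/
def STR1 : Prop :=
  ∀ k s : ℕ, 2 ≤ k → ∃ C : ℕ, ∀ (M : ℕ) (T : Type) [Fintype T] (A₁ A₂ : Finset T)
    (val : Gz k M → (T → Z2) → Prop), A₁.card ≤ s → Fintype.card T ≤ s * (M + 1) →
    ∃ 𝒮 : Finset ((Gz k M → Prop) × (Gz k M → T → Z2)), 𝒮.card ≤ 2 ^ (C * (M + 1) ^ k) ∧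
      ∀ Re, Clo A₁ A₂ val Re → ∃ p ∈ 𝒮, (∀ z, p.1 z ↔ ∃ δ, Re z δ) ∧ Cho Re p.2

/-- the number of functions which are orthogonal to all admissible vectors -/
def STR2 : Prop :=
  ∀ k s : ℕ, 1 ≤ k → ∃ C : ℕ, ∀ (M : ℕ) (T : Type) [Fintype T] (A₁ A₂ : Finset T)
    (Y : Gz k M → Prop) (ξ : Gz k M → T → Z2), A₁.card ≤ s → Fintype.card T ≤ s * (M + 1) →
    (∀ z, Y z → ∀ t ∈ A₂, 2 ∣ ξ z t) →
    ∃ 𝒱 : Finset (Gz k M → F2), 𝒱.card ≤ 2 ^ (C * (M + 1) ^ k) ∧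
      ∀ H, Ort A₁ A₂ Y ξ H → ∃ v ∈ 𝒱, ∀ z, Y z → H z = v z

/-- the inequality of Hoeffding -/
def HOEF : Prop :=
  ∀ (N : Type) [Fintype N] [DecidableEq N] (Y : Finset N) (v : N → F2) (t : ℝ), 0 ≤ t →
    ((univ.filter fun G : N → F2 =>
      (Y.card : ℝ) / 2 + t ≤ (Y.filter fun z => G z = v z).card).card : ℝ) ≤
      2 ^ Fintype.card N * Real.exp (-(2 * t ^ 2 / Fintype.card N))

open Classical in
/-- the halving inequality on a grid -/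
def CORE : Prop :=
  ∀ (k s : ℕ) (ε : ℝ), 2 ≤ k → 0 < ε → ∃ M₀ : ℕ, ∀ M, M₀ ≤ M → ∀ (T : Type) [Fintype T]
    (A₁ A₂ : Finset T) (val : Gz k M → (T → Z2) → Prop), A₁.card ≤ s →
    Fintype.card T ≤ s * (M + 1) →
    ∃ B : Finset (Gf k M → F2), (B.card : ℝ) * 2 ^ (s * (M + 1)) ≤ ε * 2 ^ M ^ (k + 1) ∧
      ∀ (Re : Gz k M → (T → Z2) → Prop) (Yp : Finset (Gz k M)) (G : Gf k M → F2), G ∉ B →
        Clo A₁ A₂ val Re → (∀ z ∈ Yp, ∃ δ, Re z δ) →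
        (∀ ξ, Cho Re ξ → ∃ F : Gz k M → F2, (∀ z ∈ Yp, F z = 0) ∧
          Ort A₁ A₂ (fun z => ∃ δ, Re z δ) ξ (F + ex G)) →
        (Yp.card : ℝ) ≤ (univ.filter fun z => ∃ δ, Re z δ).card / 2 + ε * (M + 1) ^ (k + 1)

/-! ### The model of the 2-Selmer group -/

/-- the rank of the system of equations for the symbols -/
def RANK : Prop :=
  ∀ (I : Type) [Fintype I] [DecidableEq I] (R b : I → FF) (i₀ : I), R i₀ = 0 →
    ((Sy I).filter fun x => ∀ i, ∑ j, x i j • (R j + R i) = b i).card *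
      Nat.card (Submodule.span F2 (Set.range R)) ^ Fintype.card I ≤ 16 ^ 16 * (Sy I).card

open Classical in
/-- the number of patterns -/
def PAT1 : Prop :=
  ∀ (I σ : Type) [Fintype I] [Fintype σ] (κ : I → σ → F2) (J₀ J : Finset I) (D : Submodule F2 FF)
    (b : σ → FF) (v : FF), (∀ e : σ → F2, e ≠ 0 → ∃ i ∈ J₀, ∑ q, κ i q * e q = 1) →
    Disjoint J J₀ → v ∈ D →
    ((univ.filter fun R : I → FF => (∀ i, R i ∈ D) ∧ (∀ q, ∑ i, κ i q • R i = b q) ∧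
      ∀ i ∈ J, R i ≠ v).card : ℝ) * Nat.card D ^ Fintype.card σ ≤
      (15 / 16) ^ J.card * Nat.card D ^ Fintype.card I

open Classical in
/-- the average number of solutions -/
def GENA : Prop :=
  ∃ c : ℝ, 0 < c ∧ ∀ (I σ τ : Type) [Fintype I] [DecidableEq I] [Fintype σ] [Fintype τ]
    (m : Mod I σ) (i₀ : I) (w : I → I → F2) (J₀ : Finset I) (J : τ → Finset I) (l N : ℕ),
    (∀ e : Fin 4 ⊕ σ → F2, e ≠ 0 → ∃ i ∈ J₀, ∑ b, m.κ i b * e b = 1) →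
    (∀ e : Fin 4 → F2, e ≠ 0 → N ≤ (univ.filter fun i => ∑ b, m.κ i (.inl b) * e b = 1).card) →
    (∀ t, l ≤ (J t).card ∧ Disjoint (J t) J₀) →
    ∑ x ∈ Sy I, ((univ.filter fun s : (Fin 4 ⊕ σ → FF) × (I → FF) =>
      m.Sol i₀ (x + w) s.1 s.2).card : ℝ) ≤ c * (Sy I).card * (1 + 16 ^ Fintype.card σ / 2 ^ N) ∧
    ∑ x ∈ Sy I, ((univ.filter fun s : (Fin 4 ⊕ σ → FF) × (I → FF) =>
      m.Sol i₀ (x + w) s.1 s.2 ∧ ¬ m.Typ J s.1 s.2).card : ℝ) ≤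
      c * (Sy I).card * (Fintype.card τ * (15 / 16) ^ l + 16 ^ Fintype.card σ / 2 ^ N)

/-! ### Averaging over grids -/

/-- Fourier expansion of an indicator -/
def FOUR : Prop :=
  ∀ (A : Type) [Fintype A] [DecidableEq A] (χ g : A → F2), (if χ = g then 1 else 0 : ℝ) =
    (2 ^ Fintype.card A)⁻¹ * ∑ e : A → F2, sr (∑ a, e a * g a) * sr (∑ a, e a * χ a)

/-- summation over one entry of the grids -/
def SLOT : Prop :=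
  ∀ (ι : Type) [Fintype ι] [DecidableEq ι] (M : ℕ) (X : ι → Finset ℕ) (z : ι → ℕ)
    (π : ι → Fin (M + 1)) (i : ι) (j : Fin (M + 1)) (F : (ι → Fin (M + 1) → ℕ) → ℝ) (θ : ℝ),
    j ≠ π i → 0 ≤ θ → (∀ q ∈ grids M X, gp q π = z →
      ∑ x ∈ X i, F (Function.update q i (Function.update (q i) j x)) ≤ θ * (X i).card) →
    ∑ q ∈ (grids M X).filter (gp · π = z), F q ≤ θ * (∏ i, ((X i).card : ℝ)) ^ M

/-- supersaturation -/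
def SUP0 : Prop :=
  ∀ (ι : Type) [Fintype ι] [DecidableEq ι] (M : ℕ) (X : ι → Finset ℕ) (U : Finset (ι → ℕ)) (δ : ℝ),
    0 ≤ δ → U ⊆ Fintype.piFinset X → δ * ∏ i, ((X i).card : ℝ) ≤ U.card →
    δ ^ (M + 1) ^ Fintype.card ι * (∏ i, ((X i).card : ℝ)) ^ (M + 1) ≤
      ((grids M X).filter fun q => ∀ π, gp q π ∈ U).card

open Classical in
/-- supersaturation with classes -/
def SUP : Prop :=
  ∀ (k M K : ℕ) (X : Option (Fin k) → Finset ℕ) (U : Finset (Option (Fin k) → ℕ))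
    (cls : (Fin k → Fin (M + 1) → ℕ) → ℕ → Fin K) (δ x : ℝ), 0 ≤ δ → U ⊆ Fintype.piFinset X →
    δ * ∏ i, ((X i).card : ℝ) ≤ U.card → 0 < x → (∀ i, x ≤ (X i).card) →
    (δ ^ (M + 1) ^ (k + 1) / K ^ M - (k + 1) * (M + 1) ^ 2 / x) *
      (∏ i, ((X i).card : ℝ)) ^ (M + 1) ≤
      ((grids M X).filter fun q => (∀ i, Function.Injective (q i)) ∧ (∀ π, gp q π ∈ U) ∧
        ∀ j, cls (fun i => q (some i)) (q none j) = cls (fun i => q (some i)) (q none 0)).card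

open Classical in
/-- from grids to boxes -/
def AVG : Prop :=
  ∀ (ι Γ : Type) [Fintype ι] [DecidableEq ι] [Fintype Γ] [Nonempty Γ] (M : ℕ) (X : ι → Finset ℕ)
    (Y : Finset ℕ) (V : (ι → ℕ) → Prop) (cp f₀ f₁ : (ι → ℕ) → ℕ → Prop)
    (ok : (ι → Fin (M + 1) → ℕ) → Prop) (ty : (ι → Fin (M + 1) → ℕ) → ℕ → Option Γ)
    (n κ θ ε δ η : ℝ), n = ∏ i, ((X i).card : ℝ) → 0 < κ → 0 ≤ θ → 0 ≤ ε → ε ≤ 1 → 0 ≤ δ → 0 < η →
    1 ≤ η * n ^ M → (∀ z y, cp z y → V z) → (∀ z y, f₀ z y → cp z y) → (∀ z y, f₁ z y → cp z y) →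
    (∀ q, ok q → (∀ i, Function.Injective (q i)) ∧
      ∀ y ∈ Y, ty q y ≠ none → ∀ π, cp (gp q π) y) →
    (∀ U ⊆ Fintype.piFinset X, (∀ z ∈ U, V z) → δ * n ≤ U.card →
      η * n ^ (M + 1) < ((grids M X).filter fun q => ok q ∧ ∀ π, gp q π ∈ U).card) →
    (∀ (z : ι → ℕ) (π : ι → Fin (M + 1)) (G : Γ) (b : ℕ → ℝ), (∀ y, |b y| ≤ 1) →
      ∑ q ∈ (grids M X).filter (fun q => ok q ∧ gp q π = z),
        |∑ y ∈ Y, b y * ((if ty q y = some G then 1 else 0) - κ * if cp z y then 1 else 0)| ≤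
        θ * n ^ M * Y.card) →
    (∀ q ∈ grids M X, ok q → ∃ B : Finset Γ, (B.card : ℝ) ≤ ε * Fintype.card Γ ∧
      ∀ y ∈ Y, ∀ G, G ∉ B → ty q y = some G →
        ((univ.filter fun π => f₁ (gp q π) y).card : ℝ) ≤
          (univ.filter fun π => f₀ (gp q π) y).card / 2 + ε * (M + 1) ^ Fintype.card ι) →
    (((Fintype.piFinset X ×ˢ Y).filter fun s => f₁ s.1 s.2).card : ℝ) ≤
      ((Fintype.piFinset X ×ˢ Y).filter fun s => f₀ s.1 s.2).card / 2 +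
      2 * ε * ((Fintype.piFinset X ×ˢ Y).filter fun s => cp s.1 s.2).card +
      (δ + 8 * (M + 1) ^ Fintype.card ι * θ / (κ * η)) * n * Y.card

/-- replace some coordinates of a point -/
noncomputable def asm {ι : Type} {r : ℕ} (e : Option ι ↪ Fin r) (p : Fin r → ℕ) (z : ι → ℕ) (y : ℕ) :
    Fin r → ℕ :=
  Function.extend e (fun o => o.elim y z) p

open Classical in
/-- counting along fibres -/
def FIB : Prop :=
  ∀ (ι : Type) [Fintype ι] [DecidableEq ι] (r : ℕ) (X : Fin r → Finset ℕ) (e : Option ι ↪ Fin r)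
    (f : (Fin r → ℕ) → Prop),
    ∑ p ∈ Fintype.piFinset X, ((Fintype.piFinset (fun i => X (e (some i))) ×ˢ X (e none)).filter
      fun s => f (asm e p s.1 s.2)).card =
      (∏ i, (X (e (some i))).card) * (X (e none)).card * ((Fintype.piFinset X).filter f).card

/-- equidistribution of the matrix of symbols -/
def EQ : Prop :=
  ∀ (r : ℕ) (X : Fin r → Finset ℕ) (θ : ℝ), 0 ≤ θ → (∀ i, ∀ p ∈ X i, Gp p) →
    (∀ i j, i ≠ j → Disjoint (X i) (X j) ∧ Osc (X i) (X j) θ) →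
    (∀ p ∈ Fintype.piFinset X,
      (Leg p + fun i j => if i < j then js (-1) (p i) * js (-1) (p j) else 0) ∈ Sy (Fin r)) ∧ ∀ a,
      (((Fintype.piFinset X).filter fun p => Leg p = a).card : ℝ) ≤
        (((Sy (Fin r)).card : ℝ)⁻¹ + θ) * (Fintype.piFinset X).card

/-! ### Bilinear forms -/

/-- the data of a bilinear form over a ring with a basis -/
structure Bil {O ι : Type} [CommRing O] (bs : Basis ι ℤ O) (W Y : Finset ℕ) (χ : ℕ → O → ℤ)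
    (β : ℕ → O) (C B Ym : ℕ) : Prop where
  one : 1 ≤ C
  mul : ∀ (x y : O) (a b : ℕ), (∀ i, |bs.repr x i| ≤ a) → (∀ i, |bs.repr y i| ≤ b) →
    ∀ i, |bs.repr (x * y) i| ≤ C * a * b
  bd : ∀ w ∈ W, ∀ i, |bs.repr (β w) i| ≤ B
  nm : ∃ N : O →* ℤ, ∀ w ∈ W, w.Prime ∧ ∀ w' ∈ W, (w' : ℤ) ∣ N (β w) ↔ w' = w
  ch : ∀ y ∈ Y, y.Prime ∧ y ≤ Ym ∧ (∀ x x', χ y (x * x') = χ y x * χ y x') ∧ (∀ x, |χ y x| ≤ 1) ∧
    (∀ x u, χ y (x + y * u) = χ y x) ∧ ∃ a a' u : O, a * a' = 1 + y * u ∧ χ y a = -1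

/-- the basic estimate -/
def BIL : Prop :=
  ∀ (O ι : Type) [CommRing O] [Fintype ι] [Nonempty ι] (bs : Basis ι ℤ O) (W Y : Finset ℕ)
    (χ : ℕ → O → ℤ) (β : ℕ → O) (C B Ym H t : ℕ) (s : ℕ → ℝ), Bil bs W Y χ β C B Ym → 0 < t →
    (∀ w, |s w| ≤ 1) → 2 * C ^ t * B ^ t + 1 ≤ H → Fintype.card ι * Ym ^ 3 ≤ H →
    (∑ y ∈ Y, |∑ w ∈ W, s w * χ y (β w)|) ^ (2 * t) ≤
      Y.card ^ (2 * t - 1) * (2 * H ^ Fintype.card ι * (t * W.card) ^ t)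

/-- the estimate with the parameters chosen -/
def BIL2 : Prop :=
  ∀ n : ℕ, ∃ c : ℕ, ∀ (O ι : Type) [CommRing O] [Fintype ι] [Nonempty ι] (bs : Basis ι ℤ O)
    (W Y : Finset ℕ) (χ : ℕ → O → ℤ) (β : ℕ → O) (C B tW tY E T cW cY : ℕ) (s : ℕ → ℝ),
    Fintype.card ι = n → Bil bs W Y χ β C B (2 * tY) → (∀ w, |s w| ≤ 1) → 2 ≤ T → 2 ≤ E →
    W.card ≤ cW → Y.card ≤ cY → tW ≤ E * cW → tY ≤ E * cY → tY ≤ 2 ^ E → B ^ n ≤ 2 * tW →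
    (T * E * C) ^ c ≤ tW → (T * E * C) ^ c ≤ tY →
    ∑ y ∈ Y, |∑ w ∈ W, s w * χ y (β w)| ≤ (T : ℝ)⁻¹ * cW * cY

/-- oscillation of the quadratic symbol -/
def OZ : Prop :=
  ∃ c : ℕ, ∀ (W Y : Finset ℕ) (tW tY E T : ℕ), Rich W tW E → Rich Y tY E → Disjoint W Y → 2 ≤ T →
    2 ≤ E → (T * E) ^ c ≤ tW → (T * E) ^ c ≤ tY → Osc W Y (T : ℝ)⁻¹

/-! ### Exceptional integers -/

/-- the estimates of Mertens -/
def MERT : Prop :=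
  ∃ C : ℝ, ∀ y : ℕ, 2 ≤ y →
    |∑ p ∈ (range y).filter Nat.Prime, (p : ℝ)⁻¹ - Real.log (Real.log y)| ≤ C ∧
    ∑ p ∈ (range y).filter Nat.Prime, Real.log p / p ≤ Real.log y + C

/-- the inequality of Turan and Kubilius -/
def TK : Prop :=
  ∀ (P : Finset ℕ) (X : ℕ) (μ : ℝ), (∀ p ∈ P, p.Prime) → 2 * P.card ≤ X →
    μ = ∑ p ∈ P, (p : ℝ)⁻¹ → 0 < μ →
    (((Icc 1 X).filter fun n => ((P.filter (· ∣ n)).card : ℝ) ≤ μ / 2).card : ℝ) ≤ 8 * X / μ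

/-- an upper bound sieve -/
def SIEVE : Prop :=
  ∀ (P : Finset ℕ) (X z h : ℕ), (∀ p ∈ P, p.Prime ∧ p ≤ z) → (3 * h : ℝ) ≤ ∑ p ∈ P, (p : ℝ)⁻¹ →
    (((Icc 1 X).filter fun n => ∀ p ∈ P, ¬ p ∣ n).card : ℝ) ≤ X / 2 ^ h + z ^ (2 * h)

/-- many primes are inert -/
def CHAR : Prop :=
  ∃ C : ℝ, ∀ (a : ℤ) (y z : ℕ), Squarefree a → a ≠ 1 → 2 ≤ y → y ≤ z → Real.log a ≤ y →
    Real.log (Real.log z) / 2 - Real.log (Real.log y) - Real.log (Real.log (4 * a) + 3) / 2 - C ≤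
      ∑ p ∈ (Ico y z).filter (fun p => p.Prime ∧ jacobiSym a p = -1), (p : ℝ)⁻¹

def EX1 : Prop := Rare fun L n => L ^ 2 < n.primeFactors.card

def EX2 : Prop := Rare fun L n => L < 40 * (sm L n).card

def EX3 : Prop := Rare fun L n => 2 ^ L ^ 8 < ∏ p ∈ sm L n, p

def EX4 : Prop := Rare fun L n => ¬ Set.InjOn (ce L) (la L n)

def EX5 : Prop :=
  Rare fun L n => 40 * (sm L n).card ≤ L ∧
    ∃ p ∈ la L n, 2 ^ (5 * L) * (Xk L (sm L n) p).card < 2 ^ Nat.log 2 p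

def EX6 : Prop :=
  ∀ (ε : ℝ) (T : ℕ), 0 < ε → ∃ B : ℕ, 1 ≤ B ∧ ∀ e X : ℕ, 1 ≤ e → 2 ^ (e * B + 1) ≤ X →
    (((Icc 1 X).filter fun n =>
      (n.primeFactors.filter fun p => 2 ^ e ≤ p ∧ p < 2 ^ (e * B)).card < T).card : ℝ) ≤ ε * X

def EX7 : Prop :=
  ∀ a : ℤ, Squarefree a → a ≠ 1 →
    Rare fun L n => 7 * ((la L n).filter fun p => jacobiSym a p = -1).card < L

def EX8 : Prop :=
  ∀ c : ℕ, Rare fun L n => ∃ a : ℤ, Squarefree a ∧ a ≠ 1 ∧ a ∣ 30 * n ∧ |a| ≤ 30 * 2 ^ L ^ 8 ∧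
    ∀ p ∈ n.primeFactors, 2 ^ (L ^ 7 * c) ≤ p → jacobiSym a p ≠ -1

open Classical in
/-- tiling by boxes -/
def TILE : Prop :=
  ∀ (Bad : Finset ℕ → Prop) (ε : ℝ) (L X : ℕ) (𝒩 : Finset ℕ), 0 ≤ ε → 1 ≤ L →
    (∀ n ∈ 𝒩, n ≤ X ∧ Squarefree n ∧ 2 * (la L n).card ≤ 2 ^ L ∧ Set.InjOn (ce L) (la L n) ∧
      ∃ (r : ℕ) (p : Fin r → ℕ), Function.Injective p ∧ univ.image p = la L n ∧
        (((Fintype.piFinset fun i => Xk L (sm L n) (p i)).filter fun p' =>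
          Bad (sm L n ∪ univ.image p')).card : ℝ) ≤
          ε * (Fintype.piFinset fun i => Xk L (sm L n) (p i)).card) →
    ((𝒩.filter fun n => Bad n.primeFactors).card : ℝ) ≤ 2 * ε * X

/-- good integers -/
structure Gd (K l A B₁ B₂ L n : ℕ) : Prop where
  om : n.primeFactors.card ≤ L ^ 2
  n0 : 40 * (sm L n).card ≤ L
  inj : Set.InjOn (ce L) (la L n)
  rich : ∀ p ∈ la L n, 2 ^ Nat.log 2 p ≤ 2 ^ (5 * L) * (Xk L (sm L n) p).card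
  low : K * l ≤ (n.primeFactors.filter fun p => 2 ^ L ^ 7 ≤ p ∧ p < 2 ^ (L ^ 7 * B₁)).card
  high : 2 * l ≤ (n.primeFactors.filter fun p =>
    2 ^ (L ^ 7 * B₁ * (A + 1)) ≤ p ∧ p < 2 ^ (L ^ 7 * B₁ * (A + 1) * B₂)).card
  u1 : ∀ a : ℤ, Squarefree a → a ≠ 1 → a ∣ 30 * ∏ q ∈ sm L n, (q : ℤ) →
    ∃ p ∈ n.primeFactors, 2 ^ (L ^ 7 * B₁ * (A + 1) * B₂) ≤ p ∧ jacobiSym a p = -1
  na : ∀ a : ℤ, Squarefree a → a ≠ 1 → a ∣ 30 →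
    L ≤ 7 * ((la L n).filter fun p => jacobiSym a p = -1).card

/-- the box of a good integer is regular -/
def ANA1 : Prop :=
  ∀ K l A N B₁ B₂ : ℕ, 1 ≤ B₁ → 1 ≤ B₂ → ∃ L₀ : ℕ, ∀ L n : ℕ, L₀ ≤ L → n < 2 ^ 2 ^ (L + 1) →
    Squarefree n → n.Coprime 30 → Gd K l A B₁ B₂ L n →
    ∃ (B : Box) (p : Fin B.r → ℕ), B.S = sm L n ∧ Function.Injective p ∧ univ.image p = la L n ∧
      (∀ i, B.X i = Xk L (sm L n) (p i)) ∧ ∃ y₀ y₁ J₀ J, B.Reg K l A N y₀ y₁ J₀ J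

open Classical in
/-- most integers are good -/
def ANA2 : Prop :=
  ∀ (ε : ℝ) (K l A : ℕ), 0 < ε → ∃ B₁ B₂ L₀ : ℕ, 1 ≤ B₁ ∧ 1 ≤ B₂ ∧ ∀ L X : ℕ, L₀ ≤ L →
    2 ^ 2 ^ L ≤ X → X < 2 ^ 2 ^ (L + 1) →
    (((Icc 1 X).filter fun n => ¬ Gd K l A B₁ B₂ L n).card : ℝ) ≤ ε * X

open Classical in
/-- a property which is rare in regular boxes has density zero -/
def ANA : Prop :=
  ∀ Bad, BoxP Bad → ∀ ε : ℝ, 0 < ε → ∃ X₀ : ℕ, ∀ X, X₀ ≤ X →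
    (((Icc 1 X).filter fun n => Squarefree n ∧ n.Coprime 30 ∧ Bad n.primeFactors).card : ℝ) ≤ ε * X

/-- squarefree numbers in a residue class -/
def SQD : Prop :=
  ∀ a : ℕ, a.Coprime 120 → ∃ c : ℝ, 0 < c ∧ ∃ X₀ : ℕ, ∀ X, X₀ ≤ X →
    c * X ≤ ((Icc 1 X).filter fun n => Squarefree n ∧ n % 120 = a % 120).card

end Pool.Agent.P.MP_8b7eba_nt.SM
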