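import Pool.Agent.P.MP_8b7eba_nt.SM.DefG

/-! Statements of the project SM on the Galois side. -/

namespace Pool.Agent.P.MP_8b7eba_nt.SM

open Finset R2 Filter Topology
open scoped Matrix

/-! ### The pairing of Cassels and Tate on a grid -/

/-- global lifts -/
def GLIFT : Prop :=
  ∀ (Λ : Lat) (S : Finset ℕ) (n : ℕ) (x : GQ → VZ), (∀ p ∈ S, Gp p) → Λ.Wn S n x →
    ∃ y, Λ.Gy S (n + 1) y ∧ (∀ g, Dv n (y g - x g)) ∧ ∀ p ∈ S ∪ T30, ∃ l, Λ.Ld S n y p l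

/-- the pairing vanishes on classes which lift -/
def ZERO : Prop :=
  ∀ (Λ : Lat) (S : Finset ℕ) (n : ℕ) (x y u : GQ → VZ) (l : ℕ → X2), (∀ p ∈ S, Gp p) →
    Λ.Wn S (n + 2) x → Λ.Gy S (n + 2) y → (∀ g, rd (y g) = rd (x g)) →
    (∀ p ∈ S ∪ T30, Λ.Ld S (n + 1) y p (l p)) → Λ.Wn S (n + 1) u →
    ∑ p ∈ S ∪ T30, iv p (d2 (l p) fun g => rd (u g)) = 0

/-- a sum of cocycles which is a character -/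
def HOM : Prop :=
  ∀ (k M n : ℕ) (𝒢 : Grid k M) (Λ : Lat) (y : ℕ) (R : V1) (c : Gz k M → Z2)
    (x : Gz k M → GQ → VZ), 𝒢.Pt y → (∀ z, c z ≠ 0 → Λ.Zn (chi (𝒢.S y z)) ⊤ (n + 1) (x z)) →
    (∀ l ∈ Lam k M, Pe (n + 1) c l) →
    (∀ l, Mx l → ∀ g i, Pe (n + 1) c fun z => l z * 𝒢.xv R z (x z) g i) →
    ∃ η : X2, IsCh ⊤ η ∧
      ∀ g, Dv (n + 1) (∑ z, c z • 𝒢.xv R z (x z) g - (2 : Z2) ^ n • lf (η g))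

/-- generation by the test values -/
def SYS1 : Prop :=
  ∀ (k M s : ℕ) (𝒮 : Sit k M s) (R : V1) (Y : Gz k M → Prop) (x : Gz k M → GQ → VZ), 1 ≤ k →
    (∀ z, Y z → 𝒮.Λ.Wn (𝒮.S 𝒮.y z) k (x z)) →
    ∀ N : Submodule Z2 (Gz k M → Z2), (∀ l ∈ Lam k M, ∀ f ∈ N, l * f ∈ N) → 1 ∈ N →
      (∀ j i, (fun z => 𝒮.tv 𝒮.σ R z (x z) (.inl j) i) ∈ N) →
      (∀ l i, (fun z => 𝒮.tv 𝒮.σ R z (x z) (.inr (.inl l)) i) ∈ N) →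
      (∀ f, (∀ z, Y z → 2 ^ k ∣ f z) → f ∈ N) → ∀ g i, (fun z => 𝒮.xv R z (x z) g i) ∈ N

/-- a sum of cocycles which is a cocycle -/
def CLOS1 : Prop :=
  ∀ (k M n : ℕ) (𝒢 : Grid k M) (Λ : Lat) (y : ℕ) (R : V1) (c : Gz k M → Z2)
    (x : Gz k M → GQ → VZ) (z₀ : Gz k M), 𝒢.Pt y →
    (∀ z, c z ≠ 0 → Λ.Zn (chi (𝒢.S y z)) ⊤ n (x z)) →
    (∀ l ∈ Lam k M, 2 ^ n ∣ ∑ z, c z * l z - l z₀) →
    (∀ l ∈ Lam k M, ∀ g i, Pe n c fun z => (l z - l z₀) * 𝒢.xv R z (x z) g i) →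
    Λ.Zn (chi (𝒢.S y z₀)) ⊤ n fun g => ∑ z, c z • 𝒢.xv R z (x z) g + 𝒢.m g z₀ • lf R

/-- the local conditions for the sum -/
def CLOS2 : Prop :=
  ∀ (k M : ℕ) (𝒢 : Grid k M) (Λ : Lat) (y : ℕ) (R : V1) (c : Gz k M → Z2)
    (x : Gz k M → GQ → VZ) (z₀ : Gz k M) (X : GQ → VZ), 𝒢.Pt y →
    (∀ z, c z ≠ 0 → Λ.Wn (𝒢.S y z) k (x z)) →
    (∀ g, X g = ∑ z, c z • 𝒢.xv R z (x z) g + 𝒢.m g z₀ • lf R) →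
    Λ.Zn (chi (𝒢.S y z₀)) ⊤ k X → (∀ i j, z₀ i ≠ j → Dv k (X (tp (𝒢.q i j)))) →
    (∀ i q, q = 𝒢.q i (z₀ i) →
      Dv k (X (fr q) + Λ.hh (chi (𝒢.S y z₀) (fr q)) (fr q) *ᵥ X (tp q))) →
    Λ.Wn (𝒢.S y z₀) k X

/-- realised values are valid -/
def SUB : Prop :=
  ∀ (k M s : ℕ) (𝒮 : Sit k M s), 1 ≤ k → ∀ z δ, 𝒮.Re z δ →
    𝒮.val 𝒮.Λ 𝒮.R 𝒮.e z δ ∧ ∀ t ∈ A2 k M s, 2 ∣ δ t

/-- the system is closed -/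
def SYS2 : Prop :=
  ∀ (k M s : ℕ) (𝒮 : Sit k M s), 1 ≤ k → Clo (A1 k M s) (A2 k M s) (𝒮.val 𝒮.Λ 𝒮.R 𝒮.e) 𝒮.Re

/-- the local invariants of the sum -/
def SUML : Prop :=
  ∀ (k M : ℕ) (𝒢 : Grid k M) (Λ : Lat) (y : ℕ) (R : V1) (ψ η : X2) (c : Gz k M → Z2)
    (x : Gz k M → GQ → VZ) (l : Gz k M → ℕ → X2), 𝒢.Sum Λ y R ψ η c x l →
    (∀ p ∈ insert y 𝒢.P ∪ T30, iv p (d2 η ψ) = ∑ z, PadicInt.toZMod (c z) *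
      (iv p (d2 (l z p) ψ) + if p = y then ex (𝒢.G y) z * ee R (ψ (tp y)) else 0)) ∧
    Triv Ht (sgn (d2 η ψ)) ∧ ∀ w : Pl, ¬ w.p ∣ 30 → w.p ∉ 𝒢.P → w.p ≠ y →
      (∀ i j, w.p ≠ 𝒢.q i j) → ∀ g ∈ w.I, η g = 0

/-- the sum of the pairings -/
def SUMF : Prop :=
  ∀ (k M s : ℕ) (𝒮 : Sit k M s) (η : X2) (c : Gz k M → Z2) (x : Gz k M → GQ → VZ)
    (l : Gz k M → ℕ → X2), 𝒮.Sum 𝒮.Λ 𝒮.y (𝒮.R true) (𝒮.φ false) η c x l →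
    ∑ z, PadicInt.toZMod (c z) *
      (∑ p ∈ insert 𝒮.y 𝒮.P ∪ T30, iv p (d2 (l z p) (𝒮.φ false)) + ex (𝒮.G 𝒮.y) z) = 0

/-- the pairing is orthogonal to the admissible vectors -/
def SYS3 : Prop :=
  ∀ (k M s : ℕ) (𝒮 : Sit k M s), 1 ≤ k → ∀ ξ, Cho 𝒮.Re ξ → ∃ F : Gz k M → F2,
    (∀ z, (∃ x, 𝒮.Lif (k + 1) z x) → F z = 0) ∧
    Ort (A1 k M s) (A2 k M s) (fun z => ∃ δ, 𝒮.Re z δ) ξ (F + ex (𝒮.G 𝒮.y))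

/-- test elements -/
def HBX : Prop :=
  ∀ (k M s : ℕ) (𝒢 : Grid k M) (Λ : Lat) (y : ℕ) (C : Finset X2), 𝒢.Pt y → C.card ≤ 2 ^ s →
    (∀ χ, Λ.Se (𝒢.S y 0) χ → χ ∈ C) → ∃ σ : Fin (s + 2 * (k + 2)) → GQ, ∀ η, 𝒢.InB Λ y η →
      (∀ j, η (σ j) = 0) → (∀ i j, η (tp (𝒢.q i j)) = 0) → η = 0

open Classical in
/-- the halving inequality on a grid of twists -/
def GRID : Prop :=
  ∀ (k s : ℕ) (ε : ℝ), 2 ≤ k → 0 < ε → ∃ M₀ : ℕ, ∀ M, M₀ ≤ M → ∀ (𝒢 : Grid k M) (Λ : Lat)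
    (R : Bool → V1), ∃ B : Finset (Gf k M → F2), (B.card : ℝ) ≤ ε * 2 ^ M ^ (k + 1) ∧
      ∀ (y : ℕ) (φ : Bool → X2) (C : Finset X2), 𝒢.Pt y →
        (∀ β z, Λ.Se (𝒢.S y z) (𝒢.ph (φ β) (R β) z)) → (∀ β i j, φ β (tp (𝒢.q i j)) = 0) →
        R false = 0 → ee (R true) (φ false (tp y)) = 1 → C.card ≤ 2 ^ s →
        (∀ χ, Λ.Se (𝒢.S y 0) χ → χ ∈ C) → 𝒢.G y ∉ B →
        ((univ.filter fun z => ∀ β, Λ.WK (𝒢.S y z) (k + 1) (𝒢.ph (φ β) (R β) z)).card : ℝ) ≤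
          (univ.filter fun z => ∀ β, Λ.WK (𝒢.S y z) k (𝒢.ph (φ β) (R β) z)).card / 2 +
            ε * (M + 1) ^ (k + 1)

/-! ### Governing systems -/

/-- the cocycle condition -/
def GOV0 : Prop :=
  ∀ (k M : ℕ) (u : Fin k → Fin (M + 1) → ℕ) (γ : Mu k M → GQ → F2) (μ : Mu k M),
    (∀ ν, dg ν < dg μ → Rel u γ ν (γ ν)) → Co2 ⊤ (sgn fun g h =>
      ∑ U ∈ univ.erase ∅, (∏ i ∈ U, aa u i (μ i) g) * γ (ers μ U) h)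

/-- one more member of a governing system -/
def GOV1 : Prop :=
  ∀ (k M : ℕ) (u : Fin k → Fin (M + 1) → ℕ) (Q : Finset ℕ) (w w' : ℕ) (γ : Mu k M → GQ → F2)
    (μ : Mu k M), Uok u Q → Wok u Q w → Wok u Q w' → Gov (dg μ) u Q w w' γ →
    ∃ θ, Rel u γ μ θ ∧ Ram u w w' θ ∧ θ (tp w) = 0 ∧ θ (tp w') = 0

/-- existence of governing systems -/
def GOVX : Prop :=
  ∀ (k M N : ℕ) (u : Fin k → Fin (M + 1) → ℕ) (Q : Finset ℕ), Q.card ≤ N →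
    ∃ (cls : ℕ → Fin (2 ^ ((M + 1) ^ k * (3 * N + 1)))) (θ : ℕ → Mu k M → GQ → F2),
      (∀ w, θ w 0 = qs w) ∧ (Uok u Q → ∀ w w', Wok u Q w → Wok u Q w' → cls w = cls w' →
        Gov (k + 1) u Q w w' (θ w + θ w'))

/-! ### Oscillation of the governing characters -/

/-- the number of characters of a multiquadratic field -/
def XI : Prop :=
  ∀ (σ : Type) [Fintype σ] (m : MQ σ) (P : Finset ℕ), 2 ∈ P →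
    (∀ s, ∀ p : ℕ, p.Prime → (p : ℤ) ∣ m.n s → p ∈ P) →
    ∃ Ξ : Finset (GQ → F2), Ξ.card ≤ 2 ^ (2 ^ Fintype.card σ * (P.card + 3)) ∧
      ∀ χ, IsCh m.H χ → (∀ w : Pl, w.p ∉ P → ∀ g ∈ w.I, χ g = 0) → ∃ ξ ∈ Ξ, ∀ g ∈ m.H, χ g = ξ g

/-- the group of the multiquadratic field -/
def MQH : Prop :=
  ∀ (σ : Type) [Fintype σ] (m : MQ σ), ON m.H ∧ (∀ g, g ∈ m.H ↔ ∀ s, qz (m.n s) g = 0) ∧
    ∀ g v, (m.g v)⁻¹ * g ∈ m.H ↔ (fun s => qz (m.n s) g) = v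

/-- the order generated by the square roots -/
def RING : Prop :=
  ∀ (σ : Type) [Fintype σ] [DecidableEq σ] (m : MQ σ), ∃ O b N, m.Ord O b N

/-- small elements of a prime ideal -/
def SMALL : Prop :=
  ∀ (σ : Type) [Fintype σ] [DecidableEq σ] (m : MQ σ) (O : Subring Om)
    (b : Module.Basis (Finset σ) ℤ O) (N : O →* ℤ), m.Ord O b N → ∀ w B : ℕ, w.Prime →
    (pl w).D ≤ m.H → w < (B + 1) ^ 2 ^ Fintype.card σ →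
    ∃ x : O, N x ≠ 0 ∧ (∀ i, |b.repr x i| ≤ B) ∧ (pl w).v x < 1

/-- the ramification of a square root -/
def RAMW : Prop :=
  ∀ (σ : Type) [Fintype σ] [DecidableEq σ] (m : MQ σ) (O : Subring Om)
    (b : Module.Basis (Finset σ) ℤ O) (N : O →* ℤ), m.Ord O b N → ∀ (w : ℕ) (x : O)
    (F : Finset (σ → F2)) (ρ : Om), w.Prime → w ≠ 2 → (pl w).D ≤ m.H → (pl w).v x < 1 →
    ¬ (w : ℤ) ^ 2 ∣ N x → ρ ^ 2 = ∏ v ∈ F, m.g v x →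
    (w : ℤ) ∣ N x ∧ IsCh m.H (qc ρ) ∧
    (∀ v : Pl, v.p ≠ 2 → ¬ (v.p : ℤ) ∣ N x → ∀ g ∈ v.I, g ∈ m.H → qc ρ g = 0) ∧
    ∀ g, qc ρ (g * tp w * g⁻¹) = if (fun s => qz (m.n s) g) ∈ F then 1 else 0

/-- the quadratic symbol at a prime of degree one -/
def CHY : Prop :=
  ∀ (σ : Type) [Fintype σ] [DecidableEq σ] (m : MQ σ) (O : Subring Om)
    (b : Module.Basis (Finset σ) ℤ O) (N : O →* ℤ), m.Ord O b N → ∀ (y : ℕ)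
    (F : Finset (σ → F2)), y.Prime → y ≠ 2 → (∀ s, ¬ (y : ℤ) ∣ m.n s) → (pl y).D ≤ m.H →
    F.Nonempty → ∃ χ : O → ℤ, (∀ x x', χ (x * x') = χ x * χ x') ∧ (∀ x, |χ x| ≤ 1) ∧
      (∀ x u, χ (x + y * u) = χ x) ∧ (∃ a a' u : O, a * a' = 1 + y * u ∧ χ a = -1) ∧
      ∀ (x : O) (ρ : Om), ¬ (y : ℤ) ∣ N x → ρ ^ 2 = ∏ v ∈ F, m.g v x →
        (χ x : ℝ) = sr (qc ρ (fr y))

/-- characters with prescribed ramification at the places above `w` -/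
structure Pre1 {σ : Type} [Fintype σ] [DecidableEq σ] (m : MQ σ) (P : Finset ℕ)
    (F : Finset (σ → F2)) (w : ℕ) (Θ : GQ → F2) : Prop where
  sp : (pl w).D ≤ m.H
  ch : IsCh m.H Θ
  unr : ∀ v : Pl, v.p ∉ P → v.p ≠ w → ∀ g ∈ v.I, Θ g = 0
  ram : ∀ g, Θ (g * tp w * g⁻¹) = if (fun s => qz (m.n s) g) ∈ F then 1 else 0

/-- description of the characters by small elements -/
def OGB : Prop :=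
  ∀ (σ : Type) [Fintype σ] [DecidableEq σ] (m : MQ σ) (O : Subring Om)
    (b : Module.Basis (Finset σ) ℤ O) (N : O →* ℤ), m.Ord O b N → ∀ (P : Finset ℕ)
    (F : Finset (σ → F2)) (n Y₀ t B C : ℕ), n = 2 ^ Fintype.card σ → 2 ∈ P →
    (∀ s, ∀ p : ℕ, p.Prime → (p : ℤ) ∣ m.n s → p ∈ P) → 1 ≤ Y₀ → (∀ s, |m.n s| ≤ Y₀) →
    B ^ n ≤ 2 * t → 2 * t < (B + 1) ^ n → C = 2 * (2 * Y₀) ^ (Fintype.card σ * n) → C < t →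
    ∃ Ξ : Finset (GQ → F2), Ξ.card ≤ 2 ^ (n * (P.card + 3)) * C ^ (n + 1) ∧
      ∀ (w : ℕ) (Θ : GQ → F2), w.Prime → t ≤ w → w ≤ 2 * t → Pre1 m P F w Θ →
        ∃ (x : O) (ρ : Om), ∃ ξ ∈ Ξ, (∀ i, |b.repr x i| ≤ B) ∧
          (∀ p : ℕ, p.Prime → C < p → ((p : ℤ) ∣ N x ↔ p = w)) ∧ ρ ^ 2 = ∏ v ∈ F, m.g v x ∧
          ∀ g ∈ m.H, Θ g = qc ρ g + ξ g

/-- oscillation for a multiquadratic field -/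
def OGA : Prop :=
  ∀ ns np : ℕ, ∃ c : ℕ, ∀ (σ : Type) [Fintype σ] [DecidableEq σ] (m : MQ σ) (P : Finset ℕ)
    (F : Finset (σ → F2)) (W W' Y : Finset ℕ) (tW tY E T Y₀ : ℕ) (Θ : ℕ → GQ → F2) (b : ℕ → ℝ),
    Fintype.card σ = ns → P.card ≤ np → 2 ∈ P →
    (∀ s, ∀ p : ℕ, p.Prime → (p : ℤ) ∣ m.n s → p ∈ P) → F.Nonempty → Rich W tW E → Rich Y tY E →
    Disjoint W Y → W' ⊆ W → 2 ≤ T → 2 ≤ E → 1 ≤ Y₀ → (∀ s, |m.n s| ≤ Y₀) →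
    (T * E * Y₀) ^ c ≤ tW → (T * E * Y₀) ^ c ≤ tY → (∀ w ∈ W', Pre1 m P F w (Θ w)) →
    (∀ y, |b y| ≤ 1) → (∀ y ∈ Y, b y ≠ 0 → (pl y).D ≤ m.H) →
    ∑ w ∈ W', |∑ y ∈ Y, b y * sr (Θ w (fr y))| ≤ (T : ℝ)⁻¹ * W.card * Y.card

/-- the monomials are independent -/
def MONO : Prop :=
  ∀ (k M : ℕ) (e : Mu k M → F2), e ≠ 0 → ∃ v : Fin k → Fin (M + 1) → F2,
    ∑ μ, e μ * ∏ i ∈ univ.filter (fun i => μ i ≠ 0), v i (μ i) = 1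

/-- oscillation of the governing characters -/
def OG : Prop :=
  ∀ k M : ℕ, ∃ c : ℕ, ∀ (u : Fin k → Fin (M + 1) → ℕ) (Q W W' Y : Finset ℕ)
    (tW tY E T y₁ w₀ : ℕ) (γ : ℕ → Mu k M → GQ → F2) (e : Mu k M → F2) (b : ℕ → ℝ),
    (∀ i j, Gp (u i j) ∧ u i j ≤ 2 * y₁) → (∀ i j i' j', u i j = u i' j' → i = i' ∧ j = j') →
    Rich W tW E → Rich Y tY E → Disjoint W Y → W' ⊆ W → 2 ≤ T → 2 ≤ E → 1 ≤ y₁ →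
    (T * E * y₁) ^ c ≤ tW → (T * E * y₁) ^ c ≤ tY → Gp w₀ →
    (∀ w ∈ W', w ≠ w₀ ∧ Wok u Q w ∧ Gov (k + 1) u Q w w₀ (γ w)) → e ≠ 0 → (∀ y, |b y| ≤ 1) →
    (∀ y ∈ Y, b y ≠ 0 → ∀ i j, js (ps (u i j)) y = js (ps (u i 0)) y) →
    ∑ w ∈ W', |∑ y ∈ Y, b y * sr (∑ μ, e μ * γ w μ (fr y))| ≤ (T : ℝ)⁻¹ * W.card * Y.card

/-! ### From grids to boxes -/

/-- the arithmetic of a grid in a box -/
def STP0 : Prop :=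
  ∀ (k s M : ℕ) (𝒯 : Stp k s), ∀ p ∈ 𝒯.B.pts, ∀ q ∈ grids M 𝒯.X,
    (∀ i, Function.Injective (q i)) → (∀ π, 𝒯.V p (gp q π)) →
    GrA q (𝒯.P p) ∧ Uok (low q) (Qs (𝒯.P p) (low q)) ∧
      ∀ j, Wok (low q) (Qs (𝒯.P p) (low q)) (q none j)

open Classical in
/-- the local inequality -/
def STP1 : Prop :=
  ∀ (k s : ℕ) (ε : ℝ), 2 ≤ k → 0 < ε → ∃ M₀ : ℕ, ∀ M, M₀ ≤ M → ∀ 𝒯 : Stp k s, ∀ p ∈ 𝒯.B.pts,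
    ∀ θ : (Fin k → Fin (M + 1) → ℕ) → ℕ → Mu k M → GQ → F2, ∀ q ∈ grids M 𝒯.X, 𝒯.Ok p θ q →
    ∃ B : Finset (Gf k M → F2), (B.card : ℝ) ≤ ε * Fintype.card (Gf k M → F2) ∧
      ∀ y ∈ 𝒯.Y, ∀ G, G ∉ B → tyf (𝒯.cp p) (fun u w μ y => θ u w μ (fr y)) q y = some G →
        ((univ.filter fun π => 𝒯.W (k + 1) (asm 𝒯.e p (gp q π) y)).card : ℝ) ≤
          (univ.filter fun π => 𝒯.W k (asm 𝒯.e p (gp q π) y)).card / 2 +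
            ε * (M + 1) ^ Fintype.card (Option (Fin k))

/-- the oscillation -/
def STP2 : Prop :=
  ∀ k M : ℕ, ∃ c : ℕ, ∀ (s : ℕ) (𝒯 : Stp k s) (T y₁ : ℕ), ∀ p ∈ 𝒯.B.pts,
    ∀ θ : (Fin k → Fin (M + 1) → ℕ) → ℕ → Mu k M → GQ → F2, 2 ≤ T → 1 ≤ y₁ →
    (∀ i, 𝒯.B.t (𝒯.e (some (some i))) ≤ y₁) →
    (T * (𝒯.B.E + 2) * y₁) ^ c ≤ 𝒯.B.t (𝒯.e (some none)) →
    (T * (𝒯.B.E + 2) * y₁) ^ c ≤ 𝒯.B.t (𝒯.e none) →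
    OscG 𝒯.X 𝒯.Y (fun u y => js (ps u) y) (fun u w μ y => θ u w μ (fr y))
      (fun o => 𝒯.a (𝒯.e none) (𝒯.e (some o))) (𝒯.Ok p θ) (T : ℝ)⁻¹

open Classical in
/-- there are many grids -/
def STP4 : Prop :=
  ∀ (k s M : ℕ) (𝒯 : Stp k s), ∀ p ∈ 𝒯.B.pts,
    ∃ θ : (Fin k → Fin (M + 1) → ℕ) → ℕ → Mu k M → GQ → F2, (∀ u w, θ u w 0 = qs w) ∧
      ∀ U ⊆ Fintype.piFinset 𝒯.X, (∀ z ∈ U, 𝒯.V p z) → ∀ δ x : ℝ, 0 ≤ δ →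
        δ * ∏ i, ((𝒯.X i).card : ℝ) ≤ U.card → 0 < x → (∀ i, x ≤ (𝒯.X i).card) →
        (δ ^ (M + 1) ^ (k + 1) /
          (2 ^ ((M + 1) ^ k * (3 * (𝒯.B.r + 𝒯.B.S.card + 3 + k * (M + 1)) + 1))) ^ M -
          (k + 1) * (M + 1) ^ 2 / x) * (∏ i, ((𝒯.X i).card : ℝ)) ^ (M + 1) ≤
          ((grids M 𝒯.X).filter fun q => 𝒯.Ok p θ q ∧ ∀ π, gp q π ∈ U).card

/-- the choice of the parameters -/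
def NUM : Prop :=
  ∀ k M c : ℕ, 1 ≤ M → ∃ A : ℕ, ∀ (T E ρ y₀ : ℕ) (δ η κ : ℝ), 2 ≤ T →
    (T * (E + 2) * 2 ^ (ρ + 2)) ^ A ≤ y₀ → δ = (2 * T : ℝ)⁻¹ →
    η = δ ^ (M + 1) ^ (k + 1) / (2 ^ ((M + 1) ^ k * (3 * (ρ + 3 + k * (M + 1)) + 1))) ^ M / 2 →
    κ = (2 ^ (k * M + M * (M + 1) ^ k))⁻¹ → c + 1 ≤ A ∧ ∃ T' : ℕ, 2 ≤ T' ∧
      (T' * (E + 2)) ^ c ≤ y₀ ∧ ((k + 1) * (M + 1) ^ 2 : ℝ) / (y₀ / (E + 2)) < η ∧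
      1 ≤ η * (y₀ / (E + 2)) ∧ δ + 8 * (M + 1) ^ (k + 1) * (2 * (T' : ℝ)⁻¹) / (κ * η) ≤ (T : ℝ)⁻¹

open Classical in
/-- the halving inequality along a fibre -/
def STP3 : Prop :=
  ∀ (k s : ℕ) (ε : ℝ), 2 ≤ k → 0 < ε → ∃ A : ℕ, ∀ (𝒯 : Stp k s) (T y₀ y₁ : ℕ), 𝒯.Num A T y₀ y₁ →
    ∀ p ∈ 𝒯.B.pts,
      (((Fintype.piFinset 𝒯.X ×ˢ 𝒯.Y).filter fun z => 𝒯.W (k + 1) (asm 𝒯.e p z.1 z.2)).card : ℝ) ≤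
        ((Fintype.piFinset 𝒯.X ×ˢ 𝒯.Y).filter fun z => 𝒯.W k (asm 𝒯.e p z.1 z.2)).card / 2 +
        ε * ((Fintype.piFinset 𝒯.X ×ˢ 𝒯.Y).filter fun z => Leg (asm 𝒯.e p z.1 z.2) = 𝒯.a).card +
        (T : ℝ)⁻¹ * (∏ i, ((𝒯.X i).card : ℝ)) * 𝒯.Y.card

open Classical in
/-- the halving inequality in a box -/
def STEP : Prop :=
  ∀ (k s : ℕ) (ε : ℝ), 2 ≤ k → 0 < ε → ∃ A : ℕ, ∀ (𝒯 : Stp k s) (T y₀ y₁ : ℕ), 𝒯.Num A T y₀ y₁ →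
    ((𝒯.B.pts.filter (𝒯.W (k + 1))).card : ℝ) ≤ (𝒯.B.pts.filter (𝒯.W k)).card / 2 +
      ε * (𝒯.B.pts.filter fun p => Leg p = 𝒯.a).card + (T : ℝ)⁻¹ * 𝒯.B.pts.card

open Classical in
/-- iteration -/
def BX1 : Prop :=
  ∀ (K s : ℕ) (ε : ℝ), 0 < ε → ∃ A : ℕ, ∀ (𝒯 : Stp (K + 1) s) (T y₀ y₁ : ℕ), 𝒯.Num A T y₀ y₁ →
    ((𝒯.B.pts.filter (𝒯.W (K + 2))).card : ℝ) ≤
      ((2 ^ K)⁻¹ + ε) * (𝒯.B.pts.filter fun p => Leg p = 𝒯.a).card + 2 / T * 𝒯.B.pts.card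

/-- existence of the model -/
def MODEL : Prop := ∀ (Λ : Lat) (B : Box), ∃ m, IsMod Λ B m

open Classical in
/-- the symbols are independent in a regular box -/
def MOD2 : Prop :=
  ∀ (Λ : Lat) (B : Box) (m : Mod (Fin B.r) B.S) (K l A N y₀ y₁ : ℕ) (J₀ : Finset (Fin B.r))
    (J : Fin K ⊕ Bool → Finset (Fin B.r)), IsMod Λ B m → B.Reg K l A N y₀ y₁ J₀ J →
    (∀ e : Fin 4 ⊕ B.S → F2, e ≠ 0 → ∃ i ∈ J₀, ∑ b, m.κ i b * e b = 1) ∧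
    ∀ e : Fin 4 → F2, e ≠ 0 →
      4 * B.S.card + N ≤ (univ.filter fun i => ∑ b, m.κ i (.inl b) * e b = 1).card

/-- the size of the Selmer group -/
def NORM : Prop :=
  ∀ (Λ : Lat) (B : Box) (m : Mod (Fin B.r) B.S) (i₀ : Fin B.r), IsMod Λ B m → ∀ p ∈ B.pts,
    ∃ C : Finset X2, C.card ≤ 4 * m.ns i₀ (Leg p) ∧ ∀ χ, Λ.Se (B.set p) χ → χ ∈ C

/-- bad points give good solutions -/
def TYP : Prop :=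
  ∀ (Λ : Lat) (B : Box) (m : Mod (Fin B.r) B.S) (i₀ : Fin B.r) (τ : Type)
    (J : τ → Finset (Fin B.r)), IsMod Λ B m → ∀ p ∈ B.pts, Λ.Bad (B.set p) (p i₀) →
    (∀ a R, m.Sol i₀ (Leg p) a R → m.Typ J a R) →
    ∃ a R, m.Sol i₀ (Leg p) a R ∧ (∃ v ∈ Submodule.span F2 (Set.range R),
      ∃ v' ∈ Submodule.span F2 (Set.range R), v.2 = 0 ∧ ee v.1 v'.2 = 1) ∧ ∀ n,
      Λ.WK (B.set p) (n + 1) (pat (sp B.S fun b => (a b).1) (fun i => (R i).1) p) ∧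
      Λ.WK (B.set p) (n + 1) (pat (sp B.S fun b => (a b).2) (fun i => (R i).2) p)

open Classical in
/-- the bound for a fixed matrix of symbols -/
def BX2 : Prop :=
  ∀ (K s : ℕ) (ε : ℝ), 0 < ε → ∃ A : ℕ, ∀ (Λ : Lat) (B : Box) (m : Mod (Fin B.r) B.S)
    (T y₀ y₁ : ℕ) (J : Fin (K + 1) ⊕ Bool → Finset (Fin B.r)) (i₀ : Fin B.r)
    (a : Fin B.r → Fin B.r → F2), IsMod Λ B m → 2 ≤ T →
    (T * (B.E + 2) * 2 ^ (B.r + B.S.card + 2)) ^ A ≤ y₀ → y₀ ≤ y₁ → (∀ i, y₀ ≤ B.t i) →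
    (∀ j, ∀ i ∈ J (.inl j), B.t i ≤ y₁) → (∀ j, ∀ i ∈ J (.inr j), y₁ ^ A ≤ B.t i) →
    (∀ j j', j ≠ j' → Disjoint (J j) (J j')) → m.ns i₀ a ≤ 2 ^ s →
    (∀ α R, m.Sol i₀ a α R → m.Typ J α R) →
    ((B.pts.filter fun p => Leg p = a ∧ Λ.Bad (B.set p) (p i₀)).card : ℝ) ≤
      2 ^ s * (((2 ^ K)⁻¹ + ε) * (B.pts.filter fun p => Leg p = a).card + 2 / T * B.pts.card)

open Classical in
/-- most matrices of symbols are good -/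
def BX3 : Prop :=
  ∀ ε : ℝ, 0 < ε → ∃ s : ℕ, ∀ K : ℕ, ∃ l A N : ℕ, ∀ (Λ : Lat) (B : Box) (m : Mod (Fin B.r) B.S)
    (y₀ y₁ : ℕ) (J₀ : Finset (Fin B.r)) (J : Fin K ⊕ Bool → Finset (Fin B.r)) (i₀ : Fin B.r),
    IsMod Λ B m → B.Reg K l A N y₀ y₁ J₀ J →
    ((B.pts.filter fun p => ¬ (m.ns i₀ (Leg p) ≤ 2 ^ s ∧
      ∀ α R, m.Sol i₀ (Leg p) α R → m.Typ J α R)).card : ℝ) ≤ ε * B.pts.card

open Classical in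
/-- bad points are rare -/
def BOXL : Prop :=
  ∀ ε : ℝ, 0 < ε → ∃ K l A N : ℕ, 1 ≤ l ∧ ∀ (Λ : Lat) (B : Box) (y₀ y₁ : ℕ) (J₀ : Finset (Fin B.r))
    (J : Fin K ⊕ Bool → Finset (Fin B.r)) (i₀ : Fin B.r), B.Reg K l A N y₀ y₁ J₀ J →
    ((B.pts.filter fun p => Λ.Bad (B.set p) (p i₀)).card : ℝ) ≤ ε * B.pts.card

/-! ### Reduction to the lattices -/

/-- the three lattices -/
def LATX : Prop :=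
  ∀ T : Tate (pl 2), ∃ Λ : Lat, Λ.Of T ∧ Λ.cb tau = !![1, 0; 0, 0] ∧
    ∀ i : Fin 2, ∃ Λ' : Lat, Λ.Sh Λ' i ∧ ∃ t, Λ'.cb t = Matrix.single i (i + 1) 1

/-- passage to a sublattice -/
def SHW : Prop :=
  ∀ (Λ Λ' : Lat) (i : Fin 2) (S : Finset ℕ) (n : ℕ) (x x' : GQ → VZ), Λ.Sh Λ' i →
    (∀ g, x g = dg2 i *ᵥ x' g) → Λ.Wn S (n + 1) x → Λ'.Wn S n x'

/-- finiteness -/
def FINC : Prop :=
  ∀ (Λ : Lat) (S : Finset ℕ) (n : ℕ), (∀ p ∈ S, Gp p) →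
    {f : GQ → Fin 2 → ZMod (2 ^ n) | ∃ x, Λ.Zn (chi S) ⊤ n x ∧
      (∀ w : Pl, ¬ w.p ∣ 30 → w.p ∉ S → ∀ g ∈ w.I, Dv n (x g)) ∧ f = fun g => rn n (x g)}.Finite

/-- patched classes are continuous classes -/
def RA1 : Prop :=
  ∀ (T : Tate (pl 2)) (Λ : Lat) (n : ℕ) (x : GS → V2), Λ.Of T → Squarefree n → n.Coprime 30 →
    SelQ T (rt (ps n)) (ps n) x → ∃ (e : ℕ) (X : GQ → VZ),
      (∀ j, Λ.Zn (chi n.primeFactors) ⊤ j X) ∧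
      ∀ g : GS, Tendsto (fun k i => (X (g k) i : ℚ_[2])) UF (𝓝 ((2 : ℚ_[2]) ^ e • x g))

/-- the local conditions -/
def RA2 : Prop :=
  ∀ (T : Tate (pl 2)) (Λ : Lat) (n : ℕ) (x : GS → V2) (e : ℕ) (X : GQ → VZ), Λ.Of T →
    Squarefree n → n.Coprime 30 → SelQ T (rt (ps n)) (ps n) x →
    (∀ j, Λ.Zn (chi n.primeFactors) ⊤ j X) →
    (∀ g i, (X g i : ℚ_[2]) = 2 ^ e * x (cs g) i) → ∀ j, Λ.Wn n.primeFactors j X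

/-- saturation -/
def SAT : Prop :=
  ∀ (G : Type) (A : Submodule Z2 (G → VZ)), (∀ f, (2 : Z2) • f ∈ A → f ∈ A) → ∀ x ∈ A, ∀ y ∈ A,
    (∀ a b : Z2, a • x + b • y = 0 → a = 0 ∧ b = 0) → ∃ x' ∈ A, ∃ y' ∈ A,
      ∀ a b : F2, (∀ g, a • rd (x' g) + b • rd (y' g) = 0) → a = 0 ∧ b = 0

/-- two independent normalised cocycles -/
def RED0 : Prop :=
  ∀ (T : Tate (pl 2)) (Λ : Lat) (n : ℕ), Λ.Of T → Squarefree n → n.Coprime 30 →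
    ¬ Rk1 T (rt (ps n)) (ps n) → ∀ p ∈ n.primeFactors, ∃ x y : GQ → VZ,
      (∀ j, Λ.Wn n.primeFactors j x ∧ Λ.Wn n.primeFactors j y) ∧ x (tp p) = 0 ∧ y (tp p) = 0 ∧
      ∀ a b : F2, (∀ g, a • rd (x g) + b • rd (y g) = 0) → a = 0 ∧ b = 0

/-- the choice of the basis -/
def BAS : Prop :=
  ∀ D : Submodule F2 FF, (∀ a b : F2, (∀ v ∈ D, a • v.1 + b • v.2 = 0) → a = 0 ∧ b = 0) →
    ((∀ v ∈ D, (!![1, 0; 0, 0] *ᵥ v.1, !![1, 0; 0, 0] *ᵥ v.2) ∈ D) →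
      (∃ a b c d : F2, a * d + b * c = 1 ∧ ∃ v ∈ D, ∃ v' ∈ D, c • v.1 + d • v.2 = 0 ∧
        ee (a • v.1 + b • v.2) (c • v'.1 + d • v'.2) = 1) ∨ ∃ i, ∀ v ∈ D, v.1 i = 0 ∧ v.2 i = 0) ∧
    ∀ i : Fin 2, (∀ a b : F2, (∀ v ∈ D, a * v.1 (i + 1) + b * v.2 (i + 1) = 0) → a = 0 ∧ b = 0) →
      (∀ v ∈ D, (Matrix.single i (i + 1) 1 *ᵥ v.1, Matrix.single i (i + 1) 1 *ᵥ v.2) ∈ D) →
      ∃ v ∈ D, ∃ v' ∈ D, v.2 = 0 ∧ ee v.1 v'.2 = 1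

/-- the choice of the lattice -/
def RED1 : Prop :=
  ∀ (Λ : Lat) (Λ' : Fin 2 → Lat) (S : Finset ℕ) (p : ℕ) (x y : GQ → VZ),
    Λ.cb tau = !![1, 0; 0, 0] →
    (∀ i, Λ.Sh (Λ' i) i ∧ ∃ t, (Λ' i).cb t = Matrix.single i (i + 1) 1) →
    (∀ j, Λ.Wn S j x ∧ Λ.Wn S j y) → x (tp p) = 0 → y (tp p) = 0 →
    (∀ a b : F2, (∀ g, a • rd (x g) + b • rd (y g) = 0) → a = 0 ∧ b = 0) →
    Λ.Bad S p ∨ ∃ i, (Λ' i).Bad S p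

open Classical in
/-- the Selmer group has rank at most one for almost all twists -/
def DENS0 : Prop :=
  ∀ (T : Tate (pl 2)) (ε : ℝ), 0 < ε → ∃ X₀ : ℕ, ∀ X, X₀ ≤ X →
    (((Icc 1 X).filter fun n => Squarefree n ∧ n.Coprime 30 ∧
      ¬ Rk1 T (rt (ps n)) (ps n)).card : ℝ) ≤ ε * X

/-! ### Rational points -/

/-- a point which is not divisible -/
def KUM0 : Prop :=
  ∀ (d : ℤ) (δ : Om), d ≠ 0 → δ ^ 2 = d →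
    {q : ℚ × ℚ | q.2 ^ 2 = q.1 ^ 3 + ((-12987 * d ^ 2 : ℤ) : ℚ) * q.1 +
      ((-263466 * d ^ 3 : ℤ) : ℚ)}.Infinite →
    ∃ P ∈ RatP δ, ∀ e : ℕ, ∃ k : ℕ, ∀ R ∈ RatP δ, 2 ^ k • R ≠ 2 ^ e • P

/-- the Kummer cocycle -/
def KUM1 : Prop :=
  ∀ (w : Pl) (T : Tate w) (δ : Om), Fix ⊤ (δ ^ 2) → ∀ P ∈ RatP δ,
    ∃ (Q : ℕ → EO) (c : GQ → V2), (∀ k, 2 ^ k • Q k = P) ∧ (∀ g, ‖c g‖ ≤ 1) ∧ Uc ⊤ c ∧
      (∀ g h, c (g * h) = c g + T.rq δ g (c h)) ∧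
      ∀ g k, T.pt (((2 : ℚ_[2]) ^ k)⁻¹ • c g) = tac δ g (Q k) - Q k

/-- the Kummer class lies in the Selmer group -/
def KUM2 : Prop :=
  ∀ (w : Pl) (T : Tate w) (δ : Om) (d : ℤ) (P : EO) (Q : ℕ → EO) (c : GQ → V2), w.p = 2 →
    δ ^ 2 = d → Squarefree d → d % 8 = 5 → IsCoprime d 15 → (∀ k, 2 ^ k • Q k = P) →
    (∀ g, ‖c g‖ ≤ 1) → Uc ⊤ c → (∀ g h, c (g * h) = c g + T.rq δ g (c h)) →
    (∀ g k, T.pt (((2 : ℚ_[2]) ^ k)⁻¹ • c g) = tac δ g (Q k) - Q k) →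
    SelQ T δ d fun g => ul fun k => c (g k)

/-- points of infinite order give nonzero classes -/
def KUM : Prop :=
  ∀ (w : Pl) (T : Tate w) (δ : Om) (d : ℤ), w.p = 2 → δ ^ 2 = d → Squarefree d → d % 8 = 5 →
    IsCoprime d 15 → {q : ℚ × ℚ | q.2 ^ 2 = q.1 ^ 3 + ((-12987 * d ^ 2 : ℤ) : ℚ) * q.1 +
      ((-263466 * d ^ 3 : ℤ) : ℚ)}.Infinite → ∃ x, SelQ T δ d x ∧ ¬ Cob ⊤ (T.rq δ) x

/-- restriction to the quadratic field -/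
def RESK : Prop :=
  ∀ (D : Dat) (x y : GS → V2), SelQ D.T D.dl D.d x → ¬ Cob ⊤ (D.T.rq D.dl) x →
    SelQ D.T (D.dl * D.sk) (-D.l * D.d) y → ¬ Cob ⊤ (D.T.rq (D.dl * D.sk)) y → ¬ RkK D

end Pool.Agent.P.MP_8b7eba_nt.SM
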