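import Pool.Agent.P.MP_8b7eba_nt.SM.All
import Pool.Agent.P.MP_8b7eba_nt.R2.Main2

/-! The weak conjecture of Birch and Swinnerton-Dyer for almost all twists in the family. -/

namespace Pool.Agent.P.MP_8b7eba_nt.SM

open R2 Filter Topology

/-- the affine rational points of the twist -/
abbrev Af (d : ℤ) : Set (ℚ × ℚ) :=
  {q | q.2 ^ 2 = q.1 ^ 3 + ((-12987 * d ^ 2 : ℤ) : ℚ) * q.1 + ((-263466 * d ^ 3 : ℤ) : ℚ)}

theorem j3_of {d : ℤ} (h3 : d.natAbs % 3 = 1) : d.sign * jacobiSym d 3 = 1 := by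
  rw [jacobiSym.mod_left]
  rcases lt_trichotomy d 0 with s | s | s
  · rw [Int.sign_eq_neg_one_of_neg s, show d % (3 : ℕ) = 2 by omega]
    norm_num
  · omega
  · rw [Int.sign_eq_one_of_pos s, show d % (3 : ℕ) = 1 by omega]
    norm_num

variable {w : Pl} (hw : w.p = 2) (T : Tate w) {d : ℤ} (h1 : Squarefree d) (h2 : d % 8 = 5)
  (h5 : d % 5 = 2 ∨ d % 5 = 3) {dl : Om} (hdl : dl ^ 2 = d) (r : Rk1 T dl d)

include hw h1 h2 h5 hdl r

theorem odd_inf (h3 : d.natAbs % 3 = 1) : (Af d).Infinite := by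
  obtain ⟨l, l1, -, l2, l3, l4, l5⟩ :=
    a_AUX2 d w T 0 h1 h2 (cop_of h5 (by omega)) (j5_of h5) hw
  obtain ⟨sk, hsk⟩ := exists_root (-l : Om) two_ne_zero
  exact (a_SHA d dl h1.ne_zero hdl).1 (core ⟨l, d, sk, dl, w, l1, l2, h1, h2, l3, l4, hsk, hdl, hw⟩ T
    ((l5 (dl * sk) (by rw [mul_pow, hsk, hdl]; push_cast; ring)).2 (j3_of h3)) r)

theorem even_ne (h3 : d.natAbs % 3 = 2) {f : ℂ → ℂ}
    (hf : BSD15.IsL (-12987 * d ^ 2) (-263466 * d ^ 3) f) : f 1 ≠ 0 := by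
  have ha := adm_of h1 h2 (cop_of h5 (by omega))
  refine Mod.isL_twist_ne_zero ha (by omega) ?_ hf
  rw [BSD15.euler_sum (by omega) ha]
  exact mul_ne_zero (Int.cast_ne_zero.2 (lam_ne hw T h1 h2 h5 h3 hdl r)) (BSD15.euler_unit_ne _)

theorem even_fin (h3 : d.natAbs % 3 = 2) : (Af d).Finite := by
  by_contra hi
  have c := cop_of h5 (show ¬ 3 ∣ d by omega)
  obtain ⟨l, l1, -, l2, l3, l4, l5⟩ := a_AUX2 d w T 0 h1 h2 c (j5_of h5) hw
  obtain ⟨sk, hsk⟩ := exists_root (-l : Om) two_ne_zero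
  have e : (dl * sk) ^ 2 = ((-l * d : ℤ) : Om) := by rw [mul_pow, hsk, hdl]; push_cast; ring
  have r2 := (l5 _ e).1
  obtain ⟨m3, m5⟩ := mod_of_jac (l4 3 Nat.prime_three ⟨5 * d, by push_cast; ring⟩)
    (l4 5 Nat.prime_five ⟨3 * d, by push_cast; ring⟩)
  have hl : Prime (l : ℤ) := Nat.prime_iff_prime_int.1 l1
  have g1 : Squarefree (-l * d : ℤ) :=
    squarefree_mul_iff.2 ⟨(l3.of_mul_right_right.symm.neg_left).isRelPrime, hl.neg.squarefree, h1⟩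
  have g2 : (-l * d : ℤ) % 8 = 5 := by
    rw [Int.mul_emod, h2, show (-l : ℤ) % 8 = 1 by omega]
    norm_num
  have g5 : (-l * d : ℤ) % 5 = 2 ∨ (-l * d : ℤ) % 5 = 3 := by
    rw [Int.mul_emod]
    rcases m5 with m | m
    · rw [show (-l : ℤ) % 5 = 4 by omega]
      rcases h5 with h | h <;> rw [h] <;> norm_num
    · rw [show (-l : ℤ) % 5 = 1 by omega]
      rcases h5 with h | h <;> rw [h] <;> norm_num
  have g3 : (-l * d : ℤ).natAbs % 3 = 1 := by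
    rw [Int.natAbs_mul, Int.natAbs_neg, Int.natAbs_natCast, Nat.mul_mod, m3, h3]
  obtain ⟨x, x1, x2⟩ := a_KUM w T dl d hw hdl h1 h2 c hi
  obtain ⟨y, y1, y2⟩ := a_KUM w T _ _ hw e g1 g2 (cop_of g5 (by omega))
    (odd_inf hw T g1 g2 g5 e r2 g3)
  let P : Pre := ⟨l, d, sk, dl, w, l1, l2, h1, h2, l3, l4, hsk, hdl, hw⟩
  have key : ∀ (P : Pre) (T : Tate P.w2), Rk1 T P.dl P.d → Rk1 T (P.dl * P.sk) (-P.l * P.d) →
      ∀ x y, SelQ T P.dl P.d x → ¬ Cob ⊤ (T.rq P.dl) x → SelQ T (P.dl * P.sk) (-P.l * P.d) y →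
      ¬ Cob ⊤ (T.rq (P.dl * P.sk)) y → False := fun P T r1 r2 x y x1 x2 y1 y2 => by
    obtain ⟨a, ha, H, hJ⟩ := a_HEEG P
    obtain ⟨D, rfl, rfl, e⟩ := a_DATX P T a ha
    obtain rfl := eq_of_heq e
    obtain ⟨v, h1, h2⟩ := a_KOLY D H
    exact a_RESK D x y x1 x2 y1 y2 (a_PAR D v h2 (a_NV D H _ hJ h1) (a_PAR1 D r1 r2))
  exact key P T r r2 x y x1 x2 y1 y2

omit hw h1 h2 h5 hdl r

/-- the family of the twisting parameters -/
def Fam (X : ℕ) : Set ℤ :=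
  {d | |d| ≤ X ∧ Squarefree d ∧ d % 8 = 5 ∧ (d % 5 = 2 ∨ d % 5 = 3) ∧ ¬ 3 ∣ d}

theorem fam_finite (X : ℕ) : (Fam X).Finite :=
  (Set.finite_Icc (-X : ℤ) X).subset fun _ h => abs_le.1 h.1

theorem fam_pos : ∃ c : ℝ, 0 < c ∧ ∀ᶠ X : ℕ in atTop, c * X ≤ (Fam X).ncard := by
  obtain ⟨c, hc, X₀, h⟩ := a_SQD 13 (by norm_num)
  refine ⟨c, hc, (eventually_ge_atTop X₀).mono fun X hX => (h X hX).trans ?_⟩
  rw [Nat.cast_le, ← Set.ncard_coe_finset]
  refine Set.ncard_le_ncard_of_injOn (fun n : ℕ => (n : ℤ)) (fun n hn => ?_)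
    (fun a _ b _ e => Nat.cast_injective e) (fam_finite X)
  obtain ⟨a1, a2, a3⟩ := Finset.mem_filter.1 (Finset.mem_coe.1 hn)
  have := (Finset.mem_Icc.1 a1).2
  exact ⟨by rw [Nat.abs_cast]; exact_mod_cast this, Int.squarefree_natCast.2 a2, by omega, by omega,
    by omega⟩

/-- a property which follows from the bound for the Selmer group holds for almost all twists -/
theorem dens (G : ℤ → Prop)
    (hG : ∀ (T : Tate (pl 2)) (d : ℤ), Squarefree d → d % 8 = 5 → (d % 5 = 2 ∨ d % 5 = 3) →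
      ¬ 3 ∣ d → Rk1 T (rt d) d → G d) :
    Tendsto (fun X : ℕ => ({d ∈ Fam X | G d}.ncard / (Fam X).ncard : ℝ)) atTop (𝓝 1) := by
  classical
  obtain ⟨c, hc, hX⟩ := fam_pos
  obtain ⟨T⟩ := a_TATE (pl 2) (pl_p Nat.prime_two)
  refine Metric.tendsto_nhds.2 fun ε hε => ?_
  obtain ⟨X₀, h⟩ := a_DENS0 T (c * (ε / 2)) (by positivity)
  filter_upwards [hX, eventually_ge_atTop X₀, eventually_gt_atTop 0] with X a1 a2 a3
  have b1 : ({d ∈ Fam X | ¬ G d}.ncard : ℝ) ≤ c * (ε / 2) * X := by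
    refine le_trans ?_ (h X a2)
    rw [Nat.cast_le, ← Set.ncard_coe_finset]
    refine Set.ncard_le_ncard_of_injOn Int.natAbs (fun d hd => ?_) (fun a ha b hb e => ?_)
      (Finset.finite_toSet _)
    · obtain ⟨⟨d0, d1, d2, d3, d4⟩, d5⟩ := hd
      have e : ps d.natAbs = d := by unfold ps; split_ifs <;> omega
      have := d1.ne_zero
      refine Finset.mem_coe.2 (Finset.mem_filter.2 ⟨Finset.mem_Icc.2 ⟨by omega, ?_⟩,
        Int.squarefree_natAbs.2 d1, (adm_of d1 d2 (cop_of d3 d4)).2, fun r => d5 ?_⟩)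
      · rw [Int.abs_eq_natAbs] at d0
        exact_mod_cast d0
      · rw [e] at r
        exact hG T d d1 d2 d3 d4 r
    · have := ha.1.2.2.1
      have := hb.1.2.2.1
      omega
  have b2 : ({d ∈ Fam X | G d}.ncard + {d ∈ Fam X | ¬ G d}.ncard : ℝ) = (Fam X).ncard := by
    rw [← Nat.cast_add, ← Set.ncard_union_eq (Set.disjoint_left.2 fun d a b => b.2 a.2)
      ((fam_finite X).subset fun _ h => h.1) ((fam_finite X).subset fun _ h => h.1)]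
    congr 2
    ext d
    exact ⟨fun h => h.elim (·.1) (·.1), fun h => (em (G d)).imp (⟨h, ·⟩) (⟨h, ·⟩)⟩
  have b3 : (0 : ℝ) < c * X := by positivity
  have b4 := b3.trans_le a1
  have b5 : (0 : ℝ) ≤ {d ∈ Fam X | ¬ G d}.ncard := Nat.cast_nonneg _
  rw [Real.dist_eq, abs_sub_comm, abs_of_nonneg (by rw [sub_nonneg, div_le_one b4]; linarith),
    sub_lt_iff_lt_add, ← sub_lt_iff_lt_add', lt_div_iff₀ b4]
  nlinarith

end Pool.Agent.P.MP_8b7eba_nt.SM
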