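import Pool.Agent.P.MP_8b7eba_nt.SM.IfG
import Pool.Agent.P.MP_8b7eba_nt.SM.BasM

/-! Proof of CLOS2. -/

namespace Pool.Agent.P.MP_8b7eba_nt.SM

open Finset R2
open scoped Matrix

theorem TCLOS2.key {k M : ℕ} {𝒢 : Grid k M} {R : V1} {c : Gz k M → Z2}
    {x : Gz k M → GQ → VZ} {z₀ : Gz k M} {X : GQ → VZ}
    (hX : ∀ g, X g = ∑ z, c z • 𝒢.xv R z (x z) g + 𝒢.m g z₀ • lf R) {g : GQ}
    (hm : ∀ z, (2 : Z2) ^ k ∣ 𝒢.m g z) : Dv k (X g - ∑ z, c z • x z g) := by
  have e : X g - ∑ z, c z • x z g =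
      𝒢.m g z₀ • lf R - ∑ z, c z • (𝒢.m g z • lf R) := by
    rw [hX]
    simp only [Grid.xv, smul_sub, Finset.sum_sub_distrib]
    abel
  have hd : ∀ z, Dv k (𝒢.m g z • lf R) := fun z i => by
    simp only [Pi.smul_apply, smul_eq_mul]
    exact (hm z).mul_right _
  rw [e]
  exact (hd z₀).sub (Dv.sum fun z _ => (hd z).smul _)

variable [HA]

theorem t_CLOS2 : CLOS2 := by
  intro k M 𝒢 Λ y R c x z₀ X hp hW hX hZ ht hf
  refine ⟨⟨hZ, ?_, ?_⟩, ?_⟩
  · intro w hw hS g hg
    have h2 : w.p ≠ 2 := fun e => hw (by rw [e]; norm_num)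
    by_cases hq : ∃ i j, w.p = 𝒢.q i j
    · obtain ⟨i, j, e⟩ := hq
      have hne : z₀ i ≠ j := fun h => hS (e ▸ (Grid.q_mem hp i j).2 h)
      refine Lat.Zn.unr hw (isCh_chi _) ?_ hZ (e ▸ ht i j hne) hg
      exact chi_I (w := pl w.p) (Grid.S_gp hp z₀) (by rwa [pl_p w.prime]) (tp_I w.prime h2)
    · push Not at hq
      have h1 := TCLOS2.key hX (g := g) fun z => by
        rw [Grid.m_I h2 hq hg]
        exact dvd_zero _
      have h3 : Dv k (∑ z, c z • x z g) := by
        refine Dv.sum fun z _ => ?_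
        by_cases hc : c z = 0
        · rw [hc, zero_smul]
          exact dv_zero
        · refine ((hW z hc).unr w hw (fun h => ?_) g hg).smul _
          rcases Grid.mem_S.1 h with h | h | ⟨i, h⟩
          · exact hS (Grid.mem_S.2 (Or.inl h))
          · exact hS (Grid.mem_S.2 (Or.inr (Or.inl h)))
          · exact hq i _ h.symm
      have h4 := h1.add h3
      rwa [sub_add_cancel] at h4
  · refine (Lat.Lc.sum (s := univ) (c := c) (f := x) fun z _ hc =>
      (hW z hc).inf.congr_chi fun g hg => Grid.chi_Ht hp hg z₀ z).congr fun g hg => ?_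
    refine TCLOS2.key hX fun z => ?_
    rw [Grid.m_Ht hg]
    exact dvd_zero _
  · intro p hpm
    by_cases h0 : p ∈ insert y 𝒢.P ∪ T30
    · have hz : ∀ z, p ∈ 𝒢.S y z ∪ T30 := fun z => by
        rcases mem_union.1 h0 with h | h
        · refine mem_union_left _ (Grid.mem_S.2 ?_)
          rcases mem_insert.1 h with h | h
          · exact Or.inl h
          · exact Or.inr (Or.inl h)
        · exact mem_union_right _ h
      refine (Lat.Lc.sum (s := univ) (c := c) (f := x) fun z _ hc =>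
        ((hW z hc).loc p (hz z)).congr_chi fun g hg => Grid.chi_loc hp h0 hg z₀ z).congr
          fun g hg => ?_
      refine TCLOS2.key hX fun z => ?_
      by_cases hy : p = y
      · subst hy
        obtain ⟨u, hu, h1, h2⟩ := exists_un hp.gp.1 hp.gp.ne.1
        rw [Grid.m_y hp hu h1 h2 hg]
        exact dvd_mul_right _ _
      · have h1 : p ∈ 𝒢.P ∪ T30 := by
          rcases mem_union.1 h0 with h | h
          · exact mem_union_left _ ((mem_insert.1 h).resolve_left hy)
          · exact mem_union_right _ h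
        rw [Grid.m_loc h1 hg]
        exact dvd_zero _
    · have h1 : p ∈ 𝒢.S y z₀ := (mem_union.1 hpm).resolve_right fun h => h0 (mem_union_right _ h)
      have hg := Grid.S_gp hp z₀ p h1
      obtain ⟨i, hi⟩ : ∃ i, 𝒢.q i (z₀ i) = p := by
        rcases Grid.mem_S.1 h1 with h | h | h
        · exact absurd (mem_union_left _ (mem_insert.2 (Or.inl h))) h0
        · exact absurd (mem_union_left _ (mem_insert.2 (Or.inr h))) h0
        · exact h
      exact (Lat.lc_iff hg.ne.1 hg (isCh_chi _) (chi_tp (Grid.S_gp hp z₀) h1)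
        (hZ.mono le_top le_rfl)).2 (hf i p hi.symm)

end Pool.Agent.P.MP_8b7eba_nt.SM
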