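import Pool.Agent.P.MP_8b7eba_nt.SM.IfC

/-! The two halves of the equidistribution of the matrix of symbols. -/

namespace Pool.Agent.P.MP_8b7eba_nt.SM

open Finset

namespace TEQ

theorem sr_abs (a : F2) : |sr a| = 1 := by simp [sr]

theorem sr_zero : sr 0 = 1 := by simp [sr]

theorem sr_add (a b : F2) : sr (a + b) = sr a * sr b := by
  have h : ∀ c : F2, c = 0 ∨ c = 1 := by decide
  have h11 : (1 : F2) + 1 = 0 := by decide
  have h1 : sr 1 = -1 := by simp [sr, ZMod.val_one]
  rcases h a with rfl | rfl <;> rcases h b with rfl | rfl <;> simp [sr_zero, h11, h1]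

theorem odd_of_gp {p : ℕ} (h : Gp p) : p % 4 = 1 ∨ p % 4 = 3 := by
  rcases h.1.eq_two_or_odd with rfl | h2
  · exact absurd (by norm_num) h.2
  · omega

theorem jac_ps {p q : ℕ} (hp : p % 4 = 1 ∨ p % 4 = 3) (hq : q % 4 = 1 ∨ q % 4 = 3) :
    jacobiSym (ps q) p = jacobiSym p q := by
  have op : Odd p := Nat.odd_iff.2 (by omega)
  have oq : Odd q := Nat.odd_iff.2 (by omega)
  unfold ps
  rcases hq with hq | hq
  · rw [if_pos hq, jacobiSym.quadratic_reciprocity_one_mod_four hq op]
  · rw [if_neg (by omega), jacobiSym.neg _ op]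
    rcases hp with hp | hp
    · rw [ZMod.χ₄_nat_one_mod_four hp, one_mul,
        jacobiSym.quadratic_reciprocity_one_mod_four' oq hp]
    · rw [ZMod.χ₄_nat_three_mod_four hp, jacobiSym.quadratic_reciprocity_three_mod_four hq hp]
      ring

theorem js_neg_one {p : ℕ} (hp : p % 4 = 1 ∨ p % 4 = 3) :
    js (-1) p = if p % 4 = 1 then 0 else 1 := by
  have op : Odd p := Nat.odd_iff.2 (by omega)
  unfold js
  rw [jacobiSym.at_neg_one op]
  rcases hp with hp | hp
  · rw [ZMod.χ₄_nat_one_mod_four hp, if_pos rfl, if_pos hp]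
  · rw [ZMod.χ₄_nat_three_mod_four hp, if_neg (by norm_num), if_neg (by omega)]

/-- quadratic reciprocity for the bits -/
theorem recip {p q : ℕ} (hp : Gp p) (hq : Gp q) (hne : p ≠ q) :
    js (ps q) p + js (-1) p * js (-1) q = js (ps p) q := by
  have h4p := odd_of_gp hp
  have h4q := odd_of_gp hq
  have op : Odd p := Nat.odd_iff.2 (by omega)
  have oq : Odd q := Nat.odd_iff.2 (by omega)
  have hco : (p : ℤ).gcd q = 1 := by
    rw [Int.gcd_natCast_natCast]; exact (Nat.coprime_primes hp.1 hq.1).2 hne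
  rw [js_neg_one h4p, js_neg_one h4q]
  unfold js
  rw [jac_ps h4p h4q, jac_ps h4q h4p]
  rcases h4p with h4p | h4p
  · rw [if_pos h4p, zero_mul, add_zero, jacobiSym.quadratic_reciprocity_one_mod_four h4p oq]
  · rcases h4q with h4q | h4q
    · rw [if_pos h4q, mul_zero, add_zero, jacobiSym.quadratic_reciprocity_one_mod_four h4q op]
    · rw [if_neg (show ¬p % 4 = 1 by omega), if_neg (show ¬q % 4 = 1 by omega),
        jacobiSym.quadratic_reciprocity_three_mod_four h4q h4p]
      rcases jacobiSym.eq_one_or_neg_one hco with h | h <;> rw [h] <;> decide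

/-- the matrix of the symbols is symmetric up to a correction -/
theorem sym (r : ℕ) (X : Fin r → Finset ℕ) (hX : ∀ i, ∀ p ∈ X i, Gp p)
    (hd : ∀ i j, i ≠ j → Disjoint (X i) (X j)) : ∀ p ∈ Fintype.piFinset X,
    (Leg p + fun i j => if i < j then js (-1) (p i) * js (-1) (p j) else 0) ∈ Sy (Fin r) := by
  intro p hp
  rw [Fintype.mem_piFinset] at hp
  have key : ∀ i j : Fin r, i < j → Leg p i j + js (-1) (p i) * js (-1) (p j) = Leg p j i := by
    intro i j hij
    unfold Leg
    rw [if_neg hij.ne, if_neg hij.ne']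
    refine recip (hX i _ (hp i)) (hX j _ (hp j)) fun h => ?_
    exact disjoint_left.1 (hd i j hij.ne) (hp i) (h ▸ hp j)
  simp only [Sy, mem_filter, mem_univ, true_and, Pi.add_apply]
  refine ⟨fun i j => ?_, fun i => by simp [Leg]⟩
  rcases lt_trichotomy i j with h | h | h
  · rw [if_pos h, if_neg h.not_gt, add_zero, key i j h]
  · rw [h]
  · rw [if_pos h, if_neg h.not_gt, add_zero, key j i h]

theorem avg1 {r : ℕ} (X : Fin r → Finset ℕ) (i : Fin r) (G : (Fin r → ℕ) → ℝ) :
    ∑ p ∈ Fintype.piFinset X, ∑ y ∈ X i, G (Function.update p i y) =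
      (X i).card * ∑ p ∈ Fintype.piFinset X, G p := by
  have e : ((X i).card : ℝ) * ∑ p ∈ Fintype.piFinset X, G p =
      ∑ p ∈ Fintype.piFinset X, ∑ _y ∈ X i, G p := by
    rw [mul_sum]; simp
  rw [e, ← sum_product', ← sum_product']
  have hm : ∀ s ∈ Fintype.piFinset X ×ˢ X i,
      (Function.update s.1 i s.2, s.1 i) ∈ Fintype.piFinset X ×ˢ X i := by
    intro s hs
    rw [mem_product, Fintype.mem_piFinset] at hs ⊢
    refine ⟨fun k => ?_, hs.1 i⟩
    by_cases h : k = i
    · subst h; simpa using hs.2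
    · simpa [Function.update_of_ne h] using hs.1 k
  refine sum_nbij' (fun s => (Function.update s.1 i s.2, s.1 i))
    (fun s => (Function.update s.1 i s.2, s.1 i)) hm hm ?_ ?_ ?_
  · intro s _; simp
  · intro s _; simp
  · intro s _; rfl

/-- the pairs of indices in increasing order -/
abbrev Pr (r : ℕ) : Type := {s : Fin r × Fin r // s.1 < s.2}

theorem leg_congr {r : ℕ} (p p' : Fin r → ℕ) (a b : Fin r) (ha : p a = p' a) (hb : p b = p' b) :
    Leg p a b = Leg p' a b := by
  unfold Leg; rw [ha, hb]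

theorem osc_bound {r : ℕ} (X : Fin r → Finset ℕ) (θ : ℝ) (hθ : 0 ≤ θ)
    (hO : ∀ i j, i ≠ j → Osc (X i) (X j) θ) (e : Pr r → F2) (he : e ≠ 0) :
    |∑ p ∈ Fintype.piFinset X, sr (∑ s, e s * Leg p s.1.1 s.1.2)| ≤
      θ * (Fintype.piFinset X).card := by
  obtain ⟨s₀, hs₀⟩ := Function.ne_iff.1 he
  have h1 : e s₀ = 1 := by
    have h : ∀ c : F2, c ≠ 0 → c = 1 := by decide
    exact h _ hs₀
  obtain ⟨⟨i, j⟩, hij⟩ := s₀
  have hij' : i ≠ j := ne_of_lt hij
  rcases (Fintype.piFinset X).eq_empty_or_nonempty with hE | hE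
  · simp [hE]
  have hpos : ∀ k, (0 : ℝ) < (X k).card := fun k => by
    obtain ⟨p, hp⟩ := hE
    exact_mod_cast card_pos.2 ⟨p k, Fintype.mem_piFinset.1 hp k⟩
  set F : (Fin r → ℕ) → ℝ := fun p => sr (∑ s, e s * Leg p s.1.1 s.1.2) with hF
  have hav : ∑ p ∈ Fintype.piFinset X, ∑ u ∈ X j, ∑ y ∈ X i,
      F (Function.update (Function.update p j u) i y) =
      (X j).card * ((X i).card * ∑ p ∈ Fintype.piFinset X, F p) := by
    rw [avg1 X j fun p => ∑ y ∈ X i, F (Function.update p i y), avg1 X i F]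
  have hone : ∀ p : Fin r → ℕ, |∑ u ∈ X j, ∑ y ∈ X i,
      F (Function.update (Function.update p j u) i y)| ≤ θ * (X j).card * (X i).card := by
    intro p
    set A₁ : Finset (Pr r) := (univ.erase ⟨(i, j), hij⟩).filter fun s => s.1.1 ≠ i ∧ s.1.2 ≠ i
      with hA₁
    set A₂ : Finset (Pr r) := (univ.erase ⟨(i, j), hij⟩).filter fun s => ¬(s.1.1 ≠ i ∧ s.1.2 ≠ i)
      with hA₂
    set α : ℕ → ℝ := fun u => sr (∑ s ∈ A₁, e s * Leg (Function.update p j u) s.1.1 s.1.2)
    set β : ℕ → ℝ := fun y => sr (∑ s ∈ A₂, e s * Leg (Function.update p i y) s.1.1 s.1.2)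
    have hfac : ∀ u y, F (Function.update (Function.update p j u) i y) =
        α u * (β y * sr (js (ps u) y)) := by
      intro u y
      simp only [hF, α, β]
      rw [← add_sum_erase _ _ (mem_univ (⟨(i, j), hij⟩ : Pr r)), h1, one_mul,
        ← sum_filter_add_sum_filter_not _ (fun s : Pr r => s.1.1 ≠ i ∧ s.1.2 ≠ i), sr_add, sr_add]
      have e0 : Leg (Function.update (Function.update p j u) i y) i j = js (ps u) y := by
        simp [Leg, hij', Function.update_of_ne hij'.symm]
      have e1 : ∑ s ∈ A₁, e s * Leg (Function.update (Function.update p j u) i y) s.1.1 s.1.2 =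
          ∑ s ∈ A₁, e s * Leg (Function.update p j u) s.1.1 s.1.2 := by
        refine sum_congr rfl fun s hs => ?_
        have := (mem_filter.1 hs).2
        rw [leg_congr _ (Function.update p j u) _ _ (Function.update_of_ne this.1 _ _)
          (Function.update_of_ne this.2 _ _)]
      have e2 : ∑ s ∈ A₂, e s * Leg (Function.update (Function.update p j u) i y) s.1.1 s.1.2 =
          ∑ s ∈ A₂, e s * Leg (Function.update p i y) s.1.1 s.1.2 := by
        refine sum_congr rfl fun s hs => ?_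
        have h2 := (mem_filter.1 hs).2
        have h3 := (mem_erase.1 (mem_filter.1 hs).1).1
        obtain ⟨⟨a, b⟩, hab⟩ := s
        have hab' : a < b := hab
        have hij'' : i < j := hij
        have h4 : ¬(a = i ∧ b = j) := fun h => h3 (by obtain ⟨rfl, rfl⟩ := h; rfl)
        have h5 : a ≠ j ∧ b ≠ j := by
          simp only at h2
          constructor <;> intro h <;> omega
        rw [Function.update_comm hij'.symm,
          leg_congr _ (Function.update p i y) _ _ (Function.update_of_ne h5.1 _ _)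
            (Function.update_of_ne h5.2 _ _)]
      rw [e0, e1, e2]
      ring
    refine (abs_sum_le_sum_abs _ _).trans (le_trans (le_of_eq ?_)
      (hO j i hij'.symm β fun y => (sr_abs _).le))
    refine sum_congr rfl fun u _ => ?_
    simp only [hfac]
    rw [← mul_sum, abs_mul, sr_abs, one_mul]
  have h2 := (abs_sum_le_sum_abs _ _).trans
    (sum_le_sum (s := Fintype.piFinset X) fun p _ => hone p)
  rw [hav, abs_mul, abs_mul, abs_of_pos (hpos j), abs_of_pos (hpos i), sum_const, nsmul_eq_mul]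
    at h2
  have h3 : 0 < ((X j).card : ℝ) * (X i).card := mul_pos (hpos j) (hpos i)
  refine le_of_mul_le_mul_left ?_ h3
  nlinarith

theorem card_sy (r : ℕ) :
    0 < (Sy (Fin r)).card ∧ (Sy (Fin r)).card ≤ 2 ^ Fintype.card (Pr r) := by
  refine ⟨card_pos.2 ⟨0, by simp [Sy]⟩, ?_⟩
  have : Fintype.card (Pr r → F2) = 2 ^ Fintype.card (Pr r) := by simp
  rw [← this, ← card_univ]
  refine card_le_card_of_injOn (fun x s => x s.1.1 s.1.2) (fun _ _ => mem_coe.2 (mem_univ _)) ?_
  intro x hx y hy h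
  simp only [Sy, coe_filter, mem_univ, true_and] at hx hy
  funext i j
  rcases lt_trichotomy i j with h' | h' | h'
  · exact congrFun h ⟨(i, j), h'⟩
  · rw [h', hx.2, hy.2]
  · rw [hx.1, hy.1]; exact congrFun h ⟨(j, i), h'⟩

/-- each matrix is the matrix of the symbols for a small part of the box -/
theorem count (hFOUR : FOUR) (r : ℕ) (X : Fin r → Finset ℕ) (θ : ℝ) (hθ : 0 ≤ θ)
    (hO : ∀ i j, i ≠ j → Osc (X i) (X j) θ) (a : Fin r → Fin r → F2) :
    (((Fintype.piFinset X).filter fun p => Leg p = a).card : ℝ) ≤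
      (((Sy (Fin r)).card : ℝ)⁻¹ + θ) * (Fintype.piFinset X).card := by
  set N : ℝ := 2 ^ Fintype.card (Pr r) with hN
  have hNpos : 0 < N := by positivity
  have h1 : (((Fintype.piFinset X).filter fun p => Leg p = a).card : ℝ) ≤
      ∑ p ∈ Fintype.piFinset X, (if (fun s : Pr r => Leg p s.1.1 s.1.2) =
        (fun s : Pr r => a s.1.1 s.1.2) then 1 else 0 : ℝ) := by
    rw [card_filter]
    push_cast
    refine sum_le_sum fun p _ => ?_
    by_cases h : Leg p = a
    · simp [h]
    · rw [if_neg h]; split_ifs <;> norm_num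
  refine h1.trans ?_
  simp only [hFOUR (Pr r)]
  rw [← mul_sum, sum_comm]
  simp only [← mul_sum]
  rw [← add_sum_erase _ _ (mem_univ (0 : Pr r → F2))]
  have h2 : ∑ e ∈ univ.erase (0 : Pr r → F2), sr (∑ s, e s * a s.1.1 s.1.2) *
      ∑ p ∈ Fintype.piFinset X, sr (∑ s, e s * Leg p s.1.1 s.1.2) ≤
      N * (θ * (Fintype.piFinset X).card) := by
    refine (sum_le_sum (g := fun _ => θ * (Fintype.piFinset X).card) fun e he => ?_).trans ?_
    · refine (le_abs_self _).trans ?_
      rw [abs_mul, sr_abs, one_mul]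
      exact osc_bound X θ hθ hO e (mem_erase.1 he).1
    · rw [sum_const, nsmul_eq_mul]
      refine mul_le_mul_of_nonneg_right ?_ (by positivity)
      have : (univ.erase (0 : Pr r → F2)).card ≤ 2 ^ Fintype.card (Pr r) := by
        refine card_erase_le.trans ?_
        simp
      rw [hN]; exact_mod_cast this
  have h3 : N⁻¹ ≤ ((Sy (Fin r)).card : ℝ)⁻¹ := by
    refine inv_anti₀ (by exact_mod_cast (card_sy r).1) ?_
    rw [hN]; exact_mod_cast (card_sy r).2
  simp only [Pi.zero_apply, zero_mul, sum_const_zero, sr_zero, one_mul, sum_const, nsmul_eq_mul,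
    mul_one]
  have h4 : (0 : ℝ) ≤ (Fintype.piFinset X).card := by positivity
  calc N⁻¹ * (((Fintype.piFinset X).card : ℝ) + _)
      ≤ N⁻¹ * (((Fintype.piFinset X).card : ℝ) + N * (θ * (Fintype.piFinset X).card)) := by
        gcongr
    _ = (N⁻¹ + θ) * (Fintype.piFinset X).card := by field_simp
    _ ≤ _ := by gcongr

end TEQ

end Pool.Agent.P.MP_8b7eba_nt.SM
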