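import Pool.Agent.P.MP_8b7eba_nt.SM.IfG
import Pool.Agent.P.MP_8b7eba_nt.R2.TLOC2A
import Pool.Agent.P.MP_8b7eba_nt.R2.PatB

/-! Proof of KUM. -/

namespace Pool.Agent.P.MP_8b7eba_nt.SM

open Finset R2
open scoped Matrix

namespace TKUM1

theorem tac_pt {w : Pl} (T : Tate w) (δ : Om) (g : GQ) (a : ℚ_[2]) (v : V2) :
    T.pt (a • T.rq δ g v) = tac δ g (T.pt (a • v)) := by
  rw [T.tgal, ← map_smul, T.rq_apply]

end TKUM1

variable [HA]

theorem t_KUM1 : KUM1 := by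
  intro w T δ hδ P hP
  choose f hf using MP_9c97e9_nt.exists_half (F := Om) split15
  have q2 : ∀ i, 2 • f^[i + 1] P = f^[i] P := fun i => by
    rw [Function.iterate_succ_apply', two_nsmul, hf]
  choose c c1 c2 using fun g => TLOC2.lim T (fun i => tac δ g (f^[i] P) - f^[i] P)
    (sub_eq_zero.2 (hP g)) fun i => by rw [smul_sub, ← map_nsmul, q2]
  refine ⟨fun i => f^[i] P, c, fun k => ?_, c1, fun ε hε => ?_, fun g h => ?_, c2⟩
  · induction k with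
    | zero => simp
    | succ k ih => rw [pow_succ, mul_smul, q2, ih]
  · obtain ⟨i, hi⟩ := pow_unbounded_of_one_lt ε⁻¹ (one_lt_two (α := ℝ))
    obtain ⟨N, hN, e⟩ := exists_ON_ac {f^[i] P}
    obtain ⟨N', hN', e'⟩ := exists_ON_fix {δ}
    refine ⟨_, hN.inf hN', fun g _ n _ hn => ?_⟩
    have h1 : tac δ n (f^[i] P) = f^[i] P := by
      rw [tac_apply, sd_eq_one.2 (e' δ (by simp) n hn.2), one_smul, e _ (by simp) n hn.1]
    have h2 := T.pt_eq.1 (((c2 (g * n) i).trans (by rw [tac_mul hδ, h1])).trans (c2 g i).symm)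
    rw [← smul_sub, norm_smul, TLOC2.npow] at h2
    rw [inv_lt_iff_one_lt_mul₀' hε] at hi
    have h3 : (0 : ℝ) < 2 ^ i := by positivity
    nlinarith
  · refine sub_eq_zero.1 (TLOC2.small fun i => ?_)
    rw [smul_sub, ← T.pt_eq, smul_add, map_add, TKUM1.tac_pt, c2, c2, c2, tac_mul hδ, map_sub]
    abel

theorem t_KUM (hKUM0 : KUM0) (hKUM1 : KUM1) (hKUM2 : KUM2) : KUM := by
  intro w T δ d h2 hδ hd h8 h15 hinf
  obtain ⟨P, hP, h0⟩ := hKUM0 d δ (by omega) hδ hinf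
  obtain ⟨Q, c, q1, c1, c2, c3, c4⟩ := hKUM1 w T δ (TLOC2.fix_sq hδ) P hP
  refine ⟨_, hKUM2 w T δ d P Q c h2 hδ hd h8 h15 q1 c1 c2 c3 c4, fun ⟨v, hv⟩ => ?_⟩
  have e : ∀ g, c g = T.rq δ g v - v := fun g => by
    have := hv (cs g) trivial
    rw [rS_cs] at this
    exact (ul_eq tendsto_const_nhds).symm.trans this
  obtain ⟨n, hn⟩ := T.tors v
  obtain ⟨k, hk⟩ := h0 n
  refine hk (2 ^ n • (Q k - T.pt (((2 : ℚ_[2]) ^ k)⁻¹ • v))) (fun g => ?_) ?_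
  · have := c4 g k
    rw [e, smul_sub, map_sub, TKUM1.tac_pt] at this
    rw [map_nsmul, map_sub]
    congr 1
    rw [sub_eq_sub_iff_sub_eq_sub, ← this]
  · have h3 : 2 ^ k • T.pt (((2 : ℚ_[2]) ^ k)⁻¹ • v) = T.pt v := by
      rw [← TLOC2.pt_nat, smul_smul]
      simp
    rw [smul_comm, smul_sub, q1, h3, smul_sub, hn, sub_zero]

end Pool.Agent.P.MP_8b7eba_nt.SM
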