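import Pool.Agent.P.MP_8b7eba_nt.SM.IfG
import Pool.Agent.P.MP_8b7eba_nt.SM.BasH

/-! Proof of OGA. -/

namespace Pool.Agent.P.MP_8b7eba_nt.SM

open Finset R2
open scoped Matrix

namespace TOGA

theorem sr_abs (a : F2) : |sr a| = 1 := by simp [sr]

theorem sr_add (a b : F2) : sr (a + b) = sr a * sr b := by
  rcases BasG.f2 a with rfl | rfl <;> rcases BasG.f2 b with rfl | rfl
  · simp [sr]
  · simp [sr]
  · simp [sr]
  · rw [show (1 : F2) + 1 = 0 from rfl]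
    have : (1 : F2).val = 1 := rfl
    simp [sr, this]

open Classical in
theorem swap (W Y : Finset ℕ) (F G : ℕ → ℕ → ℝ) (b e : ℕ → ℝ) (hb : ∀ y, |b y| ≤ 1)
    (he : ∀ y, |e y| ≤ 1) (h : ∀ w ∈ W, ∀ y ∈ Y, b y ≠ 0 → F w y = G y w * e y) :
    ∃ s : ℕ → ℝ, (∀ w, |s w| ≤ 1) ∧ ∑ w ∈ W, |∑ y ∈ Y, b y * F w y| ≤
      ∑ y ∈ Y.filter (fun y => b y ≠ 0), |∑ w ∈ W, s w * G y w| := by
  refine ⟨fun w => if 0 ≤ ∑ y ∈ Y, b y * F w y then 1 else -1, fun w => ?_, ?_⟩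
  · dsimp only
    split_ifs <;> simp
  set s : ℕ → ℝ := fun w => if 0 ≤ ∑ y ∈ Y, b y * F w y then 1 else -1 with hs
  have h1 : ∀ w ∈ W, |∑ y ∈ Y, b y * F w y| =
      ∑ y ∈ Y.filter (fun y => b y ≠ 0), (b y * e y) * (s w * G y w) := by
    intro w hw
    have h2 : |∑ y ∈ Y, b y * F w y| = s w * ∑ y ∈ Y, b y * F w y := by
      simp only [hs]
      split_ifs with h3
      · rw [abs_of_nonneg h3, one_mul]
      · rw [abs_of_neg (not_le.1 h3), neg_one_mul]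
    rw [h2, mul_sum, sum_filter]
    refine sum_congr rfl fun y hy => ?_
    split_ifs with h3
    · rw [h w hw y hy h3]; ring
    · rw [not_not.1 h3]; ring
  rw [sum_congr rfl h1, sum_comm]
  refine sum_le_sum fun y _ => ?_
  rw [← mul_sum]
  refine (le_abs_self _).trans ?_
  rw [abs_mul, abs_mul]
  have := mul_le_mul (hb y) (he y) (abs_nonneg _) zero_le_one
  exact mul_le_of_le_one_left (abs_nonneg _) (by simpa using this)

theorem num (T E Y₀ ns n np c₀ : ℕ) (hT : 2 ≤ T) (hE : 2 ≤ E) (hY : 1 ≤ Y₀) :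
    2 * (2 * Y₀) ^ (ns * n) <
      (T * E * Y₀) ^ ((1 + (n * (np + 3) + (ns * n + 1) * (n + 1)) + ns) * c₀ + (ns * n + 2)) ∧
    (T * (2 ^ (n * (np + 3)) * (2 * (2 * Y₀) ^ (ns * n)) ^ (n + 1)) * E * (2 * Y₀) ^ ns) ^ c₀ ≤
      (T * E * Y₀) ^ ((1 + (n * (np + 3) + (ns * n + 1) * (n + 1)) + ns) * c₀ + (ns * n + 2)) := by
  have h4 : 4 ≤ T * E := by nlinarith
  have h1 : T * E ≤ T * E * Y₀ := Nat.le_mul_of_pos_right _ hY
  have h2 : 2 * Y₀ ≤ T * E * Y₀ := Nat.mul_le_mul_right _ (by omega)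
  generalize hZ : T * E * Y₀ = Z at *
  have h3 : 2 ≤ Z := by omega
  have hC : 2 * (2 * Y₀) ^ (ns * n) ≤ Z ^ (ns * n + 1) := by
    rw [pow_succ']
    exact Nat.mul_le_mul h3 (Nat.pow_le_pow_left h2 _)
  refine ⟨hC.trans_lt (Nat.pow_lt_pow_right (by omega) (by omega)), ?_⟩
  refine le_trans ?_ (Nat.pow_le_pow_right (by omega) (Nat.le_add_right _ _))
  rw [pow_mul Z]
  refine Nat.pow_le_pow_left ?_ _
  have hK : 2 ^ (n * (np + 3)) * (2 * (2 * Y₀) ^ (ns * n)) ^ (n + 1) ≤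
      Z ^ (n * (np + 3) + (ns * n + 1) * (n + 1)) := by
    rw [pow_add Z, pow_mul Z (ns * n + 1)]
    exact Nat.mul_le_mul (Nat.pow_le_pow_left h3 _) (Nat.pow_le_pow_left hC _)
  calc _ = T * E * (2 ^ (n * (np + 3)) * (2 * (2 * Y₀) ^ (ns * n)) ^ (n + 1)) * (2 * Y₀) ^ ns := by
        ring
    _ ≤ Z * Z ^ (n * (np + 3) + (ns * n + 1) * (n + 1)) * Z ^ ns :=
        Nat.mul_le_mul (Nat.mul_le_mul h1 hK) (Nat.pow_le_pow_left h2 _)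
    _ = _ := by rw [pow_add Z _ ns, pow_add Z 1, pow_one]

end TOGA

variable [HA]

open TOGA in
theorem t_OGA (hBIL2 : BIL2) (hRING : RING) (hCHY : CHY) (hOGB : OGB) : OGA := by
  classical
  intro ns np
  obtain ⟨c₀, h0⟩ := hBIL2 (2 ^ ns)
  refine ⟨(1 + (2 ^ ns * (np + 3) + (ns * 2 ^ ns + 1) * (2 ^ ns + 1)) + ns) * c₀ +
    (ns * 2 ^ ns + 2), ?_⟩
  intro σ _ _ m P F W W' Y tW tY E T Y₀ Θ b hσ hP h2 hn hF hW hY hd hW' hT hE hY₀ hnY cW cY hΘ hb hD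
  obtain ⟨n1, n2⟩ := num T E Y₀ ns (2 ^ ns) np c₀ hT hE hY₀
  obtain ⟨O, bs, N, hO⟩ := hRING σ m
  have hn0 : 2 ^ ns ≠ 0 := by positivity
  have hB1 : Nat.nthRoot (2 ^ ns) (2 * tW) ^ 2 ^ ns ≤ 2 * tW :=
    Nat.pow_nthRoot_le_iff.2 (Or.inl hn0)
  have hB2 := Nat.lt_pow_nthRoot_add_one hn0 (2 * tW)
  generalize Nat.nthRoot (2 ^ ns) (2 * tW) = B at hB1 hB2
  generalize hC : 2 * (2 * Y₀) ^ (ns * 2 ^ ns) = C at n1 n2
  have hCW : C < tW := n1.trans_le cW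
  have hCY : C < tY := n1.trans_le cY
  have hYC : σ → Y₀ ≤ C := fun s => by
    have h : 0 < ns := hσ ▸ Fintype.card_pos_iff.2 ⟨s⟩
    have : 2 * Y₀ ≤ (2 * Y₀) ^ (ns * 2 ^ ns) := Nat.le_self_pow (by positivity) _
    omega
  obtain ⟨Ξ, hΞ, hx⟩ := hOGB σ m O bs N hO P F (2 ^ ns) Y₀ tW B C (by rw [hσ]) h2 hn hY₀ hnY hB1 hB2
    (by rw [hσ, hC]) hCW
  have hx' : ∀ w, ∃ (x : O) (ρ : Om) (ξ : GQ → F2), w ∈ W' → ξ ∈ Ξ ∧ (∀ i, |bs.repr x i| ≤ B) ∧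
      (∀ p : ℕ, p.Prime → C < p → ((p : ℤ) ∣ N x ↔ p = w)) ∧ ρ ^ 2 = ∏ v ∈ F, m.g v x ∧
      ∀ g ∈ m.H, Θ w g = qc ρ g + ξ g := by
    intro w
    by_cases hw : w ∈ W'
    · have h := hW.gp w (hW' hw)
      obtain ⟨x, ρ, ξ, h'⟩ := hx w (Θ w) h.1.1 h.2.1 h.2.2 (hΘ w hw)
      exact ⟨x, ρ, ξ, fun _ => h'⟩
    · exact ⟨0, 0, 0, fun h => absurd h hw⟩
  choose x ρ ξ hx' using hx'
  have hχ : ∀ y : ℕ, ∃ χ : O → ℤ, y ∈ Y → b y ≠ 0 → (∀ x x', χ (x * x') = χ x * χ x') ∧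
      (∀ x, |χ x| ≤ 1) ∧ (∀ x u, χ (x + y * u) = χ x) ∧
      (∃ a a' u : O, a * a' = 1 + y * u ∧ χ a = -1) ∧
      ∀ (x : O) (ρ : Om), ¬ (y : ℤ) ∣ N x → ρ ^ 2 = ∏ v ∈ F, m.g v x →
        (χ x : ℝ) = sr (qc ρ (fr y)) := by
    intro y
    by_cases hy : y ∈ Y ∧ b y ≠ 0
    · have h := hY.gp y hy.1
      obtain ⟨χ, h'⟩ := hCHY σ m O bs N hO y F h.1.1 h.1.ne.1 (fun s hs => by
        have h1 := Int.le_of_dvd (abs_pos.2 (m.ne s)) ((dvd_abs _ _).2 hs)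
        have h3 := hnY s
        have h4 := hYC s
        have h5 := h.2.1
        omega) (hD y hy.1 hy.2) hF
      exact ⟨χ, fun _ _ => h'⟩
    · exact ⟨0, fun h h' => absurd ⟨h, h'⟩ hy⟩
  choose χ hχ using hχ
  have hK : Ξ.card ≤ 2 ^ (2 ^ ns * (np + 3)) * C ^ (2 ^ ns + 1) :=
    hΞ.trans (Nat.mul_le_mul_right _ (Nat.pow_le_pow_right two_pos
      (Nat.mul_le_mul_left _ (by omega))))
  have hC0 : 0 < C := by rw [← hC]; positivity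
  have hK0 : 0 < 2 ^ (2 ^ ns * (np + 3)) * C ^ (2 ^ ns + 1) := by positivity
  generalize 2 ^ (2 ^ ns * (np + 3)) * C ^ (2 ^ ns + 1) = K at hK hK0 n2
  have cls : ∀ η ∈ Ξ, ∑ w ∈ W'.filter (fun w => ξ w = η), |∑ y ∈ Y, b y * sr (Θ w (fr y))| ≤
      ((T * K : ℕ) : ℝ)⁻¹ * W.card * Y.card := by
    intro η _
    obtain ⟨s, hs, h⟩ := swap (W'.filter fun w => ξ w = η) Y (fun w y => sr (Θ w (fr y)))
      (fun y w => χ y (x w)) b (fun y => sr (η (fr y))) hb (fun y => (sr_abs _).le) (by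
        intro w hw y hy hb0
        obtain ⟨hw1, hw2⟩ := mem_filter.1 hw
        obtain ⟨-, -, a3, a4, a5⟩ := hx' w hw1
        have g := hY.gp y hy
        have hne : y ≠ w := fun e => disjoint_left.1 hd (hW' hw1) (e ▸ hy)
        have hnd : ¬ (y : ℤ) ∣ N (x w) := fun e => hne ((a3 y g.1.1 (hCY.trans_le g.2.1)).1 e)
        rw [(hχ y hy hb0).2.2.2.2 (x w) (ρ w) hnd a4,
          a5 _ (hD y hy hb0 (fr_D g.1.1 g.1.ne.1)), sr_add, hw2])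
    refine h.trans (h0 O (Finset σ) bs _ _ χ x ((2 * Y₀) ^ ns) B tW tY E (T * K) W.card Y.card s
      (by rw [Fintype.card_finset, hσ]) ⟨Nat.one_le_pow _ _ (by omega), ?_, ?_, ⟨N, ?_⟩, ?_⟩ hs
      (hT.trans (Nat.le_mul_of_pos_right _ hK0)) hE
      (card_le_card ((filter_subset _ _).trans hW')) (card_le_card (filter_subset _ _))
      hW.card hY.card hY.log hB1 (n2.trans cW) (n2.trans cY))
    · rw [← hσ]; exact (hO.bd Y₀ hY₀ hnY).1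
    · exact fun w hw => (hx' w (mem_filter.1 hw).1).2.1
    · intro w hw
      refine ⟨(hW.gp w (hW' (mem_filter.1 hw).1)).1.1, fun w' hw' => ?_⟩
      have g := hW.gp w' (hW' (mem_filter.1 hw').1)
      exact (hx' w (mem_filter.1 hw).1).2.2.1 w' g.1.1 (hCW.trans_le g.2.1)
    · intro y hy
      obtain ⟨hy1, hy2⟩ := mem_filter.1 hy
      obtain ⟨a1, a2, a3, a4, -⟩ := hχ y hy1 hy2
      exact ⟨(hY.gp y hy1).1.1, (hY.gp y hy1).2.2, a1, a2, a3, a4⟩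
  rw [← sum_fiberwise_of_maps_to (g := ξ) (t := Ξ) fun w hw => (hx' w hw).1]
  refine (sum_le_card_nsmul _ _ _ cls).trans ?_
  rw [nsmul_eq_mul]
  have hK' : (Ξ.card : ℝ) ≤ K := by exact_mod_cast hK
  have hK1 : (0 : ℝ) < K := by exact_mod_cast hK0
  have hT1 : (0 : ℝ) < T := by positivity
  refine (mul_le_mul_of_nonneg_right hK' (by positivity)).trans (le_of_eq ?_)
  push_cast
  field_simp

end Pool.Agent.P.MP_8b7eba_nt.SM
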