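import Pool.Agent.P.MP_8b7eba_nt.SM.IfG
import Pool.Agent.P.MP_8b7eba_nt.R2.LC

/-! Proof of MQH, RING. -/

namespace Pool.Agent.P.MP_8b7eba_nt.SM

open Finset R2
open scoped Matrix symmDiff

namespace TRING

theorem mqh : MQH := by
  intro σ _ m
  have h2 : ∀ g, g ∈ m.H ↔ ∀ s, qz (m.n s) g = 0 := fun g => by
    rw [MQ.H, Subgroup.mem_iInf]
    exact forall_congr' fun s => (qz_eq_zero (rt_sq _)).symm
  refine ⟨⟨⟨fun g hg u => (h2 _).2 fun s => by rw [qz_conj]; exact (h2 _).1 hg s⟩, ?_⟩, h2,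
    fun g v => ?_⟩
  · rw [MQ.H, Subgroup.coe_iInf]
    exact isOpen_iInter_of_finite fun s => stabilizer_isOpen_of_isIntegral (K := ℚ) _
  · rw [h2, funext_iff]
    refine forall_congr' fun s => ?_
    have h := isCh_qz (H := ⊤) (m.n s)
    rw [h.2 _ trivial _ trivial, h.inv trivial, m.hg, neg_add_eq_zero, eq_comm]

variable {σ : Type} (m : MQ σ)

/-- products of square roots -/
noncomputable def e (U : Finset σ) : Om := ∏ s ∈ U, rt (m.n s)

/-- the sign by which `g` acts -/
noncomputable def ε (U : Finset σ) (g : GQ) : ℤ := ∏ s ∈ U, (-1) ^ (qz (m.n s) g).val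

theorem e_ne (U : Finset σ) : e m U ≠ 0 := prod_ne_zero_iff.2 fun s _ => LC.rt_ne (m.ne s)

theorem gal_e (U : Finset σ) (g : GQ) : g (e m U) = ε m U g * e m U := by
  rw [e, ε, map_prod, Int.cast_prod, ← prod_mul_distrib]
  refine prod_congr rfl fun s _ => ?_
  rw [sd_apply (δ := rt (m.n s)) (by rw [rt_sq]; exact fix_int _) g, sd_eq_qz (rt_sq _)]

theorem abs_ε (U : Finset σ) (g : GQ) : |ε m U g| = 1 := by
  rw [ε, abs_prod]
  exact prod_eq_one fun s _ => by simp

/-- the character attached to a product of square roots -/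
noncomputable def χ (U : Finset σ) : GQ →* Om where
  toFun g := g (e m U) / e m U
  map_one' := by simp [e_ne m U]
  map_mul' g h := by
    have := e_ne m U
    rw [AlgEquiv.mul_apply, gal_e m U h, map_mul, map_intCast]
    field_simp

theorem χ_apply (U : Finset σ) (g : GQ) : χ m U g = ε m U g := by
  show g (e m U) / e m U = _
  rw [gal_e, mul_div_cancel_right₀ _ (e_ne m U)]

variable [DecidableEq σ]

theorem ε_single (U : Finset σ) (s : σ) :
    ε m U (m.g (Pi.single s 1)) = if s ∈ U then -1 else 1 := by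
  rw [ε, ← prod_ite_eq U s fun _ => (-1 : ℤ)]
  refine prod_congr rfl fun t _ => ?_
  rw [m.hg]
  by_cases h : s = t
  · subst h
    simp [LC.v1]
  · simp [h, Ne.symm h]

theorem χ_inj : Function.Injective (χ m) := fun U V h => by
  ext s
  have := DFunLike.congr_fun h (m.g (Pi.single s 1))
  rw [χ_apply, χ_apply, Int.cast_inj, ε_single, ε_single] at this
  by_cases a : s ∈ U <;> by_cases b : s ∈ V <;> simp_all

theorem e_mul (U V : Finset σ) : e m U * e m V = (∏ s ∈ U ∩ V, m.n s) • e m (U ∆ V) := by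
  have h1 : U ∆ V = (U ∪ V) \ (U ∩ V) := symmDiff_eq_sup_sdiff_inf U V
  rw [e, e, e, ← prod_union_inter, h1, ← prod_sdiff (inter_subset_union (s := U) (t := V)),
    zsmul_eq_mul, Int.cast_prod, mul_assoc, ← prod_mul_distrib, mul_comm]
  congr 1
  exact prod_congr rfl fun s _ => by rw [← sq, rt_sq]

variable [Fintype σ]

theorem li : LinearIndependent ℤ (e m) := by
  rw [Fintype.linearIndependent_iff]
  intro c hc U
  have h := (linearIndependent_monoidHom GQ Om).comp _ (χ_inj m)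
  have h1 := Fintype.linearIndependent_iff.1 h (fun U => c U * e m U) (by
    funext g
    have := congrArg g hc
    rw [map_sum, map_zero] at this
    rw [Finset.sum_apply, Pi.zero_apply, ← this]
    refine sum_congr rfl fun U _ => ?_
    simp only [Function.comp_apply, Pi.smul_apply, smul_eq_mul, χ_apply, zsmul_eq_mul, map_mul,
      map_intCast, gal_e]
    ring) U
  exact_mod_cast (mul_eq_zero.1 h1).resolve_right (e_ne m U)

/-- the order -/
noncomputable def O : Subring Om where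
  carrier := Submodule.span ℤ (Set.range (e m))
  mul_mem' := fun {a b} ha hb => by
    have : Submodule.span ℤ (Set.range (e m)) * Submodule.span ℤ (Set.range (e m)) ≤
        Submodule.span ℤ (Set.range (e m)) := by
      rw [Submodule.span_mul_span, Submodule.span_le]
      rintro _ ⟨_, ⟨U, rfl⟩, _, ⟨V, rfl⟩, rfl⟩
      beta_reduce
      rw [e_mul]
      exact Submodule.smul_mem _ _ (Submodule.subset_span ⟨_, rfl⟩)
    exact this (Submodule.mul_mem_mul ha hb)
  one_mem' := Submodule.subset_span ⟨∅, rfl⟩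
  add_mem' := Submodule.add_mem _
  zero_mem' := Submodule.zero_mem _
  neg_mem' := Submodule.neg_mem _

omit [Fintype σ] in
theorem e_mem (U : Finset σ) : e m U ∈ O m := Submodule.subset_span ⟨U, rfl⟩

theorem exists_basis : ∃ b : Module.Basis (Finset σ) ℤ (O m), ∀ U, (b U : Om) = e m U := by
  have h : LinearIndependent ℤ fun U => (⟨e m U, e_mem m U⟩ : O m) :=
    Fintype.linearIndependent_iff.2 fun c hc => Fintype.linearIndependent_iff.1 (li m) c (by
      simpa using congrArg Subtype.val hc)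
  refine ⟨Module.Basis.mk h ?_, fun U => by rw [Module.Basis.mk_apply]⟩
  rintro ⟨x, hx⟩ -
  obtain ⟨c, rfl⟩ := (Submodule.mem_span_range_iff_exists_fun ℤ).1 hx
  refine (Submodule.mem_span_range_iff_exists_fun ℤ).2 ⟨c, Subtype.ext ?_⟩
  simp

variable {m} {b : Module.Basis (Finset σ) ℤ (O m)}

theorem gal_x (hb : ∀ U, (b U : Om) = e m U) (x : O m) (g : GQ) :
    g x = ∑ U, (b.repr x U * ε m U g) • e m U := by
  conv_lhs => rw [← b.sum_repr x]
  push_cast
  rw [map_sum]
  refine sum_congr rfl fun U _ => ?_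
  rw [hb, map_zsmul, gal_e, zsmul_eq_mul, zsmul_eq_mul]
  push_cast
  ring

theorem gal_mem (hb : ∀ U, (b U : Om) = e m U) (x : O m) (g : GQ) : g x ∈ O m := by
  rw [gal_x hb]
  exact sum_mem fun U _ => zsmul_mem (e_mem m U) _

theorem fix (hb : ∀ U, (b U : Om) = e m U) (x : O m) : Fix m.H x := fun g hg => by
  have h1 := gal_x hb x 1
  rw [AlgEquiv.one_apply] at h1
  rw [gal_x hb, h1]
  refine sum_congr rfl fun U _ => ?_
  congr 2
  exact prod_congr rfl fun s _ => by
    rw [((mqh σ m).2.1 g).1 hg s, (isCh_qz (H := ⊤) (m.n s)).one]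

theorem int (hb : ∀ U, (b U : Om) = e m U) {x : Om} (hx : x ∈ O m) : IsIntegral ℤ x := by
  have h1 := gal_x hb ⟨x, hx⟩ 1
  rw [AlgEquiv.one_apply] at h1
  have h2 : x = _ := h1
  rw [h2]
  refine IsIntegral.sum _ fun U _ => IsIntegral.zsmul (IsIntegral.prod _ fun s _ => ?_) _
  refine IsIntegral.of_pow two_pos ?_
  rw [rt_sq]
  exact isIntegral_algebraMap (R := ℤ) (x := m.n s)

theorem nm (hb : ∀ U, (b U : Om) = e m U) (x : O m) : ∃ z : ℤ, (z : Om) = ∏ v, m.g v x := by
  have h1 : Fix ⊤ (∏ v, m.g v x) := fun g _ => by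
    rw [map_prod]
    refine Fintype.prod_equiv (Equiv.addLeft fun s => qz (m.n s) g) _ _ fun v => ?_
    have h2 := ((mqh σ m).2.2 (g * m.g v) ((fun s => qz (m.n s) g) + v)).2 (funext fun s => by
      rw [(isCh_qz (H := ⊤) (m.n s)).2 _ trivial _ trivial, m.hg]; rfl)
    have h3 := congrArg (m.g ((fun s => qz (m.n s) g) + v)) (fix hb x _ h2)
    rw [← AlgEquiv.mul_apply, mul_inv_cancel_left] at h3
    exact h3
  obtain ⟨q, hq⟩ := h1.rat
  have h4 : IsIntegral ℤ (algebraMap ℚ Om q) := by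
    rw [eq_ratCast, ← hq]
    exact int hb (prod_mem fun v _ => gal_mem hb x _)
  obtain ⟨z, hz⟩ := IsIntegrallyClosed.isIntegral_iff.1
    ((isIntegral_algebraMap_iff (algebraMap ℚ Om).injective).1 h4)
  exact ⟨z, by rw [hq, ← hz]; simp⟩

theorem bd_mul (hb : ∀ U, (b U : Om) = e m U) {Y : ℕ} (hY : 1 ≤ Y) (hn : ∀ s, |m.n s| ≤ Y)
    (x y : O m) (a c : ℕ) (hx : ∀ i, |b.repr x i| ≤ a) (hy : ∀ i, |b.repr y i| ≤ c)
    (i : Finset σ) : |b.repr (x * y) i| ≤ ((2 * Y) ^ Fintype.card σ : ℕ) * a * c := by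
  have h1 : ∀ U V, b U * b V = (∏ s ∈ U ∩ V, m.n s) • b (U ∆ V) := fun U V => Subtype.ext (by
    push_cast
    rw [hb, hb, hb, e_mul])
  have h2 : b.repr (x * y) i =
      ∑ U, b.repr x U * (b.repr y (U ∆ i) * ∏ s ∈ U ∩ (U ∆ i), m.n s) := by
    conv_lhs => rw [← b.sum_repr x, ← b.sum_repr y, sum_mul_sum]
    simp only [smul_mul_smul_comm, h1, map_sum, map_smul, Module.Basis.repr_self,
      Finsupp.coe_finsetSum, Finset.sum_apply, Finsupp.smul_apply, smul_eq_mul]
    refine sum_congr rfl fun U _ => ?_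
    rw [sum_eq_single (U ∆ i)]
    · simp [mul_assoc]
    · intro V _ hV
      have : U ∆ V ≠ i := fun h => hV (by rw [← h, symmDiff_symmDiff_cancel_left])
      simp [this]
    · simp
  rw [h2]
  have h3 : ∀ W : Finset σ, |∏ s ∈ W, m.n s| ≤ (Y : ℤ) ^ Fintype.card σ := fun W => by
    rw [abs_prod]
    refine (prod_le_prod (fun _ _ => abs_nonneg _) fun s _ => hn s).trans ?_
    rw [prod_const]
    exact pow_le_pow_right₀ (by exact_mod_cast hY) (card_le_univ W)
  refine (abs_sum_le_sum_abs _ _).trans ((sum_le_card_nsmul _ _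
    (a * (c * (Y : ℤ) ^ Fintype.card σ)) fun U _ => ?_).trans (le_of_eq ?_))
  · rw [abs_mul, abs_mul]
    gcongr
    exacts [hx _, hy _, h3 _]
  · rw [card_univ, Fintype.card_finset, nsmul_eq_mul]
    push_cast
    ring

theorem bd_nm (hb : ∀ U, (b U : Om) = e m U) {Y : ℕ} (hY : 1 ≤ Y) (hn : ∀ s, |m.n s| ≤ Y)
    (x : O m) (a : ℕ) (hx : ∀ i, |b.repr x i| ≤ a) {z : ℤ} (hz : (z : Om) = ∏ v, m.g v x) :
    |z| ≤ ((2 * Y) ^ Fintype.card σ * a) ^ 2 ^ Fintype.card σ := by
  have hY' : (1 : ℝ) ≤ Y := by exact_mod_cast hY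
  have h1 : ∀ s, ‖io (rt (m.n s))‖ ≤ Y := fun s => by
    have h2 : ‖io (rt (m.n s))‖ ^ 2 ≤ Y := by
      rw [← norm_pow, ← map_pow, rt_sq, map_intCast, Complex.norm_intCast]
      exact_mod_cast hn s
    nlinarith [norm_nonneg (io (rt (m.n s)))]
  have h3 : ∀ U, ‖io (e m U)‖ ≤ (Y : ℝ) ^ Fintype.card σ := fun U => by
    rw [e, map_prod, norm_prod]
    refine (prod_le_prod (fun _ _ => norm_nonneg _) fun s _ => h1 s).trans ?_
    rw [prod_const]
    exact pow_le_pow_right₀ hY' (card_le_univ U)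
  have h4 : ∀ g : GQ, ‖io (g x)‖ ≤ (2 * Y : ℝ) ^ Fintype.card σ * a := fun g => by
    rw [gal_x hb, map_sum]
    refine (norm_sum_le _ _).trans ((sum_le_card_nsmul _ _
      (a * (Y : ℝ) ^ Fintype.card σ) fun U _ => ?_).trans (le_of_eq ?_))
    · rw [zsmul_eq_mul, map_mul, norm_mul, map_intCast, Complex.norm_intCast, ← Int.cast_abs,
        abs_mul, abs_ε, mul_one]
      gcongr
      · exact_mod_cast hx U
      · exact h3 U
    · rw [card_univ, Fintype.card_finset, nsmul_eq_mul]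
      push_cast
      ring
  have h5 : |(z : ℝ)| ≤ ((2 * Y : ℝ) ^ Fintype.card σ * a) ^ 2 ^ Fintype.card σ := by
    rw [← Complex.norm_intCast, ← map_intCast io, hz, map_prod, norm_prod]
    refine (prod_le_prod (fun _ _ => norm_nonneg _) fun v _ => h4 _).trans (le_of_eq ?_)
    rw [prod_const, card_univ, Fintype.card_fun, ZMod.card]
  exact_mod_cast h5

end TRING

variable [HA]

theorem t_MQH : MQH := TRING.mqh

open TRING in
theorem t_RING : RING := by
  intro σ _ _ m
  obtain ⟨b, hb⟩ := exists_basis m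
  choose N hN using nm hb
  refine ⟨O m, b, ⟨⟨N, ?_⟩, fun x y => ?_⟩, hb, fun x => ⟨int hb x.2, fix hb x, gal_mem hb x⟩, hN,
    fun Y hY hn => ⟨bd_mul hb hY hn, fun x a hx => bd_nm hb hY hn x a hx (hN x)⟩⟩
  · apply Int.cast_injective (α := Om)
    simp [hN]
  · apply Int.cast_injective (α := Om)
    simp [hN, prod_mul_distrib]

end Pool.Agent.P.MP_8b7eba_nt.SM
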