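import Pool.Agent.P.MP_8b7eba_nt.SM.IfC

/-! Proof of STR1. -/

namespace Pool.Agent.P.MP_8b7eba_nt.SM

open Finset

namespace TSTR1

variable {k M : ℕ} {T : Type}

/-- pairs of a set of coordinates and a point which vanishes outside the set -/
def nm (k M m : ℕ) : Finset (Finset (Option (Fin k)) × Gz k M) :=
  univ.filter fun p => p.1.card ≤ m ∧ ∀ i, i ∉ p.1 → p.2 i = 0

theorem card_nm (k M m : ℕ) : (nm k M m).card ≤ 2 ^ (k + 1) * (M + 1) ^ m := by
  have h1 : nm k M m ⊆ (univ.filter fun U : Finset (Option (Fin k)) => U.card ≤ m).biUnion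
      fun U => {U} ×ˢ Fintype.piFinset fun i => if i ∈ U then univ else {0} := by
    rintro ⟨U, ζ⟩ h
    simp only [nm, mem_filter, mem_univ, true_and] at h
    simp only [mem_biUnion, mem_filter, mem_univ, true_and, mem_product, mem_singleton,
      Fintype.mem_piFinset]
    refine ⟨U, h.1, rfl, fun i => ?_⟩
    by_cases hi : i ∈ U
    · simp [hi]
    · simp [hi, h.2 i hi]
  refine (card_le_card h1).trans (card_biUnion_le_card_mul _ _ ((M + 1) ^ m) ?_ |>.trans ?_)
  · intro U hU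
    rw [card_product, card_singleton, one_mul, Fintype.card_piFinset]
    have : ∀ i, (if i ∈ U then (univ : Finset (Fin (M + 1))) else {0}).card =
        if i ∈ U then M + 1 else 1 := by
      intro i; split_ifs <;> simp
    simp only [this, prod_ite_mem, univ_inter, prod_const]
    exact Nat.pow_le_pow_right (Nat.succ_pos M) (mem_filter.1 hU).2
  · refine Nat.mul_le_mul_right _ ((card_le_univ _).trans ?_)
    simp

/-- the probes -/
def pr (k M : ℕ) [Fintype T] [DecidableEq T] (A₁ : Finset T) :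
    Finset (Option T × Finset (Option (Fin k)) × Gz k M) :=
  insertNone A₁ ×ˢ nm k M (k - 1) ∪ univ ×ˢ nm k M (k - 2)

theorem card_pr [Fintype T] [DecidableEq T] (A₁ : Finset T) {s : ℕ} (hk : 2 ≤ k)
    (h1 : A₁.card ≤ s) (h2 : Fintype.card T ≤ s * (M + 1)) :
    (pr k M A₁).card ≤ 2 * ((s + 1) * 2 ^ (k + 1)) * (M + 1) ^ (k - 1) := by
  obtain ⟨n, rfl⟩ := Nat.exists_eq_add_of_le' hk
  refine (card_union_le _ _).trans ?_
  rw [card_product, card_product, card_insertNone, card_univ, Fintype.card_option]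
  have a1 := Nat.mul_le_mul (Nat.succ_le_succ h1) (card_nm (n + 2) M (n + 2 - 1))
  have a3 : Fintype.card T + 1 ≤ (s + 1) * (M + 1) := by nlinarith
  have a2 := Nat.mul_le_mul a3 (card_nm (n + 2) M (n + 2 - 2))
  refine (Nat.add_le_add a1 a2).trans (le_of_eq ?_)
  simp only [Nat.succ_eq_add_one, show n + 2 - 1 = n + 1 from rfl, Nat.add_sub_cancel]
  ring

/-- the value of a probe -/
noncomputable def w (p : Option T × Finset (Option (Fin k)) × Gz k M) (z : Gz k M) (d : T → Z2) :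
    Z2 :=
  (if ∀ i ∈ p.2.1, z i = p.2.2 i then 2 ^ p.2.1.card else 0) * p.1.elim 1 d

theorem eq_iff (k : ℕ) (a b : Z2) :
    PadicInt.toZModPow k a = PadicInt.toZModPow k b ↔ 2 ^ k ∣ a - b := by
  rw [← sub_eq_zero, ← map_sub, ← RingHom.mem_ker, PadicInt.ker_toZModPow,
    Ideal.mem_span_singleton]
  norm_num

theorem lift_dvd (k : ℕ) (a : Z2) : 2 ^ k ∣ a - ((PadicInt.toZModPow k a).val : Z2) := by
  rw [← eq_iff, map_natCast, ZMod.natCast_zmod_val]

/-- from the probes to the closure property -/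
theorem real [Fintype T] [DecidableEq T] (hLAM : LAM) (hk : 2 ≤ k) {A₁ A₂ : Finset T}
    {val Re : Gz k M → (T → Z2) → Prop} (h : Clo A₁ A₂ val Re) {ξ : Gz k M → T → Z2}
    (hξ : Cho Re ξ) {c : Gz k M → Z2} (hc : Sup Re c) {z₀ : Gz k M} {d : T → Z2} (hv : val z₀ d)
    (he : ∀ t ∈ A₂, 2 ∣ d t)
    (hp : ∀ p ∈ pr k M A₁, 2 ^ k ∣ ∑ z, c z * w p z (ξ z) - w p z₀ d) : Re z₀ d := by
  have key : ∀ o : Option T, (∀ t, o = some t → t ∈ A₁ ∨ t ∈ A₂) → ∀ l ∈ Lam k M,
      2 ^ k ∣ ∑ z, c z * (l z * o.elim 1 (ξ z)) - l z₀ * o.elim 1 d := by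
    intro o ho l hl
    refine Submodule.span_induction (p := fun l _ =>
      2 ^ k ∣ ∑ z, c z * (l z * o.elim 1 (ξ z)) - l z₀ * o.elim 1 d) ?_ ?_ ?_ ?_ ((hLAM k M).2 l hl)
    · rintro _ ⟨U, ζ, hζ, rfl⟩
      by_cases hm : (o, U, ζ) ∈ pr k M A₁
      · have := hp _ hm
        simp only [w] at this
        simpa only using this
      simp only [pr, nm, mem_union, mem_product, mem_filter, mem_univ, true_and, not_or, not_and,
        mem_insertNone] at hm
      by_cases hU : k ≤ U.card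
      · have h2 : ∀ z : Gz k M, (2 : Z2) ^ k ∣ if ∀ i ∈ U, z i = ζ i then 2 ^ U.card else 0 := by
          intro z
          split_ifs
          · exact pow_dvd_pow _ hU
          · exact dvd_zero _
        exact dvd_sub (dvd_sum fun z _ => ((h2 z).mul_right _).mul_left _) ((h2 z₀).mul_right _)
      have hU1 : k = U.card + 1 := by
        by_contra h3
        exact hm.2 (by omega) hζ
      obtain ⟨t, rfl, ht⟩ : ∃ t, o = some t ∧ t ∈ A₂ := by
        by_contra h3
        refine hm.1 (fun t ht => (ho t ht).resolve_right fun h4 => h3 ⟨t, ht, h4⟩) (by omega) hζ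
      have h2 : ∀ (z : Gz k M) (e : Z2), 2 ∣ e →
          (2 : Z2) ^ k ∣ (if ∀ i ∈ U, z i = ζ i then 2 ^ U.card else 0) * e := by
        intro z e he
        split_ifs
        · have : (2 : Z2) ^ k = 2 ^ U.card * 2 := by rw [← pow_succ, ← hU1]
          rw [this]
          exact mul_dvd_mul_left _ he
        · simp
      refine dvd_sub (dvd_sum fun z _ => ?_) (h2 z₀ _ (he t ht))
      by_cases hz : c z = 0
      · simp [hz]
      · exact (h2 z _ ((h.sub z _ (hξ z (hc z hz))).2 t ht)).mul_left _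
    · simp
    · intro x y _ _ hx hy
      convert dvd_add hx hy using 1
      simp only [Pi.add_apply, add_mul, mul_add, sum_add_distrib]
      ring
    · intro a x _ hx
      convert hx.mul_left a using 1
      simp only [Pi.smul_apply, smul_eq_mul, mul_sub, mul_sum]
      congr 1
      · exact sum_congr rfl fun z _ => by ring
      · ring
  refine h.clo ξ hξ c z₀ d hc hv (fun l hl => ?_) (fun l hl t ht => ?_) fun t => ?_
  · simpa using key none (fun t ht => by cases ht) l hl
  · exact key (some t) (fun t' ht' => by cases ht'; exact ht) l hl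
  · have := hp (some t, ∅, 0) (by simp [pr, nm])
    simpa [w] using this

end TSTR1

open TSTR1

theorem t_STR1 (hLAM : LAM) (hCNT1 : CNT1) : STR1 := by
  classical
  intro k s hk
  refine ⟨(k + 2 + k * s) * (k * (2 * ((s + 1) * 2 ^ (k + 1)))), ?_⟩
  intro M T _ A₁ A₂ val h1 h2
  let ev' : Gz k M → (T → Z2) → pr k M A₁ → ZMod (2 ^ k) :=
    fun z d p => PadicInt.toZModPow k (w p.1 z d)
  let ev : Gz k M × (T → ZMod (2 ^ k)) → pr k M A₁ → ZMod (2 ^ k) :=
    fun c => ev' c.1 fun t => ((c.2 t).val : Z2)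
  obtain ⟨𝒮, hS1, hS2⟩ := hCNT1 _ _ ev (k * (pr k M A₁).card) (by
    rw [Nat.card_fun, Nat.card_zmod, pow_mul]; simp)
  let ok : AddSubgroup (pr k M A₁ → ZMod (2 ^ k)) → Gz k M → (T → Z2) → Prop :=
    fun E z d => val z d ∧ (∀ t ∈ A₂, 2 ∣ d t) ∧ ev' z d ∈ E
  refine ⟨𝒮.image fun E => (fun z => ∃ d, ok E z d,
    fun z => if h : ∃ d, ok E z d then h.choose else 0), card_image_le.trans (hS1.trans ?_), ?_⟩
  · have b1 : (M + 1) ^ (k + 1) ≤ 2 ^ ((M + 1) * (k + 1)) := by
      rw [pow_mul]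
      exact Nat.pow_le_pow_left Nat.lt_two_pow_self.le _
    have b2 : (2 ^ k) ^ Fintype.card T ≤ 2 ^ (k * (s * (M + 1))) := by
      rw [pow_mul]
      exact Nat.pow_le_pow_right (by positivity) h2
    have b3 : Fintype.card (Gz k M × (T → ZMod (2 ^ k))) + 1 ≤ 2 ^ ((k + 2 + k * s) * (M + 1)) := by
      rw [Fintype.card_prod, Fintype.card_fun, Fintype.card_fun, Fintype.card_option,
        Fintype.card_fin, Fintype.card_fin, ZMod.card]
      have b4 := Nat.mul_le_mul b1 b2
      rw [← pow_add] at b4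
      refine (Nat.succ_le_succ b4).trans (Nat.succ_le_of_lt (Nat.pow_lt_pow_right one_lt_two ?_))
      nlinarith
    refine (Nat.pow_le_pow_left b3 _).trans ?_
    rw [← pow_mul]
    refine Nat.pow_le_pow_right two_pos ?_
    have b5 := Nat.mul_le_mul_left ((k + 2 + k * s) * (M + 1))
      (Nat.mul_le_mul_left k (card_pr A₁ hk h1 h2))
    refine b5.trans (le_of_eq ?_)
    have : (M + 1) ^ k = (M + 1) ^ (k - 1) * (M + 1) := by
      rw [← pow_succ, Nat.sub_add_cancel (by omega)]
    rw [this]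
    ring
  intro Re h
  let f : Gz k M → T → ZMod (2 ^ k) :=
    fun z t => PadicInt.toZModPow k ((if h : ∃ δ, Re z δ then h.choose else 0) t)
  let ξ : Gz k M → T → Z2 := fun z t => ((f z t).val : Z2)
  have hξ : Cho Re ξ := by
    intro z hz
    refine h.cr z hz.choose _ (fun t => ?_) hz.choose_spec
    simp only [ξ, f, dif_pos hz]
    exact lift_dvd k _
  let S : Set (Gz k M × (T → ZMod (2 ^ k))) := {c | (∃ δ, Re c.1 δ) ∧ c.2 = f c.1}
  have hE : ∀ x ∈ AddSubgroup.closure (ev '' S), ∃ c : Gz k M → Z2, Sup Re c ∧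
      ∀ p : pr k M A₁, PadicInt.toZModPow k (∑ z, c z * w p.1 z (ξ z)) = x p := by
    intro x hx
    induction hx using AddSubgroup.closure_induction with
    | mem x hx =>
      obtain ⟨⟨z, g⟩, ⟨hz, hg⟩, rfl⟩ := hx
      obtain rfl : g = f z := hg
      refine ⟨Pi.single z 1, fun z' hz' => ?_, fun p => ?_⟩
      · by_cases h3 : z' = z
        · exact h3 ▸ hz
        · exact absurd (Pi.single_eq_of_ne h3 _) hz'
      · rw [sum_eq_single z (fun z' _ h3 => by rw [Pi.single_eq_of_ne h3, zero_mul]) (by simp),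
          Pi.single_eq_same, one_mul]
    | zero => exact ⟨0, fun z hz => absurd rfl hz, fun p => by simp⟩
    | add x y _ _ hx hy =>
      obtain ⟨c, hc, hx⟩ := hx
      obtain ⟨c', hc', hy⟩ := hy
      refine ⟨c + c', fun z hz => ?_, fun p => ?_⟩
      · by_cases h3 : c z = 0
        · exact hc' z (by simpa [h3] using hz)
        · exact hc z h3
      · simp only [Pi.add_apply, add_mul, sum_add_distrib, map_add, hx, hy]
    | neg x _ hx =>
      obtain ⟨c, hc, hx⟩ := hx
      refine ⟨-c, fun z hz => hc z (by simpa using hz), fun p => ?_⟩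
      simp only [Pi.neg_apply, neg_mul, sum_neg_distrib, map_neg, hx]
  have hok : ∀ z d, ok (AddSubgroup.closure (ev '' S)) z d → Re z d := by
    rintro z d ⟨a1, a2, a3⟩
    obtain ⟨c, hc, hx⟩ := hE _ a3
    exact real hLAM hk h hξ hc a1 a2 fun p hp => (eq_iff _ _ _).1 (hx ⟨p, hp⟩)
  have hre : ∀ z, (∃ δ, Re z δ) → ∃ d, ok (AddSubgroup.closure (ev '' S)) z d := fun z hz =>
    ⟨ξ z, (h.sub z _ (hξ z hz)).1, (h.sub z _ (hξ z hz)).2,
      AddSubgroup.subset_closure ⟨(z, f z), ⟨hz, rfl⟩, rfl⟩⟩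
  refine ⟨_, mem_image_of_mem _ (hS2 S), fun z => ⟨fun ⟨d, hd⟩ => ⟨d, hok z d hd⟩, hre z⟩,
    fun z hz => ?_⟩
  simp only [dif_pos (hre z hz)]
  exact hok z _ (hre z hz).choose_spec

end Pool.Agent.P.MP_8b7eba_nt.SM
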